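import Pool.Agent.U220.PF.Fin

/-!
# The order of the pole for products with many members of a family that is known for pairs

`X` is a smooth projective variety over `ℚ` and `Y_e`, `e ∈ ι`, is any family of smooth projective
varieties over `ℚ` with bounded Betti numbers.  We study `L(H^n(X × Y_{l_1} × ⋯ × Y_{l_k}), s)` at the
edge `s = n/2 + 1` for all `k`-tuples `l` of indices and all `k` and `n`; for `n = 2m` this is the point
`s = m + 1` in the conjecture of Tate, the case `m = n/2` of the problem.  The conjecture is the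
statement that these orders are given by the algebraic cycles.  Already for a family of elliptic curves
they are not known in general if `k` is large.

The only thing we need to know are the orders for ONE and for TWO members of the family
(`IsPairFamily`): the orders `-τ_{e,c}` of `L(H^c(Y_e), s)`, and for two unrelated members the orders
`-τ_{e,c} τ_{e',c}` of `L(H^c(Y_e) ⊗ H^c(Y_{e'}), s)` in the case of the SAME degree `c`, that is, there
is no algebraic class of this Künneth component besides the products.  In many cases this is known by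
the theory of Rankin and Selberg, for example for modular elliptic curves, for abelian varieties
attached to newforms, or for rigid Calabi-Yau threefolds whose divisors are defined over `ℚ`.  Nothing
is assumed about different degrees, about three or more members, or about `X`, and nothing about
analytic continuation, except that the order exists, where we speak about an order.

The prediction of the conjecture is that, unless there are more algebraic classes than the products of
those on the factors, the order is the coefficient of `T^n` in `z(T) τ_{l_1}(T) ⋯ τ_{l_k}(T)` with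
`z(T) = ∑ z_c T^c` made from the orders for `X` (`QQ`).  We prove that this is right for `100` percent
of all `k`-tuples, with a power saving and explicit constants: in mean square (parts 1, 2) and for
products of the members of the family alone also without knowing anything about `X` (part 3).  Moreover
there is ONE infinite subfamily which works for all varieties `X` over `ℚ` at once (part 4).  The
result `ManyFactors` of this folder is the case of a family of elliptic curves.

The definitions are in `Pool.Agent.Y149.PK.Defs`, `Pool.Agent.Y149.PK.Point` and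
`Pool.Agent.Y149.CM.Defs`.  The proof is an assembly of theorems from the library `Pool.Agent.Y149`
of the team member helper149.
-/

set_option autoImplicit false

namespace Pool.Agent.Results.MP_058a58_ag.FamiliesFromPairs

open Filter Topology Polynomial
open Pool.Agent.Y149.CM (LFun)
open Pool.Agent.Y149.PK

/-- **Products with many members of a family which is known for pairs.**  `Y_e`, `e ∈ ι`, are smooth
projective varieties over `ℚ` with Betti numbers at most `N c`.  The order of `L(H^c(Y_e), s)` at
`s = c/2 + 1` is `-τ_{e,c}`, and for any two unrelated members (every member is related to at most `M`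
members) the order of `L(H^c(Y_e) ⊗ H^c(Y_{e'}), s)` at `s = c + 1` is `-τ_{e,c} τ_{e',c}`.  For a smooth
projective variety `X` over `ℚ`, `B l n` are the Euler factors of
`L(H^n(X × Y_{l_1} × ⋯ × Y_{l_k}), s)`, and `D` is the coefficient of `T^n` in
`N_X(T) (∑ N_c T^c)^k`, `N_X` the Poincaré polynomial of `X` (an upper bound of the dimension).
1. For every finite set `J` of indices, `η > 0` and all small `ε > 0` the sum over all `k`-tuples `l`
of members of `J` of the squares of
`(log |L(H^n(X × Y_l), n/2+1+ε)|) / log(1/ε) - QQ(l)` is at most `2 M (k D)² |J|^{k-1} + η`, where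
`QQ(l)` is the coefficient of `T^n` in `∑ z_c T^c τ_{l_1}(T) ⋯ τ_{l_k}(T)`,
`z_c = log |L(H^c(X), c/2+1+ε)| / log(1/ε)`.
2. If `L(H^c(X), s)` has a pole of order `r₀(c)` at the edge for `c ≤ n`, then the sum of the squares
`(r(l) - QQ(l))²` over all `k`-tuples of members of `J` for which the order `-r(l)` of
`L(H^n(X × Y_l), s)` at `s = n/2 + 1` exists, and also the number of those among them with
`r(l) ≠ QQ(l)`, is at most `2 M (k D)² |J|^{k-1}`; here `QQ(l)` is the coefficient of `T^n` in
`∑ r₀(c) T^c τ_{l_1}(T) ⋯ τ_{l_k}(T)`.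
3. The same for a point `X`, with `∑ r₀(c) T^c = 1`: `A l n` are the Euler factors of
`L(H^n(Y_{l_1} × ⋯ × Y_{l_k}), s)`, and `QQ(l)` is the coefficient of `T^n` in
`τ_{l_1}(T) ⋯ τ_{l_k}(T)`.
4. Let `ι` be infinite and let `X_0, X_1, …` be a sequence of smooth projective varieties over `ℚ`, for
example all of them, for which all these orders exist.  There is an infinite subset `𝒥` of `ι` with
finite subsets `F_0, F_1, …` such that for all `j`, `k`, `n` and all `k`-tuples `l` of different
members of `𝒥` outside of `F_j` the order for `H^n(X_j × Y_l)` is the predicted one. -/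
theorem result (ι : Type) (M : ℕ) (Y : ι → Variety) (N : ℕ → ℕ) (τ : ι → ℕ → ℤ)
    (hY : IsPairFamily Y N M τ) :
    (∀ (X : Variety) (B : List ι → ℕ → Nat.Primes → ℂ[X]), IsSystem X Y B →
      (∀ (k n : ℕ) (J : Finset ι) (η : ℝ), 0 < η → ∀ᶠ ε : ℝ in 𝓝[>] 0,
        (∀ c, c ≤ n → LFun (B [] c) ((c : ℂ) / 2 + 1 + ε) ≠ 0) ∧
        (∀ l ∈ tuples J k, LFun (B (List.ofFn l) n) ((n : ℂ) / 2 + 1 + ε) ≠ 0) ∧
        ∑ l ∈ tuples J k, (size n (B (List.ofFn l) n) ε -
          QQ (fun c => size c (B [] c) ε) (fun e c => (τ e c : ℝ)) (List.ofFn l) n) ^ 2 ≤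
          2 * M * (k * (dimY X.betti N k n : ℝ)) ^ 2 * (J.card : ℝ) ^ (k - 1) + η) ∧
      (∀ (k n : ℕ) (r₀ : ℕ → ℤ), (∀ c, c ≤ n → HasOrder c (B [] c) (-(r₀ c))) →
        ∀ (J : Finset ι) (S : Finset (Fin k → ι)) (r : (Fin k → ι) → ℤ),
        (∀ l ∈ S, (∀ i, l i ∈ J) ∧ HasOrder n (B (List.ofFn l) n) (-(r l))) →
        ∑ l ∈ S, (r l - QQ r₀ τ (List.ofFn l) n) ^ 2 ≤
          2 * M * (k * (dimY X.betti N k n : ℤ)) ^ 2 * (J.card : ℤ) ^ (k - 1) ∧
        ((S.filter fun l => r l ≠ QQ r₀ τ (List.ofFn l) n).card : ℤ) ≤
          2 * M * (k * (dimY X.betti N k n : ℤ)) ^ 2 * (J.card : ℤ) ^ (k - 1))) ∧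
    (∀ A : List ι → ℕ → Nat.Primes → ℂ[X], IsSystem point Y A →
      ∀ (k n : ℕ) (J : Finset ι) (S : Finset (Fin k → ι)) (r : (Fin k → ι) → ℤ),
      (∀ l ∈ S, (∀ i, l i ∈ J) ∧ HasOrder n (A (List.ofFn l) n) (-(r l))) →
      ∑ l ∈ S, (r l - QQ (fun c => if c = 0 then 1 else 0) τ (List.ofFn l) n) ^ 2 ≤
        2 * M * (k * (dimY point.betti N k n : ℤ)) ^ 2 * (J.card : ℤ) ^ (k - 1) ∧
      ((S.filter fun l => r l ≠ QQ (fun c => if c = 0 then 1 else 0) τ (List.ofFn l) n).card : ℤ) ≤
        2 * M * (k * (dimY point.betti N k n : ℤ)) ^ 2 * (J.card : ℤ) ^ (k - 1)) ∧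
    (Infinite ι → ∀ (X : ℕ → Variety) (B : ℕ → List ι → ℕ → Nat.Primes → ℂ[X]),
      (∀ j, IsSystem (X j) Y (B j)) →
      ∀ r : ℕ → List ι → ℕ → ℤ, (∀ j l n, HasOrder n (B j l n) (-(r j l n))) →
      ∃ 𝒥 : Set ι, 𝒥.Infinite ∧ ∀ j, ∃ F : Finset ι, (∀ x ∈ F, x ∈ 𝒥) ∧
        ∀ (k : ℕ) (l : Fin k → ι), Function.Injective l → (∀ i, l i ∈ 𝒥 ∧ l i ∉ F) →
        ∀ n, r j (List.ofFn l) n = QQ (r j []) τ (List.ofFn l) n) := by
  classical
  refine ⟨fun X B hB => ⟨fun k n J η hη => U220.PF.mean hY X hB k n J hη,
    fun k n r₀ hr₀ J S r hS => ?_⟩, fun A hA k n J S r hS => ?_, fun hι X B hB r hr => ?_⟩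
  · have h1 := U220.PF.order hY X hB hr₀ J S r hS
    refine ⟨h1, ?_⟩
    convert U220.PF.card_of_sq S r (fun l => QQ r₀ τ (List.ofFn l) n) h1
  · have h1 := U220.PF.order_point hY (B := fun l => A (List.ofFn l) n)
      (fun l => hA (List.ofFn l) n) J S r hS
    refine ⟨h1, ?_⟩
    convert U220.PF.card_of_sq S r
      (fun l => QQ (fun c => if c = 0 then 1 else 0) τ (List.ofFn l) n) h1
  · exact Pool.Agent.Y149.TL.gen_universal hY X hB hr

end Pool.Agent.Results.MP_058a58_ag.FamiliesFromPairs
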