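import Mathlib
import Pool.Agent.U462.Sh.ZTwo

set_option autoImplicit false

/-!
# The two shapes of prime quadruples: every two sets of exceptional places are possible
-/

namespace Pool.Agent.Results.MP_092512_nt.AnySetsOfPlaces

open Finset Filter
open scoped Topology
open Pool.Agent.U462.Sh.Law

/-- **Every two sets of exceptional places are possible.** For all sets `T₁`, `T₂` of natural numbers there
is a set `S` of rough numbers `≥ 2` without quadruples `t, t + 2, t + 6, t + 8`, `t` in `T₁`, and without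
quadruples `t, t + 4, t + 6, t + 10`, `t` in `T₂`, in which the number of the quadruples of the first
(second) shape with `x ≤ t < 2 x` tends to infinity if `x` runs through numbers such that `T₁` (`T₂`) has no
element in `[x, 2 x)`, and for which the uniform Hardy–Littlewood law holds for all systems of linear forms
and all intervals, except for systems with four forms `l, l + 2, l + 6, l + 8` (or `l`, `l + 4`, `l + 6`,
`l + 10`) for which `l` has in the interval a value in `T₁` (or `T₂`). -/
theorem result : ∀ T₁ T₂ : Set ℕ, ∃ S : Set ℕ, (∀ m ∈ S, 2 ≤ m ∧ Rough m) ∧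
    (∀ t ∈ T₁, ¬ (t ∈ S ∧ t + 2 ∈ S ∧ t + 6 ∈ S ∧ t + 8 ∈ S)) ∧
    (∀ t ∈ T₂, ¬ (t ∈ S ∧ t + 4 ∈ S ∧ t + 6 ∈ S ∧ t + 10 ∈ S)) ∧
    (∀ K : ℕ, ∃ x₀ : ℕ, ∀ x : ℕ, x₀ ≤ x → (∀ t ∈ T₁, ¬ (x ≤ t ∧ t < 2 * x)) →
      K ≤ {t : ℕ | x ≤ t ∧ t < 2 * x ∧ t ∈ S ∧ t + 2 ∈ S ∧ t + 6 ∈ S ∧ t + 8 ∈ S}.ncard) ∧
    (∀ K : ℕ, ∃ x₀ : ℕ, ∀ x : ℕ, x₀ ≤ x → (∀ t ∈ T₂, ¬ (x ≤ t ∧ t < 2 * x)) →
      K ≤ {t : ℕ | x ≤ t ∧ t < 2 * x ∧ t ∈ S ∧ t + 4 ∈ S ∧ t + 6 ∈ S ∧ t + 10 ∈ S}.ncard) ∧
    LawOn S (fun L u v => (∀ a b : ℤ, (a, b) ∈ L → (a, b + 2) ∈ L → (a, b + 6) ∈ L → (a, b + 8) ∈ L →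
        ∀ m : ℕ, u ≤ m → m < v → value (a, b) m ∉ T₁) ∧
      ∀ a b : ℤ, (a, b) ∈ L → (a, b + 4) ∈ L → (a, b + 6) ∈ L → (a, b + 10) ∈ L →
        ∀ m : ℕ, u ≤ m → m < v → value (a, b) m ∉ T₂) := by
  classical
  intro T₁ T₂
  obtain ⟨S, h1, h2, h2', h3⟩ := Pool.Agent.U462.Sh.shiftsOn {0, 2, 6, 8} {0, 4, 6, 10} (by simp) (by simp)
    (by decide) T₁ T₂
  have hlaw : LawOn S (fun L u v => (∀ a b : ℤ, (a, b) ∈ L → (a, b + 2) ∈ L → (a, b + 6) ∈ L → (a, b + 8) ∈ L →
        ∀ m : ℕ, u ≤ m → m < v → value (a, b) m ∉ T₁) ∧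
      ∀ a b : ℤ, (a, b) ∈ L → (a, b + 4) ∈ L → (a, b + 6) ∈ L → (a, b + 10) ∈ L →
        ∀ m : ℕ, u ≤ m → m < v → value (a, b) m ∉ T₂) := by
    refine Pool.Agent.U462.Sh.on_mono ?_ h3
    intro L u v hL
    refine ⟨?_, ?_⟩
    · intro a b hab
      exact hL.1 a b (by simpa using hab 0 (by simp)) (by simpa using hab 2 (by simp))
        (by simpa using hab 6 (by simp)) (by simpa using hab 8 (by simp))
    · intro a b hab
      exact hL.2 a b (by simpa using hab 0 (by simp)) (by simpa using hab 4 (by simp))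
        (by simpa using hab 6 (by simp)) (by simpa using hab 10 (by simp))
  have hval : ∀ m : ℕ, value (1, 0) m = m := fun m => by simp [value]
  refine ⟨S, h1, ?_, ?_, ?_, ?_, hlaw⟩
  · rintro t ht ⟨h4, h5, h6, h7⟩
    apply h2 t ht
    intro d hd
    simp only [mem_insert, mem_singleton] at hd
    rcases hd with rfl | rfl | rfl | rfl
    exacts [h4, h5, h6, h7]
  · rintro t ht ⟨h4, h5, h6, h7⟩
    apply h2' t ht
    intro d hd
    simp only [mem_insert, mem_singleton] at hd
    rcases hd with rfl | rfl | rfl | rfl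
    exacts [h4, h5, h6, h7]
  · intro K
    obtain ⟨x0, hx0⟩ := Pool.Agent.U462.Sh.many_shift hlaw {0, 2, 6, 8} (by
      intro p hp
      have hp2 := hp.two_le
      by_cases h7 : p = 7
      · subst h7
        refine ⟨2, by norm_num, ?_⟩
        intro d hd
        simp only [mem_insert, mem_singleton] at hd
        rcases hd with rfl | rfl | rfl | rfl <;> norm_num
      · by_cases h3 : p = 3
        · subst h3
          refine ⟨2, by norm_num, ?_⟩
          intro d hd
          simp only [mem_insert, mem_singleton] at hd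
          rcases hd with rfl | rfl | rfl | rfl <;> norm_num
        · refine ⟨1, by omega, ?_⟩
          intro d hd hdvd
          simp only [mem_insert, mem_singleton] at hd
          rcases hd with rfl | rfl | rfl | rfl
          · have := Nat.le_of_dvd (by norm_num) hdvd
            omega
          · exact h3 ((Nat.prime_dvd_prime_iff_eq hp Nat.prime_three).1 hdvd)
          · exact h7 ((Nat.prime_dvd_prime_iff_eq hp (by norm_num)).1 hdvd)
          · have h9 : p ∣ 3 ^ 2 := by norm_num; exact hdvd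
            exact h3 ((Nat.prime_dvd_prime_iff_eq hp Nat.prime_three).1 (hp.dvd_of_dvd_pow h9))) K
    refine ⟨x0, fun x hx hxT => (hx0 x hx ?_).trans ?_⟩
    · refine ⟨?_, ?_⟩
      · intro a b ha hb hc hd m hm1 hm2 hT
        simp only [Pool.Agent.U462.Sh.ssys_mem, mem_insert, mem_singleton, exists_eq_or_imp, exists_eq_left] at ha hb hc hd
        have hab : a = 1 ∧ b = 0 := by push_cast at ha hb hc hd; omega
        obtain ⟨rfl, rfl⟩ := hab
        rw [hval] at hT
        exact hxT m hT ⟨hm1, hm2⟩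
      · intro a b ha hb hc hd m hm1 hm2 hT
        simp only [Pool.Agent.U462.Sh.ssys_mem, mem_insert, mem_singleton, exists_eq_or_imp, exists_eq_left] at ha hb hc hd
        push_cast at ha hb hc hd
        omega
    · apply Set.ncard_le_ncard _ ((Set.finite_Iio (2 * x)).subset fun p hp => hp.2.1)
      rintro m ⟨hm1, hm2, hall⟩
      exact ⟨hm1, hm2, by simpa using hall 0 (by simp), hall 2 (by simp), hall 6 (by simp), hall 8 (by simp)⟩
  · intro K
    obtain ⟨x0, hx0⟩ := Pool.Agent.U462.Sh.many_shift hlaw {0, 4, 6, 10} (by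
      intro p hp
      have hp2 := hp.two_le
      by_cases h7 : p = 7
      · subst h7
        refine ⟨2, by norm_num, ?_⟩
        intro d hd
        simp only [mem_insert, mem_singleton] at hd
        rcases hd with rfl | rfl | rfl | rfl <;> norm_num
      · by_cases h5 : p = 5
        · subst h5
          refine ⟨2, by norm_num, ?_⟩
          intro d hd
          simp only [mem_insert, mem_singleton] at hd
          rcases hd with rfl | rfl | rfl | rfl <;> norm_num
        · by_cases h11 : p = 11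
          · subst h11
            refine ⟨2, by norm_num, ?_⟩
            intro d hd
            simp only [mem_insert, mem_singleton] at hd
            rcases hd with rfl | rfl | rfl | rfl <;> norm_num
          · refine ⟨1, by omega, ?_⟩
            intro d hd hdvd
            simp only [mem_insert, mem_singleton] at hd
            rcases hd with rfl | rfl | rfl | rfl
            · have := Nat.le_of_dvd (by norm_num) hdvd
              omega
            · exact h5 ((Nat.prime_dvd_prime_iff_eq hp Nat.prime_five).1 hdvd)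
            · exact h7 ((Nat.prime_dvd_prime_iff_eq hp (by norm_num)).1 hdvd)
            · exact h11 ((Nat.prime_dvd_prime_iff_eq hp (by norm_num)).1 hdvd)) K
    refine ⟨x0, fun x hx hxT => (hx0 x hx ?_).trans ?_⟩
    · refine ⟨?_, ?_⟩
      · intro a b ha hb hc hd m hm1 hm2 hT
        simp only [Pool.Agent.U462.Sh.ssys_mem, mem_insert, mem_singleton, exists_eq_or_imp, exists_eq_left] at ha hb hc hd
        push_cast at ha hb hc hd
        omega
      · intro a b ha hb hc hd m hm1 hm2 hT
        simp only [Pool.Agent.U462.Sh.ssys_mem, mem_insert, mem_singleton, exists_eq_or_imp, exists_eq_left] at ha hb hc hd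
        have hab : a = 1 ∧ b = 0 := by push_cast at ha hb hc hd; omega
        obtain ⟨rfl, rfl⟩ := hab
        rw [hval] at hT
        exact hxT m hT ⟨hm1, hm2⟩
    · apply Set.ncard_le_ncard _ ((Set.finite_Iio (2 * x)).subset fun p hp => hp.2.1)
      rintro m ⟨hm1, hm2, hall⟩
      exact ⟨hm1, hm2, by simpa using hall 0 (by simp), hall 4 (by simp), hall 6 (by simp), hall 10 (by simp)⟩

end Pool.Agent.Results.MP_092512_nt.AnySetsOfPlaces
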