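import Pool.Agent.Results.MP_122e00_nt.PowerSavingShifts
import Pool.Agent.U828.KD.NearP

/-!
# Correlations of the divisor functions with a power saving, for ALL the shifts near almost all values of an arbitrary
function of higher convexity

Fix `k ≥ 2`. Let `f` be ANY function on `{1, ..., x}`, `x ≥ N ^ (1 / k + ρ)`, with values in `[-B N, B N]`, whose differences
of order `k` are all at least `N ^ (1 - δ) / x ^ k`, or all at most the negative of this number. For all but `x N ^ (-δ)` of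
the `m ≤ x`, ALL the shifts `h ≠ 0` at a distance of at most `N ^ δ` from `f m` satisfy the asymptotic formula for the sum of
`d_r(n) d_r(n + h)` with a power saving, for all `x ≤ N`.

For `k = 2` these are the strictly convex (or concave) functions; for larger `k` there are only `N ^ (1 / k + ρ)` points, so
the shifts run through neighbourhoods of arbitrarily sparse sets (any power `N ^ θ`, `θ > 0`), and no regularity is assumed
besides the sign and the size of the `k`-th differences. The earlier results of this problem on thin sets of shifts treat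
values of integer polynomials, digit sets, random sets and families of nearly minimal additive energy.

Proof: a `k`-th derivative test of van der Corput's type for arbitrary sequences and Fejér kernels give, up to
`N ^ ε`, the least possible additive energy of some order `h(ρ)` of the integers near the values
(`Pool.Agent.U828.KD.energy_r`, helper828); then part (1) of the starting hand-in `PowerSavingShifts` is applied for every
distance of the shift from the integer part of `f m` (`Pool.Agent.U828.KD.near_pow`).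
-/

set_option autoImplicit false

namespace Pool.Agent.Results.MP_122e00_nt.HigherConvexShifts

open Finset Polynomial

/-- `d_r(n)`: the number of the ordered `r`-tuples of positive integers with product `n` (and `d_r(0) = 0`) -/
def d (r n : ℕ) : ℕ := ((ArithmeticFunction.zeta : ArithmeticFunction ℕ) ^ r) n

/-- `D_r(x; h)`: the sum of `d_r(n) d_r(n + h)` over `1 ≤ n ≤ x`, with `d_r(m) = 0` for `m ≤ 0` -/
noncomputable def D (r x : ℕ) (h : ℤ) : ℝ := ∑ n ∈ Icc 1 x, (d r n : ℝ) * d r ((n : ℤ) + h).toNat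

/-- `e(t) = exp(2 π i t)` -/
noncomputable def e (t : ℝ) : ℂ := Complex.exp (2 * Real.pi * Complex.I * t)

/-- The Ramanujan sum `c_q(h)`: the sum of `μ(q / g) g` over the common divisors `g` of `q` and `h`. -/
def ram (q : ℕ) (h : ℤ) : ℤ := ∑ g ∈ q.divisors.filter (fun g : ℕ => (g : ℤ) ∣ h), ArithmeticFunction.moebius (q / g) * g

/-- `κ_s(q)`: the proportion of the `s`-tuples of residues `0 ≤ a < q` whose product is divisible by `q` -/
noncomputable def κ (s q : ℕ) : ℝ := (Nat.card {a : Fin s → Fin q // q ∣ ∏ i, (a i : ℕ)} : ℝ) / (q : ℝ) ^ s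

/-- The singular series `𝔖_r(h)`: the sum of `κ_{r - 1}(q) ^ 2 c_q(h)` over the `q ≥ 1`. -/
noncomputable def 𝔖 (r : ℕ) (h : ℤ) : ℝ := ∑' q : ℕ, κ (r - 1) (q + 1) ^ 2 * (ram (q + 1) h : ℝ)

/-- The polynomials `P_q`, `q ≥ 1`, are the densities of `d_r(n) e(b n / q)`, `(b, q) = 1`, with a power saving. -/
def Density (r : ℕ) (P : ℕ → ℝ[X]) : Prop := ∃ C A δ : ℝ, 0 < δ ∧ ∀ q b x : ℕ, 1 ≤ q → b.Coprime q → 1 ≤ x →
  ‖∑ n ∈ Icc 1 x, (d r n : ℂ) * e ((b : ℝ) * n / q) - ((∑ n ∈ Icc 1 x, (P q).eval (Real.log n) : ℝ) : ℂ)‖ ≤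
    C * (q : ℝ) ^ A * (x : ℝ) ^ (1 - δ)

/-- the series `∑ c_q(h) P_q(u) P_q(v)` over the `q ≥ 1` -/
noncomputable def G (P : ℕ → ℝ[X]) (h : ℤ) (u v : ℝ) : ℝ :=
  ∑' q : ℕ, (ram (q + 1) h : ℝ) * ((P (q + 1)).eval u * (P (q + 1)).eval v)

/-- the main term: the sum of `G (log n) (log (n + h))` over the `n` with `1 ≤ n ≤ x` and `n + h ≥ 1` -/
noncomputable def main (P : ℕ → ℝ[X]) (x : ℕ) (h : ℤ) : ℝ :=
  ∑ n ∈ (Icc 1 x).filter (fun n : ℕ => 1 ≤ (n : ℤ) + h), G P h (Real.log n) (Real.log ((n : ℝ) + h))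

/-- For ALL `x ≤ N`: `D_r(x; h)` is the main term up to `N ^ (1 - θ)` and, if `|h| ≤ N ^ (1 - η)`, it is
`x T_h(log x)` up to `N ^ (1 - η / 8)`. -/
def Asymp (r N : ℕ) (P : ℕ → ℝ[X]) (T : ℤ → ℝ[X]) (θ η : ℝ) (h : ℤ) : Prop := ∀ x : ℕ, x ≤ N →
  |D r x h - main P x h| ≤ (N : ℝ) ^ (1 - θ) ∧
    ((|h| : ℝ) ≤ (N : ℝ) ^ (1 - η) → |D r x h - x * (T h).eval (Real.log x)| ≤ (N : ℝ) ^ (1 - η / 8))

/-- The differences of order `k` of `f` on `{1, ..., x}` are all at least `t`, or all at most `-t`. Here `fwdDiff 1 f m`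
is the difference `f (m + 1) - f m`. -/
def Bent (k x : ℕ) (f : ℕ → ℝ) (t : ℝ) : Prop :=
  (∀ m, 1 ≤ m → m + k ≤ x → t ≤ (fwdDiff 1)^[k] f m) ∨ (∀ m, 1 ≤ m → m + k ≤ x → (fwdDiff 1)^[k] f m ≤ -t)

open Classical in
/-- **Correlations of the divisor functions, with a power saving, for all the shifts near the values of arbitrary
functions of higher convexity.** Let `r ≥ 2`. There are polynomials `P_q` (`q ≥ 1`) and `T_h` (`h ≠ 0`) with the following properties.

(0) `P_q` is the density of `d_r(n) e(b n / q)`, `(b, q) = 1`; it has degree `r - 1`, leading coefficient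
`κ_{r - 1}(q) / (r - 1)!`, and coefficients `O(q ^ (ε - 1))`. For `h ≠ 0` the series `G_h(u, v) = ∑ c_q(h) P_q(u) P_q(v)`
converges absolutely; `T_h(u) + T_h'(u) = G_h(u, u)`, so that `y T_h(log y)` has the derivative `G_h(log y, log y)`;
`T_h` has degree `2 r - 2` and leading coefficient `𝔖_r(h) / ((r - 1)!) ^ 2`. (This part is from the starting files.)

(1) For all `k ≥ 2`, `B` and `ρ > 0` there are `θ > 0` and `δ > 0` such that for every `0 < η ≤ θ`, every large `N`, every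
`x ≥ N ^ (1 / k + ρ)` and EVERY function `f` with values in `[-B N, B N]` on `{1, ..., x}` whose differences of order `k` are
all at least `N ^ (1 - δ) / x ^ k`, or all at most the negative of this number: for all but at most `x N ^ (-δ)` of the
`m ≤ x`, ALL the shifts `h ≠ 0` with `|h - f m| ≤ N ^ δ` satisfy, for ALL `y ≤ N`,
`D_r(y; h) = ∑ G_h(log n, log(n + h)) + O(N ^ (1 - θ))` (the sum over `n ≤ y` with `n + h ≥ 1`) and, if `|h| ≤ N ^ (1 - η)`,
`D_r(y; h) = y T_h(log y) + O(N ^ (1 - η / 8))`, with implied constants `1`. -/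
theorem result (r : ℕ) (hr : 2 ≤ r) : ∃ (P : ℕ → ℝ[X]) (T : ℤ → ℝ[X]),
    (Density r P ∧ (∀ q, 1 ≤ q → (P q).natDegree = r - 1 ∧ (P q).leadingCoeff = κ (r - 1) q / ((r - 1).factorial : ℝ)) ∧
      ∀ ε : ℝ, 0 < ε → ∃ C : ℝ, ∀ q i : ℕ, 1 ≤ q → |(P q).coeff i| ≤ C * (q : ℝ) ^ (ε - 1)) ∧
    (∀ h : ℤ, h ≠ 0 → (∀ u v : ℝ, Summable (fun q : ℕ => (ram (q + 1) h : ℝ) * ((P (q + 1)).eval u * (P (q + 1)).eval v))) ∧
      (∀ u : ℝ, (T h).eval u + (derivative (T h)).eval u = G P h u u) ∧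
      (T h).natDegree = 2 * r - 2 ∧ (T h).leadingCoeff = 𝔖 r h / ((r - 1).factorial : ℝ) ^ 2) ∧
    ∀ (k : ℕ), 2 ≤ k → ∀ (B : ℕ) (ρ : ℝ), 0 < ρ → ∃ θ δ : ℝ, 0 < θ ∧ 0 < δ ∧ ∀ η : ℝ, 0 < η → η ≤ θ → ∃ N₀ : ℕ, ∀ N : ℕ, N₀ ≤ N →
      ∀ x : ℕ, (N : ℝ) ^ (1 / (k : ℝ) + ρ) ≤ x → ∀ f : ℕ → ℝ, (∀ m ∈ Icc 1 x, |f m| ≤ B * N) →
      Bent k x f ((N : ℝ) ^ (1 - δ) / (x : ℝ) ^ k) →
      (((Icc 1 x).filter (fun m : ℕ => ¬ ∀ h : ℤ, h ≠ 0 → |(h : ℝ) - f m| ≤ (N : ℝ) ^ δ → Asymp r N P T θ η h)).card : ℝ) ≤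
        x * (N : ℝ) ^ (-δ) := by
  obtain ⟨P, T, h0, h1, h2, -⟩ := Pool.Agent.Results.MP_122e00_nt.PowerSavingShifts.result r hr
  refine ⟨P, T, h0, h1, fun k hk B ρ hρ => ?_⟩
  obtain ⟨p, _, h3⟩ := Pool.Agent.U828.KD.near_pow k hk B ρ hρ
  obtain ⟨θ, hθ, h4⟩ := h2 p (B + 1)
  obtain ⟨δ, hδ, _, n1, h5⟩ := h3 θ hθ
  refine ⟨θ, δ, hθ, hδ, fun η hη hηθ => ?_⟩
  obtain ⟨n2, h6⟩ := h4 η hη hηθ
  refine ⟨n1 + n2, fun N hN x hx f hf hb => ?_⟩
  refine h5 N (by omega) (fun h => h ≠ 0 → Asymp r N P T θ η h) ?_ x hx f hf hb _ (filter_subset _ _) ?_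
  · intro ι _ v hv hE S hS
    refine le_trans ?_ (h6 N (by omega) ι v (fun i => by have := hv i; exact_mod_cast this) hE)
    apply Nat.cast_le.2
    apply card_le_card
    intro i hi
    rw [mem_filter]
    have h7 := hS i hi
    push Not at h7
    exact ⟨mem_univ _, h7.1, h7.2⟩
  · intro m hm
    have h7 := (mem_filter.1 hm).2
    push Not at h7
    obtain ⟨h, h8, h9, h10⟩ := h7
    refine ⟨h, h9, ?_⟩
    push Not
    exact ⟨h8, h10⟩

end Pool.Agent.Results.MP_122e00_nt.HigherConvexShifts
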