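import Pool.Agent.U309.LV.R3

/-!
# Almost all twists of a motive obey Littlewood's bounds up to the edge of absolute convergence

`M = (X, p, r)` is a Chow motive over a number field `K`, for example over `K = ℚ`, `i` an integer, and
`L(M ⊗ χ, s)` the Euler product of `Hⁱ(M)` twisted by a Dirichlet character `χ` modulo `q`. It converges
absolutely for `Re s > e = i/2 + 1` only. The trivial bound at the distance `A / log q` from the line
`Re s = e` is a power of `log q`, `|log |L|| ≤ m log log q + O(1)`, `m = rank Hⁱ(M) [K : ℚ]`.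

**Theorem.** Let `κ, δ > 0`. For all but at most `(qH)^{1/κ + δ}` of the characters `χ` modulo `q` one has,
uniformly in the whole strip `Re s ≥ e + A / log qH`, `a ≤ Im s ≤ a + H`:

* `L(M ⊗ χ, s)` is the product of the Euler factors above the primes `p ≤ (log qH)^κ` up to a factor
  `1 + O(δ)`;
* `B^{-m} ≤ |L(M ⊗ χ, s)| ≤ B^m` with `B = (1 + δ) e^γ κ log log qH`.

Here `A` depends on `κ`, `δ` and a bound for `m` only; `a` is any real number, `H ≥ 1`, and `qH` is
sufficiently large. The statement says something as soon as `H ≤ q^{κ - 1 - η}`, `η > 0`: the trivial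
bound `(log q)^m` is replaced by `(log log q)^m` for almost all twists, at all the points of a strip of
length a power of `q` at arbitrary height, with `κ = 2` (Littlewood's constant `2 e^γ` of the Riemann
hypothesis) for all but `q^{1/2 + δ}` characters if `H = 1`.

The files: `Pool/Agent/U309/LV` (own; high moments of sums over primes, large sieve in `χ` and in `t`
jointly). `IsFrobenius` is defined in `Pool/Agent/TH958/BV/Defs.lean`.
-/

set_option autoImplicit false

namespace Pool.Agent.Results.MP_148101_nt.AlmostAllTwists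

open NumberField IsDedekindDomain
open Pool.Agent.TH958.BV

/-- `α_1, …, α_N` are the eigenvalues of the geometric Frobenius at `v` on `Hⁱ(M)`, where
`M = (X, p, r)`, `dim X = d` and `i = w - 2r`: the numbers `α_j Nv^r` are a part, with multiplicities, of
the eigenvalues of Frobenius on `H^w(X)`. -/
def IsMotivicFrobenius {K : Type} [Field K] [NumberField K] {n : ℕ}
    (X : Set (MvPolynomial (Fin n) (𝓞 K))) (d w : ℕ) (r : ℤ) (v : HeightOneSpectrum (𝓞 K))
    {N : ℕ} (α : Fin N → ℂ) : Prop :=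
  ∃ (b : ℕ) (γ : Fin b → ℂ), IsFrobenius X d w v γ ∧
    (Finset.univ.val.map fun j => α j * (Ideal.absNorm v.asIdeal : ℂ) ^ r) ≤ Finset.univ.val.map γ

open Classical in
/-- `L_S(M ⊗ χ, s)`, the product over the primes `v ∉ S` of `K` of the Euler factors
`∏_j (1 - χ(Nv) α_{v,j} Nv^{-s})⁻¹`. -/
noncomputable def twistL {K : Type} [Field K] [NumberField K] {N q : ℕ}
    (S : Set (HeightOneSpectrum (𝓞 K))) (α : HeightOneSpectrum (𝓞 K) → Fin N → ℂ)
    (χ : DirichletCharacter ℂ q) (s : ℂ) : ℂ :=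
  ∏' v : HeightOneSpectrum (𝓞 K), if v ∈ S then 1 else
    ∏ j, (1 - χ ((Ideal.absNorm v.asIdeal : ℕ) : ZMod q) * α v j *
      (Ideal.absNorm v.asIdeal : ℂ) ^ (-s))⁻¹

/-- The primes of `K` above the prime numbers `p > y`. -/
def above (K : Type) [Field K] [NumberField K] (y : ℝ) : Set (HeightOneSpectrum (𝓞 K)) :=
  {v | ∃ p f : ℕ, p.Prime ∧ y < p ∧ Ideal.absNorm v.asIdeal = p ^ f}

/-- The bound `(1 + δ) e^γ κ log log Z`. -/
noncomputable def littlewood (κ δ Z : ℝ) : ℝ :=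
  (1 + δ) * (Real.exp Real.eulerMascheroniConstant * (κ * Real.log (Real.log Z)))

/-- **Almost all twists.** For every `m₀` and `κ, δ > 0` there are `A > 0` and `Z₀ > 1` with the following
property. Let `M = (X, p, r)` be a Chow motive over a number field `K`, `i = w - 2r`, `N > 0` the rank of
`Hⁱ(M)`, `m = N [K : ℚ] ≤ m₀`, `S` a set of primes of `K`, and `α_v` the eigenvalues of Frobenius on
`Hⁱ(M)` at the primes `v ∉ S`. Let `q ≥ 1`, `a` real, `H ≥ 1` and `qH ≥ Z₀`. For all but at most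
`(qH)^{1/κ + δ}` characters `χ` modulo `q` and all `s` with `Re s ≥ i/2 + 1 + A / log qH` and
`a ≤ Im s ≤ a + H`:

1. `|L_S(M ⊗ χ, s) / P - 1| ≤ δ`, where `P` is the product of the Euler factors of `L_S(M ⊗ χ, s)` above
   the primes `p ≤ (log qH)^κ`;
2. `B^{-m} ≤ |L_S(M ⊗ χ, s)| ≤ B^m`, where `B = (1 + δ) e^γ κ log log qH`. -/
theorem result (m₀ : ℕ) (κ δ : ℝ) (hκ : 0 < κ) (hδ : 0 < δ) : ∃ A Z₀ : ℝ, 0 < A ∧ 1 < Z₀ ∧
    ∀ (K : Type) [Field K] [NumberField K] (n : ℕ) (X : Set (MvPolynomial (Fin n) (𝓞 K)))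
      (d w N : ℕ) (r : ℤ) (_ : 0 < N) (_ : N * Module.finrank ℚ K ≤ m₀)
      (S : Set (HeightOneSpectrum (𝓞 K))) (α : HeightOneSpectrum (𝓞 K) → Fin N → ℂ)
      (_ : ∀ v, v ∉ S → IsMotivicFrobenius X d w r v (α v))
      (q : ℕ) [NeZero q] (a H : ℝ), 1 ≤ H → Z₀ ≤ q * H →
      ∃ Bad : Finset (DirichletCharacter ℂ q), (Bad.card : ℝ) ≤ (q * H) ^ (1 / κ + δ) ∧
        ∀ χ ∉ Bad, ∀ s : ℂ, (((w : ℤ) - 2 * r : ℤ) : ℝ) / 2 + 1 + A / Real.log (q * H) ≤ s.re →
          s.im ∈ Set.Icc a (a + H) →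
          ‖twistL S α χ s / twistL (S ∪ above K ((Real.log (q * H)) ^ κ)) α χ s - 1‖ ≤ δ ∧
          (littlewood κ δ (q * H) ^ (N * Module.finrank ℚ K))⁻¹ ≤ ‖twistL S α χ s‖ ∧
          ‖twistL S α χ s‖ ≤ littlewood κ δ (q * H) ^ (N * Module.finrank ℚ K) := by
  obtain ⟨A, Z₁, hA, hZ₁, H1⟩ := Pool.Agent.U309.LV.region m₀ hκ hδ
  refine ⟨A, Z₁, hA, hZ₁, ?_⟩
  intro K _ _ n X d w N r hN hNM S α hα q _ a H hH hZ
  set α' : HeightOneSpectrum (𝓞 K) → Fin N → ℂ := fun v j =>
    α v j * (Ideal.absNorm v.asIdeal : ℂ) ^ r with hα'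
  have hα1 : ∀ v, v ∉ S → ∀ j, ‖α' v j‖ = (Pool.Agent.TH339.MP.nm v : ℝ) ^ ((w : ℝ) / 2) := by
    intro v hv j
    obtain ⟨b, γ, ⟨β, h1, h2, h3⟩, h4⟩ := hα v hv
    refine h2 w (α' v j) ?_
    rw [h1]
    exact Multiset.mem_of_le h4 (Multiset.mem_map_of_mem _ (Finset.mem_univ_val j))
  have hL : ∀ (T : Set (HeightOneSpectrum (𝓞 K))) (χ : DirichletCharacter ℂ q) (s : ℂ),
      twistL T α χ s = Pool.Agent.Y770.SC.LT χ T α' (s + r) := by
    intro T χ s
    unfold twistL Pool.Agent.Y770.SC.LT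
    refine tprod_congr fun v => ?_
    by_cases hv : v ∈ T
    · rw [if_pos hv, if_pos hv]
    · rw [if_neg hv, if_neg hv]
      refine Finset.prod_congr rfl fun j _ => ?_
      have hn0 : ((Ideal.absNorm v.asIdeal : ℕ) : ℂ) ≠ 0 := by
        have := Pool.Agent.Y770.SC.nm_pos v
        exact_mod_cast this.ne'
      have e1 : (Ideal.absNorm v.asIdeal : ℂ) ^ (-(s + (r : ℂ))) =
          (Ideal.absNorm v.asIdeal : ℂ) ^ (-s) * ((Ideal.absNorm v.asIdeal : ℂ) ^ r)⁻¹ := by
        rw [neg_add, Complex.cpow_add _ _ hn0, Complex.cpow_neg _ (r : ℂ), Complex.cpow_intCast]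
      have e2 : (Ideal.absNorm v.asIdeal : ℂ) ^ r ≠ 0 := zpow_ne_zero _ hn0
      rw [hα', e1]
      congr 2
      field_simp
  obtain ⟨Bad, hBad, H2⟩ := H1 K N w hN hNM S α' hα1 q a H hH hZ
  refine ⟨Bad, hBad, fun χ hχ s hs hst => ?_⟩
  have hre : (s + (r : ℂ)).re = s.re + r := by simp
  have him : (s + (r : ℂ)).im = s.im := by simp
  have h1 := H2 χ hχ (s + r) (by
    rw [hre]
    push_cast at hs
    linarith) (by rw [him]; exact hst)
  rw [hL, hL]
  exact h1

end Pool.Agent.Results.MP_148101_nt.AlmostAllTwists
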