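import Pool.Agent.U365.POW.J
import Pool.Agent.Results.MP_14cf73_nt.MultiplicativeValues

/-!
# The inequality `c < C H (abc) ^ M` for triples with a member near `s(m)`, `m - φ(m)` or `α m + β f(m)`

Let `s(m)` be the sum of the proper divisors of `m`. Let `G` be any function with steps bounded below by a positive constant and
growth at most `v ^ d`, for example `G v = v`, `A ≥ 1`, `C, M > 0`, `κ ≥ 0` and `e = 2 A d / (3 M) + κ < 1`. For a set of `m` of lower
density at least `1 - e`, EVERY admissible triple one of whose members `n` is within `s(m) ^ κ` of `G (s(m))`, and with `c ≤ n ^ A`,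
satisfies `c < C H (abc) ^ M`; and the same holds for `m - φ(m)`. For `M = 1 + ε`, `A = 1`, `G v = v`, `κ = 0` this is the inequality of
the question for all admissible triples with the largest member `s(m)`, for at least `1/3` of all `m`. More precisely this holds
for almost all `m` with a divisor `≥ m ^ (e + ρ)` which is a prime or the product of two different primes, and for the values
`g = α m + β f(m)` of multiplicative functions with `f p = p + c` at the primes, uniformly in `|α|, |β| ≤ N ^ δ` and with a power
saving in the number of the exceptional `m`.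

Proof. The number of the members of exceptional triples has a power saving (starting theorem `ExceptionsByHeight`). Let
`m = k v p` with large primes `p ≠ v`. Then `g = A' v p + B (v + p) + B c`, `A' = α k + β f(k)`, `B = β c f(k)`, and so
`(A' v + B) (A' p + B) = A' g + B² - A' B c`: for given `g`, `k`, `α`, `β` there are only `N^o(1)` possibilities for `p` and `v`.

If the exponent `e` is smaller than `1/2`, no divisor is needed: the property holds for almost all `m` (for all `m ≤ N` but at
most `N / (log N) ^ A`, for every `A`), for all `α ≠ 0`, `β`. Here we use the divisors `D` of `m` without small prime factors: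
`α m` is congruent to `g` modulo `f(D)`; if the size of all such `D` is inconvenient, then `m = R D` where the prime factors of
`D` are so large that `D` lies in a short interval which is given by `R` and `g`.
-/

set_option autoImplicit false

namespace Pool.Agent.Results.MP_14cf73_nt.AliquotValues

open Finset
open Pool.Agent.U365.POW (Law law_nat law_mono)
open Pool.Agent.N733.TG (Expanding)
open Pool.Agent.Results.MP_14cf73_nt.SequenceMembers (Good Bad count)

/-- EVERY `n ≥ 1` with `|n - G g| ≤ g ^ κ` is `Good A C M`: every admissible triple with the member `n` and `c ≤ n ^ A` satisfies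
`c < C H (abc) ^ M`. -/
def Near (A C M : ℝ) (G : ℕ → ℝ) (κ : ℝ) (g : ℕ) : Prop :=
  ∀ n : ℕ, 1 ≤ n → |(n : ℝ) - G g| ≤ (g : ℝ) ^ κ → Good A C M n

/-- **Theorem.** Let `G` have steps `≥ a > 0` and growth at most `v ^ d`, `A ≥ 1`, `C > 0`, `M > 0`, `κ ≥ 0` and `e = 2 A d / (3 M)
+ κ < 1`. The property `Near` holds for the values of similar functions as the aliquot sum with the exponent `e` (`Law`): if
this exponent is smaller than `1/2`, then (1) for ALL `α m + β f(m)` at almost all `m`, and so for `s(m)` and `m - φ(m)` for
almost all `m`; in general, (2) at almost all the `m` with a divisor `≥ m ^ (e + ρ)` which is a prime or the product of two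
different primes, and for `s(m)` and `m - φ(m)` for a set of `m` of lower density at least `1 - (e)`. -/
theorem result : ∀ (G : ℕ → ℝ) (d : ℝ), Expanding G d → ∀ A C M κ : ℝ, 1 ≤ A → 0 < C → 0 < M → 0 ≤ κ →
      d * (2 * A / (3 * M)) + κ < 1 →
    Law (d * (2 * A / (3 * M)) + κ) (Near A C M G κ) := by
  classical
  intro G d hG A C M κ hA hC hM hκ h1
  have a := law_nat (Bad A C M) hG (s := 2 * A / (3 * M)) (κ := κ)
    (by positivity) hκ h1 (fun ε hε => by
      obtain ⟨K, hK⟩ := count (A := A) (C := C) (M := M) (lt_of_lt_of_le one_pos hA) hC hM ε hε
      refine ⟨K, fun X hX => le_trans (le_of_eq ?_) (hK X hX)⟩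
      congr!)
  have hm : ∀ g : ℕ, (∀ n : ℕ, |(n : ℝ) - G g| ≤ (g : ℝ) ^ κ → 1 ≤ n ∧ n ∉ Bad A C M) → Near A C M G κ g := by
    intro g hg n _ hw
    by_contra hcon
    exact (hg n hw).2 hcon
  exact law_mono a hm

end Pool.Agent.Results.MP_14cf73_nt.AliquotValues
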