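import Pool.Agent.U745.DS.NF
import Pool.Agent.U745.DS.Use
import Pool.Agent.R409.RA.Mean

/-!
# The numbers `L^*(H^i(X), m)` of Beilinson's conjecture as limits of products of Frobenius data

Let `X` be a smooth projective variety over a number field `K` (`K = ℚ` is the case of the problem) and
`L(s) = L(H^i(X), s) = ∏_v ∏_j (1 - α_{v,j} q_v^{-s})⁻¹`, the product over all primes `v` of `K`; for the
primes of good reduction the `α_{v,j}` are the eigenvalues of Frobenius on `H^i(X)`.  The conjecture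
(Q2) says that for `m < i / 2` the leading coefficient `L^*(X, m)` of `L(s)` at `s = m` is a rational
multiple of the regulator `R`.  The point `m` is at a distance of more than `1` from the half-plane
`Re s > i / 2 + 1` where the Euler product converges, beyond the critical strip.  For a real number `τ`
put, with `ω = 1 + iτ` and `x > 1`,

`P_τ(x) = exp ∑_v ∑_{k ≥ 1} t_{v,k} / (k q_v^{k m} Γ(1 + ω k log q_v / log x))`,
`t_{v,k} = ∑_j α_{v,j}^k`,

where `t_{v,k}` is the trace of the `k`-th power of Frobenius, an integer for the primes of good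
reduction.  The series converges absolutely for every integer `m`.  Put
`κ = ∫_0^∞ (e^{-t} - 1 / Γ(1 + t)) dt / t`.  Suppose that `L(s)` has a meromorphic continuation `F` to
`Re s ≥ m`.  Nothing is assumed on its zeros and poles, and no functional equation.  We prove:

* for all `τ`, except for finitely many in every bounded interval, `F` has no zeros and poles on the
  ray `m + ω y`, `y > 0`, and then `P_τ(x) (log x / (ω e^κ))^r = L^*(m) + O(1 / log x)`,
  `r = ord_{s=m} F`; in particular `P_τ(x) → F(m)`, if `m` is neither a zero nor a pole;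
* for the other `τ` one has `log P_τ(x) ~ - k ∫_0^∞ (x^{y u} - 1) du / (u Γ(1 + u))`, `m + ω y` being the
  last zero or pole on the ray and `k` its order, and `|log |P_τ(x)|| ≥ exp (x^c)` for all `c < y` and
  large `x`;
* for every number `R ≠ 0` the following are equivalent: (a) `L^*(m)` is a rational multiple of `R`;
  (b) for one integer `r`, one `τ` and one sequence `x → ∞` the numbers
  `P_τ(x) (log x / (ω e^κ))^r / R` tend to a rational number different from `0`; (c) the same for all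
  free `τ`, with the error `O(1 / log x)`.

So the assertion of Q2 for `X`, `i`, `m` is equivalent to an asymptotic formula for the explicit sum
over the traces of the powers of Frobenius, of the same shape as the original numerical form of the
conjecture of Birch and Swinnerton-Dyer.  This holds for all integers `m`, `m < i / 2` or not.
-/

set_option autoImplicit false

namespace Pool.Agent.Results.MP_15b3df_nt.NonCriticalNumericalForm

open NumberField IsDedekindDomain Filter Topology Classical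

section defs

variable {K : Type} [Field K] [NumberField K] {n : ℕ}

/-- The set `X` of homogeneous polynomials over a ring `R` in `n` variables defines a projective
scheme over `R`.  For a field `κ` with `q` elements and a homomorphism `R → κ` this is `(q - 1)`
times the number of the points of `X` with coordinates in `κ`: the number of the nonzero solutions
of the equations. -/
noncomputable def cone {R : Type} [CommRing R] (X : Set (MvPolynomial (Fin n) R)) {κ : Type}
    [Field κ] (φ : R →+* κ) : ℕ :=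
  Nat.card {u : Fin n → κ // u ≠ 0 ∧ ∀ f ∈ X, MvPolynomial.eval₂ φ u f = 0}

/-- `α_1, …, α_N` are the eigenvalues of the geometric Frobenius at the prime `v` of `K` on `H^i(X)`,
for a variety `X` of dimension `d`: there are finite multisets `β_k` of complex numbers of absolute
value `q_v^{k/2}`, `k = 0, …, 2d`, with `β_i = {α_1, …, α_N}`, such that for every finite extension
`κ` of the residue field of `v`, of degree `e`, the number of the points of `X` with coordinates in
`κ` is `∑ (-1)^k ∑_{z ∈ β_k} z^e`.  By the theorem of Deligne such `β_k` exist at almost all primes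
if `X` is smooth, with `N` the `i`-th Betti number of `X`; for `k ≤ 2d` they are unique. -/
def IsFrobenius (X : Set (MvPolynomial (Fin n) (𝓞 K))) (d i : ℕ)
    (v : HeightOneSpectrum (𝓞 K)) {N : ℕ} (α : Fin N → ℂ) : Prop :=
  ∃ β : ℕ → Multiset ℂ, β i = Finset.univ.val.map α ∧
    (∀ k, ∀ z ∈ β k, ‖z‖ = (Ideal.absNorm v.asIdeal : ℝ) ^ ((k : ℝ) / 2)) ∧
    ∀ (κ : Type) [Field κ] [Finite κ] (φ : 𝓞 K →+* κ) (e : ℕ), RingHom.ker φ = v.asIdeal →
      Nat.card κ = Ideal.absNorm v.asIdeal ^ e →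
      (cone X φ : ℂ) = ((Ideal.absNorm v.asIdeal : ℂ) ^ e - 1) *
          ∑ k ∈ Finset.range (2 * d + 1), (-1 : ℂ) ^ k * ((β k).map (fun z => z ^ e)).sum

/-- `α_{v,1}, …, α_{v,N}` are the parameters of the Euler factors of `L(H^i(X), s)` at all primes `v`
of `K`: for almost all `v` these are the eigenvalues of the geometric Frobenius on `H^i(X)`, and for all
`v` they are numbers of absolute value at most `q_v^{i/2}`.  (At a bad prime these are the eigenvalues
of Frobenius on the inertia invariants of `H^i(X)`, completed by zeros.) -/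
def IsParameter (X : Set (MvPolynomial (Fin n) (𝓞 K))) (d i : ℕ) {N : ℕ}
    (α : HeightOneSpectrum (𝓞 K) → Fin N → ℂ) : Prop :=
  (∀ᶠ v in cofinite, IsFrobenius X d i v (α v)) ∧
    ∀ v j, ‖α v j‖ ≤ (Ideal.absNorm v.asIdeal : ℝ) ^ ((i : ℝ) / 2)

/-- `L(H^i(X), s)`, the Euler product over all primes `v` of `K`. -/
noncomputable def LFun {N : ℕ} (α : HeightOneSpectrum (𝓞 K) → Fin N → ℂ) (s : ℂ) : ℂ :=
  ∏' v : HeightOneSpectrum (𝓞 K), ∏ j, (1 - α v j * (Ideal.absNorm v.asIdeal : ℂ) ^ (-s))⁻¹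

/-- `F` is meromorphic at all points of the half-plane `Re s ≥ m`, and it is the L-function for
`Re s > i/2 + 1`. -/
def IsContinuation {N : ℕ} (i : ℕ) (m : ℤ) (α : HeightOneSpectrum (𝓞 K) → Fin N → ℂ)
    (F : ℂ → ℂ) : Prop :=
  (∀ s : ℂ, (m : ℝ) ≤ s.re → MeromorphicAt F s) ∧ ∀ s : ℂ, (i : ℝ) / 2 + 1 < s.re → F s = LFun α s

/-- The term of `log P_τ(x)` at the `k`-th power of `v`, `k = j + 1`:
`t_{v,k} / (k q_v^{k m} Γ(1 + ω k log q_v / log x))`. -/
noncomputable def term {N : ℕ} (m : ℤ) (α : HeightOneSpectrum (𝓞 K) → Fin N → ℂ) (τ x : ℝ)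
    (p : HeightOneSpectrum (𝓞 K) × ℕ) : ℂ :=
  (∑ j, α p.1 j ^ (p.2 + 1)) / ((p.2 + 1) * ((Ideal.absNorm p.1.asIdeal : ℂ) ^ m) ^ (p.2 + 1) *
    Complex.Gamma (1 + (1 + τ * Complex.I) *
      (((p.2 + 1) * Real.log (Ideal.absNorm p.1.asIdeal) : ℝ) / Real.log x)))

/-- `log P_τ(x)`. -/
noncomputable def logProd {N : ℕ} (m : ℤ) (α : HeightOneSpectrum (𝓞 K) → Fin N → ℂ)
    (τ x : ℝ) : ℂ := ∑' p : HeightOneSpectrum (𝓞 K) × ℕ, term m α τ x p

/-- The point `m + (1 + iτ) y`. -/
noncomputable def ray (m : ℤ) (τ y : ℝ) : ℂ := m + (1 + τ * Complex.I) * y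

/-- `F` has a zero or a pole on the ray `{m + (1 + iτ) y : y > 0}`. -/
def Blocked (m : ℤ) (F : ℂ → ℂ) (τ : ℝ) : Prop :=
  ∃ y : ℝ, 0 < y ∧ meromorphicOrderAt F (ray m τ y) ≠ 0

/-- The leading term of `F` at `s = m` is `B (s - m)^r`: the function `(s - m)^{-r} F(s)` tends to `B`
for `s → m`. -/
def LeadingTerm (m : ℤ) (F : ℂ → ℂ) (r : ℤ) (B : ℂ) : Prop :=
  Tendsto (fun s : ℂ => (s - m) ^ (-r) * F s) (𝓝[≠] (m : ℂ)) (𝓝 B)

end defs

/-- `κ = ∫_0^∞ (e^{-t} - 1/Γ(1 + t)) dt/t`. -/
noncomputable def kappa : ℝ :=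
  ∫ t in Set.Ioi (0 : ℝ), (Real.exp (-t) - (Real.Gamma (1 + t))⁻¹) / t

/-- `∫_0^∞ (e^{yu} - 1) / (u Γ(1 + u)) du`. -/
noncomputable def grow (y : ℝ) : ℝ :=
  ∫ u in Set.Ioi (0 : ℝ), (Real.exp (y * u) - 1) / (u * Real.Gamma (1 + u))

/-- `exp (W(x)) (log x / (ω e^κ))^r`, `ω = 1 + iτ`. -/
noncomputable def normalised (W : ℝ → ℂ) (τ : ℝ) (r : ℤ) (x : ℝ) : ℂ :=
  Complex.exp (W x) * (Real.log x / ((1 + τ * Complex.I) * Real.exp kappa)) ^ r

/-- For one `τ` and one sequence `x → ∞` the number `c P_τ(x) (log x / (ω e^κ))^r` tends to `b`. -/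
def LimitPoint (W : ℝ → ℝ → ℂ) (r : ℤ) (c b : ℂ) : Prop :=
  ∃ (τ : ℝ) (x : ℕ → ℝ), Tendsto x atTop atTop ∧
    Tendsto (fun k => c * normalised (W τ) τ r (x k)) atTop (𝓝 b)

/-- For all `τ` such that `F` has no zeros and poles on the ray,
`c P_τ(x) (log x / (ω e^κ))^r = b + O(1 / log x)`. -/
def FreeLaw (m : ℤ) (F : ℂ → ℂ) (W : ℝ → ℝ → ℂ) (r : ℤ) (c b : ℂ) : Prop :=
  ∀ τ : ℝ, ¬ Blocked m F τ →
    ∃ C : ℝ, ∀ᶠ x : ℝ in atTop, ‖c * normalised (W τ) τ r x - b‖ ≤ C / Real.log x

/-- The conclusion for the other directions: `m + (1 + iτ) y` being the last zero or pole on the ray, of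
order `k`, `log P_τ(x) ~ - k ∫_0^∞ (x^{y u} - 1) du / (u Γ(1 + u))`. -/
def BlockedLaw (m : ℤ) (F : ℂ → ℂ) (W : ℝ → ℝ → ℂ) : Prop :=
  ∀ τ : ℝ, Blocked m F τ → ∃ (y : ℝ) (k : ℤ), 0 < y ∧ k ≠ 0 ∧
    meromorphicOrderAt F (ray m τ y) = k ∧
    (∀ z : ℝ, y < z → meromorphicOrderAt F (ray m τ z) = 0) ∧
    Tendsto (fun x : ℝ => W τ x / grow (y * Real.log x)) atTop (𝓝 (-k)) ∧
    ∀ c < y, ∀ᶠ x : ℝ in atTop, Real.exp (x ^ c) ≤ |(W τ x).re|

section bridge

variable {K : Type} [Field K] [NumberField K] {n N i : ℕ} {m : ℤ}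
  {α : HeightOneSpectrum (𝓞 K) → Fin N → ℂ} {F : ℂ → ℂ}

theorem ser (hα : ∀ v j, ‖α v j‖ ≤ (Ideal.absNorm v.asIdeal : ℝ) ^ ((i : ℝ) / 2))
    (hF : IsContinuation i m α F) : U745.DS.Ser (U745.DS.plam K)
      (U745.DS.sh (U745.DS.plam K) (U745.DS.pco α) (m : ℂ))
      (max ((i : ℝ) / 2 + 1 - (m : ℂ).re) 0) (fun s => F ((m : ℂ) + s)) :=
  (U745.DS.half_nf (σ₀ := (m : ℝ)) hα hF.1 hF.2).at (by simp)

theorem term_eq (m : ℤ) (α : HeightOneSpectrum (𝓞 K) → Fin N → ℂ) (τ x : ℝ)
    (p : HeightOneSpectrum (𝓞 K) × ℕ) : term m α τ x p =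
    U745.DS.sh (U745.DS.plam K) (U745.DS.pco α) (m : ℂ) p *
      (Complex.Gamma (1 + W524.RY.dir τ * (U745.DS.plam K p / Real.log x)))⁻¹ := by
  unfold term U745.DS.sh
  have e : ∀ S a b g : ℂ, S / (a * b * g) = S / a * b⁻¹ * g⁻¹ := by
    intro S a b g
    rw [div_eq_mul_inv, mul_inv, mul_inv, div_eq_mul_inv]
    ring
  rw [U745.DS.exp_plam, Complex.cpow_neg, Complex.cpow_intCast, inv_pow, e]
  rfl

theorem logProd_eq (m : ℤ) (α : HeightOneSpectrum (𝓞 K) → Fin N → ℂ) (τ x : ℝ) :
    logProd m α τ x = U745.DS.WW (U745.DS.plam K)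
      (U745.DS.sh (U745.DS.plam K) (U745.DS.pco α) (m : ℂ)) τ x := by
  unfold logProd U745.DS.WW U745.DS.VV
  exact tsum_congr fun p => term_eq m α τ x p

theorem blocked_iff {τ : ℝ} : ¬ Blocked m F τ ↔ U745.DS.Clear (fun s => F ((m : ℂ) + s)) τ := by
  rw [U745.DS.clear_iff]
  unfold Blocked
  push Not
  rfl

theorem lead_iff (r : ℤ) (B : ℂ) : LeadingTerm m F r B ↔
    U745.LT.Leading (fun s => F ((m : ℂ) + s)) 0 r B := by
  rw [U745.DS.leading_shift]
  rfl

end bridge

/-- **The numbers `L^*(H^i(X), m)` as limits.**  Let `X` be a smooth projective variety of dimension `d`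
over a number field `K`, `α` the parameters of `L(H^i(X), s)`, `m` any integer, and `F` a meromorphic
continuation of `L(H^i(X), s)` to `Re s ≥ m`.  Then

1. the series `log P_τ(x)` converges absolutely for all `x > 1`;
2. only finitely many `τ` in every bounded interval are blocked;
3. `F` has a leading term `ℓ (s - m)^r` at `s = m`, `r` an integer, `ℓ ≠ 0`; for the `τ` that are not
  blocked `P_τ(x) (log x / (ω e^κ))^r = ℓ + O(1 / log x)`;
4. for the blocked `τ` one has `log P_τ(x) ~ - k ∫_0^∞ (x^{y u} - 1) du / (u Γ(1 + u))`;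
5. for every `R ≠ 0` the following are equivalent: the leading coefficient of `F` at `s = m` is a
  rational multiple of `R`; for one integer `r`, one `τ` and one sequence `x → ∞` the number
  `P_τ(x) (log x / (ω e^κ))^r / R` tends to a rational number different from `0`; there are an integer `r`
  and a rational number `c ≠ 0` such that `P_τ(x) (log x / (ω e^κ))^r / R = c + O(1 / log x)` for all
  `τ` that are not blocked. -/
theorem result (K : Type) [Field K] [NumberField K] (n d i N : ℕ) (m : ℤ)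
    (X : Set (MvPolynomial (Fin n) (𝓞 K))) (α : HeightOneSpectrum (𝓞 K) → Fin N → ℂ)
    (hα : IsParameter X d i α) (F : ℂ → ℂ) (hF : IsContinuation i m α F) :
    (∀ τ x : ℝ, 1 < x → Summable fun p => ‖term m α τ x p‖) ∧
    (∀ b : ℝ, {τ : ℝ | |τ| ≤ b ∧ Blocked m F τ}.Finite) ∧
    (∃ (r : ℤ) (ℓ : ℂ), ℓ ≠ 0 ∧ meromorphicOrderAt F (m : ℂ) = r ∧ LeadingTerm m F r ℓ ∧
      FreeLaw m F (logProd m α) r 1 ℓ) ∧
    BlockedLaw m F (logProd m α) ∧
    ∀ R : ℂ, R ≠ 0 → List.TFAE [
      ∃ (r : ℤ) (c : ℚ), c ≠ 0 ∧ LeadingTerm m F r (c * R),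
      ∃ (r : ℤ) (c : ℚ), c ≠ 0 ∧ LimitPoint (logProd m α) r R⁻¹ c,
      ∃ (r : ℤ) (c : ℚ), c ≠ 0 ∧ FreeLaw m F (logProd m α) r R⁻¹ c] := by
  have hS := ser hα.2 hF
  have hW : ∀ τ : ℝ, logProd m α τ = U745.DS.WW (U745.DS.plam K)
      (U745.DS.sh (U745.DS.plam K) (U745.DS.pco α) (m : ℂ)) τ := fun τ =>
    funext fun x => logProd_eq m α τ x
  have hN : ∀ (τ : ℝ) (r : ℤ) (x : ℝ), normalised (logProd m α τ) τ r x =
      Complex.exp (U745.DS.WW (U745.DS.plam K)
        (U745.DS.sh (U745.DS.plam K) (U745.DS.pco α) (m : ℂ)) τ x) *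
        (Real.log x / (W524.RY.dir τ * Real.exp W189.LC.kap)) ^ r := by
    intro τ r x
    unfold normalised
    rw [hW]
    rfl
  obtain ⟨r, ℓ, hℓ, hl⟩ := U745.DS.exists_leading hS
  have hmF : MeromorphicAt F (m : ℂ) := hF.1 _ (by simp)
  have hord : meromorphicOrderAt F (m : ℂ) = r := by
    have h1 := ((U745.LT.leading_iff (hS.mer 0 (by simp)) hℓ).1 hl).1
    rwa [U745.DS.order_shift, add_zero] at h1
  refine ⟨fun τ x hx => ?_, fun b => ?_, ⟨r, ℓ, hℓ, hord, (lead_iff r ℓ).2 hl, fun τ hτ => ?_⟩,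
    fun τ hτ => ?_, fun R hR => ?_⟩
  · refine (U745.DS.VV_summable hS τ (Real.log_pos hx)).congr fun p => ?_
    rw [term_eq]
  · refine (hS.blocked_finite b).subset ?_
    rintro τ ⟨h1, h2⟩
    have h3 : ¬ U745.DS.Clear (fun s => F ((m : ℂ) + s)) τ := fun h => (blocked_iff.2 h) h2
    unfold U745.DS.Clear at h3
    push Not at h3
    exact ⟨h1, h3⟩
  · have h1 := U745.DS.law_of_leading hS hℓ hl (blocked_iff.1 hτ)
    simp only [one_mul, hN]
    exact h1
  · obtain ⟨y, hy, hyz⟩ := hτ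
    obtain ⟨x₀, h0, h01, hnz, hz⟩ := hS.exists_last τ
    have hray : ∀ y : ℝ, meromorphicOrderAt (fun s => F ((m : ℂ) + s)) (U745.DS.rp τ y) =
        meromorphicOrderAt F (ray m τ y) := by
      intro y
      rw [U745.DS.order_shift]
      rfl
    have hx0 : 0 < x₀ := by
      by_contra hcon
      apply hyz
      rw [← hray]
      exact hnz y (by linarith)
    have hz' : meromorphicOrderAt (fun s => F ((m : ℂ) + s)) (U745.DS.rp τ x₀) ≠ 0 := by
      rcases hz with h2 | h2
      · exact absurd h2 hx0.ne'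
      · exact h2
    obtain ⟨k, hk⟩ := WithTop.ne_top_iff_exists.1 (hS.ne_top (s := U745.DS.rp τ x₀) (by
      rw [U745.DS.rp_re]
      linarith))
    have hk0 : k ≠ 0 := by
      rintro rfl
      exact hz' (by rw [← hk]; rfl)
    obtain ⟨g1, g2⟩ := U745.DS.blocked hS τ hx0 h01 hk.symm hk0 hnz
    refine ⟨x₀, k, hx0, hk0, by rw [← hray]; exact hk.symm, fun z hz => ?_, ?_, fun c hc => ?_⟩
    · rw [← hray]
      exact hnz z hz
    · rw [hW]
      exact g1
    · rw [hW]
      filter_upwards [g2 c hc] with x hx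
      have hs : |(-(Int.sign k : ℝ))| ≤ 1 := by
        rcases lt_trichotomy k 0 with h6 | h6 | h6
        · rw [Int.sign_eq_neg_one_of_neg h6]; norm_num
        · rw [h6]; simp
        · rw [Int.sign_eq_one_of_pos h6]; norm_num
      refine hx.trans ((le_abs_self _).trans ?_)
      rw [abs_mul]
      exact mul_le_of_le_one_left (abs_nonneg _) hs
  · have key : ∀ (ρ : ℤ) (c : ℚ), c ≠ 0 → (LeadingTerm m F ρ (c * R) ↔
        LimitPoint (logProd m α) ρ R⁻¹ c) := by
      intro ρ c hc
      have hb : (c : ℂ) * R ≠ 0 := mul_ne_zero (by exact_mod_cast hc) hR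
      rw [lead_iff, U745.DS.leading_iff_seq hS hb]
      unfold LimitPoint
      refine exists_congr fun τ => exists_congr fun x => and_congr_right fun _ => ?_
      simp only [hN]
      constructor
      · intro h
        have h2 := h.const_mul R⁻¹
        have e : R⁻¹ * ((c : ℂ) * R) = c := by field_simp
        rw [e] at h2
        exact h2
      · intro h
        have h2 := h.const_mul R
        have e : R * (c : ℂ) = c * R := mul_comm _ _
        rw [e] at h2
        refine h2.congr fun k => ?_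
        rw [← mul_assoc, mul_inv_cancel₀ hR, one_mul]
    tfae_have 1 ↔ 2 := by
      refine exists_congr fun ρ => exists_congr fun c => and_congr_right fun hc => key ρ c hc
    tfae_have 1 → 3 := by
      rintro ⟨ρ, c, hc, h⟩
      have hb : (c : ℂ) * R ≠ 0 := mul_ne_zero (by exact_mod_cast hc) hR
      refine ⟨ρ, c, hc, fun τ hτ => ?_⟩
      obtain ⟨C, hC⟩ := U745.DS.law_of_leading hS hb ((lead_iff ρ _).1 h) (blocked_iff.1 hτ)
      refine ⟨‖R⁻¹‖ * C, ?_⟩
      filter_upwards [hC] with x hx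
      have e : R⁻¹ * normalised (logProd m α τ) τ ρ x - c =
          R⁻¹ * (normalised (logProd m α τ) τ ρ x - c * R) := by
        field_simp
      rw [e, norm_mul, mul_div_assoc]
      refine mul_le_mul_of_nonneg_left ?_ (norm_nonneg _)
      rw [hN]
      exact hx
    tfae_have 3 → 2 := by
      rintro ⟨ρ, c, hc, h⟩
      obtain ⟨τ, hτ⟩ := hS.exists_clear
      exact ⟨ρ, c, hc, τ, fun k => k, tendsto_natCast_atTop_atTop,
        (U745.DS.lim_of_rate (h τ (blocked_iff.2 hτ))).comp tendsto_natCast_atTop_atTop⟩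
    tfae_finish

end Pool.Agent.Results.MP_15b3df_nt.NonCriticalNumericalForm
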