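import Pool.Agent.U972.SM.Main

/-!
# The rank conjecture for the prime twists of many abelian varieties at once

`K = ℚ(i)`, `E : y² = x³ - x`, `k ≥ 3`. For a character `χ` of order `2 ^ k` that is a product of
characters of exact order `2 ^ k` modulo different Gaussian primes `1` modulo `4` with norm `1` modulo
`2 ^ (k + 2)`, the abelian variety `A_χ` over `K`, of dimension `2 ^ (k - 2)`, is the twist of
`E ⊗ ℤ[ζ]` by `χ`; its restriction of scalars `B_χ` to `ℚ` has dimension `2 ^ (k - 1)`.

Given is a family, finite or infinite, of members `χ_i` (`i` in a set `ι`): `χ_i` is the product of the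
characters `lam i j` modulo the primes `π i j`, `j < m i`. The primes `π i j` are all different, and the
products `∏ j, π i j` are in the same class `d` modulo `4 (1 + i)`. Nothing is assumed on the ranks, the
`L`-functions or the groups `Ш` of the members.

Let `ρ` run through the new primes: `ρ` is `1` modulo `4`, its norm is `1` modulo `2 ^ (k + 2)` and `d ρ`
is not `1` modulo `4 (1 + i)`. They are ordered by the norm. `ρ` is favourable for the member `i` if it is
none of its primes and the matrix `L_i + diag (u_j)` over the field with two elements is nonsingular,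
where `L_i` is the Laplacian of the quadratic residue symbols between the `π i j` and `u_j` is the symbol
of `π i j` modulo `ρ`. Let `c_i ≥ 2 ^ (- m i)` be the proportion of the vectors `u` with `L_i + diag u`
nonsingular.

* If `ρ` is favourable for `i` and `λ` is any character modulo `ρ` of exact order `2 ^ k`, then for
  `χ = χ_i λ` the `L`-function of `B_χ` is entire, **its order of vanishing at `1` is `0`, and `B_χ(ℚ)` has
  two elements, so the rank is `0`**; moreover the 2-part of the leading term formula holds, with trivial
  2-primary part of `Ш(B_χ / ℚ)`.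
* **The members are independent:** for every finite set `I` of members and every subset `V` of `I` the
  proportion of the new primes that are favourable for the `i` in `V` and for no `i` in `I \ V` tends to
  `∏_{i ∈ V} c_i ∏_{i ∈ I \ V} (1 - c_i)`.
* **If the sum of the `c_i` diverges (for example, if there are infinitely many members with a bounded
  number of primes), then for every `N` all new primes `ρ` but a set of density zero are favourable for at
  least `N` members**: almost every new prime gives arbitrarily many abelian varieties `B_χ` (with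
  different `χ = χ_i λ` if all `m i` are positive) that satisfy the conjecture.

The case of one member is the hand-in `MP_a43263_nt.PrimeTwistsTwoPart` of the starting library.
The definitions are in `Pool.Agent.Y715.St`, `Pool.Agent.Q283.GA.St` and `Pool.Agent.U972.SM.St`.
-/

set_option autoImplicit false

open Pool.Agent.Y715.St Q283.GA.St Pool.Agent.U972.SM Filter Topology
open scoped Classical

/-- **The rank conjecture for the prime twists of many members at once: the joint law.** -/
theorem Pool.Agent.Results.MP_1d384c_nt.RankZeroJointLaw.result (k : ℕ) (hk : 3 ≤ k)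
    (ζ : ℂ) (hζ : ζ ^ (2 ^ (k - 2)) = Complex.I)
    -- the members: the Gaussian primes `π i j` and the characters `lam i j`
    (ι : Type) [Nonempty ι] (m : ι → ℕ) (π : ∀ i, Fin (m i) → GaussianInt)
    (hπ : ∀ i j, Adm k (π i j))
    (lam : ∀ i j, MulChar (GaussianInt ⧸ Ideal.span {π i j}) ℂ)
    (hlam : ∀ i j, orderOf (lam i j) = 2 ^ k)
    -- the primes of all members are different, and the products of the primes are in one class
    (hinj : Function.Injective fun x : Σ i, Fin (m i) => π x.1 x.2)
    (d : GaussianInt) (hd : ∀ i, (4 * ⟨1, 1⟩ : GaussianInt) ∣ (∏ j, π i j) - d) :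
    -- what happens at the favourable primes: the rank form and the 2-part of the leading term formula
    (∀ ρ, Adm k ρ → Opp d ρ → ∀ i, Favourable (π i) ρ →
      ∀ lam' : ∀ j : Fin (m i + 1),
          MulChar (GaussianInt ⧸ Ideal.span {(Fin.snoc (π i) ρ : Fin (m i + 1) → GaussianInt) j}) ℂ,
        (∀ (j : Fin (m i)) (x : GaussianInt), lam' j.castSucc (Ideal.Quotient.mk _ x) =
          lam i j (Ideal.Quotient.mk _ x)) → orderOf (lam' (Fin.last (m i))) = 2 ^ k →
        RankZero k (m i + 1) (Fin.snoc (π i) ρ) lam' ζ ∧
          Concl k (m i + 1) (Fin.snoc (π i) ρ) lam' ζ) ∧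
    -- the joint law
    (∀ (I : Finset ι) (v : ι → Prop), Tendsto (fun X : ℕ =>
      (count (fun ρ => (Adm k ρ ∧ Opp d ρ) ∧ ∀ i ∈ I, (Favourable (π i) ρ ↔ v i)) X : ℝ) /
        (count (fun ρ => Adm k ρ ∧ Opp d ρ) X : ℝ)) atTop
      (𝓝 (∏ i ∈ I, if v i then c (π i) else 1 - c (π i)))) ∧
    (∀ i, (1 / 2 : ℝ) ^ m i ≤ c (π i)) ∧
    -- infinite families
    ((¬ Summable fun i => c (π i)) → ∀ N : ℕ, Tendsto (fun X : ℕ =>
      (count (fun ρ => (Adm k ρ ∧ Opp d ρ) ∧
        ∃ S : Finset ι, S.card = N ∧ ∀ i ∈ S, Favourable (π i) ρ) X : ℝ) /
        (count (fun ρ => Adm k ρ ∧ Opp d ρ) X : ℝ)) atTop (𝓝 1)) ∧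
    (Infinite ι → ∀ M : ℕ, (∀ i, m i ≤ M) → ¬ Summable fun i => c (π i)) := by
  obtain ⟨h1, h2, h3, h4⟩ := Pool.Agent.U972.SM.main hk hπ hinj d hd lam hlam ζ hζ
  exact ⟨h4, h2, h1, h3, fun _ _ hM => not_summable_of_bdd hM⟩
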