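import Pool.Agent.X112.GS.Fin

/-!
# The next spacings of the zeros of zeta are not a monotone function of the present one

Let `0 < γ 1 ≤ γ 2 ≤ …` be the ordinates of the nontrivial zeros of the zeta function, with multiplicity, and
`δ n = γ~ (n + 1) - γ~ n`, `γ~ = γ log γ / (2 π)`, the normalised gaps. No hypothesis is assumed.

For every `k ≥ 1` there is `ε > 0` such that for all large `N` and EVERY nondecreasing function `f` the gap
`δ (n + k)` differs from `f (δ n)` by at least `ε` for at least `ε N` of the `n ≤ N`; and the same holds, with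
`ε` depending also on `Λ`, for all nonincreasing functions `f` with Lipschitz constant at most `Λ`. So the gap
after `k` steps cannot be predicted from the present one by a monotone rule (in particular the pairs
`(δ n, δ (n + k))` have no limit law which is supported by a monotone graph), and for constant functions `f`
this says that the gaps are not concentrated at a point.

The proof (library `X112.GS`): the numbers `y (n + r) - y n - r`, `y = γ~`, are not concentrated in bounded
intervals for large `r` (Selberg's moments, Fujii), but they are `o(r)` at almost all places; so the gaps are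
nowhere approximately periodic. The iteration of a monotone function is monotone along orbits, and counting the
crossings of a level gives long almost constant or almost two-periodic runs of gaps.
-/

set_option autoImplicit false

open Filter

namespace Pool.Agent.Results.MP_21f43f_nt.NoMonotonePrediction

/-- multiplicity of `s` as a zero of the Riemann zeta function (order of vanishing at `s`) -/
noncomputable def zmult (s : ℂ) : ℕ := analyticOrderNatAt riemannZeta s

/-- the number of nontrivial zeros of `ζ` with ordinate in `(0, t]`, with multiplicity -/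
noncomputable def NZ (t : ℝ) : ℕ :=
  ∑ᶠ s ∈ {s : ℂ | riemannZeta s = 0 ∧ 0 < s.re ∧ s.re < 1 ∧ 0 < s.im ∧ s.im ≤ t}, zmult s

/-- for `n ≥ 1`: the `n`-th positive ordinate `γ n` of a nontrivial zero of `ζ`, the ordinates being
listed in nondecreasing order and repeated according to multiplicity -/
noncomputable def γ (n : ℕ) : ℝ := sInf {t : ℝ | n ≤ NZ t}

/-- the normalised gap `γ~ (n + 1) - γ~ n`, where `γ~ = γ log γ / (2 π)` -/
noncomputable def δ (n : ℕ) : ℝ :=
  γ (n + 1) * Real.log (γ (n + 1)) / (2 * Real.pi) - γ n * Real.log (γ n) / (2 * Real.pi)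

lemma δ_eq (n : ℕ) : δ n = Pool.Agent.X112.GS.inc Pool.Agent.X112.GS.yy n := rfl

lemma cast_card (N : ℕ) (P : ℕ → Prop) [DecidablePred P] :
    (({n : ℕ | 1 ≤ n ∧ n ≤ N ∧ P n}.ncard : ℕ) : ℝ) = (((Finset.Icc 1 N).filter P).card : ℝ) := by
  congr 1
  rw [← Set.ncard_coe_finset]
  congr 1
  ext n
  simp [and_assoc]

theorem result (k : ℕ) (hk : 1 ≤ k) :
    (∃ ε : ℝ, 0 < ε ∧ ∀ᶠ N : ℕ in atTop, ∀ f : ℝ → ℝ, Monotone f →
      ε * N ≤ ({n : ℕ | 1 ≤ n ∧ n ≤ N ∧ ε ≤ |δ (n + k) - f (δ n)|}.ncard : ℝ)) ∧
    ∀ Λ : ℝ, 0 ≤ Λ → ∃ ε : ℝ, 0 < ε ∧ ∀ᶠ N : ℕ in atTop, ∀ f : ℝ → ℝ, Antitone f →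
      (∀ s t : ℝ, |f s - f t| ≤ Λ * |s - t|) →
      ε * N ≤ ({n : ℕ | 1 ≤ n ∧ n ≤ N ∧ ε ≤ |δ (n + k) - f (δ n)|}.ncard : ℝ) := by
  classical
  refine ⟨?_, ?_⟩
  · obtain ⟨ε, hε, h⟩ := Pool.Agent.X112.GS.mono k hk
    refine ⟨ε, hε, ?_⟩
    filter_upwards [h] with N hN f hf
    simp only [cast_card, δ_eq]
    exact hN f hf
  · intro Λ hΛ
    obtain ⟨ε, hε, h⟩ := Pool.Agent.X112.GS.anti k hk Λ hΛ
    refine ⟨ε, hε, ?_⟩
    filter_upwards [h] with N hN f hf hf2
    simp only [cast_card, δ_eq]
    exact hN f hf hf2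

end Pool.Agent.Results.MP_21f43f_nt.NoMonotonePrediction
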