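import Pool.Agent.U745.LT.Loc

/-!
# A numerical form of Beilinson's conjecture on the central points of `L(H^i(X), s)`, `i` odd

Let `X` be a smooth projective variety of dimension `d` over a number field `K` (`K = ℚ` is the case of
the problem), `i = 2m - 1` odd, and `L(s) = L(H^i(X), s) = ∏_v ∏_j (1 - α_{v,j} q_v^{-s})⁻¹`, the
product over all primes `v` of `K`; for the primes of good reduction the `α_{v,j}` are the eigenvalues
of Frobenius on `H^i(X)`.  Put

`λ_v = ∑_j log (1 - α_{v,j} q_v^{-m})`,  `μ_v = ∑_j log (1 - (α_{v,j} q_v^{-m})²)`,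

the logarithms of the inverse local factors at the central point `m`, over the residue field and over
its quadratic extension, and for a real number `τ`, with `ω = 1 + iτ`, `w(z) = 1 / Γ(1 + z)`,
`u = log q_v / log x`,

`P_τ(x) = exp ∑_v ( w(ω u) λ_v + ½ (w(2 ω u) - w(ω u)) μ_v )`,

a smoothed form of the product of the inverse local factors at the central point over the `v` with
`q_v ≤ x`; the series is absolutely convergent.  Suppose that `L(s)` has a meromorphic continuation to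
`Re s ≥ m`.  Nothing is assumed on the zeros and poles.  Put
`κ = ∫_0^∞ (e^{-t} - 1 / Γ(1 + t)) dt / t`.  The parts (iii) and (iv) of the conjecture are
`ord_{s=m} L(s) = ρ`, `ρ = dim V^m`, and `L^*(m) = c D`, `c ∈ ℚ^*`, for
`D = det Π · det ⟨ , ⟩`.  We prove:

* `ord_{s=m} L(s) = ρ` if and only if for one `τ` and one sequence `x → ∞` the numbers
  `P_τ(x) (ω e^κ / log x)^ρ` have a limit different from `0`; and this limit is then `1 / L^*(m)`;
* `ord_{s=m} L(s) = ρ` and `L^*(m) ∈ ℚ^* D` if and only if for one `τ` and one sequence the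
  numbers `D P_τ(x) (ω e^κ / log x)^ρ` tend to a rational number different from `0`;
* for all `τ`, except for finitely many in every bounded interval, `L(s)` has no zeros and poles on the
  ray `m + ω y`, `y > 0`, and then `P_τ(x) (ω e^κ / log x)^r = 1 / L^*(m) + O(1 / log x)`,
  `r = ord_{s=m} L(s)`; for the other `τ` one has `± log |P_τ(x)| ≥ exp (x^c)`, `c > 0`, for large `x`.

The numbers `μ_v` cannot be omitted, since `∑_v ∑_j α_{v,j}² q_v^{-2m}` does not converge absolutely, and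
nothing is known in general on the symmetric and exterior squares of `H^i(X)` at the edge.
-/

set_option autoImplicit false

namespace Pool.Agent.Results.MP_29b22a_nt.NumericalForm

open NumberField IsDedekindDomain Filter Topology Classical
open Pool.Agent.R409.RA (rp ca cv wgt re_half)
open Pool.Agent.U745.LT (WW sqa Leading)

section defs

variable {K : Type} [Field K] [NumberField K] {n : ℕ}

/-- The set `X` of homogeneous polynomials over a ring `R` in `n` variables defines a projective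
scheme over `R`.  For a field `κ` with `q` elements and a homomorphism `R → κ` this is `(q - 1)`
times the number of the points of `X` with coordinates in `κ`: the number of the nonzero solutions
of the equations. -/
noncomputable def cone {R : Type} [CommRing R] (X : Set (MvPolynomial (Fin n) R)) {κ : Type}
    [Field κ] (φ : R →+* κ) : ℕ :=
  Nat.card {u : Fin n → κ // u ≠ 0 ∧ ∀ f ∈ X, MvPolynomial.eval₂ φ u f = 0}

/-- `α_1, …, α_N` are the eigenvalues of the geometric Frobenius at the prime `v` of `K` on `H^i(X)`,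
for a variety `X` of dimension `d`: there are finite multisets `β_k` of complex numbers of absolute
value `q_v^{k/2}`, `k = 0, …, 2d`, with `β_i = {α_1, …, α_N}`, such that for every finite extension
`κ` of the residue field of `v`, of degree `e`, the number of the points of `X` with coordinates in
`κ` is `∑ (-1)^k ∑_{z ∈ β_k} z^e`.  By the theorem of Deligne such `β_k` exist at almost all primes
if `X` is smooth, with `N` the `i`-th Betti number of `X`; for `k ≤ 2d` they are unique. -/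
def IsFrobenius (X : Set (MvPolynomial (Fin n) (𝓞 K))) (d i : ℕ)
    (v : HeightOneSpectrum (𝓞 K)) {N : ℕ} (α : Fin N → ℂ) : Prop :=
  ∃ β : ℕ → Multiset ℂ, β i = Finset.univ.val.map α ∧
    (∀ k, ∀ z ∈ β k, ‖z‖ = (Ideal.absNorm v.asIdeal : ℝ) ^ ((k : ℝ) / 2)) ∧
    ∀ (κ : Type) [Field κ] [Finite κ] (φ : 𝓞 K →+* κ) (e : ℕ), RingHom.ker φ = v.asIdeal →
      Nat.card κ = Ideal.absNorm v.asIdeal ^ e →
      (cone X φ : ℂ) = ((Ideal.absNorm v.asIdeal : ℂ) ^ e - 1) *
          ∑ k ∈ Finset.range (2 * d + 1), (-1 : ℂ) ^ k * ((β k).map (fun z => z ^ e)).sum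

/-- `α_{v,1}, …, α_{v,N}` are the parameters of the Euler factors of `L(H^i(X), s)` at all primes `v`
of `K`: for almost all `v` these are the eigenvalues of the geometric Frobenius on `H^i(X)`, and for all
`v` they are numbers of absolute value at most `q_v^{i/2}`.  (At a bad prime these are the eigenvalues
of Frobenius on the inertia invariants of `H^i(X)`, completed by zeros.) -/
def IsParameter (X : Set (MvPolynomial (Fin n) (𝓞 K))) (d i : ℕ) {N : ℕ}
    (α : HeightOneSpectrum (𝓞 K) → Fin N → ℂ) : Prop :=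
  (∀ᶠ v in cofinite, IsFrobenius X d i v (α v)) ∧
    ∀ v j, ‖α v j‖ ≤ (Ideal.absNorm v.asIdeal : ℝ) ^ ((i : ℝ) / 2)

/-- `L(H^i(X), s)`, the Euler product over all primes `v` of `K`. -/
noncomputable def LFun {N : ℕ} (α : HeightOneSpectrum (𝓞 K) → Fin N → ℂ) (s : ℂ) : ℂ :=
  ∏' v : HeightOneSpectrum (𝓞 K), ∏ j, (1 - α v j * (Ideal.absNorm v.asIdeal : ℂ) ^ (-s))⁻¹

/-- `F` is meromorphic at all points of the half-plane `Re s ≥ m`, and it is the L-function for
`Re s > m + 1/2 = i/2 + 1`. -/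
def IsContinuation {N : ℕ} (m : ℕ) (α : HeightOneSpectrum (𝓞 K) → Fin N → ℂ) (F : ℂ → ℂ) : Prop :=
  (∀ s : ℂ, (m : ℝ) ≤ s.re → MeromorphicAt F s) ∧ ∀ s : ℂ, (m : ℝ) + 1 / 2 < s.re → F s = LFun α s

/-- `w(z) = 1 / Γ(1 + z)`. -/
noncomputable def weight (z : ℂ) : ℂ := (Complex.Gamma (1 + z))⁻¹

/-- `∑_j log (1 - (α_{v,j} q_v^{-m})^e)`: this is `λ_v` for `e = 1` and `μ_v` for `e = 2`. -/
noncomputable def lam {N : ℕ} (m : ℕ) (α : HeightOneSpectrum (𝓞 K) → Fin N → ℂ) (e : ℕ)
    (v : HeightOneSpectrum (𝓞 K)) : ℂ :=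
  ∑ j, Complex.log (1 - (α v j / (Ideal.absNorm v.asIdeal : ℂ) ^ m) ^ e)

/-- The term at `v`, with `ω = 1 + iτ` and `u = log q_v / log x`:
`w(ω u) λ_v + ½ (w(2 ω u) - w(ω u)) μ_v`. -/
noncomputable def term {N : ℕ} (m : ℕ) (α : HeightOneSpectrum (𝓞 K) → Fin N → ℂ) (τ x : ℝ)
    (v : HeightOneSpectrum (𝓞 K)) : ℂ :=
  weight ((1 + τ * Complex.I) * (Real.log (Ideal.absNorm v.asIdeal) / Real.log x)) * lam m α 1 v +
    1 / 2 * (weight (2 * ((1 + τ * Complex.I) * (Real.log (Ideal.absNorm v.asIdeal) / Real.log x))) -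
      weight ((1 + τ * Complex.I) * (Real.log (Ideal.absNorm v.asIdeal) / Real.log x))) *
      lam m α 2 v

/-- The smoothed product `P_τ(x)` of the inverse local factors at the central point. -/
noncomputable def prod {N : ℕ} (m : ℕ) (α : HeightOneSpectrum (𝓞 K) → Fin N → ℂ) (τ x : ℝ) : ℂ :=
  Complex.exp (∑' v : HeightOneSpectrum (𝓞 K), term m α τ x v)

/-- The point `m + (1 + iτ) y`. -/
noncomputable def ray (m : ℕ) (τ y : ℝ) : ℂ := m + (1 + τ * Complex.I) * y

/-- `F` has a zero or a pole on the ray `{m + (1 + iτ) y : y > 0}`. -/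
def Blocked (m : ℕ) (F : ℂ → ℂ) (τ : ℝ) : Prop :=
  ∃ y : ℝ, 0 < y ∧ meromorphicOrderAt F (ray m τ y) ≠ 0

/-- The leading term of `F` at `s = m` is `B (s - m)^r`: the function `(s - m)^{-r} F(s)` tends to `B`
for `s → m`. -/
def LeadingTerm (m : ℕ) (F : ℂ → ℂ) (r : ℤ) (B : ℂ) : Prop :=
  Tendsto (fun s : ℂ => (s - m) ^ (-r) * F s) (𝓝[≠] (m : ℂ)) (𝓝 B)

end defs

/-- `κ = ∫_0^∞ (e^{-t} - 1/Γ(1 + t)) dt/t`. -/
noncomputable def kappa : ℝ :=
  ∫ t in Set.Ioi (0 : ℝ), (Real.exp (-t) - (Real.Gamma (1 + t))⁻¹) / t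

/-- `P(x) (ω e^κ / log x)^r`, `ω = 1 + iτ`. -/
noncomputable def normalised (P : ℝ → ℂ) (τ : ℝ) (r : ℤ) (x : ℝ) : ℂ :=
  P x * ((1 + τ * Complex.I) * Real.exp kappa / Real.log x) ^ r

/-- For one `τ` and one sequence `x → ∞` the number `P_τ(x) (ω e^κ / log x)^r` tends to `b`. -/
def LimitPoint (P : ℝ → ℝ → ℂ) (r : ℤ) (b : ℂ) : Prop :=
  ∃ (τ : ℝ) (x : ℕ → ℝ), Tendsto x atTop atTop ∧
    Tendsto (fun k => normalised (P τ) τ r (x k)) atTop (𝓝 b)

/-- For all `τ` such that `F` has no zeros and poles on the ray,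
`P_τ(x) (ω e^κ / log x)^r = b + O(1 / log x)`. -/
def FreeLaw (m : ℕ) (F : ℂ → ℂ) (P : ℝ → ℝ → ℂ) (r : ℤ) (b : ℂ) : Prop :=
  ∀ τ : ℝ, ¬ Blocked m F τ →
    ∃ C : ℝ, ∀ᶠ x : ℝ in atTop, ‖normalised (P τ) τ r x - b‖ ≤ C / Real.log x

/-- The conclusion for the other directions: `m + (1 + iτ) y` being the last zero or pole on the ray, of
order `k`, `k log |P_τ(x)| > 0` and `log |P_τ(x)|` is larger than `exp (x^c)` in absolute value, for
every `c < y`. -/
def BlockedLaw (m : ℕ) (F : ℂ → ℂ) (P : ℝ → ℝ → ℂ) : Prop :=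
  ∀ τ : ℝ, Blocked m F τ → ∃ (y : ℝ) (k : ℤ), 0 < y ∧ k ≠ 0 ∧
    meromorphicOrderAt F (ray m τ y) = k ∧
    (∀ z : ℝ, y < z → meromorphicOrderAt F (ray m τ z) = 0) ∧
    ∀ c < y, ∀ᶠ x : ℝ in atTop, Real.exp (x ^ c) ≤ (Int.sign k : ℝ) * Real.log ‖P τ x‖

section bridge

variable {K : Type} [Field K] [NumberField K] {n N m i : ℕ}
  {α : HeightOneSpectrum (𝓞 K) → Fin N → ℂ} {F : ℂ → ℂ}

theorem half_eq (hi : i + 1 = 2 * m) : ((i : ℂ) + 1) / 2 = m := by
  have : ((i + 1 : ℕ) : ℂ) = ((2 * m : ℕ) : ℂ) := by rw [hi]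
  push_cast at this
  rw [this]
  ring

theorem half_eq' (hi : i + 1 = 2 * m) : ((i : ℝ) + 1) / 2 = m := by
  have : ((i + 1 : ℕ) : ℝ) = ((2 * m : ℕ) : ℝ) := by rw [hi]
  push_cast at this
  rw [this]
  ring

theorem ray_eq (hi : i + 1 = 2 * m) (τ x : ℝ) : ray m τ x = rp i τ x := by
  unfold ray rp Pool.Agent.W524.RY.dir
  rw [half_eq hi]

theorem cont (hi : i + 1 = 2 * m)
    (hα : ∀ v j, ‖α v j‖ ≤ (Ideal.absNorm v.asIdeal : ℝ) ^ ((i : ℝ) / 2))
    (hF : IsContinuation m α F) : Pool.Agent.R409.RA.Cont i α F where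
  temp := hα
  mer := fun s hs => hF.1 s (by rwa [half_eq' hi] at hs)
  eq := fun s hs => hF.2 s (by
    have := half_eq' hi
    linarith)

theorem ca_eq (hi : i + 1 = 2 * m) (v : HeightOneSpectrum (𝓞 K)) (j : Fin N) :
    ca i α v j = α v j / (Ideal.absNorm v.asIdeal : ℂ) ^ m := by
  unfold ca
  rw [half_eq hi, Complex.cpow_neg, Complex.cpow_natCast, div_eq_mul_inv]
  rfl

theorem lam_one (hi : i + 1 = 2 * m) (v : HeightOneSpectrum (𝓞 K)) :
    lam m α 1 v = cv (ca i α) v := by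
  unfold lam cv
  refine Finset.sum_congr rfl fun j _ => ?_
  rw [ca_eq hi, pow_one]

theorem lam_two (hi : i + 1 = 2 * m) (v : HeightOneSpectrum (𝓞 K)) :
    lam m α 2 v = cv (sqa (ca i α)) v := by
  unfold lam cv sqa
  refine Finset.sum_congr rfl fun j _ => ?_
  rw [ca_eq hi]

theorem term_eq (hi : i + 1 = 2 * m) (τ x : ℝ) (v : HeightOneSpectrum (𝓞 K)) :
    term m α τ x v = cv (ca i α) v * wgt τ (Real.log x) v + 1 / 2 * cv (sqa (ca i α)) v *
        (wgt τ (Real.log x / 2) v - wgt τ (Real.log x) v) := by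
  unfold term
  rw [lam_one hi, lam_two hi]
  have e1 : weight ((1 + τ * Complex.I) *
      (Real.log (Ideal.absNorm v.asIdeal) / Real.log x)) = wgt τ (Real.log x) v := rfl
  have e2 : weight (2 * ((1 + τ * Complex.I) *
      (Real.log (Ideal.absNorm v.asIdeal) / Real.log x))) = wgt τ (Real.log x / 2) v := by
    unfold weight wgt Pool.Agent.W524.RY.dir
    congr 3
    push_cast
    have : (Pool.Agent.TH339.MP.nm v : ℕ) = Ideal.absNorm v.asIdeal := rfl
    rw [this]
    by_cases hx : (Real.log x : ℂ) = 0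
    · rw [hx]
      simp
    · field_simp
  rw [e1, e2]
  ring

theorem sum_eq (hi : i + 1 = 2 * m)
    (hα : ∀ v j, ‖α v j‖ ≤ (Ideal.absNorm v.asIdeal : ℝ) ^ ((i : ℝ) / 2)) (τ : ℝ) {x : ℝ}
    (hx : 1 < x) : (Summable fun v => ‖term m α τ x v‖) ∧
      prod m α τ x = Complex.exp (WW (ca i α) τ x) := by
  have hc := Pool.Agent.R409.RA.cen_ca hα
  obtain ⟨h1, h2⟩ := Pool.Agent.U745.LT.cmean2_tsum hc τ (Real.log_pos hx)
  constructor
  · exact h1.congr fun v => by rw [term_eq hi]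
  · unfold prod WW
    rw [h2]
    congr 1
    exact tsum_congr fun v => term_eq hi τ x v

theorem not_blocked (hi : i + 1 = 2 * m) {τ : ℝ} :
    ¬ Blocked m F τ ↔ ∀ x : ℝ, 0 < x → meromorphicOrderAt F (rp i τ x) = 0 := by
  unfold Blocked
  push Not
  simp only [ray_eq hi]

theorem norm_eq (hi : i + 1 = 2 * m)
    (hα : ∀ v j, ‖α v j‖ ≤ (Ideal.absNorm v.asIdeal : ℝ) ^ ((i : ℝ) / 2)) (τ : ℝ) (r : ℤ) {x : ℝ}
    (hx : 1 < x) : normalised (prod m α τ) τ r x = Complex.exp (WW (ca i α) τ x) *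
      (Pool.Agent.W524.RY.dir τ * Real.exp Pool.Agent.W189.LC.kap / Real.log x) ^ r := by
  unfold normalised
  rw [(sum_eq hi hα τ hx).2]
  rfl

end bridge

/-- **A numerical form of Beilinson's conjecture.** Let `X` be a smooth projective variety of dimension
`d` over a number field `K`, `i = 2m - 1` odd, `α` the parameters of `L(H^i(X), s)`, and `F` a meromorphic
continuation of `L(H^i(X), s)` to `Re s ≥ m`.  Then

1. the series in the definition of `P_τ(x)` converges absolutely for all `x > 1`;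
2. only finitely many `τ` in every bounded interval are blocked;
3. let `r` be the order of `F` at `s = m` and `ℓ` its leading coefficient; for the `τ` that are not
  blocked `P_τ(x) (ω e^κ / log x)^r = 1 / ℓ + O(1 / log x)`;
4. for the blocked `τ` one has `± log |P_τ(x)| ≥ exp (x^c)`;
5. for every integer `ρ` the order of `F` at `s = m` is `ρ` if and only if
  `P_τ(x) (ω e^κ / log x)^ρ` has a limit `b ≠ 0` for one `τ` and one sequence `x → ∞`, and then the
  leading coefficient is `1 / b`, and the limit is `b` for all `τ` that are not blocked, with the error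
  `O(1 / log x)`;
6. for every integer `ρ` and every number `D ≠ 0`, in particular for `ρ = dim V^m` and
  `D = det Π · det ⟨ , ⟩`: the order of `F` at `s = m` is `ρ` and the leading coefficient is in `ℚ^* D`
  if and only if `P_τ(x) (ω e^κ / log x)^ρ D` tends to a rational number different from `0` for one `τ`
  and one sequence `x → ∞`. -/
theorem result (K : Type) [Field K] [NumberField K] (n d i m N : ℕ) (hi : i + 1 = 2 * m)
    (X : Set (MvPolynomial (Fin n) (𝓞 K))) (α : HeightOneSpectrum (𝓞 K) → Fin N → ℂ)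
    (hα : IsParameter X d i α) (F : ℂ → ℂ) (hF : IsContinuation m α F) :
    (∀ τ x : ℝ, 1 < x → Summable fun v => ‖term m α τ x v‖) ∧
    (∀ b : ℝ, {τ : ℝ | |τ| ≤ b ∧ Blocked m F τ}.Finite) ∧
    (∃ (r : ℤ) (ℓ : ℂ), ℓ ≠ 0 ∧ meromorphicOrderAt F (m : ℂ) = r ∧ LeadingTerm m F r ℓ ∧
      FreeLaw m F (prod m α) r ℓ⁻¹) ∧
    BlockedLaw m F (prod m α) ∧
    (∀ ρ : ℤ, (meromorphicOrderAt F (m : ℂ) = ρ ↔ ∃ b : ℂ, b ≠ 0 ∧ LimitPoint (prod m α) ρ b) ∧
      ∀ b : ℂ, b ≠ 0 → LimitPoint (prod m α) ρ b →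
        LeadingTerm m F ρ b⁻¹ ∧ FreeLaw m F (prod m α) ρ b) ∧
    ∀ (ρ : ℤ) (D : ℂ), D ≠ 0 →
      ((meromorphicOrderAt F (m : ℂ) = ρ ∧ ∃ c : ℚ, c ≠ 0 ∧ LeadingTerm m F ρ (c * D)) ↔
        ∃ c : ℚ, c ≠ 0 ∧ LimitPoint (fun τ x => D * prod m α τ x) ρ c) := by
  have hc := cont hi hα.2 hF
  have hcen : ((i : ℝ) + 1) / 2 ≤ (((i : ℂ) + 1) / 2).re := (re_half i).ge
  have hmF : MeromorphicAt F (m : ℂ) := by
    have := hc.mer _ hcen
    rwa [half_eq hi] at this
  have hlead : ∀ (r : ℤ) (B : ℂ), LeadingTerm m F r B ↔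
      Leading F (((i : ℂ) + 1) / 2) r B := by
    intro r B
    rw [half_eq hi]
    rfl
  -- the equivalences
  have htfae : ∀ (ρ : ℤ) (b : ℂ), b ≠ 0 → List.TFAE [
      LeadingTerm m F ρ b⁻¹,
      LimitPoint (prod m α) ρ b,
      FreeLaw m F (prod m α) ρ b] := by
    intro ρ b hb
    have h1 := Pool.Agent.U745.LT.tfae2 hc ρ (inv_ne_zero hb)
    rw [← hlead, inv_inv] at h1
    have e2 : LimitPoint (prod m α) ρ b ↔ ∃ (τ : ℝ) (x : ℕ → ℝ), Tendsto x atTop atTop ∧
        Tendsto (fun n => Complex.exp (WW (ca i α) τ (x n)) *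
          (Pool.Agent.W524.RY.dir τ * Real.exp Pool.Agent.W189.LC.kap / Real.log (x n)) ^ ρ)
          atTop (𝓝 b) := by
      unfold LimitPoint
      refine exists_congr fun τ => exists_congr fun x => and_congr_right fun hx => ?_
      refine tendsto_congr' ?_
      filter_upwards [hx.eventually (eventually_gt_atTop 1)] with k hk
      exact norm_eq hi hα.2 τ ρ hk
    have e3 : FreeLaw m F (prod m α) ρ b ↔
        ∀ τ : ℝ, (∀ x : ℝ, 0 < x → meromorphicOrderAt F (rp i τ x) = 0) →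
        ∃ C : ℝ, ∀ᶠ x : ℝ in atTop, ‖Complex.exp (WW (ca i α) τ x) *
          (Pool.Agent.W524.RY.dir τ * Real.exp Pool.Agent.W189.LC.kap / Real.log x) ^ ρ - b‖ ≤
          C / Real.log x := by
      unfold FreeLaw
      simp only [not_blocked hi]
      refine forall_congr' fun τ => imp_congr_right fun _ => exists_congr fun C =>
        eventually_congr ?_
      filter_upwards [eventually_gt_atTop 1] with x hx
      rw [norm_eq hi hα.2 τ ρ hx]
    rw [e2, e3]
    exact h1
  obtain ⟨r, hr⟩ := WithTop.ne_top_iff_exists.1 (hc.ne_top (s := (m : ℂ)) (by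
    rw [half_eq' hi, Complex.natCast_re]))
  have hne : meromorphicTrailingCoeffAt F (m : ℂ) ≠ 0 :=
    hmF.meromorphicTrailingCoeffAt_ne_zero (by rw [← hr]; exact WithTop.coe_ne_top)
  have hlt : LeadingTerm m F r (meromorphicTrailingCoeffAt F (m : ℂ)) :=
    (Pool.Agent.U745.LT.leading_iff hmF hne (ρ := r)).2 ⟨hr.symm, rfl⟩
  have hord : ∀ (ρ : ℤ) (B : ℂ), B ≠ 0 → LeadingTerm m F ρ B →
      meromorphicOrderAt F (m : ℂ) = ρ := fun ρ B hB h =>
    ((Pool.Agent.U745.LT.leading_iff hmF hB).1 h).1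
  refine ⟨fun τ x hx => (sum_eq hi hα.2 τ hx).1, fun b => ?_, ?_, ?_, ?_, ?_⟩
  · simpa only [Blocked, ray_eq hi] using hc.blocked_finite b
  · refine ⟨r, meromorphicTrailingCoeffAt F (m : ℂ), hne, hr.symm, hlt, ?_⟩
    have := htfae r (meromorphicTrailingCoeffAt F (m : ℂ))⁻¹ (inv_ne_zero hne)
    rw [inv_inv] at this
    exact (this.out 0 2).1 hlt
  · intro τ hτ
    obtain ⟨y, hy, hyz⟩ := hτ
    rw [ray_eq hi] at hyz
    obtain ⟨x₀, h0, h01, hnz, hz⟩ := hc.exists_last τ
    have hx0 : 0 < x₀ := by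
      by_contra hcon
      exact hyz (hnz y (by linarith))
    have hz' : meromorphicOrderAt F (rp i τ x₀) ≠ 0 := by
      rcases hz with h2 | h2
      · exact absurd h2 hx0.ne'
      · exact h2
    obtain ⟨k, hk⟩ := WithTop.ne_top_iff_exists.1 (hc.ne_top (s := rp i τ x₀) (by
      rw [Pool.Agent.R409.RA.rp_re]
      linarith))
    have hk0 : k ≠ 0 := by
      rintro rfl
      exact hz' (by rw [← hk]; rfl)
    simp only [ray_eq hi]
    refine ⟨x₀, k, hx0, hk0, hk.symm, hnz, fun c hcx => ?_⟩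
    filter_upwards [Pool.Agent.U745.LT.blocked2 hc τ hx0 h01 hk.symm hk0 hnz hcx,
      eventually_gt_atTop 1] with x h1 h2
    rw [(sum_eq hi hα.2 τ h2).2, Complex.norm_exp, Real.log_exp]
    exact h1
  · intro ρ
    refine ⟨⟨fun h => ?_, ?_⟩, fun b hb h => ⟨((htfae ρ b hb).out 1 0).1 h,
      ((htfae ρ b hb).out 1 2).1 h⟩⟩
    · have hρ : r = ρ := by
        rw [← hr] at h
        exact_mod_cast h
      refine ⟨(meromorphicTrailingCoeffAt F (m : ℂ))⁻¹, inv_ne_zero hne, ?_⟩
      have := htfae r (meromorphicTrailingCoeffAt F (m : ℂ))⁻¹ (inv_ne_zero hne)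
      rw [inv_inv] at this
      rw [← hρ]
      exact (this.out 0 1).1 hlt
    · rintro ⟨b, hb, h⟩
      exact hord ρ b⁻¹ (inv_ne_zero hb) (((htfae ρ b hb).out 1 0).1 h)
  · intro ρ D hD
    have hscale : ∀ b : ℂ, LimitPoint (fun τ x => D * prod m α τ x) ρ b ↔
        LimitPoint (prod m α) ρ (D⁻¹ * b) := by
      intro b
      unfold LimitPoint
      refine exists_congr fun τ => exists_congr fun x => and_congr_right fun _ => ?_
      have e1 : ∀ y : ℝ, normalised (fun x => D * prod m α τ x) τ ρ y =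
          D * normalised (prod m α τ) τ ρ y := by
        intro y
        unfold normalised
        ring
      constructor
      · intro h
        have h2 := h.const_mul D⁻¹
        refine h2.congr fun k => ?_
        rw [e1, ← mul_assoc, inv_mul_cancel₀ hD, one_mul]
      · intro h
        have h2 := h.const_mul D
        rw [← mul_assoc, mul_inv_cancel₀ hD, one_mul] at h2
        exact h2.congr fun k => (e1 _).symm
    constructor
    · rintro ⟨-, c, hc0, h⟩
      have hcD : (c : ℂ) * D ≠ 0 := mul_ne_zero (by exact_mod_cast hc0) hD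
      refine ⟨c⁻¹, inv_ne_zero hc0, ?_⟩
      rw [hscale]
      have h1 := htfae ρ ((c : ℂ) * D)⁻¹ (inv_ne_zero hcD)
      rw [inv_inv] at h1
      have h2 := (h1.out 0 1).1 h
      have e : D⁻¹ * ((c⁻¹ : ℚ) : ℂ) = ((c : ℂ) * D)⁻¹ := by
        push_cast
        rw [mul_inv]
        ring
      rw [e]
      exact h2
    · rintro ⟨c, hc0, h⟩
      rw [hscale] at h
      have hcc : (c : ℂ) ≠ 0 := by exact_mod_cast hc0
      have hb : D⁻¹ * (c : ℂ) ≠ 0 := mul_ne_zero (inv_ne_zero hD) hcc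
      have h2 := ((htfae ρ _ hb).out 1 0).1 h
      refine ⟨hord ρ _ (inv_ne_zero hb) h2, c⁻¹, inv_ne_zero hc0, ?_⟩
      have e : (((c⁻¹ : ℚ) : ℂ) * D) = (D⁻¹ * (c : ℂ))⁻¹ := by
        push_cast
        rw [mul_inv, inv_inv]
        ring
      rw [e]
      exact h2

end Pool.Agent.Results.MP_29b22a_nt.NumericalForm
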