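import Pool.Agent.U485.PT.Bound

set_option autoImplicit false

/-!
# Montgomery's `ℓ^q` inequality for almost all polynomial phase twists, in every range `T ≤ N^A`

Q1 asks for `∑_{1 ≤ t ≤ T} |D(t)|^q ≤ C N^ε (N^q + T N^(q/2))`, `D(t) = ∑_{N ≤ n ≤ 2N} b_n n^{it}`,
`|b_n| ≤ 1`, for all `q ≥ 2` and `N ≤ T ≤ N^A`.  Here the coefficients are ARBITRARY and they are
twisted by a polynomial phase of degree `d`: `b_n e(β_1 n + … + β_d n^d)`.  For all `β ∈ [0,1]^d`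
outside a set of measure `O(N^(-ε/2))` the inequality of Q1 holds for all `N ≤ T ≤ N^(d+1)`, for all
real `q > 0` and for all `1`-separated sets of real points of `[0,T]` at once; so for every `A` it
holds in the whole range `N ≤ T ≤ N^A` for almost all twists of degree `d ≥ A - 1`.

Proof: the moment of order `2 (d + 1)` over `β` and `t ≤ T` counts the pairs of `(d + 1)`-tuples with
the same power sums of the orders `1, …, d`, weighted by `min(T, N^(d+1) / |∏ x_i - ∏ y_i|)`; by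
Newton's identities all `x_1 - y_i` and all `y_1 - x_i` divide `∏ x_i - ∏ y_i`
(`Pool/Agent/U485/PT/Count.lean`).
-/

namespace Pool.Agent.Results.MP_2a1f0e_nt.PolynomialTwistsMoments

open Finset MeasureTheory

/-- The Dirichlet polynomial `D(t) = ∑_{N ≤ n ≤ 2N} b_n n^{it}`. -/
noncomputable def D (N : ℕ) (b : ℕ → ℂ) (t : ℝ) : ℂ :=
  ∑ n ∈ Icc N (2 * N), b n * Complex.exp (Complex.I * (t : ℂ) * ((Real.log (n : ℝ) : ℝ) : ℂ))

/-- The coefficients `b_n e(β_1 n + β_2 n² + … + β_d n^d)`, `e(x) = exp(2πix)`. -/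
noncomputable def twist (d : ℕ) (β : Fin d → ℝ) (b : ℕ → ℂ) (n : ℕ) : ℂ :=
  b n * Complex.exp (2 * Real.pi * Complex.I * ((∑ j : Fin d, β j * (n : ℝ) ^ (j.val + 1) : ℝ) : ℂ))

/-- The inequality of Q1 for all `N ≤ T ≤ N^(d+1)`, all `1`-separated finite sets `W` of real points of
`[0,T]` (in particular for `W = {1, …, T}`) and all real `q > 0`; for `q ≤ 2 (d + 1)` without the term
`N^q`. -/
def Good (d N : ℕ) (b : ℕ → ℂ) (ε : ℝ) : Prop :=
  ∀ T : ℝ, (N : ℝ) ≤ T → T ≤ (N : ℝ) ^ (d + 1) → ∀ W : Finset ℝ, (∀ t ∈ W, 0 ≤ t ∧ t ≤ T) →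
    (∀ t ∈ W, ∀ s ∈ W, t ≠ s → 1 ≤ |t - s|) → ∀ q : ℝ, 0 < q →
      ∑ t ∈ W, ‖D N b t‖ ^ q ≤ 6 * 2 ^ q * (N : ℝ) ^ ε * ((N : ℝ) ^ q + T * (N : ℝ) ^ (q / 2)) ∧
      (q ≤ 2 * (d + 1) → ∑ t ∈ W, ‖D N b t‖ ^ q ≤ 6 * (N : ℝ) ^ ε * (T * (N : ℝ) ^ (q / 2)))

theorem D_twist (d N : ℕ) (β : Fin d → ℝ) (b : ℕ → ℂ) (t : ℝ) :
    D N (twist d β b) t = Pool.Agent.U485.PT.DT d N b β t := by
  unfold D twist Pool.Agent.U485.PT.DT
  refine sum_congr rfl fun n _ => ?_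
  rw [mul_assoc, ← Complex.exp_add]
  congr 2
  unfold Pool.Agent.U485.PT.pha
  push_cast
  ring

theorem DT_le (d N : ℕ) (hN : 1 ≤ N) (b : ℕ → ℂ) (hb : ∀ n, ‖b n‖ ≤ 1) (β : Fin d → ℝ) (t : ℝ) :
    ‖Pool.Agent.U485.PT.DT d N b β t‖ ≤ 2 * N := by
  unfold Pool.Agent.U485.PT.DT
  refine (norm_sum_le _ _).trans ?_
  have h1 : ∀ n ∈ Icc N (2 * N), ‖b n * Complex.exp (Complex.I *
      ((Pool.Agent.U485.PT.pha d β (fun j => (n : ℤ) ^ (j.val + 1)) + t * Real.log n : ℝ) : ℂ))‖ ≤ 1 := by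
    intro n _
    rw [norm_mul, mul_comm Complex.I, Complex.norm_exp_ofReal_mul_I, mul_one]
    exact hb n
  refine (sum_le_sum h1).trans ?_
  rw [sum_const, nsmul_eq_mul, mul_one, Nat.card_Icc]
  exact_mod_cast (by omega : 2 * N + 1 - N ≤ 2 * N)

theorem card_le (T : ℝ) (hT : 0 ≤ T) (W : Finset ℝ) (hW : ∀ t ∈ W, 0 ≤ t ∧ t ≤ T)
    (hsep : ∀ t ∈ W, ∀ s ∈ W, t ≠ s → 1 ≤ |t - s|) : (W.card : ℝ) ≤ 2 * (T + 1) := by
  have h := Pool.Agent.U485.PT.gall (fun _ => 1) (fun _ => 0) (fun t => hasDerivAt_const t 1)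
    continuous_const T hT W hW hsep
  simp at h
  linarith

/-- Let `d ≥ 0` and `ε > 0`. For all `N`, all `|b_n| ≤ 1` and all `β` in the unit box of dimension `d`,
outside a set of measure at most `C N^(-ε/2)`, the twisted polynomial satisfies the inequality of Q1
for all `N ≤ T ≤ N^(d+1)` and all real `q > 0`, with the constant `6 * 2^q`. -/
theorem result (d : ℕ) (ε : ℝ) (hε : 0 < ε) :
    ∃ C : ℝ, 0 < C ∧ ∀ N : ℕ, 1 ≤ N → ∀ b : ℕ → ℂ, (∀ n, ‖b n‖ ≤ 1) →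
      volume {β : Fin d → ℝ | β ∈ Set.Icc 0 1 ∧ ¬ Good d N (twist d β b) ε} ≤
        ENNReal.ofReal (C * (N : ℝ) ^ (-(ε / 2))) := by
  obtain ⟨C, hC0, hC⟩ := Pool.Agent.U485.PT.main d ((d + 1 : ℕ) : ℝ) ε (by
    push_cast
    have : (0 : ℝ) ≤ d := by positivity
    linarith) hε
  refine ⟨C, hC0, ?_⟩
  intro N hN b hb
  have hN1 : (1 : ℝ) ≤ N := by exact_mod_cast hN
  have hN0 : (0 : ℝ) < N := by linarith
  refine (measure_mono ?_).trans (hC N hN b hb)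
  rintro β ⟨hβ, hbad⟩
  refine ⟨hβ, fun hgood => hbad ?_⟩
  intro T hT1 hT2 W hW hsep q hq
  simp only [D_twist]
  have hT0 : 0 < T := by linarith
  have hTN : T ≤ (N : ℝ) ^ (((d + 1 : ℕ) : ℝ)) := by rw [Real.rpow_natCast]; exact hT2
  have h1 := hgood T hT1 hTN W hW hsep
  have hcard := card_le T hT0.le W hW hsep
  have hNε : 1 ≤ (N : ℝ) ^ ε := Real.one_le_rpow hN1 hε.le
  have hNq : 0 < (N : ℝ) ^ (q / 2) := Real.rpow_pos_of_pos hN0 _
  set k : ℝ := ((d + 1 : ℕ) : ℝ) with hk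
  have hk1 : 1 ≤ k := by
    rw [hk]; push_cast
    have : (0 : ℝ) ≤ d := by positivity
    linarith
  have hsmall : q ≤ 2 * k → ∑ t ∈ W, ‖Pool.Agent.U485.PT.DT d N b β t‖ ^ q ≤
      6 * (N : ℝ) ^ ε * (T * (N : ℝ) ^ (q / 2)) := by
    intro hqk
    have h2 : ∀ t ∈ W, ‖Pool.Agent.U485.PT.DT d N b β t‖ ^ q ≤ (N : ℝ) ^ (q / 2) +
        (N : ℝ) ^ (q / 2 - k) * ‖Pool.Agent.U485.PT.DT d N b β t‖ ^ (2 * (d + 1)) := by
      intro t _
      set z := ‖Pool.Agent.U485.PT.DT d N b β t‖ with hz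
      have hz0 : 0 ≤ z := norm_nonneg _
      rcases le_total z ((N : ℝ) ^ (1 / 2 : ℝ)) with h | h
      · have h3 : z ^ q ≤ (N : ℝ) ^ (q / 2) := by
          refine (Real.rpow_le_rpow hz0 h hq.le).trans (le_of_eq ?_)
          rw [← Real.rpow_mul hN0.le]; congr 1; ring
        have : 0 ≤ (N : ℝ) ^ (q / 2 - k) * z ^ (2 * (d + 1)) := by positivity
        linarith
      · have hzp : 0 < z := (Real.rpow_pos_of_pos hN0 _).trans_le h
        have e1 : z ^ (2 * (d + 1)) = z ^ (2 * k) := by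
          rw [← Real.rpow_natCast]; congr 1; rw [hk]; push_cast; ring
        have e2 : z ^ q = z ^ (q - 2 * k) * z ^ (2 * k) := by
          rw [← Real.rpow_add hzp]; congr 1; ring
        have e3 : z ^ (q - 2 * k) ≤ (N : ℝ) ^ (q / 2 - k) := by
          refine (Real.rpow_le_rpow_of_nonpos (Real.rpow_pos_of_pos hN0 _) h (by linarith)).trans
            (le_of_eq ?_)
          rw [← Real.rpow_mul hN0.le]; congr 1; ring
        rw [e1, e2]
        have := mul_le_mul_of_nonneg_right e3 (by positivity : 0 ≤ z ^ (2 * k))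
        linarith
    refine (sum_le_sum h2).trans ?_
    rw [sum_add_distrib, sum_const, nsmul_eq_mul, ← mul_sum]
    have h4 : (W.card : ℝ) * (N : ℝ) ^ (q / 2) ≤ 4 * T * (N : ℝ) ^ (q / 2) :=
      mul_le_mul_of_nonneg_right (by linarith) hNq.le
    have h5 : (N : ℝ) ^ (q / 2 - k) * ∑ t ∈ W, ‖Pool.Agent.U485.PT.DT d N b β t‖ ^ (2 * (d + 1)) ≤
        2 * (N : ℝ) ^ ε * (T * (N : ℝ) ^ (q / 2)) := by
      refine (mul_le_mul_of_nonneg_left h1 (by positivity)).trans (le_of_eq ?_)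
      have : (N : ℝ) ^ (q / 2 - k) * (N : ℝ) ^ (k + ε) = (N : ℝ) ^ ε * (N : ℝ) ^ (q / 2) := by
        rw [← Real.rpow_add hN0, ← Real.rpow_add hN0]; congr 1; ring
      calc _ = 2 * T * ((N : ℝ) ^ (q / 2 - k) * (N : ℝ) ^ (k + ε)) := by ring
        _ = _ := by rw [this]; ring
    have h6 : 4 * T * (N : ℝ) ^ (q / 2) ≤ 4 * (N : ℝ) ^ ε * (T * (N : ℝ) ^ (q / 2)) := by
      have : 0 < T * (N : ℝ) ^ (q / 2) := by positivity
      nlinarith
    linarith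
  have h2q : (1 : ℝ) ≤ 2 ^ q := Real.one_le_rpow (by norm_num) hq.le
  have hNqq : 0 < (N : ℝ) ^ q := Real.rpow_pos_of_pos hN0 _
  refine ⟨?_, fun h => hsmall (by rw [hk]; push_cast; exact h)⟩
  rcases le_total q (2 * k) with h | h
  · refine (hsmall h).trans ?_
    have h3 : 6 * (N : ℝ) ^ ε ≤ 6 * 2 ^ q * (N : ℝ) ^ ε := by
      have : 0 < (N : ℝ) ^ ε := by linarith
      nlinarith
    refine mul_le_mul h3 (by linarith) (by positivity) (by positivity)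
  · have h2 : ∀ t ∈ W, ‖Pool.Agent.U485.PT.DT d N b β t‖ ^ q ≤
        (2 * N : ℝ) ^ (q - 2 * k) * ‖Pool.Agent.U485.PT.DT d N b β t‖ ^ (2 * (d + 1)) := by
      intro t _
      have hz2 := DT_le d N hN b hb β t
      set z := ‖Pool.Agent.U485.PT.DT d N b β t‖ with hz
      have hz0 : 0 ≤ z := norm_nonneg _
      rcases hz0.eq_or_lt with h0 | h0
      · rw [← h0, Real.zero_rpow hq.ne']
        positivity
      · have e1 : z ^ (2 * (d + 1)) = z ^ (2 * k) := by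
          rw [← Real.rpow_natCast]; congr 1; rw [hk]; push_cast; ring
        have e2 : z ^ q = z ^ (q - 2 * k) * z ^ (2 * k) := by
          rw [← Real.rpow_add h0]; congr 1; ring
        rw [e1, e2]
        refine mul_le_mul_of_nonneg_right ?_ (by positivity)
        exact Real.rpow_le_rpow hz0 hz2 (by linarith)
    refine (sum_le_sum h2).trans ?_
    rw [← mul_sum]
    have e4 : (2 * N : ℝ) ^ (q - 2 * k) = 2 ^ (q - 2 * k) * (N : ℝ) ^ (q - 2 * k) :=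
      Real.mul_rpow (by norm_num) hN0.le
    have e5 : (2 : ℝ) ^ (q - 2 * k) ≤ 2 ^ q := Real.rpow_le_rpow_of_exponent_le (by norm_num) (by linarith)
    have e6 : (N : ℝ) ^ (q - 2 * k) * ((N : ℝ) ^ (k + ε) * (N : ℝ) ^ k) = (N : ℝ) ^ ε * (N : ℝ) ^ q := by
      rw [← Real.rpow_add hN0, ← Real.rpow_add hN0, ← Real.rpow_add hN0]; congr 1; ring
    calc (2 * N : ℝ) ^ (q - 2 * k) * ∑ t ∈ W, ‖Pool.Agent.U485.PT.DT d N b β t‖ ^ (2 * (d + 1))
        ≤ (2 * N : ℝ) ^ (q - 2 * k) * (2 * (N : ℝ) ^ (k + ε) * (N : ℝ) ^ k) := by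
          refine mul_le_mul_of_nonneg_left (h1.trans ?_) (by positivity)
          refine mul_le_mul_of_nonneg_left hTN (by positivity)
      _ = 2 ^ (q - 2 * k) * (2 * ((N : ℝ) ^ (q - 2 * k) * ((N : ℝ) ^ (k + ε) * (N : ℝ) ^ k))) := by
          rw [e4]; ring
      _ = 2 ^ (q - 2 * k) * (2 * ((N : ℝ) ^ ε * (N : ℝ) ^ q)) := by rw [e6]
      _ ≤ 2 ^ q * (2 * ((N : ℝ) ^ ε * (N : ℝ) ^ q)) := by
          refine mul_le_mul_of_nonneg_right e5 (by positivity)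
      _ ≤ _ := by
          have h7 : 0 ≤ 2 ^ q * (N : ℝ) ^ ε * (T * (N : ℝ) ^ (q / 2)) := by positivity
          have h8 : 0 ≤ 2 ^ q * (N : ℝ) ^ ε * (N : ℝ) ^ q := by positivity
          nlinarith

end Pool.Agent.Results.MP_2a1f0e_nt.PolynomialTwistsMoments
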