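import Pool.Agent.U17.PR.Main

/-!
For every non-translation-invariant homogeneous linear equation in at least three variables and
every rational proportion above the universal constant of the equation and below one, the proportion
problem for solution-free subsets is NP-complete.
-/

namespace Pool.Agent.Results.MP_2b66a4_lc.AllProportions

open Pool.Agent.U17.PR Pool.Agent.Cx

theorem result (k : ℕ) (hk : 3 ≤ k) (c : Fin k → ℤ) (hc : ∀ i, c i ≠ 0) (hs : ∑ i, c i ≠ 0)
    (ε : ℚ) (hκ : kappa c < ε) (h1 : ε < 1) : NPComplete (proportion c ε) := by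
  obtain ⟨m, rfl⟩ : ∃ m, k = m + 3 := ⟨k - 3, by omega⟩
  exact npc hc hs hκ h1

end Pool.Agent.Results.MP_2b66a4_lc.AllProportions
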