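import Pool.Agent.U497.AW.PolyWin

/-!
# Almost primes `2kp + 1` for EVERY prime `p`: the asymptotic in all windows around almost all `k < 2 (p + 1)`

For EVERY large prime `p` and all but `ε p` of the integers `k < 2 (p + 1)`, ALL the windows `(u, v]` around `k` in the range of the
problem with at least `K log p` elements (more precisely `V (v - u) ≥ K`) contain `(1 ± ε) V (v - u)` integers `j` for which
`2jp + 1` has no prime factor `≤ z`. Here `z` lies between two powers `p ^ δ`, `p ^ θ` (`θ > 0` arbitrary) and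
`V = 2 ∏_{q ≤ z} (1 - 1 / q)` is the expected density; such a number `2jp + 1` has at most `4 / δ` prime factors.

So the almost primes `≡ 1` modulo `2p` below `(2p + 1) ^ 2`, the range of the problem, are distributed as predicted in windows with a
bounded number of expected elements, for every single `p`.

Proof (`Pool/Agent/U497/AW`): the second moment of the numbers of the `j` in short intervals, with an average of the singular series of the
pairs `2jp + 1, 2(j + h)p + 1` over `h`, uniform in the coefficients, and a maximal inequality for all windows at once.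
-/

set_option autoImplicit false

namespace Pool.Agent.Results.MP_2f88e5_nt.AlmostPrimesInAllWindows

open Finset Polynomial

/-- The expected density `2 ∏_{q ≤ z} (1 - 1 / q)`, `q` prime, of the `j` for which `2jp + 1` has no prime factor `≤ z < p`. -/
noncomputable def density (z : ℕ) : ℝ := 2 * ∏ q ∈ (Icc 1 z).filter Nat.Prime, (1 - 1 / (q : ℝ))

/-- `x` has no prime factor `q ≤ z`. -/
def Rough (z x : ℕ) : Prop := ∀ q : ℕ, q.Prime → q ≤ z → ¬ q ∣ x

/-- The number of the `j` with `u < j ≤ v` for which `2jp + 1` has no prime factor `≤ z`. -/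
noncomputable def count (p z u v : ℕ) : ℕ := Set.ncard {j : ℕ | u < j ∧ j ≤ v ∧ Rough z (2 * j * p + 1)}

/-- The integers `k` which lie in SOME window `(u, v]`, `v < 2 (p + 1)`, with `V (v - u) ≥ K`, `V = density z`, in which the
number of such `j` differs from `V (v - u)` by more than `ε V (v - u)`. -/
def exceptions (p : ℕ) (ε K : ℝ) (z : ℕ) : Set ℕ :=
  {k : ℕ | ∃ u v : ℕ, u < k ∧ k ≤ v ∧ v < 2 * (p + 1) ∧ K ≤ density z * ((v : ℝ) - u) ∧
    ε * (density z * ((v : ℝ) - u)) < |(count p z u v : ℝ) - density z * ((v : ℝ) - u)|}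

/-- the linear form -/
noncomputable def pol (p : ℕ) : Fin 1 → ℤ[X] := fun _ => C (2 * p : ℤ) * X + C 1

lemma pol_eval (p : ℕ) (i : Fin 1) (j : ℕ) : (pol p i).eval (j : ℤ) = ((2 * j * p + 1 : ℕ) : ℤ) := by
  unfold pol
  simp only [eval_add, eval_mul, eval_C, eval_X]
  push_cast
  ring

lemma rough_iff (z x : ℕ) : Pool.Agent.U497.AW.Rgh z (x : ℤ) ↔ Rough z x := by
  unfold Pool.Agent.U497.AW.Rgh Rough
  simp only [Int.natCast_dvd_natCast]

lemma pol_adm {p : ℕ} (hp : 0 < p) : Pool.Agent.U497.AW.Adm 1 1 (pol p) := by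
  have hdeg : ∀ i, (pol p i).natDegree = 1 := by
    intro i
    unfold pol
    apply natDegree_linear
    have : (0 : ℤ) < p := by exact_mod_cast hp
    omega
  refine ⟨fun i => (hdeg i).ge, fun i => (hdeg i).le, fun q hq => ⟨0, fun i h => ?_⟩⟩
  have h1 : (q : ℤ) ∣ 1 := by
    unfold pol at h
    simpa using h
  have h2 : q ∣ 1 := by exact_mod_cast h1
  exact hq.one_lt.ne' (Nat.dvd_one.1 h2)

lemma om_eq {p q : ℕ} (hq : q.Prime) (hqp : ¬ q ∣ p) : Pool.Agent.U497.AW.om (pol p) q = if q = 2 then 0 else 1 := by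
  have h0 : ∀ n : ℕ, (∃ i, (q : ℤ) ∣ (pol p i).eval (n : ℤ)) ↔ q ∣ 2 * p * n + 1 := by
    intro n
    simp only [pol_eval, exists_const]
    rw [Int.natCast_dvd_natCast]
    have e : 2 * n * p + 1 = 2 * p * n + 1 := by ring
    rw [e]
  unfold Pool.Agent.U497.AW.om
  simp only [h0]
  split_ifs with h2
  · subst h2
    rw [card_eq_zero, filter_eq_empty_iff]
    intro n _ h
    have e : 2 * p * n + 1 = 2 * (p * n) + 1 := by ring
    rw [e] at h
    omega
  · have hW : ¬ q ∣ 2 * p := by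
      intro h
      rcases (Nat.Prime.dvd_mul hq).1 h with h3 | h3
      · exact h2 ((Nat.prime_dvd_prime_iff_eq hq Nat.prime_two).1 h3)
      · exact hqp h3
    have h3 := Pool.Agent.K3h89.SZ.card_shiftP (F := fun x => x) hq
      (fun n => by simp) (2 * p) 1 0 hW
    have h4 : Pool.Agent.Y677.RSZ.rt (fun x => x) q = 1 := by
      unfold Pool.Agent.Y677.RSZ.rt
      have h5 : (range q).filter (fun r : ℕ => (q : ℤ) ∣ (r : ℤ)) = {0} := by
        ext r
        rw [mem_filter, mem_range, mem_singleton, Int.natCast_dvd_natCast]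
        constructor
        · rintro ⟨h5, h6⟩
          exact Nat.eq_zero_of_dvd_of_lt h6 h5
        · rintro rfl
          exact ⟨hq.pos, dvd_zero _⟩
      rw [h5, card_singleton]
    rw [h4] at h3
    refine Eq.trans ?_ h3
    congr 1
    apply filter_congr
    intro r _
    rw [add_zero, Int.natCast_dvd_natCast]

lemma density_eq {p z : ℕ} (hp : p.Prime) (hz : 2 ≤ z) (hzp : z < p) : Pool.Agent.U497.AW.dens (pol p) z = density z := by
  have hom : ∀ q ∈ (Icc 1 z).filter Nat.Prime, Pool.Agent.U497.AW.om (pol p) q = if q = 2 then 0 else 1 := by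
    intro q hq
    rw [mem_filter, mem_Icc] at hq
    refine om_eq hq.2 fun h => ?_
    have := (Nat.prime_dvd_prime_iff_eq hq.2 hp).1 h
    omega
  have h2 : 2 ∈ (Icc 1 z).filter Nat.Prime := by
    rw [mem_filter, mem_Icc]
    exact ⟨⟨by norm_num, hz⟩, Nat.prime_two⟩
  unfold Pool.Agent.U497.AW.dens density
  rw [← mul_prod_erase _ _ h2, ← mul_prod_erase _ (fun q : ℕ => 1 - 1 / (q : ℝ)) h2, hom 2 h2]
  have h3 : ∏ q ∈ ((Icc 1 z).filter Nat.Prime).erase 2, (1 - (Pool.Agent.U497.AW.om (pol p) q : ℝ) / q) =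
      ∏ q ∈ ((Icc 1 z).filter Nat.Prime).erase 2, (1 - 1 / (q : ℝ)) := by
    apply prod_congr rfl
    intro q hq
    rw [mem_erase] at hq
    rw [hom q hq.2, if_neg hq.1, Nat.cast_one]
  rw [h3]
  norm_num
  ring

lemma count_eq (p z u v : ℕ) : Pool.Agent.U497.AW.cntW (pol p) z u v = count p z u v := by
  unfold Pool.Agent.U497.AW.cntW count
  congr 1
  ext m
  simp only [pol_eval, forall_const, rough_iff]

/-- **Theorem.** -/
theorem result (ε θ : ℝ) (hε : 0 < ε) (hθ : 0 < θ) :
    ∃ δ K : ℝ, 0 < δ ∧ 0 < K ∧ ∃ p₀ : ℕ, ∀ p : ℕ, p.Prime → p₀ ≤ p → ∃ z : ℕ, (p : ℝ) ^ δ ≤ z ∧ (z : ℝ) ≤ (p : ℝ) ^ θ ∧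
      ((exceptions p ε K z).ncard : ℝ) ≤ ε * p ∧
      ∀ k : ℕ, k < 2 * (p + 1) → Rough z (2 * k * p + 1) → ((2 * k * p + 1).primeFactorsList.length : ℝ) ≤ 4 / δ := by
  obtain ⟨δ, K, hδ, hK, H₀, h1⟩ := Pool.Agent.U497.AW.polyWin 1 1 (ε / 3) (min θ (1 / 2) / 2) (by positivity)
    (by have : 0 < min θ (1 / 2) := lt_min hθ (by norm_num); positivity)
  obtain ⟨H₁, hH₁⟩ : ∃ H₁ : ℕ, ∀ H : ℕ, H₁ ≤ H → (2 : ℝ) ≤ (H : ℝ) ^ δ := by
    have h2 : Filter.Tendsto (fun H : ℕ => (H : ℝ) ^ δ) Filter.atTop Filter.atTop :=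
      (tendsto_rpow_atTop hδ).comp tendsto_natCast_atTop_atTop
    exact Filter.eventually_atTop.1 (h2.eventually_ge_atTop 2)
  refine ⟨δ, K, hδ, hK, H₀ + H₁ + 5, fun p hp hp0 => ?_⟩
  obtain ⟨z, hz1, hz2, hz3⟩ := h1 (2 * p + 1) (by omega)
  have hpr : (5 : ℝ) ≤ p := by exact_mod_cast (by omega : 5 ≤ p)
  have hz2' : 2 ≤ z := by
    have h2 := (hH₁ (2 * p + 1) (by omega)).trans hz1
    exact_mod_cast h2
  have hzθ : (z : ℝ) ≤ (p : ℝ) ^ (min θ (1 / 2)) := by
    have h2 : (0 : ℝ) < min θ (1 / 2) := lt_min hθ (by norm_num)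
    refine hz2.trans ?_
    have h3 : (((2 * p + 1 : ℕ) : ℝ)) ≤ (p : ℝ) ^ (2 : ℝ) := by
      rw [Real.rpow_two]
      push_cast
      nlinarith
    calc (((2 * p + 1 : ℕ) : ℝ)) ^ (min θ (1 / 2) / 2) ≤ ((p : ℝ) ^ (2 : ℝ)) ^ (min θ (1 / 2) / 2) :=
          Real.rpow_le_rpow (Nat.cast_nonneg _) h3 (by positivity)
      _ = (p : ℝ) ^ (min θ (1 / 2)) := by
          rw [← Real.rpow_mul (by linarith)]
          congr 1
          ring
  have hzp : z < p := by
    have h2 : (z : ℝ) ≤ (p : ℝ) ^ (1 / 2 : ℝ) :=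
      hzθ.trans (Real.rpow_le_rpow_of_exponent_le (by linarith) (min_le_right _ _))
    have h3 : (p : ℝ) ^ (1 / 2 : ℝ) < (p : ℝ) ^ (1 : ℝ) := Real.rpow_lt_rpow_of_exponent_lt (by linarith) (by norm_num)
    rw [Real.rpow_one] at h3
    exact_mod_cast h2.trans_lt h3
  have hdelta : (p : ℝ) ^ δ ≤ z := by
    refine le_trans (Real.rpow_le_rpow (by linarith) ?_ hδ.le) hz1
    exact_mod_cast (by omega : p ≤ 2 * p + 1)
  refine ⟨z, hdelta, hzθ.trans (Real.rpow_le_rpow_of_exponent_le (by linarith) (min_le_left _ _)), ?_, ?_⟩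
  · obtain ⟨h2, -⟩ := hz3 _ (pol_adm hp.pos) 0
    have h3 : exceptions p ε K z ⊆ Pool.Agent.U497.AW.excW (pol p) (ε / 3) K z 0 (2 * p + 1) := by
      rintro k ⟨u, v, h4, h5, h6, h7, h8⟩
      refine ⟨u, v, Nat.zero_le _, h4, h5, by omega, ?_, ?_⟩
      · rw [density_eq hp hz2' hzp]
        exact h7
      · rw [density_eq hp hz2' hzp, count_eq]
        refine lt_of_le_of_lt ?_ h8
        apply mul_le_mul_of_nonneg_right (by linarith)
        linarith
    have hfin : (Pool.Agent.U497.AW.excW (pol p) (ε / 3) K z 0 (2 * p + 1)).Finite := by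
      apply (Finset.finite_toSet (Icc 0 (2 * p + 1))).subset
      rintro k ⟨u, v, h4, h5, h6, h7, h8⟩
      rw [mem_coe, mem_Icc]
      omega
    calc ((exceptions p ε K z).ncard : ℝ) ≤
          ((Pool.Agent.U497.AW.excW (pol p) (ε / 3) K z 0 (2 * p + 1)).ncard : ℝ) := by
          exact_mod_cast Set.ncard_le_ncard h3 hfin
      _ ≤ ε / 3 * ((2 * p + 1 : ℕ) : ℝ) := h2
      _ ≤ ε / 3 * (3 * p) := by
          push_cast
          gcongr
          linarith
      _ = ε * p := by ring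
  · intro k hk hr
    obtain ⟨-, h3⟩ := hz3 _ (pol_adm hp.pos) 0
    have hcoef : ∀ i j, |(pol p i).coeff j| ≤ (((2 * p + 1 : ℕ) : ℤ)) ^ 1 := by
      intro i j
      rw [pow_one]
      unfold pol
      have h : (C (2 * p : ℤ) * X + C 1 : ℤ[X]).coeff j = (2 * p : ℤ) * (if 1 = j then 1 else 0) + (if j = 0 then 1 else 0) := by
        simp only [coeff_add, coeff_C_mul, coeff_X, coeff_C]
      rw [h]
      have hp' : (0 : ℤ) ≤ p := Int.natCast_nonneg _
      rcases j with _ | _ | j
      · simp only [one_ne_zero, if_false, mul_zero, zero_add, if_true, abs_one]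
        push_cast
        omega
      · simp only [zero_add, if_true, mul_one, one_ne_zero, if_false, add_zero]
        rw [abs_of_nonneg (by positivity)]
        push_cast
        omega
      · simp only [Nat.add_eq_zero_iff, one_ne_zero, and_false, if_false, add_zero]
        rw [if_neg (by omega), mul_zero, abs_zero]
        positivity
    have h4 := (h3 1 hcoef (Nat.zero_le _) k (by omega) (fun i => by rw [pol_eval, rough_iff]; exact hr) 0).2
    rw [pol_eval, Int.natAbs_natCast] at h4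
    refine h4.trans (le_of_eq ?_)
    norm_num

end Pool.Agent.Results.MP_2f88e5_nt.AlmostPrimesInAllWindows
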