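import Pool.Agent.U163.SU.Uni

/-!
# Strings of consecutive primes `k` with almost primes `2 k p + 1` and iterates, for every large `p`

The question is whether for every odd prime `p` some `1 ≤ k < 2 (p + 1)`, `p ∤ k`, makes `2 k p + 1` prime. Here the
multipliers `k` are primes, in strings of `m` CONSECUTIVE primes, and `2 k p + 1` is an almost prime (a bounded
number of prime factors, all larger than a power of `N`), for every large `p`, at every scale
`p ^ (1 / A) ≤ N`, `k ∈ (N, 2 N]` (for `2 N < p` all these `k` are admissible in the sense of the question), and for a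
positive proportion of the patterns `H` of `m` elements of any given large finite set. More generally the step
`p → 2 k p + 1` is iterated `l` times with the same `k`, as in the construction of chains of primes with known
factorizations of `p_(j+1) - 1 = 2 k p_j` (Pratt, Pocklington); the only condition is that there is no local
obstruction, and for `l = 1` there is none.

Proof. The theorem `R498.MP.stringsUR` of the starting library (Maynard-Tao theorem for strings of consecutive
primes with almost prime polynomial values, uniformly in the polynomial) is applied to the product of the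
polynomials `p_j (X)`; the proportion of the patterns follows by double counting (`Helper32K9.Str`).
-/

set_option autoImplicit false

namespace Pool.Agent.Results.MP_2f88e5_nt.IteratedMultipliers

open Finset Filter Polynomial

/-- `n` has at most `R` prime factors, counted with multiplicity, all of them at least `w`. -/
def AlmostPrime (R : ℕ) (w : ℝ) (n : ℕ) : Prop :=
  n.primeFactorsList.length ≤ R ∧ ∀ p : ℕ, p.Prime → p ∣ n → w ≤ p

/-- `p_0 = p`, `p_(j+1) = 2 k p_j + 1`. -/
def iter (k p : ℕ) : ℕ → ℕ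
  | 0 => p
  | j + 1 => 2 * k * iter k p j + 1

/-- No local obstruction: for every prime `r` there is a `k` such that `r` divides none of `k, p_1, …, p_l`. -/
def NoObstruction (l p : ℕ) : Prop :=
  ∀ r : ℕ, r.Prime → ∃ k : ℕ, ¬ r ∣ k ∧ ∀ j < l, ¬ r ∣ iter k p (j + 1)

/-- The integers `n` with `N < n`, `n + max H ≤ 2 N`, such that the primes in the interval `[n, n + max H]` are
exactly the numbers `k = n + h`, `h ∈ H`, all of them are `≡ a` modulo `q`, and for all of them the numbers
`p_1, …, p_l` have at most `R` prime factors, all of them at least `N ^ δ`. -/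
def places (l p N q a R : ℕ) (δ : ℝ) (H : Finset ℕ) : Set ℕ :=
  {n | N < n ∧ n + H.sup id ≤ 2 * N ∧ (∀ y ≤ H.sup id, (n + y).Prime ↔ y ∈ H) ∧
    ∀ h ∈ H, n + h ≡ a [MOD q] ∧ ∀ j < l, AlmostPrime R ((N : ℝ) ^ δ) (iter (n + h) p (j + 1))}

/-- the polynomials -/
noncomputable def fam (p : ℕ) : ℕ → ℤ[X]
  | 0 => C (p : ℤ)
  | j + 1 => C 2 * X * fam p j + C 1

theorem fam_succ (p j : ℕ) (x : ℤ) : (fam p (j + 1)).eval x = 2 * x * (fam p j).eval x + 1 := by
  rw [fam]
  simp

theorem fam_eval (p k j : ℕ) : (fam p j).eval (k : ℤ) = (iter k p j : ℕ) := by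
  induction j with
  | zero => simp [fam, iter]
  | succ j ih =>
    rw [fam_succ, ih, iter]
    push_cast
    ring

theorem fam_deg (p j : ℕ) : (fam p j).natDegree ≤ j := by
  induction j with
  | zero => rw [fam, natDegree_C]
  | succ j ih =>
    rw [fam]
    refine (natDegree_add_le _ _).trans (max_le ?_ ?_)
    · refine natDegree_mul_le.trans ?_
      have h1 : (C (2 : ℤ) * X : ℤ[X]).natDegree ≤ 1 := (natDegree_C_mul_le _ _).trans natDegree_X_le
      omega
    · rw [natDegree_C]
      omega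

theorem fam_bound {N : ℕ} (hN : 3 ≤ N) (p j : ℕ) (x : ℤ) (hx : |x| ≤ 2 * N) :
    |(fam p j).eval x| + 1 ≤ ((N : ℤ) ^ 3) ^ j * (p + 1) := by
  have hN3 : (3 : ℤ) ≤ N := by exact_mod_cast hN
  induction j with
  | zero => simp [fam]
  | succ j ih =>
    rw [fam_succ]
    obtain ⟨v, hv⟩ : ∃ v : ℤ, v = |(fam p j).eval x| := ⟨_, rfl⟩
    have hv0 : 0 ≤ v := by rw [hv]; exact abs_nonneg _
    rw [← hv] at ih
    have h1 : |2 * x * (fam p j).eval x + 1| ≤ 4 * N * v + 1 := by
      calc |2 * x * (fam p j).eval x + 1| ≤ |2 * x * (fam p j).eval x| + |(1 : ℤ)| := abs_add_le _ _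
        _ = 2 * |x| * v + 1 := by rw [abs_mul, abs_mul, ← hv]; norm_num
        _ ≤ 2 * (2 * N) * v + 1 := by gcongr
        _ = 4 * N * v + 1 := by ring
    have h2 : (4 : ℤ) * N ≤ (N : ℤ) ^ 3 := by nlinarith [mul_nonneg (by linarith : (0 : ℤ) ≤ N) (by linarith : (0 : ℤ) ≤ (N : ℤ) - 3)]
    have h3 : (2 : ℤ) ≤ (N : ℤ) ^ 3 := by linarith
    calc |2 * x * (fam p j).eval x + 1| + 1 ≤ 4 * N * v + 1 + 1 := by linarith
      _ ≤ (N : ℤ) ^ 3 * v + (N : ℤ) ^ 3 := by nlinarith
      _ = (N : ℤ) ^ 3 * (v + 1) := by ring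
      _ ≤ (N : ℤ) ^ 3 * (((N : ℤ) ^ 3) ^ j * (p + 1)) := by gcongr
      _ = ((N : ℤ) ^ 3) ^ (j + 1) * (p + 1) := by ring

/-- one step: there is no local obstruction -/
theorem noObstruction_one (p : ℕ) : NoObstruction 1 p := by
  intro r hr
  rcases hr.eq_two_or_odd with h2 | h2
  · refine ⟨1, ?_, fun j hj => ?_⟩
    · rw [h2]
      norm_num
    · have : j = 0 := by omega
      subst this
      simp only [iter]
      rw [h2]
      omega
  · have hr3 : 3 ≤ r := by
      have := hr.two_le
      omega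
    by_cases hd : r ∣ 2 * p + 1
    · refine ⟨r - 1, fun h => ?_, fun j hj => ?_⟩
      · have := Nat.le_of_dvd (by omega) h
        omega
      · have : j = 0 := by omega
        subst this
        simp only [iter]
        intro h
        have h3 : r ∣ 2 * (r - 1) * p + 1 + (2 * p + 1) := dvd_add h hd
        have h4 : 2 * (r - 1) * p + 1 + (2 * p + 1) = r * (2 * p) + 2 := by
          obtain ⟨s, rfl⟩ : ∃ s, r = s + 1 := ⟨r - 1, by omega⟩
          simp only [Nat.add_sub_cancel]
          ring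
        rw [h4] at h3
        have h5 : r ∣ 2 := (Nat.dvd_add_right (dvd_mul_right _ _)).1 h3
        have := Nat.le_of_dvd (by norm_num) h5
        omega
    · refine ⟨1, fun h => ?_, fun j hj => ?_⟩
      · exact hr.one_lt.ne' (Nat.dvd_one.1 h)
      · have : j = 0 := by omega
        subst this
        simp only [iter]
        simpa using hd

/-- **Strings of consecutive prime multipliers.** Let `l`, `m ≥ 1` be given and let `q` be squarefree. There are `K`,
`B` and `δ > 0` such that for every `A` there is an `R` such that for every finite set `T` of at least `K`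
nonnegative integers and all large `N` the following holds for ALL `1 ≤ p ≤ N ^ A` without local obstruction (every `p`
if `l = 1`) and all `a` for which `a` and `p_1, …, p_l` (for `k = a`) are prime to `q` (for instance `q = 1`): for at
least the proportion `1 / K` of the subsets `H` of `T` with `m` elements there are at least `N / (log N) ^ B`
integers `n`, `N < n`, `n + max H ≤ 2 N`, such that the primes in `[n, n + max H]` are exactly the numbers
`k = n + h`, `h ∈ H`, all of them are `≡ a` modulo `q`, and for all of them the numbers `p_1 = 2 k p + 1`, …,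
`p_l = 2 k p_(l-1) + 1` have at most `R` prime factors, all of them at least `N ^ δ`. If `k` is positive and less
than `p`, a prime, then `k` is admissible for `p`. -/
theorem result (l m : ℕ) (hm : 1 ≤ m) (q : ℕ) (hq : Squarefree q) :
    (∃ (K B : ℕ) (δ : ℝ), 0 < K ∧ 0 < δ ∧ ∀ A : ℕ, ∃ R : ℕ, ∀ T : Finset ℕ, K ≤ T.card →
      ∀ᶠ N : ℕ in atTop, ∀ p : ℕ, 1 ≤ p → p ≤ N ^ A → NoObstruction l p →
      ∀ a : ℕ, a.Coprime q → (∀ j < l, (iter a p (j + 1)).Coprime q) →
      T.card.choose m ≤ K * {H : Finset ℕ | H ⊆ T ∧ H.card = m ∧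
        (N : ℝ) / Real.log N ^ B ≤ (places l p N q a R δ H).ncard}.ncard) ∧
    (∀ p : ℕ, NoObstruction 1 p) ∧
    ∀ k p : ℕ, p.Prime → 0 < k → k < p → 1 ≤ k ∧ k < 2 * (p + 1) ∧ ¬ p ∣ k := by
  classical
  refine ⟨?_, noObstruction_one, fun k p _ hk hkp => ⟨hk, by omega, fun h => ?_⟩⟩
  swap
  · have := Nat.le_of_dvd hk h
    omega
  obtain ⟨K, B, δ, hK, hδ, hmain⟩ := Pool.Agent.U163.SU.uni_prod l l q hq m hm
  refine ⟨K, B, δ, hK, hδ, fun A => ?_⟩
  obtain ⟨R, hR⟩ := hmain (3 * l + (A + 1))
  refine ⟨R, fun T hT => ?_⟩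
  filter_upwards [hR T hT, eventually_ge_atTop 3] with N hN hN3
  intro p hp1 hpA hob a ha haj
  have hN3' : (3 : ℤ) ≤ N := by exact_mod_cast hN3
  have hpA' : (p : ℤ) + 1 ≤ (N : ℤ) ^ (A + 1) := by
    have h1 : (p : ℤ) ≤ (N : ℤ) ^ A := by exact_mod_cast hpA
    have h2 : (1 : ℤ) ≤ (N : ℤ) ^ A := one_le_pow₀ (by linarith)
    calc (p : ℤ) + 1 ≤ (N : ℤ) ^ A + (N : ℤ) ^ A := by linarith
      _ ≤ (N : ℤ) ^ A * N := by nlinarith
      _ = (N : ℤ) ^ (A + 1) := by rw [pow_succ]
  refine (hN (fun j : Fin l => fam p ((j : ℕ) + 1)) (fun j => (fam_deg _ _).trans (by have := j.2; omega))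
    (fun r hr => by
      obtain ⟨k, hk1, hk2⟩ := hob r hr
      refine ⟨k, fun h => hk1 (Int.natCast_dvd_natCast.1 h), fun j h => ?_⟩
      rw [fam_eval] at h
      exact hk2 j j.2 (Int.natCast_dvd_natCast.1 h))
    (fun j y hy => by
      have h1 := fam_bound hN3 p ((j : ℕ) + 1) y hy
      calc |(fam p ((j : ℕ) + 1)).eval y| ≤ ((N : ℤ) ^ 3) ^ ((j : ℕ) + 1) * (p + 1) := by linarith
        _ ≤ ((N : ℤ) ^ 3) ^ l * (N : ℤ) ^ (A + 1) := by
            have h2 : ((N : ℤ) ^ 3) ^ ((j : ℕ) + 1) ≤ ((N : ℤ) ^ 3) ^ l :=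
              pow_le_pow_right₀ (one_le_pow₀ (by linarith)) (by have := j.2; omega)
            gcongr
        _ = (N : ℤ) ^ (3 * l + (A + 1)) := by rw [← pow_mul, ← pow_add])
    (fun j y _ _ => by
      rw [fam_succ]
      intro h0
      obtain ⟨w, hw⟩ : ∃ w : ℤ, w = y * (fam p (j : ℕ)).eval y := ⟨_, rfl⟩
      have h1 : 2 * w + 1 = 0 := by rw [hw]; linarith
      omega)
    a (fun r hr hrq => by
      refine ⟨fun h => ?_, fun j h => ?_⟩
      · have h1 := Nat.dvd_gcd (Int.natCast_dvd_natCast.1 h) hrq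
        rw [ha] at h1
        exact hr.one_lt.ne' (Nat.dvd_one.1 h1)
      · rw [fam_eval] at h
        have h0 : r ∣ iter a p ((j : ℕ) + 1) := Int.natCast_dvd_natCast.1 h
        have h1 := Nat.dvd_gcd h0 hrq
        rw [haj j j.2] at h1
        exact hr.one_lt.ne' (Nat.dvd_one.1 h1))).trans (Nat.mul_le_mul_left _ ?_)
  have heq : ∀ H, Pool.Agent.U163.SU.placesP (fun j : Fin l => fam p ((j : ℕ) + 1)) N q a R δ H ⊆
      places l p N q a R δ H := by
    rintro H n ⟨h1, h2, h3, h4⟩
    refine ⟨h1, h2, h3, fun h hh => ⟨(h4 h hh).1, fun j hj => ?_⟩⟩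
    have h5 := ((h4 h hh).2 ⟨j, hj⟩).2
    rw [fam_eval, Int.natAbs_natCast] at h5
    exact h5
  have hfin : ∀ P : Finset ℕ → Prop, {H : Finset ℕ | H ⊆ T ∧ H.card = m ∧ P H}.Finite := by
    intro P
    apply (T.powersetCard m).finite_toSet.subset
    rintro H ⟨h1, h2, -⟩
    exact Finset.mem_coe.2 (Finset.mem_powersetCard.2 ⟨h1, h2⟩)
  apply Set.ncard_le_ncard _ (hfin _)
  rintro H ⟨h1, h2, h3⟩
  refine ⟨h1, h2, h3.trans (Nat.cast_le.2 (Set.ncard_le_ncard (heq H) ?_))⟩
  refine (Set.finite_Iic (2 * N)).subset fun y hy => ?_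
  have h1 : y + H.sup id ≤ 2 * N := hy.2.1
  rw [Set.mem_Iic]
  omega

end Pool.Agent.Results.MP_2f88e5_nt.IteratedMultipliers
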