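import Mathlib
import Pool.Agent.U462.Mul.Cup
import Pool.Agent.U462.Gap.Fin

set_option autoImplicit false

/-!
# The least `k` with `2 k p + 1` prime, in every sequential random model of the primes

The question is whether for every odd prime `p` there is an admissible `k` (`1 ≤ k < 2 (p + 1)`, `p ∤ k`) such that
`2 k p + 1` is prime. A random set `S` is built step by step, with arbitrary dependence; the conditional probability
of `n + 1`, given the first `n` steps, is asymptotic to `∏_{q ≤ T} (1 - 1/q)⁻¹ / log n`, `T = T(n + 1)`, if `n + 1` has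
no prime factor up to `T(n + 1)`, and it is `0` otherwise (Cramér's model: `T = 1`). The nondecreasing function `T` is
smaller than every power of `n`. With `S` in the place of the primes we prove that almost surely there is an
admissible `k` with `2 k m + 1 ∈ S` for all large integers `m`, and, if `T(n) = (log n) ^ o(1)`, the exact
order of the least `k`: with `c = 1/2` (and `c = 1` if the sieve does not remove the even numbers)
`limsup k(p) / log² p = c`, over the primes `p ∈ S` and over all integers, and for `0 < λ < 1` the number of `p ≤ x`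
with `k(p) > λ c log² p` is `x ^ (1 - λ + o(1))`.

Proof of the lower bounds: the tests `2 k p + 1 ∈ S`, `k ≤ λ c log² p`, for the different primes `p ∈ (x, 2 x]` are
interleaved in time. To each `p` belongs a product `Z_p` of factors `1_{p ∈ S} / P(p ∈ S | past)` and
`1_{n ∉ S} / P(n ∉ S | past)`, `n = 2 k p + 1`; distinct primes have no test in common, so that `E Z_p = 1` and
`E Z_p Z_{p'} = 1` exactly, whatever the dependence, and the second moment method applies.
-/

open MeasureTheory Filter Topology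

namespace Pool.Agent.Results.MP_2f88e5_nt.LeastMultiplierInRandomModels

/-- A sequential model with profile `a`: the set of the `n` with `ω ∈ A n` is adapted to the filtration, and
almost surely the conditional probability of `n + 1`, given the first `n` steps, is asymptotic to
`a (n + 1)` (in particular it is `0` for large `n` if `a (n + 1) = 0`). -/
structure IsModel {Ω : Type} {m0 : MeasurableSpace Ω} (μ : Measure Ω) (ℱ : Filtration ℕ m0)
    (A : ℕ → Set Ω) (a : ℕ → ℝ) : Prop where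
  adapted : ∀ n, MeasurableSet[ℱ n] (A n)
  law : ∀ᵐ ω ∂μ, ∀ ε : ℝ, 0 < ε → ∀ᶠ n : ℕ in atTop,
    |(μ[(A (n + 1)).indicator (fun _ => (1 : ℝ)) | ℱ n]) ω - a (n + 1)| ≤ ε * a (n + 1)

open Classical in
/-- the profile of the model with sieve limit `T`: `∏_{p ≤ T(n)} (1 - 1/p)⁻¹ / log n` if `n` has no prime
factor `p ≤ T(n)`, and `0` otherwise -/
noncomputable def sieveProfile (T : ℕ → ℕ) (n : ℕ) : ℝ :=
  (if ∀ p, p.Prime → p ≤ T n → ¬ p ∣ n then
    ∏ p ∈ (Finset.Icc 1 (T n)).filter Nat.Prime, (1 - 1 / (p : ℝ))⁻¹ else 0) / Real.log n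

open Classical in
/-- `1/2` if the sieve removes the (large) even numbers, `1` otherwise -/
noncomputable def cst (T : ℕ → ℕ) : ℝ := if ∃ n, 2 ≤ T n then 1 / 2 else 1

/-- no `k` with `1 ≤ k ≤ x` and `2 k m + 1 ∈ S` -/
def Exceeds (S : Set ℕ) (m : ℕ) (x : ℝ) : Prop := ∀ k : ℕ, 1 ≤ k → (k : ℝ) ≤ x → 2 * k * m + 1 ∉ S

/-- `k` is admissible for `p`, as in the question -/
def Admissible (p k : ℕ) : Prop := 1 ≤ k ∧ k < 2 * (p + 1) ∧ ¬ p ∣ k

theorem toModel {Ω : Type} {m0 : MeasurableSpace Ω} {μ : Measure Ω} {ℱ : Filtration ℕ m0}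
    {A : ℕ → Set Ω} {a : ℕ → ℝ} (h : IsModel μ ℱ A a) : Pool.Agent.U462.Gap.Model μ ℱ A a :=
  ⟨h.adapted, h.law⟩

theorem cst_eq (T : ℕ → ℕ) : cst T = 1 / Pool.Agent.U462.Mul.dT T := by
  classical
  unfold cst Pool.Agent.U462.Mul.dT
  split_ifs <;> norm_num

open Classical in
theorem SV_eq {Ω : Type} (A : ℕ → Set Ω) (c : ℝ) (S : Finset ℕ) (ω : Ω) :
    Pool.Agent.U462.Mul.SV A c S ω = S.filter (fun m => Exceeds {n | ω ∈ A n} m (c * Real.log m ^ 2)) := rfl

theorem exceeds_mono {S : Set ℕ} {m : ℕ} {x y : ℝ} (h : x ≤ y) (hy : Exceeds S m y) : Exceeds S m x :=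
  fun k h1 h2 => hy k h1 (h2.trans h)

/-- Q1 in the models, from the upper bound -/
theorem q1 {Ω : Type} {m0 : MeasurableSpace Ω} {μ : Measure Ω} [IsProbabilityMeasure μ] {ℱ : Filtration ℕ m0}
    {A : ℕ → Set Ω} {T : ℕ → ℕ} (hT : Monotone T) (hTs : Pool.Agent.U462.Gap.Small T) (hA : IsModel μ ℱ A (sieveProfile T)) :
    ∀ᵐ ω ∂μ, ∀ᶠ m : ℕ in atTop, ∃ k : ℕ, Admissible m k ∧ 2 * k * m + 1 ∈ {n | ω ∈ A n} := by
  obtain ⟨u, hu⟩ := Pool.Agent.U462.Mul.hit 1 one_pos le_rfl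
  filter_upwards [hu Ω m0 μ inferInstance ℱ A T (toModel hA) hT hTs] with ω hω
  filter_upwards [hω, Pool.Agent.U462.Mul.rpow_log_sq (η := 1 / 2) (C := 1 / Pool.Agent.U462.Mul.dT T + 1) (by norm_num),
    Pool.Agent.U462.Mul.T_sq T hT hTs u (ε := 1 / 2) (by norm_num), eventually_ge_atTop 4] with m h1 h2 h3 h4
  obtain ⟨k, hk1, hk2, hk3⟩ := h1
  have hm : (4 : ℝ) ≤ m := by exact_mod_cast h4
  have h5 : (k : ℝ) ≤ (m : ℝ) ^ (1 / 2 : ℝ) := hk2.trans (max_le h2 h3)
  have h6 : (m : ℝ) ^ (1 / 2 : ℝ) < m := by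
    rw [← Real.sqrt_eq_rpow]
    have h4 : (2 : ℝ) ≤ √m := Real.le_sqrt_of_sq_le (by linarith)
    have h5 : √(m : ℝ) * √m = m := Real.mul_self_sqrt (by linarith)
    nlinarith
  have h7 : k < m := by
    have : (k : ℝ) < m := lt_of_le_of_lt h5 h6
    exact_mod_cast this
  refine ⟨k, ⟨hk1, by omega, fun hd => ?_⟩, hk3⟩
  have := Nat.le_of_dvd hk1 hd
  omega

open Classical in
/-- **(1)** For every `ε > 0` there is `u` such that for every nondecreasing `T`, smaller than every power of `n`,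
and every model with the profile `sieveProfile T`, almost surely for all large integers `m` there is
`1 ≤ k ≤ max ((c + ε) log² m, (T(m²) + 2) ^ u)` with `2 k m + 1 ∈ S`, where `c = cst T`.
**(2)** For all these models almost surely for all large integers `m` (in particular for all large `p ∈ S`) there
is an admissible `k` with `2 k m + 1 ∈ S`: Q1 with finitely many exceptions.
**(3)** Let moreover `T` be smaller than every power of `log n`. Then almost surely: (a) for all `0 < λ < 1` and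
`ε > 0` and all large `i`, at least `2 ^ ((1 - λ - ε) i)` of the primes `p ∈ S ∩ [2 ^ i, 2 ^ (i + 1))` and at most
`2 ^ ((1 - λ + ε) i)` of the integers `m ∈ [2 ^ i, 2 ^ (i + 1))` have no `1 ≤ k ≤ λ c log² m` with `2 k m + 1 ∈ S`; (b) for
all `ε > 0`, all large integers `m` have such a `k ≤ (c + ε) log² m`, but infinitely many primes `p ∈ S` have none
with `k ≤ (c - ε) log² p`.
**(4)** Independent events with probabilities asymptotic to `a n` form a model with the profile `a`. -/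
theorem result :
    (∀ ε : ℝ, 0 < ε → ∃ u : ℕ, ∀ (Ω : Type) (m0 : MeasurableSpace Ω) (μ : Measure Ω) (_ : IsProbabilityMeasure μ)
      (ℱ : Filtration ℕ m0) (A : ℕ → Set Ω) (T : ℕ → ℕ), Monotone T →
      (∀ δ : ℝ, 0 < δ → ∀ᶠ n : ℕ in atTop, (T n : ℝ) ≤ (n : ℝ) ^ δ) → IsModel μ ℱ A (sieveProfile T) →
      ∀ᵐ ω ∂μ, ∀ᶠ m : ℕ in atTop,
        ¬ Exceeds {n | ω ∈ A n} m (max ((cst T + ε) * Real.log m ^ 2) (((T (m ^ 2) : ℝ) + 2) ^ u))) ∧
    (∀ (Ω : Type) (m0 : MeasurableSpace Ω) (μ : Measure Ω) (_ : IsProbabilityMeasure μ)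
      (ℱ : Filtration ℕ m0) (A : ℕ → Set Ω) (T : ℕ → ℕ), Monotone T →
      (∀ δ : ℝ, 0 < δ → ∀ᶠ n : ℕ in atTop, (T n : ℝ) ≤ (n : ℝ) ^ δ) → IsModel μ ℱ A (sieveProfile T) →
      (∀ᵐ ω ∂μ, ∀ᶠ m : ℕ in atTop, ∃ k : ℕ, Admissible m k ∧ 2 * k * m + 1 ∈ {n | ω ∈ A n}) ∧
      ((∀ κ : ℝ, 0 < κ → ∀ᶠ n : ℕ in atTop, (T n : ℝ) ≤ Real.log n ^ κ) → ∀ᵐ ω ∂μ,
        (∀ lam ε : ℝ, 0 < lam → lam < 1 → 0 < ε → ∀ᶠ i : ℕ in atTop,
          (2 : ℝ) ^ ((1 - lam - ε) * i) ≤ (((Finset.Ico (2 ^ i) (2 ^ (i + 1))).filter (fun p => p.Prime ∧ ω ∈ A p ∧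
            Exceeds {n | ω ∈ A n} p (lam * cst T * Real.log p ^ 2))).card : ℝ) ∧
          (((Finset.Ico (2 ^ i) (2 ^ (i + 1))).filter (fun m =>
            Exceeds {n | ω ∈ A n} m (lam * cst T * Real.log m ^ 2))).card : ℝ) ≤ (2 : ℝ) ^ ((1 - lam + ε) * i)) ∧
        (∀ ε : ℝ, 0 < ε →
          (∀ᶠ m : ℕ in atTop, ¬ Exceeds {n | ω ∈ A n} m ((cst T + ε) * Real.log m ^ 2)) ∧
          (∃ᶠ p : ℕ in atTop, p.Prime ∧ ω ∈ A p ∧ Exceeds {n | ω ∈ A n} p ((cst T - ε) * Real.log p ^ 2))))) ∧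
    (∀ (Ω : Type) (m0 : MeasurableSpace Ω) (μ : Measure Ω) (_ : IsProbabilityMeasure μ)
      (A : ℕ → Set Ω) (hm : ∀ n, MeasurableSet (A n)) (a : ℕ → ℝ), ProbabilityTheory.iIndepSet A μ →
      (∀ ε : ℝ, 0 < ε → ∀ᶠ n : ℕ in atTop, |μ.real (A n) - a n| ≤ ε * a n) →
      IsModel μ (filtrationOfSet hm) A a) := by
  have part1 : ∀ ε : ℝ, 0 < ε → ∃ u : ℕ, ∀ (Ω : Type) (m0 : MeasurableSpace Ω) (μ : Measure Ω) (_ : IsProbabilityMeasure μ)
      (ℱ : Filtration ℕ m0) (A : ℕ → Set Ω) (T : ℕ → ℕ), Monotone T →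
      (∀ δ : ℝ, 0 < δ → ∀ᶠ n : ℕ in atTop, (T n : ℝ) ≤ (n : ℝ) ^ δ) → IsModel μ ℱ A (sieveProfile T) →
      ∀ᵐ ω ∂μ, ∀ᶠ m : ℕ in atTop,
        ¬ Exceeds {n | ω ∈ A n} m (max ((cst T + ε) * Real.log m ^ 2) (((T (m ^ 2) : ℝ) + 2) ^ u)) := by
    intro ε hε
    obtain ⟨u, hu⟩ := Pool.Agent.U462.Mul.hit (min ε 1) (lt_min hε one_pos) (min_le_right _ _)
    refine ⟨u, fun Ω m0 μ i ℱ A T hT hTs hA => ?_⟩
    filter_upwards [hu Ω m0 μ i ℱ A T (toModel hA) hT hTs] with ω hω
    filter_upwards [hω] with m hm hc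
    obtain ⟨k, h1, h2, h3⟩ := hm
    refine hc k h1 (h2.trans (max_le_max ?_ le_rfl)) h3
    apply mul_le_mul_of_nonneg_right _ (sq_nonneg _)
    rw [cst_eq]
    linarith [min_le_left ε 1]
  refine ⟨part1, ?_, ?_⟩
  · intro Ω m0 μ iμ ℱ A T hT hTs hA
    have hM : Pool.Agent.U462.Gap.Model μ ℱ A (Pool.Agent.U462.Gap.aT T) := toModel hA
    refine ⟨q1 hT hTs hA, fun hTk => ?_⟩
    -- countably many parameters
    have hlow : ∀ᵐ ω ∂μ, ∀ (l e : ℚ), 0 < (l : ℝ) → (l : ℝ) < 1 → 0 < (e : ℝ) → ∀ᶠ i : ℕ in atTop,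
        (2 : ℝ) ^ ((1 - (l : ℝ) - e) * i) ≤ (Pool.Agent.U462.Mul.SV A ((l : ℝ) / Pool.Agent.U462.Mul.dT T)
          ((Pool.Agent.U462.Mul.PB i).filter (fun p => ω ∈ A p)) ω).card := by
      rw [ae_all_iff]; intro l
      rw [ae_all_iff]; intro e
      by_cases h1 : 0 < (l : ℝ)
      · by_cases h2 : (l : ℝ) < 1
        · by_cases h3 : 0 < (e : ℝ)
          · filter_upwards [Pool.Agent.U462.Mul.count_low hM hT hTs hTk h1 h2 h3] with ω hω _ _ _
            exact hω
          · exact Eventually.of_forall fun ω _ _ h => absurd h h3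
        · exact Eventually.of_forall fun ω _ h => absurd h h2
      · exact Eventually.of_forall fun ω h => absurd h h1
    have hup : ∀ᵐ ω ∂μ, ∀ (l e : ℚ), 0 < (l : ℝ) → (l : ℝ) < 1 → 0 < (e : ℝ) → ∀ᶠ i : ℕ in atTop,
        ((Pool.Agent.U462.Mul.SV A ((l : ℝ) / Pool.Agent.U462.Mul.dT T) (Finset.Ico (2 ^ i) (2 ^ (i + 1))) ω).card : ℝ) ≤
          (2 : ℝ) ^ ((1 - (l : ℝ) + e) * i) := by
      rw [ae_all_iff]; intro l
      rw [ae_all_iff]; intro e
      by_cases h1 : 0 < (l : ℝ)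
      · by_cases h2 : (l : ℝ) < 1
        · by_cases h3 : 0 < (e : ℝ)
          · filter_upwards [Pool.Agent.U462.Mul.count_up hM hT hTs hTk h1 h2 h3] with ω hω _ _ _
            exact hω
          · exact Eventually.of_forall fun ω _ _ h => absurd h h3
        · exact Eventually.of_forall fun ω _ h => absurd h h2
      · exact Eventually.of_forall fun ω h => absurd h h1
    have hhit : ∀ᵐ ω ∂μ, ∀ (e : ℚ), 0 < (e : ℝ) → ∀ᶠ m : ℕ in atTop,
        ¬ Exceeds {n | ω ∈ A n} m ((cst T + e) * Real.log m ^ 2) := by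
      rw [ae_all_iff]; intro e
      by_cases h1 : 0 < (e : ℝ)
      · obtain ⟨u, hu⟩ := part1 (e : ℝ) h1
        filter_upwards [hu Ω m0 μ iμ ℱ A T hT hTs hA] with ω hω _
        filter_upwards [hω, Pool.Agent.U462.Mul.powT_sq T hTk u,
          Pool.Agent.U462.Gap.tlog.eventually_ge_atTop (2 : ℝ)] with m g1 g2 g3 hc
        apply g1
        refine exceeds_mono (max_le le_rfl ?_) hc
        refine g2.trans ?_
        have h2 : 1 / 2 ≤ cst T := by unfold cst; split_ifs <;> norm_num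
        nlinarith
      · exact Eventually.of_forall fun ω h => absurd h h1
    have hdT := Pool.Agent.U462.Mul.dT_pos T
    have hd0 : 0 < Pool.Agent.U462.Mul.dT T := by linarith
    have hc0 : 0 < cst T := by rw [cst_eq]; positivity
    filter_upwards [hlow, hup, hhit] with ω h1 h2 h3
    have lowall : ∀ lam ε : ℝ, 0 < lam → lam < 1 → 0 < ε → ∀ᶠ i : ℕ in atTop,
          (2 : ℝ) ^ ((1 - lam - ε) * i) ≤ (((Finset.Ico (2 ^ i) (2 ^ (i + 1))).filter (fun p => p.Prime ∧ ω ∈ A p ∧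
            Exceeds {n | ω ∈ A n} p (lam * cst T * Real.log p ^ 2))).card : ℝ) := by
      intro lam ε hl hl1 hε
      obtain ⟨l, hl2, hl3⟩ := exists_rat_btwn (show lam < min 1 (lam + ε / 2) from lt_min hl1 (by linarith))
      obtain ⟨e, he1, he2⟩ := exists_rat_btwn (show (0 : ℝ) < ε / 2 by linarith)
      filter_upwards [h1 l e (hl.trans hl2) (lt_of_lt_of_le hl3 (min_le_left _ _)) he1] with i hi
      have hexp : (2 : ℝ) ^ ((1 - lam - ε) * i) ≤ (2 : ℝ) ^ ((1 - (l : ℝ) - e) * i) := by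
        apply Real.rpow_le_rpow_of_exponent_le (by norm_num)
        apply mul_le_mul_of_nonneg_right _ (Nat.cast_nonneg i)
        have := lt_of_lt_of_le hl3 (min_le_right _ _)
        linarith
      refine (hexp.trans hi).trans ?_
      rw [SV_eq]
      have hsub : (((Pool.Agent.U462.Mul.PB i).filter (fun p => ω ∈ A p)).filter (fun m =>
          Exceeds {n | ω ∈ A n} m ((l : ℝ) / Pool.Agent.U462.Mul.dT T * Real.log m ^ 2))) ⊆
          (Finset.Ico (2 ^ i) (2 ^ (i + 1))).filter (fun p => p.Prime ∧ ω ∈ A p ∧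
            Exceeds {n | ω ∈ A n} p (lam * cst T * Real.log p ^ 2)) := by
        intro p hp
        unfold Pool.Agent.U462.Mul.PB at hp
        simp only [Finset.mem_filter] at hp ⊢
        refine ⟨hp.1.1.1, hp.1.1.2, hp.1.2, exceeds_mono ?_ hp.2⟩
        apply mul_le_mul_of_nonneg_right _ (sq_nonneg _)
        rw [cst_eq, mul_one_div]
        exact div_le_div_of_nonneg_right hl2.le hd0.le
      exact_mod_cast Finset.card_le_card hsub
    refine ⟨fun lam ε hl hl1 hε => ?_, fun ε hε => ⟨?_, ?_⟩⟩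
    · obtain ⟨l, hl2, hl3⟩ := exists_rat_btwn (show max 0 (lam - ε / 2) < lam from max_lt hl (by linarith))
      obtain ⟨e, he1, he2⟩ := exists_rat_btwn (show (0 : ℝ) < ε / 2 by linarith)
      filter_upwards [lowall lam ε hl hl1 hε, h2 l e (lt_of_le_of_lt (le_max_left _ _) hl2) (hl3.trans hl1) he1] with i g1 g2
      refine ⟨g1, ?_⟩
      have hexp : (2 : ℝ) ^ ((1 - (l : ℝ) + e) * i) ≤ (2 : ℝ) ^ ((1 - lam + ε) * i) := by
        apply Real.rpow_le_rpow_of_exponent_le (by norm_num)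
        apply mul_le_mul_of_nonneg_right _ (Nat.cast_nonneg i)
        have := lt_of_le_of_lt (le_max_right _ _) hl2
        linarith
      refine le_trans ?_ (g2.trans hexp)
      rw [SV_eq]
      have hsub : (Finset.Ico (2 ^ i) (2 ^ (i + 1))).filter (fun m =>
            Exceeds {n | ω ∈ A n} m (lam * cst T * Real.log m ^ 2)) ⊆
          (Finset.Ico (2 ^ i) (2 ^ (i + 1))).filter (fun m =>
            Exceeds {n | ω ∈ A n} m ((l : ℝ) / Pool.Agent.U462.Mul.dT T * Real.log m ^ 2)) := by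
        intro p hp
        simp only [Finset.mem_filter] at hp ⊢
        refine ⟨hp.1, exceeds_mono ?_ hp.2⟩
        apply mul_le_mul_of_nonneg_right _ (sq_nonneg _)
        rw [cst_eq, mul_one_div]
        exact div_le_div_of_nonneg_right hl3.le hd0.le
      exact_mod_cast Finset.card_le_card hsub
    · obtain ⟨e, he1, he2⟩ := exists_rat_btwn hε
      filter_upwards [h3 e he1] with m hm hc
      apply hm
      refine exceeds_mono ?_ hc
      apply mul_le_mul_of_nonneg_right _ (sq_nonneg _)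
      linarith
    · obtain ⟨lam, hlam1, hlam2, hlam3⟩ : ∃ lam : ℝ, 0 < lam ∧ lam < 1 ∧ cst T - ε ≤ lam * cst T := by
        refine ⟨max (1 / 2) (1 - ε / (2 * cst T)), lt_of_lt_of_le (by norm_num) (le_max_left _ _), max_lt (by norm_num) (by
          have : 0 < ε / (2 * cst T) := by positivity
          linarith), ?_⟩
        have h4 : 1 - ε / (2 * cst T) ≤ max (1 / 2) (1 - ε / (2 * cst T)) := le_max_right _ _
        have h5 := mul_le_mul_of_nonneg_right h4 hc0.le
        have e : (1 - ε / (2 * cst T)) * cst T = cst T - ε / 2 := by field_simp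
        rw [e] at h5
        linarith
      have h4 := lowall lam ((1 - lam) / 2) hlam1 hlam2 (by linarith)
      rw [Filter.frequently_atTop]
      intro N
      obtain ⟨i, hi1, hi2⟩ := (h4.and (eventually_ge_atTop N)).exists
      have hpos : (0 : ℝ) < (((Finset.Ico (2 ^ i) (2 ^ (i + 1))).filter (fun p => p.Prime ∧ ω ∈ A p ∧
            Exceeds {n | ω ∈ A n} p (lam * cst T * Real.log p ^ 2))).card : ℝ) :=
        lt_of_lt_of_le (by positivity) hi1
      have hpos' : 0 < ((Finset.Ico (2 ^ i) (2 ^ (i + 1))).filter (fun p => p.Prime ∧ ω ∈ A p ∧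
            Exceeds {n | ω ∈ A n} p (lam * cst T * Real.log p ^ 2))).card := by exact_mod_cast hpos
      obtain ⟨p, hp⟩ := Finset.card_pos.1 hpos'
      rw [Finset.mem_filter, Finset.mem_Ico] at hp
      refine ⟨p, ?_, hp.2.1, hp.2.2.1, exceeds_mono ?_ hp.2.2.2⟩
      · have := Nat.lt_two_pow_self (n := i)
        omega
      · exact mul_le_mul_of_nonneg_right hlam3 (sq_nonneg _)
  · intro Ω m0 μ _ A hm a hi hp
    have h := Pool.Agent.U462.Gap.indep_model hm hi hp
    exact ⟨h.adapted, h.law⟩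

end Pool.Agent.Results.MP_2f88e5_nt.LeastMultiplierInRandomModels
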