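import Pool.Agent.U762.GP.TrS
import Pool.Agent.Results.MP_31d0eb_nt.FewBadScales

/-! The primes have a constant density at all but boundedly many scales around most terms of almost
every geometric progression. -/

set_option autoImplicit false

open Filter Topology MeasureTheory

namespace Pool.Agent.Results.MP_31d0eb_nt.FewBadScalesAlongPowers

/-- Up to `δ` the primes have a constant density `lam / log x`, `c₁ ≤ lam ≤ c₂`, on
`[x - D, x + D]`: for ALL real `x - D ≤ u ≤ v ≤ x + D` the number of primes in `(u, v]` differs from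
`lam (v - u) / log x` by at most `δ D / log x`. -/
def ConstantDensity (c₁ c₂ δ x D : ℝ) : Prop :=
  ∃ lam : ℝ, c₁ ≤ lam ∧ lam ≤ c₂ ∧ ∀ u v : ℝ, x - D ≤ u → u ≤ v → v ≤ x + D →
    |((Nat.primeCounting ⌊v⌋₊ : ℝ) - Nat.primeCounting ⌊u⌋₊) - lam * (v - u) / Real.log x| ≤
      δ * D / Real.log x

open Classical in
/-- `FewBad c₁ c₂ δ θ K x`: for all but at most `K` of the dyadic scales `D = 2 ^ j` with
`log x ≤ D ≤ x ^ θ` the primes have a constant density on `[x - D, x + D]`. -/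
def FewBad (c₁ c₂ δ θ : ℝ) (K : ℕ) (x : ℝ) : Prop :=
  ∃ E : Finset ℕ, E.card ≤ K ∧ ∀ j : ℕ, Real.log x ≤ (2 : ℝ) ^ j → (2 : ℝ) ^ j ≤ x ^ θ → j ∉ E →
    ConstantDensity c₁ c₂ δ x (2 ^ j)

/-- from the integer part to the real number -/
lemma real_of_int {c₁ c₂ δ x : ℝ} {D : ℕ} (hc₂ : 0 ≤ c₂) (hδ : 0 < δ) (hx : 100 ≤ x)
    (hD : Real.log x ≤ D) (hDx : (D : ℝ) ≤ x) (hlx : 64 * (c₂ + 1) / δ ≤ Real.log x)
    (hl4 : 4 ≤ Real.log x) (hc : 0 ≤ c₁)
    (h : FewBadScales.ConstantDensity c₁ c₂ (δ / 4) ⌊x⌋₊ D) : ConstantDensity c₁ c₂ δ x D := by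
  obtain ⟨lam, h1, h2, h3⟩ := h
  refine ⟨lam, h1, h2, fun u v hu huv hv => ?_⟩
  obtain ⟨n, hn⟩ : ∃ n : ℕ, n = ⌊x⌋₊ := ⟨_, rfl⟩
  obtain ⟨a, ha⟩ : ∃ a : ℕ, a = ⌊u⌋₊ := ⟨_, rfl⟩
  obtain ⟨b, hb⟩ : ∃ b : ℕ, b = ⌊v⌋₊ := ⟨_, rfl⟩
  rw [← hn] at h3
  rw [← ha, ← hb]
  have hx0 : 0 < x := by linarith
  have hn1 : (n : ℝ) ≤ x := by rw [hn]; exact Nat.floor_le hx0.le
  have hn2 : x < n + 1 := by rw [hn]; exact Nat.lt_floor_add_one x
  have hu0 : 0 ≤ u := by linarith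
  have hv0 : 0 ≤ v := by linarith
  have ha1 : (a : ℝ) ≤ u := by rw [ha]; exact Nat.floor_le hu0
  have ha2 : u < a + 1 := by rw [ha]; exact Nat.lt_floor_add_one u
  have hb1 : (b : ℝ) ≤ v := by rw [hb]; exact Nat.floor_le hv0
  have hb2 : v < b + 1 := by rw [hb]; exact Nat.lt_floor_add_one v
  have hab : a ≤ b := by rw [ha, hb]; exact Nat.floor_mono huv
  have hna : n ≤ a + D := by
    have h4 : (n : ℝ) < a + D + 1 := by linarith
    have h5 : n < a + D + 1 := by exact_mod_cast h4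
    omega
  have hbn : b ≤ n + D := by
    have h4 : (b : ℝ) < n + 1 + D := by linarith
    have h5 : b < n + 1 + D := by exact_mod_cast h4
    omega
  have h4 := h3 a b hna hab hbn
  have hpc : (((Finset.Ioc a b).filter Nat.Prime).card : ℝ) =
      (Nat.primeCounting b : ℝ) - Nat.primeCounting a := Pool.Agent.U762.GP.pcn_sub hab
  rw [hpc] at h4
  obtain ⟨l, hl⟩ : ∃ l : ℝ, l = Real.log x := ⟨_, rfl⟩
  obtain ⟨l', hl'⟩ : ∃ l' : ℝ, l' = Real.log n := ⟨_, rfl⟩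
  rw [← hl', abs_le] at h4
  rw [← hl] at hD hlx hl4 ⊢
  have hnp : (0 : ℝ) < n := by linarith
  have hl'1 : l' ≤ l := by rw [hl', hl]; exact Real.log_le_log hnp hn1
  have hl'2 : l - l' ≤ 2 / x := by
    have h5 : l - l' = Real.log (x / n) := by
      rw [hl, hl', Real.log_div hx0.ne' hnp.ne']
    rw [h5]
    have h6 : Real.log (x / n) ≤ x / n - 1 := Real.log_le_sub_one_of_pos (by positivity)
    refine h6.trans ?_
    have h7 : x / n - 1 = (x - n) / n := by field_simp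
    rw [h7, div_le_div_iff₀ hnp hx0]
    have h8 : (x - n) * x ≤ 1 * x := mul_le_mul_of_nonneg_right (by linarith) hx0.le
    linarith
  have h2x : 2 / x ≤ 1 / 50 := by
    rw [div_le_div_iff₀ hx0 (by norm_num)]; linarith
  have hl'p : 0 < l' := by linarith
  have hlp : 0 < l := by linarith
  have hl'l : l ≤ 2 * l' := by linarith
  have hlam0 : 0 ≤ lam := hc.trans h1
  have hDp : (0 : ℝ) < D := by linarith
  -- comparison of the main terms
  have hvu : v - u ≤ 2 * D := by linarith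
  have hvu0 : 0 ≤ v - u := by linarith
  have hq1 : lam * ((b : ℝ) - a) / l' ≤ lam * (v - u) / l + (c₂ + 1) * 8 / l := by
    have e1 : lam * ((b : ℝ) - a) ≤ lam * (v - u + 1) :=
      mul_le_mul_of_nonneg_left (by linarith) hlam0
    have e2 : lam * (v - u + 1) / l' ≤ lam * (v - u) / l + (c₂ + 1) * 8 / l := by
      rw [← add_div, div_le_div_iff₀ hl'p hlp]
      have e3 : (lam * (v - u) + (c₂ + 1) * 8) * l' =
        lam * (v - u) * l - lam * (v - u) * (l - l') + (c₂ + 1) * 8 * l' := by ring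
      rw [e3]
      have e4 : lam * (v - u) * (l - l') ≤ c₂ * (2 * D) * (2 / x) := by
        apply mul_le_mul _ hl'2 (by linarith) (by positivity)
        exact mul_le_mul h2 hvu hvu0 hc₂
      have e5 : c₂ * (2 * (D : ℝ)) * (2 / x) ≤ c₂ * 4 := by
        have : (D : ℝ) * (2 / x) ≤ 2 := by
          rw [mul_div_assoc', div_le_iff₀ hx0]; linarith
        calc c₂ * (2 * (D : ℝ)) * (2 / x) = c₂ * (2 * (D * (2 / x))) := by ring
          _ ≤ c₂ * (2 * 2) := mul_le_mul_of_nonneg_left (by linarith) hc₂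
          _ = c₂ * 4 := by ring
      have e6 : lam * l ≤ c₂ * (2 * l') := mul_le_mul h2 hl'l hlp.le hc₂
      have e7 : c₂ * 4 ≤ c₂ * 4 * l' := by
        have : c₂ * 4 * 1 ≤ c₂ * 4 * l' := mul_le_mul_of_nonneg_left (by linarith) (by positivity)
        linarith
      have e8 : 0 ≤ c₂ * l' := by positivity
      have e9 : lam * (v - u + 1) * l = lam * (v - u) * l + lam * l := by ring
      rw [e9]
      linarith
    exact (div_le_div_of_nonneg_right e1 hl'p.le).trans e2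
  have hq2 : lam * (v - u) / l - (c₂ + 1) * 8 / l ≤ lam * ((b : ℝ) - a) / l' := by
    have e1 : lam * (v - u - 1) ≤ lam * ((b : ℝ) - a) :=
      mul_le_mul_of_nonneg_left (by linarith) hlam0
    have e2 : lam * (v - u) / l - (c₂ + 1) * 8 / l ≤ lam * ((b : ℝ) - a) / l := by
      rw [← sub_div]
      apply div_le_div_of_nonneg_right _ hlp.le
      have : lam * (v - u - 1) = lam * (v - u) - lam := by ring
      linarith
    refine e2.trans ?_
    apply div_le_div_of_nonneg_left _ hl'p hl'1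
    apply mul_nonneg hlam0
    have : (a : ℝ) ≤ b := by exact_mod_cast hab
    linarith
  have hq3 : δ / 4 * D / l' ≤ δ / 2 * D / l := by
    rw [div_le_div_iff₀ hl'p hlp]
    have : δ / 4 * D * l ≤ δ / 4 * D * (2 * l') := mul_le_mul_of_nonneg_left hl'l (by positivity)
    linarith
  have hq4 : (c₂ + 1) * 8 / l ≤ δ / 4 * D / l := by
    apply div_le_div_of_nonneg_right _ hlp.le
    have e1 : 64 * (c₂ + 1) / δ ≤ D := hlx.trans hD
    rw [div_le_iff₀ hδ] at e1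
    linarith
  have hq5 : δ * D / l = δ / 2 * D / l + δ / 4 * D / l + δ / 4 * D / l := by ring
  have hq6 : 0 ≤ δ / 4 * D / l := by positivity
  rw [abs_le, hq5]
  constructor
  · linarith [h4.1]
  · linarith [h4.2]

open Classical in
/-- the integers all of whose real neighbours are good -/
lemma mem_few {c₁ c₂ δ θ : ℝ} (hc : 0 ≤ c₁) (hc₂ : 0 ≤ c₂) (hδ : 0 < δ) (hθ : 0 < θ)
    (hθ1 : θ < 1) {K : ℕ} : ∃ x₀ : ℝ, ∀ x : ℝ, x₀ ≤ x →
      FewBadScales.badScales c₁ c₂ (δ / 4) ⌊((⌊x⌋₊ : ℝ) + 1) ^ θ⌋₊ ⌊x⌋₊ ≤ K →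
      FewBad c₁ c₂ δ θ K x := by
  have hev : ∀ᶠ x : ℝ in atTop, 100 ≤ x ∧ 64 * (c₂ + 1) / δ ≤ Real.log x ∧ 4 ≤ Real.log x :=
    (eventually_ge_atTop 100).and ((Real.tendsto_log_atTop.eventually_ge_atTop _).and
      (Real.tendsto_log_atTop.eventually_ge_atTop _))
  obtain ⟨x₀, hx₀⟩ := eventually_atTop.1 hev
  refine ⟨x₀, fun x hx hK => ?_⟩
  obtain ⟨h100, hl, hl4⟩ := hx₀ x hx
  refine ⟨_, hK, fun j hj1 hj2 hjE => ?_⟩
  by_contra hcon
  apply hjE
  rw [Finset.mem_filter, Finset.mem_range]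
  have hx0 : 0 < x := by linarith
  have hn1 : (⌊x⌋₊ : ℝ) ≤ x := Nat.floor_le hx0.le
  have hn2 : x < ⌊x⌋₊ + 1 := Nat.lt_floor_add_one x
  have hnp : (0 : ℝ) < ⌊x⌋₊ := by linarith
  have h1 : 2 ^ j ≤ ⌊((⌊x⌋₊ : ℝ) + 1) ^ θ⌋₊ := by
    apply Nat.le_floor
    push_cast
    exact hj2.trans (Real.rpow_le_rpow hx0.le hn2.le hθ.le)
  refine ⟨?_, ?_, ?_⟩
  · have h2 : ⌊((⌊x⌋₊ : ℝ) + 1) ^ θ⌋₊ ≠ 0 := by
      have : 0 < 2 ^ j := by positivity
      omega
    have := (Nat.le_log_iff_pow_le (by norm_num : 1 < 2) h2).2 h1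
    omega
  · exact (Real.log_le_log hnp hn1).trans hj1
  · intro hgood
    apply hcon
    have h3 : (2 : ℝ) ^ j ≤ x := hj2.trans (by
      calc x ^ θ ≤ x ^ (1 : ℝ) := Real.rpow_le_rpow_of_exponent_le (by linarith) hθ1.le
        _ = x := Real.rpow_one x)
    have := real_of_int (D := 2 ^ j) hc₂ hδ h100 (by push_cast; exact hj1) (by push_cast; exact h3)
      hl hl4 hc hgood
    rwa [Nat.cast_pow, Nat.cast_ofNat] at this

/-- the number of bad scales grows with the range -/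
lemma bad_mono (c₁ c₂ δ : ℝ) {Y Y' : ℕ} (h : Y ≤ Y') (n : ℕ) :
    FewBadScales.badScales c₁ c₂ δ Y n ≤ FewBadScales.badScales c₁ c₂ δ Y' n := by
  classical
  unfold FewBadScales.badScales
  apply Finset.card_le_card
  intro j hj
  rw [Finset.mem_filter, Finset.mem_range] at hj ⊢
  exact ⟨lt_of_lt_of_le hj.1 (Nat.succ_le_succ (Nat.log_mono_right h)), hj.2⟩

/-- the range of the scales in a window -/
lemma range_le {θ θ' : ℝ} (hθ : 0 < θ) (hθθ : θ < θ') : ∀ᶠ X : ℕ in atTop, ∀ Y n : ℕ,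
    (X : ℝ) ^ θ' ≤ Y → Y ≤ X → n ≤ X + Y → ⌊((n : ℝ) + 1) ^ θ⌋₊ ≤ Y := by
  have h1 : Tendsto (fun X : ℕ => ((X : ℝ)) ^ (θ' - θ)) atTop atTop :=
    (tendsto_rpow_atTop (by linarith)).comp tendsto_natCast_atTop_atTop
  filter_upwards [h1.eventually_ge_atTop ((3 : ℝ) ^ θ), eventually_ge_atTop 1] with X hX hX1
  intro Y n hY hYX hn
  have hXr : (1 : ℝ) ≤ X := by exact_mod_cast hX1
  have hn' : (n : ℝ) + 1 ≤ 3 * X := by
    have : n + 1 ≤ 3 * X := by omega
    exact_mod_cast this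
  have h2 : ((n : ℝ) + 1) ^ θ ≤ Y := by
    calc ((n : ℝ) + 1) ^ θ ≤ (3 * X) ^ θ := Real.rpow_le_rpow (by positivity) hn' hθ.le
      _ = (3 : ℝ) ^ θ * (X : ℝ) ^ θ := Real.mul_rpow (by norm_num) (by positivity)
      _ ≤ (X : ℝ) ^ (θ' - θ) * (X : ℝ) ^ θ := mul_le_mul_of_nonneg_right hX (by positivity)
      _ = (X : ℝ) ^ θ' := by rw [← Real.rpow_add (by linarith)]; congr 1; ring
      _ ≤ Y := hY
  exact_mod_cast (Nat.floor_le (by positivity)).trans h2

open Classical in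
/-- dropping finitely many terms -/
lemma drop_terms {w : ℕ → ℝ} (hw0 : ∀ n, 0 ≤ w n)
    (hdiv : Tendsto (fun N => ∑ n ∈ Finset.range N, w n) atTop atTop) {P Q : ℕ → Prop} {n0 : ℕ}
    (hPQ : ∀ n, n0 ≤ n → P n → Q n) {ρ ε : ℝ} (hε : 0 < ε)
    (h : ∀ᶠ N : ℕ in atTop, ρ * ∑ n ∈ Finset.range N, w n ≤
      ∑ n ∈ Finset.range N, if P n then w n else 0) :
    ∀ᶠ N : ℕ in atTop, (ρ - ε) * ∑ n ∈ Finset.range N, w n ≤
      ∑ n ∈ (Finset.range N).filter (fun n => Q n), w n := by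
  have hbig2 : ∀ᶠ N : ℕ in atTop, (∑ n ∈ Finset.range n0, w n) / ε ≤
      ∑ n ∈ Finset.range N, w n := hdiv.eventually_ge_atTop _
  filter_upwards [h, hbig2] with N hN hN2
  rw [div_le_iff₀ hε] at hN2
  have hpt : ∀ n, (if P n then w n else 0) ≤ (if Q n then w n else 0) +
      (if n < n0 then w n else 0) := by
    intro n
    have hw := hw0 n
    by_cases hn : n < n0
    · rw [if_pos hn]
      split_ifs <;> linarith
    · rw [if_neg hn, add_zero]
      push Not at hn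
      by_cases hp : P n
      · rw [if_pos hp, if_pos (hPQ n hn hp)]
      · rw [if_neg hp]
        split_ifs
        · exact hw
        · exact le_rfl
  have hsum := Finset.sum_le_sum (fun n (_ : n ∈ Finset.range N) => hpt n)
  rw [Finset.sum_add_distrib] at hsum
  have hlast : ∑ n ∈ Finset.range N, (if n < n0 then w n else 0) ≤
      ∑ n ∈ Finset.range n0, w n := by
    rw [← Finset.sum_filter]
    apply Finset.sum_le_sum_of_subset_of_nonneg
    · intro n hn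
      rw [Finset.mem_filter] at hn
      exact Finset.mem_range.2 hn.2
    · intro n _ _
      exact hw0 n
  rw [Finset.sum_filter]
  linarith

open Classical in
/-- Let `0 < θ < 1`.

1. For every `η > 0` there is `Λ`, and for every `δ > 0` there is `K`, such that for all points
`s n ≥ 1` tending to infinity and all weights `w n ≥ 0` with divergent sum and bounded sums over the
dyadic blocks `t ≤ s n ≤ 2 t`, for almost every real `α > 1` the `n` for which the primes have a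
constant density `lam / log x`, `0 ≤ lam ≤ Λ`, up to `δ`, around `x = α ^ s n` at all but `K` of the
dyadic scales between `log x` and `x ^ θ` have lower `w`-density at least `1 - η`.

2. There are `c₁, c₂, ρ > 0`, and for every `δ > 0` there is `K`, such that in the same generality
the `n` for which this holds with `c₁ ≤ lam ≤ c₂` have lower `w`-density at least `ρ`. -/
theorem result {θ : ℝ} (hθ : 0 < θ) (hθ1 : θ < 1) :
    (∀ η : ℝ, 0 < η → ∃ Λ : ℝ, ∀ δ : ℝ, 0 < δ → ∃ K : ℕ,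
      ∀ (s w : ℕ → ℝ) (C : ℝ), (∀ n, 1 ≤ s n) → Tendsto s atTop atTop → (∀ n, 0 ≤ w n) →
        (∀ t : ℝ, 1 ≤ t → ∀ F : Finset ℕ, (∀ n ∈ F, t ≤ s n ∧ s n ≤ 2 * t) →
          ∑ n ∈ F, w n ≤ C) →
        Tendsto (fun N => ∑ n ∈ Finset.range N, w n) atTop atTop →
        ∀ᵐ α ∂(volume.restrict (Set.Ioi (1 : ℝ))), ∀ᶠ N : ℕ in atTop,
          (1 - η) * ∑ n ∈ Finset.range N, w n ≤
            ∑ n ∈ (Finset.range N).filter (fun n => FewBad 0 Λ δ θ K (α ^ s n)), w n) ∧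
    (∃ c₁ c₂ ρ : ℝ, 0 < c₁ ∧ 0 < ρ ∧ ∀ δ : ℝ, 0 < δ → ∃ K : ℕ,
      ∀ (s w : ℕ → ℝ) (C : ℝ), (∀ n, 1 ≤ s n) → Tendsto s atTop atTop → (∀ n, 0 ≤ w n) →
        (∀ t : ℝ, 1 ≤ t → ∀ F : Finset ℕ, (∀ n ∈ F, t ≤ s n ∧ s n ≤ 2 * t) →
          ∑ n ∈ F, w n ≤ C) →
        Tendsto (fun N => ∑ n ∈ Finset.range N, w n) atTop atTop →
        ∀ᵐ α ∂(volume.restrict (Set.Ioi (1 : ℝ))), ∀ᶠ N : ℕ in atTop,
          ρ * ∑ n ∈ Finset.range N, w n ≤
            ∑ n ∈ (Finset.range N).filter (fun n => FewBad c₁ c₂ δ θ K (α ^ s n)), w n) := by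
  -- the common deduction
  have main : ∀ {c₁ c₂ δ ρ θ' : ℝ} {K : ℕ}, 0 ≤ c₁ → 0 ≤ c₂ → 0 < δ → 0 < ρ → ρ ≤ 1 → θ < θ' →
      θ' < 1 → (∀ᶠ X : ℕ in atTop, ∀ Y : ℕ, (X : ℝ) ^ θ' ≤ Y → Y ≤ X →
        ρ * Y ≤ (((Finset.Ioc X (X + Y)).filter
          (fun n => FewBadScales.badScales c₁ c₂ (δ / 4) Y n ≤ K)).card : ℝ)) →
      ∀ (s w : ℕ → ℝ) (C : ℝ), (∀ n, 1 ≤ s n) → Tendsto s atTop atTop → (∀ n, 0 ≤ w n) →
        (∀ t : ℝ, 1 ≤ t → ∀ F : Finset ℕ, (∀ n ∈ F, t ≤ s n ∧ s n ≤ 2 * t) →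
          ∑ n ∈ F, w n ≤ C) →
        Tendsto (fun N => ∑ n ∈ Finset.range N, w n) atTop atTop →
        ∀ᵐ α ∂(volume.restrict (Set.Ioi (1 : ℝ))), ∀ ε : ℝ, 0 < ε → ∀ᶠ N : ℕ in atTop,
          (ρ - ε) * ∑ n ∈ Finset.range N, w n ≤
            ∑ n ∈ (Finset.range N).filter (fun n => FewBad c₁ c₂ δ θ K (α ^ s n)), w n := by
    intro c₁ c₂ δ ρ θ' K hc₁ hc₂ hδ hρ hρ1 hθθ hθ'1 hloc s w C hs1 hs hw0 hdy hdiv
    obtain ⟨x₀, hx₀⟩ := mem_few (K := K) hc₁ hc₂ hδ hθ hθ1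
    obtain ⟨S, hSd⟩ : ∃ S : Set ℕ, ∀ n, n ∈ S ↔
        FewBadScales.badScales c₁ c₂ (δ / 4) ⌊((n : ℝ) + 1) ^ θ⌋₊ n ≤ K :=
      ⟨{n : ℕ | FewBadScales.badScales c₁ c₂ (δ / 4) ⌊((n : ℝ) + 1) ^ θ⌋₊ n ≤ K},
        fun n => Iff.rfl⟩
    have hS : ∀ᶠ X : ℕ in atTop, ∀ Y : ℕ, (X : ℝ) ^ θ' ≤ Y → Y ≤ X →
        ρ * Y ≤ (((Finset.Ioc X (X + Y)).filter (fun n => n ∈ S)).card : ℝ) := by
      filter_upwards [hloc, range_le hθ hθθ] with X h1 h2
      intro Y hY hYX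
      refine (h1 Y hY hYX).trans ?_
      have : ((Finset.Ioc X (X + Y)).filter
          (fun n => FewBadScales.badScales c₁ c₂ (δ / 4) Y n ≤ K)).card ≤
        ((Finset.Ioc X (X + Y)).filter (fun n => n ∈ S)).card := by
        apply Finset.card_le_card
        intro n hn
        rw [Finset.mem_filter, Finset.mem_Ioc] at hn ⊢
        refine ⟨hn.1, (hSd n).2 ?_⟩
        exact (bad_mono c₁ c₂ (δ / 4) (h2 Y n hY hYX hn.1.2) n).trans hn.2
      exact_mod_cast this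
    have ht := Pool.Agent.U762.GP.transferS (hθ.trans hθθ) hθ'1 hρ hρ1 hS
      (⟨hs1, hw0, hdy⟩ : Pool.Agent.U762.GP.WS s w C) hdiv
    filter_upwards [ht, ae_restrict_mem measurableSet_Ioi] with α hα hα1 ε hε
    have h1 : Tendsto (fun n => α ^ s n) atTop atTop :=
      (tendsto_rpow_atTop_of_base_gt_one α hα1).comp hs
    obtain ⟨n0, hn0⟩ := eventually_atTop.1 (h1.eventually_ge_atTop x₀)
    have h2 := drop_terms (Q := fun n => FewBad c₁ c₂ δ θ K (α ^ s n)) hw0 hdiv (n0 := n0)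
      (fun n hn hp => hx₀ _ (hn0 n hn) ((hSd _).1 hp)) (half_pos hε) (hα (ε / 2) (half_pos hε))
    filter_upwards [h2] with N hN
    refine le_trans (le_of_eq ?_) hN
    ring
  refine ⟨?_, ?_⟩
  · intro η hη
    obtain ⟨θ', hθθ, hθ'1⟩ := exists_between hθ1
    obtain ⟨Λ, hΛ⟩ := FewBadScales.result.1 θ' (hθ.trans hθθ) hθ'1.le (min (η / 2) (1 / 2))
      (lt_min (half_pos hη) (by norm_num))
    refine ⟨max Λ 0, fun δ hδ => ?_⟩
    obtain ⟨K, hK⟩ := hΛ (δ / 4) (by linarith)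
    refine ⟨K, fun s w C hs1 hs hw0 hdy hdiv => ?_⟩
    have hm1 : min (η / 2) (1 / 2) ≤ η / 2 := min_le_left _ _
    have hm2 : min (η / 2) (1 / 2) ≤ 1 / 2 := min_le_right _ _
    have hm0 : 0 < min (η / 2) (1 / 2) := lt_min (half_pos hη) (by norm_num)
    have hloc : ∀ᶠ X : ℕ in atTop, ∀ Y : ℕ, (X : ℝ) ^ θ' ≤ Y → Y ≤ X →
        (1 - min (η / 2) (1 / 2)) * Y ≤ (((Finset.Ioc X (X + Y)).filter
          (fun n => FewBadScales.badScales 0 (max Λ 0) (δ / 4) Y n ≤ K)).card : ℝ) := by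
      filter_upwards [hK] with X hX
      intro Y hY hYX
      have h1 := hX Y hY hYX
      have h2 := Finset.card_filter_add_card_filter_not (s := Finset.Ioc X (X + Y))
        (fun n => FewBadScales.badScales 0 (max Λ 0) (δ / 4) Y n ≤ K)
      rw [Nat.card_Ioc, Nat.add_sub_cancel_left] at h2
      have h3 : ((Finset.Ioc X (X + Y)).filter
          (fun n => ¬ FewBadScales.badScales 0 (max Λ 0) (δ / 4) Y n ≤ K)).card ≤
          ((Finset.Ioc X (X + Y)).filter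
            (fun n => K < FewBadScales.badScales 0 Λ (δ / 4) Y n)).card := by
        apply Finset.card_le_card
        intro n hn
        rw [Finset.mem_filter] at hn ⊢
        refine ⟨hn.1, ?_⟩
        push Not at hn
        refine lt_of_lt_of_le hn.2 ?_
        unfold FewBadScales.badScales
        apply Finset.card_le_card
        intro j hj
        rw [Finset.mem_filter] at hj ⊢
        refine ⟨hj.1, hj.2.1, fun hh => hj.2.2 ?_⟩
        obtain ⟨lam, g1, g2, g3⟩ := hh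
        exact ⟨lam, g1, g2.trans (le_max_left _ _), g3⟩
      have h4 : (((Finset.Ioc X (X + Y)).filter
          (fun n => FewBadScales.badScales 0 (max Λ 0) (δ / 4) Y n ≤ K)).card : ℝ) +
        (((Finset.Ioc X (X + Y)).filter
          (fun n => ¬ FewBadScales.badScales 0 (max Λ 0) (δ / 4) Y n ≤ K)).card : ℝ) = Y := by
        exact_mod_cast h2
      have h5 : (((Finset.Ioc X (X + Y)).filter
          (fun n => ¬ FewBadScales.badScales 0 (max Λ 0) (δ / 4) Y n ≤ K)).card : ℝ) ≤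
          (((Finset.Ioc X (X + Y)).filter
            (fun n => K < FewBadScales.badScales 0 Λ (δ / 4) Y n)).card : ℝ) := by
        exact_mod_cast h3
      linarith
    filter_upwards [main le_rfl (le_max_right _ _) hδ (by linarith) (by linarith) hθθ hθ'1 hloc
      s w C hs1 hs hw0 hdy hdiv] with α hα
    filter_upwards [hα (η / 2) (half_pos hη)] with N hN
    have hw : 0 ≤ ∑ n ∈ Finset.range N, w n := Finset.sum_nonneg fun n _ => hw0 n
    exact (mul_le_mul_of_nonneg_right (by linarith) hw).trans hN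
  · obtain ⟨θ₀, hθ₀0, hθ₀1, c, hc, X₀, hX₀, hshort⟩ := FewBadScales.result.2.1
    obtain ⟨θ', hθ'a, hθ'1⟩ := exists_between (max_lt hθ1 hθ₀1)
    have hθθ : θ < θ' := lt_of_le_of_lt (le_max_left _ _) hθ'a
    have hθ₀θ : θ₀ ≤ θ' := (le_max_right _ _).trans hθ'a.le
    have hsh : FewBadScales.ShortIntervals θ' := by
      refine ⟨c, hc, X₀, hX₀, fun X Y hX hXY hYX => hshort X Y hX (le_trans ?_ hXY) hYX⟩
      apply Real.rpow_le_rpow_of_exponent_le _ hθ₀θ
      have : 1 ≤ X := by omega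
      exact_mod_cast this
    obtain ⟨c₁, c₂, κ, hc₁, hc₂, hκ, hδK⟩ := FewBadScales.result.2.2 θ' (hθ.trans hθθ) hθ'1.le hsh
    refine ⟨c₁, c₂, min κ 1 / 2, hc₁, by positivity, fun δ hδ => ?_⟩
    obtain ⟨K, hK⟩ := hδK (δ / 4) (by linarith)
    refine ⟨K, fun s w C hs1 hs hw0 hdy hdiv => ?_⟩
    have hκ1 : 0 < min κ 1 := lt_min hκ one_pos
    have hloc : ∀ᶠ X : ℕ in atTop, ∀ Y : ℕ, (X : ℝ) ^ θ' ≤ Y → Y ≤ X →
        min κ 1 * Y ≤ (((Finset.Ioc X (X + Y)).filter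
          (fun n => FewBadScales.badScales c₁ c₂ (δ / 4) Y n ≤ K)).card : ℝ) := by
      filter_upwards [hK] with X hX
      intro Y hY hYX
      exact (mul_le_mul_of_nonneg_right (min_le_left _ _) (Nat.cast_nonneg _)).trans (hX Y hY hYX)
    filter_upwards [main hc₁.le hc₂.le hδ hκ1 (min_le_right _ _) hθθ hθ'1 hloc
      s w C hs1 hs hw0 hdy hdiv] with α hα
    filter_upwards [hα (min κ 1 / 2) (by positivity)] with N hN
    refine le_trans (le_of_eq ?_) hN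
    ring

end Pool.Agent.Results.MP_31d0eb_nt.FewBadScalesAlongPowers
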