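import Pool.Agent.U684.RQ.Ine
import Pool.Agent.U684.RQ.Pri

set_option autoImplicit false

/-!
# Real quadratic fields in which all primes up to `c log d` are inert, and their class groups

If a prime `q` is inert in `K = ℚ(√d)`, then the prime ideal above `q` is principal, so the condition of
unique factorisation at `q` holds.  Let `S` be a set of odd primes.  We consider the squarefree `d ≤ X`, and
the PRIMES `p`, which are `5` modulo `8` and nonresidues modulo all `q` in `S`; then `2` and all `q` in `S`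
are inert.  The product of the elements of `S` may be as large as a fixed power of `X`; for example `S` may
consist of all odd primes up to `c log X`.

* There are at least `X / (32 * 3 ^ |S|)` such squarefree `d ≤ X`.
* For the primes at most one prime `q₀` has to be left out of `S`, and it is larger than `B log log X`.
  There is a scale `Y` between a fixed root of `X` and `X` such that the number of such primes in `(Y, 2Y]`
  is at least `c Y / (2 ^ |S| log Y)`, which is the expected order of magnitude.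

For all but `O(X^(1-δ))` of these `d`, and all but `O(Y^(1-δ))` of these primes, the prime ideals which are
not above `2` or `S`, and have norm at most `(log d)^a`, generate a subgroup of the class group of index at
most `d^(θ+ε)`, `θ = max (0, 1/a - 1/2)`; and the class number is at most `d^(θ+ε)` if they are principal.
For `a = 2` this is `d^ε`, and the relevant prime ideals have norms between `c log d` and `(log d)^2`.
-/

namespace Pool.Agent.Results.MP_321647_nt.SmallPrimesInert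

open Finset NumberField
open scoped Classical

/-- The subgroup of the class group generated by the classes of the nonzero prime ideals of norm at
most `B` which do not contain `2` or an element of `S`. -/
noncomputable def Gen (K : Type) [Field K] [NumberField K] (S : Finset ℕ) (B : ℝ) :
    Subgroup (ClassGroup (𝓞 K)) :=
  Subgroup.closure {c | ∃ P : nonZeroDivisors (Ideal (𝓞 K)), (P : Ideal (𝓞 K)).IsPrime ∧
    ((Ideal.absNorm (P : Ideal (𝓞 K)) : ℕ) : ℝ) ≤ B ∧
    (∀ q ∈ insert 2 S, ((q : ℕ) : 𝓞 K) ∉ (P : Ideal (𝓞 K))) ∧ ClassGroup.mk0 P = c}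

/-- The exponent `max (0, 1/a - 1/2)`. -/
noncomputable def theta (a : ℝ) : ℝ := max 0 (1 / a - 1 / 2)

/-- The property of the radicand `d` in the theorem. -/
def Good (a ε : ℝ) (S : Finset ℕ) (d : ℕ) : Prop :=
  ∀ (K : Type) [Field K] [NumberField K], Module.finrank ℚ K = 2 → (∃ x : K, x ^ 2 = (d : K)) →
    (∀ P : Ideal (𝓞 K), P.IsPrime → (∃ q ∈ insert 2 S, ((q : ℕ) : 𝓞 K) ∈ P) → P.IsPrincipal) ∧
    ((Gen K S ((Real.log d) ^ a)).index : ℝ) ≤ (d : ℝ) ^ (theta a + ε) ∧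
    ((∀ P : Ideal (𝓞 K), P.IsPrime → ((Ideal.absNorm P : ℕ) : ℝ) ≤ (Real.log d) ^ a →
      (∀ q ∈ insert 2 S, ((q : ℕ) : 𝓞 K) ∉ P) → P.IsPrincipal) →
      (Nat.card (ClassGroup (𝓞 K)) : ℝ) ≤ (d : ℝ) ^ (theta a + ε))

/-- `d` is `5` modulo `8` and a nonresidue modulo all elements of `S`. -/
def Inert (S : Finset ℕ) (d : ℕ) : Prop := d % 8 = 5 ∧ ∀ q ∈ S, jacobiSym (d : ℤ) q = -1

/-- `S` consists of odd primes. -/
def OddPrimes (S : Finset ℕ) : Prop := ∀ q ∈ S, q.Prime ∧ q ≠ 2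

theorem good_of (a ε : ℝ) (S : Finset ℕ) (hS : OddPrimes S) (d : ℕ) (hsq : Squarefree d)
    (hd : Inert S d) (h : Pool.Agent.R345.IX.GoodI a (theta a + ε) d) : Good a ε S d := by
  intro K _ _ hK hx
  have hprin : ∀ P : Ideal (𝓞 K), P.IsPrime → (∃ q ∈ insert 2 S, ((q : ℕ) : 𝓞 K) ∈ P) →
      P.IsPrincipal := by
    rintro P hP ⟨q, hq, hqP⟩
    have h1 : q.Prime ∧ (q = 2 ∨ jacobiSym (d : ℤ) q = -1) := by
      rcases mem_insert.1 hq with rfl | hq
      · exact ⟨Nat.prime_two, Or.inl rfl⟩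
      · exact ⟨(hS q hq).1, Or.inr (hd.2 q hq)⟩
    rw [Pool.Agent.U684.RQ.inert K hK d hsq hx hd.1 q h1.1 h1.2 P hP hqP]
    exact ⟨⟨_, rfl⟩⟩
  have h1 : (Nat.card (ClassGroup (𝓞 K)) : ℝ) ≤ (d : ℝ) ^ (theta a + ε) *
      ((Pool.Agent.R345.IX.Reach K ((Real.log d) ^ a)
        (Real.log d / Real.log (Real.log d))).ncard : ℝ) := h K hK hx
  have hdd : 0 ≤ (d : ℝ) ^ (theta a + ε) := Real.rpow_nonneg (Nat.cast_nonneg _) _
  set G := Gen K S ((Real.log d) ^ a) with hG
  have hsub : Pool.Agent.R345.IX.Reach K ((Real.log d) ^ a)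
      (Real.log d / Real.log (Real.log d)) ⊆ (G : Set (ClassGroup (𝓞 K))) := by
    rintro C ⟨L, h1, -, rfl⟩
    refine Subgroup.multiset_prod_mem _ _ ?_
    intro c hc
    obtain ⟨P, hP, rfl⟩ := Multiset.mem_map.1 hc
    by_cases hq : ∃ q ∈ insert 2 S, ((q : ℕ) : 𝓞 K) ∈ (P : Ideal (𝓞 K))
    · have h2 := hprin P (h1 P hP).1 hq
      have h3 : ClassGroup.mk0 P = 1 := by rw [ClassGroup.mk0_eq_one_iff]; exact h2
      rw [h3]
      exact Subgroup.one_mem _
    · push Not at hq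
      exact Subgroup.subset_closure ⟨P, (h1 P hP).1, (h1 P hP).2, hq, rfl⟩
  have h2 : ((Pool.Agent.R345.IX.Reach K ((Real.log d) ^ a)
      (Real.log d / Real.log (Real.log d))).ncard : ℝ) ≤ Nat.card G := by
    have h3 := Set.ncard_le_ncard hsub (Set.toFinite _)
    have h4 : ((G : Subgroup (ClassGroup (𝓞 K))) : Set (ClassGroup (𝓞 K))).ncard = Nat.card G :=
      rfl
    rw [h4] at h3
    exact_mod_cast h3
  have h5 : (0 : ℝ) < Nat.card G := by exact_mod_cast Nat.card_pos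
  have h6 : (Nat.card (ClassGroup (𝓞 K)) : ℝ) = Nat.card G * G.index := by
    exact_mod_cast (Subgroup.card_mul_index G).symm
  refine ⟨hprin, ?_, ?_⟩
  · have h7 : (G.index : ℝ) * Nat.card G ≤ (d : ℝ) ^ (theta a + ε) * Nat.card G := by
      calc (G.index : ℝ) * Nat.card G = Nat.card (ClassGroup (𝓞 K)) := by rw [h6]; ring
        _ ≤ (d : ℝ) ^ (theta a + ε) * ((Pool.Agent.R345.IX.Reach K ((Real.log d) ^ a)
          (Real.log d / Real.log (Real.log d))).ncard : ℝ) := h1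
        _ ≤ _ := mul_le_mul_of_nonneg_left h2 hdd
    exact le_of_mul_le_mul_right h7 h5
  · intro hP
    have h8 : G = ⊥ := by
      rw [hG, Gen, Subgroup.closure_eq_bot_iff]
      rintro c ⟨P, hp, hn, hq, rfl⟩
      rw [Set.mem_singleton_iff, ClassGroup.mk0_eq_one_iff]
      exact hP _ hp hn hq
    have h9 : Nat.card G = 1 := by rw [h8]; exact Subgroup.card_bot
    rw [h9] at h2
    calc (Nat.card (ClassGroup (𝓞 K)) : ℝ) ≤ (d : ℝ) ^ (theta a + ε) *
          ((Pool.Agent.R345.IX.Reach K ((Real.log d) ^ a)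
            (Real.log d / Real.log (Real.log d))).ncard : ℝ) := h1
      _ ≤ (d : ℝ) ^ (theta a + ε) * ((1 : ℕ) : ℝ) := mul_le_mul_of_nonneg_left h2 hdd
      _ = _ := by rw [Nat.cast_one, mul_one]

/-- lower bound for the number of squarefree radicands -/
theorem many (X : ℕ) (hX : 2 ^ 20 ≤ X) (S : Finset ℕ) (hS : OddPrimes S)
    (hprod : (∏ q ∈ S, q) ^ 4 ≤ X) : (X : ℝ) / (32 * 3 ^ S.card) ≤
      (((Finset.Icc 2 X).filter (fun d => Squarefree d ∧ Inert S d)).card : ℝ) := by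
  have h1 := Pool.Agent.U684.QC.cnt_main X hX S hS hprod 1 5 (Or.inl rfl) (Or.inr rfl)
    (fun _ => -1) (fun q _ => Or.inr rfl)
  refine h1.trans ?_
  rw [← Set.ncard_coe_finset]
  have h2 : {m : ℕ | m ≤ X ∧ (((1 : ℤ) * (m : ℤ)) % 8 = 5 ∧ ¬ IsSquare ((1 : ℤ) * (m : ℤ))) ∧
      Squarefree m ∧ ∀ q ∈ S, jacobiSym ((1 : ℤ) * (m : ℤ)) q = -1} ⊆
      (((Finset.Icc 2 X).filter (fun d => Squarefree d ∧ Inert S d) : Finset ℕ) : Set ℕ) := by
    rintro m ⟨a1, ⟨a2, -⟩, a3, a4⟩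
    rw [one_mul] at a2
    rw [Finset.mem_coe, Finset.mem_filter, Finset.mem_Icc]
    refine ⟨⟨by omega, a1⟩, a3, by omega, fun q hq => ?_⟩
    have := a4 q hq
    rwa [one_mul] at this
  exact_mod_cast Set.ncard_le_ncard h2 (Finset.finite_toSet _)

/-- the odd primes up to `log X / (2 L)` have a small product -/
theorem admissible (L : ℕ) (hL : 4 ≤ L) (X : ℕ) (hX : 1 ≤ X) :
    (∏ q ∈ (Finset.Icc 3 ⌊Real.log X / (2 * L)⌋₊).filter Nat.Prime, q) ^ L ≤ X := by
  have hL0 : (0 : ℝ) < L := by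
    have : 0 < L := by omega
    exact_mod_cast this
  set n := ⌊Real.log X / (2 * L)⌋₊ with hn
  have h1 : (∏ q ∈ (Finset.Icc 3 n).filter Nat.Prime, q) ≤ 4 ^ n := by
    refine le_trans ?_ (primorial_le_four_pow n)
    unfold primorial
    apply Finset.prod_le_prod_of_subset_of_one_le'
    · intro q hq
      rw [mem_filter, mem_Icc] at hq
      rw [mem_filter, mem_range]
      exact ⟨by omega, hq.2⟩
    · intro q hq _
      rw [mem_filter] at hq
      exact hq.2.one_lt.le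
  have hX0 : (0 : ℝ) < X := by exact_mod_cast hX
  have hlog : 0 ≤ Real.log X := Real.log_nonneg (by exact_mod_cast hX)
  have h2 : (n : ℝ) ≤ Real.log X / (2 * L) := Nat.floor_le (by positivity)
  have h2' : (n : ℝ) * (2 * L) ≤ Real.log X := (le_div_iff₀ (by positivity)).1 h2
  have h3 : (((4 ^ n) ^ L : ℕ) : ℝ) ≤ (X : ℝ) := by
    push_cast
    rw [← Real.exp_log (show (0 : ℝ) < ((4 : ℝ) ^ n) ^ L by positivity), Real.log_pow,
      Real.log_pow, ← Real.le_log_iff_exp_le hX0]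
    have h4 : Real.log 4 ≤ 2 := by
      rw [show (4 : ℝ) = 2 ^ 2 by norm_num, Real.log_pow]
      have := Real.log_two_lt_d9
      push_cast
      linarith
    have hn0 : (0 : ℝ) ≤ n := Nat.cast_nonneg n
    calc (L : ℝ) * (n * Real.log 4) ≤ L * (n * 2) := by gcongr
      _ = n * (2 * L) := by ring
      _ ≤ _ := h2'
  have h4 : (4 ^ n) ^ L ≤ X := by exact_mod_cast h3
  exact (Nat.pow_le_pow_left h1 L).trans h4

/-- Radicands with all small primes inert: squarefree radicands (A), prime radicands (B), and the choice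
of all odd primes up to `log X / (2 L)` (C). -/
theorem result : ∃ (L : ℕ) (c β : ℝ), 4 ≤ L ∧ 0 < c ∧ 0 < β ∧
    (∀ a ε : ℝ, 1 < a → 0 < ε → ∃ δ C : ℝ, 0 < δ ∧ 0 < C ∧
      (∀ X : ℕ, 2 ^ 20 ≤ X → ∀ S : Finset ℕ, OddPrimes S → (∏ q ∈ S, q) ^ 4 ≤ X →
        (X : ℝ) / (32 * 3 ^ S.card) ≤
          (((Finset.Icc 2 X).filter (fun d => Squarefree d ∧ Inert S d)).card : ℝ) ∧
        (((Finset.Icc 2 X).filter (fun d => Squarefree d ∧ Inert S d ∧ ¬ Good a ε S d)).card : ℝ) ≤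
          C * (X : ℝ) ^ (1 - δ)) ∧
      (∀ B : ℝ, ∃ X0 : ℕ, ∀ X : ℕ, X0 ≤ X →
        ∃ q₀ : ℕ, (q₀ = 0 ∨ (q₀.Prime ∧ B * Real.log (Real.log X) < q₀)) ∧
        ∀ S : Finset ℕ, OddPrimes S → q₀ ∉ S → (∏ q ∈ S, q) ^ L ≤ X →
          ∃ Y : ℕ, X ≤ Y ^ L ∧ Y ≤ X ∧
            c * Y / (2 ^ S.card * Real.log Y) ≤
              (((Finset.Ioc Y (2 * Y)).filter (fun p => p.Prime ∧ Inert S p)).card : ℝ) ∧
            (Y : ℝ) ^ (1 - β / Real.log (Real.log Y)) ≤
              (((Finset.Ioc Y (2 * Y)).filter (fun p => p.Prime ∧ Inert S p)).card : ℝ) ∧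
            (((Finset.Ioc Y (2 * Y)).filter (fun p => p.Prime ∧ Inert S p ∧
              ¬ Good a ε S p)).card : ℝ) ≤ C * (Y : ℝ) ^ (1 - δ))) ∧
    (∀ X : ℕ, 1 ≤ X →
      (∏ q ∈ (Finset.Icc 3 ⌊Real.log X / (2 * L)⌋₊).filter Nat.Prime, q) ^ L ≤ X) := by
  obtain ⟨L, c, β, hL, hc, hβ, hmain⟩ := Pool.Agent.U684.RQ.primes_main
  refine ⟨L, c, β, hL, hc, hβ, ?_, fun X hX => admissible L hL X hX⟩
  intro a ε ha hε
  obtain ⟨δ₀, C₀, hδ₀, hC₀, h0⟩ := Pool.Agent.R345.IX.main a ha ε hε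
  have key : ∀ S : Finset ℕ, OddPrimes S → ∀ d : ℕ, Squarefree d → Inert S d → ¬ Good a ε S d →
      ¬ Pool.Agent.R345.IX.GoodI a (max 0 (1 / a - 1 / 2) + ε) d := by
    intro S hS d h1 h2 h3 h4
    exact h3 (good_of a ε S hS d h1 h2 h4)
  set δ : ℝ := min δ₀ 1 with hδ
  have hδ0 : 0 < δ := lt_min hδ₀ one_pos
  have hδ1 : δ ≤ 1 := min_le_right _ _
  have hδδ : δ ≤ δ₀ := min_le_left _ _
  have h1 : ∀ X : ℕ, (((Finset.Icc 2 X).filter (fun d => Squarefree d ∧
      ¬ Pool.Agent.R345.IX.GoodI a (max 0 (1 / a - 1 / 2) + ε) d)).card : ℝ) ≤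
      C₀ * (X : ℝ) ^ (1 - δ) := by
    intro X
    rcases Nat.eq_zero_or_pos X with h | h
    · subst h
      have : ((Finset.Icc 2 0).filter (fun d => Squarefree d ∧
        ¬ Pool.Agent.R345.IX.GoodI a (max 0 (1 / a - 1 / 2) + ε) d)).card = 0 := by simp
      rw [this, Nat.cast_zero]
      exact mul_nonneg hC₀.le (Real.rpow_nonneg le_rfl _)
    · refine (h0 X).trans ?_
      apply mul_le_mul_of_nonneg_left _ hC₀.le
      apply Real.rpow_le_rpow_of_exponent_le
      · exact_mod_cast h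
      · linarith
  refine ⟨δ, 2 * C₀, hδ0, by positivity, ?_, ?_⟩
  · intro X hX S hS hprod
    refine ⟨many X hX S hS hprod, ?_⟩
    have hsub : (Finset.Icc 2 X).filter (fun d => Squarefree d ∧ Inert S d ∧ ¬ Good a ε S d) ⊆
        (Finset.Icc 2 X).filter (fun d => Squarefree d ∧
          ¬ Pool.Agent.R345.IX.GoodI a (max 0 (1 / a - 1 / 2) + ε) d) := by
      intro d hd
      rw [Finset.mem_filter] at hd ⊢
      exact ⟨hd.1, hd.2.1, key S hS d hd.2.1 hd.2.2.1 hd.2.2.2⟩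
    have h2 := (Nat.cast_le (α := ℝ)).2 (Finset.card_le_card hsub)
    refine (h2.trans (h1 X)).trans ?_
    have h3 : 0 ≤ (X : ℝ) ^ (1 - δ) := Real.rpow_nonneg (Nat.cast_nonneg _) _
    nlinarith
  · intro B
    obtain ⟨X0, hX0⟩ := hmain B
    refine ⟨max X0 1, fun X hX => ?_⟩
    obtain ⟨q₀, hq₀, hS⟩ := hX0 X ((le_max_left _ _).trans hX)
    refine ⟨q₀, hq₀, fun S hSo hqS hSX => ?_⟩
    obtain ⟨Y, hY1, hY2, hY3, hY4⟩ := hS S hSo hqS hSX (fun _ => -1) (fun q _ => Or.inr rfl)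
    have hXpos : 1 ≤ X := (le_max_right _ _).trans hX
    have hYpos : 1 ≤ Y := by
      by_contra hcon
      have : Y = 0 := by omega
      rw [this, zero_pow (by omega)] at hY1
      omega
    refine ⟨Y, hY1, hY2, ?_, ?_, ?_⟩
    · refine hY3.trans ?_
      exact_mod_cast Finset.card_le_card (fun p hp => by
        rw [Finset.mem_filter] at hp ⊢
        exact ⟨hp.1, hp.2.1, hp.2.2⟩)
    · refine hY4.trans ?_
      exact_mod_cast Finset.card_le_card (fun p hp => by
        rw [Finset.mem_filter] at hp ⊢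
        exact ⟨hp.1, hp.2.1, hp.2.2⟩)
    · have hsub : (Finset.Ioc Y (2 * Y)).filter (fun p => p.Prime ∧ Inert S p ∧
          ¬ Good a ε S p) ⊆ (Finset.Icc 2 (2 * Y)).filter (fun d => Squarefree d ∧
            ¬ Pool.Agent.R345.IX.GoodI a (max 0 (1 / a - 1 / 2) + ε) d) := by
        intro p hp
        rw [Finset.mem_filter, Finset.mem_Ioc] at hp
        rw [Finset.mem_filter, Finset.mem_Icc]
        exact ⟨⟨hp.2.1.two_le, hp.1.2⟩, hp.2.1.squarefree,
          key S hSo p hp.2.1.squarefree hp.2.2.1 hp.2.2.2⟩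
      have h2 := (Nat.cast_le (α := ℝ)).2 (Finset.card_le_card hsub)
      refine (h2.trans (h1 (2 * Y))).trans ?_
      have h3 : (((2 * Y : ℕ)) : ℝ) ^ (1 - δ) ≤ 2 * (Y : ℝ) ^ (1 - δ) := by
        push_cast
        rw [Real.mul_rpow (by norm_num) (Nat.cast_nonneg _)]
        apply mul_le_mul_of_nonneg_right _ (Real.rpow_nonneg (Nat.cast_nonneg _) _)
        calc (2 : ℝ) ^ (1 - δ) ≤ 2 ^ (1 : ℝ) :=
              Real.rpow_le_rpow_of_exponent_le (by norm_num) (by linarith)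
          _ = 2 := Real.rpow_one 2
      calc C₀ * (((2 * Y : ℕ)) : ℝ) ^ (1 - δ) ≤ C₀ * (2 * (Y : ℝ) ^ (1 - δ)) := by gcongr
        _ = 2 * C₀ * (Y : ℝ) ^ (1 - δ) := by ring

end Pool.Agent.Results.MP_321647_nt.SmallPrimesInert
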