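import Pool.Agent.N39.RG.MainE
import Pool.Agent.H498R2.KlWeil

set_option autoImplicit false

/-! # Record prime gaps at the points of modular hyperbolas

Write `f(x) = log x (log₂ x)² log₄ x / (log₃ x)²` for the record size of the gaps between primes. Let `p` be a
large prime and `l₁(z) l₂(z) ≡ d` modulo `p` a hyperbola: `l₁`, `l₂` are affine linear forms in two variables
with independent linear parts modulo `p`, and `p` does not divide `d`; for example `z₁ z₂ ≡ d`. Every box of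
area at least `p ^ (3/2 + δ)` with sides between `p ^ δ` and `p`, in arbitrary position, contains integer points
`(z₁, z₂)` of the hyperbola such that `z₁`, `z₂`, the product `z₁ z₂` and all the monomials with bounded
coprime exponents are centres of record gaps; there are at least `p ^ (-δ)` times the expected number.

Method: Weil's bound for Kloosterman sums (library `H498R2`) and the criterion for families of vectors with small
exponential sums (library `N39.RG`). -/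

namespace Pool.Agent.Results.MP_3bc45c_nt.ModularHyperbolas

open Finset Filter
open Pool.Agent.N39.RG (Far fam)
open Pool.Agent.W147.PS (ev_pow)

/-- the record scale for gaps between primes -/
noncomputable def f (x : ℝ) : ℝ :=
  Real.log x * (Real.log (Real.log x)) ^ 2 * Real.log (Real.log (Real.log (Real.log x))) /
    (Real.log (Real.log (Real.log x))) ^ 2

section

variable {p : ℕ} [Fact p.Prime]

/-- the points of a hyperbola -/
noncomputable def pt (a b c : Fin 2 → ZMod p) (d : ZMod p) (n : (ZMod p)ˣ) (j : Fin 2) : ZMod p :=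
  if j = 0 then (b 1 * ((n : ZMod p) - c 0) - b 0 * (d * ((n⁻¹ : (ZMod p)ˣ) : ZMod p) - c 1)) /
    (a 0 * b 1 - a 1 * b 0)
  else (a 0 * (d * ((n⁻¹ : (ZMod p)ˣ) : ZMod p) - c 1) - a 1 * ((n : ZMod p) - c 0)) /
    (a 0 * b 1 - a 1 * b 0)

lemma pt_one (a b c : Fin 2 → ZMod p) (d : ZMod p) (hD : a 0 * b 1 - a 1 * b 0 ≠ 0) (n : (ZMod p)ˣ) :
    a 0 * pt a b c d n 0 + b 0 * pt a b c d n 1 + c 0 = n := by
  unfold pt
  simp only [if_true, one_ne_zero, if_false]
  rw [mul_div_assoc', mul_div_assoc', ← add_div, div_add' _ _ _ hD, div_eq_iff hD]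
  ring

lemma pt_two (a b c : Fin 2 → ZMod p) (d : ZMod p) (hD : a 0 * b 1 - a 1 * b 0 ≠ 0) (n : (ZMod p)ˣ) :
    a 1 * pt a b c d n 0 + b 1 * pt a b c d n 1 + c 1 = d * ((n⁻¹ : (ZMod p)ˣ) : ZMod p) := by
  unfold pt
  simp only [if_true, one_ne_zero, if_false]
  rw [mul_div_assoc', mul_div_assoc', ← add_div, div_add' _ _ _ hD, div_eq_iff hD]
  ring

lemma pt_mem (a b c : Fin 2 → ZMod p) (d : ZMod p) (hD : a 0 * b 1 - a 1 * b 0 ≠ 0) (n : (ZMod p)ˣ) :
    (a 0 * pt a b c d n 0 + b 0 * pt a b c d n 1 + c 0) *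
      (a 1 * pt a b c d n 0 + b 1 * pt a b c d n 1 + c 1) = d := by
  rw [pt_one a b c d hD, pt_two a b c d hD, mul_comm d, ← mul_assoc, ← Units.val_mul, mul_inv_cancel,
    Units.val_one, one_mul]

/-- exponential sums over a hyperbola -/
lemma bias (hp2 : p ≠ 2) (a b c : Fin 2 → ZMod p) (d : ZMod p) (hD : a 0 * b 1 - a 1 * b 0 ≠ 0)
    (hd : d ≠ 0) (α : Fin 2 → ZMod p) (hα : α ≠ 0) :
    ‖∑ n : (ZMod p)ˣ, (ZMod.stdAddChar (∑ j, α j * pt a b c d n j) : ℂ)‖ ≤ 2 * Real.sqrt p := by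
  classical
  have hp := (Fact.out : p.Prime)
  set D := a 0 * b 1 - a 1 * b 0 with hDdef
  set A : ZMod p := (α 0 * b 1 - α 1 * a 1) / D with hA
  set B : ZMod p := d * (α 1 * a 0 - α 0 * b 0) / D with hB
  set K : ZMod p := (α 0 * (b 0 * c 1 - b 1 * c 0) + α 1 * (a 1 * c 0 - a 0 * c 1)) / D with hK
  have e1 : ∀ n : (ZMod p)ˣ, ∑ j, α j * pt a b c d n j =
      K + (A * (n : ZMod p) + B * ((n⁻¹ : (ZMod p)ˣ) : ZMod p)) := by
    intro n
    rw [Fin.sum_univ_two]
    unfold pt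
    simp only [if_true, one_ne_zero, if_false]
    rw [hK, hA, hB, ← hDdef]
    field_simp
    ring
  have hprim : (ZMod.stdAddChar (N := p)).IsPrimitive := ZMod.isPrimitive_stdAddChar p
  have e2 : ∑ n : (ZMod p)ˣ, (ZMod.stdAddChar (∑ j, α j * pt a b c d n j) : ℂ) =
      ZMod.stdAddChar K *
        ∑ n : (ZMod p)ˣ, (ZMod.stdAddChar (A * (n : ZMod p) + B * ((n⁻¹ : (ZMod p)ˣ) : ZMod p)) : ℂ) := by
    rw [mul_sum]
    refine sum_congr rfl fun n _ => ?_
    rw [e1, AddChar.map_add_eq_mul]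
  rw [e2, norm_mul]
  have hK1 : ‖(ZMod.stdAddChar K : ℂ)‖ = 1 := AddChar.norm_apply _ _
  rw [hK1, one_mul]
  have hs1 : (1 : ℝ) ≤ 2 * Real.sqrt p := by
    have h1 : (1 : ℝ) ≤ Real.sqrt p := by
      rw [Real.one_le_sqrt]
      exact_mod_cast hp.one_le
    linarith
  -- linear sums over the units
  have hlin : ∀ C : ZMod p, C ≠ 0 → ∑ n : (ZMod p)ˣ, (ZMod.stdAddChar (C * (n : ZMod p)) : ℂ) = -1 := by
    intro C hC
    have h0 : ∑ x : ZMod p, (ZMod.stdAddChar (C * x) : ℂ) = 0 := by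
      have h1 := AddChar.sum_eq_zero_of_ne_one (ψ := (ZMod.stdAddChar (N := p)).mulShift C) (hprim hC)
      simpa [AddChar.mulShift_apply] using h1
    have h1 : ∑ x : ZMod p, (ZMod.stdAddChar (C * x) : ℂ) =
        ZMod.stdAddChar (C * 0) + ∑ x ∈ univ.erase (0 : ZMod p), (ZMod.stdAddChar (C * x) : ℂ) :=
      (add_sum_erase univ _ (mem_univ 0)).symm
    have h2 : ∑ x ∈ univ.erase (0 : ZMod p), (ZMod.stdAddChar (C * x) : ℂ) =
        ∑ n : (ZMod p)ˣ, (ZMod.stdAddChar (C * (n : ZMod p)) : ℂ) := by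
      symm
      refine sum_bij (fun (n : (ZMod p)ˣ) _ => (n : ZMod p)) ?_ ?_ ?_ ?_
      · intro n _
        rw [mem_erase]
        exact ⟨n.ne_zero, mem_univ _⟩
      · intro x _ y _ h
        exact Units.ext h
      · intro x hx
        exact ⟨Units.mk0 x (ne_of_mem_erase hx), mem_univ _, rfl⟩
      · intro n _
        rfl
    rw [h2, h0, mul_zero, AddChar.map_zero_eq_one] at h1
    linear_combination -h1
  by_cases hA0 : A = 0
  · by_cases hB0 : B = 0
    · exfalso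
      have f1 : α 0 * b 1 - α 1 * a 1 = 0 := by
        rw [hA, div_eq_zero_iff] at hA0
        exact hA0.resolve_right hD
      have f2 : α 1 * a 0 - α 0 * b 0 = 0 := by
        rw [hB, div_eq_zero_iff] at hB0
        exact (mul_eq_zero.mp (hB0.resolve_right hD)).resolve_left hd
      apply hα
      have g0 : α 0 * D = 0 := by rw [hDdef]; linear_combination a 0 * f1 + a 1 * f2
      have g1 : α 1 * D = 0 := by rw [hDdef]; linear_combination b 0 * f1 + b 1 * f2
      funext j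
      fin_cases j
      · exact (mul_eq_zero.mp g0).resolve_right hD
      · exact (mul_eq_zero.mp g1).resolve_right hD
    · have h1 : ∑ n : (ZMod p)ˣ, (ZMod.stdAddChar (A * (n : ZMod p) + B * ((n⁻¹ : (ZMod p)ˣ) : ZMod p)) : ℂ) =
          -1 := by
        rw [← hlin B hB0]
        refine Fintype.sum_equiv (Equiv.inv _) _ _ fun n => ?_
        rw [hA0, zero_mul, zero_add]
        rfl
      rw [h1, norm_neg, norm_one]
      exact hs1
  · by_cases hB0 : B = 0
    · have h1 : ∑ n : (ZMod p)ˣ, (ZMod.stdAddChar (A * (n : ZMod p) + B * ((n⁻¹ : (ZMod p)ˣ) : ZMod p)) : ℂ) =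
          -1 := by
        rw [← hlin A hA0]
        refine sum_congr rfl fun n _ => ?_
        rw [hB0, zero_mul, add_zero]
      rw [h1, norm_neg, norm_one]
      exact hs1
    · have h1 := Pool.Agent.H498R2.Kl.kloosterman_units_le (F := ZMod p) (by
        rw [ZMod.ringChar_zmod_n]; exact hp2) hprim hA0 hB0
      rw [ZMod.card] at h1
      exact h1

end

/-- Let `E ≥ 0` and `0 < δ ≤ 1`. There are `κ > 0` and `p₀` such that for every prime `p ≥ p₀`, all integers
`a j, b j, c j` (`j < 2`) and `d` with `a 0 b 1 - a 1 b 0` and `d` not divisible by `p`, and every box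
`(M 0, M 0 + L 0] × (M 1, M 1 + L 1]` with `p ^ δ ≤ L j ≤ p` and `L 0 L 1 ≥ p ^ (3/2 + δ)`: there are at least
`L 0 L 1 / p ^ (1 + δ)` integer points `z` in the box with
`(a 0 z 0 + b 0 z 1 + c 0) (a 1 z 0 + b 1 z 1 + c 1) ≡ d` modulo `p` such that for all coprime exponents
`i, j ≤ E` every integer at distance at most `κ f(p)` from `z 0 ^ i z 1 ^ j` has a prime factor at most
`p ^ δ`. -/
theorem result (E : ℕ) (δ : ℝ) (hδ : 0 < δ) (hδ1 : δ ≤ 1) : ∃ κ : ℝ, 0 < κ ∧ ∃ p₀ : ℕ,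
    ∀ p : ℕ, p.Prime → p₀ ≤ p → ∀ (a b c : Fin 2 → ℤ) (d : ℤ), ¬ (p : ℤ) ∣ a 0 * b 1 - a 1 * b 0 →
      ¬ (p : ℤ) ∣ d → ∀ (M : Fin 2 → ℤ) (L : Fin 2 → ℕ), (∀ j, (p : ℝ) ^ δ ≤ L j ∧ L j ≤ p) →
      (p : ℝ) ^ (3 / 2 + δ) ≤ (L 0 : ℝ) * L 1 →
      (L 0 : ℝ) * L 1 / (p : ℝ) ^ (1 + δ) ≤
        ({z : Fin 2 → ℤ | (∀ j, M j < z j ∧ z j ≤ M j + L j) ∧
          (p : ℤ) ∣ (a 0 * z 0 + b 0 * z 1 + c 0) * (a 1 * z 0 + b 1 * z 1 + c 1) - d ∧
          ∀ i j : ℕ, i ≤ E → j ≤ E → Nat.Coprime i j →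
            ∀ m : ℤ, |(m : ℝ) - (z 0 : ℝ) ^ i * (z 1 : ℝ) ^ j| ≤ κ * f p →
              ∃ l : ℕ, l.Prime ∧ (l : ℝ) ≤ (p : ℝ) ^ δ ∧ (l : ℤ) ∣ m}.ncard : ℝ) := by
  classical
  obtain ⟨κ, hκ, p₁, h⟩ := Pool.Agent.N39.RG.mainE 2 E (δ / 2) (by linarith) (by linarith)
  have tc : Tendsto (fun q : ℕ => (q : ℝ)) atTop atTop := tendsto_natCast_atTop_atTop
  have hev := (tc.eventually (ev_pow (1 - δ / 2) 1 4 (by linarith))).and
    (tc.eventually (ev_pow (δ / 2) δ 2 (by linarith)))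
  obtain ⟨p₂, hp₂⟩ := eventually_atTop.mp hev
  refine ⟨κ, hκ, max p₁ (max p₂ 3), ?_⟩
  intro p hp hpp a b c d hD hd M L hL hV
  have : Fact p.Prime := ⟨hp⟩
  obtain ⟨g1, g2⟩ := hp₂ p ((le_max_left _ _).trans ((le_max_right _ _).trans hpp))
  have hp3 : 3 ≤ p := (le_max_right _ _).trans ((le_max_right _ _).trans hpp)
  have hp3R : (3 : ℝ) ≤ p := by exact_mod_cast hp3
  have hp1 : (1 : ℝ) < p := by linarith
  have hp0 : (0 : ℝ) < p := by linarith
  have hmono : ∀ x y : ℝ, x ≤ y → (p : ℝ) ^ x ≤ (p : ℝ) ^ y := fun x y h =>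
    Real.rpow_le_rpow_of_exponent_le hp1.le h
  rw [Real.rpow_one] at g1
  set a' : Fin 2 → ZMod p := fun j => (a j : ZMod p) with ha'
  set b' : Fin 2 → ZMod p := fun j => (b j : ZMod p) with hb'
  set c' : Fin 2 → ZMod p := fun j => (c j : ZMod p) with hc'
  have hD' : a' 0 * b' 1 - a' 1 * b' 0 ≠ 0 := by
    intro h0
    apply hD
    rw [← ZMod.intCast_zmod_eq_zero_iff_dvd]
    push_cast
    exact h0
  have hd' : (d : ZMod p) ≠ 0 := by
    rw [Ne, ZMod.intCast_zmod_eq_zero_iff_dvd]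
    exact hd
  have hcardU : ((univ : Finset (ZMod p)ˣ).card : ℝ) = (p : ℝ) - 1 := by
    rw [card_univ, ZMod.card_units_eq_totient, Nat.totient_prime hp]
    have := hp.one_le
    push_cast [Nat.cast_sub this]
    ring
  have hsq : Real.sqrt p = (p : ℝ) ^ (1 / 2 : ℝ) := Real.sqrt_eq_rpow _
  have key := h p ((le_max_left _ _).trans hpp) (1 / 2 - δ / 2) (ZMod p)ˣ univ
    (fun n j => pt a' b' c' (d : ZMod p) n j) univ_nonempty (by
      intro α hα
      refine (bias (by omega) a' b' c' d hD' hd' α hα).trans ?_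
      rw [hcardU, hsq]
      have h1 : 2 * (p : ℝ) ^ (1 / 2 : ℝ) = (2 * (p : ℝ) ^ (1 - δ / 2)) * (p : ℝ) ^ (-(1 / 2 - δ / 2)) := by
        rw [mul_assoc, ← Real.rpow_add hp0]
        congr 2
        ring
      rw [h1]
      apply mul_le_mul_of_nonneg_right _ (by positivity)
      linarith) M L (fun j => (hL j).2) (fun j => (hmono _ _ (by linarith)).trans (hL j).1) (by
      rw [Fin.prod_univ_two]
      refine le_trans (hmono _ _ ?_) hV
      push_cast
      linarith)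
  set F := (fam univ (fun n j => pt a' b' c' (d : ZMod p) n j) M L).filter (fun z =>
    ∀ e : Fin 2 → ℕ, (∀ i, e i ≤ E) → Finset.univ.gcd e = 1 →
        Far (∏ i, z.2 i ^ e i) (κ * Pool.Agent.W147.PS.ff p) ((p : ℝ) ^ (δ / 2))) with hF
  set Y := {z : Fin 2 → ℤ | (∀ j, M j < z j ∧ z j ≤ M j + L j) ∧
          (p : ℤ) ∣ (a 0 * z 0 + b 0 * z 1 + c 0) * (a 1 * z 0 + b 1 * z 1 + c 1) - d ∧
          ∀ i j : ℕ, i ≤ E → j ≤ E → Nat.Coprime i j →
            ∀ m : ℤ, |(m : ℝ) - (z 0 : ℝ) ^ i * (z 1 : ℝ) ^ j| ≤ κ * f p →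
              ∃ l : ℕ, l.Prime ∧ (l : ℝ) ≤ (p : ℝ) ^ δ ∧ (l : ℤ) ∣ m} with hY
  have hYfin : Y.Finite := by
    apply Set.Finite.subset (Fintype.piFinset fun j => Ioc (M j) (M j + L j)).finite_toSet
    intro x hx
    rw [mem_coe, Fintype.mem_piFinset]
    intro j
    rw [mem_Ioc]
    exact hx.1 j
  have hle : F.card ≤ Y.ncard := by
    rw [← Set.ncard_coe_finset]
    refine Set.ncard_le_ncard_of_injOn (fun z => z.2) ?_ ?_ hYfin
    · intro z hz
      rw [mem_coe, hF, mem_filter] at hz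
      obtain ⟨hz1, hz2⟩ := hz
      unfold fam at hz1
      rw [mem_sigma, Fintype.mem_piFinset] at hz1
      have hz3 := hz1.2
      simp only [mem_filter, mem_Ioc] at hz3
      refine ⟨fun j => (hz3 j).1, ?_, ?_⟩
      · rw [← ZMod.intCast_zmod_eq_zero_iff_dvd]
        push_cast
        rw [(hz3 0).2, (hz3 1).2]
        have := pt_mem a' b' c' (d : ZMod p) hD' z.1
        simp only [ha', hb', hc'] at this ⊢
        rw [this, sub_self]
      · intro i j hi hj hij m hm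
        have h1 := hz2 (fun k => if k = 0 then i else j) (by
          intro k
          fin_cases k
          · simpa using hi
          · simpa using hj) (by
          rw [show (Finset.univ : Finset (Fin 2)) = {0, 1} from rfl, Finset.gcd_insert,
            Finset.gcd_singleton]
          simp only [if_true, one_ne_zero, if_false, normalize_eq]
          exact hij)
        obtain ⟨l, hl, hl2, hl3⟩ := h1 m (by
          rw [Fin.prod_univ_two]
          simp only [if_true, one_ne_zero, if_false]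
          push_cast
          exact hm)
        exact ⟨l, hl, hl2.trans (hmono _ _ (by linarith)), hl3⟩
    · intro z hz w hw hzw
      rw [mem_coe, hF, mem_filter] at hz hw
      have hz1 := hz.1
      have hw1 := hw.1
      unfold fam at hz1 hw1
      rw [mem_sigma, Fintype.mem_piFinset] at hz1 hw1
      have hz3 := hz1.2
      have hw3 := hw1.2
      simp only [mem_filter, mem_Ioc] at hz3 hw3
      have hzw' : z.2 = w.2 := hzw
      have h1 := pt_one a' b' c' (d : ZMod p) hD' z.1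
      have h2 := pt_one a' b' c' (d : ZMod p) hD' w.1
      rw [← (hz3 0).2, ← (hz3 1).2, hzw', (hw3 0).2, (hw3 1).2, h2] at h1
      have h3 : z.1 = w.1 := Units.ext h1.symm
      obtain ⟨z1, z2⟩ := z
      obtain ⟨w1, w2⟩ := w
      simp only at h3 hzw'
      subst h3
      subst hzw'
      rfl
  have hle' : (F.card : ℝ) ≤ (Y.ncard : ℝ) := by exact_mod_cast hle
  refine le_trans ?_ (key.trans hle')
  rw [hcardU, Fin.prod_univ_two]
  have hLL : 0 ≤ (L 0 : ℝ) * L 1 := by positivity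
  have e3 : (p : ℝ) ^ (1 + δ) = p * (p : ℝ) ^ δ := by
    rw [Real.rpow_add hp0, Real.rpow_one]
  have e4 : (p : ℝ) ^ (-(δ / 2)) * (p : ℝ) ^ (δ / 2) = 1 := by
    rw [← Real.rpow_add hp0]; simp
  have hq : (0 : ℝ) < (p : ℝ) ^ (δ / 2) := by positivity
  have hqn : (0 : ℝ) < (p : ℝ) ^ (-(δ / 2)) := by positivity
  rw [e3, div_le_iff₀ (by positivity)]
  have h5 : (1 : ℝ) ≤ (p : ℝ) ^ (-(δ / 2)) * (((p : ℝ) - 1) / p * (p : ℝ) ^ δ) := by
    have h6 : (1 : ℝ) / 2 ≤ ((p : ℝ) - 1) / p := by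
      rw [div_le_div_iff₀ (by norm_num) hp0]
      linarith
    calc (1 : ℝ) = (p : ℝ) ^ (-(δ / 2)) * (1 / 2 * (2 * (p : ℝ) ^ (δ / 2))) := by
          linear_combination -e4
      _ ≤ (p : ℝ) ^ (-(δ / 2)) * (((p : ℝ) - 1) / p * (p : ℝ) ^ δ) := by gcongr
  calc (L 0 : ℝ) * L 1 = (L 0 * L 1) * 1 := (mul_one _).symm
    _ ≤ (L 0 * L 1) * ((p : ℝ) ^ (-(δ / 2)) * (((p : ℝ) - 1) / p * (p : ℝ) ^ δ)) :=
        mul_le_mul_of_nonneg_left h5 hLL
    _ = _ := by field_simp

end Pool.Agent.Results.MP_3bc45c_nt.ModularHyperbolas
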