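import Pool.Agent.U497.RT.Tup

/-!
# The gaps in a union of `K` random translates of the set of the primes are at most `C (log X) ^ 2 / K`

For `K` independent random sets like the primes, or for the union of `K` translates of one random set (Cramér's model), the largest gap
in the union up to `X` has the order `(log X) ^ 2 / K`; for `K = 1` and the primes themselves this is Cramér's conjecture. Here this upper
bound is proved for the union of `K` random translates `P + t_1, …, P + t_K` of the set `P` of the primes, in the whole range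
`K ≥ C log X`: with the exception of a proportion `X ^ (-B)` of all the tuples `(t_1, …, t_K)` of integers `1 ≤ t_i ≤ X`, ALL the windows
`(n, n + h]` with `h ≥ C (log X) ^ 2 / K` and `3 X ≤ n ≤ X ^ (1 + δ)` contain an element of the union. In other words: prime-free
windows of this length never occur at all the `K` places `n - t_1, …, n - t_K` at once. For `K = C log X` the gaps are at most `log X`; for
`K = C (log X) ^ 2` there are no gaps (`h = 1`).

Proof (`Pool/Agent/U497/RT`): by Hoheisel's theorem (in the library) and the second moment of the number of primes in windows of length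
`h ≤ log X` (from a sieve bound for prime pairs, averaged), a window of length `h` in ANY interval of length `Y ^ (1 - δ)` near `Y`
contains a prime with a probability `≥ c h / log Y`.
-/

set_option autoImplicit false

namespace Pool.Agent.Results.MP_3bc45c_nt.RandomTranslates

/-- The union of the translates `P + t i` of the set `P` of the primes. -/
def Translates {K : ℕ} (t : Fin K → ℕ) : Set ℕ := {m : ℕ | ∃ (p : ℕ) (i : Fin K), p.Prime ∧ m = p + t i}

/-- `Q` has no gap of length `h` from `a` to `b`: each window `(n, n + h]` with `a ≤ n ≤ b` contains an element of `Q`. -/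
def NoGap (Q : Set ℕ) (a b : ℝ) (h : ℕ) : Prop := ∀ n : ℕ, a ≤ n → (n : ℝ) ≤ b → ∃ m ∈ Q, n < m ∧ m ≤ n + h

/-- **Theorem.** -/
theorem result (B : ℝ) :
    ∃ δ C : ℝ, 0 < δ ∧ 0 < C ∧ ∃ X₀ : ℕ, ∀ X K h : ℕ, X₀ ≤ X → C * Real.log X ≤ K → C * Real.log X ^ 2 ≤ K * h →
      ({t : Fin K → ℕ | (∀ i, 1 ≤ t i ∧ t i ≤ X) ∧ ¬ NoGap (Translates t) (3 * X) ((X : ℝ) ^ (1 + δ)) h}.ncard : ℝ) ≤
        (X : ℝ) ^ K / (X : ℝ) ^ B := by
  classical
  obtain ⟨δ, C, hδ, hC, X₀, h1⟩ := Pool.Agent.U497.RT.tuples B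
  refine ⟨δ, C, hδ, hC, X₀ + 1, fun X K h hX hK hKh => ?_⟩
  have h2 := h1 X K h (by omega) hK hKh
  have hXr : (0 : ℝ) < X := by exact_mod_cast (by omega : 0 < X)
  have h3 : (X : ℝ) ^ K / (X : ℝ) ^ B = (X : ℝ) ^ K * (X : ℝ) ^ (-B) := by
    rw [Real.rpow_neg hXr.le, div_eq_mul_inv]
  rw [h3]
  refine le_trans ?_ h2
  rw [← Set.ncard_coe_finset]
  have h4 : {t : Fin K → ℕ | (∀ i, 1 ≤ t i ∧ t i ≤ X) ∧ ¬ NoGap (Translates t) (3 * X) ((X : ℝ) ^ (1 + δ)) h} ⊆
      (((Fintype.piFinset (fun _ : Fin K => Finset.Icc 1 X)).filter (fun t => ∃ n : ℕ, 3 * X ≤ n ∧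
        (n : ℝ) ≤ (X : ℝ) ^ (1 + δ) ∧ ∀ (i : Fin K) (p : ℕ), p.Prime → n < p + t i → ¬ p + t i ≤ n + h) :
        Finset (Fin K → ℕ)) : Set (Fin K → ℕ)) := by
    rintro t ⟨ht1, ht2⟩
    rw [Finset.mem_coe, Finset.mem_filter, Fintype.mem_piFinset]
    refine ⟨fun i => Finset.mem_Icc.2 (ht1 i), ?_⟩
    by_contra hcon
    apply ht2
    intro n hn1 hn2
    by_contra hcon2
    apply hcon
    refine ⟨n, by exact_mod_cast hn1, hn2, fun i p hp h5 h6 => hcon2 ⟨p + t i, ⟨p, i, hp, rfl⟩, h5, h6⟩⟩
  exact_mod_cast Set.ncard_le_ncard h4 (Finset.finite_toSet _)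

end Pool.Agent.Results.MP_3bc45c_nt.RandomTranslates
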