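import Pool.Agent.TH882.R9

/-!
# Exact patterns of consecutive primes together with prime values of shifted polynomials

For every `m` there is `K` such that for every set `A` of at least `K` positive integers and all integral
polynomials `g 1, …, g r` of positive degree with positive leading coefficients there is `D` with the following
property, for every `κ`. For all vectors `k` of integers `1 ≤ k j ≤ κ x ^ (deg (g j))` without local obstruction,
except a proportion tending to zero as `x → ∞`, there is a subset `H` of `A` with `m` elements such that for at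
least `x / (log x) ^ D` of the integers `n < x` the numbers `n + h`, `h ∈ H`, are CONSECUTIVE primes and moreover all
`k j + g j (n)` are primes.

So the patterns of `m` consecutive primes which are known to exist inside an arbitrary large set `A` can be
combined with any number of further polynomial conditions, for almost all constants `k`: for instance with
`n ^ 2 + k` prime, or `n ^ 3 + k 1` and `2 n ^ 2 + n + k 2` prime; the number of the `n` found is correct up to a
power of the logarithm. For `m = 2` and each `r`: infinitely many gaps `p' - p` between consecutive primes from the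
differences of `A`, with all `k j + g j (p - h)` prime.

Library `TH882` (the Maynard-Tao sieve with a bilinear form of the circle method for the exceptional `k`).
-/

set_option autoImplicit false

open Finset Filter Topology Polynomial

namespace Pool.Agent.Results.MP_3ec731_nt.PatternsAndPolynomials

/-- No local obstruction: for every prime `l` there is a residue class `n` modulo `l` for which no
`n + a`, `a ∈ A`, and no `k j + g j (n)` is divisible by `l`. -/
def LocallyPossible {r : ℕ} (g : Fin r → ℤ[X]) (A : Finset ℕ) (k : Fin r → ℕ) : Prop :=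
  ∀ l : ℕ, l.Prime → ∃ n : ℤ, (∀ a ∈ A, ¬ (l : ℤ) ∣ n + a) ∧ ∀ j, ¬ (l : ℤ) ∣ (k j : ℤ) + (g j).eval n

/-- All `n + h`, `h ∈ H`, are prime, and no other integer between `n + min H` and `n + max H` is
prime. -/
def Consecutive (H : Finset ℕ) (n : ℕ) : Prop := (∀ h ∈ H, (n + h).Prime) ∧
  ∀ w, (∃ h ∈ H, h ≤ w) → (∃ h ∈ H, w ≤ h) → (n + w).Prime → w ∈ H

/-- The number of the integers `1 ≤ n < x` for which the `n + h`, `h ∈ H`, are consecutive primes and
all `k j + g j (n)` are primes. -/
noncomputable def count {r : ℕ} (g : Fin r → ℤ[X]) (H : Finset ℕ) (k : Fin r → ℕ) (x : ℕ) : ℕ :=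
  {n : ℕ | (1 ≤ n ∧ n < x) ∧ Consecutive H n ∧
    ∀ j, ∃ p : ℕ, p.Prime ∧ (p : ℤ) = (k j : ℤ) + (g j).eval (n : ℤ)}.ncard

/-- The vectors `k` of integers `1 ≤ k j ≤ κ x ^ (deg (g j))` without local obstruction, but such that for no
subset `H` of `A` with `m` elements the count is at least `x / (log x) ^ D`. -/
def exceptions {r : ℕ} (g : Fin r → ℤ[X]) (A : Finset ℕ) (m D κ x : ℕ) : Set (Fin r → ℕ) :=
  {k : Fin r → ℕ | (∀ j, 1 ≤ k j ∧ k j ≤ κ * x ^ (g j).natDegree) ∧ LocallyPossible g A k ∧
    ¬ ∃ H ⊆ A, H.card = m ∧ (x : ℝ) / Real.log x ^ D ≤ (count g H k x : ℝ)}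

lemma count_eq {r : ℕ} (g : Fin r → ℤ[X]) (H : Finset ℕ) (k : Fin r → ℕ) (x : ℕ) :
    count g H k x = (Pool.Agent.TH882.RQ.CQ g H (fun j => (k j : ℤ)) x).card := by
  classical
  unfold count Pool.Agent.TH882.RQ.CQ
  rw [← Set.ncard_coe_finset]
  congr 1
  ext n
  simp only [Set.mem_ofPred_eq, coe_filter, mem_Ico]
  refine and_congr Iff.rfl (and_congr Iff.rfl (forall_congr' fun j => ?_))
  rw [one_mul]
  constructor
  · rintro ⟨p, hp, he⟩
    rw [← he, Int.toNat_natCast]
    exact hp
  · intro h
    refine ⟨_, h, ?_⟩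
    rw [Int.toNat_of_nonneg]
    by_contra hc
    push Not at hc
    rw [Int.toNat_of_nonpos hc.le] at h
    exact Nat.not_prime_zero h

theorem result (m : ℕ) : ∃ K : ℕ, ∀ (r : ℕ) (g : Fin r → ℤ[X]), (∀ j, 1 ≤ (g j).natDegree) →
    (∀ j, 0 < (g j).leadingCoeff) → ∀ A : Finset ℕ, K ≤ A.card → (∀ a ∈ A, 1 ≤ a) →
    ∃ D : ℕ, ∀ κ : ℕ, Tendsto (fun x : ℕ =>
      ((exceptions g A m D κ x).ncard : ℝ) / ∏ j, (x : ℝ) ^ (g j).natDegree) atTop (𝓝 0) := by
  classical
  obtain ⟨K, hK, hfin⟩ := Pool.Agent.TH882.RQ.finQ m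
  refine ⟨4 * (m + 1) * K, ?_⟩
  intro r g hd hl A hA hA1
  obtain ⟨U, hU1, hU2⟩ := exists_subset_card_eq hA
  obtain ⟨D, h⟩ := hfin g hd hl U hU2 (fun u hu => hA1 u (hU1 hu))
  refine ⟨D, fun κ => ?_⟩
  refine squeeze_zero (fun x => by positivity) (fun x => ?_) (h κ)
  apply div_le_div_of_nonneg_right _ (by positivity)
  rw [Nat.cast_le, ← Set.ncard_coe_finset]
  apply Set.ncard_le_ncard _ (finite_toSet _)
  rintro k ⟨h1, h2, h3⟩
  unfold Pool.Agent.TH882.RQ.ExQ
  rw [mem_coe, mem_filter, Fintype.mem_piFinset]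
  refine ⟨fun j => mem_Icc.2 (h1 j), ?_, ?_⟩
  · intro l hl'
    obtain ⟨n, hn, hn2⟩ := h2 l hl'
    refine ⟨n, fun u hu => hn u (hU1 hu), fun j => ?_⟩
    rw [one_mul]
    exact hn2 j
  · rintro ⟨H, hH1, hH2, hH3⟩
    refine h3 ⟨H, hH1.trans hU1, hH2, ?_⟩
    rw [count_eq]
    exact hH3

end Pool.Agent.Results.MP_3ec731_nt.PatternsAndPolynomials
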