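import Mathlib
import Pool.Agent.U236.HG5

set_option autoImplicit false
set_option linter.unusedSectionVars false

/-!
# Fourth harmonic points in projective planes of odd order

A projective plane of order `n` is a Steiner system `S(n ^ 2 + n + 1, n + 1, 2)`. The fourth harmonic
point of a point `x` depends on the auxiliary points used in its construction. We bound from below how
often two constructions disagree: for a centre and an axis, for an axis, and in the whole plane.
-/

namespace Pool.Agent.Results.MP_409a13_co.HarmonicGap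

open Configuration Configuration.ProjectivePlane
open scoped Classical

noncomputable section

variable {P : Type} (L : Type) [Membership P L]

/-- `p`, `q`, `r` lie on a line. -/
def Col (p q r : P) : Prop := ∃ l : L, p ∈ l ∧ q ∈ l ∧ r ∈ l

variable {L}

/-- `u` is the fourth harmonic point of `x` for the centre `C` and the axis `a`, constructed with the
points `s` and `t` of `a`: if `z` is the point of `C x` on `a`, then `y = x s ∩ C t`,
`w = y z ∩ C s` and `u = w t ∩ C x`. (The quadrangle `y, t, s, w` has the diagonal points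
`C = y t ∩ s w` and `z = y w ∩ t s`; the sides `y s` and `t w` meet the line `C z` in `x` and `u`.) -/
def Fourth (a : L) (C x s t u : P) : Prop :=
  ∃ z y w : P, z ∈ a ∧ Col L C x z ∧ Col L x s y ∧ Col L C t y ∧ Col L y z w ∧ Col L C s w ∧
    Col L w t u ∧ Col L C x u

/-- The triples `x, s, t` for which the construction is carried out: `x ≠ C` is not on `a`, and `s`,
`t` are two points of `a` that are not on the line `C x`. -/
def Proper (a : L) (C x s t : P) : Prop :=
  x ∉ a ∧ x ≠ C ∧ s ∈ a ∧ t ∈ a ∧ s ≠ t ∧ ¬ Col L C x s ∧ ¬ Col L C x t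

/-- `σ` is a collineation. -/
def Collineation (L : Type) [Membership P L] (σ : Equiv.Perm P) : Prop :=
  ∀ p q r, Col L p q r ↔ Col L (σ p) (σ q) (σ r)

/-- `σ` is an involutory homology with centre `C` and axis `a`: a collineation of order two that
fixes the points of `a` and the lines through `C`. -/
def InvHomology (a : L) (C : P) (σ : Equiv.Perm P) : Prop :=
  Collineation L σ ∧ (∀ p, p ∈ a → σ p = p) ∧ (∀ p, Col L C p (σ p)) ∧ (∀ p, σ (σ p) = p) ∧ σ ≠ 1

/-- `a` is a translation line: any point off `a` is mapped to any other one by an elation with axis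
`a`, i.e. by a collineation that fixes the points of `a` and the lines through some point `f` of
`a`. -/
def TranslationLine (P : Type) {L : Type} [Membership P L] (a : L) : Prop :=
  ∀ x y : P, x ∉ a → y ∉ a → ∃ σ : Equiv.Perm P, Collineation L σ ∧ (∀ p, p ∈ a → σ p = p) ∧
    (∃ f : P, f ∈ a ∧ ∀ p, Col L f p (σ p)) ∧ σ x = y

variable [Fintype P]

/-- The disagreements for the axis `a` and the centre `C`: the `(x, (s, t), (s', t'))` such that the
fourth harmonic points of `x` constructed with `s, t` and with `s', t'` are different. -/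
def dis (a : L) (C : P) : Finset (P × (P × P) × (P × P)) :=
  Finset.univ.filter fun q => Proper a C q.1 q.2.1.1 q.2.1.2 ∧ Proper a C q.1 q.2.2.1 q.2.2.2 ∧
    ¬ ∃ u, Fourth a C q.1 q.2.1.1 q.2.1.2 u ∧ Fourth a C q.1 q.2.2.1 q.2.2.2 u

/-! ### Comparison with the library -/

section

open Pool.Agent.N367.PPD Pool.Agent.U236.HG

variable [ProjectivePlane P L] [Fintype L]

theorem col_iff {p q r : P} (h : p ≠ q) : Col L p q r ↔ r ∈ jn L p q := by
  constructor
  · rintro ⟨l, h1, h2, h3⟩
    rw [← eq_jn h h1 h2]; exact h3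
  · intro h1
    exact ⟨jn L p q, jn_left h, jn_right h, h1⟩

theorem proper_iff {a : L} {C x : P} (hC : C ∉ a) {i : P × P} : Proper a C x i.1 i.2 ↔
    x ∈ Pt a C ∧ i ∈ Ix a (dr a C x) := by
  constructor
  · rintro ⟨h1, h2, h3, h4, h5, h6, h7⟩
    have hx : x ∈ Pt a C := (mem_Pt a C).2 ⟨h1, h2.symm⟩
    have ox := on_of hC hx
    rw [col_iff h2.symm] at h6 h7
    exact ⟨hx, (mem_Ix ox.αa).2 ⟨ox.αa, h3, h4, fun h => h6 (h ▸ ox.α_mem),
      fun h => h7 (h ▸ ox.α_mem), h5⟩⟩
  · rintro ⟨hx, hi⟩
    have ox := on_of hC hx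
    have htr := tri_of hC hx hi
    refine ⟨ox.pa, ox.pC.symm, htr.sa, htr.ta, htr.st, ?_, ?_⟩
    · rw [col_iff ox.pC, ox.jn_eq]
      exact fun h => htr.zs (dir_uniq hC htr.za htr.sa h).symm
    · rw [col_iff ox.pC, ox.jn_eq]
      exact fun h => htr.zt (dir_uniq hC htr.za htr.ta h).symm

theorem fourth_iff {a : L} {C x : P} (hC : C ∉ a) (hx : x ∈ Pt a C) {i : P × P}
    (hi : i ∈ Ix a (dr a C x)) {u : P} : Fourth a C x i.1 i.2 u ↔ u = fi a C x i := by
  have ox := on_of hC hx
  have htr := tri_of hC hx hi
  have o1 := on1 ox htr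
  have o2 := on2 ox htr
  have o3 := on3 ox htr
  have hCt := ne_of hC htr.ta
  have hCs := ne_of hC htr.sa
  have hxs := ne_of ox.pa htr.sa
  constructor
  · rintro ⟨z, y, w, h1, h2, h3, h4, h5, h6, h7, h8⟩
    rw [col_iff ox.pC] at h2 h8
    rw [ox.jn_eq] at h2 h8
    have hz := dir_uniq hC htr.za h1 h2
    subst hz
    rw [col_iff hxs] at h3
    rw [col_iff hCt] at h4
    rw [col_iff hCs] at h6
    have hy := ox.sp_eq htr.sa htr.ta htr.zs.symm h3 h4
    subst hy
    rw [col_iff (ne_of o1.pa htr.za)] at h5
    have hw := o1.sp_eq htr.za htr.sa htr.zt h5 h6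
    subst hw
    rw [col_iff (ne_of o2.pa htr.ta)] at h7
    exact o2.sp_eq htr.ta htr.za htr.st.symm h7 h8
  · rintro rfl
    refine ⟨dr a C x, sp L C x i.1 i.2, sp L C (sp L C x i.1 i.2) (dr a C x) i.1, htr.za, ?_, ?_,
      ?_, ?_, ?_, ?_, ?_⟩
    · rw [col_iff ox.pC]; exact ox.α_mem
    · rw [col_iff hxs]; exact ox.sp_l htr.sa htr.ta htr.zs.symm
    · rw [col_iff hCt]; exact o1.mem
    · rw [col_iff (ne_of o1.pa htr.za)]; exact o1.sp_l htr.za htr.sa htr.zt
    · rw [col_iff hCs]; exact o2.mem
    · rw [col_iff (ne_of o2.pa htr.ta)]; exact o2.sp_l htr.ta htr.za htr.st.symm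
    · rw [col_iff ox.pC, ox.jn_eq]; exact o3.mem

theorem dis_eq {a : L} {C : P} (hC : C ∉ a) : dis a C = dis' a C := by
  ext q
  rw [dis, Finset.mem_filter, mem_dis']
  constructor
  · rintro ⟨-, h1, h2, h3⟩
    rw [proper_iff hC (i := q.2.1)] at h1
    rw [proper_iff hC (i := q.2.2)] at h2
    refine ⟨h1.1, h1.2, h2.2, fun h4 => h3 ?_⟩
    refine ⟨fi a C q.1 q.2.1, ?_, ?_⟩
    · rw [fourth_iff hC h1.1 h1.2]
    · rw [fourth_iff hC h2.1 h2.2]; exact h4
  · rintro ⟨h1, h2, h3, h4⟩
    refine ⟨Finset.mem_univ _, (proper_iff hC (i := q.2.1)).2 ⟨h1, h2⟩,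
      (proper_iff hC (i := q.2.2)).2 ⟨h1, h3⟩, ?_⟩
    rintro ⟨u, h5, h6⟩
    rw [fourth_iff hC h1 h2] at h5
    rw [fourth_iff hC h1 h3] at h6
    exact h4 (h5.symm.trans h6)

theorem col_perm {g : Equiv.Perm P × Equiv.Perm L} (hg : IsCol g) : Collineation L g.1 := by
  intro p q r
  constructor
  · rintro ⟨l, h1, h2, h3⟩
    exact ⟨g.2 l, (hg _ _).2 h1, (hg _ _).2 h2, (hg _ _).2 h3⟩
  · rintro ⟨l, h1, h2, h3⟩
    refine ⟨g.2.symm l, ?_, ?_, ?_⟩
    · rw [← hg, Equiv.apply_symm_apply]; exact h1
    · rw [← hg, Equiv.apply_symm_apply]; exact h2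
    · rw [← hg, Equiv.apply_symm_apply]; exact h3

theorem col_centre {a : L} {C : P} {g : Equiv.Perm P × Equiv.Perm L} (hg : IsP C a g) (p : P) :
    Col L C p (g.1 p) := by
  by_cases h : C = p
  · subst h
    rw [fixC hg]
    obtain ⟨l, hl, -⟩ := exists_line_off (P := P) a C
    exact ⟨l, hl, hl, hl⟩
  · rw [col_iff h, ← hg.2 _ (jn_left h), hg.1.1]
    exact jn_right h

theorem tl_of {a : L} (h : TL P a) : TranslationLine P a := by
  intro x y hx hy
  by_cases hxy : x = y
  · obtain ⟨p, -, -, hp, -⟩ := exists_two (P := P) a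
    exact ⟨1, fun _ _ _ => Iff.rfl, fun _ _ => rfl, ⟨p, hp, fun q =>
      col_centre (g := 1) (a := a) IsP.one q⟩, hxy⟩
  · have hl : jn L x y ≠ a := fun h => hx (h ▸ jn_left hxy)
    have h1 : mt P (jn L x y) a ∈ a := mt_right hl
    have h2 : mt P (jn L x y) a ∈ jn L x y := mt_left hl
    have h3 := (ne_of hx h1).symm
    obtain ⟨g, hg, hgx⟩ := h _ h1 x y hx hy h3 (ne_of hy h1).symm (by
      rw [← eq_jn h3 h2 (jn_left hxy)]; exact jn_right hxy)
    exact ⟨g.1, col_perm hg.1.1, hg.1.2, ⟨_, h1, col_centre hg⟩, hgx⟩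

theorem alt' (hn : Odd (order P L)) {a : L} {C : P} (hC : C ∉ a) :
    (∃ g : Equiv.Perm P × Equiv.Perm L, IsP C a g ∧ g * g = 1 ∧ g ≠ 1) ∨
      order P L ^ 5 ≤ 15000 * (dis a C).card := by
  rw [dis_eq hC]
  exact alt hn hC

theorem line' (hn : Odd (order P L)) (a : L) : TL P a ∨
    order P L ^ 2 ≤ 2 * (Finset.univ.filter fun C : P => C ∉ a ∧
      order P L ^ 5 ≤ 15000 * (dis a C).card).card := by
  set A := (off a : Finset P).filter (fun C => ¬ order P L ^ 5 ≤ 15000 * (dis a C).card) with hA
  by_cases hc : order P L ^ 2 < 2 * A.card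
  · left
    refine tl_of_many A ?_ hc
    intro C hC
    rw [hA, Finset.mem_filter, mem_off] at hC
    exact ⟨hC.1, (alt' hn hC.1).resolve_right hC.2⟩
  · right
    have h1 := Finset.card_filter_add_card_filter_not (s := (off a : Finset P))
      (fun C => order P L ^ 5 ≤ 15000 * (dis a C).card)
    rw [card_off, ← hA] at h1
    have h2 : (Finset.univ.filter fun C : P => C ∉ a ∧
        order P L ^ 5 ≤ 15000 * (dis a C).card) =
        (off a : Finset P).filter (fun C => order P L ^ 5 ≤ 15000 * (dis a C).card) := by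
      ext C
      simp
    rw [h2]
    omega

end

/-- **Fourth harmonic points in planes of odd order.** Let `n` be the order of a finite projective
plane and suppose that `n` is odd.

(1) For every line `a` and every point `C` off `a`: there is an involutory homology with axis `a` and
centre `C`, or at least `n ^ 5 / 15000` pairs of constructions of a fourth harmonic point of the same
point disagree.

(2) For every line `a`: either `a` is a translation line, all fourth harmonic points for `a` (and any
centre `C` off `a`) are independent of the construction, and `n` is a prime power, or for at least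
half of the `n ^ 2` points `C` off `a` at least `n ^ 5 / 15000` pairs of constructions disagree.

(3) Either all lines are translation lines, there are no disagreements in the whole plane and `n` is
a prime power, or the total number of disagreements is at least `n ^ 9 / 30000`. -/
theorem result (P L : Type) [Membership P L] [ProjectivePlane P L] [Fintype P] [Fintype L]
    (hn : Odd (order P L)) :
    (∀ (a : L) (C : P), C ∉ a →
      (∃ σ : Equiv.Perm P, InvHomology a C σ) ∨ order P L ^ 5 ≤ 15000 * (dis a C).card) ∧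
    (∀ a : L,
      (TranslationLine P a ∧ (∀ C : P, C ∉ a → dis a C = ∅) ∧ IsPrimePow (order P L)) ∨
        order P L ^ 2 ≤ 2 * (Finset.univ.filter fun C : P => C ∉ a ∧
          order P L ^ 5 ≤ 15000 * (dis a C).card).card) ∧
    (((∀ a : L, TranslationLine P a) ∧ (∀ (a : L) (C : P), C ∉ a → dis a C = ∅) ∧
        IsPrimePow (order P L)) ∨
      order P L ^ 9 ≤ 30000 * ∑ a : L, ∑ C ∈ Finset.univ.filter (fun C : P => C ∉ a),
        (dis a C).card) := by
  open Pool.Agent.N367.PPD Pool.Agent.U236.HG in
  refine ⟨fun a C hC => ?_, fun a => ?_, ?_⟩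
  · refine (alt' hn hC).imp_left ?_
    rintro ⟨g, hg, hg2, hg1⟩
    have h1 : g.1 * g.1 = 1 := by
      have := congrArg Prod.fst hg2
      simpa using this
    refine ⟨g.1, col_perm hg.1.1, hg.1.2, col_centre hg, fun p => ?_, fun h2 => hg1 ?_⟩
    · have := congrArg (fun e : Equiv.Perm P => e p) h1
      simpa using this
    · obtain ⟨x, hx, -⟩ := exists_off (P := P) a (jn L C C)
      by_cases hCx : C = x
      · obtain ⟨y, hy, hyl⟩ := exists_off (P := P) a (exists_line_off a C).choose
        have hCy : C ≠ y := fun h => hyl (h ▸ (exists_line_off (P := P) a C).choose_spec.1)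
        exact hg.eq_one hy hCy (by rw [h2]; rfl)
      · exact hg.eq_one hx hCx (by rw [h2]; rfl)
  · refine (line' hn a).imp_left fun h => ⟨tl_of h, fun C hC => ?_, tl_primePow h⟩
    rw [dis_eq hC]; exact tl_dis h hC
  · by_cases hall : ∀ a : L, TL P a
    · left
      obtain ⟨-, -, -, l, -⟩ := @ProjectivePlane.exists_config P L _ _
      refine ⟨fun a => tl_of (hall a), fun a C hC => ?_, tl_primePow (hall l)⟩
      rw [dis_eq hC]; exact tl_dis (hall a) hC
    · right
      have hfew : order P L ^ 2 ≤ ((Finset.univ : Finset L).filter (fun a => ¬ TL P a)).card := by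
        apply tl_few
        rintro ⟨a, b, d, ha, hb, hd, hab, had, hne⟩
        exact hall (tl_all ha hb hd hab had hne)
      have hline : ∀ a ∈ (Finset.univ : Finset L).filter (fun a => ¬ TL P a),
          order P L ^ 7 ≤ 30000 * ∑ C ∈ Finset.univ.filter (fun C : P => C ∉ a), (dis a C).card := by
        intro a ha
        have h1 := (line' hn a).resolve_left (Finset.mem_filter.1 ha).2
        set B := Finset.univ.filter (fun C : P => C ∉ a ∧ order P L ^ 5 ≤ 15000 * (dis a C).card)
          with hB
        have h2 : B.card * order P L ^ 5 ≤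
            15000 * ∑ C ∈ Finset.univ.filter (fun C : P => C ∉ a), (dis a C).card := by
          calc B.card * order P L ^ 5 = ∑ C ∈ B, order P L ^ 5 := by
                rw [Finset.sum_const, smul_eq_mul]
            _ ≤ ∑ C ∈ B, 15000 * (dis a C).card :=
                Finset.sum_le_sum fun C hC => (Finset.mem_filter.1 hC).2.2
            _ ≤ ∑ C ∈ Finset.univ.filter (fun C : P => C ∉ a), 15000 * (dis a C).card := by
                apply Finset.sum_le_sum_of_subset
                intro C hC
                exact Finset.mem_filter.2 ⟨Finset.mem_univ _, (Finset.mem_filter.1 hC).2.1⟩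
            _ = _ := by rw [Finset.mul_sum]
        calc order P L ^ 7 = order P L ^ 2 * order P L ^ 5 := by ring
          _ ≤ 2 * B.card * order P L ^ 5 := Nat.mul_le_mul_right _ h1
          _ = 2 * (B.card * order P L ^ 5) := by ring
          _ ≤ 2 * (15000 * ∑ C ∈ Finset.univ.filter (fun C : P => C ∉ a), (dis a C).card) :=
              Nat.mul_le_mul_left _ h2
          _ = _ := by ring
      calc order P L ^ 9 = order P L ^ 2 * order P L ^ 7 := by ring
        _ ≤ ((Finset.univ : Finset L).filter (fun a => ¬ TL P a)).card * order P L ^ 7 :=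
            Nat.mul_le_mul_right _ hfew
        _ = ∑ a ∈ (Finset.univ : Finset L).filter (fun a => ¬ TL P a), order P L ^ 7 := by
            rw [Finset.sum_const, smul_eq_mul]
        _ ≤ ∑ a ∈ (Finset.univ : Finset L).filter (fun a => ¬ TL P a),
              30000 * ∑ C ∈ Finset.univ.filter (fun C : P => C ∉ a), (dis a C).card :=
            Finset.sum_le_sum hline
        _ ≤ ∑ a : L, 30000 * ∑ C ∈ Finset.univ.filter (fun C : P => C ∉ a), (dis a C).card :=
            Finset.sum_le_sum_of_subset (Finset.filter_subset _ _)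
        _ = _ := by rw [Finset.mul_sum]

end

end Pool.Agent.Results.MP_409a13_co.HarmonicGap
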