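import Pool.Agent.U343.Sm.Sys

set_option autoImplicit false

/-!
# Projective, affine and inversive planes and circuits of constant depth

Let `r` be a prime and `d` a natural number. Take a circuit of depth `d` with AND, OR, NOT and `MOD r`
gates that reads the `n` binary digits of `N < 2 ^ n`, and all of whose gates have at most
`2 ^ (n ^ (1 / (2 d + 5)))` inputs. For at least `κ 2 ^ n / n` integers `N ≡ 1 (mod 4)` below `2 ^ n` its
answer is wrong for the three questions whether there are Steiner systems `S(N ^ 2 + N + 1, N + 1, 2)`,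
`S(N ^ 2, N, 2)` and `S(N ^ 2 + 1, N + 1, 3)` at the same time. The divisibility condition (D) holds in
these three families for all `N`.

Method. Let `q ∈ {3, 7}`, `q ≠ r`. For `x ∈ {0, 1} ^ k` the number `N_A(x) = A + ∑ x_i 2 ^ (g (i + 1))`
with `g = q (q - 1)` is `≡ A + |x| (mod q ^ 2)`. For random `A` in a suitable class modulo `4 q ^ 2` it
is prime with probability `≫ 1 / n` if `|x| ≢ s (mod q)`, and then the three systems exist. If
`|x| ≡ s (mod q)`, it is `≡ 1 (mod 4)` and exactly divisible by `q ≡ 3 (mod 4)`, so none of the three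
exists (Bruck-Ryser; an inversive plane has affine derived planes). So a good circuit would give a good
approximation of the functions `|x| mod q` by polynomials of small degree over the field with `r`
elements (Razborov, Smolensky), and there is none. The bound is uniform in the set of orders, and this
gives the three families at once. The inversive planes of prime order `p` are made from the images of
the subline of `PG(1, p)` under `GL(2, p ^ 2)`, and the affine planes are their derived systems.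
-/

namespace Pool.Agent.Results.MP_409a13_co.PlanesHardForCircuits

open Filter
open Pool.Agent.U343.Sm (Circuit bits Steiner CondD)

/-- The divisibility condition (D) holds for `(N ^ 2 + N + 1, N + 1, 2)`, `(N ^ 2, N, 2)` and
`(N ^ 2 + 1, N + 1, 3)` for all `N ≥ 1`. For every prime `r` and every `d` there is `κ > 0` such that for
all large `n`: if `f` is computed by a circuit of depth `d` with AND, OR, NOT and `MOD r` gates with at
most `S` inputs and `S ≤ 2 ^ (n ^ (1 / (2 d + 5)))`, then more than `κ 2 ^ n / n` integers `N < 2 ^ n`,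
`N ≡ 1 (mod 4)`, are such that the answer of `f` at `N` is wrong for the existence of
`S(N ^ 2 + N + 1, N + 1, 2)`, for that of `S(N ^ 2, N, 2)` and for that of `S(N ^ 2 + 1, N + 1, 3)`. -/
theorem result :
    (∀ N : ℕ, 1 ≤ N →
      CondD (N ^ 2 + N + 1) (N + 1) 2 ∧ CondD (N ^ 2) N 2 ∧ CondD (N ^ 2 + 1) (N + 1) 3) ∧
    ∀ (r : ℕ), r.Prime → ∀ d : ℕ,
      ∃ κ : ℝ, 0 < κ ∧ ∀ᶠ n : ℕ in atTop, ∀ (S : ℕ) (f : (Fin n → Bool) → Bool),
        Circuit r S n d f → (S : ℝ) ≤ 2 ^ ((n : ℝ) ^ (1 / (2 * (d : ℝ) + 5))) →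
        κ * 2 ^ n / n <
          ({N : ℕ | N < 2 ^ n ∧ N % 4 = 1 ∧
            ¬ (f (bits n N) = true ↔ Steiner (N ^ 2 + N + 1) (N + 1) 2) ∧
            ¬ (f (bits n N) = true ↔ Steiner (N ^ 2) N 2) ∧
            ¬ (f (bits n N) = true ↔ Steiner (N ^ 2 + 1) (N + 1) 3)}.ncard : ℝ) := by
  refine ⟨fun N hN => ⟨Pool.Agent.U343.Sm.d_proj N, Pool.Agent.U343.Sm.d_aff hN,
    Pool.Agent.U343.Sm.d_inv hN⟩, fun r hr d => ?_⟩
  obtain ⟨κ, hκ, h⟩ := Pool.Agent.U343.Sm.steiner_circuits hr d
  refine ⟨κ, hκ, h.mono fun n hn S f hC hS => ?_⟩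
  refine lt_of_lt_of_le (hn S f hC hS) ?_
  have hfin : {N : ℕ | N < 2 ^ n ∧ N % 4 = 1 ∧
      ¬ (f (bits n N) = true ↔ Steiner (N ^ 2 + N + 1) (N + 1) 2) ∧
      ¬ (f (bits n N) = true ↔ Steiner (N ^ 2) N 2) ∧
      ¬ (f (bits n N) = true ↔ Steiner (N ^ 2 + 1) (N + 1) 3)}.Finite :=
    (Set.finite_lt_nat (2 ^ n)).subset fun N hN => hN.1
  have hsub : {N : ℕ | N < 2 ^ n ∧ N % 4 = 1 ∧
      ∀ i : Fin 3, ¬ (f (bits n N) = true ↔ Pool.Agent.U343.Sm.Fam i N)} ⊆
      {N : ℕ | N < 2 ^ n ∧ N % 4 = 1 ∧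
      ¬ (f (bits n N) = true ↔ Steiner (N ^ 2 + N + 1) (N + 1) 2) ∧
      ¬ (f (bits n N) = true ↔ Steiner (N ^ 2) N 2) ∧
      ¬ (f (bits n N) = true ↔ Steiner (N ^ 2 + 1) (N + 1) 3)} :=
    fun N hN => ⟨hN.1, hN.2.1, hN.2.2 0, hN.2.2 1, hN.2.2 2⟩
  exact_mod_cast Set.ncard_le_ncard hsub hfin

end Pool.Agent.Results.MP_409a13_co.PlanesHardForCircuits
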