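import Pool.Agent.U687.PL.Main

/-!
# The conjecture, with both orders zero, over all the subfields of multiquadratic real fields, for a positive
# proportion of the twists with `K` prime factors, over EVERY base, ordered by size

`E_D : y² = x³ - 35 D² x - 98 D³` is the quadratic twist by `D` of `X_0(49)`. Let `P` be ANY finite set of primes
`1` modulo `4`, `K ≥ 1`, and let `m` run, in the natural order, through ALL the squarefree numbers with exactly
`K` prime factors, all `1` modulo `4` and not in `P`. Put `N = K (#P + 2) + (K choose 2)`.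

* FIXED BASE. For every `P` and every `K ≥ #P + 2` the proportion of the `m` such that `E_{md}(ℚ)` is finite and
  `Ш(E_{md}/ℚ)` has no element of order two for all the products `d` of primes in `P` has a limit, which is
  POSITIVE and of the form `j / 2 ^ N`. For these `m`, for all these twists `E_{md}` and for ALL the number fields
  `k` contained in `ℚ(√p : p ∈ P)`: `E_{md}(k)` is finite, the Euler product of `E_{md}` over `k` is an entire
  function, its order at `1` and the rank are `0` (so they have the same parity), and `[k : ℚ]` kills the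
  elements of order a power of two in `Ш(E_{md}/k)`.
* THE BASE AND THE PRIMES OF `m` TOGETHER. If `P` is such that `E_d(ℚ)` is finite and `Ш(E_d/ℚ)[2] = 0` for all
  the products `d` of primes in `P` (for example if all the primes in `P` are inert in `ℚ(√-7)`), then for every
  `K ≥ 1` the proportion of the `m` with the same property for all the divisors `d` of `m ∏_P p` has a limit,
  POSITIVE and of the form `j / 2 ^ N`, and for these `m` the conclusion holds for all the twists by divisors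
  `d` of `m ∏_P p` and over ALL the number fields `k` contained in `ℚ(√p : p ∣ m ∏_P p)`, of degrees up to
  `2 ^ (K + #P)`. (If `P` is not such, the property fails for all `m`.)

The criterion for one twist is that of the starting file `MP_4a9ea6_nt.TwoPartTwistsX49`, the passage to the
fields is helper80's (`U80/MQ`), the existence of one `m` in the first point helper239's and helper33's (`U239/CT`,
`U974/BS`). New: the exact form and the positivity of the proportions by size with a fixed number of prime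
factors, over every base (`U687/PL`, `U687/NO`: joint law of all the symbols, bilinear sums).
-/

set_option autoImplicit false

open scoped Classical

open WeierstrassCurve NumberField IsDedekindDomain

namespace Pool.Agent.Results.MP_413b36_nt.FieldsOverEveryBase

open Filter Topology
open Pool.Agent.TH841.NF.D (Sha)

/-- the coefficient of `x` -/
def A (D : ℕ) : ℤ := -35 * (D : ℤ) ^ 2

/-- the constant coefficient -/
def B (D : ℕ) : ℤ := -98 * (D : ℤ) ^ 3

/-- the curve `y² = x³ - 35 D² x - 98 D³` over `K` -/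
def curve (D : ℕ) (K : Type) [Field K] : WeierstrassCurve K :=
  { a₁ := 0, a₂ := 0, a₃ := 0, a₄ := ((A D : ℤ) : K), a₆ := ((B D : ℤ) : K) }

/-- `E_D(ℚ)` is finite and `Ш(E_D/ℚ)` has no element of order two -/
def TrivialTwo (D : ℕ) : Prop :=
  Finite (curve D ℚ).toAffine.Point ∧ ∀ x : Sha (curve D ℚ), 2 • x = 0 → x = 0

/-- `a_v = q_v + 1 - #E(k_v) = q_v - #{(x, y) ∈ k_v² : y² = x³ + a x + b}` -/
noncomputable def trace {K : Type} [Field K] [NumberField K] (a b : ℤ)
    (v : HeightOneSpectrum (𝓞 K)) : ℤ :=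
  ((Ideal.absNorm v.asIdeal : ℕ) : ℤ) -
    ((Nat.card {x : (𝓞 K ⧸ v.asIdeal) × (𝓞 K ⧸ v.asIdeal) //
      x.2 ^ 2 = x.1 ^ 3 + (a : 𝓞 K ⧸ v.asIdeal) * x.1 + (b : 𝓞 K ⧸ v.asIdeal)} : ℕ) : ℤ)

/-- the Euler factor at `v` of `y² = x³ + a x + b`; it is `1` at the places that divide
`2 (4 a³ + 27 b²)` -/
noncomputable def factor {K : Type} [Field K] [NumberField K] (a b : ℤ) (s : ℂ)
    (v : HeightOneSpectrum (𝓞 K)) : ℂ :=
  if ((2 * (4 * a ^ 3 + 27 * b ^ 2) : ℤ) : 𝓞 K) ∈ v.asIdeal then 1 else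
    (1 - ((trace a b v : ℤ) : ℂ) * ((Ideal.absNorm v.asIdeal : ℕ) : ℂ) ^ (-s)
      + ((Ideal.absNorm v.asIdeal : ℕ) : ℂ) ^ (1 - 2 * s))⁻¹

/-- the rank part of the conjecture for `E_D` over `K`, with order and rank `0`: `E_D(K)` is finite, the
Euler product (without the factors at the places that divide `2 (4 A³ + 27 B²)`) is an entire function `Λ`,
the order of `Λ` at `1` is the rank of `E_D(K)`, and both are `0` -/
def RankZero (D : ℕ) (K : Type) [Field K] [NumberField K] : Prop :=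
  Finite (curve D K).toAffine.Point ∧ Module.finrank ℤ (curve D K).toAffine.Point = 0 ∧
    ∃ Λ : ℂ → ℂ, Differentiable ℂ Λ ∧
      (∀ s : ℂ, (3 : ℝ) / 2 < s.re → HasProd (factor (K := K) (A D) (B D) s) (Λ s)) ∧
      analyticOrderAt Λ 1 = ((Module.finrank ℤ (curve D K).toAffine.Point : ℕ) : ℕ∞) ∧ Λ 1 ≠ 0

/-- the elements of `Ш(E_D/K)` of order a power of two are killed by `[K : ℚ]` -/
def ShaKilled (D : ℕ) (K : Type) [Field K] [NumberField K] : Prop :=
  ∀ (k : ℕ) (x : Sha (curve D K)), 2 ^ k • x = 0 → Module.finrank ℚ K • x = 0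

/-- the field generated by the square roots of the primes in `P` -/
noncomputable def Roots (P : Finset ℕ) : IntermediateField ℚ ℂ :=
  IntermediateField.adjoin ℚ {z : ℂ | ∃ p ∈ P, z ^ 2 = (p : ℂ)}

/-- the conjecture, with order and rank zero, for `E_D` over all the number fields in `Roots P` -/
def OverAllFields (D : ℕ) (P : Finset ℕ) : Prop :=
  ∀ k : IntermediateField ℚ ℂ, k ≤ Roots P → ∃ _ : NumberField k, RankZero D k ∧ ShaKilled D k

/-- squarefree, exactly `K` prime factors, all `1` modulo `4` and not in `P` -/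
def Multiplier (K : ℕ) (P : Finset ℕ) (m : ℕ) : Prop :=
  Squarefree m ∧ m.primeFactors.card = K ∧ ∀ p ∈ m.primeFactors, p % 4 = 1 ∧ p ∉ P

/-- those up to `X` -/
noncomputable def multipliers (K : ℕ) (P : Finset ℕ) (X : ℕ) : Finset ℕ :=
  (Finset.Icc 1 X).filter fun m => Multiplier K P m

/-- the share of those with the property `Q` -/
noncomputable def proportion (K : ℕ) (P : Finset ℕ) (Q : ℕ → Prop) (X : ℕ) : ℝ :=
  (((multipliers K P X).filter Q).card : ℝ) / ((multipliers K P X).card : ℝ)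

/-- the proportion has a limit, which is positive and of the form `j / 2 ^ N` -/
def Positive (K : ℕ) (P : Finset ℕ) (Q : ℕ → Prop) : Prop :=
  ∃ j : ℕ, 0 < j ∧
    Tendsto (proportion K P Q) atTop (𝓝 ((j : ℝ) / 2 ^ (K * (P.card + 2) + K.choose 2)))

section proof

open Pool.Agent.U687.PL Pool.Agent.U687.NO
open Pool.Agent.U120.MF (P4 TT)
open Pool.Agent.U80.MQ (Om)
open Pool.Agent.Results.MP_4a9ea6_nt.TwoPartTwistsX49 (mat Adm)
open scoped symmDiff

theorem crit (D : ℕ) (h : Adm D) : TrivialTwo D ↔ (mat D).det ≠ 0 :=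
  Pool.Agent.R413.SQ.Cor.crit h

theorem rankZero_of {D : ℕ} {K : Type} [Field K] [NumberField K]
    (hfin : Finite (curve D K).toAffine.Point) {G : ℂ → ℂ} (g1 : Differentiable ℂ G)
    (g2 : ∀ s : ℂ, (3 : ℝ) / 2 < s.re → HasProd (factor (K := K) (A D) (B D) s) (G s))
    (g3 : G 1 ≠ 0) : RankZero D K := by
  have hrk : Module.finrank ℤ (curve D K).toAffine.Point = 0 := Pool.Agent.U80.MQ.finrank_fin
  refine ⟨hfin, hrk, G, g1, g2, ?_, g3⟩
  rw [hrk]
  exact (g1.analyticAt 1).analyticOrderAt_eq_zero.2 g3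

/-- finite generation -/
theorem fin_dim {P : Finset ℕ} (hP : ∀ p ∈ P, p ≠ 0) (k : IntermediateField ℚ ℂ)
    (hk : k ≤ Roots P) : FiniteDimensional ℚ k := by
  have h1 : FiniteDimensional ℚ (Om P) := (Pool.Agent.U80.MQ.R7_Om P hP).1
  have h2 : k ≤ Om P := hk
  exact FiniteDimensional.of_injective (IntermediateField.inclusion h2).toLinearMap
    (IntermediateField.inclusion h2).injective

theorem overP {P : Finset ℕ} (hP : ∀ p ∈ P, p.Prime ∧ p % 4 = 1) {D : ℕ} (hD : Adm D)
    (h : ∀ S, S ⊆ P → TrivialTwo (∏ q ∈ D.primeFactors ∆ S, q)) : OverAllFields D P := by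
  intro k hk
  have hfd := fin_dim (fun p hp => (hP p hp).1.ne_zero) k hk
  have hN : NumberField k := { to_charZero := inferInstance, to_finiteDimensional := hfd }
  have hU : ∀ q ∈ D.primeFactors, P4 q := fun q hq => ⟨Nat.prime_of_mem_primeFactors hq, hD.2 q hq⟩
  obtain ⟨h5, ⟨G, g1, g2, g3⟩, h6⟩ := fieldsP (P := P) (U := D.primeFactors) (fun q hq => hP q hq) hU
    (fun S hS => h S hS) k hk
  rw [Nat.prod_primeFactors_of_squarefree hD.1] at h5 g2 h6
  exact ⟨hN, rankZero_of h5 g1 (fun s hs => g2 s hs) g3, fun j x hx => h6 j x hx⟩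

variable {P : Finset ℕ} (hP : ∀ p ∈ P, p.Prime ∧ p % 4 = 1)

include hP in
theorem mult_iff {K m : ℕ} : Multiplier K P m ↔ InM K (∏ p ∈ P, p) m := by
  unfold Multiplier InM
  constructor
  · rintro ⟨h1, h2, h3⟩
    refine ⟨h1, h2, fun p hp => (h3 p hp).1, Nat.Coprime.symm (Nat.Coprime.prod_left fun p hp => ?_)⟩
    refine ((hP p hp).1.coprime_iff_not_dvd).2 fun h => ?_
    exact (h3 p (Nat.mem_primeFactors.2 ⟨(hP p hp).1, h, h1.ne_zero⟩)).2 hp
  · rintro ⟨h1, h2, h3, h4⟩
    refine ⟨h1, h2, fun p hp => ⟨h3 p hp, fun h => ?_⟩⟩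
    have h5 : p ∣ ∏ p ∈ P, p := Finset.dvd_prod_of_mem _ h
    have h6 := Nat.dvd_gcd (Nat.dvd_of_mem_primeFactors hp) h5
    rw [h4] at h6
    exact (Nat.prime_of_mem_primeFactors hp).one_lt.ne' (Nat.dvd_one.1 h6)

include hP in
theorem mults_eq (K X : ℕ) : multipliers K P X = Ms K (∏ p ∈ P, p) X := by
  ext m
  have h1 : m ∈ multipliers K P X ↔ m ∈ Finset.Icc 1 X ∧ Multiplier K P m := Finset.mem_filter
  rw [h1, mem_Ms, Finset.mem_Icc, mult_iff hP]
  exact Iff.rfl

include hP in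
theorem prop_eq (K : ℕ) (Q : ℕ → Prop) (X : ℕ) : proportion K P Q X =
    (∑ m ∈ Ms K (∏ p ∈ P, p) X, (if Q m then (1 : ℝ) else 0)) /
      ((Ms K (∏ p ∈ P, p) X).card : ℝ) := by
  unfold proportion
  rw [mults_eq hP, card_as_sum ((Ms K (∏ p ∈ P, p) X).filter Q), Finset.sum_filter]

include hP in
theorem pos_fixed {K : ℕ} (hK : P.card + 2 ≤ K) :
    Positive K P fun m => ∀ d, d ∣ ∏ p ∈ P, p → TrivialTwo (m * d) := by
  obtain ⟨e1, e2, e3⟩ := pG_div hP
  have h0 : ∏ p ∈ P, p ≠ 0 := Finset.prod_ne_zero_iff.2 fun p hp => (hP p hp).1.ne_zero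
  obtain ⟨j, hj, h⟩ := all_law TrivialTwo crit K _ e3 (by rw [e1]; exact hK)
  refine ⟨j, hj, ?_⟩
  unfold exG at h
  rw [e1, e2] at h
  refine h.congr fun X => ?_
  rw [prop_eq hP]
  refine sum_congr_M fun m _ => ?_
  constructor
  · intro h1 d hd
    rw [mul_comm]
    exact h1 d (Nat.mem_divisors.2 ⟨hd, h0⟩)
  · intro h1 d hd
    rw [mul_comm]
    exact h1 d (Nat.mem_divisors.1 hd).1

include hP in
theorem pos_moving {K : ℕ} (hK : 1 ≤ K) (hg : ∀ d, d ∣ ∏ p ∈ P, p → TrivialTwo d) :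
    Positive K P fun m => ∀ d, d ∣ m * ∏ p ∈ P, p → TrivialTwo d := by
  obtain ⟨e1, e2, e3⟩ := pG_div hP
  have h0 : ∏ p ∈ P, p ≠ 0 := Finset.prod_ne_zero_iff.2 fun p hp => (hP p hp).1.ne_zero
  obtain ⟨j, hj, h⟩ := keep_law TrivialTwo crit K _ e3 hK fun d hd => hg d (Nat.mem_divisors.1 hd).1
  refine ⟨j, hj, ?_⟩
  unfold exG at h
  rw [e1, e2] at h
  refine h.congr fun X => ?_
  rw [prop_eq hP]
  refine sum_congr_M fun m _ => ?_
  constructor
  · intro h1 d hd
    obtain ⟨a, b, ha, hb, hab⟩ := (Nat.dvd_mul).1 hd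
    rw [← hab, mul_comm]
    exact h1 b (Nat.mem_divisors.2 ⟨hb, h0⟩) a ha
  · intro h1 D hD d hd
    rw [mul_comm]
    exact h1 (d * D) (Nat.mul_dvd_mul hd (Nat.mem_divisors.1 hD).1)

include hP in
theorem good_fixed {K m d : ℕ} (hm : Multiplier K P m)
    (h : ∀ d, d ∣ ∏ p ∈ P, p → TrivialTwo (m * d)) (hd : d ∣ ∏ p ∈ P, p) :
    OverAllFields (m * d) P := by
  obtain ⟨e1, e2, e3⟩ := pG_div hP
  have h0 : ∏ p ∈ P, p ≠ 0 := Finset.prod_ne_zero_iff.2 fun p hp => (hP p hp).1.ne_zero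
  have hpf : (∏ p ∈ P, p).primeFactors = P := Nat.primeFactors_prod fun p hp => (hP p hp).1
  have hm' := (mult_iff hP).1 hm
  have hc : Nat.Coprime m d := Nat.Coprime.coprime_dvd_right hd hm'.2.2.2
  have hdA : Adm d := e3 d (Nat.mem_divisors.2 ⟨hd, h0⟩)
  have hdP : d.primeFactors ⊆ P := by
    have := Nat.primeFactors_mono hd h0
    rwa [hpf] at this
  refine overP hP (adm_mul_cop ⟨hm.1, hm'.2.2.1⟩ hdA hc) fun S hS => ?_
  have h1 : (m * d).primeFactors ∆ S = m.primeFactors ∪ (d.primeFactors ∆ S) := by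
    ext q
    have h2 : q ∈ m.primeFactors → q ∉ d.primeFactors ∧ q ∉ S := fun hq =>
      ⟨fun h3 => (hm.2.2 q hq).2 (hdP h3), fun h3 => (hm.2.2 q hq).2 (hS h3)⟩
    rw [Finset.mem_symmDiff, Nat.primeFactors_mul hm.1.ne_zero hdA.1.ne_zero, Finset.mem_union,
      Finset.mem_union, Finset.mem_symmDiff]
    tauto
  have h2 : Disjoint m.primeFactors (d.primeFactors ∆ S) := by
    rw [Finset.disjoint_left]
    intro q hq h3
    rcases Finset.mem_symmDiff.1 h3 with h4 | h4
    · exact (hm.2.2 q hq).2 (hdP h4.1)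
    · exact (hm.2.2 q hq).2 (hS h4.1)
  rw [h1, Finset.prod_union h2, Nat.prod_primeFactors_of_squarefree hm.1]
  refine h _ (Finset.prod_dvd_prod_of_subset _ _ _ fun q hq => ?_)
  rcases Finset.mem_symmDiff.1 hq with h4 | h4
  · exact hdP h4.1
  · exact hS h4.1

include hP in
theorem good_moving {K m d : ℕ} (hm : Multiplier K P m)
    (h : ∀ d, d ∣ m * ∏ p ∈ P, p → TrivialTwo d) (hd : d ∣ m * ∏ p ∈ P, p) :
    OverAllFields d (P ∪ m.primeFactors) := by
  have h0 : ∏ p ∈ P, p ≠ 0 := Finset.prod_ne_zero_iff.2 fun p hp => (hP p hp).1.ne_zero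
  have hpf : (∏ p ∈ P, p).primeFactors = P := Nat.primeFactors_prod fun p hp => (hP p hp).1
  have hm' := (mult_iff hP).1 hm
  have hPA : Adm (∏ p ∈ P, p) := ⟨sq_prod fun p hp => (hP p hp).1, fun p hp => by
    rw [hpf] at hp
    exact (hP p hp).2⟩
  have hA : Adm (m * ∏ p ∈ P, p) := adm_mul_cop ⟨hm.1, hm'.2.2.1⟩ hPA hm'.2.2.2
  have hpfA : (m * ∏ p ∈ P, p).primeFactors = P ∪ m.primeFactors := by
    rw [Nat.primeFactors_mul hm.1.ne_zero h0, hpf, Finset.union_comm]
  have hdA : Adm d := ⟨hA.1.squarefree_of_dvd hd, fun p hp =>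
    hA.2 p (Nat.primeFactors_mono hd hA.1.ne_zero hp)⟩
  have hdP : d.primeFactors ⊆ P ∪ m.primeFactors := by
    rw [← hpfA]
    exact Nat.primeFactors_mono hd hA.1.ne_zero
  refine overP (fun p hp => ?_) hdA fun S hS => ?_
  · rcases Finset.mem_union.1 hp with h1 | h1
    · exact hP p h1
    · exact ⟨Nat.prime_of_mem_primeFactors h1, (hm.2.2 p h1).1⟩
  · refine h _ ?_
    rw [← Nat.prod_primeFactors_of_squarefree hA.1, hpfA]
    refine Finset.prod_dvd_prod_of_subset _ _ _ fun q hq => ?_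
    rcases Finset.mem_symmDiff.1 hq with h4 | h4
    · exact hdP h4.1
    · exact hS h4.1

end proof

/-- **Theorem.** -/
theorem result (P : Finset ℕ) (hP : ∀ p ∈ P, p.Prime ∧ p % 4 = 1) (K : ℕ) (hK : 1 ≤ K) :
    (∀ m, Multiplier K P m →
      ((∀ d, d ∣ ∏ p ∈ P, p → TrivialTwo (m * d)) →
        ∀ d, d ∣ ∏ p ∈ P, p → OverAllFields (m * d) P) ∧
      ((∀ d, d ∣ m * ∏ p ∈ P, p → TrivialTwo d) →
        ∀ d, d ∣ m * ∏ p ∈ P, p → OverAllFields d (P ∪ m.primeFactors))) ∧
    (P.card + 2 ≤ K → Positive K P fun m => ∀ d, d ∣ ∏ p ∈ P, p → TrivialTwo (m * d)) ∧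
    ((∀ d, d ∣ ∏ p ∈ P, p → TrivialTwo d) →
      Positive K P fun m => ∀ d, d ∣ m * ∏ p ∈ P, p → TrivialTwo d) :=
  ⟨fun _ hm => ⟨fun h _ hd => good_fixed hP hm h hd, fun h _ hd => good_moving hP hm h hd⟩,
    fun h => pos_fixed hP h, fun hg => pos_moving hP hK hg⟩

end Pool.Agent.Results.MP_413b36_nt.FieldsOverEveryBase
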