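import Pool.Agent.U999.RSt.Final

/-!
# Random petal diagrams and random stackings of torus knot projections: the Jones polynomial

Starting library.  `Pool.Agent.H832R2.JR.Defs`: `GaussWord N` (the order in which the crossings of a knot
diagram with `N` crossings are passed), `fPoly G w` (the normalised Kauffman bracket of the diagram with
Gauss word `G` and signs of the crossings `w`).  `Pool.Agent.W642.RS.Defs`: `Stack N n` (the Gauss word of a
closed curve with `N` crossings which is divided into `n` consecutive arcs without self-crossings, any two of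
which cross at most once), `D.f h` (the normalised bracket of the knot diagram that arises when the arc `i` is
put at height `h i`), `EdgesCross r i j` (the edges `i`, `j` of the closed polygon with vertices
`r 0, …, r (n - 1)`, numbers of points on a circle, cross), `IsPolygon r D` (the crossings of the stack `D` are
exactly the crossings of the edges of this polygon).

`Pool.Agent.U999.RSt.Star` (new): `star n k h` is the star polygon `{n/k}`, whose edges join the points
`k j` and `k (j + 1)` modulo `n`.  It is the usual projection of the torus knot `T(n, k)`; for `n = 2 m + 1`,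
`k = m` it is the projection of a petal diagram with `n` petals, with the outer loops pulled tight: every two
of the `n` edges without a common vertex cross.
-/

set_option autoImplicit false

namespace Pool.Agent.Results.MP_42db45_gt.RandomStars

open Finset LaurentPolynomial Pool.Agent.H832R2.JR Pool.Agent.W642.RS Pool.Agent.U999.RSt

open Classical in
/-- the probability that the normalised bracket is `F` if the arcs are put at the heights `1, …, n` in a
uniformly random order -/
noncomputable def prob {N n : ℕ} (D : Stack N n) (F : ℤ[T;T⁻¹]) : ℝ :=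
  ((univ.filter fun h : Equiv.Perm (Fin n) => D.f h = F).card : ℝ) / (n.factorial : ℝ)

theorem prob_eq {N n : ℕ} (D : Stack N n) (F : ℤ[T;T⁻¹]) :
    (TT D F : ℝ) = prob D F * (n.factorial : ℝ) := by
  have : (n.factorial : ℝ) ≠ 0 := by exact_mod_cast n.factorial_ne_zero
  unfold prob TT
  rw [div_mul_cancel₀ _ this]

theorem prob_nonneg {N n : ℕ} (D : Stack N n) (F : ℤ[T;T⁻¹]) : 0 ≤ prob D F := by
  unfold prob; positivity

theorem div_fact {n : ℕ} {a b p : ℝ} (h : a * (p * (n.factorial : ℝ)) ^ 4 ≤ b * (n.factorial : ℝ) ^ 4) :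
    a * p ^ 4 ≤ b := by
  have h0 : (0 : ℝ) < (n.factorial : ℝ) ^ 4 := by
    have : (0 : ℝ) < (n.factorial : ℝ) := by exact_mod_cast n.factorial_pos
    positivity
  have h1 : (a * p ^ 4) * (n.factorial : ℝ) ^ 4 ≤ b * (n.factorial : ℝ) ^ 4 := by
    calc (a * p ^ 4) * (n.factorial : ℝ) ^ 4 = a * (p * (n.factorial : ℝ)) ^ 4 := by ring
      _ ≤ _ := h
  exact le_of_mul_le_mul_right h1 h0

open Classical in
/-- There is an absolute constant `C` such that for every Laurent polynomial `F`, for instance `F = 1`, the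
bracket of the unknot:

* (general stackings, library) if a closed curve with `N` crossings consists of `n` arcs, any two of which
  cross at most once, and the arcs are put at random heights, then the normalised bracket is `F` with a
  probability `p` with `N ^ 3 p ^ 4 ≤ C n ^ 5`;
* (torus knot projections) the star polygon `{n/k}`, `2 ≤ k`, `2 k < n`, `k` prime to `n`, has exactly
  `n (k - 1)` crossings, and if its `n` edges are put at random heights, then the normalised bracket is `F`
  with a probability `p` with `(k - 1) ^ 3 p ^ 4 ≤ C n ^ 2`;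
* (petal diagrams) a random petal diagram with `n = 2 m + 1 ≥ 5` petals has the normalised bracket `F` with a
  probability at most `(C / n) ^ (1/4)`;
* (random arc presentations) if also the vertices `r 0, …, r (n - 1)` of the polygon are a random permutation
  of `n` points on a circle, then the same bound `(C / n) ^ (1/4)` holds. -/
theorem result : ∃ C : ℝ, 0 < C ∧ ∀ F : ℤ[T;T⁻¹],
    (∀ (N n : ℕ) (D : Stack N n), (N : ℝ) ^ 3 * prob D F ^ 4 ≤ C * (n : ℝ) ^ 5) ∧
    (∀ (n k : ℕ) (h : Nat.Coprime k n), 2 ≤ k → 2 * k < n →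
      (∃ (N : ℕ) (D : Stack N n), IsPolygon (star n k h) D) ∧
      ∀ (N : ℕ) (D : Stack N n), IsPolygon (star n k h) D →
        N = n * (k - 1) ∧ ((k : ℝ) - 1) ^ 3 * prob D F ^ 4 ≤ C * (n : ℝ) ^ 2) ∧
    (∀ (m : ℕ) (h : Nat.Coprime m (2 * m + 1)), 2 ≤ m →
      ∀ (N : ℕ) (D : Stack N (2 * m + 1)), IsPolygon (star (2 * m + 1) m h) D →
        N = (2 * m + 1) * (m - 1) ∧ (2 * (m : ℝ) + 1) * prob D F ^ 4 ≤ C) ∧
    (∀ (n : ℕ) (N : Equiv.Perm (Fin n) → ℕ) (D : ∀ r : Equiv.Perm (Fin n), Stack (N r) n),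
      (∀ r, IsPolygon r (D r)) →
        (n : ℝ) * (((univ.filter fun rh : Equiv.Perm (Fin n) × Equiv.Perm (Fin n) =>
          (D rh.1).f rh.2 = F).card : ℝ) / (n.factorial : ℝ) ^ 2) ^ 4 ≤ C) := by
  obtain ⟨C1, hC1, h1⟩ := stack_main
  obtain ⟨C2, hC2, h2⟩ := star_main
  obtain ⟨C3, hC3, h3⟩ := poly_main
  refine ⟨C1 + 1000 * C2 + 8 * (C3 ^ 4 + C3), by positivity, fun F => ⟨?_, ?_, ?_, ?_⟩⟩
  · intro N n D
    have h4 := h1 N n D F
    rw [prob_eq] at h4
    refine (div_fact (by simpa using h4)).trans ?_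
    have : 0 ≤ (1000 * C2 + 8 * (C3 ^ 4 + C3)) * (n : ℝ) ^ 5 := by positivity
    linarith
  · intro n k h hk hkn
    refine ⟨Pool.Agent.W902.RS.exist _ _, fun N D hD => ⟨star_crossings hk hkn h D hD, ?_⟩⟩
    have h4 := h2 n k h hk hkn N D hD F
    rw [prob_eq] at h4
    refine (div_fact (by simpa using h4)).trans ?_
    have : 0 ≤ (C1 + 999 * C2 + 8 * (C3 ^ 4 + C3)) * (n : ℝ) ^ 2 := by positivity
    linarith
  · intro m h hm N D hD
    refine ⟨star_crossings hm (by omega) h D hD, ?_⟩
    have h4 := h2 (2 * m + 1) m h hm (by omega) N D hD F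
    rw [prob_eq] at h4
    have h5 := div_fact (by simpa using h4)
    set p := prob D F with hp
    have hp0 : 0 ≤ p ^ 4 := by positivity
    have hm2 : (2 : ℝ) ≤ m := by exact_mod_cast hm
    -- (m-1)^3 ≥ (2m+1)^3 / 125
    have h6 : (2 * (m : ℝ) + 1) ≤ 5 * ((m : ℝ) - 1) := by linarith
    have h7 : (2 * (m : ℝ) + 1) ^ 3 ≤ 125 * ((m : ℝ) - 1) ^ 3 := by
      calc (2 * (m : ℝ) + 1) ^ 3 ≤ (5 * ((m : ℝ) - 1)) ^ 3 := by gcongr
        _ = _ := by ring
    have h8 : (2 * (m : ℝ) + 1) ^ 2 * ((2 * (m : ℝ) + 1) * p ^ 4) ≤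
        (2 * (m : ℝ) + 1) ^ 2 * (125 * C2) := by
      calc (2 * (m : ℝ) + 1) ^ 2 * ((2 * (m : ℝ) + 1) * p ^ 4) = (2 * (m : ℝ) + 1) ^ 3 * p ^ 4 := by
            ring
        _ ≤ 125 * ((m : ℝ) - 1) ^ 3 * p ^ 4 := by gcongr
        _ = 125 * (((m : ℝ) - 1) ^ 3 * p ^ 4) := by ring
        _ ≤ 125 * (C2 * (2 * (m : ℝ) + 1) ^ 2) := by gcongr
        _ = _ := by ring
    have h9 := le_of_mul_le_mul_left h8 (by positivity)
    have : 0 ≤ C1 + 875 * C2 + 8 * (C3 ^ 4 + C3) := by positivity
    linarith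
  · intro n N D hD
    obtain ⟨R, hR, h4⟩ := h3 n
    rcases Nat.eq_zero_or_pos n with hn | hn
    · subst hn
      simp only [Nat.cast_zero, zero_mul]
      positivity
    have hn0 : (0 : ℝ) < n := by exact_mod_cast hn
    set f : ℝ := (n.factorial : ℝ) with hf
    have hf0 : 0 < f := by rw [hf]; exact_mod_cast n.factorial_pos
    have hcard : ((univ.filter fun rh : Equiv.Perm (Fin n) × Equiv.Perm (Fin n) =>
          (D rh.1).f rh.2 = F).card : ℝ) = ∑ r : Equiv.Perm (Fin n), (TT (D r) F : ℝ) := by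
      have : (univ.filter fun rh : Equiv.Perm (Fin n) × Equiv.Perm (Fin n) =>
          (D rh.1).f rh.2 = F).card = ∑ r : Equiv.Perm (Fin n), TT (D r) F := by
        unfold TT
        simp only [card_filter]
        rw [Fintype.sum_prod_type]
      rw [this]; push_cast; rfl
    rw [hcard]
    set β : ℝ := √(√(C3 / n)) with hβ
    have hq0 : 0 < C3 / n := by positivity
    have hβ0 : 0 < β := Real.sqrt_pos.2 (Real.sqrt_pos.2 hq0)
    have hβ4 : β ^ 4 = C3 / n := by
      rw [hβ, show (4 : ℕ) = 2 * 2 by norm_num, pow_mul, Real.sq_sqrt (Real.sqrt_nonneg _),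
        Real.sq_sqrt hq0.le]
    have h5 : ∀ r ∉ R, (TT (D r) F : ℝ) ≤ β * f := by
      intro r hr
      have h6 := h4 r hr (N r) (D r) (hD r) F
      have h7 : (TT (D r) F : ℝ) ^ 4 ≤ (β * f) ^ 4 := by
        rw [mul_pow, hβ4, div_mul_eq_mul_div, le_div_iff₀ hn0]
        linarith
      exact (pow_le_pow_iff_left₀ (by positivity) (by positivity) (by norm_num)).1 h7
    have h6 : ∑ r : Equiv.Perm (Fin n), (TT (D r) F : ℝ) ≤ (C3 / n + β) * f ^ 2 := by
      rw [← sum_filter_add_sum_filter_not univ (fun r => r ∈ R)]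
      have h7 : ∑ r ∈ univ.filter (fun r => r ∈ R), (TT (D r) F : ℝ) ≤ (C3 / n) * f ^ 2 := by
        calc _ ≤ ∑ _r ∈ univ.filter (fun r => r ∈ R), f :=
              sum_le_sum fun r _ => by rw [hf]; exact_mod_cast TT_le (D r) F
          _ = (R.card : ℝ) * f := by
            rw [sum_const, nsmul_eq_mul]
            congr 3
            ext r; simp
          _ ≤ ((C3 / n) * f) * f := by
            gcongr
            rw [div_mul_eq_mul_div, le_div_iff₀ hn0]
            linarith
          _ = _ := by ring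
      have h8 : ∑ r ∈ univ.filter (fun r => ¬ r ∈ R), (TT (D r) F : ℝ) ≤ β * f ^ 2 := by
        calc _ ≤ ∑ _r ∈ univ.filter (fun r => ¬ r ∈ R), β * f :=
              sum_le_sum fun r hr => h5 r (mem_filter.1 hr).2
          _ = ((univ.filter (fun r => ¬ r ∈ R)).card : ℝ) * (β * f) := by
            rw [sum_const, nsmul_eq_mul]
          _ ≤ f * (β * f) := by
            gcongr
            rw [hf]
            have : (univ.filter (fun r => ¬ r ∈ R)).card ≤ n.factorial := by
              refine (card_le_univ _).trans ?_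
              rw [Fintype.card_perm, Fintype.card_fin]
            exact_mod_cast this
          _ = _ := by ring
      linarith
    have h7 : (∑ r : Equiv.Perm (Fin n), (TT (D r) F : ℝ)) / f ^ 2 ≤ C3 / n + β := by
      rw [div_le_iff₀ (by positivity)]; exact h6
    have h8 : 0 ≤ (∑ r : Equiv.Perm (Fin n), (TT (D r) F : ℝ)) / f ^ 2 := by positivity
    have h9 : ((∑ r : Equiv.Perm (Fin n), (TT (D r) F : ℝ)) / f ^ 2) ^ 4 ≤ (C3 / n + β) ^ 4 := by
      gcongr
    have h10 : (C3 / n + β) ^ 4 ≤ 8 * ((C3 / n) ^ 4 + β ^ 4) := by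
      nlinarith [sq_nonneg (C3 / n - β), sq_nonneg ((C3 / n) ^ 2 - β ^ 2), sq_nonneg (C3 / n + β),
        mul_nonneg (sq_nonneg (C3 / n - β)) (sq_nonneg (C3 / n + β)),
        mul_nonneg (sq_nonneg (C3 / n - β)) (sq_nonneg (C3 / n)),
        mul_nonneg (sq_nonneg (C3 / n - β)) (sq_nonneg β),
        mul_nonneg (sq_nonneg (C3 / n - β)) (mul_pos hq0 hβ0).le]
    have hn1 : (1 : ℝ) ≤ n := by exact_mod_cast hn
    have h11 : (n : ℝ) * (8 * ((C3 / n) ^ 4 + β ^ 4)) ≤ 8 * (C3 ^ 4 + C3) := by
      rw [hβ4]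
      have e1 : (n : ℝ) * (C3 / n) ^ 4 = C3 ^ 4 / (n : ℝ) ^ 3 := by field_simp
      have e2 : (n : ℝ) * (C3 / n) = C3 := by field_simp
      have e3 : C3 ^ 4 / (n : ℝ) ^ 3 ≤ C3 ^ 4 := by
        apply div_le_self (by positivity)
        exact one_le_pow₀ hn1
      calc (n : ℝ) * (8 * ((C3 / n) ^ 4 + C3 / n)) =
            8 * ((n : ℝ) * (C3 / n) ^ 4 + (n : ℝ) * (C3 / n)) := by ring
        _ ≤ _ := by rw [e1, e2]; linarith
    calc _ ≤ (n : ℝ) * (8 * ((C3 / n) ^ 4 + β ^ 4)) := by
          gcongr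
          exact h9.trans h10
      _ ≤ 8 * (C3 ^ 4 + C3) := h11
      _ ≤ _ := by
        have : 0 ≤ C1 + 1000 * C2 := by positivity
        linarith

end Pool.Agent.Results.MP_42db45_gt.RandomStars
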