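import Pool.Agent.U64.AN.Hyp

/-!
# Vojta's inequality with truncated counting fails without `ε` in every adelic neighbourhood

`K` is a number field of degree `d`, `n ≥ 1`, and `D` is an effective divisor on `ℙ^n` over `K`, the sum
of hypersurfaces `D_j : F_j = 0` of degrees `e_j`; so `h_{K_X + D} = (∑ e_j - n - 1) h`.  The truncated
counting function `N^(k)(D, P)` counts a prime at which `λ_{D,v}(P) > 0` with its multiplicity but at
most `k` times, `N^(1)` is the function of Vojta's conjecture; there is no exceptional set `S` of primes
here, which makes `N^(k)` as large as possible.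

Theorem (1).  Suppose that there is a `K`-rational point `V` such that the multiplicities of the `D_j` at
`V` add up to at least `n`, and that two of the `D_j` have multiplicity `e_j - 1` at `V`, so that they
meet the general line through `V` in one further point each, and these two points are different.  Then
for every point `y` of `K^(n+1)`, all finite sets `S` of primes and all `δ > 0`, every hypersurface
`G = 0`, every truncation level `k` and every `c < 1/(2d)` there are points `P = [z]` of arbitrarily
large height, `z ∈ K^(n+1)`, off `D` and off `G = 0`, with `‖z_i - y_i‖_v < δ` for all `v ∈ S` and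
`|z_i - y_i|_w < δ` for ALL infinite places `w`, and with

`h_{K_X + D}(P) ≥ N^(k)(D, P) + c log h(P)`.

(2) This applies if `D` is the sum of `n + 2` hyperplanes in general position and of any further
hypersurfaces, for example to the divisor `Z_1 ⋯ Z_{n+2} = 0` on `Z_1 + ⋯ + Z_{n+2} = 0` (the `n`-term
abc conjecture).  Other examples: `n = 1` and three or more `K`-rational points, and in the plane two
conics meeting transversally in a `K`-rational point.

So the term `ε h_A(P)` in Vojta's conjecture (with rational points, `r = 1`) is needed in every nonempty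
open subset of a product of finitely many completions, including all the archimedean ones, outside
every proper closed subset, at every truncation level; and it cannot be replaced there by one smaller
than `(1/(2d)) log h`.

The proof.  On a line through `V`, close to `y`, in general position, with the coordinate `x` for which
`V` is `∞` and the two further points are `0` and `1`, take the `T`-units `x` of
`U64/DP` with `x ≡ 1` modulo a high power of a prime `𝔮` of degree one, constructed with powers of two
rational integers near `1` at all places of `S` and inhomogeneous Diophantine approximation.  Then the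
components through `V` and the first special component contribute `O(1)` besides their further
intersections with the line, and the second one contributes `h(x) - m log N(𝔮) + O(1)`.
-/

set_option autoImplicit false

namespace Pool.Agent.Results.MP_44a246_nt.AdelicNeighbourhoods

open NumberField IsDedekindDomain

variable {K : Type} [Field K] [NumberField K]

/-- The absolute logarithmic height `h(P)` of the point `P` of `ℙ^n(K)` with coordinates `z`. -/
noncomputable def height {n : ℕ} (z : Fin (n + 1) → K) : ℝ :=
  (∑ w : InfinitePlace K, (w.mult : ℝ) * Real.log (⨆ i, w (z i)) +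
    ∑ᶠ v : HeightOneSpectrum (𝓞 K), Real.log (⨆ i, FinitePlace.mk v (z i))) /
    (Module.finrank ℚ K : ℝ)

/-- The local height at the prime `v` of the point with homogeneous coordinates `z`, relative to
the hypersurface `F = 0` of degree `e`: the logarithm of `|F|_v |z|_v ^ e / |F(z)|_v`, where `|F|_v`
and `|z|_v` are the maxima of the values of the coefficients and of the coordinates. -/
noncomputable def weil {n : ℕ} (v : HeightOneSpectrum (𝓞 K)) (F : MvPolynomial (Fin (n + 1)) K)
    (e : ℕ) (z : Fin (n + 1) → K) : ℝ :=
  Real.log ((⨆ m : F.support, FinitePlace.mk v (F.coeff m)) * (⨆ j, FinitePlace.mk v (z j)) ^ e /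
    FinitePlace.mk v (MvPolynomial.eval z F))

/-- The counting function `N^(k)(D, P)` truncated at level `k` of the sum `D` of the hypersurfaces
`F j = 0` of degree `e j`: `1/d` times the sum over all primes `v` of `min (k log N(v), λ_{D,v}(P))`. -/
noncomputable def count {n : ℕ} {ι : Type} [Fintype ι] (k : ℕ)
    (F : ι → MvPolynomial (Fin (n + 1)) K) (e : ι → ℕ) (z : Fin (n + 1) → K) : ℝ :=
  (∑ᶠ v : HeightOneSpectrum (𝓞 K), min (k * Real.log (Ideal.absNorm v.asIdeal : ℝ))
    (∑ j, weil v (F j) (e j) z)) / (Module.finrank ℚ K : ℝ)

/-- The polynomial `F (y + s V)` in `s`, that is the restriction of `F` to the line through `y` and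
`V`, with `V` as the point at infinity. A form `F` of degree `e` has multiplicity at least `e - t` at
`V` if and only if the degree of this polynomial is at most `t` for every `y`. -/
noncomputable def restrict {n : ℕ} (F : MvPolynomial (Fin (n + 1)) K) (y V : Fin (n + 1) → K) :
    Polynomial K :=
  MvPolynomial.aeval (fun i => Polynomial.C (y i) + Polynomial.X * Polynomial.C (V i)) F

/-- The linear form with the coefficients `l`. -/
noncomputable def linearForm {n : ℕ} (l : Fin (n + 1) → K) : MvPolynomial (Fin (n + 1)) K :=
  ∑ j, MvPolynomial.C (l j) * MvPolynomial.X j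

/-- The conclusion: near the point `y` of `K^(n+1)`, at the primes of `S` and at all infinite places,
there are points `z` off `D` (the sum of the `F j = 0`) and off `G = 0`, of arbitrarily large height
(`≥ B`), which violate the inequality `h_{K_X + D} ≤ N^(k)(D, ·)`, for all truncation levels `k`, by at
least `c log h`, for all `c < 1/(2d)`. -/
def FailsEverywhere {n : ℕ} {ι : Type} [Fintype ι] (F : ι → MvPolynomial (Fin (n + 1)) K)
    (e : ι → ℕ) : Prop :=
  ∀ (y : Fin (n + 1) → K) (S : Set (HeightOneSpectrum (𝓞 K))), S.Finite → ∀ δ : ℝ, 0 < δ →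
    ∀ G : MvPolynomial (Fin (n + 1)) K, G ≠ 0 → ∀ (k : ℕ) (c : ℝ),
      c < 1 / (2 * (Module.finrank ℚ K : ℝ)) → ∀ B : ℝ,
        ∃ z : Fin (n + 1) → K, (∀ v ∈ S, ∀ i, FinitePlace.mk v (z i - y i) < δ) ∧
          (∀ (w : InfinitePlace K) i, w (z i - y i) < δ) ∧
          (∀ j, MvPolynomial.eval z (F j) ≠ 0) ∧ MvPolynomial.eval z G ≠ 0 ∧ B ≤ height z ∧
          count k F e z + c * Real.log (height z) ≤ (∑ j, (e j : ℝ) - n - 1) * height z

/-- **Theorem.** (1) Let `K` be a number field, `n ≥ 1`, `D` the sum of the hypersurfaces `F j = 0` of
degrees `e j` in `ℙ^n`, `V` a point of `ℙ^n(K)`, `F j` of multiplicity at least `e j - t j` at `V`,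
`∑ (e j - t j) ≥ n`, and `t j₁ = t j₂ = 1`, where for some `y` the restrictions of `F j₁` and `F j₂` to
the line through `y` and `V` have degree one and no common zero. Then the inequality
`h_{K_X + D} ≤ N^(k)(D, ·)` fails in every adelic neighbourhood, as described in `FailsEverywhere`.
(2) In particular this holds if `D` is the sum of `n + 2` hyperplanes in general position and of
arbitrary further hypersurfaces. -/
theorem result :
    (∀ (K : Type) [Field K] [NumberField K] (n : ℕ) (ι : Type) [Fintype ι]
      (F : ι → MvPolynomial (Fin (n + 1)) K) (e t : ι → ℕ) (V : Fin (n + 1) → K) (j₁ j₂ : ι),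
      1 ≤ n → V ≠ 0 → (∀ j, F j ≠ 0 ∧ (F j).IsHomogeneous (e j)) →
      (∀ j y, (restrict (F j) y V).natDegree ≤ t j) → n + ∑ j, t j ≤ ∑ j, e j →
      t j₁ = 1 → t j₂ = 1 →
      (∃ y, (restrict (F j₁) y V).natDegree = 1 ∧ (restrict (F j₂) y V).natDegree = 1 ∧
        ∀ s, ¬ ((restrict (F j₁) y V).eval s = 0 ∧ (restrict (F j₂) y V).eval s = 0)) →
      FailsEverywhere F e) ∧
    (∀ (K : Type) [Field K] [NumberField K] (n r : ℕ) (l : Fin (n + 2) → Fin (n + 1) → K)
      (F : Fin r → MvPolynomial (Fin (n + 1)) K) (e : Fin r → ℕ), 1 ≤ n →
      (∀ I : Finset (Fin (n + 2)), I.card = n + 1 → LinearIndependent K (fun i : I => l i)) →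
      (∀ j, F j ≠ 0 ∧ (F j).IsHomogeneous (e j)) →
      FailsEverywhere (Sum.elim (fun i => linearForm (l i)) F) (Sum.elim (fun _ => 1) e)) := by
  constructor
  · intro K _ _ n ι _ F e t V j₁ j₂ hn hV hF ht hsum h1 h2 hgen y S hS δ hδ G hG k c hc B
    obtain ⟨z, z1, z2, z3⟩ := Pool.Agent.U64.AN.main hn hV (fun j => (hF j).1) ht hsum h1 h2 hgen
      y hS.toFinset hδ hG k hc B
    exact ⟨z, fun v hv i => z1 v (by rwa [Set.Finite.mem_toFinset]) i, z2, z3⟩
  · intro K _ _ n r l F e hn hl hF y S hS δ hδ G hG k c hc B
    obtain ⟨z, z1, z2, z3, z4, z5, z6, z7⟩ := Pool.Agent.U64.AN.hyper hn hl hF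
      y hS.toFinset hδ hG k hc B
    refine ⟨z, fun v hv i => z1 v (by rwa [Set.Finite.mem_toFinset]) i, z2, ?_, z5, z6, ?_⟩
    · rintro (i | j)
      · have := z3 i
        rw [← Pool.Agent.U64.AN.lf_eval] at this
        exact this
      · exact z4 j
    · refine le_trans z7 (le_of_eq ?_)
      change _ = (∑ j, ((Sum.elim (fun _ => 1) e j : ℕ) : ℝ) - n - 1) * height z
      congr 1
      rw [Fintype.sum_sum_type]
      simp only [Sum.elim_inl, Sum.elim_inr, Nat.cast_one, Finset.sum_const, Finset.card_univ,
        Fintype.card_fin, nsmul_eq_mul, mul_one]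
      push_cast
      ring

end Pool.Agent.Results.MP_44a246_nt.AdelicNeighbourhoods
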