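import Pool.Agent.U922.XQ.C

set_option autoImplicit false

/-!
# MP_493793_nt: the exponent pairs of almost every random set of integers

(1) Let `x_n` be independent real random variables with `|x_n| ≤ 1`, mean `0` and `E x_n^2 ≤ v_n`. Almost surely, for all
`ε > 0`, `C > 0` there is `K` with `|∑_{N ≤ n ≤ N'} x_n e(f(n))| ≤ K (1 + ∑_{N ≤ n ≤ 2N} v_n)^(1/2) F^ε` for all
`2 ≤ N ≤ N' ≤ 2N`, all `F ≥ N` and ALL real `f` with `|f^(r)| ≤ C F/N^r` on `[N, 2N]`, `r = ⌊2/ε^2 + 2/ε⌋ + 1`. For random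
signs this is the bound `K N^(1/2) F^ε` of the exponent pair conjecture, for all functions of the class at once.

(2) Let `ξ_n` be independent random weights in `[0,1]` (e.g. the indicator function of a random set) with the same mean `q > 0`.
Almost surely, for all `κ, l ≥ 0` at once: `(κ, l)` is an exponent pair for the sums weighted with `ξ_n` if and only if it is an
exponent pair. So the exponent pairs of almost every random set are those of the set of all integers; `κ = l = 0` is the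
question.

Proof: the `2s`-th moments of the coefficients of the `s`-th power of a block sum, as a polynomial in the exponentials of the
coefficients of the phase, are bounded by `C_s` times the `s`-th power of the variance; this bounds the supremum over all
polynomials of degree `< r` on every block, almost surely for all blocks at once; on blocks of length `N^(1 - ε/2)` the function
`f` is replaced by its Taylor polynomial.
-/

namespace Pool.Agent.Results.MP_493793_nt.RandomSets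

open Finset MeasureTheory ProbabilityTheory

/-- the weighted sum `∑_{N ≤ n ≤ N'} w_n e(f(n))` -/
noncomputable def wsum (w : ℕ → ℝ) (f : ℝ → ℝ) (N N' : ℝ) : ℂ :=
  ∑ n ∈ Finset.Icc ⌈N⌉₊ ⌊N'⌋₊, (w n : ℂ) * Complex.exp (2 * (Real.pi : ℂ) * Complex.I * ((f (n : ℝ) : ℝ) : ℂ))

/-- the order of the derivative which is bounded -/
noncomputable def order (ε : ℝ) : ℕ := ⌊2 / ε ^ 2 + 2 / ε⌋₊ + 1

/-- square root cancellation, up to `F^ε`, relative to the variances `v_n`, for all functions with one bounded derivative -/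
def Cancel (w v : ℕ → ℝ) : Prop :=
  ∀ ε : ℝ, 0 < ε → ∀ C : ℝ, 0 < C → ∃ K : ℝ, ∀ N N' F : ℝ, ∀ f : ℝ → ℝ,
    2 ≤ N → N ≤ N' → N' ≤ 2 * N → N ≤ F →
    ContDiffOn ℝ (order ε : WithTop ℕ∞) f (Set.Icc N (2 * N)) →
    (∀ x ∈ Set.Icc N (2 * N), |iteratedDerivWithin (order ε) f (Set.Icc N (2 * N)) x| ≤ C * F / N ^ order ε) →
    ‖wsum w f N N'‖ ≤ K * (1 + ∑ n ∈ Finset.Icc ⌈N⌉₊ ⌊2 * N⌋₊, v n) ^ (1 / 2 : ℝ) * F ^ ε

/-- `(κ, l)` is an exponent pair for the weights `w`; `w = 1` is the definition of the problem, and `Pair 0 0 1` is Q1 -/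
def Pair (κ l : ℝ) (w : ℕ → ℝ) : Prop :=
  ∀ ε : ℝ, 0 < ε → ∀ c C : ℕ → ℝ, (∀ j, 0 < c j) → (∀ j, 0 < C j) →
    ∃ K : ℝ, ∀ N N' F : ℝ, ∀ f : ℝ → ℝ,
      2 ≤ N → N ≤ N' → N' ≤ 2 * N → N ≤ F →
      ContDiffOn ℝ (⊤ : ℕ∞) f (Set.Icc N (2 * N)) →
      (∀ j : ℕ, ∀ x ∈ Set.Icc N (2 * N),
          c j * F / N ^ j ≤ |iteratedDerivWithin j f (Set.Icc N (2 * N)) x| ∧
          |iteratedDerivWithin j f (Set.Icc N (2 * N)) x| ≤ C j * F / N ^ j) →
      ‖wsum w f N N'‖ ≤ K * (F ^ κ * N ^ (l - κ + 1 / 2)) * F ^ ε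

/-- independent centred random variables in `[-1,1]` with variances at most `v_n` -/
structure Centred {Ω : Type*} [MeasurableSpace Ω] (μ : Measure Ω) (x : ℕ → Ω → ℝ) (v : ℕ → ℝ) : Prop where
  meas : ∀ n, Measurable (x n)
  ind : iIndepFun x μ
  bdd : ∀ n ω, |x n ω| ≤ 1
  mean : ∀ n, ∫ ω, x n ω ∂μ = 0
  var : ∀ n, ∫ ω, (x n ω) ^ 2 ∂μ ≤ v n

/-- independent random weights in `[0,1]` with mean `q` (for weights `0` and `1`: a random set of density `q`) -/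
structure Weights {Ω : Type*} [MeasurableSpace Ω] (μ : Measure Ω) (ξ : ℕ → Ω → ℝ) (q : ℝ) : Prop where
  meas : ∀ n, Measurable (ξ n)
  ind : iIndepFun ξ μ
  mem : ∀ n ω, 0 ≤ ξ n ω ∧ ξ n ω ≤ 1
  mean : ∀ n, ∫ ω, ξ n ω ∂μ = q

section
variable {Ω : Type*} [MeasurableSpace Ω] {μ : Measure Ω} [IsProbabilityMeasure μ]

theorem cancel {x : ℕ → Ω → ℝ} {v : ℕ → ℝ} (h : Centred μ x v) : ∀ᵐ ω ∂μ, Cancel (fun n => x n ω) v := by
  have hc : Pool.Agent.U922.XQ.Cen μ x v := ⟨h.meas, h.ind, h.bdd, h.mean, h.var⟩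
  have h1 : ∀ᵐ ω ∂μ, ∀ m j : ℕ, Pool.Agent.U922.XQ.GoodW m (1 / ((j : ℝ) + 1)) (fun n => x n ω) v := by
    rw [ae_all_iff]
    intro m
    rw [ae_all_iff]
    intro j
    exact hc.ae_good m _ (by positivity)
  filter_upwards [h1] with ω hω
  intro ε hε C hC
  obtain ⟨j, hj⟩ := exists_nat_ge (2 / ε)
  obtain ⟨m, hm⟩ : ∃ m : ℕ, m = ⌊2 / ε ^ 2 + 2 / ε⌋₊ := ⟨_, rfl⟩
  have hjε : 1 / ((j : ℝ) + 1) ≤ ε / 2 := by
    rw [div_le_iff₀ (by positivity)]
    rw [div_le_iff₀ hε] at hj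
    nlinarith
  have hG : Pool.Agent.U922.XQ.GoodW m (ε / 2) (fun n => x n ω) v := by
    obtain ⟨K, hK, hb⟩ := hω m j
    refine ⟨K, hK, fun a M ha hM c => (hb a M ha hM c).trans ?_⟩
    have ha1 : (1 : ℝ) ≤ a := by exact_mod_cast ha
    have h2 := Real.rpow_le_rpow_of_exponent_le ha1 hjε
    have hT : 0 ≤ Pool.Agent.U922.XQ.TV v a M := by linarith [hc.one_le_TV a M]
    exact mul_le_mul_of_nonneg_right (mul_le_mul_of_nonneg_left h2 (by linarith)) (Real.rpow_nonneg hT _)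
  have hm2 : 1 / ε + 1 ≤ ε / 2 * (m + 1) := by
    have h2 : 2 / ε ^ 2 + 2 / ε < m + 1 := by rw [hm]; exact Nat.lt_floor_add_one _
    have h3 : ε / 2 * (2 / ε ^ 2 + 2 / ε) = 1 / ε + 1 := by field_simp
    rw [← h3]
    exact mul_le_mul_of_nonneg_left h2.le (by positivity)
  obtain ⟨K, -, hK⟩ := Pool.Agent.U922.XQ.detW hε hm2 (fun n => h.bdd n ω) hc.v_nonneg hG C hC
  have ho : order ε = m + 1 := by unfold order; rw [hm]
  refine ⟨K, fun N N' F f a1 a2 a3 a4 a5 a6 => ?_⟩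
  rw [ho] at a5 a6
  exact hK N N' F f a1 a2 a3 a4 a5 a6

theorem pair_iff {ξ : ℕ → Ω → ℝ} {q : ℝ} (hq : 0 < q) (h : Weights μ ξ q) :
    ∀ᵐ ω ∂μ, ∀ κ l : ℝ, 0 ≤ κ → 0 ≤ l → (Pair κ l (fun n => ξ n ω) ↔ Pair κ l (fun _ => 1)) := by
  have hint : ∀ n, Integrable (ξ n) μ := fun n =>
    Integrable.of_bound (C := 1) (h.meas n).aestronglyMeasurable (Filter.Eventually.of_forall fun ω => by
      rw [Real.norm_eq_abs, abs_of_nonneg (h.mem n ω).1]; exact (h.mem n ω).2)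
  have hq1 : q ≤ 1 := by
    rw [← h.mean 0]
    calc ∫ ω, ξ 0 ω ∂μ ≤ ∫ _ω, (1 : ℝ) ∂μ := integral_mono (hint 0) (integrable_const _) fun ω => (h.mem 0 ω).2
      _ = 1 := by simp
  have hx : Centred μ (fun n ω => ξ n ω - q) (fun _ => 1) := by
    refine ⟨fun n => (h.meas n).sub_const q, ?_, ?_, ?_, ?_⟩
    · exact h.ind.comp (fun _ t => t - q) (fun _ => measurable_id.sub_const q)
    · intro n ω
      have := h.mem n ω
      rw [abs_le]
      constructor <;> linarith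
    · intro n
      rw [integral_sub (hint n) (integrable_const _), h.mean n]
      simp
    · intro n
      have h1 : ∀ ω, (ξ n ω - q) ^ 2 ≤ 1 := by
        intro ω
        have := h.mem n ω
        nlinarith
      calc ∫ ω, (ξ n ω - q) ^ 2 ∂μ ≤ ∫ _ω, (1 : ℝ) ∂μ := by
            refine integral_mono_of_nonneg (Filter.Eventually.of_forall fun ω => sq_nonneg _) (integrable_const _)
              (Filter.Eventually.of_forall h1)
        _ = 1 := by simp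
  filter_upwards [cancel hx] with ω hω κ l hκ hl
  -- the difference
  have hdiff : ∀ ε : ℝ, 0 < ε → ∀ C : ℕ → ℝ, (∀ j, 0 < C j) → ∃ K : ℝ, 0 ≤ K ∧ ∀ N N' F : ℝ, ∀ f : ℝ → ℝ,
      2 ≤ N → N ≤ N' → N' ≤ 2 * N → N ≤ F →
      ContDiffOn ℝ (⊤ : ℕ∞) f (Set.Icc N (2 * N)) →
      (∀ j : ℕ, ∀ x ∈ Set.Icc N (2 * N), |iteratedDerivWithin j f (Set.Icc N (2 * N)) x| ≤ C j * F / N ^ j) →
      ‖wsum (fun n => ξ n ω - q) f N N'‖ ≤ K * (F ^ κ * N ^ (l - κ + 1 / 2)) * F ^ ε := by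
    intro ε hε C hC
    obtain ⟨K, hK⟩ := hω ε hε (C (order ε)) (hC _)
    refine ⟨|K| * 2, by positivity, fun N N' F f a1 a2 a3 a4 a5 a6 => ?_⟩
    have h1 := hK N N' F f a1 a2 a3 a4 (a5.of_le (by exact_mod_cast le_top)) fun x hx => a6 _ x hx
    have hN0 : 0 < N := by linarith
    have hF0 : 0 < F := by linarith
    have hFe : 0 < F ^ ε := Real.rpow_pos_of_pos hF0 _
    have hcard : (1 + ∑ _n ∈ Finset.Icc ⌈N⌉₊ ⌊2 * N⌋₊, (1 : ℝ)) ≤ 2 * N := by
      rw [Finset.sum_const, nsmul_eq_mul, mul_one, Nat.card_Icc]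
      rcases Nat.lt_or_ge ⌊2 * N⌋₊ ⌈N⌉₊ with hh | hh
      · have : ⌊2 * N⌋₊ + 1 - ⌈N⌉₊ = 0 := by omega
        rw [this]; push_cast; linarith
      · rw [Nat.cast_sub (by omega)]
        push_cast
        have h1 := Nat.floor_le (by linarith : 0 ≤ 2 * N)
        have h2 := Nat.le_ceil N
        linarith
    have hsq : (1 + ∑ _n ∈ Finset.Icc ⌈N⌉₊ ⌊2 * N⌋₊, (1 : ℝ)) ^ (1 / 2 : ℝ) ≤ 2 * (F ^ κ * N ^ (l - κ + 1 / 2)) := by
      have h2 : (1 + ∑ _n ∈ Finset.Icc ⌈N⌉₊ ⌊2 * N⌋₊, (1 : ℝ)) ^ (1 / 2 : ℝ) ≤ (2 * N) ^ (1 / 2 : ℝ) :=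
        Real.rpow_le_rpow (by positivity) hcard (by norm_num)
      have h3 : (2 * N) ^ (1 / 2 : ℝ) ≤ 2 * N ^ (1 / 2 : ℝ) := by
        rw [Real.mul_rpow (by norm_num) hN0.le]
        refine mul_le_mul_of_nonneg_right ?_ (by positivity)
        calc (2 : ℝ) ^ (1 / 2 : ℝ) ≤ 2 ^ (1 : ℝ) := Real.rpow_le_rpow_of_exponent_le (by norm_num) (by norm_num)
          _ = 2 := Real.rpow_one 2
      have h4 : N ^ (1 / 2 : ℝ) ≤ F ^ κ * N ^ (l - κ + 1 / 2) := by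
        have h5 : N ^ κ ≤ F ^ κ := Real.rpow_le_rpow hN0.le a4 hκ
        have h6 : (1 : ℝ) ≤ N ^ l := Real.one_le_rpow (by linarith) hl
        calc N ^ (1 / 2 : ℝ) ≤ N ^ l * N ^ (1 / 2 : ℝ) := by
              have : 0 ≤ N ^ (1 / 2 : ℝ) := by positivity
              nlinarith
          _ = N ^ κ * N ^ (l - κ + 1 / 2) := by
              rw [← Real.rpow_add hN0, ← Real.rpow_add hN0]
              congr 1
              ring
          _ ≤ _ := mul_le_mul_of_nonneg_right h5 (by positivity)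
      linarith
    refine h1.trans ?_
    refine mul_le_mul_of_nonneg_right ?_ hFe.le
    calc K * (1 + ∑ _n ∈ Finset.Icc ⌈N⌉₊ ⌊2 * N⌋₊, (1 : ℝ)) ^ (1 / 2 : ℝ)
        ≤ |K| * (1 + ∑ _n ∈ Finset.Icc ⌈N⌉₊ ⌊2 * N⌋₊, (1 : ℝ)) ^ (1 / 2 : ℝ) :=
          mul_le_mul_of_nonneg_right (le_abs_self K) (by positivity)
      _ ≤ |K| * (2 * (F ^ κ * N ^ (l - κ + 1 / 2))) := mul_le_mul_of_nonneg_left hsq (abs_nonneg K)
      _ = _ := by ring
  have hlin : ∀ (f : ℝ → ℝ) (N N' : ℝ), wsum (fun n => ξ n ω) f N N' =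
      wsum (fun n => ξ n ω - q) f N N' + (q : ℂ) * wsum (fun _ => 1) f N N' := by
    intro f N N'
    unfold wsum
    rw [Finset.mul_sum, ← Finset.sum_add_distrib]
    refine Finset.sum_congr rfl fun n _ => ?_
    push_cast
    ring
  have hqn : ‖(q : ℂ)‖ = q := by rw [Complex.norm_real, Real.norm_eq_abs, abs_of_pos hq]
  constructor
  · intro hP ε hε c C hc hC
    obtain ⟨K1, hK1, hd⟩ := hdiff ε hε C hC
    obtain ⟨K2, hp⟩ := hP ε hε c C hc hC
    refine ⟨q⁻¹ * (K2 + K1), fun N N' F f a1 a2 a3 a4 a5 a6 => ?_⟩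
    have h1 := hd N N' F f a1 a2 a3 a4 a5 fun j x hx => (a6 j x hx).2
    have h2 := hp N N' F f a1 a2 a3 a4 a5 a6
    have h3 : (q : ℂ) * wsum (fun _ => 1) f N N' = wsum (fun n => ξ n ω) f N N' - wsum (fun n => ξ n ω - q) f N N' := by
      rw [hlin]; ring
    have h4 : q * ‖wsum (fun _ => 1) f N N'‖ ≤ (K2 + K1) * (F ^ κ * N ^ (l - κ + 1 / 2)) * F ^ ε := by
      rw [← hqn, ← norm_mul, h3]
      refine (norm_sub_le _ _).trans ?_
      have : (K2 + K1) * (F ^ κ * N ^ (l - κ + 1 / 2)) * F ^ ε = K2 * (F ^ κ * N ^ (l - κ + 1 / 2)) * F ^ ε +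
          K1 * (F ^ κ * N ^ (l - κ + 1 / 2)) * F ^ ε := by ring
      linarith
    calc ‖wsum (fun _ => 1) f N N'‖ = q⁻¹ * (q * ‖wsum (fun _ => 1) f N N'‖) := by field_simp
      _ ≤ q⁻¹ * ((K2 + K1) * (F ^ κ * N ^ (l - κ + 1 / 2)) * F ^ ε) := mul_le_mul_of_nonneg_left h4 (by positivity)
      _ = _ := by ring
  · intro hP ε hε c C hc hC
    obtain ⟨K1, hK1, hd⟩ := hdiff ε hε C hC
    obtain ⟨K2, hp⟩ := hP ε hε c C hc hC
    refine ⟨K1 + q * K2, fun N N' F f a1 a2 a3 a4 a5 a6 => ?_⟩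
    have h1 := hd N N' F f a1 a2 a3 a4 a5 fun j x hx => (a6 j x hx).2
    have h2 := hp N N' F f a1 a2 a3 a4 a5 a6
    rw [hlin]
    refine (norm_add_le _ _).trans ?_
    rw [norm_mul, hqn]
    have h3 := mul_le_mul_of_nonneg_left h2 hq.le
    have : (K1 + q * K2) * (F ^ κ * N ^ (l - κ + 1 / 2)) * F ^ ε = K1 * (F ^ κ * N ^ (l - κ + 1 / 2)) * F ^ ε +
        q * (K2 * (F ^ κ * N ^ (l - κ + 1 / 2)) * F ^ ε) := by ring
    linarith

end

/-- (1) Almost surely square root cancellation for random centred weights, for all functions at once; (2) almost every random set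
has exactly the exponent pairs of the integers. -/
theorem result {Ω : Type*} [MeasurableSpace Ω] (μ : Measure Ω) [IsProbabilityMeasure μ] :
    (∀ (x : ℕ → Ω → ℝ) (v : ℕ → ℝ), Centred μ x v → ∀ᵐ ω ∂μ, Cancel (fun n => x n ω) v) ∧
    (∀ (ξ : ℕ → Ω → ℝ) (q : ℝ), 0 < q → Weights μ ξ q →
      ∀ᵐ ω ∂μ, ∀ κ l : ℝ, 0 ≤ κ → 0 ≤ l → (Pair κ l (fun n => ξ n ω) ↔ Pair κ l (fun _ => 1))) :=
  ⟨fun _ _ h => cancel h, fun _ _ hq h => pair_iff hq h⟩

end Pool.Agent.Results.MP_493793_nt.RandomSets
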