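import Pool.Agent.U708.RPC.Cond

/-!
# The quantitative Hypothesis H for translates of random polynomials, also with prescribed prime values

The Bateman-Horn formula for the simultaneous prime values of SEVERAL TRANSLATES `f_i(x + h_j)` of random
polynomials (which are not independent of each other): up to `d` translates of every polynomial of degree
at most `d`, for example for the values `f(n)` and `f(n + 2)` of almost all quadratic polynomials `f`. The
arguments `n` run up to `x`, for all `x` between `(log H) ^ (k + ε)` (almost optimal) and any power of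
`log H`. The formula also holds for almost all members of the sparse families of the systems which have
prime values at prescribed arguments.

Proof. `TP975/RP` (starting files): the second moment over the systems. With `n` and `n'` one has up to
`2 d + 1` values of a polynomial with `d + 1` coefficients (complexity one: a bilinear estimate and the
theorem of Siegel and Walfisz), and a weight which detects the primes at the prescribed arguments;
`U708/RPC`: the passage to almost all members of the family.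
-/

set_option autoImplicit false

namespace Pool.Agent.Results.MP_51e72e_nt.TranslatesOfRandomPolynomials

open Finset

/-- The value at `t` of the polynomial `f` with the coefficients `f 0, ..., f d`. -/
def value {d : ℕ} (f : Fin (d + 1) → ℤ) (t : ℤ) : ℤ := ∑ c, f c * t ^ (c : ℕ)

/-- The systems `f 0, ..., f (m - 1)` of polynomials of degree at most `d` with coefficients in `[-H, H]`. -/
noncomputable def systems (m d H : ℕ) : Finset (Fin m → Fin (d + 1) → ℤ) :=
  Fintype.piFinset fun _ => Fintype.piFinset fun _ => Icc (-(H : ℤ)) H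

/-- The systems for which the absolute values of `f_(tau i)(t i)`, `i < s`, are primes. -/
noncomputable def family {m s : ℕ} (d H : ℕ) (tau : Fin s → Fin m) (t : Fin s → ℤ) :
    Finset (Fin m → Fin (d + 1) → ℤ) :=
  (systems m d H).filter (fun f => ∀ i, (value (f (tau i)) (t i)).natAbs.Prime)

/-- The prescribed arguments of one polynomial are distinct, the translates `f_(io j)(x + h j)` of one
polynomial are distinct, and the number of prescribed arguments plus twice the number of translates of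
every polynomial is at most `2 d + 1`. -/
def Compatible {m s k : ℕ} (d : ℕ) (tau : Fin s → Fin m) (t : Fin s → ℤ) (io : Fin k → Fin m)
    (h : Fin k → ℕ) : Prop :=
  (∀ i i', i ≠ i' → tau i = tau i' → t i ≠ t i') ∧
  (∀ j j', j ≠ j' → io j = io j' → h j ≠ h j') ∧
  ∀ l, (univ.filter (fun i => tau i = l)).card + 2 * (univ.filter (fun j => io j = l)).card ≤ 2 * d + 1

/-- The number of the residues `n` modulo `p` such that `p` divides one of the values
`f_(io j)(n + h j)`. -/
def omega {m d k : ℕ} (io : Fin k → Fin m) (h : Fin k → ℕ) (f : Fin m → Fin (d + 1) → ℤ) (p : ℕ) : ℕ :=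
  ((range p).filter (fun n : ℕ => ∃ j, (p : ℤ) ∣ value (f (io j)) ((n : ℤ) + h j))).card

/-- The Bateman-Horn constant truncated at `w`: the product over the primes `p ≤ w` of
`(1 - omega(p) / p) (1 - 1 / p) ^ (-k)`. -/
noncomputable def constant {m d k : ℕ} (w : ℕ) (io : Fin k → Fin m) (h : Fin k → ℕ)
    (f : Fin m → Fin (d + 1) → ℤ) : ℝ :=
  ∏ p ∈ (Icc 1 w).filter Nat.Prime, (1 - (omega io h f p : ℝ) / p) * ((1 - 1 / (p : ℝ))⁻¹) ^ k

/-- The number of the `n ≤ x` for which the absolute values of all the `f_(io j)(n + h j)`, `j < k`, are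
primes. -/
def count {m d k : ℕ} (io : Fin k → Fin m) (h : Fin k → ℕ) (f : Fin m → Fin (d + 1) → ℤ) (x : ℕ) : ℕ :=
  ((Icc 1 x).filter (fun n : ℕ => ∀ j, (value (f (io j)) ((n : ℤ) + h j)).natAbs.Prime)).card

open Classical in
/-- The systems of the family without a local obstruction at the primes `p ≤ w`, for which the formula
fails. -/
noncomputable def exceptions {m s k : ℕ} (d H : ℕ) (tau : Fin s → Fin m) (t : Fin s → ℤ)
    (io : Fin k → Fin m) (h : Fin k → ℕ) (w x : ℕ) (δ : ℝ) : Finset (Fin m → Fin (d + 1) → ℤ) :=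
  (family d H tau t).filter (fun f => (∀ p ≤ w, p.Prime → omega io h f p < p) ∧
    δ * (constant w io h f * x / Real.log H ^ k) <
      |(count io h f x : ℝ) - constant w io h f * x / Real.log H ^ k|)

open Classical in
/-- The systems of the family without a local obstruction, for which there is no `n`, `1 ≤ n ≤ y`, such
that the absolute values of all the `f_(io j)(n + h j)` are primes. -/
noncomputable def withoutPrimes {m s k : ℕ} (d H : ℕ) (tau : Fin s → Fin m) (t : Fin s → ℤ)
    (io : Fin k → Fin m) (h : Fin k → ℕ) (y : ℝ) : Finset (Fin m → Fin (d + 1) → ℤ) :=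
  (family d H tau t).filter (fun f => (∀ p : ℕ, p.Prime → omega io h f p < p) ∧
    ¬ ∃ n : ℕ, 1 ≤ n ∧ (n : ℝ) ≤ y ∧ ∀ j, (value (f (io j)) ((n : ℤ) + h j)).natAbs.Prime)

lemma constant_pos {m d k : ℕ} (w : ℕ) (io : Fin k → Fin m) (h : Fin k → ℕ)
    (f : Fin m → Fin (d + 1) → ℤ) (hf : ∀ p ≤ w, p.Prime → omega io h f p < p) :
    0 < constant w io h f := by
  unfold constant
  apply prod_pos
  intro p hp
  rw [mem_filter, mem_Icc] at hp
  have h2 : (2 : ℝ) ≤ p := by exact_mod_cast hp.2.two_le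
  have h1 : (omega io h f p : ℝ) < p := by exact_mod_cast hf p hp.1.2 hp.2
  have h3 : 0 < 1 - (omega io h f p : ℝ) / p := by
    rw [sub_pos, div_lt_one (by linarith)]
    exact h1
  have h4 : 0 < 1 - 1 / (p : ℝ) := by
    rw [sub_pos, div_lt_one (by linarith)]
    linarith
  have h5 : 0 < ((1 - 1 / (p : ℝ))⁻¹) ^ k := pow_pos (inv_pos.2 h4) k
  exact mul_pos h3 h5

theorem asymptotics {m s k : ℕ} (d : ℕ) (hd : 1 ≤ d) (hk : 1 ≤ k) (tau : Fin s → Fin m) (t : Fin s → ℤ)
    (io : Fin k → Fin m) (h : Fin k → ℕ) (hc : Compatible d tau t io h) (ε : ℝ) (hε : 0 < ε) (A : ℕ)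
    (δ : ℝ) (hδ : 0 < δ) : ∃ w₀ : ℕ, ∀ w : ℕ, w₀ ≤ w → ∃ H₀ : ℕ, ∀ H : ℕ, H₀ ≤ H → ∀ x : ℕ,
      Real.log H ^ ((k : ℝ) + ε) ≤ x → (x : ℝ) ≤ Real.log H ^ A →
      ((exceptions d H tau t io h w x δ).card : ℝ) ≤ δ * (family d H tau t).card := by
  obtain ⟨w₀, h0⟩ := Pool.Agent.U708.RPC.cond m d k s hd hk tau t io h ⟨hc.1, hc.2.1, hc.2.2⟩ ε hε A δ hδ
  refine ⟨w₀, fun w hw => ?_⟩
  obtain ⟨H₀, h1⟩ := h0 w hw
  refine ⟨H₀, fun H hH x hx hxA => ?_⟩
  have h2 := h1 H hH x hx hxA
  refine le_trans (le_of_eq ?_) h2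
  congr 1

theorem existence {m s k : ℕ} (d : ℕ) (hd : 1 ≤ d) (hk : 1 ≤ k) (tau : Fin s → Fin m) (t : Fin s → ℤ)
    (io : Fin k → Fin m) (h : Fin k → ℕ) (hc : Compatible d tau t io h) (ε : ℝ) (hε : 0 < ε)
    (δ : ℝ) (hδ : 0 < δ) : ∃ H₀ : ℕ, ∀ H : ℕ, H₀ ≤ H →
      ((withoutPrimes d H tau t io h (Real.log H ^ ((k : ℝ) + ε))).card : ℝ) ≤
        δ * (family d H tau t).card := by
  classical
  obtain ⟨w, h0⟩ := asymptotics d hd hk tau t io h hc (ε / 2) (by positivity) ⌈(k : ℝ) + ε⌉₊ (min δ (1 / 2))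
    (lt_min hδ (by norm_num))
  obtain ⟨H₀, h1⟩ := h0 w le_rfl
  have hlim : Filter.Tendsto (fun H : ℕ => Real.log (H : ℝ)) Filter.atTop Filter.atTop :=
    Real.tendsto_log_atTop.comp (tendsto_natCast_atTop_atTop (R := ℝ))
  have hev := ((tendsto_rpow_atTop (show 0 < ε / 2 by positivity)).comp hlim).eventually_ge_atTop 2
  obtain ⟨H₁, h2⟩ := Filter.eventually_atTop.1 (hev.and (hlim.eventually_ge_atTop 1))
  refine ⟨max H₀ H₁, fun H hH => ?_⟩
  obtain ⟨a1, a2⟩ := h2 H ((le_max_right _ _).trans hH)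
  simp only [Function.comp] at a1
  set L := Real.log (H : ℝ) with hL
  have hL0 : 0 < L := by linarith
  set x : ℕ := ⌊L ^ ((k : ℝ) + ε)⌋₊ with hx
  have hk0 : (0 : ℝ) ≤ k := Nat.cast_nonneg _
  have hx1 : (x : ℝ) ≤ L ^ ((k : ℝ) + ε) := Nat.floor_le (by positivity)
  have hx2 : L ^ ((k : ℝ) + ε) < x + 1 := Nat.lt_floor_add_one _
  have hp1 : 1 ≤ L ^ ((k : ℝ) + ε / 2) := Real.one_le_rpow a2 (by positivity)
  have hx3 : L ^ ((k : ℝ) + ε / 2) ≤ x := by
    have e : L ^ ((k : ℝ) + ε) = L ^ ((k : ℝ) + ε / 2) * L ^ (ε / 2) := by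
      rw [← Real.rpow_add hL0]
      congr 1
      ring
    have h3 : 2 * L ^ ((k : ℝ) + ε / 2) ≤ L ^ ((k : ℝ) + ε) := by
      rw [e, mul_comm]
      exact mul_le_mul_of_nonneg_left a1 (by linarith)
    linarith
  have hx4 : (x : ℝ) ≤ L ^ ⌈(k : ℝ) + ε⌉₊ := by
    refine hx1.trans ?_
    rw [← Real.rpow_natCast]
    exact Real.rpow_le_rpow_of_exponent_le a2 (Nat.le_ceil _)
  have h3 := h1 H ((le_max_left _ _).trans hH) x hx3 hx4
  have hfam0 : (0 : ℝ) ≤ ((family d H tau t).card : ℝ) := Nat.cast_nonneg _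
  refine le_trans ?_ (h3.trans (mul_le_mul_of_nonneg_right (min_le_left _ _) hfam0))
  rw [Nat.cast_le]
  apply card_le_card
  intro f hf
  unfold withoutPrimes at hf
  unfold exceptions
  rw [mem_filter] at hf ⊢
  obtain ⟨hf1, hf2, hf3⟩ := hf
  refine ⟨hf1, fun p _ hp => hf2 p hp, ?_⟩
  have hcount : count io h f x = 0 := by
    unfold count
    rw [card_eq_zero, filter_eq_empty_iff]
    intro n hn hall
    rw [mem_Icc] at hn
    exact hf3 ⟨n, hn.1, le_trans (by exact_mod_cast hn.2) hx1, hall⟩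
  rw [hcount]
  have hC := constant_pos w io h f (fun p _ hp => hf2 p hp)
  have hx0 : (0 : ℝ) < x := by linarith
  have hM : 0 < constant w io h f * x / L ^ k := by positivity
  rw [Nat.cast_zero, zero_sub, abs_neg, abs_of_pos hM]
  have : min δ (1 / 2) < 1 := lt_of_le_of_lt (min_le_right _ _) (by norm_num)
  nlinarith

theorem large {m s : ℕ} (d : ℕ) (hd : 1 ≤ d) (tau : Fin s → Fin m) (t : Fin s → ℤ)
    (hinj : ∀ i i', i ≠ i' → tau i = tau i' → t i ≠ t i')
    (hfib : ∀ l, (univ.filter (fun i => tau i = l)).card ≤ 2 * d + 1) :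
    ∃ c : ℝ, 0 < c ∧ ∃ H₀ : ℕ, ∀ H : ℕ, H₀ ≤ H →
      c * ((systems m d H).card / Real.log H ^ s) ≤ (family d H tau t).card := by
  obtain ⟨c, hc, h⟩ := Pool.Agent.TP975.RP.Prs_ge m d s hd
  obtain ⟨H₀, h0⟩ := h (univ.sup (fun i => (t i).natAbs))
  refine ⟨c, hc, H₀, fun H hH => ?_⟩
  refine h0 H hH tau t (fun i => ?_) hinj hfib
  have h1 : (t i).natAbs ≤ univ.sup (fun i => (t i).natAbs) :=
    le_sup (f := fun i => (t i).natAbs) (mem_univ i)
  have h2 : ((t i).natAbs : ℤ) = |t i| := Int.natCast_natAbs _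
  rw [← h2]
  exact_mod_cast h1

/-- **The quantitative Hypothesis H for translates of random polynomials.**

Let `d ≥ 1`, let `t i`, `i < s`, be prescribed arguments for the polynomials `f_(tau i)`, and let
`f_(io j)(x + h j)`, `j < k`, be translates of the polynomials `f 0, ..., f (m - 1)` of degree at most
`d`, such that the number of prescribed arguments plus twice the number of translates is at most
`2 d + 1` for every polynomial. The family `F_H` consists of the systems with coefficients in `[-H, H]`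
for which the absolute values of the `f_(tau i)(t i)` are primes (all the systems if `s = 0`).

(0) `F_H` contains at least `c (2 H + 1) ^ (m (d + 1)) / (log H) ^ s` systems.

(I) Let `ε, δ > 0` and `A` be given, and let `w ≥ w₀(ε, δ, A)` and `H ≥ H₀(w)`. For all `x` with
`(log H) ^ (k + ε) ≤ x ≤ (log H) ^ A` all but `δ |F_H|` of the systems of `F_H` without a local
obstruction at the primes `p ≤ w` have the number of prime values predicted by Bateman and Horn: the
number of the `n ≤ x` for which the absolute values of all the `f_(io j)(n + h j)` are primes is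
`∏_{p ≤ w} (1 - omega(p) / p) (1 - 1 / p) ^ (-k) x / (log H) ^ k` up to a relative error `δ`.

(II) For `H ≥ H₀` and for all but `δ |F_H|` of the systems of `F_H` without a local obstruction there is
an `n`, `1 ≤ n ≤ (log H) ^ (k + ε)`, such that the absolute values of all the `f_(io j)(n + h j)` are
primes. -/
theorem result {m s k : ℕ} (d : ℕ) (hd : 1 ≤ d) (hk : 1 ≤ k) (tau : Fin s → Fin m) (t : Fin s → ℤ)
    (io : Fin k → Fin m) (h : Fin k → ℕ) (hc : Compatible d tau t io h) :
    (∃ c : ℝ, 0 < c ∧ ∃ H₀ : ℕ, ∀ H : ℕ, H₀ ≤ H →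
      c * ((systems m d H).card / Real.log H ^ s) ≤ (family d H tau t).card) ∧
    (∀ (ε δ : ℝ) (A : ℕ), 0 < ε → 0 < δ → ∃ w₀ : ℕ, ∀ w : ℕ, w₀ ≤ w → ∃ H₀ : ℕ, ∀ H : ℕ, H₀ ≤ H →
      ∀ x : ℕ, Real.log H ^ ((k : ℝ) + ε) ≤ x → (x : ℝ) ≤ Real.log H ^ A →
      ((exceptions d H tau t io h w x δ).card : ℝ) ≤ δ * (family d H tau t).card) ∧
    (∀ ε δ : ℝ, 0 < ε → 0 < δ → ∃ H₀ : ℕ, ∀ H : ℕ, H₀ ≤ H →
      ((withoutPrimes d H tau t io h (Real.log H ^ ((k : ℝ) + ε))).card : ℝ) ≤
        δ * (family d H tau t).card) := by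
  refine ⟨large d hd tau t hc.1 (fun l => ?_), fun ε δ A hε hδ => asymptotics d hd hk tau t io h hc ε hε A δ hδ,
    fun ε δ hε hδ => existence d hd hk tau t io h hc ε hε δ hδ⟩
  have := hc.2.2 l
  omega

end Pool.Agent.Results.MP_51e72e_nt.TranslatesOfRandomPolynomials
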