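import Pool.Agent.U156.LB.I3
import Pool.Agent.N831.LP.K

/-!
# Li coefficients of elliptic curves with a large base point

`E : y² = x³ + a x + b` is an elliptic curve over `ℚ` and `Λ` its completed L-function. For a base point `c` the
Li coefficients of `E` are the numbers `λ_n(c) = ∑_ρ Re (1 - ((ρ - c) / (ρ + c - 2)) ^ n)`, `ρ` the zeros of
`Λ`; for one fixed base point the Riemann hypothesis for `L(E, s)` is equivalent to `λ_n(c) ≥ 0` for all `n`.

We prove without any hypothesis the asymptotic formula `λ_n(c) = (2 + o(1)) n c log (n c)` as `c → ∞`, uniformly for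
`1 ≤ n ≤ κ c log c`, for every `κ < 2`. So all these coefficients are positive. The constant `2` in the range can be
improved (even for the nonnegativity, and for arbitrarily large `c` only) if and only if `Λ` has no zeros with
`|Re s - 1| > t`, for some `t < 1/2`; and the formula holds uniformly for all `n ≥ 1` if and only if the Riemann
hypothesis for `L(E, s)` is true. The same for all twists of `E` by primitive characters of conductor prime to
the conductor of `E`.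

The zeros above and below the real axis are counted by the argument principle (`Pool.Agent.U742.LA`, by helper742, and
`Pool.Agent.U156.LB`), the sum over the zeros, moved to the line, is compared with an integral, and the terms of the zeros
off the line are bounded by the method and the density theorems of the starting modules `Pool.Agent.N831.LI` and
`Pool.Agent.N831.LP`, from which the statements on negative coefficients are taken; the starting modules have only lower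
bounds `c n a log a`.
-/

set_option autoImplicit false

open Complex UpperHalfPlane MatrixGroups CongruenceSubgroup Filter
open scoped ComplexConjugate

namespace Pool.Agent.Results.MP_553913_nt.LiBasePoint

/-! ### Elliptic curves over `ℚ` and abelian number fields -/

/-- The coefficient `a_p` of `E : y² = x³ + a x + b` at a prime `p ∤ 2 (4a³ + 27b²)`: `p` minus the
number of pairs `(x, y)` modulo `p` with `y² ≡ x³ + a x + b (mod p)`. -/
noncomputable def ap (a b : ℤ) (p : ℕ) : ℤ :=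
  (p : ℤ) - (((Finset.range p ×ˢ Finset.range p).filter
    (fun xy : ℕ × ℕ => (p : ℤ) ∣ (xy.2 : ℤ) ^ 2 -
      ((xy.1 : ℤ) ^ 3 + a * (xy.1 : ℤ) + b))).card : ℤ)

/-- The `n`-th Fourier coefficient of `f`. -/
noncomputable def coef {N : ℕ} (f : CuspForm (Gamma0 N : Subgroup (GL (Fin 2) ℝ)) 2) (n : ℕ) : ℂ :=
  (qExpansion 1 f).coeff n

/-- `f ∈ S_2(Γ₀(N))` is the newform of the elliptic curve `E : y² = x³ + a x + b` of conductor `N` and
root number `w`: the Fourier coefficients `c(n)` of `f` are real with `c(1) = 1`, they satisfy the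
Hecke relations `c(mn) = c(m) c(n)` for coprime `m`, `n` and `c(p^(j+2)) = c(p) c(p^(j+1)) - p c(p^j)`
(without the last term if `p ∣ N`), `f(-1/(Nτ)) = -w N τ² f(τ)`, `c(p) = a_p(E)` for all primes
`p ∤ 2 (4a³ + 27b²)`, `|c(p)| ≤ 2 √p` for all `p ∤ N` (Hasse) and `c(p) = 0, 1, -1` for `p ∣ N`.
By the modularity theorem (Wiles, Taylor-Wiles, Breuil-Conrad-Diamond-Taylor) it exists for every `E`. -/
structure IsFormOf (a b : ℤ) (N : ℕ) (f : CuspForm (Gamma0 N : Subgroup (GL (Fin 2) ℝ)) 2) (w : ℝ) :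
    Prop where
  one : coef f 1 = 1
  real : ∀ n, (coef f n).im = 0
  mul : ∀ m n : ℕ, Nat.Coprime m n → coef f (m * n) = coef f m * coef f n
  pow : ∀ p j : ℕ, p.Prime → coef f (p ^ (j + 2)) = coef f p * coef f (p ^ (j + 1)) -
      (if p ∣ N then 0 else (p : ℂ) * coef f (p ^ j))
  sign : w = 1 ∨ w = -1
  fricke : ∀ τ τ' : ℍ, (τ' : ℂ) * ((N : ℂ) * (τ : ℂ)) = -1 →
    f τ' = -(w : ℂ) * (N : ℂ) * (τ : ℂ) ^ 2 * f τ
  points : ∀ p : ℕ, p.Prime → ¬ (p : ℤ) ∣ 2 * (4 * a ^ 3 + 27 * b ^ 2) → coef f p = (ap a b p : ℂ)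
  good : ∀ p : ℕ, p.Prime → ¬ p ∣ N → ‖coef f p‖ ≤ 2 * Real.sqrt p
  bad : ∀ p : ℕ, p.Prime → p ∣ N → coef f p = 0 ∨ coef f p = 1 ∨ coef f p = -1

/-- The completed L-function of the twist of `E` by `χ` modulo `q`, for `Re s > 3/2`:
`(√N q / 2π)^s Γ(s) ∑ c(n) χ(n) n^(-s)`. -/
noncomputable def twist {N : ℕ} (f : CuspForm (Gamma0 N : Subgroup (GL (Fin 2) ℝ)) 2) {q : ℕ}
    (χ : DirichletCharacter ℂ q) (s : ℂ) : ℂ :=
  ((Real.sqrt N * q / (2 * Real.pi) : ℝ) : ℂ) ^ s * Complex.Gamma s *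
    ∑' n : ℕ, coef f (n + 1) * χ ((n + 1 : ℕ) : ZMod q) * ((n + 1 : ℕ) : ℂ) ^ (-s)

/-- `Λ` is the completed L-function of the twist of `E` by `χ`: it is entire and given by `twist` for
`Re s > 3/2`. -/
def IsCompleted {N : ℕ} (f : CuspForm (Gamma0 N : Subgroup (GL (Fin 2) ℝ)) 2) {q : ℕ}
    (χ : DirichletCharacter ℂ q) (Λ : ℂ → ℂ) : Prop :=
  Differentiable ℂ Λ ∧ ∀ s : ℂ, 3 / 2 < s.re → Λ s = twist f χ s

/-! ### Li coefficients -/

/-- The term of the zero `ρ` of `Λ` in the Li coefficient, with the multiplicity of `ρ`. -/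
noncomputable def term (Λ : ℂ → ℂ) (a : ℝ) (n : ℕ) (ρ : {ρ : ℂ // Λ ρ = 0}) : ℝ :=
  (analyticOrderNatAt Λ ρ.1 : ℝ) * (1 - ((ρ.1 - a) / (ρ.1 + a - 2)) ^ n).re

/-- The Li coefficient of `Λ` with base point `a`. -/
noncomputable def li (Λ : ℂ → ℂ) (a : ℝ) (n : ℕ) : ℝ := ∑' ρ : {ρ : ℂ // Λ ρ = 0}, term Λ a n ρ

/-- The law `λ_n(a) = (d + o(1)) n a log (n a)` as `a → ∞`, uniformly for `1 ≤ n ≤ κ a log a`. -/
def Law (Λ : ℂ → ℂ) (d κ : ℝ) : Prop := ∀ ε : ℝ, 0 < ε → ∀ᶠ a : ℝ in atTop, ∀ n : ℕ, 1 ≤ n →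
  (n : ℝ) ≤ κ * a * Real.log a →
    |li Λ a n - d * (n * a * Real.log (n * a))| ≤ ε * (n * a * Real.log (n * a))

/-- The law `λ_n(a) = (d + o(1)) n a log (n a)` as `a → ∞`, uniformly for all `n ≥ 1`. -/
def LawAll (Λ : ℂ → ℂ) (d : ℝ) : Prop := ∀ ε : ℝ, 0 < ε → ∀ᶠ a : ℝ in atTop, ∀ n : ℕ, 1 ≤ n →
  |li Λ a n - d * (n * a * Real.log (n * a))| ≤ ε * (n * a * Real.log (n * a))

/-- The coefficients with `n ≤ κ a log a` are nonnegative, for arbitrarily large `a`. -/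
def SometimesNonneg (Λ : ℂ → ℂ) (κ : ℝ) : Prop := ∃ᶠ a : ℝ in atTop, ∀ n : ℕ, 1 ≤ n →
  (n : ℝ) ≤ κ * a * Real.log a → 0 ≤ li Λ a n

/-- `Λ` has no zeros with `Re s > θ`. -/
def ZeroFree (Λ : ℂ → ℂ) (θ : ℝ) : Prop := ∀ s : ℂ, θ < s.re → Λ s ≠ 0

/-- The statements on the Li coefficients of `Λ`, with the degree `d`. -/
structure LiLaw (Λ : ℂ → ℂ) (d : ℝ) : Prop where
  /-- The sums converge absolutely. -/
  conv : ∀ (a : ℝ) (n : ℕ), 3 ≤ a → Summable (term Λ a n)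
  /-- The law holds unconditionally for `κ < 2`; all coefficients in this range are positive. -/
  law : ∀ κ : ℝ, κ < 2 → Law Λ d κ
  pos : ∀ κ : ℝ, κ < 2 → ∀ᶠ a : ℝ in atTop, ∀ n : ℕ, 1 ≤ n → (n : ℝ) ≤ κ * a * Real.log a → 0 < li Λ a n
  /-- The range under a zero-free half-plane. -/
  strip : ∀ t : ℝ, 0 < t → t < 1 / 2 → ZeroFree Λ (1 + t) →
    ∀ κ : ℝ, κ < 1 / (2 * t * (1 - t)) → Law Λ d κ
  /-- A zero off the line gives negative coefficients for all large base points. -/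
  neg : ∀ (κ : ℝ) (s : ℂ), 0 < κ → Λ s = 0 → 1 + 1 / κ < s.re →
    ∀ᶠ a : ℝ in atTop, ∃ n : ℕ, 1 ≤ n ∧ (n : ℝ) ≤ κ * a * Real.log a ∧ li Λ a n < 0
  /-- The constant `2` can be improved if and only if there is a zero-free half-plane. -/
  two : (∃ κ : ℝ, 2 < κ ∧ SometimesNonneg Λ κ) ↔ ∃ t : ℝ, t < 1 / 2 ∧ ZeroFree Λ (1 + t)
  two' : (∃ κ : ℝ, 2 < κ ∧ Law Λ d κ) ↔ ∃ t : ℝ, t < 1 / 2 ∧ ZeroFree Λ (1 + t)
  /-- All constants are admissible if and only if the Riemann hypothesis for `Λ` is true. -/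
  rh : (∀ s : ℂ, Λ s = 0 → s.re = 1) ↔ ∀ κ : ℝ, 0 < κ → SometimesNonneg Λ κ
  rh' : (∀ s : ℂ, Λ s = 0 → s.re = 1) ↔ LawAll Λ d

/-- **Main theorem.** Let `E : y² = x³ + a x + b` be an elliptic curve over `ℚ` with newform `f` of level
`N`, and `χ` a primitive Dirichlet character modulo `q`, `(q, N) = 1` (for `q = 1` this is `E` itself). Then
the completed L-function `Λ(E, χ, s)` exists, is unique, has a functional equation, and satisfies `LiLaw`. -/
theorem result (a b : ℤ) (N : ℕ) [NeZero N] (f : CuspForm (Gamma0 N : Subgroup (GL (Fin 2) ℝ)) 2) (w : ℝ)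
    (_ : 4 * a ^ 3 + 27 * b ^ 2 ≠ 0) (hf : IsFormOf a b N f w)
    (q : ℕ) [NeZero q] (χ : DirichletCharacter ℂ q) (hχ : χ.IsPrimitive) (hco : Nat.Coprime q N) :
    ∃ Λ : ℂ → ℂ, IsCompleted f χ Λ ∧ (∀ Λ' : ℂ → ℂ, IsCompleted f χ Λ' → Λ' = Λ) ∧
      (∃ W : ℂ, ‖W‖ = 1 ∧ ∀ s : ℂ, Λ (2 - s) = W * conj (Λ (conj s))) ∧
      LiLaw Λ 2 := by
  have hf' : Pool.Agent.W169.HF.IsForm N f w :=
    { one := hf.one
      real := hf.real
      mul := hf.mul
      pow := hf.pow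
      sign := hf.sign
      fricke := hf.fricke
      good := hf.good
      bad := fun p hp hpN => by
        have h1 : (1 : ℝ) ≤ Real.sqrt p := by
          rw [Real.one_le_sqrt]
          exact_mod_cast hp.one_le
        have h2 : ‖coef f p‖ ≤ 1 := by
          rcases hf.bad p hp hpN with h | h | h <;> simp [h]
        exact h2.trans h1 }
  obtain ⟨X, v, hP, hv, hX⟩ := Pool.Agent.U156.LB.p3_fac hf' hχ hco
  obtain ⟨Λ, k1, k2, k3, k4⟩ := Pool.Agent.U156.LB.exists_Lam3 hP 1 (G := fun s => Pool.Agent.W355.UN.facE f χ s) hv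
    (σ := 3 / 2) (fun s hs => by
      rw [Complex.ofReal_one]
      exact hX s hs)
  have hκ : (1 : ℝ) / 2 ≤ 1 := by norm_num
  have e2 : (2 : ℂ) * ((1 : ℝ) : ℂ) = 2 := by push_cast; norm_num
  have h0 := Pool.Agent.N831.LP.main2 hκ hv k4.1 (L := li Λ) fun a n => by
    rw [e2]
    rfl
  obtain ⟨l1, l2, l3, l4, l5, l6, l7⟩ := h0
  have m0 := Pool.Agent.U156.LB.allLaw3 hκ hv k4 (L := li Λ) fun a n => by
    rw [e2]
    rfl
  rw [mul_one] at m0
  obtain ⟨m1, m2, m3, m4⟩ := m0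
  refine ⟨Λ, ⟨k1, k2⟩, fun Λ' h' => Pool.Agent.R838.TW.uniq k1 h'.1 ⟨3 / 2, k2⟩ ⟨3 / 2, h'.2⟩, ?_,
    ⟨fun a n ha => ?_, m1, fun κ hκ2 => Pool.Agent.U156.LB.law_pos (by linarith) (m1 κ hκ2), m2, l3, l4, m3,
      l6, m4⟩⟩
  · obtain ⟨W, hW, h7⟩ := k3
    refine ⟨W, hW, fun s => ?_⟩
    have h8 := h7 s
    rwa [e2] at h8
  · have k5 := Pool.Agent.N831.LP.summable hκ hv k4.1 (a := a) (by linarith) n
    rw [e2] at k5
    exact k5

end Pool.Agent.Results.MP_553913_nt.LiBasePoint
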