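import Mathlib
import Pool.Agent.U364.ST.Cls
import Pool.Agent.R498.MP.Tup
import Pool.Agent.U364.ST.Adm

/-!
# Strings of consecutive primes `p ≡ 1` (or `23`) modulo `30` with almost prime `p + 6` and composite `p + 2`, `p + 4`

If `p > 5` is `≡ 1` or `23` modulo `30`, then `p + 2` and `p + 4` are composite, so that `p` and `p + 6` are consecutive primes as
soon as they are primes: the primes of these two classes are candidates for the question. Call a prime `p` good (parameters `r`,
`w`) if `p + 6` has at most `r` prime factors, all of them at least `w = N ^ δ`.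

For every `m` there are `C`, `r` and `δ > 0` such that for every finite set `T` of at least `C` nonnegative integers and every
length `l` the following holds for all large `N`: at least `1 / C` of all the `m`-element subsets `H` of `T` are such that
there is an arithmetic progression of `l` terms `x` in `(N, 2 N]` with difference at most `(log N) ^ B` such that for every
term `x` the primes of the class in `[x, x + 30 max H]` are exactly the numbers `x + 30 h`, `h ∈ H`, and all these primes are
good. So there are `m` CONSECUTIVE candidates which are all good, in every interval `(N, 2 N]`, and a positive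
proportion of all the patterns of candidates occurs in this way. In place of `30` one can take any squarefree multiple `q` of `30`
and any class `c` modulo `q` with `c (c + 6)` coprime to `q`.

Proof: the theorem on primes with almost prime companions (starting files, `Pool.Agent.R498.MP.stringsC`), for shifts which are
multiples of `q`, and the passage to a positive proportion of the patterns (starting files, `Pool.Agent.Helper32K9.Str`).
-/

set_option autoImplicit false

namespace Pool.Agent.Results.MP_5628fe_nt.ConsecutiveCandidates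

open Filter Polynomial

/-- `p + 6` has at most `r` prime factors, counted with multiplicity, all of them at least `w`. -/
def Good (r : ℕ) (w : ℝ) (p : ℕ) : Prop :=
  (p + 6).primeFactorsList.length ≤ r ∧ ∀ q : ℕ, q.Prime → q ∣ p + 6 → w ≤ q

/-- There is an arithmetic progression of `l` terms `x`, with difference between `1` and `(log N) ^ B`, such that for all its
terms `x`: `N < x`, `x + q max H ≤ 2 N`, the primes among the numbers `x + q y`, `y ≤ max H` (all the numbers `≡ c` modulo `q`
of the interval `[x, x + q max H]`) are exactly those with `y ∈ H`, and they are all good with the parameters `r`, `N ^ δ`. -/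
def Occurs (q c r : ℕ) (δ : ℝ) (l B N : ℕ) (H : Finset ℕ) : Prop :=
  ∃ n d : ℕ, 1 ≤ d ∧ (d : ℝ) ≤ Real.log N ^ B ∧ ∀ j < l, N < n + j * d ∧ n + j * d + q * H.sup id ≤ 2 * N ∧
    (∀ y ≤ H.sup id, (n + j * d + q * y).Prime ↔ y ∈ H) ∧
    ∀ s ∈ H, n + j * d + q * s ≡ c [MOD q] ∧ Good r ((N : ℝ) ^ δ) (n + j * d + q * s)

/-- the form -/
noncomputable def F : ℤ[X] := X + 6

theorem F_eval (n : ℤ) : F.eval n = n + 6 := by
  unfold F
  simp

/-- **A positive proportion of the patterns of `m` consecutive candidates for consecutive primes `p`, `p + 6` consists of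
candidates with almost prime `p + 6`.** -/
theorem result :
    (∀ q c : ℕ, Squarefree q → 30 ∣ q → (c % 30 = 1 ∨ c % 30 = 23) → Nat.Coprime (c * (c + 6)) q → ∀ m : ℕ, 1 ≤ m →
      ∃ (C r : ℕ) (δ : ℝ), 0 < C ∧ 0 < δ ∧ ∀ T : Finset ℕ, C ≤ T.card → ∀ l : ℕ, ∃ B : ℕ, ∀ᶠ N : ℕ in atTop,
        T.card.choose m ≤ C * {H : Finset ℕ | H ⊆ T ∧ H.card = m ∧ Occurs q c r δ l B N H}.ncard) ∧
    Squarefree 30 ∧ (∀ c : ℕ, c = 1 ∨ c = 23 → Nat.Coprime (c * (c + 6)) 30) ∧
    ∀ p : ℕ, 5 < p → (p % 30 = 1 ∨ p % 30 = 23) → ¬ (p + 2).Prime ∧ ¬ (p + 4).Prime := by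
  refine ⟨fun q c hq h30 _ hc m hm => ?_, ?_, ?_, ?_⟩
  · refine Pool.Agent.U364.ST.cls_prop F ?_ ?_ q c hq ?_ ?_ m hm Good 0 ?_
    · intro h
      have h1 := F_eval 0
      rw [h] at h1
      norm_num at h1
    · intro p hp
      obtain ⟨n, hn⟩ := Pool.Agent.U364.ST.adm_two (fun n => n * F.eval n) 1 5 (by
        rw [F_eval, F_eval, Int.isCoprime_iff_gcd_eq_one]
        norm_num) p hp
      exact ⟨n, hn⟩
    · intro p hp hpq hd
      rw [F_eval] at hd
      have h1 : p ∣ c * (c + 6) := by exact_mod_cast hd
      have h2 := Nat.dvd_gcd h1 hpq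
      rw [hc] at h2
      exact hp.one_lt.ne' (Nat.dvd_one.1 h2)
    · intro z hz0 hqz h0
      rw [F_eval] at h0
      have h1 : (30 : ℤ) ∣ z := by
        refine dvd_trans ?_ hqz
        exact_mod_cast h30
      omega
    · intro r w p hp _ _ hAP
      rw [F_eval] at hAP
      exact Pool.Agent.R498.MP.AP_nat r w (p + 6) (by exact_mod_cast hAP)
  · have h2 : Squarefree 2 := Nat.prime_two.prime.squarefree
    have h3 : Squarefree 3 := Nat.prime_three.prime.squarefree
    have h5 : Squarefree 5 := (by norm_num : Nat.Prime 5).prime.squarefree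
    have h6 : Squarefree (2 * 3) := (Nat.squarefree_mul (by norm_num)).2 ⟨h2, h3⟩
    have h30 : Squarefree (2 * 3 * 5) := (Nat.squarefree_mul (by norm_num)).2 ⟨h6, h5⟩
    exact h30
  · rintro c (rfl | rfl) <;> norm_num
  · intro p hp5 hp
    have key : ∀ v d : ℕ, d.Prime → v % d = 0 → d < v → ¬ v.Prime := by
      intro v d hd hv hdv hvp
      have h1 := (Nat.prime_dvd_prime_iff_eq hd hvp).1 (Nat.dvd_of_mod_eq_zero hv)
      omega
    rcases hp with h | h
    · exact ⟨key _ 3 Nat.prime_three (by omega) (by omega), key _ 5 (by norm_num) (by omega) (by omega)⟩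
    · exact ⟨key _ 5 (by norm_num) (by omega) (by omega), key _ 3 Nat.prime_three (by omega) (by omega)⟩

end Pool.Agent.Results.MP_5628fe_nt.ConsecutiveCandidates
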