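import Pool.Agent.N164.KC.Block
import Pool.Agent.TH133.PW.Ev

/-!
# The sign conjecture `C⁺(X)` as an equality of ranks

Let `W` be a Weil cohomology theory with coefficient field `K` (of characteristic zero) and `X` a variety of
dimension `n`. Let `P` be the projector of `H(X)` onto the sum of the `H^j(X)`, `j` even. For two algebraic
correspondences `a`, `b` of degree zero on `X` let `Tr⁺(a b)` and `Tr⁻(a b)` be the traces of `a b` on the
even and on the odd part of `H(X)`, and let `r⁺` and `r⁻` be the ranks of these two forms, with values in
`K`, on the algebraic correspondences of degree zero. Let `r` be the rank of the group of cycles of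
codimension `n` on `X × X` modulo numerical equivalence, an integer that does not depend on `W`.

Then `r ≤ r⁺ + r⁻`, and the following are equivalent:

* the sign conjecture `C⁺(X)`: `P` is induced by an algebraic cycle with rational coefficients;
* `P` is a combination of algebraic correspondences with coefficients in `K`;
* `r = r⁺ + r⁻`;
* for some combination `a` of algebraic correspondences with coefficients in `K`, all algebraic
  correspondences `b` satisfy `Tr⁺(a b) = Tr⁺(b)` and `Tr⁻(a b) = 0`.

Nothing is assumed about `W` or `X` (no Lefschetz theorem, no purity, and homological and numerical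
equivalence may be different), and the base field is arbitrary.

Proof. The difference of the forms `Tr⁺(a b)` and `Tr⁻(a b)` is the intersection form, of rank `r`. The
rank of the difference is the sum of the ranks if and only if the operators act independently on the two
parts, up to the radicals of the forms (library file `N164/KC/Block`). The descent of the projector from `K`
to `ℚ` uses that the difference of the traces is rational (library file `TH133/PW/Ev`).
-/

set_option autoImplicit false

open CategoryTheory AlgebraicGeometry

universe u v

namespace Pool.Agent.Results.MP_56c18a_ag.ParityRanks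

open Pool.Agent.H914 Pool.Agent.H447 Pool.Agent.W537 Pool.Agent.Y106.One Pool.Agent.R907
  Pool.Agent.N164.KC Pool.Agent.TH133.PW VarClass Obj WeilCohomology

section Generic

variable {K H : Type*} [Field K] [AddCommGroup H] [Module K H]

/-- The operator `P` is a combination of operators in `S` with coefficients in `K`. -/
def InSpan (S : Set (Module.End K H)) (P : Module.End K H) : Prop :=
  P ∈ Submodule.span K S

/-- Some combination `a` of operators in `S`, with coefficients in `K`, satisfies `Tr(a b P) = Tr(b P)` and
`Tr(a b (1 - P)) = 0` for all `b` in `S`. -/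
def TraceSolvable (S : Set (Module.End K H)) (P : Module.End K H) : Prop :=
  ∃ a ∈ Submodule.span K S, ∀ b ∈ S,
    LinearMap.trace K H (a * b * P) = LinearMap.trace K H (b * P) ∧
    LinearMap.trace K H (a * b * (1 - P)) = 0

/-- The sum of the ranks of the two forms `Tr(a b P)` and `Tr(a b (1 - P))` on `S`. -/
noncomputable def rankSum (S : Set (Module.End K H)) (P : Module.End K H) : ℕ :=
  formRank P S + formRank (1 - P) S

end Generic

variable {k : Type u} [Field k] {𝒱 : VarClass k} {ops : CycleOps 𝒱}

/-- **The sign conjecture `C⁺(X)` as an equality of ranks.** -/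
theorem result (W : WeilCohomology.{u, v} ops) (X : 𝒱.Obj) (P : Module.End W.K (W.H X))
    (hP : IsEvenProj (W.gr X) P) :
    numCorrRank ops X ≤ rankSum (corrOps W X) P ∧
    [SignStd W X, InSpan (corrOps W X) P, numCorrRank ops X = rankSum (corrOps W X) P,
      TraceSolvable (corrOps W X) P].TFAE := by
  classical
  have e0 : P = bproj (W.isInternal X) {j | Even j} := by
    apply gr_ext (W.isInternal X)
    intro j a ha
    rw [hP j a ha]
    by_cases hj : Even j
    · rw [if_pos hj, bproj_same _ (show j ∈ {j | Even j} from hj) ha]
    · rw [if_neg hj, bproj_ne _ (show j ∉ {j | Even j} from hj) ha]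
  have e1 : 1 - P = bproj (W.isInternal X) {j | Even j}ᶜ := by
    rw [e0, ← bproj_add_compl (W.isInternal X) {j | Even j}, add_sub_cancel_left]
  have hc := rank_main (W := W) (X := X) (fun j => if Even j then 0 else 1) 2
    (fun j _ => by by_cases h : Even j <;> simp [h])
    (fun i _ j _ h => by
      by_cases hi : Even i <;> by_cases hj : Even j <;> simp [hi, hj] at h ⊢)
  have s0 : {j : ℕ | (if Even j then 0 else 1) = 0} = {j | Even j} := by
    ext j
    by_cases h : Even j <;> simp [h]
  have s1 : {j : ℕ | (if Even j then 0 else 1) = 1} = {j | Even j}ᶜ := by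
    ext j
    simp only [Set.mem_setOf_eq, Set.mem_compl_iff]
    by_cases h : Even j
    · rw [if_pos h]
      simp [h]
    · rw [if_neg h]
      simp only [h, not_false_eq_true]
  have hsum : ∑ s ∈ Finset.range 2, formRank
      (bproj (W.isInternal X) {j | (if Even j then 0 else 1) = s}) (corrOps W X) =
      formRank P (corrOps W X) + formRank (1 - P) (corrOps W X) := by
    rw [Finset.sum_range_succ, Finset.sum_range_one, s0, s1, ← e0, ← e1]
  rw [hsum] at hc
  have hone : (1 : Module.End W.K (W.H X)) ∈ Submodule.span W.K (corrOps W X) :=
    Submodule.subset_span one_mem_corrOps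
  refine ⟨hc.1, ?_⟩
  tfae_have 1 → 2 := by
    rintro ⟨z, hz, hz'⟩
    have h1 : P = W.corr (W.cl (X.prod X) z) := by
      apply gr_ext (W.isInternal X)
      intro j a ha
      rw [hP j a ha, hz' j a ha]
    rw [h1]
    exact Submodule.subset_span ⟨z, hz, rfl⟩
  tfae_have 2 → 1 := by
    intro h
    have h2 : corrOps W X = cycleOperators W X X.dim := by
      ext T
      constructor
      · rintro ⟨z, hz, rfl⟩
        exact ⟨z, hz, rfl⟩
      · rintro ⟨z, hz, rfl⟩
        exact ⟨z, hz, rfl⟩
    have h' : P ∈ Submodule.span W.K (corrOps W X) := h
    rw [h2] at h'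
    exact signStd_of_span ⟨P, h', hP⟩
  tfae_have 2 → 3 := by
    intro h
    refine hc.2.1 fun s hs => ?_
    interval_cases s
    · rw [s0, ← e0]
      exact h
    · rw [s1, ← e1]
      exact Submodule.sub_mem _ hone h
  tfae_have 3 → 2 := by
    intro h
    have h1 := hc.2.2 h 0 (by norm_num)
    rwa [s0, ← e0] at h1
  tfae_have 2 → 4 := by
    intro h
    refine ⟨P, h, fun b hb => ?_⟩
    have h1 := hasBlockTraces_bproj (W := W) (X := X) {j | Even j} b hb
    rwa [← e0, ← e1] at h1
  tfae_have 4 → 2 := by
    rintro ⟨a, ha, h⟩
    rw [e0]
    refine bproj_mem_of_traces ha fun b hb => ?_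
    have h1 : LinearMap.trace W.K _ (a * b * P) = LinearMap.trace W.K _ (b * P) ∧
        LinearMap.trace W.K _ (a * b * (1 - P)) = 0 := h b hb
    rwa [e1, e0] at h1
  tfae_finish

end Pool.Agent.Results.MP_56c18a_ag.ParityRanks
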