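import Pool.Agent.N646.TT.Fin
import Pool.Agent.U455.BT

set_option autoImplicit false

/-!
# Boundedly many differences with the right number of prime pairs sum to every multiple of twelve, at every scale

There is an absolute `h` such that for all `b ≥ 1` and `λ > 0` there is `κ > 0` such that for all large `x` EVERY multiple
`t` of `6` between `λ log x` and `x / (100 b)` is a sum of at most `h` numbers `k ≥ 1` with
`π₂(x, 2 b k) ≥ κ 𝔖(2 b k) x / (log x)²`.

Proof: the starting result `Pool.Agent.N646.TT.fin` (almost one third of the differences up to `H`, for all `H` between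
`λ log x` and `x / (100 b)`), used for `b`, `2 b` and `3 b`, and a theorem on bounded sums from a scale on
(`Pool.Agent.U455.BT.main`): a covering lemma gives a point of the set from which the set is dense at all scales in its
residue class modulo a number `d ≤ 3`; Schnirelmann's theorem there gives a progression of sums with difference `d` and
length a multiple of `log x`, and Schnirelmann's theorem for blocks of length `log x` which contain a multiple of `d`
in the set reaches every `t`.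
-/

namespace Pool.Agent.Results.MP_678834_nt.BoundedSumsRightOrder

open Finset Filter

/-- The twin prime constant `C₂`. -/
noncomputable def C2 : ℝ := ∏' p : {p : ℕ // p.Prime ∧ 2 < p}, (1 - 1 / (((p.1 : ℕ) : ℝ) - 1) ^ 2)

/-- `𝔖(d) = 2 C₂ ∏_{p ∣ d, p ≥ 3} (p - 1) / (p - 2)`, used for even `d`. -/
noncomputable def S (d : ℕ) : ℝ :=
  2 * C2 * ∏ p ∈ d.primeFactors.filter (fun p : ℕ => 2 < p), (((p : ℝ) - 1) / ((p : ℝ) - 2))

/-- `π₂(x, d)`, the number of primes `p ≤ x` with `p - d` prime. -/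
noncomputable def pi2 (x : ℝ) (d : ℕ) : ℕ :=
  ((Icc 1 ⌊x⌋₊).filter (fun p : ℕ => p.Prime ∧ (p - d).Prime)).card

theorem fin' (b : ℕ) (hb : 1 ≤ b) (ε lam : ℝ) (hε : 0 < ε) (hlam : 0 < lam) : ∃ κ : ℝ, 0 < κ ∧
    ∃ X : ℝ, ∀ x : ℝ, X ≤ x → ∀ H : ℕ, lam * Real.log x ≤ H → 100 * b * (H : ℝ) ≤ x →
    (1 / 3 - ε) * (H : ℝ) ≤ (((Icc 1 H).filter (fun k : ℕ =>
      κ * (S (2 * b * k) * x / Real.log x ^ 2) ≤ (pi2 x (2 * b * k) : ℝ))).card : ℝ) := by
  classical
  obtain ⟨κ, hκ, X, h⟩ := Pool.Agent.N646.TT.fin (2 * C2) b hb ε lam hε hlam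
  refine ⟨κ, hκ, X, fun x hx H h1 h2 => (h x hx H h1 h2).trans (le_of_eq ?_)⟩
  congr 2

theorem result : ∃ h : ℕ, ∀ b : ℕ, 1 ≤ b → ∀ lam : ℝ, 0 < lam → ∃ κ : ℝ, 0 < κ ∧
    ∃ X : ℝ, ∀ x : ℝ, X ≤ x → ∀ t : ℕ, 6 ∣ t → lam * Real.log x ≤ t → 100 * b * (t : ℝ) ≤ x →
    ∃ l : List ℕ, l.length ≤ h ∧ l.sum = t ∧ ∀ k ∈ l, 1 ≤ k ∧
      κ * (S (2 * b * k) * x / Real.log x ^ 2) ≤ (pi2 x (2 * b * k) : ℝ) := by
  classical
  obtain ⟨h, C, N₀, hmain⟩ := Pool.Agent.U455.BT.main (1 / 3 - 1 / 24) (by norm_num)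
  refine ⟨h, fun b hb lam hlam => ?_⟩
  obtain ⟨μ, hμ⟩ : ∃ μ : ℝ, μ = lam / (2 * (C + 1)) := ⟨_, rfl⟩
  have hC0 : (0 : ℝ) < 2 * (C + 1) := by positivity
  have hμ0 : 0 < μ := by rw [hμ]; positivity
  obtain ⟨κ₁, hκ₁, X₁, h₁⟩ := fin' b hb (1 / 24) μ (by norm_num) hμ0
  obtain ⟨κ₂, hκ₂, X₂, h₂⟩ := fin' (b * 2) (by omega) (1 / 24) μ (by norm_num) hμ0
  obtain ⟨κ₃, hκ₃, X₃, h₃⟩ := fin' (b * 3) (by omega) (1 / 24) μ (by norm_num) hμ0
  obtain ⟨κ, hκ⟩ : ∃ κ, κ = min κ₁ (min κ₂ κ₃) := ⟨_, rfl⟩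
  have hκ0 : 0 < κ := by rw [hκ]; exact lt_min hκ₁ (lt_min hκ₂ hκ₃)
  have hk1 : κ ≤ κ₁ := by rw [hκ]; exact min_le_left _ _
  have hk2 : κ ≤ κ₂ := by rw [hκ]; exact (min_le_right _ _).trans (min_le_left _ _)
  have hk3 : κ ≤ κ₃ := by rw [hκ]; exact (min_le_right _ _).trans (min_le_right _ _)
  have hmono : ∀ (κ' T : ℝ) (n : ℕ), κ ≤ κ' → κ' * T ≤ (n : ℝ) → κ * T ≤ (n : ℝ) := by
    intro κ' T n h1 h2
    rcases le_or_gt 0 T with h3 | h3
    · exact (mul_le_mul_of_nonneg_right h1 h3).trans h2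
    · have h4 : κ * T ≤ 0 := (mul_neg_of_pos_of_neg hκ0 h3).le
      exact h4.trans (Nat.cast_nonneg _)
  -- the size of `log x`
  obtain ⟨X₀, hX₀⟩ := eventually_atTop.1 (Real.tendsto_log_atTop.eventually_ge_atTop
    (max ((N₀ : ℝ) / μ) (1 / μ)))
  refine ⟨κ, hκ0, max X₀ (max X₁ (max X₂ X₃)), fun x hx t h6 ht1 ht2 => ?_⟩
  have hx0 := (le_max_left _ _).trans hx
  have hx1 := (le_max_left _ _).trans ((le_max_right _ _).trans hx)
  have hx2 := (le_max_left _ _).trans ((le_max_right _ _).trans ((le_max_right _ _).trans hx))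
  have hx3 := (le_max_right _ _).trans ((le_max_right _ _).trans ((le_max_right _ _).trans hx))
  have hlog := hX₀ x hx0
  have hl1 : (N₀ : ℝ) ≤ μ * Real.log x := by
    have := (le_max_left _ _).trans hlog
    rw [div_le_iff₀ hμ0] at this
    linarith
  have hl2 : 1 ≤ μ * Real.log x := by
    have := (le_max_right _ _).trans hlog
    rw [div_le_iff₀ hμ0] at this
    linarith
  obtain ⟨N, hN⟩ : ∃ N, N = ⌈μ * Real.log x⌉₊ := ⟨_, rfl⟩
  have hN1 : μ * Real.log x ≤ N := by rw [hN]; exact Nat.le_ceil _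
  have hN2 : (N : ℝ) ≤ 2 * (μ * Real.log x) := by
    have : (N : ℝ) < μ * Real.log x + 1 := by rw [hN]; exact Nat.ceil_lt_add_one (by linarith)
    linarith
  have hN0 : N₀ ≤ N := by
    have : (N₀ : ℝ) ≤ N := hl1.trans hN1
    exact_mod_cast this
  have hCN : C * N ≤ t := by
    have h1 : (C : ℝ) * N ≤ t := by
      have e : lam = μ * (2 * (C + 1)) := by rw [hμ]; field_simp
      rw [e] at ht1
      have hC : (0 : ℝ) ≤ C := Nat.cast_nonneg _
      nlinarith
    exact_mod_cast h1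
  obtain ⟨l, hl, hl', hl''⟩ := hmain (fun k => κ * (S (2 * b * k) * x / Real.log x ^ 2) ≤
    (pi2 x (2 * b * k) : ℝ)) N t hN0 (by
      intro d H hd1 hd3 hNH hdH
      have hlogH : μ * Real.log x ≤ H := hN1.trans (by exact_mod_cast hNH)
      have hbH : 100 * (b * d : ℕ) * (H : ℝ) ≤ x := by
        refine le_trans ?_ ht2
        have h1 : (d : ℝ) * H ≤ t := by exact_mod_cast hdH
        push_cast
        have hb0 : (0 : ℝ) ≤ 100 * b := by positivity
        calc 100 * ((b : ℝ) * d) * H = 100 * b * (d * H) := by ring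
          _ ≤ 100 * b * t := mul_le_mul_of_nonneg_left h1 hb0
      have key : ∀ κ' : ℝ, κ ≤ κ' → (1 / 3 - 1 / 24) * (H : ℝ) ≤ (((Icc 1 H).filter (fun k : ℕ =>
          κ' * (S (2 * (b * d) * k) * x / Real.log x ^ 2) ≤ (pi2 x (2 * (b * d) * k) : ℝ))).card : ℝ) →
          (1 / 3 - 1 / 24) * (H : ℝ) ≤ (((Icc 1 H).filter (fun k : ℕ =>
          κ * (S (2 * b * (d * k)) * x / Real.log x ^ 2) ≤ (pi2 x (2 * b * (d * k)) : ℝ))).card : ℝ) := by
        intro κ' hκ' h1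
        refine h1.trans (Nat.cast_le.2 (card_le_card fun k hk => ?_))
        rw [mem_filter] at hk ⊢
        refine ⟨hk.1, hmono κ' _ _ hκ' ?_⟩
        have e : 2 * b * (d * k) = 2 * (b * d) * k := by ring
        rw [e]
        exact hk.2
      have hd : d = 1 ∨ d = 2 ∨ d = 3 := by omega
      rcases hd with rfl | rfl | rfl
      · refine key κ₁ hk1 ?_
        have := h₁ x hx1 H hlogH (by simpa using hbH)
        simpa only [mul_one] using this
      · exact key κ₂ hk2 (h₂ x hx2 H hlogH (by simpa using hbH))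
      · exact key κ₃ hk3 (h₃ x hx3 H hlogH (by simpa using hbH))) t h6 hCN le_rfl
  exact ⟨l, hl, hl'', fun k hk => ⟨(hl' k hk).2, (hl' k hk).1⟩⟩

end Pool.Agent.Results.MP_678834_nt.BoundedSumsRightOrder
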