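import Mathlib
import Pool.Agent.U974.TW.Fld4
import Pool.Agent.Y667.BKP.Main

/-!
# The Bloch–Kato formula at `λ = 2` for the Hilbert modular newforms of the twists of `X_0(49)` over ALL the totally
# real fields generated by the square roots of prime tuples, for a positive proportion of all tuples of shifts

`E_D : y² = x³ - 35 D² x - 98 D³` is the twist of `X_0(49)` by `D`, `f_D` its newform. The base change of `f_D` to a
totally real field `K` with square roots of rational numbers as generators is a Hilbert modular newform `g = g_{D,K}`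
of parallel weight `2` with trivial central character and rational eigenvalues `t_v = a_v(E_D)`; so
`V_{g,2} = V_2 E_D` restricted to `Gal(K̄/K)`, and `L(g, s) = L(E_D/K, s + 1)` in the normalization of the problem.

Let `T` be ANY finite set of primes `≡ 1 mod 4` (for instance the empty set), `N ≥ 1` prime to `7` and `m ≥ 0`. There
are an auxiliary prime `r ≡ 1 mod 4 N`, inert in `ℚ(√-7)`, and a bound `B` such that in EVERY set `W` of at least `δ x`
integers of `[0, x]` at least the proportion `c(δ) > 0` of all the `x ^ m` vectors `h_1 < ... < h_m` have their entries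
in `W` and satisfy: for EVERY graph `G` with the vertices `1, ..., m` there is `d₀ ∈ {1, r}` such that for infinitely
many `n` the numbers `p_i = n + h_i` are primes, `1` modulo `28 N`, at most `B` primes lie at distance at most `Y`
from `n` (for every `Y`), and for all `J ⊆ T` the Bloch–Kato formula `dim H¹_f(K, V_{g,2}) = ord_{s=0} L(g, s)` holds,
with both sides zero, for

* ALL number fields `K ⊆ ℚ(√q : q ∈ J)` and all `D = ∏ U · d₀ ∏_{i ∈ S} p_i`, `U ∈ Base`, for which the number of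
  the rooted spanning forests of `G[S]` is odd;
* if every vertex of `S` has at most one neighbour in `S`: ALL number fields
  `K ⊆ ℚ(√q : q ∈ J; √p_i : i ∈ S)` and all `D = ∏ U · d₀ ∏_{i ∈ S'} p_i`, `U ∈ Base`, `S' ⊆ S`.

All these fields are totally real. `Base` consists of the `U ⊆ T` with `E_M(ℚ)` finite and `Ш(E_M/ℚ)[2] = 0` for all
the `M = ∏ (U ∆ V)`, `V ⊆ J`; for `J = ∅` and `U = ∅` this condition is satisfied.

For `T = ∅` and the graph without edges: for a positive proportion of all the `m`-tuples `h` there are infinitely many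
prime tuples `(n + h_1, ..., n + h_m)` such that the formula holds for the newforms of `E_D`, `D` the `2 ^ m` partial
products (times `1` or times `r`), over all the subfields of `ℚ(√(n + h_1), ..., √(n + h_m))`.

Proof. `Pool/Agent/U974/PP`: for a random tuple of `K` shifts, `K` large, every difference has a private large prime
factor to the first power; modulo these primes the class of `n` is chosen such that the symbols between the primes
which the theorem of Maynard and Tao finds are those of a Paley graph, whatever the primes are; by Ramsey's theorem one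
`m`-subtuple serves all patterns, and averaging gives a positive proportion. The `2`-descents and the nonvanishing of
the central values are from `U974/TW/Fld4` and helper80's `U80/MQ` (with helper120's `U120/MF`). `H¹_f(K, V_2 E)` is
described by the local Kummer maps (`Y667/BKP`); it is zero since `E_D(K)` is finite and `Ш(E_D/K)[2^∞]` has bounded
exponent.
-/

set_option autoImplicit false

open scoped Classical

open WeierstrassCurve NumberField IsDedekindDomain
open scoped symmDiff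

namespace Pool.Agent.Results.MP_6e2fc3_nt.PrimeTupleBaseChanges

open Pool.Agent.TH841.NF.D (Sha)
open Pool.Agent.Y667.BKP (H1f)

/-- the coefficient of `x` -/
def A (D : ℕ) : ℤ := -35 * (D : ℤ) ^ 2

/-- the constant coefficient -/
def B (D : ℕ) : ℤ := -98 * (D : ℤ) ^ 3

/-- the curve `y² = x³ - 35 D² x - 98 D³` over `K` -/
def curve (D : ℕ) (K : Type) [Field K] : WeierstrassCurve K :=
  { a₁ := 0, a₂ := 0, a₃ := 0, a₄ := ((A D : ℤ) : K), a₆ := ((B D : ℤ) : K) }

/-- `E_D(ℚ)` is finite and `Ш(E_D/ℚ)` has no element of order two -/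
def TrivialTwo (D : ℕ) : Prop :=
  Finite (curve D ℚ).toAffine.Point ∧ ∀ x : Sha (curve D ℚ), 2 • x = 0 → x = 0

/-- the eigenvalue `t_v = q_v - #{(x, y) ∈ k_v² : y² = x³ - 35 D² x - 98 D³}` at `v` -/
noncomputable def eigenvalue {K : Type} [Field K] [NumberField K] (D : ℕ)
    (v : HeightOneSpectrum (𝓞 K)) : ℤ :=
  ((Ideal.absNorm v.asIdeal : ℕ) : ℤ) -
    ((Nat.card {x : (𝓞 K ⧸ v.asIdeal) × (𝓞 K ⧸ v.asIdeal) //
      x.2 ^ 2 = x.1 ^ 3 + (A D : 𝓞 K ⧸ v.asIdeal) * x.1 + (B D : 𝓞 K ⧸ v.asIdeal)} : ℕ) : ℤ)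

/-- the Euler factor `(1 - t_v q_v^(-s-1) + q_v^(-2s-1))⁻¹` of `L(g, s)` at `v`; it is left out at the finitely many
places that divide `14 D` -/
noncomputable def factor {K : Type} [Field K] [NumberField K] (D : ℕ) (s : ℂ)
    (v : HeightOneSpectrum (𝓞 K)) : ℂ :=
  if ((14 * D : ℕ) : 𝓞 K) ∈ v.asIdeal then 1 else
    (1 - ((eigenvalue D v : ℤ) : ℂ) * ((Ideal.absNorm v.asIdeal : ℕ) : ℂ) ^ (-s - 1)
      + ((Ideal.absNorm v.asIdeal : ℕ) : ℂ) ^ (-2 * s - 1))⁻¹

/-- The Bloch–Kato formula for the Hilbert modular newform of `E_D` over the totally real field `K` and `λ = 2`, both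
sides being zero: `L(g, s)` is entire with order of vanishing zero at the centre `s = 0`, and the Bloch–Kato Selmer
group `H¹_f(K, V_2 E_D)` is zero; more precisely `E_D(K)` is finite and the elements of `Ш(E_D/K)` of order a power
of two are killed by `[K : ℚ]`. -/
structure RankFormula (D : ℕ) (K : Type) [Field K] [NumberField K] : Prop where
  real : IsTotallyReal K
  analytic : ∃ L : ℂ → ℂ, Differentiable ℂ L ∧
    (∀ s : ℂ, (1 : ℝ) / 2 < s.re → HasProd (factor (K := K) D s) (L s)) ∧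
    analyticOrderAt L 0 = 0 ∧ L 0 ≠ 0
  selmer : ∀ x : H1f 2 (curve D K), x = 0
  points : Finite (curve D K).toAffine.Point
  sha : ∀ (k : ℕ) (x : Sha (curve D K)), 2 ^ k • x = 0 → Module.finrank ℚ K • x = 0

/-- the field generated by the square roots of the elements of `J` -/
noncomputable def Roots (J : Finset ℕ) : IntermediateField ℚ ℂ :=
  IntermediateField.adjoin ℚ {z : ℂ | ∃ q ∈ J, z ^ 2 = (q : ℂ)}

/-- the determinant of the matrix `1 + Laplacian` of the subgraph of `G` induced on `S` is odd -/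
def OddForests {m : ℕ} (G : SimpleGraph (Fin m)) (S : Finset (Fin m)) : Prop :=
  ((1 : Matrix (S : Set (Fin m)) (S : Set (Fin m)) (ZMod 2)) +
    (G.induce (S : Set (Fin m))).lapMatrix (ZMod 2)).det ≠ 0

/-- every vertex of `S` has at most one neighbour in `S` -/
def Matching {m : ℕ} (G : SimpleGraph (Fin m)) (S : Finset (Fin m)) : Prop :=
  ∀ i ∈ S, ∀ j ∈ S, ∀ k ∈ S, G.Adj i j → G.Adj i k → j = k

/-- the sets `U ⊆ T` with `E_M(ℚ)` finite and `Ш(E_M/ℚ)[2] = 0` for all `M = ∏ (U ∆ V)`, `V ⊆ J` -/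
def Base (T J : Finset ℕ) : Set (Finset ℕ) :=
  {U | U ⊆ T ∧ ∀ V, V ⊆ J → TrivialTwo (∏ q ∈ U ∆ V, q)}

/-- the property of the tuple `h`: for every graph `G` there is `d ∈ {1, r}` such that for infinitely many `n` the
numbers `n + h i` are primes, `1` modulo `28 N`, with at most `B` primes at distance at most `Y` from `n` (for every
`Y`), and the formula holds over the fields described above, for all `J ⊆ T` -/
def AllFields (T : Finset ℕ) (N r B : ℕ) {m : ℕ} (h : Fin m → ℕ) : Prop :=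
  ∀ G : SimpleGraph (Fin m), ∃ d : ℕ, (d = 1 ∨ d = r) ∧ ∀ Y : ℕ,
    {n : ℕ | (∀ i, (n + h i).Prime ∧ n + h i ≡ 1 [MOD 28 * N]) ∧
      {p : ℕ | p.Prime ∧ |(p : ℤ) - n| ≤ Y}.ncard ≤ B ∧
      ∀ J : Finset ℕ, J ⊆ T → ∀ U ∈ Base T J,
        (∀ K : IntermediateField ℚ ℂ, K ≤ Roots J → ∃ _ : NumberField K,
          ∀ S : Finset (Fin m), OddForests G S →
            RankFormula ((∏ q ∈ U, q) * (d * ∏ i ∈ S, (n + h i))) K) ∧
        (∀ S : Finset (Fin m), Matching G S →
          ∀ K : IntermediateField ℚ ℂ, K ≤ Roots (J ∪ S.image (fun i => n + h i)) → ∃ _ : NumberField K,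
            ∀ S' : Finset (Fin m), S' ⊆ S →
              RankFormula ((∏ q ∈ U, q) * (d * ∏ i ∈ S', (n + h i))) K)}.Infinite

section proof

open Pool.Agent.U974.TW

theorem real_of {K : Type} [Field K] [NumberField K] {n : ℕ} {m : Fin n → ℕ} (r : Fin n → K)
    (hr : ∀ i, r i ^ 2 = (m i : K)) (htop : IntermediateField.adjoin ℚ (Set.range r) = ⊤) :
    IsTotallyReal K := by
  refine ⟨fun v => ?_⟩
  rw [InfinitePlace.isReal_iff, ComplexEmbedding.isReal_iff]
  have h1 : ∀ x : K, x ∈ IntermediateField.adjoin ℚ (Set.range r) →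
      (starRingEnd ℂ) (v.embedding x) = v.embedding x := by
    intro x hx
    induction hx using IntermediateField.adjoin_induction with
    | mem x hx =>
      obtain ⟨i, rfl⟩ := hx
      have h2 : v.embedding (r i) ^ 2 = (m i : ℂ) := by
        rw [← map_pow, hr i, map_natCast]
      have h3 : (((Real.sqrt (m i) : ℝ) : ℂ)) ^ 2 = (m i : ℂ) := by
        rw [← Complex.ofReal_pow, Real.sq_sqrt (Nat.cast_nonneg _), Complex.ofReal_natCast]
      rcases sq_eq_sq_iff_eq_or_eq_neg.1 (h2.trans h3.symm) with h | h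
      · rw [h, Complex.conj_ofReal]
      · rw [h, map_neg, Complex.conj_ofReal]
    | algebraMap q => simp
    | add x y _ _ hx hy => rw [map_add, map_add, hx, hy]
    | inv x _ hx => rw [map_inv₀, map_inv₀, hx]
    | mul x y _ _ hx hy => rw [map_mul, map_mul, hx, hy]
  ext x
  rw [ComplexEmbedding.conjugate_coe_eq]
  exact h1 x (by rw [htop]; trivial)

theorem isReal {J : Finset ℕ} (K : IntermediateField ℚ ℂ) [NumberField K] (hK : K ≤ Roots J) :
    IsTotallyReal K ∧ ∃ n, Module.finrank ℚ K = 2 ^ n := by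
  obtain ⟨n, S, r, _, _, hr, htop, h⟩ := Pool.Agent.U80.MQ.exists_gens K hK
  exact ⟨real_of (m := fun i => ∏ q ∈ S i, q) r hr htop, n, h⟩

theorem numberField {J : Finset ℕ} (K : IntermediateField ℚ ℂ) (hK : K ≤ Roots J) : NumberField K := by
  obtain ⟨n, _, _, _, _, _, _, h⟩ := Pool.Agent.U80.MQ.exists_gens K hK
  exact { to_charZero := inferInstance
          to_finiteDimensional := Module.finite_of_finrank_pos (by rw [h]; positivity) }

/-- the places dividing `2 (4 A³ + 27 B²)` are those dividing `14 D` -/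
theorem mem_iff {K : Type} [Field K] [NumberField K] (D : ℕ) (v : HeightOneSpectrum (𝓞 K)) :
    ((2 * (4 * A D ^ 3 + 27 * B D ^ 2) : ℤ) : 𝓞 K) ∈ v.asIdeal ↔ ((14 * D : ℕ) : 𝓞 K) ∈ v.asIdeal := by
  have e : ((2 * (4 * A D ^ 3 + 27 * B D ^ 2) : ℤ) : 𝓞 K) = (2 : 𝓞 K) ^ 9 * (7 : 𝓞 K) ^ 3 * (D : 𝓞 K) ^ 6 := by
    have : (2 * (4 * A D ^ 3 + 27 * B D ^ 2) : ℤ) = 2 ^ 9 * 7 ^ 3 * (D : ℤ) ^ 6 := by
      unfold A B
      ring
    rw [this]
    push_cast
    ring
  have e' : ((14 * D : ℕ) : 𝓞 K) = 2 * 7 * (D : 𝓞 K) := by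
    push_cast
    norm_num
  rw [e, e']
  have hp := v.isPrime
  constructor
  · intro h
    rcases hp.mem_or_mem h with h1 | h1
    · rcases hp.mem_or_mem h1 with h2 | h2
      · have := hp.mem_of_pow_mem _ h2
        exact Ideal.mul_mem_right _ _ (Ideal.mul_mem_right _ _ this)
      · have := hp.mem_of_pow_mem _ h2
        exact Ideal.mul_mem_right _ _ (Ideal.mul_mem_left _ _ this)
    · have := hp.mem_of_pow_mem _ h1
      exact Ideal.mul_mem_left _ _ this
  · intro h
    rcases hp.mem_or_mem h with h1 | h1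
    · rcases hp.mem_or_mem h1 with h2 | h2
      · exact Ideal.mul_mem_right _ _ (Ideal.mul_mem_right _ _ (Ideal.pow_mem_of_mem _ h2 9 (by norm_num)))
      · exact Ideal.mul_mem_right _ _ (Ideal.mul_mem_left _ _ (Ideal.pow_mem_of_mem _ h2 3 (by norm_num)))
    · exact Ideal.mul_mem_left _ _ (Ideal.pow_mem_of_mem _ h1 6 (by norm_num))

theorem factor_eq {K : Type} [Field K] [NumberField K] (D : ℕ) (s : ℂ) (v : HeightOneSpectrum (𝓞 K)) :
    factor (K := K) D s v =
      Pool.Agent.U80.MQ.factor (K := K) (Pool.Agent.U80.MQ.A D) (Pool.Agent.U80.MQ.B D) (s + 1) v := by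
  unfold factor Pool.Agent.U80.MQ.factor
  have e1 : (-(s + 1) : ℂ) = -s - 1 := by ring
  have e2 : (1 - 2 * (s + 1) : ℂ) = -2 * s - 1 := by ring
  have e3 : ((2 * (4 * Pool.Agent.U80.MQ.A D ^ 3 + 27 * Pool.Agent.U80.MQ.B D ^ 2) : ℤ) : 𝓞 K) ∈ v.asIdeal ↔
      ((14 * D : ℕ) : 𝓞 K) ∈ v.asIdeal := mem_iff D v
  rw [e1, e2]
  by_cases h : ((14 * D : ℕ) : 𝓞 K) ∈ v.asIdeal
  · rw [if_pos h, if_pos (e3.2 h)]
  · rw [if_neg h, if_neg (fun h' => h (e3.1 h'))]
    rfl

theorem formula_of {D : ℕ} {J : Finset ℕ} (K : IntermediateField ℚ ℂ) [NumberField K] (hK : K ≤ Roots J)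
    (h : Finite (Pool.Agent.U80.MQ.tc D K).toAffine.Point ∧
      (∃ G : ℂ → ℂ, Differentiable ℂ G ∧ (∀ s : ℂ, 3 / 2 < s.re →
        HasProd (Pool.Agent.U80.MQ.factor (K := K) (Pool.Agent.U80.MQ.A D)
          (Pool.Agent.U80.MQ.B D) s) (G s)) ∧ G 1 ≠ 0) ∧
      ∀ (k : ℕ) (x : Sha (Pool.Agent.U80.MQ.tc D K)), (2 ^ k : ℕ) • x = 0 → Module.finrank ℚ K • x = 0) :
    RankFormula D K := by
  obtain ⟨h1, ⟨G, g1, g2, g3⟩, h3⟩ := h
  obtain ⟨hr, n, hn⟩ := isReal K hK
  have hs : ∀ (k : ℕ) (x : Sha (curve D K)), 2 ^ k • x = 0 → Module.finrank ℚ K • x = 0 :=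
    fun k x hx => h3 k x hx
  refine ⟨hr, ⟨fun s => G (s + 1), ?_, fun s hs' => ?_, ?_, ?_⟩, ?_, h1, hs⟩
  · exact g1.comp (differentiable_id.add_const 1)
  · have h4 := g2 (s + 1) (by
      rw [Complex.add_re, Complex.one_re]
      linarith)
    have e : factor (K := K) D s = Pool.Agent.U80.MQ.factor (K := K) (Pool.Agent.U80.MQ.A D)
        (Pool.Agent.U80.MQ.B D) (s + 1) := by
      funext v
      exact factor_eq D s v
    rw [e]
    exact h4
  · have hd : Differentiable ℂ fun s => G (s + 1) := g1.comp (differentiable_id.add_const 1)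
    refine (hd.analyticAt 0).analyticOrderAt_eq_zero.2 ?_
    rw [zero_add]
    exact g3
  · show G (0 + 1) ≠ 0
    rw [zero_add]
    exact g3
  · refine Pool.Agent.Y667.BKP.h1f_zero Nat.prime_two h1 n fun k x hx => ?_
    have h5 := h3 k x hx
    rw [hn] at h5
    exact h5

end proof

/-- **The Bloch–Kato formula at `λ = 2` over the totally real fields of prime tuples.** -/
theorem result (m N : ℕ) (hN : 0 < N) (h7 : N.Coprime 7) (T : Finset ℕ)
    (hT : ∀ q ∈ T, q.Prime ∧ q % 4 = 1) :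
    TrivialTwo 1 ∧
    ∃ r B : ℕ, r.Prime ∧ r ≡ 1 [MOD 4 * N] ∧ r % 7 = 3 ∧ ∀ δ : ℝ, 0 < δ → ∃ c : ℝ, 0 < c ∧
      ∃ x₀ : ℕ, ∀ x : ℕ, x₀ ≤ x → ∀ W : Finset ℕ, (∀ w ∈ W, w ≤ x) → δ * x ≤ W.card →
        c * (x : ℝ) ^ m ≤ ({h : Fin m → ℕ | StrictMono h ∧ (∀ i, h i ∈ W) ∧
          AllFields T N r B h}.ncard : ℝ) := by
  refine ⟨?_, ?_⟩
  · have h1 := (Pool.Agent.U120.MF.tt_gd (U := (∅ : Finset ℕ))
      (fun p hp => absurd hp (Finset.notMem_empty _))).2 (by
      intro x _ p hp
      exact absurd hp (Finset.notMem_empty _))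
    rw [Finset.prod_empty] at h1
    exact h1
  obtain ⟨r, hr1, hr2, hr3, B, hB⟩ := Pool.Agent.U974.TW.relP m N hN h7 T hT
  refine ⟨r, B, hr1, hr2, hr3, fun δ hδ => ?_⟩
  obtain ⟨c, hc, x₀, hx⟩ := hB δ hδ
  refine ⟨c, hc, x₀, fun x hxx W hW hWc => (hx x hxx W hW hWc).trans ?_⟩
  have hfin : {h : Fin m → ℕ | StrictMono h ∧ (∀ i, h i ∈ W) ∧ AllFields T N r B h}.Finite := by
    refine (Fintype.piFinset (fun _ : Fin m => W)).finite_toSet.subset ?_
    rintro h ⟨-, h2, -⟩
    rw [Finset.mem_coe, Fintype.mem_piFinset]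
    exact h2
  have hsub : {h : Fin m → ℕ | StrictMono h ∧ (∀ i, h i ∈ W) ∧ Pool.Agent.U974.TW.AllCfg N B T r h} ⊆
      {h : Fin m → ℕ | StrictMono h ∧ (∀ i, h i ∈ W) ∧ AllFields T N r B h} := by
    rintro h ⟨g1, g2, g3⟩
    refine ⟨g1, g2, fun G => ?_⟩
    obtain ⟨c, hc⟩ := g3 G
    obtain ⟨β, hβ1, hβ2⟩ := Pool.Agent.U974.TW.exists_flip c
    refine ⟨if β then r else 1, ?_, fun Y => (hc Y).mono ?_⟩
    · cases β
      · exact Or.inl rfl
      · exact Or.inr rfl
    · rintro n ⟨k1, k2, k3⟩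
      refine ⟨fun i => ⟨k1.prime i, k2 i⟩, k3, ?_⟩
      rintro J hJ U ⟨hU, hUJ⟩
      refine ⟨fun K hK => ?_, fun S hS K hK => ?_⟩
      · have hnf : NumberField K := numberField K hK
        refine ⟨hnf, fun S hS => formula_of K hK ?_⟩
        exact k1.field hU hJ hUJ β S (by
          rw [hβ1, Pool.Agent.U974.TW.ker_iff]
          exact hS) K hK _ rfl
      · have hnf : NumberField K := numberField K hK
        refine ⟨hnf, fun S' hS' => formula_of K hK ?_⟩
        exact k1.field2 hU hJ hUJ β S (fun S'' hS'' => by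
          rw [hβ1]
          exact Pool.Agent.U974.TW.Match.ker (Pool.Agent.U974.TW.Match.mono hS hS'')) S' hS' K hK _ rfl
  exact_mod_cast Set.ncard_le_ncard hsub hfin

end Pool.Agent.Results.MP_6e2fc3_nt.PrimeTupleBaseChanges
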