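import Pool.Agent.U724.PH.NcK

/-!
# MP_6e5bed_ag: Kimura-finiteness of noncommutative Chow motives and the growth of Grothendieck groups

Let `A` be a smooth proper dg category over a field `k` which satisfies the noncommutative sign
conjecture `C⁺` (the projector of the periodic cyclic homology to its even part is induced by a class in
`K_0 (A^op ⊗ A)_ℚ`), with periodic cyclic homology (or `TP(-)[1/p]`) of total dimension `b > 0`. Let
`δ (n)` be the dimension of the space of the homologically trivial classes in
`K_0 ((A^op ⊗ A)^(⊗ n))_ℚ`, the endomorphisms of `U(A)^(⊗ n)` which are zero on the cohomology, a number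
or infinity.

Theorem. (1) The noncommutative Chow motive `U(A)` is Kimura-finite, or `δ (n) ≥ c ^ n` for all large `n`,
for each `c ≥ 0` with `c ^ (b + 1) < (b ^ (b + 1) + 1) ^ 2`.
(2) For each `m ≥ 1`: all homologically trivial endomorphisms of `U(A)^(⊗ m)` are nilpotent, or
`δ (n) ≥ c ^ n` for all large `n`, for each `c ≥ 0` with `c ^ m < (b ^ m + 1) ^ 2`.

Since the upper bounds of (1) and (2) for `c` are larger than `b ^ 2`, there is an exponential gap: if
`liminf δ (n) ^ (1 / n) ≤ b ^ 2` then `U(A)` is Kimura-finite and all homologically trivial endomorphisms of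
all powers are nilpotent. (The dimension of `K_0 ((A^op ⊗ A)^(⊗ n))_ℚ` modulo numerical equivalence is at
most `b ^ (2 n)`.)

It applies to `perf(X)` for all `X` for which the sign conjecture is known and to the semi-orthogonal
components with `C⁺`. There is no duality `A ≅ A^op` and `K_0(A)` may be numerically trivial (so that
the unit is not a direct summand of the powers of `U(A)`).

Idea of the proof. If (2) fails for `m` then either `δ (m)` is infinite or there is an idempotent
endomorphism of `U(A)^(⊗ m)` which is zero on the cohomology and not zero, so that `U(A)^(⊗ m) = N ⊕ P` with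
a phantom `P`. All endomorphisms of `N^(⊗ (n - j)) ⊗ P^(⊗ j)` are homologically trivial for `j > 0`, those
of the form `u ⊗ 1` are zero only if `u` is numerically trivial, there are many `u` by `C⁺` (starting
library, `N64.AF`), and `P^(⊗ j)` is not zero, because the category is rigid. These summands occur
`binomial (n, j)` times. Further the spaces for `n` are embedded into those for `n + 1`, because some
endomorphism of `U(A)` has a trace different from zero. Kimura-finiteness follows from the nilpotence for
`m = b + 1`: the antisymmetrizer of `b + 1` factors on the even part is idempotent and homologically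
trivial.

The setting. `C` is the category `NChow(k)_ℚ` of noncommutative Chow motives, a rigid symmetric monoidal
pseudo-abelian `ℚ`-linear category, `T = U(A)`, `End (T^(⊗ n)) = K_0 ((A^op ⊗ A)^(⊗ n))_ℚ`; `R` is given by
`HP` or `TP(-)[1/p]` with coefficients extended to an algebraically closed field `K`, a tensor functor to
super vector spaces. `IsReal`: the endomorphisms of the unit are rational numbers and `R` is
`ℚ`-linear; `tp T n` is the power `T^(⊗ n)`, `bt R T` is the dimension `b`, `homSub` the space of the
homologically trivial morphisms and `dimE` its dimension.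
-/

set_option autoImplicit false

open CategoryTheory MonoidalCategory Module
open Pool.Agent.Y112.SR Pool.Agent.Y112.KD Pool.Agent.N64.AF Pool.Agent.U724.PH

namespace Pool.Agent.Results.MP_6e5bed_ag.NoncommutativeDichotomy

universe v u w

/-- Either `T` is Kimura-finite or the spaces of the homologically trivial endomorphisms of the powers
of `T` grow exponentially faster than `b ^ (2 n)`; the same for the nilpotence of the homologically
trivial endomorphisms of a fixed power. -/
theorem result {C : Type u} [Category.{v} C] [Preadditive C] [MonoidalCategory C]
    [MonoidalPreadditive C] [SymmetricCategory C] [RightRigidCategory C]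
    [Linear ℚ C] [MonoidalLinear ℚ C] [IsIdempotentComplete C]
    {K : Type w} [Field K] [IsAlgClosed K] [Algebra ℚ K] (R : SuperRealisation C K)
    (hR : IsReal ℚ R) (T : C) (hT : R.CPlus T) (hb : 0 < bt R T) :
    (Pool.Agent.R905.IsKimuraFinite T ∨ ∀ c : ℝ, 0 ≤ c →
      c ^ (bt R T + 1) < ((bt R T : ℝ) ^ (bt R T + 1) + 1) ^ 2 → EndGrows hR T c) ∧
    ∀ m : ℕ, 0 < m →
      (∀ y : End (tp T m), R.H.map (y : tp T m ⟶ tp T m) = 0 → IsNilpotent y) ∨
      ∀ c : ℝ, 0 ≤ c → c ^ m < ((bt R T : ℝ) ^ m + 1) ^ 2 → EndGrows hR T c :=
  ⟨kimura_or_endGrows hR hT hb, fun _ hm => nil_or_endGrows hR hT hb hm⟩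

end Pool.Agent.Results.MP_6e5bed_ag.NoncommutativeDichotomy
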