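import Mathlib
import Pool.Agent.U746.GM.Sq2

set_option autoImplicit false

/-!
# Intervals behind squares in Cramér's model and in sieved models: almost sure thresholds

The problem asks for a prime in `(n², n² + (log₂ n)²]`, an interval whose length is `C (log n)²` with
`C = 1/(log 2)² = 2.08…`. We determine which `C` are admissible in the random models of the primes.

In Cramér's model every `m` is chosen with probability `1/log m`. In the model with the sieve `T` (Granville's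
modification, suggested by Maier's theorem) only the integers `m` without prime factors `p ≤ T(m)` are chosen,
with probability `∏_{p ≤ T(m)} (1 - 1/p)⁻¹ / log m`. Call `n` a `C`-void if no chosen number lies in
`(n², n² + C (log n)²]`. Almost surely:

(A) In Cramér's model there are finitely many `C`-voids if `C > 2`, and infinitely many if `C ≤ 2`.

(B) The threshold is also `2` for every nondecreasing sieve smaller than every power of `log n`.

(C) For sieves of the size of `log n`, `T(m) ≥ c log m` and `T(m) ≤ (log m)^(1 + o(1))`, there are infinitely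
many `C`-voids for every `C < 4 e^(-γ) = 2.24…`.

(D) `2 < 1/(log 2)² < 4 e^(-γ)`: for all large `n` there is a chosen number in `(n², n² + (log₂ n)²]` almost
surely in the models of (A) and (B), while almost surely there is none for infinitely many `n` in the models
of (C).

Proof of (C): let `t = θ log N` with small `θ`, and let `n` be a multiple of `∏_{p ≤ t} p` in `(N, 2N]`; there
are at least `N^(1 - o_θ(1))` such `n`. A number `n² + m` without prime factors up to `t` gives a number `m`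
without prime factors up to `t`, and the number of these `m ≤ y = C (log n)²` is `(1 + o(1)) y / log y` by the
prime number theorem, as `t` is larger than a constant multiple of `√y`. By Mertens' theorem the expected number
of chosen elements is at most `(e^γ C/4 + o(1)) log n`, less than `(1 - δ) log n`; the blocks are disjoint, and
the second Borel–Cantelli lemma applies. (A), (B): fundamental lemma (library `Pool.Agent.U839.Sv.regular`).
-/

open MeasureTheory ProbabilityTheory Filter Topology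

namespace Pool.Agent.Results.MP_73869e_nt.ThresholdsInRandomModels

open Classical in
/-- `∏_{p ≤ T(m)} (1 - 1/p)⁻¹` if `m` has no prime factor `p ≤ T(m)`, and `0` otherwise. -/
noncomputable def weight (T : ℕ → ℕ) (m : ℕ) : ℝ :=
  if ∀ p, p.Prime → p ≤ T m → ¬ p ∣ m then
    ∏ p ∈ (Finset.Icc 1 (T m)).filter Nat.Prime, (1 - 1 / (p : ℝ))⁻¹ else 0

/-- The random model: `E m` is the event that `m` is chosen; these events are independent and have
probability `weight T m / log m` (if this is at most `1`, which is the case for all large `m` here). -/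
structure Model {Ω : Type*} [MeasurableSpace Ω] (μ : Measure Ω) (T : ℕ → ℕ) (E : ℕ → Set Ω) : Prop where
  meas : ∀ m, MeasurableSet (E m)
  indep : iIndepSet E μ
  law : ∀ m : ℕ, μ.real (E m) = min 1 (weight T m / Real.log m)

/-- no element of `Q` lies in `(n², n² + C (log n)²]` -/
def Void (Q : Set ℕ) (C : ℝ) (n : ℕ) : Prop :=
  ∀ m ∈ Q, ¬ (n ^ 2 < m ∧ (m : ℝ) ≤ (n : ℝ) ^ 2 + C * (Real.log n) ^ 2)

/-- the function `a(n)` of the problem, with a set `Q` in place of the primes -/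
noncomputable def a (Q : Set ℕ) (n : ℕ) : ℕ :=
  Set.ncard {m | m ∈ Q ∧ n ^ 2 < m ∧ (m : ℝ) ≤ (n : ℝ) ^ 2 + (Real.logb 2 n) ^ 2}

/-- `T` is nondecreasing and smaller than every power of `log n`. -/
def Small (T : ℕ → ℕ) : Prop :=
  Monotone T ∧ ∀ θ : ℝ, 0 < θ → ∀ᶠ n : ℕ in atTop, (T n : ℝ) ≤ (Real.log n) ^ θ

/-- `T` has the size of `log n`. -/
def Logarithmic (T : ℕ → ℕ) : Prop :=
  (∃ c : ℝ, 0 < c ∧ ∀ᶠ n : ℕ in atTop, c * Real.log n ≤ T n) ∧
    ∀ ε : ℝ, 0 < ε → ∀ᶠ n : ℕ in atTop, (T n : ℝ) ≤ (Real.log n) ^ (1 + ε)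

theorem void_iff {Ω : Type*} (E : ℕ → Set Ω) (ω : Ω) (C : ℝ) (n : ℕ) :
    Void {m | ω ∈ E m} C n ↔ ω ∈ Pool.Agent.U746.GM.NN E (Pool.Agent.U746.GM.blk C n) := by
  rw [Pool.Agent.U746.GM.mem_NN]
  constructor
  · intro h m hm hE
    exact h m hE (Pool.Agent.U746.GM.mem_blk.1 hm)
  · intro h m hE hm
    exact h m (Pool.Agent.U746.GM.mem_blk.2 hm) hE

theorem void_mono {Q : Set ℕ} {C C' : ℝ} (h : C ≤ C') (n : ℕ) (hv : Void Q C' n) : Void Q C n := by
  intro m hm hb
  refine hv m hm ⟨hb.1, hb.2.trans ?_⟩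
  gcongr

theorem infinite_of {Ω : Type*} [MeasurableSpace Ω] {μ : Measure Ω} [IsProbabilityMeasure μ]
    {T : ℕ → ℕ} {E : ℕ → Set Ω} (hE : Model μ T E) (C C' : ℝ) (hC : 0 < C) (hCC : C' ≤ C)
    (h : ¬ Summable (fun n => ∏ m ∈ Pool.Agent.U746.GM.blk C n, (1 - μ.real (E m)))) :
    ∀ᵐ ω ∂μ, {n | Void {m | ω ∈ E m} C' n}.Infinite := by
  obtain ⟨n₀, hn₀⟩ := Pool.Agent.U746.GM.blk_disj C hC
  filter_upwards [Pool.Agent.U746.GM.io' hE.meas hE.indep (Pool.Agent.U746.GM.blk C) n₀ hn₀ h] with ω hω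
  refine hω.mono ?_
  intro n hn
  exact void_mono hCC n ((void_iff E ω C n).2 hn)

theorem finite_of {Ω : Type*} [MeasurableSpace Ω] {μ : Measure Ω} [IsProbabilityMeasure μ]
    {T : ℕ → ℕ} {E : ℕ → Set Ω} (hE : Model μ T E) (C : ℝ)
    (h : Summable (fun n => ∏ m ∈ Pool.Agent.U746.GM.blk C n, (1 - μ.real (E m)))) :
    ∀ᵐ ω ∂μ, {n | Void {m | ω ∈ E m} C n}.Finite := by
  filter_upwards [Pool.Agent.U746.GM.fo hE.meas hE.indep (Pool.Agent.U746.GM.blk C) h] with ω hω
  refine hω.subset ?_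
  intro n hn
  exact (void_iff E ω C n).1 hn

theorem law' {Ω : Type*} [MeasurableSpace Ω] {μ : Measure Ω}
    {T : ℕ → ℕ} {E : ℕ → Set Ω} (hE : Model μ T E) (m : ℕ) :
    μ.real (E m) = min 1 (Pool.Agent.U839.Sv.fT T m / Real.log m) := hE.law m

theorem small_zero : Small (fun _ => 0) := by
  refine ⟨monotone_const, fun θ _ => ?_⟩
  filter_upwards [eventually_ge_atTop 1] with n hn
  push_cast
  exact Real.rpow_nonneg (Real.log_natCast_nonneg n) θ

theorem consts : 2 < 1 / (Real.log 2) ^ 2 ∧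
    1 / (Real.log 2) ^ 2 < 4 * Real.exp (-Real.eulerMascheroniConstant) := by
  have h1 := Real.log_two_lt_d9
  have h2 := Real.log_two_gt_d9
  have h3 : 0 < Real.log 2 := by linarith
  have h4 : (Real.log 2) ^ 2 < 1 / 2 := by nlinarith
  have h5 : (0.48 : ℝ) < (Real.log 2) ^ 2 := by nlinarith
  constructor
  · rw [lt_div_iff₀ (by positivity)]
    linarith
  · rw [div_lt_iff₀ (by positivity)]
    have hg := Pool.Agent.U839.Thin.gamma_bound
    have h6 : Real.exp (-(7 / 12 : ℝ)) < Real.exp (-Real.eulerMascheroniConstant) :=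
      Real.exp_lt_exp.2 (by linarith)
    have h7 : (1 : ℝ) / 1.92 ≤ Real.exp (-(7 / 12 : ℝ)) := by
      rw [Real.exp_neg, one_div]
      apply inv_anti₀ (Real.exp_pos _)
      have h8 : Real.exp (7 / 12 : ℝ) ^ 12 ≤ (1.92 : ℝ) ^ 12 := by
        rw [← Real.exp_nat_mul]
        have h9 : ((12 : ℕ) : ℝ) * (7 / 12 : ℝ) = ((7 : ℕ) : ℝ) * 1 := by norm_num
        rw [h9, Real.exp_nat_mul]
        calc Real.exp 1 ^ 7 ≤ (2.7182818286 : ℝ) ^ 7 :=
              pow_le_pow_left₀ (Real.exp_pos _).le Real.exp_one_lt_d9.le 7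
          _ ≤ _ := by norm_num
      exact le_of_pow_le_pow_left₀ (by norm_num) (by norm_num) h8
    have h10 : (1 : ℝ) / 1.92 < Real.exp (-Real.eulerMascheroniConstant) := lt_of_le_of_lt h7 h6
    have h11 : 4 * (1 / 1.92 : ℝ) * 0.48 = 1 := by norm_num
    nlinarith [Real.exp_pos (-Real.eulerMascheroniConstant)]

theorem logb_sq (n : ℕ) : (Real.logb 2 n) ^ 2 = 1 / (Real.log 2) ^ 2 * (Real.log n) ^ 2 := by
  rw [Real.logb, div_pow]
  ring

theorem a_pos_iff (Q : Set ℕ) (n : ℕ) : 0 < a Q n ↔ ¬ Void Q (1 / (Real.log 2) ^ 2) n := by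
  have hfin : {m | m ∈ Q ∧ n ^ 2 < m ∧ (m : ℝ) ≤ (n : ℝ) ^ 2 + (Real.logb 2 n) ^ 2}.Finite := by
    refine (Set.finite_Iic ⌊(n : ℝ) ^ 2 + (Real.logb 2 n) ^ 2⌋₊).subset ?_
    intro m hm
    exact Nat.le_floor hm.2.2
  unfold a
  rw [Set.ncard_pos hfin]
  unfold Void
  rw [logb_sq]
  constructor
  · rintro ⟨m, h1, h2⟩ h3
    exact h3 m h1 h2
  · intro h
    push Not at h
    obtain ⟨m, h1, h2, h3⟩ := h
    exact ⟨m, h1, h2, h3⟩

theorem a_zero_iff (Q : Set ℕ) (n : ℕ) : a Q n = 0 ↔ Void Q (1 / (Real.log 2) ^ 2) n := by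
  have := a_pos_iff Q n
  constructor
  · intro h
    by_contra hv
    have := this.2 hv
    omega
  · intro h
    by_contra h0
    exact this.1 (Nat.pos_of_ne_zero h0) h

/-- (A), (B), (C), (D). -/
theorem result.{u} :
    (∀ (Ω : Type u) [MeasurableSpace Ω] (μ : Measure Ω) [IsProbabilityMeasure μ] (E : ℕ → Set Ω),
      Model μ (fun _ => 0) E → ∀ C : ℝ,
      (2 < C → ∀ᵐ ω ∂μ, {n | Void {m | ω ∈ E m} C n}.Finite) ∧
      (C ≤ 2 → ∀ᵐ ω ∂μ, {n | Void {m | ω ∈ E m} C n}.Infinite)) ∧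
    (∀ T : ℕ → ℕ, Small T → ∀ (Ω : Type u) [MeasurableSpace Ω] (μ : Measure Ω)
      [IsProbabilityMeasure μ] (E : ℕ → Set Ω), Model μ T E → ∀ C : ℝ,
      (2 < C → ∀ᵐ ω ∂μ, {n | Void {m | ω ∈ E m} C n}.Finite) ∧
      (C < 2 → ∀ᵐ ω ∂μ, {n | Void {m | ω ∈ E m} C n}.Infinite)) ∧
    (∀ T : ℕ → ℕ, Logarithmic T → ∀ (Ω : Type u) [MeasurableSpace Ω] (μ : Measure Ω)
      [IsProbabilityMeasure μ] (E : ℕ → Set Ω), Model μ T E → ∀ C : ℝ,
      C < 4 * Real.exp (-Real.eulerMascheroniConstant) →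
      ∀ᵐ ω ∂μ, {n | Void {m | ω ∈ E m} C n}.Infinite) ∧
    (2 < 1 / (Real.log 2) ^ 2 ∧
      1 / (Real.log 2) ^ 2 < 4 * Real.exp (-Real.eulerMascheroniConstant)) ∧
    (∀ T : ℕ → ℕ, ∀ (Ω : Type u) [MeasurableSpace Ω] (μ : Measure Ω)
      [IsProbabilityMeasure μ] (E : ℕ → Set Ω), Model μ T E →
      (Small T → ∀ᵐ ω ∂μ, ∀ᶠ n : ℕ in atTop, 0 < a {m | ω ∈ E m} n) ∧
      (Logarithmic T → ∀ᵐ ω ∂μ, ∃ᶠ n : ℕ in atTop, a {m | ω ∈ E m} n = 0)) := by
  have hB : ∀ T : ℕ → ℕ, Small T → ∀ (Ω : Type u) [MeasurableSpace Ω] (μ : Measure Ω)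
      [IsProbabilityMeasure μ] (E : ℕ → Set Ω), Model μ T E → ∀ C : ℝ,
      (2 < C → ∀ᵐ ω ∂μ, {n | Void {m | ω ∈ E m} C n}.Finite) ∧
      (C < 2 → ∀ᵐ ω ∂μ, {n | Void {m | ω ∈ E m} C n}.Infinite) := by
    intro T hT Ω _ μ _ E hE C
    refine ⟨fun hC => ?_, fun hC => ?_⟩
    · exact finite_of hE C (Pool.Agent.U746.GM.small_conv (fun m => μ.real (E m)) T hT.1 hT.2
        (law' hE) C hC)
    · refine infinite_of hE (max C 1) C (lt_max_of_lt_right one_pos) (le_max_left _ _)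
        (Pool.Agent.U746.GM.small_div (fun m => μ.real (E m)) T hT.1 hT.2 (law' hE) (max C 1)
          (lt_max_of_lt_right one_pos) (max_lt hC (by norm_num)))
  have hC : ∀ T : ℕ → ℕ, Logarithmic T → ∀ (Ω : Type u) [MeasurableSpace Ω] (μ : Measure Ω)
      [IsProbabilityMeasure μ] (E : ℕ → Set Ω), Model μ T E → ∀ C : ℝ,
      C < 4 * Real.exp (-Real.eulerMascheroniConstant) →
      ∀ᵐ ω ∂μ, {n | Void {m | ω ∈ E m} C n}.Infinite := by
    intro T hT Ω _ μ _ E hE C hC
    obtain ⟨⟨c, hc, h1⟩, h2⟩ := hT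
    have h3 : (1 : ℝ) < 4 * Real.exp (-Real.eulerMascheroniConstant) := by
      linarith [consts.1, consts.2]
    exact infinite_of hE (max C 1) C (lt_max_of_lt_right one_pos) (le_max_left _ _)
      (Pool.Agent.U746.GM.gran_div (fun m => μ.real (E m)) T c hc h1 h2 (law' hE) (max C 1)
        (lt_max_of_lt_right one_pos) (max_lt hC h3))
  refine ⟨?_, hB, hC, consts, ?_⟩
  · intro Ω _ μ _ E hE C
    refine ⟨(hB _ small_zero Ω μ E hE C).1, fun hC => ?_⟩
    exact infinite_of hE 2 C (by norm_num) hC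
      (Pool.Agent.U746.GM.cramer_two (fun m => μ.real (E m)) (law' hE))
  · intro T Ω _ μ _ E hE
    refine ⟨fun hT => ?_, fun hT => ?_⟩
    · filter_upwards [(hB T hT Ω μ E hE (1 / (Real.log 2) ^ 2)).1 consts.1] with ω hω
      obtain ⟨N, hN⟩ := hω.bddAbove
      filter_upwards [eventually_gt_atTop N] with n hn
      rw [a_pos_iff]
      intro hv
      exact absurd (hN hv) (by omega)
    · filter_upwards [hC T hT Ω μ E hE (1 / (Real.log 2) ^ 2) consts.2] with ω hω
      rw [Nat.frequently_atTop_iff_infinite]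
      refine hω.mono ?_
      intro n hn
      exact (a_zero_iff _ n).2 hn

end Pool.Agent.Results.MP_73869e_nt.ThresholdsInRandomModels
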