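import Pool.Agent.U516.RD.Conj
import Pool.Agent.U516.RD.Main

/-!
MP_75608d_al.  Q1 for class functions, up to a quasi-exponentially small error: for a fixed number
of random generators of `A_n` the lazy walk contracts all class functions of mean zero exponentially
fast, with a rate independent of `n`.

For every `δ > 0` there is `k₀` such that for every `k ≥ k₀` there is `ε > 0` with: if
`x_1, …, x_k` are independent uniform elements of `A_n` then with probability tending to `1`, for every
subgroup `H` of `A_n`, every real function `f` on `A_n` of mean zero with `f (h g h⁻¹) = f g` for all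
`h` in `H`, and every `t`,

  `‖Q^t f‖² ≤ [A_n : H] ((1 - ε)^t + exp (- n^(1 - δ))) ‖f‖²`,   `Q = (1 + P) / 2`.

For `H = A_n` these are all class functions; `H` may also be the stabiliser of `n^(1 - 2 δ)` points.
A uniform gap (Q1) would give `‖Q^t f‖² ≤ (1 - ε)^t ‖f‖²` for all `f`; for general `f` no uniform rate
is known.  Consequence: for every non-empty set `E` invariant under conjugation by `H`, from all but
a proportion `[A_n : H] ((1 - ε)^t + exp (- n^(1 - δ))) |A_n| / |E|` of the elements `g` of `A_n` one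
comes into `E` by a word of length at most `t`; so the conjugacy class of `g w` can be prescribed by a
word `w` of length `O(log n)` for classes with boundedly many cycles.

Proof.  Let `T = Q^(2t)`. Averaging `T` over the conjugates by all `h` in `A_n` gives an operator which
is the scalar `tr (T|_V) / dim V` on every irreducible `V` in `ℓ²(A_n)`; by the starting result
`FewExceptionalEigenvalues` the walk has at most `dim V exp (- n^(1 - δ))` eigenvalues in `[1 - ε, 1]`
on `V`, so this scalar is at most `(1 - ε)^t + exp (- n^(1 - δ))` for nontrivial `V`. A function which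
is invariant under conjugation by `H` has the same energy `⟨T R(h) f, R(h) f⟩` for all `h` in `H`, all
other terms of the average being nonnegative.
-/

namespace Pool.Agent.Results.MP_75608d_al.ClassFunctions
open Finset Filter Topology

noncomputable section

/-- one step of the lazy walk: `Q f = (f + P f) / 2`, where
`(P f)(g) = (1/2k) ∑_i (f(g x_i) + f(g x_i⁻¹))` -/
def lazyStep {G : Type*} [Group G] {k : ℕ} (x : Fin k → G) (f : G → ℝ) (g : G) : ℝ :=
  (f g + (∑ i, (f (g * x i) + f (g * (x i)⁻¹))) / (2 * k)) / 2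

/-- some product of at most `t` factors `x_i`, `x_i⁻¹` takes `g` into `E` by right
multiplication -/
def Reaches {G : Type*} [Group G] {k : ℕ} (x : Fin k → G) (t : ℕ) (E : Finset G) (g : G) : Prop :=
  ∃ w : List G, w.length ≤ t ∧ (∀ y ∈ w, ∃ i, y = x i ∨ y = (x i)⁻¹) ∧ g * w.prod ∈ E

/-- for every subgroup `H` and all `t`: decay of the lazy walk on the functions of mean zero which
are invariant under conjugation by `H`, and almost every element reaches every set invariant under
conjugation by `H` -/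
def ConjMixing {G : Type*} [Group G] [Fintype G] {k : ℕ} (ε η : ℝ) (x : Fin k → G) : Prop :=
  ∀ (H : Subgroup G) (t : ℕ),
    (∀ f : G → ℝ, (∀ h ∈ H, ∀ g, f (h * g * h⁻¹) = f g) → ∑ g, f g = 0 →
      ∑ g, ((lazyStep x)^[t] f g) ^ 2 ≤ H.index * ((1 - ε) ^ t + η) * ∑ g, f g ^ 2) ∧
    ∀ E : Finset G, (∀ h ∈ H, ∀ g, h * g * h⁻¹ ∈ E ↔ g ∈ E) →
      (Nat.card {g : G // ¬ Reaches x t E g} : ℝ) * #E ≤
        H.index * ((1 - ε) ^ t + η) * (Fintype.card G : ℝ) ^ 2

lemma iter_const {G : Type*} [Group G] {k : ℕ} (hk : 1 ≤ k) (x : Fin k → G) (f : G → ℝ) (c : ℝ)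
    (t : ℕ) : ∀ g : G, (∀ w : List G, w.length ≤ t → (∀ y ∈ w, ∃ i, y = x i ∨ y = (x i)⁻¹) →
      f (g * w.prod) = c) → (lazyStep x)^[t] f g = c := by
  have hk' : (0 : ℝ) < k := by exact_mod_cast hk
  induction t with
  | zero =>
    intro g h
    have := h [] (by simp) (by simp)
    simpa using this
  | succ t ih =>
    intro g h
    rw [Function.iterate_succ_apply']
    have h0 : (lazyStep x)^[t] f g = c := ih g fun w hw hy => h w (by omega) hy
    have h1 : ∀ i, (lazyStep x)^[t] f (g * x i) = c := by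
      intro i
      refine ih _ fun w hw hy => ?_
      have := h (x i :: w) (by simp; omega) (by
        intro y hy'
        rcases List.mem_cons.1 hy' with rfl | hy'
        · exact ⟨i, Or.inl rfl⟩
        · exact hy y hy')
      rwa [List.prod_cons, ← mul_assoc] at this
    have h2 : ∀ i, (lazyStep x)^[t] f (g * (x i)⁻¹) = c := by
      intro i
      refine ih _ fun w hw hy => ?_
      have := h ((x i)⁻¹ :: w) (by simp; omega) (by
        intro y hy'
        rcases List.mem_cons.1 hy' with rfl | hy'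
        · exact ⟨i, Or.inr rfl⟩
        · exact hy y hy')
      rwa [List.prod_cons, ← mul_assoc] at this
    unfold lazyStep at h0 h1 h2 ⊢
    rw [h0, Finset.sum_congr rfl fun i _ => by rw [h1 i, h2 i], Finset.sum_const,
      Finset.card_univ, Fintype.card_fin, nsmul_eq_mul]
    field_simp
    ring

lemma mixing_of {n k : ℕ} (hk : 1 ≤ k) {ε η : ℝ} (hε : 0 < ε) (hε1 : ε ≤ 1) (hη : 0 ≤ η)
    (x : Fin k → RC14.Alt n) (hx : RD516.IrrFew ε η x) : ConjMixing (ε / 2) η x := by
  classical
  intro H t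
  have hpow : (1 - ε / 2) ^ (2 * t) ≤ (1 - ε / 2) ^ t :=
    pow_le_pow_of_le_one (by linarith) (by linarith) (by omega)
  have hp0 : 0 ≤ (1 - ε / 2) ^ t := pow_nonneg (by linarith) _
  have hdec : ∀ f : RC14.Alt n → ℝ, (∀ h ∈ H, ∀ g, f (h * g * h⁻¹) = f g) → ∑ g, f g = 0 →
      ∑ g, ((lazyStep x)^[t] f g) ^ 2 ≤
        H.index * ((1 - ε / 2) ^ t + η) * ∑ g, f g ^ 2 := by
    intro f hf h0
    have h1 := RD516.conj_decay_real hk hε1 x hx t H f hf h0
    refine h1.trans ?_
    have h2 : η + (1 - ε / 2) ^ (2 * t) ≤ (1 - ε / 2) ^ t + η := by linarith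
    have h3 : 0 ≤ ∑ g, f g ^ 2 := sum_nonneg fun g _ => sq_nonneg _
    gcongr
  refine ⟨hdec, fun E hE => ?_⟩
  have hN : (0 : ℝ) < Fintype.card (RC14.Alt n) := by exact_mod_cast Fintype.card_pos
  set c : ℝ := H.index * ((1 - ε / 2) ^ t + η) with hc
  have hc0 : 0 ≤ c := by positivity
  rcases Nat.eq_zero_or_pos #E with h0 | hpos
  · rw [h0]
    simp only [CharP.cast_eq_zero, mul_zero]
    positivity
  have he : (0 : ℝ) < #E := by exact_mod_cast hpos
  set p : ℝ := (#E : ℝ) / Fintype.card (RC14.Alt n) with hp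
  have hpN : p * Fintype.card (RC14.Alt n) = #E := by rw [hp]; field_simp
  have hp1 : 0 < p := by rw [hp]; positivity
  set f : RC14.Alt n → ℝ := fun g => (if g ∈ E then (1 : ℝ) else 0) - p with hf
  have hfcl : ∀ h ∈ H, ∀ g, f (h * g * h⁻¹) = f g := by
    intro h hh g
    simp only [hf, hE h hh g]
  have hf0 : ∑ g, f g = 0 := by
    simp only [hf]
    rw [Finset.sum_sub_distrib, Finset.sum_ite_mem, Finset.univ_inter, Finset.sum_const,
      Finset.sum_const, Finset.card_univ, nsmul_eq_mul, nsmul_eq_mul, mul_one, ← hpN]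
    ring
  have hnorm : ∑ g, f g ^ 2 ≤ #E := by
    have h1 : ∀ g, f g ^ 2 = (if g ∈ E then (1 - 2 * p) else 0) + p ^ 2 := by
      intro g
      simp only [hf]
      split_ifs <;> ring
    rw [Finset.sum_congr rfl fun g _ => h1 g, Finset.sum_add_distrib, Finset.sum_ite_mem,
      Finset.univ_inter, Finset.sum_const, Finset.sum_const, Finset.card_univ, nsmul_eq_mul,
      nsmul_eq_mul]
    have h2 : (Fintype.card (RC14.Alt n) : ℝ) * p ^ 2 = #E * p := by rw [← hpN]; ring
    rw [h2]
    nlinarith [mul_pos he hp1]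
  have h1 := hdec f hfcl hf0
  set Bad := univ.filter fun g : RC14.Alt n => ¬ Reaches x t E g with hBad
  have hval : ∀ g ∈ Bad, ((lazyStep x)^[t] f g) ^ 2 = p ^ 2 := by
    intro g hg
    rw [hBad, mem_filter] at hg
    have h2 : (lazyStep x)^[t] f g = -p := by
      refine iter_const hk x f (-p) t g fun w hw hy => ?_
      have h3 : g * w.prod ∉ E := fun h => hg.2 ⟨w, hw, hy, h⟩
      simp only [hf, if_neg h3, zero_sub]
    rw [h2, neg_sq]
  have h2 : (#Bad : ℝ) * p ^ 2 ≤ ∑ g, ((lazyStep x)^[t] f g) ^ 2 := by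
    calc (#Bad : ℝ) * p ^ 2 = ∑ g ∈ Bad, ((lazyStep x)^[t] f g) ^ 2 := by
          rw [Finset.sum_congr rfl hval, Finset.sum_const, nsmul_eq_mul]
      _ ≤ _ := Finset.sum_le_univ_sum_of_nonneg fun g => by positivity
  have h3 : (#Bad : ℝ) * p ^ 2 ≤ c * #E := h2.trans (h1.trans (mul_le_mul_of_nonneg_left hnorm hc0))
  have hcard : (Nat.card {g : RC14.Alt n // ¬ Reaches x t E g} : ℝ) = #Bad := by
    rw [Nat.card_eq_fintype_card, Fintype.card_subtype]
  rw [hcard]
  have h4 : (#Bad : ℝ) * #E * #E ≤ c * (Fintype.card (RC14.Alt n) : ℝ) ^ 2 * #E := by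
    have h5 : (#Bad : ℝ) * #E * #E = #Bad * p ^ 2 * (Fintype.card (RC14.Alt n) : ℝ) ^ 2 := by
      rw [← hpN]
      ring
    rw [h5]
    have := mul_le_mul_of_nonneg_right h3 (sq_nonneg (Fintype.card (RC14.Alt n) : ℝ))
    linarith
  exact le_of_mul_le_mul_right h4 he

theorem result (δ : ℝ) (hδ : 0 < δ) : ∃ k₀ : ℕ, ∀ k ≥ k₀, ∃ ε : ℝ, 0 < ε ∧
    Tendsto (fun n : ℕ =>
      (Nat.card {x : Fin k → alternatingGroup (Fin n) //
        ConjMixing ε (Real.exp (-(n : ℝ) ^ (1 - δ))) x} : ℝ) /
        (Fintype.card (alternatingGroup (Fin n)) : ℝ) ^ k) atTop (𝓝 1) := by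
  obtain ⟨k₀, hk₀⟩ := Pool.Agent.Results.MP_75608d_al.FewExceptionalEigenvalues.result δ hδ
  refine ⟨k₀ + 1, fun k hk => ?_⟩
  obtain ⟨εb, hεb, h⟩ := hk₀ k (by omega)
  have h1 : 0 < min εb 1 := lt_min hεb one_pos
  refine ⟨min εb 1 / 2, by positivity, ?_⟩
  refine RD516.tendsto_of_bad (k := k)
    (fun n x => ConjMixing (min εb 1 / 2) (Real.exp (-(n : ℝ) ^ (1 - δ))) x) fun e he => ?_
  filter_upwards [RD516.bad_of_tendsto _ h e he] with n hn
  refine le_trans ?_ hn
  exact_mod_cast RC14.card_mono (fun x : Fin k → RC14.Alt n =>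
      ¬ ConjMixing (min εb 1 / 2) (Real.exp (-(n : ℝ) ^ (1 - δ))) x)
    (fun x => ¬ Pool.Agent.Results.MP_75608d_al.FewExceptionalEigenvalues.FewExceptional εb
      (Real.exp (-(n : ℝ) ^ (1 - δ))) x) (by
      intro x hx hcon
      exact hx (mixing_of (by omega) h1 (min_le_right _ _) (Real.exp_pos _).le x
        (RD516.irrFew_of (min_le_left _ _) hcon)))

end

end Pool.Agent.Results.MP_75608d_al.ClassFunctions
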