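import Pool.Agent.U516.R3.GapQ
import Pool.Agent.U516.R3.PkgAMQ
import Pool.Agent.U516.R3.PkgTR
import Pool.Agent.U516.R3.PkgFF
import Pool.Agent.U516.R3.PkgNUQ

/-!
MP_75608d_al.  For EVERY fixed `k ≥ 3` and every

  `κ < κ_k = min ((k - 2) / (2 (k + 1))) ((k - 2) / (3 (k - 1)))`

(`κ_3 = 1/8, κ_4 = 1/5, κ_5 = 1/4, …`, limit `1/3`) almost surely `k` random elements of `A_n`
have a uniform spectral gap on all Schreier graphs on `r`-tuples, `r ≤ n ^ κ`, and on all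
functions on `A_n` of level `≤ n ^ κ`.
-/

namespace Pool.Agent.Results.MP_75608d_al.GapFewGenerators
open Filter Topology

noncomputable section

/-- the averaging operator of the Schreier graph of `A_n` on `r`-tuples of distinct points:
`(P f)(a) = (1/2k) ∑_i (f(x_i a) + f(x_i⁻¹ a))` -/
def swalk {r n k : ℕ} (x : Fin k → alternatingGroup (Fin n)) (f : (Fin r ↪ Fin n) → ℝ)
    (a : Fin r ↪ Fin n) : ℝ :=
  (∑ i, (f (a.trans ((x i : Equiv.Perm (Fin n))).toEmbedding) +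
    f (a.trans ((x i : Equiv.Perm (Fin n))⁻¹).toEmbedding))) / (2 * k)

/-- the operator of the walk on `A_n`: `(P f)(g) = (1/2k) ∑_i (f(g x_i) + f(g x_i⁻¹))` -/
def walk {n k : ℕ} (x : Fin k → alternatingGroup (Fin n)) (f : alternatingGroup (Fin n) → ℝ)
    (g : alternatingGroup (Fin n)) : ℝ :=
  (∑ i, (f (g * x i) + f (g * (x i)⁻¹))) / (2 * k)

/-- the span of the real functions on `A_n` which are invariant under left multiplication by
the pointwise stabiliser of some set of at most `m` points -/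
def lowLevel (n m : ℕ) : Submodule ℝ (alternatingGroup (Fin n) → ℝ) :=
  Submodule.span ℝ {f | ∃ K : Finset (Fin n), K.card ≤ m ∧
    ∀ h g : alternatingGroup (Fin n), (∀ a ∈ K, (h : Equiv.Perm (Fin n)) a = a) → f (h * g) = f g}

/-- gap at least `ε` of the walk on `A_n` on the mean zero functions of level `≤ m`, and of the
Schreier graphs on `r`-tuples for all `r ≤ m` -/
def GapUpTo (n m : ℕ) {k : ℕ} (ε : ℝ) (x : Fin k → alternatingGroup (Fin n)) : Prop :=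
  (∀ f ∈ lowLevel n m, ∑ g, f g = 0 → ∑ g, f g * walk x f g ≤ (1 - ε) * ∑ g, f g ^ 2) ∧
  ∀ r ≤ m, ∀ f : (Fin r ↪ Fin n) → ℝ, ∑ a, f a = 0 →
    ∑ a, f a * swalk x f a ≤ (1 - ε) * ∑ a, f a ^ 2

theorem result (k : ℕ) (hk : 3 ≤ k) (κ : ℝ) (h0 : 0 < κ)
    (h1 : κ < min (((k : ℝ) - 2) / (2 * (k + 1))) (((k : ℝ) - 2) / (3 * (k - 1)))) :
    ∃ ε : ℝ, 0 < ε ∧ Tendsto (fun n : ℕ =>
      (Nat.card {x : Fin k → alternatingGroup (Fin n) // GapUpTo n ⌊(n : ℝ) ^ κ⌋₊ ε x} : ℝ) /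
        (Fintype.card (alternatingGroup (Fin n)) : ℝ) ^ k) atTop (𝓝 1) := by
  obtain ⟨ε, hε, -, hev⟩ := R3516.tgapK R3516.t_AMQ R3516.t_TR R3516.t_FF R3516.t_NUQ k hk κ h0
    (h1.trans_le (min_le_left _ _)) (h1.trans_le (min_le_right _ _))
  refine ⟨ε, hε, RD516.tendsto_of_bad (k := k) (fun n x => GapUpTo n ⌊(n : ℝ) ^ κ⌋₊ ε x)
    fun e he => ?_⟩
  filter_upwards [hev e he] with n hn
  exact hn

end

end Pool.Agent.Results.MP_75608d_al.GapFewGenerators
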