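import Pool.Agent.R414.DS.Fin3

/-!
# Almost all plane curves of degree `d ≥ 4` have no integer points: a power saving, and the exact order
# of the number of exceptions for `d ≥ 6`

Let `M = (d + 1)(d + 2) / 2` be the number of coefficients, and consider all `F ∈ ℤ[x, y]` of total degree
at most `d` with coefficients in `[-H, H]` (about `(2 H) ^ M` polynomials).

* For every `d ≥ 4` the number of the `F` with an integer zero is at most `C H ^ (M - κ)`, with an
  explicit `κ = κ(d) > 0`.
* For every `d ≥ 6` this number, and the number of the absolutely irreducible ones among these `F`, are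
  of exact order `H ^ (M - 1)`, the number of the `F` which vanish at the origin.

So, with a power saving, `100 %` of the curves of degree four or more have no integer point at all, and the
bound asked for by the question is empty for them. The starting file `LimitLawAll` of this folder treats
`d ≥ 7` (with an asymptotic formula), and `PolynomialBoundAlmostAll` bounds the integer points of almost all
the curves with an integer point, `d ≥ 5`; new are the degrees four, five and six: the number of the
curves with an integer point. The expected number of integer points of size `T` of a random `F` is about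
`T ^ (2 - d) / H`, but for `T` larger than `H` the lattice of the `F` which vanish at a point has small
elements, and one needs the geometry of numbers and an effective form of the theorem of Thue (from the
starting files `R414.DN`, `R414.DS`, `H674R3`) to exclude the points of size `T ≥ H`.
-/

set_option autoImplicit false

open Finset

namespace Pool.Agent.Results.MP_821da1_nt.LowDegrees

open Pool.Agent.R414.DN

/-- The number `(d + 1)(d + 2) / 2` of the monomials of degree at most `d`. -/
def numCoeffs (d : ℕ) : ℕ := (d + 1) * (d + 2) / 2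

/-- The exponent `κ(d) = 1 / (2 (9 d ^ 2 + 24 d + 9))` of the power saving. -/
noncomputable def saving (d : ℕ) : ℝ := 1 / (2 * (9 * (d : ℝ) ^ 2 + 24 * d + 9))

/-- `F(x, y) = 0` for some integers `x, y`. -/
def HasPoint (F : MvPolynomial (Fin 2) ℤ) : Prop := ∃ x y : ℤ, MvPolynomial.eval ![x, y] F = 0

/-- `F` is absolutely irreducible: irreducible over an algebraic closure of `ℚ`. -/
def AbsIrr (F : MvPolynomial (Fin 2) ℤ) : Prop :=
  Irreducible (MvPolynomial.map (Int.castRingHom (AlgebraicClosure ℚ)) F)

/-- The number of the polynomials `F ∈ ℤ[x, y]` of total degree at most `d`, with coefficients in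
`[-H, H]`, and with the property `Q`. -/
noncomputable def number (d H : ℕ) (Q : MvPolynomial (Fin 2) ℤ → Prop) : ℝ :=
  Set.ncard {F : MvPolynomial (Fin 2) ℤ | F.totalDegree ≤ d ∧ (∀ m, |F.coeff m| ≤ (H : ℤ)) ∧ Q F}

lemma numCoeffs_eq (d : ℕ) : numCoeffs d = MM d := by
  unfold numCoeffs MM
  have h := card_I d
  rw [Fintype.card_coe]
  omega

lemma number_eq (d H : ℕ) : number d H HasPoint = ((zS d H).card : ℝ) := by
  classical
  unfold number
  rw [ncard_box d H HasPoint]
  congr 2
  ext a
  rw [mem_filter, mem_zS]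
  unfold HasPoint
  constructor
  · rintro ⟨h1, x, y, h2⟩
    exact ⟨h1, x, y, by rw [← eval_poly]; exact h2⟩
  · rintro ⟨h1, x, y, h2⟩
    exact ⟨h1, x, y, by rw [eval_poly]; exact h2⟩

lemma number_ge {d H : ℕ} (hd : 1 ≤ d) :
    ((oS d H).card : ℝ) ≤ number d H fun F => AbsIrr F ∧ HasPoint F := by
  classical
  unfold number
  rw [ncard_box d H (fun F => AbsIrr F ∧ HasPoint F)]
  have h : oS d H ⊆ (ibox ↥(I d) H).filter fun a => AbsIrr (poly a) ∧ HasPoint (poly a) := by
    intro a ha
    rw [mem_filter]
    refine ⟨(mem_oS.1 ha).1, oS_irr hd ha, 0, 0, ?_⟩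
    rw [eval_poly]
    have h0 := (mem_oS.1 ha).2.1
    unfold Fv
    rw [sum_eq_single_of_mem 0 (mem_range.2 (Nat.succ_pos d))]
    · simp [h0]
    · intro k _ hk
      apply sum_eq_zero
      intro i hi
      rw [mem_range] at hi
      rcases Nat.eq_zero_or_pos i with h1 | h1
      · rw [h1, Nat.sub_zero, zero_pow hk, mul_zero, mul_zero]
      · rw [zero_pow h1.ne', zero_mul, mul_zero]
  exact_mod_cast card_le_card h

/-- **The number of the plane curves with an integer point.** For every `d ≥ 4` the number of the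
polynomials `F ∈ ℤ[x, y]` of degree at most `d` with coefficients in `[-H, H]` which have an integer
zero is at most `C H ^ (M - κ(d))`, where `M = (d + 1)(d + 2) / 2`. For every `d ≥ 6` this number, and the
number of the absolutely irreducible ones among them, are of exact order `H ^ (M - 1)`. -/
theorem result :
    (∀ d : ℕ, 4 ≤ d → ∃ C : ℝ, ∀ H : ℕ, 1 ≤ H →
      number d H HasPoint ≤ C * (H : ℝ) ^ ((numCoeffs d : ℝ) - saving d)) ∧
    ∀ d : ℕ, 6 ≤ d → ∃ c C : ℝ, 0 < c ∧ ∃ H₀ : ℕ, ∀ H : ℕ, H₀ ≤ H →
      c * (H : ℝ) ^ (numCoeffs d - 1) ≤ (number d H fun F => AbsIrr F ∧ HasPoint F) ∧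
      (number d H fun F => AbsIrr F ∧ HasPoint F) ≤ number d H HasPoint ∧
      number d H HasPoint ≤ C * (H : ℝ) ^ (numCoeffs d - 1) := by
  refine ⟨fun d hd => ?_, fun d hd => ?_⟩
  · obtain ⟨C, hC⟩ := main_box hd
    refine ⟨C, fun H hH => ?_⟩
    have h := hC H hH
    have he : ((numCoeffs d : ℝ) - saving d) = ((MM d : ℝ) - 1 / (2 * mE d)) := by
      rw [numCoeffs_eq]
      unfold saving mE
      push_cast
      congr 2
      ring
    rw [number_eq, he]
    exact h
  · obtain ⟨C, hC0, hC⟩ := Pool.Agent.R414.DS.card_zS_sharp hd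
    obtain ⟨K, hK⟩ : ∃ K : ℝ, K = 2 + 4 * d * (d + 1) * 3 ^ d * (3 * cR d) ^ d := ⟨_, rfl⟩
    have hK0 : 0 ≤ K := by rw [hK]; positivity
    have hM2 : 2 ≤ MM d := by
      rw [← numCoeffs_eq]
      unfold numCoeffs
      have : 7 * 8 ≤ (d + 1) * (d + 2) := Nat.mul_le_mul (by omega) (by omega)
      omega
    refine ⟨1 / 2, C * 3 ^ (MM d - 1), by norm_num, 1 + Nat.ceil K, fun H hH => ?_⟩
    have hH1 : 1 ≤ H := by omega
    have hH1' : (1 : ℝ) ≤ H := by exact_mod_cast hH1
    have hHK : K ≤ (H : ℝ) := by
      have h1 : (Nat.ceil K : ℝ) ≤ H := by exact_mod_cast (by omega : Nat.ceil K ≤ H)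
      exact (Nat.le_ceil K).trans h1
    refine ⟨?_, ?_, ?_⟩
    · have h1 := card_oS (by omega : 4 ≤ d) hH1
      rw [← hK] at h1
      have h2 : (2 * (H : ℝ) + 1) ^ (MM d - 1) =
          (2 * (H : ℝ) + 1) ^ (MM d - 2) * (2 * (H : ℝ) + 1) := by
        rw [← pow_succ]
        congr 1
        omega
      have h3 : K * (2 * (H : ℝ) + 1) ^ (MM d - 2) ≤ 1 / 2 * (2 * (H : ℝ) + 1) ^ (MM d - 1) := by
        rw [h2]
        have h4 : (0 : ℝ) ≤ (2 * (H : ℝ) + 1) ^ (MM d - 2) := by positivity
        have h5 := mul_le_mul_of_nonneg_right (by linarith : K ≤ 1 / 2 * (2 * (H : ℝ) + 1)) h4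
        linarith
      have h6 : (H : ℝ) ^ (MM d - 1) ≤ (2 * (H : ℝ) + 1) ^ (MM d - 1) :=
        pow_le_pow_left₀ (by linarith) (by linarith) _
      have h7 := number_ge (d := d) (H := H) (by omega)
      rw [numCoeffs_eq]
      linarith
    · classical
      unfold number
      rw [ncard_box d H (fun F => AbsIrr F ∧ HasPoint F), ncard_box d H HasPoint]
      have h : ((ibox ↥(I d) H).filter fun a => AbsIrr (poly a) ∧ HasPoint (poly a)) ⊆
          (ibox ↥(I d) H).filter fun a => HasPoint (poly a) := by
        intro a ha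
        rw [mem_filter] at ha ⊢
        exact ⟨ha.1, ha.2.2⟩
      exact_mod_cast card_le_card h
    · rw [number_eq, numCoeffs_eq]
      have h1 := hC H hH1
      have h2 : (2 * (H : ℝ) + 1) ^ (MM d - 1) ≤ (3 * (H : ℝ)) ^ (MM d - 1) :=
        pow_le_pow_left₀ (by linarith) (by linarith) _
      rw [mul_pow] at h2
      calc ((zS d H).card : ℝ) ≤ C * (2 * (H : ℝ) + 1) ^ (MM d - 1) := h1
        _ ≤ C * (3 ^ (MM d - 1) * (H : ℝ) ^ (MM d - 1)) := mul_le_mul_of_nonneg_left h2 hC0
        _ = C * 3 ^ (MM d - 1) * (H : ℝ) ^ (MM d - 1) := by ring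

end Pool.Agent.Results.MP_821da1_nt.LowDegrees
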