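import Pool.Agent.S821.Windows
import Pool.Agent.N733.TG.K
import Pool.Agent.N760.IT.C
import Pool.Agent.N415.PC.Red
import Pool.Agent.N656.PC.Tail
import Pool.Agent.R414.DS.Fin3
import Pool.Agent.Results.MP_821da1_nt.PolynomialBoundAlmostAll

/-!
# Plane curves with coefficients near the values of multiplicative functions

Let `M = (d + 1)(d + 2) / 2` be the number of the monomials of degree at most `d`. The starting files of this folder and
`LowDegrees` show that almost all plane curves of degree `d` with coefficients in `[-H, H]` have no integer point (`d ≥ 4`), and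
that almost all those that have one satisfy an explicit polynomial bound (`d ≥ 5`). These theorems say nothing about a thin
family of curves. Here the coefficients lie in short windows around the values `F_m(n_m)` of multiplicative functions, for
example Euler's function (a set of density zero, hit with large multiplicities) or the sum of the divisors.

* `d ≥ 4`: for all but `N ^ M / (log N) ^ U` of the `n ∈ [1, N] ^ M`, NO curve of degree `d` whose coefficients satisfy
  `||a_m| - F_m(n_m)| ≤ N ^ σ` has an integer point. Here `σ M < 1` for `d ≥ 6`, and `σ M < κ(d)` for `d = 4, 5`.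
* `d ≥ 5`: choose one monomial `m₀`. For all but `N ^ (M - 1) / (log N) ^ U` of the `n ∈ [1, N] ^ (M - 1)` ALL the curves whose
  coefficients at the other monomials satisfy `||a_m| - F_m(n_m)| ≤ N ^ σ`, and whose coefficient at `m₀` is ANY integer
  with `|a_{m₀}| ≤ N ^ (1 + ρ)`, are irreducible over `ℚ`, of degree exactly `d`, and their integer points satisfy
  the explicit polynomial bound. Here `ρ (M - 2) + σ (M - 1) < 1`. For example (`m₀ = 1`, the constant term) all curves of this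
  kind through the origin or through any other small integer point are included, so there are curves with integer points for
  every `n`.

The proof uses the power savings of `R414.DN`, `R414.DS`, `N415.PC`, the law of `N733.TG` for values of multiplicative
functions, and sums over the free coefficient and over the windows (`S821/Windows`).
-/

set_option autoImplicit false

open Finset

namespace Pool.Agent.Results.MP_821da1_nt.MultiplicativeCoefficients

open Pool.Agent.R414.DN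
open Pool.Agent.N733.TG (LM lm_totient lm_sigma)
open Pool.Agent.N760.IT (lm_id)
open Pool.Agent.S821.Win (windows_box)

/-- The monomials `x ^ i y ^ j` of degree `i + j ≤ d`. -/
abbrev Mon (d : ℕ) : Type := {m : Fin (d + 1) × Fin (d + 1) // (m.1 : ℕ) + m.2 ≤ d}

/-- The number `(d + 1)(d + 2) / 2` of the monomials of degree at most `d`. -/
def numCoeffs (d : ℕ) : ℕ := (d + 1) * (d + 2) / 2

/-- The polynomial `∑ a_(i,j) x ^ i y ^ j`. -/
noncomputable def pol {d : ℕ} (a : Mon d → ℤ) : MvPolynomial (Fin 2) ℤ :=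
  ∑ m : Mon d, MvPolynomial.C (a m) * MvPolynomial.X 0 ^ (m.1.1 : ℕ) * MvPolynomial.X 1 ^ (m.1.2 : ℕ)

/-- The exponent of the power saving: `1` for `d ≥ 6`, and `1 / (2 (9 d ^ 2 + 24 d + 9))` for `d = 4, 5`. -/
noncomputable def saving (d : ℕ) : ℝ := if 6 ≤ d then 1 else 1 / (2 * (9 * (d : ℝ) ^ 2 + 24 * d + 9))

/-- The explicit bound `((d + 1) h(F)) ^ (10 ^ 17 * 1296 ^ d * (d + 1) ^ 15)`, where `h(F)` is the
sum of the absolute values of the coefficients of `F`. -/
def bound (d : ℕ) (F : MvPolynomial (Fin 2) ℤ) : ℕ :=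
  ((d + 1) * ∑ m ∈ F.support, (F.coeff m).natAbs) ^ (10 ^ 17 * 1296 ^ d * (d + 1) ^ 15)

/-- `F` has degree exactly `d`, is irreducible over `ℚ`, and its integer zeros satisfy the explicit bound. -/
def Good (d : ℕ) (F : MvPolynomial (Fin 2) ℤ) : Prop :=
  F.totalDegree = d ∧ Irreducible (MvPolynomial.map (Int.castRingHom ℚ) F) ∧
    ∀ x y : ℤ, MvPolynomial.eval ![x, y] F = 0 → max x.natAbs y.natAbs ≤ bound d F

/-- the exponent vector -/
noncomputable def ex {d : ℕ} (m : Mon d) : Fin 2 →₀ ℕ := Finsupp.single 0 (m.1.1 : ℕ) + Finsupp.single 1 (m.1.2 : ℕ)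

lemma ex_zero {d : ℕ} (m : Mon d) : ex m 0 = m.1.1 := by simp [ex]

lemma ex_one {d : ℕ} (m : Mon d) : ex m 1 = m.1.2 := by simp [ex]

lemma ex_inj {d : ℕ} {m m' : Mon d} (h : ex m = ex m') : m = m' := by
  apply Subtype.ext
  apply Prod.ext
  · apply Fin.ext
    rw [← ex_zero, ← ex_zero, h]
  · apply Fin.ext
    rw [← ex_one, ← ex_one, h]

lemma pol_eq {d : ℕ} (a : Mon d → ℤ) : pol a = ∑ m, MvPolynomial.monomial (ex m) (a m) := by
  unfold pol
  refine sum_congr rfl fun m _ => ?_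
  rw [ex, MvPolynomial.monomial_eq]
  rw [mul_assoc]
  congr 1
  rw [Finsupp.prod_fintype _ _ (by intro i; exact pow_zero _), Fin.prod_univ_two]
  simp

lemma coeff_ex {d : ℕ} (a : Mon d → ℤ) (m : Mon d) : (pol a).coeff (ex m) = a m := by
  classical
  rw [pol_eq, MvPolynomial.coeff_sum, sum_eq_single m]
  · rw [MvPolynomial.coeff_monomial, if_pos rfl]
  · intro m' _ h
    rw [MvPolynomial.coeff_monomial, if_neg fun h1 => h (ex_inj h1)]
  · intro h
    exact absurd (mem_univ _) h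

lemma coeff_cases {d : ℕ} (a : Mon d → ℤ) (e : Fin 2 →₀ ℕ) : (∃ m : Mon d, e = ex m) ∨ (pol a).coeff e = 0 := by
  classical
  by_cases h : ∃ m : Mon d, e = ex m
  · exact Or.inl h
  · right
    rw [pol_eq, MvPolynomial.coeff_sum]
    refine sum_eq_zero fun m _ => ?_
    rw [MvPolynomial.coeff_monomial, if_neg]
    intro h1
    exact h ⟨m, h1.symm⟩

lemma pol_inj {d : ℕ} {a b : Mon d → ℤ} (h : pol a = pol b) : a = b := by
  funext m
  rw [← coeff_ex a, ← coeff_ex b, h]

lemma pol_box {d H : ℕ} {a : Mon d → ℤ} (ha : ∀ m, |a m| ≤ (H : ℤ)) :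
    (pol a).totalDegree ≤ d ∧ ∀ e, |(pol a).coeff e| ≤ (H : ℤ) := by
  refine ⟨?_, fun e => ?_⟩
  · unfold MvPolynomial.totalDegree
    apply Finset.sup_le
    intro e he
    rw [MvPolynomial.mem_support_iff] at he
    rcases coeff_cases a e with ⟨m, rfl⟩ | h
    · rw [Finsupp.sum_fintype _ _ (by intro i; rfl), Fin.sum_univ_two, ex_zero, ex_one]
      exact m.2
    · exact absurd h he
  · rcases coeff_cases a e with ⟨m, rfl⟩ | h
    · rw [coeff_ex]
      exact ha m
    · rw [h, abs_zero]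
      exact Nat.cast_nonneg _

lemma card_Mon (d : ℕ) : Fintype.card (Mon d) = numCoeffs d := by
  have h1 : Fintype.card (Mon d) = Fintype.card ↥(I d) := by
    refine Fintype.card_congr
      { toFun := fun m => ⟨((m.1.1 : ℕ) + m.1.2, (m.1.1 : ℕ)), by rw [mem_I]; exact ⟨m.2, Nat.le_add_right _ _⟩⟩
        invFun := fun p => ⟨(⟨p.1.2, by have := mem_I.1 p.2; omega⟩, ⟨p.1.1 - p.1.2, by have := mem_I.1 p.2; omega⟩),
          by have := mem_I.1 p.2; simp only; omega⟩
        left_inv := fun m => by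
          apply Subtype.ext
          apply Prod.ext
          · rfl
          · apply Fin.ext
            simp
        right_inv := fun p => by
          have := mem_I.1 p.2
          apply Subtype.ext
          apply Prod.ext
          · simp only
            omega
          · rfl }
  have h2 := card_I d
  rw [h1, Fintype.card_coe]
  unfold numCoeffs
  omega

lemma MM_eq (d : ℕ) : MM d = numCoeffs d := by
  have h := card_I d
  unfold MM numCoeffs
  rw [Fintype.card_coe]
  omega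

/-- the polynomials in the box with the property `Q` -/
def Bx (d H : ℕ) (Q : MvPolynomial (Fin 2) ℤ → Prop) : Set (MvPolynomial (Fin 2) ℤ) :=
  {F | F.totalDegree ≤ d ∧ (∀ m, |F.coeff m| ≤ (H : ℤ)) ∧ Q F}

lemma finite_Bx (d H : ℕ) (Q : MvPolynomial (Fin 2) ℤ → Prop) : (Bx d H Q).Finite := by
  classical
  apply ((ibox ↥(I d) H).image poly).finite_toSet.subset
  rintro F ⟨h1, h2, -⟩
  obtain ⟨a, ha, rfl⟩ := exists_vec h1 h2
  rw [mem_coe]
  exact mem_image_of_mem _ ha

lemma ncard_vec_le (d H : ℕ) (Q : MvPolynomial (Fin 2) ℤ → Prop) :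
    {a : Mon d → ℤ | Q (pol a) ∧ ∀ m, |a m| ≤ (H : ℤ)}.ncard ≤ (Bx d H Q).ncard := by
  refine Set.ncard_le_ncard_of_injOn pol ?_ (fun a _ b _ h => pol_inj h) (finite_Bx d H Q)
  rintro a ⟨h1, h2⟩
  exact ⟨(pol_box h2).1, (pol_box h2).2, h1⟩

lemma finite_vec (d H : ℕ) (Q : MvPolynomial (Fin 2) ℤ → Prop) :
    {a : Mon d → ℤ | Q (pol a) ∧ ∀ m, |a m| ≤ (H : ℤ)}.Finite := by
  apply (Set.Finite.pi' (fun _ : Mon d => Set.finite_Icc (-(H : ℤ)) H)).subset
  intro a ha i
  exact abs_le.1 (ha.2 i)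

/-- the number of the polynomials with an integer zero -/
lemma zeros (d : ℕ) (hd : 4 ≤ d) : ∃ C : ℝ, ∀ H : ℕ, 1 ≤ H →
    ((Bx d H fun F => ∃ x y : ℤ, MvPolynomial.eval ![x, y] F = 0).ncard : ℝ) ≤
      C * (H : ℝ) ^ ((numCoeffs d : ℝ) - saving d) := by
  classical
  have hz : ∀ H : ℕ, (Bx d H fun F => ∃ x y : ℤ, MvPolynomial.eval ![x, y] F = 0).ncard = (zS d H).card := by
    intro H
    unfold Bx
    rw [ncard_box d H]
    congr 1
    ext a
    rw [mem_filter, mem_zS]
    simp only [eval_poly]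
  by_cases h6 : 6 ≤ d
  · obtain ⟨C, hC0, hC⟩ := Pool.Agent.R414.DS.card_zS_sharp h6
    refine ⟨C * 3 ^ (MM d - 1), fun H hH => ?_⟩
    have hH1 : (1 : ℝ) ≤ H := by exact_mod_cast hH
    rw [hz]
    have hM : 1 ≤ numCoeffs d := by
      unfold numCoeffs
      have : 2 ≤ (d + 1) * (d + 2) := by nlinarith
      omega
    have h1 : (H : ℝ) ^ ((numCoeffs d : ℝ) - saving d) = (H : ℝ) ^ (MM d - 1) := by
      rw [saving, if_pos h6, MM_eq, ← Real.rpow_natCast, Nat.cast_sub hM, Nat.cast_one]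
    rw [h1]
    have h2 : (2 * (H : ℝ) + 1) ^ (MM d - 1) ≤ (3 * (H : ℝ)) ^ (MM d - 1) :=
      pow_le_pow_left₀ (by linarith) (by linarith) _
    rw [mul_pow] at h2
    calc ((zS d H).card : ℝ) ≤ C * (2 * (H : ℝ) + 1) ^ (MM d - 1) := hC H hH
      _ ≤ C * (3 ^ (MM d - 1) * (H : ℝ) ^ (MM d - 1)) := mul_le_mul_of_nonneg_left h2 hC0
      _ = _ := by ring
  · obtain ⟨C, hC⟩ := main_box hd
    refine ⟨C, fun H hH => ?_⟩
    rw [hz]
    have he : ((numCoeffs d : ℝ) - saving d) = ((MM d : ℝ) - 1 / (2 * mE d)) := by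
      rw [MM_eq, saving, if_neg h6]
      unfold mE
      push_cast
      congr 2
      ring
    rw [he]
    exact hC H hH

/-- the number of the polynomials that are not good -/
lemma bads (d : ℕ) (hd : 5 ≤ d) : ∃ C : ℝ, ∀ H : ℕ, 1 ≤ H →
    ((Bx d H fun F => ¬ Good d F).ncard : ℝ) ≤ C * (H : ℝ) ^ ((numCoeffs d : ℝ) - 2) := by
  classical
  obtain ⟨C, hC⟩ := PolynomialBoundAlmostAll.result d hd
  obtain ⟨CR, hCR0, hRed⟩ := Pool.Agent.N415.PC.t_RED d (by omega)
  have hM : 2 ≤ numCoeffs d := by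
    unfold numCoeffs
    have : 4 ≤ (d + 1) * (d + 2) := by nlinarith
    omega
  refine ⟨C + CR * 3 ^ (MM d - 2) + 3 ^ (MM d - 2), fun H hH => ?_⟩
  have hH1 : (1 : ℝ) ≤ H := by exact_mod_cast hH
  have e1 : (H : ℝ) ^ ((numCoeffs d : ℝ) - 2) = (H : ℝ) ^ (MM d - 2) := by
    rw [MM_eq, ← Real.rpow_natCast, Nat.cast_sub hM, Nat.cast_ofNat]
  rw [e1]
  have h3H : (2 * (H : ℝ) + 1) ^ (MM d - 2) ≤ 3 ^ (MM d - 2) * (H : ℝ) ^ (MM d - 2) := by
    rw [← mul_pow]
    exact pow_le_pow_left₀ (by linarith) (by linarith) _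
  obtain ⟨S1, hS1⟩ : ∃ S1, S1 = (ibox ↥(I d) H).filter fun a => ∀ i, co a d i = 0 := ⟨_, rfl⟩
  obtain ⟨S2, hS2⟩ : ∃ S2, S2 = (ibox ↥(I d) H).filter fun a => (∃ i, co a d i ≠ 0) ∧
    ¬ Irreducible (MvPolynomial.map (Int.castRingHom ℚ) (poly a)) := ⟨_, rfl⟩
  obtain ⟨B, hB⟩ : ∃ B : Set (MvPolynomial (Fin 2) ℤ), B = {F : MvPolynomial (Fin 2) ℤ | F.totalDegree ≤ d ∧
    (∀ m, |F.coeff m| ≤ (H : ℤ)) ∧ (Irreducible (MvPolynomial.map (Int.castRingHom ℚ) F) ∧
        ∃ x y : ℤ, MvPolynomial.eval ![x, y] F = 0 ∧ PolynomialBoundAlmostAll.bound d F < max x.natAbs y.natAbs)} := ⟨_, rfl⟩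
  have hBf : B.Finite := by
    rw [hB]
    exact finite_Bx d H _
  have hsub : (Bx d H fun F => ¬ Good d F) ⊆ B ∪ (((S1.image poly ∪ S2.image poly : Finset (MvPolynomial (Fin 2) ℤ))) :
      Set (MvPolynomial (Fin 2) ℤ)) := by
    rintro F ⟨h1, h2, h3⟩
    obtain ⟨a, ha, rfl⟩ := exists_vec h1 h2
    by_cases c1 : ∀ i, co a d i = 0
    · right
      rw [mem_coe, mem_union]
      left
      apply mem_image_of_mem
      rw [hS1, mem_filter]
      exact ⟨ha, c1⟩
    by_cases c2 : Irreducible (MvPolynomial.map (Int.castRingHom ℚ) (poly a))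
    · left
      rw [hB]
      refine ⟨h1, h2, c2, ?_⟩
      have hdeg : (poly a).totalDegree = d := by
        push Not at c1
        obtain ⟨i, hi⟩ := c1
        have hmem : (d, i) ∈ I d := by
          by_contra h
          apply hi
          unfold co
          rw [dif_neg h]
        have hi2 := (mem_I.1 hmem).2
        refine le_antisymm h1 ?_
        have h4 : (Finsupp.single (0 : Fin 2) i + Finsupp.single 1 (d - i) : Fin 2 →₀ ℕ) ∈ (poly a).support := by
          rw [MvPolynomial.mem_support_iff, coeff_poly]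
          simp only [Finsupp.add_apply, Finsupp.single_apply]
          simp only [if_true, Fin.one_eq_zero_iff, Fin.zero_eq_one_iff]
          norm_num
          simp only at hi2
          rw [Nat.add_sub_cancel' hi2]
          exact hi
        have h5 := MvPolynomial.le_totalDegree h4
        rw [Finsupp.sum_fintype _ _ (by intro i; rfl), Fin.sum_univ_two] at h5
        simp at h5
        simp only at hi2
        omega
      by_contra h4
      apply h3
      refine ⟨hdeg, c2, fun x y hxy => ?_⟩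
      by_contra h5
      apply h4
      exact ⟨x, y, hxy, not_le.1 h5⟩
    · right
      rw [mem_coe, mem_union]
      right
      apply mem_image_of_mem
      rw [hS2, mem_filter]
      push Not at c1
      exact ⟨ha, c1, c2⟩
  have h1 := (Set.ncard_le_ncard hsub (hBf.union (finite_toSet _))).trans (Set.ncard_union_le _ _)
  rw [Set.ncard_coe_finset] at h1
  have h2 := h1.trans (Nat.add_le_add_left ((card_union_le _ _).trans (add_le_add card_image_le card_image_le)) _)
  have h2' : ((Bx d H fun F => ¬ Good d F).ncard : ℝ) ≤ (B.ncard : ℝ) + ((S1.card : ℝ) + (S2.card : ℝ)) := by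
    exact_mod_cast h2
  have b0 : (B.ncard : ℝ) ≤ C * (H : ℝ) ^ (MM d - 2) := by
    rw [MM_eq]
    rw [hB]
    exact (hC H hH).1
  have b1 : (S1.card : ℝ) ≤ 3 ^ (MM d - 2) * (H : ℝ) ^ (MM d - 2) := by
    have h1 := Pool.Agent.N656.PC.card_zero_form S1 (by rw [hS1]; exact filter_subset _ _)
      (by intro a ha; rw [hS1] at ha; exact (mem_filter.1 ha).2)
    have h2 : (S1.card : ℝ) ≤ (2 * (H : ℝ) + 1) ^ (MM d - (d + 1)) := by exact_mod_cast h1
    refine h2.trans (le_trans ?_ h3H)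
    exact pow_le_pow_right₀ (by linarith) (by omega)
  have b2 : (S2.card : ℝ) ≤ CR * (3 ^ (MM d - 2) * (H : ℝ) ^ (MM d - 2)) := by
    have h1 := hRed H hH S2 (by rw [hS2]; exact filter_subset _ _)
      (by intro a ha; rw [hS2] at ha; exact (mem_filter.1 ha).2)
    exact h1.trans (mul_le_mul_of_nonneg_left h3H hCR0)
  linarith

/-- **Plane curves with coefficients near the values of multiplicative functions.** Let `M = (d + 1)(d + 2) / 2` be the number
of the monomials of degree at most `d`, let `F_m`, for every such monomial `m`, be a multiplicative function which is positive, of at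
most polynomial growth, with `F_m p ≤ C p` at the large primes and injective there, and let `U` be given.

(1) Let `d ≥ 4` and `0 ≤ σ`, `σ M < 1` for `d ≥ 6`, and `σ M < 1 / (2 (9 d ^ 2 + 24 d + 9))` for `d = 4, 5`. For all large `N` and all
but at most `N ^ M / (log N) ^ U` of the `n ∈ [1, N] ^ M`, no curve `∑ a_(i,j) x ^ i y ^ j = 0` with
`||a_m| - F_m(n_m)| ≤ N ^ σ` for all monomials `m` has an integer point.

(2) Let `d ≥ 5`, let `m₀` be one of the monomials, and let `ρ > 0`, `σ ≥ 0` with `ρ (M - 2) + σ (M - 1) < 1`. For all large `N` and all but at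
most `N ^ (M - 1) / (log N) ^ U` of the `n ∈ [1, N] ^ (M - 1)`, all the polynomials `F = ∑ a_(i,j) x ^ i y ^ j` with
`|a_{m₀}| ≤ N ^ (1 + ρ)` and `||a_m| - F_m(n_m)| ≤ N ^ σ` for all monomials `m ≠ m₀` have degree `d`, are irreducible over `ℚ`, and all integer
points of `F = 0` satisfy `max(|x|, |y|) ≤ ((d + 1) h(F)) ^ (10 ^ 17 * 1296 ^ d * (d + 1) ^ 15)`. -/
theorem result (d : ℕ) (F : Mon d → ℕ → ℕ) (hF : ∀ m, LM (F m)) (U : ℕ) :
    (4 ≤ d → ∀ σ : ℝ, 0 ≤ σ → σ * numCoeffs d < saving d → ∃ N₀ : ℕ, ∀ N : ℕ, N₀ ≤ N →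
      ({n : Mon d → ℕ | (∀ m, 1 ≤ n m ∧ n m ≤ N) ∧ ∃ a : Mon d → ℤ,
        (∃ x y : ℤ, MvPolynomial.eval ![x, y] (pol a) = 0) ∧
        ∀ m, |(|(a m : ℝ)| - F m (n m))| ≤ (N : ℝ) ^ σ}.ncard : ℝ) ≤ (N : ℝ) ^ numCoeffs d / Real.log N ^ U) ∧
    (5 ≤ d → ∀ (m₀ : Mon d) (ρ σ : ℝ), 0 < ρ → 0 ≤ σ → ρ * (numCoeffs d - 2) + σ * (numCoeffs d - 1) < 1 →
      ∃ N₀ : ℕ, ∀ N : ℕ, N₀ ≤ N →
      ({n : {m : Mon d // m ≠ m₀} → ℕ | (∀ m, 1 ≤ n m ∧ n m ≤ N) ∧ ∃ a : Mon d → ℤ,
        ¬ Good d (pol a) ∧ |(a m₀ : ℝ)| ≤ (N : ℝ) ^ (1 + ρ) ∧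
        ∀ m : {m : Mon d // m ≠ m₀}, |(|(a m : ℝ)| - F m (n m))| ≤ (N : ℝ) ^ σ}.ncard : ℝ) ≤
        (N : ℝ) ^ (numCoeffs d - 1) / Real.log N ^ U) ∧
    LM (fun m => m) ∧ LM Nat.totient ∧ LM (fun m => ∑ d ∈ m.divisors, d) := by
  classical
  refine ⟨fun hd σ hσ hσM => ?_, fun hd m₀ ρ σ hρ hσ hρσ => ?_, lm_id, lm_totient, lm_sigma⟩
  · obtain ⟨C, hC⟩ := zeros d hd
    obtain ⟨κ, hκ⟩ : ∃ κ : ℝ, κ = saving d := ⟨_, rfl⟩
    obtain ⟨M, hM⟩ : ∃ M : ℝ, M = (numCoeffs d : ℝ) := ⟨_, rfl⟩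
    rw [← hκ, ← hM] at hσM
    have hκ1 : κ ≤ 1 := by
      rw [hκ, saving]
      split_ifs
      · exact le_rfl
      · rw [div_le_one (by positivity)]
        have : (0 : ℝ) ≤ d := Nat.cast_nonneg _
        nlinarith [sq_nonneg (d : ℝ)]
    have hM1 : 1 ≤ M := by
      have h1 : 1 ≤ numCoeffs d := by
        unfold numCoeffs
        have : 2 ≤ (d + 1) * (d + 2) := by nlinarith
        omega
      rw [hM]
      exact_mod_cast h1
    have hσ1 : σ ≤ 1 := by nlinarith
    obtain ⟨ρ, hρ⟩ : ∃ ρ : ℝ, ρ = (κ - σ * M) / (2 * M) := ⟨_, rfl⟩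
    have hρ0 : 0 < ρ := by rw [hρ]; exact div_pos (by linarith) (by linarith)
    have hρM : ρ * M = (κ - σ * M) / 2 := by rw [hρ]; field_simp
    have key := windows_box hF (ρ := ρ) (σ := σ) (e := M - κ) C hρ0 hσ hσ1 (by linarith) (by
      rw [card_Mon, ← hM]
      have : 0 ≤ κ := by nlinarith
      nlinarith) (fun _ => {a : Mon d → ℤ | ∃ x y : ℤ, MvPolynomial.eval ![x, y] (pol a) = 0}) (fun N H _ hH _ => by
      have h1 := hC H hH
      rw [← hκ, ← hM] at h1
      refine le_trans (Nat.cast_le.2 ?_) h1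
      exact ncard_vec_le d H fun F => ∃ x y : ℤ, MvPolynomial.eval ![x, y] F = 0) U
    rw [card_Mon] at key
    exact key
  · obtain ⟨C, hC⟩ := bads d hd
    obtain ⟨M, hM⟩ : ∃ M : ℝ, M = (numCoeffs d : ℝ) := ⟨_, rfl⟩
    rw [← hM] at hρσ hC
    have hM2' : 3 ≤ numCoeffs d := by
      unfold numCoeffs
      have : 6 ≤ (d + 1) * (d + 2) := by nlinarith
      omega
    have hM2 : 3 ≤ M := by
      rw [hM]
      exact_mod_cast hM2'
    have hσ1 : σ ≤ 1 := by nlinarith
    have hcard : Fintype.card {m : Mon d // m ≠ m₀} = numCoeffs d - 1 := by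
      rw [Fintype.card_subtype_compl, card_Mon, Fintype.card_subtype_eq]
    have hcard' : (Fintype.card {m : Mon d // m ≠ m₀} : ℝ) = M - 1 := by
      rw [hcard, Nat.cast_sub (by omega), Nat.cast_one, hM]
    have key := windows_box (F := fun m : {m : Mon d // m ≠ m₀} => F m) (fun m => hF m) (ρ := ρ) (σ := σ) (e := M - 2) C hρ
      hσ hσ1 (by linarith) (by
      rw [hcard']
      nlinarith) (fun N => {b : {m : Mon d // m ≠ m₀} → ℤ | ∃ a : Mon d → ℤ, ¬ Good d (pol a) ∧
        |(a m₀ : ℝ)| ≤ (N : ℝ) ^ (1 + ρ) ∧ ∀ m : {m : Mon d // m ≠ m₀}, a m = b m}) (fun N H _ hH hNH => by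
      refine le_trans (Nat.cast_le.2 ?_) (hC H hH)
      refine le_trans ?_ (ncard_vec_le d H fun F => ¬ Good d F)
      refine le_trans (Set.ncard_le_ncard (t := (fun (a : Mon d → ℤ) (m : {m : Mon d // m ≠ m₀}) => a m) ''
        {a : Mon d → ℤ | ¬ Good d (pol a) ∧ ∀ m, |a m| ≤ (H : ℤ)}) ?_
        ((finite_vec d H fun F => ¬ Good d F).image _)) (Set.ncard_image_le (finite_vec d H fun F => ¬ Good d F))
      rintro b ⟨⟨a, h1, h2, h3⟩, h4⟩
      refine ⟨a, ⟨h1, fun m => ?_⟩, funext h3⟩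
      by_cases hm : m = m₀
      · rw [hm]
        have h5 : |(a m₀ : ℝ)| ≤ (H : ℝ) := h2.trans hNH
        rw [← Int.cast_abs] at h5
        exact_mod_cast h5
      · rw [h3 ⟨m, hm⟩]
        exact h4 _) U
    rw [hcard] at key
    obtain ⟨N₀, hN₀⟩ := key
    refine ⟨N₀, fun N hN => le_trans (Nat.cast_le.2 (Set.ncard_le_ncard ?_ ?_)) (hN₀ N hN)⟩
    · rintro n ⟨hn, a, h1, h2, h3⟩
      exact ⟨hn, fun m => a m, ⟨a, h1, h2, fun _ => rfl⟩, h3⟩
    · apply (Set.Finite.pi' (fun _ : {m : Mon d // m ≠ m₀} => Set.finite_Icc 1 N)).subset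
      intro n hn i
      exact hn.1 i

end Pool.Agent.Results.MP_821da1_nt.MultiplicativeCoefficients
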