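import Pool.Agent.U926.SF.KimDefs
import Pool.Agent.U926.SF.Cur

/-!
# Finite-dimensional motives of hypersurfaces `g_0 + ⋯ + g_r = 0`

Let `k` be an algebraically closed field of characteristic zero (for instance `ℂ`), and let
`g_0, …, g_r` be nonsingular forms of degree `d ≥ 2` in separate sets of variables, each in at most two
variables, or (if `d = 3`) in at most five variables. Let `X` be the hypersurface
`g_0(x^(0)) + g_1(x^(1)) + ⋯ + g_r(x^(r)) = 0`. There is no restriction on the number of the forms, so
the dimension of `X` is arbitrary.

**Theorem.** The Chow motive of `X` is finite-dimensional in the sense of Kimura. The same is true for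
all products of such hypersurfaces (of any degrees) with curves, abelian varieties and all other
varieties which are built from products of curves, and for every variety which is built from such
products: for example for the coverings `w ^ m = F(x)` of the projective space, `m` a divisor of `d` and
`F = g_0 + ⋯ + g_r`, for quotients and images under generically finite morphisms, for the blow-ups of
such products in such products, and for projective bundles over them.

The case of one form (`r = 0`) is known (plane curves, cubic surfaces and threefolds), and so are the
case of the Fermat hypersurfaces, the case of binary forms, which are dominated by products of curves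
(Katsura, Shioda, Schoen), and the cubic fourfolds `f(x_0, …, x_4) + z ^ 3 = 0` (Laterveer).

The setting: `𝒱` is a class of smooth projective varieties over `k` closed under products, `C` the Chow
groups with rational coefficients, in the form of their formal properties (`IsChowProj`). The known
theorems which are used:

* `hT`, the theorem of Katsura and Shioda: `f(x) + g(y) = 0` is dominated by the product of
  `f(x) + z ^ d = 0` and `g(y) + w ^ d = 0`, blown up in the product of `f(x) = 0` and `g(y) = 0`;
* `hK`: the motives of cubic surfaces and cubic threefolds are direct summands of sums of Tate twists of
  motives of curves;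
* `hK'`: the cubic fourfolds `f(x_0, …, x_4) + z ^ 3 = 0` have motives of abelian type (Laterveer, van
  Geemen and Izadi);
* `hKim`: Kimura's theorem on the motives of curves, their products, and direct summands.

The proof is by induction on the number of forms, `(f + g) + z ^ d = f + (g + z ^ d)`.
-/

universe u v

namespace Pool.Agent.Results.MP_868bb7_ag.SumsOfForms

open Pool.Agent.H914 Pool.Agent.W492.BB Pool.Agent.TH133 Pool.Agent.TH829.Kim Pool.Agent.U926.SF

/-- **Kimura's conjecture** for the hypersurfaces `g_0 + ⋯ + g_r = 0` with equations in separate sets of
variables, for their products with varieties built from products of curves, and for all varieties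
which are built from these products. -/
theorem result {k : Type u} [Field k] [IsAlgClosed k] [CharZero k] {𝒱 : VarClass k}
    {C : TheoryData.{u, v, 0} 𝒱 ℚ} [IsChowProj C] (T : Hypersurfaces 𝒱)
    (hT : ∀ d : ℕ, 2 ≤ d → IsKatsuraShioda C T d) (hK : CubicsHaveCurveMotives C T)
    (hK' : CyclicFourfoldsHaveCurveMotives C T) (hKim : KimuraTheorem C) (X : 𝒱.Obj)
    (hX : IsBuiltFrom C (IsCurveSum C T) X) :
    IsKimuraFinite C (ratFam C) X :=
  hKim X (hX.trans fun _ hY => hY.isBuiltFrom hT hK hK')

end Pool.Agent.Results.MP_868bb7_ag.SumsOfForms
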