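import Pool.Agent.U569.APL.Many

/-!
# MP_89bcae_ag: the Tate conjecture for divisors at all primes `p`, with exact rank, over all number fields, for almost
# all values of bilinear maps, products and polynomials on arbitrary sets

Let `n ≥ 1`, `D ≥ 2`, `n ≤ r + 1` and `N = n + D + r + 2`. A vector `v` of `N` integers gives `ρ_1, …, ρ_n` (its
first coordinates), the monic polynomial `g₀` of degree `D` and the polynomial `b` of degree at most `r` whose
coefficients are the next coordinates, and `c`, the last one. For a prime `p`, `q = p ^ (e + 1)` with `q r < n + D` and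
`p` prime to `n + D`, and for `d ≥ 1`, `M ≥ 1` let `X` be the surface

  `w ^ q = (x ^ M - ρ_1) ⋯ (x ^ M - ρ_n) g₀(x ^ M) + (b(x ^ M) + c t ^ (p ^ d)) ^ q`

over the line with coordinate `t`, and `J` the Jacobian of its generic fibre, of dimension
`(q - 1) ((n + D) M - 1) / 2`. `ManyWorks p q n D r R k v` (starting library) says for a field `k`: `c ≠ 0`, certain
polynomials are irreducible over `k`, and for ALL `d ≥ 1` and ALL `M` which divide a power of `R`

* every class of `V_p` of the Selmer group of `J` over `k^sep(t)` which is fixed by the Galois group comes from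
  `J(k(t))` (the Tate conjecture for divisors at the prime `p` for the surface `X` over `k`);
* the `p`-primary part of the Tate-Shafarevich group of `J` over `k(t)` is zero (the `p`-part of the Brauer group);
* `J(k(t))` has a basis at `p` with exactly `n (q - 1)` elements.

The starting files (`MP_17a657_ag.AlmostAllManySections`, `MP_97f789_ag.ThinSequences`) have this for one number field
at a time and 100% of the vectors in boxes, or for the integer parts of generalised polynomials in one variable. Here
the vectors come from ARBITRARY sets without any structure, and there is one set of exceptions for all number fields,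
all the primes `p`, all `e` and all `R`.

**Theorem.** Consider a sequence of finite families of vectors of `N` integers of one of the following kinds
(`j = 0, 1, 2, …`; `c₀_j` is an arbitrary vector of integers).

1. `c₀_j + y_{j, i}`, `i ∈ s_j`, where `y_{j, i}`, `i ∈ s_j`, is any family of vectors of `N` residues modulo `q_j`
   whose nontrivial Fourier coefficients are at most `1 / (Z_j (42 + 3 log q_j) ^ N)`, with `Z_j ≤ q_j`, `Z_j → ∞`.
2. `P_j → ∞` are primes, `F_{j, l}` polynomials in `k_j` variables over the field of `P_j` elements, of degree at most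
   `P_j ^ (δ / 4)`, such that every nontrivial linear combination has a monomial with at least two variables, and
   `A_{j, i}` ARBITRARY sets of at least `P_j ^ (1 / 2 + δ)` residues; the coordinates are `c₀_{j, l} +` the residue of
   `F_{j, l} (a) + ∑_i u_{j, i} (a_i)_l`, `a ∈ ∏ A_{j, i}`, with arbitrary functions `u_{j, i}` of one variable.
3. `P_j → ∞` are primes, `β_j` is a bilinear map from `k ^ a × k ^ b` to `k ^ N`, `k` the field of `P_j` elements, all
   of whose nontrivial combinations of coordinates are bilinear forms of rank at least `ρ`, `E_j ⊆ k ^ a` and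
   `F_j ⊆ k ^ b` are ARBITRARY subsets with `|E_j| |F_j| ≥ P_j ^ (a + b - ρ + δ)`, and the vectors are `c₀_j +` the
   residues of `β_j (x, y)` plus arbitrary functions of `x` and of `y`, for `x ∈ E_j`, `y ∈ F_j`.
4. In particular: `K_j` is the field with `P_j ^ N` elements with any basis over the prime field, `E_j` and `F_j` are
   ARBITRARY subsets of `K_j` with `|E_j| |F_j| ≥ P_j ^ (N + δ)`, and the vectors are `c₀_j +` the residues of the
   coordinates of the product `x y` in `K_j` plus arbitrary functions of `x` and of `y`.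

Then there are sets `B_j` of members, `|B_j| = o(|s_j|)`, such that for ALL primes `p`, all `e`, all odd `R` prime to
`p` (with `q r < n + D`, `p` prime to `n + D`) and ALL number fields `k` which contain the roots of unity of order `q`
and a `p`-th root of `-1`, for all large `j` ALL the members outside `B_j` satisfy `ManyWorks`: the Tate conjecture at
`p` holds for all these surfaces over `k`.

In 4 the sets may have `P ^ (N / 2 + δ)` elements each. The exponents are optimal: in 3 there are subspaces `E`, `F`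
with `|E| |F| = P ^ (a + b - ρ)` on which a form of rank `ρ` vanishes (`E` everything, `F` its kernel); in 4 for even
`N` let `E = F` be the subfield with `P ^ (N / 2)` elements. For such sets `c` (the last coordinate) may be zero for all
the members (`c₀ = 0`, no functions of `x` or `y`), and `ManyWorks` is false.

Proof. The conclusions follow from finitely many tests modulo primes (starting library, for thin sequences
`Pool.Agent.N650.TH`); a transfer principle of the starting library (`Pool.Agent.N384.VF`) gives families of residues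
from sequences. New: the exponential sums of bilinear maps over arbitrary sets (`|∑| ² ≤ |E| |F| P ^ (a + b - ρ)`, with
arbitrary unimodular factors of `x` and of `y`) and of polynomials on product sets, and a diagonal argument over the
countably many number fields and primes.
-/

set_option autoImplicit false

namespace Pool.Agent.Results.MP_89bcae_ag.ArbitraryProductSets

open Finset Filter
open Pool.Agent.Y160.SL (ManyWorks)

/-- For all primes `p`, all `e`, all `R` and all number fields `k` with the necessary roots of unity: for all large `j`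
all the members `i ∈ s j` outside `B j` of the `j`-th family satisfy the conclusions, for the vector `v j i`. -/
def AllWork (n D r : ℕ) {τ : ℕ → Type} (s B : ∀ j, Finset (τ j))
    (v : ∀ j, τ j → Fin (n + (D + (r + 2))) → ℤ) : Prop :=
  ∀ (p e R : ℕ) (_ : p.Prime) (_ : p ^ (e + 1) * r < n + D) (_ : p.Coprime (n + D)) (_ : Odd R)
    (_ : p.Coprime R) (k : Type) [Field k] [NumberField k] (ζ η : k)
    (_ : IsPrimitiveRoot ζ (p ^ (e + 1))) (_ : η ^ p = -1),
    ∀ᶠ j in atTop, ∀ i ∈ s j, i ∉ B j → ManyWorks p (p ^ (e + 1)) n D r R k (v j i)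

/-- `B j` is a subset of `s j` and `|B j| = o(|s j|)`. -/
def Small {τ : ℕ → Type} (s B : ∀ j, Finset (τ j)) : Prop :=
  (∀ j, B j ⊆ s j) ∧ ∀ ε : ℝ, 0 < ε → ∀ᶠ j in atTop, ((B j).card : ℝ) ≤ ε * (s j).card

/-- The nontrivial Fourier coefficients of the family `y i`, `i ∈ s`, of vectors of `N` residues modulo `q` are at most
`1 / (Z (42 + 3 log q) ^ N)`, and `Z ≤ q`. -/
def SmallFourier {τ : Type} (N q : ℕ) [NeZero q] (s : Finset τ) (y : τ → Fin N → ZMod q) (Z : ℝ) : Prop :=
  Z ≤ q ∧ ∀ h : Fin N → ZMod q, h ≠ 0 →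
    ‖∑ i ∈ s, (ZMod.stdAddChar (∑ j, h j * y i j) : ℂ)‖ ≤ 1 / (Z * (42 + 3 * Real.log q) ^ N) * s.card

/-- `F` has a monomial which contains at least two different variables. -/
def Mixed {p k : ℕ} (F : MvPolynomial (Fin k) (ZMod p)) : Prop :=
  ∃ m ∈ F.support, ∃ i j : Fin k, i ≠ j ∧ m i ≠ 0 ∧ m j ≠ 0

/-- The Tate conjecture for divisors at all primes `p`, with exact rank, over all number fields at the same time, for
almost all members of families with small Fourier coefficients (1), in particular at the values of polynomials on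
arbitrary product sets (2), of bilinear maps of rank at least `ρ` on arbitrary sets (3), and at the products of the
elements of two arbitrary subsets of extension fields (4). -/
theorem result (n D r : ℕ) (hn : 0 < n) (hD : 2 ≤ D) (hnr : n ≤ r + 1) :
    (∀ (τ : ℕ → Type) (q : ℕ → ℕ) [∀ j, NeZero (q j)] (s : ∀ j, Finset (τ j))
      (y : ∀ j, τ j → Fin (n + (D + (r + 2))) → ZMod (q j)) (Z : ℕ → ℝ)
      (c₀ : ℕ → Fin (n + (D + (r + 2))) → ℤ), Tendsto Z atTop atTop →
      (∀ j, SmallFourier (n + (D + (r + 2))) (q j) (s j) (y j) (Z j)) →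
      ∃ B : ∀ j, Finset (τ j), Small s B ∧ AllWork n D r s B (fun j i l => c₀ j l + ((y j i l).val : ℕ))) ∧
    (∀ δ : ℝ, 0 < δ → δ ≤ 1 → ∀ (P : ℕ → ℕ), (∀ j, (P j).Prime) → Tendsto P atTop atTop → ∀ (k : ℕ → ℕ)
      (F : ∀ j, Fin (n + (D + (r + 2))) → MvPolynomial (Fin (k j)) (ZMod (P j)))
      (A : ∀ j, Fin (k j) → Finset (ZMod (P j)))
      (u : ∀ j, Fin (k j) → ZMod (P j) → Fin (n + (D + (r + 2))) → ZMod (P j))
      (c₀ : ℕ → Fin (n + (D + (r + 2))) → ℤ),
      (∀ j l, ((F j l).totalDegree : ℝ) ≤ (P j : ℝ) ^ (δ / 4)) →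
      (∀ j, ∀ α : Fin (n + (D + (r + 2))) → ZMod (P j), α ≠ 0 → Mixed (∑ l, MvPolynomial.C (α l) * F j l)) →
      (∀ j i, (P j : ℝ) ^ (1 / 2 + δ) ≤ (A j i).card) →
      ∃ B : ∀ j, Finset (Fin (k j) → ZMod (P j)), Small (fun j => Fintype.piFinset (A j)) B ∧
        AllWork n D r (fun j => Fintype.piFinset (A j)) B (fun j a l =>
          c₀ j l + ((MvPolynomial.eval a (F j l) + ∑ i, u j i (a i) l).val : ℕ))) ∧
    (∀ δ : ℝ, 0 < δ → δ ≤ 1 → ∀ (P : ℕ → ℕ), (∀ j, (P j).Prime) → Tendsto P atTop atTop → ∀ (a b ρ : ℕ → ℕ)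
      (M : ∀ j, Fin (n + (D + (r + 2))) → Matrix (Fin (a j)) (Fin (b j)) (ZMod (P j)))
      (E : ∀ j, Finset (Fin (a j) → ZMod (P j))) (F : ∀ j, Finset (Fin (b j) → ZMod (P j)))
      (u : ∀ j, (Fin (a j) → ZMod (P j)) → Fin (n + (D + (r + 2))) → ZMod (P j))
      (v : ∀ j, (Fin (b j) → ZMod (P j)) → Fin (n + (D + (r + 2))) → ZMod (P j))
      (c₀ : ℕ → Fin (n + (D + (r + 2))) → ℤ),
      (∀ j, ∀ α : Fin (n + (D + (r + 2))) → ZMod (P j), α ≠ 0 → ρ j ≤ (∑ l, α l • M j l).rank) →
      (∀ j, (P j : ℝ) ^ (((a j + b j : ℕ) : ℝ) + δ) ≤ (E j).card * (F j).card * (P j : ℝ) ^ ρ j) →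
      ∃ B : ∀ j, Finset ((Fin (a j) → ZMod (P j)) × (Fin (b j) → ZMod (P j))),
        Small (fun j => E j ×ˢ F j) B ∧ AllWork n D r (fun j => E j ×ˢ F j) B (fun j z l =>
          c₀ j l + ((z.1 ⬝ᵥ Matrix.mulVec (M j l) z.2 + u j z.1 l + v j z.2 l).val : ℕ))) ∧
    (∀ δ : ℝ, 0 < δ → δ ≤ 1 → ∀ (P : ℕ → ℕ), (∀ j, (P j).Prime) → Tendsto P atTop atTop →
      ∀ (K : ℕ → Type) [∀ j, Field (K j)] [∀ j, Algebra (ZMod (P j)) (K j)]
      (b : ∀ j, Module.Basis (Fin (n + (D + (r + 2)))) (ZMod (P j)) (K j)) (E F : ∀ j, Finset (K j))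
      (u v : ∀ j, K j → Fin (n + (D + (r + 2))) → ZMod (P j)) (c₀ : ℕ → Fin (n + (D + (r + 2))) → ℤ),
      (∀ j, (P j : ℝ) ^ (((n + (D + (r + 2)) : ℕ) : ℝ) + δ) ≤ (E j).card * (F j).card) →
      ∃ B : ∀ j, Finset (K j × K j), Small (fun j => E j ×ˢ F j) B ∧
        AllWork n D r (fun j => E j ×ˢ F j) B (fun j z l =>
          c₀ j l + (((b j).repr (z.1 * z.2) l + u j z.1 l + v j z.2 l).val : ℕ))) := by
  refine ⟨?_, ?_, ?_, ?_⟩
  · intro τ q _ s y Z c₀ hZ hv
    exact Pool.Agent.U569.APL.all_work n D r hn hD hnr s _ fun Z₀ => by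
      filter_upwards [hZ.eventually_ge_atTop (Z₀ : ℝ)] with j hj
      exact ⟨q j, inferInstance, y j, Z j, c₀ j, hj, ⟨(hv j).1, by rw [Fintype.card_fin]; exact (hv j).2⟩, rfl⟩
  · intro δ hδ hδ1 P hP hP' k F A u c₀ hF hF' hA
    exact Pool.Agent.U569.APL.all_work_prod n D r hn hD hnr δ hδ hδ1 P hP hP' k F A u hF hF' hA c₀
  · intro δ hδ hδ1 P hP hP' a b ρ M E F u v c₀ hM hEF
    exact Pool.Agent.U569.APL.all_work_bil n D r hn hD hnr δ hδ hδ1 P hP hP' a b ρ M E F u v hM hEF c₀
  · intro δ hδ hδ1 P hP hP' K _ _ b E F u v c₀ hEF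
    exact Pool.Agent.U569.APL.all_work_field n D r hn hD hnr δ hδ hδ1 P hP hP' K b E F u v hEF c₀

end Pool.Agent.Results.MP_89bcae_ag.ArbitraryProductSets
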