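import Mathlib
import Pool.Agent.N229.RL.RatMain
import Pool.Agent.W125.RR.PotA
import Pool.Agent.W751.RR.PotC
import Pool.Agent.W214.RR.SC

/-!
# Random rational maps with independent zeros and poles: the probability of a non-hyperbolic map is
# at most `K (log n) ^ 4 / n`

The starting result `AllLawsOfZerosPoles` of this problem bounds the probability of a non-hyperbolic
map by `K / n ^ (1 / 256)`. Here the rate is `K (log n) ^ 4 / n`, for all laws of the zeros and poles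
of bounded density such that the difference of the logarithmic potentials of the zeros and of the
poles has a regular zero level; this is the case whenever the zeros and the poles have the same law,
and for the uniform laws on two discs.

The proof (`Pool/Agent/N229/RL`, of helper229) is part of the starting library; it was not handed in.
The case of equal laws and the case of the uniform laws on discs are deduced here.
-/

set_option autoImplicit false

open Polynomial Filter Topology MeasureTheory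

namespace Pool.Agent.Results.MP_8f2e1c_an.NearlyLinearRate

/-- `P / Q` is in lowest terms and every critical point (point of the Riemann sphere where the map
is not locally injective) has an orbit converging to an attracting periodic cycle. This is word
for word the condition of the frozen statement `S05373`. -/
def Hyperbolic (P Q : Polynomial ℂ) : Prop :=
  IsCoprime P Q ∧ ∃ f : OnePoint ℂ → OnePoint ℂ, Continuous f ∧
    (∀ z : ℂ, Q.eval z ≠ 0 →
      f (OnePoint.some z) = OnePoint.some (P.eval z / Q.eval z)) ∧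
    ∀ c : OnePoint ℂ, (¬ ∃ U ∈ nhds c, Set.InjOn f U) →
      ∃ z : OnePoint ℂ, ∃ n : ℕ, 0 < n ∧ f^[n] z = z ∧
        (∃ U ∈ nhds z, ∀ w ∈ U,
          Filter.Tendsto (fun k : ℕ => f^[n * k] w) Filter.atTop (nhds z)) ∧
        Filter.Tendsto (fun k : ℕ => f^[n * k] c) Filter.atTop (nhds z)

/-- The monic polynomial with roots `z i`. -/
noncomputable def withRoots {n : ℕ} (z : Fin n → ℂ) : ℂ[X] := ∏ i, (X - C (z i))

/-- The laws of the zeros and poles: probability measures with density at most `D` (with respect to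
the area) and support in the disc `|z| ≤ R`. -/
structure Law (D R : ℝ) (μ : Measure ℂ) : Prop where
  prob : IsProbabilityMeasure μ
  density : ∀ B : Set ℂ, MeasurableSet B → μ B ≤ ENNReal.ofReal D * volume B
  support : μ (Metric.closedBall (0 : ℂ) R)ᶜ = 0

/-- The logarithmic potential `∫ log |z - w| dμ(w)`. -/
noncomputable def potential (μ : Measure ℂ) (z : ℂ) : ℝ := ∫ w, Real.log ‖z - w‖ ∂μ

/-- The Cauchy transform `∫ dμ(w) / (z - w)`; its conjugate is the gradient of the potential. -/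
noncomputable def cauchy (μ : Measure ℂ) (z : ℂ) : ℂ := ∫ w, (z - w)⁻¹ ∂μ

/-- The points `x.1 i` are in the disc `|z| ≤ ρ₁` and the points `x.2 i` are in the disc
`|z| ≤ ρ₂`. -/
def InDiscs {n : ℕ} (ρ₁ ρ₂ : ℝ) (x : (Fin n → ℂ) × (Fin n → ℂ)) : Prop :=
  (∀ i, ‖x.1 i‖ ≤ ρ₁) ∧ ∀ i, ‖x.2 i‖ ≤ ρ₂

theorem dens_of {D R : ℝ} {μ : Measure ℂ} (h : Law D R μ) : Pool.Agent.N229.RL.Dens μ D R := by
  have := h.prob
  refine ⟨h.prob, ?_, ?_, h.density, h.support⟩
  · by_contra hD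
    rw [not_le] at hD
    have h1 := h.density Set.univ MeasurableSet.univ
    rw [ENNReal.ofReal_eq_zero.2 hD.le, zero_mul, measure_univ] at h1
    exact absurd h1 (by simp)
  · by_contra hR
    rw [not_le] at hR
    have h1 := h.support
    rw [Metric.closedBall_eq_empty.2 hR, Set.compl_empty, measure_univ] at h1
    exact one_ne_zero h1

/-! ### The uniform laws on discs -/

theorem dens_m1 {ρ M : ℝ} (hρ : 0 < ρ) (hM : ρ ≤ M) {D : ℝ} (hD : (Real.pi * ρ ^ 2)⁻¹ ≤ D) :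
    Pool.Agent.N229.RL.Dens (Pool.Agent.W751.RR.m1 ρ) D M := by
  have hpi := Real.pi_pos
  have hvol : volume (Metric.closedBall (0 : ℂ) ρ) = ENNReal.ofReal (Real.pi * ρ ^ 2) := by
    rw [Complex.volume_closedBall, mul_comm, ENNReal.ofReal_mul Real.pi_pos.le,
      ENNReal.ofReal_pow hρ.le]
    congr 1
    rw [← NNReal.coe_real_pi, ENNReal.ofReal_coe_nnreal]
  have h0 : volume (Metric.closedBall (0 : ℂ) ρ) ≠ 0 := by
    rw [hvol]
    simp only [ne_eq, ENNReal.ofReal_eq_zero, not_le]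
    positivity
  have ht : volume (Metric.closedBall (0 : ℂ) ρ) ≠ ⊤ := by
    rw [hvol]; exact ENNReal.ofReal_ne_top
  refine ⟨⟨?_⟩, le_trans (by positivity) hD, hρ.le.trans hM, fun B hB => ?_, ?_⟩
  · unfold Pool.Agent.W751.RR.m1
    rw [Measure.smul_apply, Measure.restrict_apply_univ, smul_eq_mul, ENNReal.inv_mul_cancel h0 ht]
  · unfold Pool.Agent.W751.RR.m1
    rw [Measure.smul_apply, smul_eq_mul, hvol, ← ENNReal.ofReal_inv_of_pos (by positivity)]
    gcongr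
    exact Measure.restrict_le_self
  · unfold Pool.Agent.W751.RR.m1
    rw [Measure.smul_apply, Measure.restrict_apply Metric.isClosed_closedBall.measurableSet.compl]
    have : (Metric.closedBall (0 : ℂ) M)ᶜ ∩ Metric.closedBall (0 : ℂ) ρ = ∅ := by
      rw [Set.eq_empty_iff_forall_notMem]
      rintro w ⟨h1, h2⟩
      exact h1 (Metric.closedBall_subset_closedBall hM h2)
    rw [this]
    simp

theorem UU_m1 {ρ : ℝ} (hρ : 0 < ρ) (w : ℂ) :
    Pool.Agent.N229.RL.UU (Pool.Agent.W751.RR.m1 ρ) w = Pool.Agent.W751.RR.U ρ ‖w‖ :=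
  (Pool.Agent.W125.RR.PotA.main ρ hρ w).2

theorem GG_m1 {ρ : ℝ} (hρ : 0 < ρ) (w : ℂ) :
    Pool.Agent.N229.RL.GG (Pool.Agent.W751.RR.m1 ρ) w = Pool.Agent.W751.RR.V ρ w :=
  (Pool.Agent.W751.RR.PotC.potC ρ hρ w).2

/-- the Cauchy transforms of two discs of different radii differ inside the larger disc, except at
the origin -/
theorem V_ne_aux {ρ₁ ρ₂ : ℝ} (h1 : 0 < ρ₁) (h12 : ρ₁ < ρ₂) {w : ℂ} (hw : w ≠ 0) (hw2 : ‖w‖ < ρ₂) :
    Pool.Agent.W751.RR.V ρ₁ w ≠ Pool.Agent.W751.RR.V ρ₂ w := by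
  have h2 : 0 < ρ₂ := h1.trans h12
  have hwn : 0 < ‖w‖ := norm_pos_iff.2 hw
  unfold Pool.Agent.W751.RR.V
  rw [if_pos hw2.le]
  split_ifs with h
  · intro he
    have hc : (starRingEnd ℂ) w ≠ 0 := by simpa using hw
    have h1' : ((ρ₁ : ℂ) ^ 2) ≠ 0 := pow_ne_zero _ (by exact_mod_cast h1.ne')
    have h2' : ((ρ₂ : ℂ) ^ 2) ≠ 0 := pow_ne_zero _ (by exact_mod_cast h2.ne')
    rw [div_eq_div_iff h1' h2'] at he
    have h3 := mul_left_cancel₀ hc he
    have h4 : ρ₂ ^ 2 = ρ₁ ^ 2 := by exact_mod_cast h3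
    have h5 : ρ₁ ^ 2 < ρ₂ ^ 2 := by gcongr
    linarith
  · intro he
    have h3 := congrArg norm he
    rw [norm_inv, norm_div, norm_pow, Complex.norm_conj, Complex.norm_real,
      Real.norm_of_nonneg h2.le, inv_eq_one_div, div_eq_div_iff hwn.ne' (by positivity)] at h3
    nlinarith

theorem V_ne {ρ₁ ρ₂ : ℝ} (h1 : 0 < ρ₁) (h2 : 0 < ρ₂) (hne : ρ₁ ≠ ρ₂) {w : ℂ} (hw : w ≠ 0)
    (hw2 : ‖w‖ < max ρ₁ ρ₂) :
    Pool.Agent.W751.RR.V ρ₁ w ≠ Pool.Agent.W751.RR.V ρ₂ w := by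
  rcases lt_or_gt_of_ne hne with h | h
  · exact V_ne_aux h1 h hw (by rwa [max_eq_right h.le] at hw2)
  · exact (V_ne_aux h2 h hw (by rwa [max_eq_left h.le] at hw2)).symm

theorem U_far {ρ r : ℝ} (hρ : 0 < ρ) (hr : ρ ≤ r) : Pool.Agent.W751.RR.U ρ r = Real.log r := by
  unfold Pool.Agent.W751.RR.U
  split_ifs with h
  · have : r = ρ := le_antisymm h hr
    subst this
    field_simp
    ring
  · rfl

theorem U_zero {ρ : ℝ} (hρ : 0 < ρ) : Pool.Agent.W751.RR.U ρ 0 = Real.log ρ - 1 / 2 := by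
  unfold Pool.Agent.W751.RR.U
  rw [if_pos hρ.le]
  simp

theorem prod_vol {ρ₁ ρ₂ : ℝ} (h1 : 0 < ρ₁) (h2 : 0 < ρ₂) (n : ℕ)
    (B : Set ((Fin n → ℂ) × (Fin n → ℂ))) :
    volume (B ∩ {x | InDiscs ρ₁ ρ₂ x}) =
      ((Pool.Agent.W751.RR.mN ρ₁ n).prod (Pool.Agent.W751.RR.mN ρ₂ n)) B *
        volume {x : (Fin n → ℂ) × (Fin n → ℂ) | InDiscs ρ₁ ρ₂ x} := by
  have hset : {x : (Fin n → ℂ) × (Fin n → ℂ) | InDiscs ρ₁ ρ₂ x} =
      Pool.Agent.W214.RR.PD ρ₁ n ×ˢ Pool.Agent.W214.RR.PD ρ₂ n := rfl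
  have hm : MeasurableSet (Pool.Agent.W214.RR.PD ρ₁ n ×ˢ Pool.Agent.W214.RR.PD ρ₂ n) :=
    (Pool.Agent.W214.RR.PD_meas ρ₁ n).prod (Pool.Agent.W214.RR.PD_meas ρ₂ n)
  set v₁ := volume (Metric.closedBall (0 : ℂ) ρ₁) with hv1
  set v₂ := volume (Metric.closedBall (0 : ℂ) ρ₂) with hv2
  have a1 : v₁ ≠ 0 := Pool.Agent.W214.RR.v_ne_zero h1
  have a2 : v₂ ≠ 0 := Pool.Agent.W214.RR.v_ne_zero h2
  have b1 : v₁ ≠ ⊤ := Pool.Agent.W214.RR.v_ne_top ρ₁
  have b2 : v₂ ≠ ⊤ := Pool.Agent.W214.RR.v_ne_top ρ₂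
  have e : (Pool.Agent.W751.RR.mN ρ₁ n).prod (Pool.Agent.W751.RR.mN ρ₂ n) =
      (v₁⁻¹ ^ n * v₂⁻¹ ^ n) • (volume : Measure ((Fin n → ℂ) × (Fin n → ℂ))).restrict
        (Pool.Agent.W214.RR.PD ρ₁ n ×ˢ Pool.Agent.W214.RR.PD ρ₂ n) := by
    rw [Pool.Agent.W214.RR.mN_eq h1, Pool.Agent.W214.RR.mN_eq h2, Measure.prod_smul_left,
      Measure.prod_smul_right, Measure.prod_restrict, smul_smul]
    rfl
  rw [hset, e, Measure.smul_apply, smul_eq_mul, Measure.restrict_apply' hm]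
  have hvol : (volume : Measure ((Fin n → ℂ) × (Fin n → ℂ)))
      (Pool.Agent.W214.RR.PD ρ₁ n ×ˢ Pool.Agent.W214.RR.PD ρ₂ n) = v₁ ^ n * v₂ ^ n := by
    rw [Measure.volume_eq_prod, Measure.prod_prod, Pool.Agent.W214.RR.vol_PD,
      Pool.Agent.W214.RR.vol_PD]
  rw [hvol]
  have h3 : v₁⁻¹ ^ n * v₂⁻¹ ^ n * (v₁ ^ n * v₂ ^ n) = 1 := by
    have e1 : v₁⁻¹ ^ n * v₁ ^ n = 1 := by rw [← mul_pow, ENNReal.inv_mul_cancel a1 b1, one_pow]
    have e2 : v₂⁻¹ ^ n * v₂ ^ n = 1 := by rw [← mul_pow, ENNReal.inv_mul_cancel a2 b2, one_pow]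
    calc v₁⁻¹ ^ n * v₂⁻¹ ^ n * (v₁ ^ n * v₂ ^ n) =
        (v₁⁻¹ ^ n * v₁ ^ n) * (v₂⁻¹ ^ n * v₂ ^ n) := by ring
      _ = 1 := by rw [e1, e2, one_mul]
  calc volume (B ∩ Pool.Agent.W214.RR.PD ρ₁ n ×ˢ Pool.Agent.W214.RR.PD ρ₂ n) =
      1 * volume (B ∩ Pool.Agent.W214.RR.PD ρ₁ n ×ˢ Pool.Agent.W214.RR.PD ρ₂ n) := (one_mul _).symm
    _ = _ := by
      rw [← h3]
      ring

/-- (1) Independent zeros and poles, not necessarily identically distributed. For all `R`, `D` and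
`κ > 0` there is `K` such that for all `n ≥ 2`, all laws `μ 1, …, μ n`, `ν 1, …, ν n` of density at
most `D` on the disc `|z| ≤ R` and all `a ≠ 0` with `κ n ≤ |log |a||`: if the function
`F = log |a| + ∑ i, (potential of μ i) - ∑ i, (potential of ν i)` satisfies `|F| ≥ κ n` or
`|∇ F| ≥ κ n` at every point of the plane, and `|F(0)| ≥ κ n`, then the random rational map of degree
`n` with value `a` at infinity and independent zeros and poles of the laws `μ i` and `ν i` is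
hyperbolic outside an event of probability at most `K (log n) ^ 4 / n`.

(2) Zeros with a common law `μ` and poles with a common law `ν`, of bounded density and bounded
support. Let `t ≠ 0` be a real number such that `t + (potential of μ) - (potential of ν)` does not
vanish at `0` and has no critical zeros. Then there is `K` such that for all `n ≥ 2` and all `a`
with `|a| = e ^ (t n)` the probability in (1) is at most `K (log n) ^ 4 / n`.

(3) If the zeros and the poles have the same law `μ`, this holds for every `t ≠ 0`.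

(4) Uniform laws on discs. For `ρ₁, ρ₂ > 0` and every real `t ≠ 0` with `t + log ρ₁ ≠ log ρ₂` there
is `K` such that for all `n ≥ 2` and `|a| = e ^ (t n)`, among the rational maps with `n` zeros in the
disc `|z| ≤ ρ₁`, `n` poles in the disc `|z| ≤ ρ₂` and value `a` at infinity the proportion (with
respect to the Lebesgue measure on the pairs of `n`-tuples) of those which are not hyperbolic is at
most `K (log n) ^ 4 / n`. -/
theorem result :
    (∀ R D κ : ℝ, 0 < κ → ∃ K : ℝ, 0 < K ∧ ∀ n : ℕ, 2 ≤ n →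
      ∀ (μ ν : Fin n → Measure ℂ) (a : ℂ), (∀ i, Law D R (μ i)) → (∀ i, Law D R (ν i)) → a ≠ 0 →
        κ * n ≤ |Real.log ‖a‖| →
        (∀ z : ℂ, κ * n ≤
            |Real.log ‖a‖ + (∑ i, potential (μ i) z - ∑ i, potential (ν i) z)| ∨
          κ * n ≤ ‖∑ i, cauchy (μ i) z - ∑ i, cauchy (ν i) z‖) →
        κ * n ≤ |Real.log ‖a‖ + (∑ i, potential (μ i) 0 - ∑ i, potential (ν i) 0)| →
        ((Measure.pi μ).prod (Measure.pi ν))
          {x | ¬ Hyperbolic (C a * withRoots x.1) (withRoots x.2)} ≤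
          ENNReal.ofReal (K * Real.log n ^ 4 / n)) ∧
    (∀ (μ ν : Measure ℂ) (D R t : ℝ), Law D R μ → Law D R ν → t ≠ 0 →
      t + (potential μ 0 - potential ν 0) ≠ 0 →
      (∀ z, t + (potential μ z - potential ν z) = 0 → cauchy μ z ≠ cauchy ν z) →
      ∃ K : ℝ, 0 < K ∧ ∀ n : ℕ, 2 ≤ n → ∀ a : ℂ, ‖a‖ = Real.exp (t * n) →
        ((Measure.pi fun _ : Fin n => μ).prod (Measure.pi fun _ : Fin n => ν))
          {x | ¬ Hyperbolic (C a * withRoots x.1) (withRoots x.2)} ≤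
          ENNReal.ofReal (K * Real.log n ^ 4 / n)) ∧
    (∀ (μ : Measure ℂ) (D R t : ℝ), Law D R μ → t ≠ 0 →
      ∃ K : ℝ, 0 < K ∧ ∀ n : ℕ, 2 ≤ n → ∀ a : ℂ, ‖a‖ = Real.exp (t * n) →
        ((Measure.pi fun _ : Fin n => μ).prod (Measure.pi fun _ : Fin n => μ))
          {x | ¬ Hyperbolic (C a * withRoots x.1) (withRoots x.2)} ≤
          ENNReal.ofReal (K * Real.log n ^ 4 / n)) ∧
    (∀ ρ₁ ρ₂ t : ℝ, 0 < ρ₁ → 0 < ρ₂ → t ≠ 0 → t + Real.log ρ₁ ≠ Real.log ρ₂ →
      ∃ K : ℝ, 0 < K ∧ ∀ n : ℕ, 2 ≤ n → ∀ a : ℂ, ‖a‖ = Real.exp (t * n) →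
        volume {x : (Fin n → ℂ) × (Fin n → ℂ) | InDiscs ρ₁ ρ₂ x ∧
            ¬ Hyperbolic (C a * withRoots x.1) (withRoots x.2)} ≤
          ENNReal.ofReal (K * Real.log n ^ 4 / n) *
            volume {x : (Fin n → ℂ) × (Fin n → ℂ) | InDiscs ρ₁ ρ₂ x}) := by
  have hiid : ∀ (μ ν : Measure ℂ) (D R t : ℝ), Pool.Agent.N229.RL.Dens μ D R →
      Pool.Agent.N229.RL.Dens ν D R → t ≠ 0 →
      t + (potential μ 0 - potential ν 0) ≠ 0 →
      (∀ z, t + (potential μ z - potential ν z) = 0 → cauchy μ z ≠ cauchy ν z) →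
      ∃ K : ℝ, 0 < K ∧ ∀ n : ℕ, 2 ≤ n → ∀ a : ℂ, ‖a‖ = Real.exp (t * n) →
        ((Measure.pi fun _ : Fin n => μ).prod (Measure.pi fun _ : Fin n => ν))
          {x | ¬ Hyperbolic (C a * withRoots x.1) (withRoots x.2)} ≤
          ENNReal.ofReal (K * Real.log n ^ 4 / n) :=
    fun μ ν D R t hμ hν ht h0 hreg => Pool.Agent.N229.RL.rat_iid hμ hν ht h0 hreg
  refine ⟨fun R D κ hκ => ?_, fun μ ν D R t hμ hν => hiid μ ν D R t (dens_of hμ) (dens_of hν),
    fun μ D R t hμ ht => ?_, fun ρ₁ ρ₂ t h1 h2 ht hne => ?_⟩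
  · obtain ⟨K, hK, h⟩ := Pool.Agent.N229.RL.rat_general R D κ hκ
    refine ⟨K, hK, fun n hn μ ν a hμ hν ha hl hreg h0 => ?_⟩
    refine h n hn μ ν a (fun i => dens_of (hμ i)) (fun i => dens_of (hν i)) ha hl
      (fun z => ?_) ?_
    · rw [Pool.Agent.N229.RL.MU_cat, Pool.Agent.N229.RL.MG_cat]
      exact hreg z
    · rw [Pool.Agent.N229.RL.MU_cat]
      exact h0
  · refine hiid μ μ D R t (dens_of hμ) (dens_of hμ) ht (by simpa using ht) (fun z hz => ?_)
    rw [sub_self, add_zero] at hz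
    exact absurd hz ht
  · have hu : ∀ (ρ : ℝ), 0 < ρ → ∀ w, potential (Pool.Agent.W751.RR.m1 ρ) w =
        Pool.Agent.W751.RR.U ρ ‖w‖ := fun ρ hρ w => UU_m1 hρ w
    have hc : ∀ (ρ : ℝ), 0 < ρ → ∀ w, cauchy (Pool.Agent.W751.RR.m1 ρ) w =
        Pool.Agent.W751.RR.V ρ w := fun ρ hρ w => GG_m1 hρ w
    have hzero : t + (potential (Pool.Agent.W751.RR.m1 ρ₁) 0 -
        potential (Pool.Agent.W751.RR.m1 ρ₂) 0) ≠ 0 := by
      rw [hu ρ₁ h1, hu ρ₂ h2, norm_zero, U_zero h1, U_zero h2]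
      intro h
      exact hne (by linarith)
    obtain ⟨K, hK, h⟩ := hiid (Pool.Agent.W751.RR.m1 ρ₁) (Pool.Agent.W751.RR.m1 ρ₂)
      (max (Real.pi * ρ₁ ^ 2)⁻¹ (Real.pi * ρ₂ ^ 2)⁻¹) (max ρ₁ ρ₂) t
      (dens_m1 h1 (le_max_left _ _) (le_max_left _ _))
      (dens_m1 h2 (le_max_right _ _) (le_max_right _ _)) ht hzero (fun z hz => by
        rw [hc ρ₁ h1, hc ρ₂ h2]
        have hz0 : z ≠ 0 := by
          rintro rfl
          exact hzero hz
        rw [hu ρ₁ h1, hu ρ₂ h2] at hz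
        by_cases hle : max ρ₁ ρ₂ ≤ ‖z‖
        · rw [U_far h1 ((le_max_left _ _).trans hle), U_far h2 ((le_max_right _ _).trans hle),
            sub_self, add_zero] at hz
          exact absurd hz ht
        · rw [not_le] at hle
          by_cases he : ρ₁ = ρ₂
          · rw [he, sub_self, add_zero] at hz
            exact absurd hz ht
          · exact V_ne h1 h2 he hz0 hle)
    refine ⟨K, hK, fun n hn a ha => ?_⟩
    have hV := prod_vol h1 h2 n {x | ¬ Hyperbolic (C a * withRoots x.1) (withRoots x.2)}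
    have hs : {x : (Fin n → ℂ) × (Fin n → ℂ) | InDiscs ρ₁ ρ₂ x ∧
        ¬ Hyperbolic (C a * withRoots x.1) (withRoots x.2)} =
        {x | ¬ Hyperbolic (C a * withRoots x.1) (withRoots x.2)} ∩ {x | InDiscs ρ₁ ρ₂ x} := by
      ext x
      exact and_comm
    rw [hs, hV]
    gcongr
    exact h n hn a ha

end Pool.Agent.Results.MP_8f2e1c_an.NearlyLinearRate
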