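import Pool.Agent.U829.AB.Final
import Pool.Agent.R473.JC.Pairs

set_option autoImplicit false

/-!
# The digits of `π + e`, `π - e`, `π e`, `π / e` in algebraic bases

Let `β > 1` be a real algebraic number (an integer or not), and let `x = β^T ∑ a_i β^(-i)` with integers
`|a_i| ≤ B`. If such a sequence of digits is eventually periodic, that is, if a finite automaton which reads the
digits and announces the next one makes only finitely many errors, then `x` is in the field `ℚ(β)`. (The converse is
not true: the greedy digits of `1/3` in the base `3/2` are not eventually periodic; and if `B` is large then `x` has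
uncountably many expansions.) We prove that at most one of the four numbers `π + e`, `π - e`, `π e`, `π / e` has
digits, in some base of a finite set `F` of algebraic bases and for some choice of its expansion, that can be cut into
few periodic pieces or predicted with few errors, and the same for the digits of one number in an algebraic base
against the partial quotients of another one. Here `π` may be replaced by any real number `t` different from `0`,
`e`, `-e`.

The height of the first `n` digits is `n log β`, that of the first `n` partial quotients is the logarithm of the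
denominator of the convergent. A piece is a single term, or a word `U V V ... V V'` (`U` may be empty, `V'` is a
beginning of `V`) such that the height grows by at most `R` up to the end of the first `V`. Let `u ≠ v` be two of the
four numbers, `a_i` digits of `u` and `a'_i` digits or partial quotients of `v`, with the heights `h` and `h'`. There
is a constant `A` which depends on `u`, `v`, `F`, `B`, `T` only, such that the following is true.

* If `a_m, ..., a_{n-1}` can be cut into `p` pieces and `a'_{m'}, ..., a'_{n'-1}` into `p'` pieces, then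
  `min (h n) (h' n') ≤ (R + max (h m) (h' m')) A^(p + p')`.
* If two automata with `S` states, whose announcements are at most `M`, read these terms and make `E` and `E'` errors
  then the same is true with `R = S log (M + 3)` and the exponent `E + E' + 1`. If they read the first `n` terms then
  `n ≤ S log (M + 3) A^(E + E' + 1)`.
* For all `S`, `M`, `n` there is at most one exception among the four numbers; for the other three, for all their
  expansions in all bases of `F`, every such automaton makes at least `c log n - C` errors among the first `n` digits.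
* If `u` is algebraic then all this is true for the digits of `v` alone.

The same is proved for all pairs `u`, `v` of real numbers such that `e` or `π` or the logarithm of a positive rational
number `≠ 1` is algebraic over `ℤ[u, v]`.

Proof. A piece of the digits of `x` gives a polynomial `P` in `ℤ[β][X]` of degree one, `P = (β^k - 1) β^r X - ...`,
with a value of size `K^(r+k) β^(-n)` at `x`. Its coefficients are integer polynomials in `β` of degree `r + k` whose
coefficients are bounded by a constant. The norm of `P` from `ℚ(β)` to `ℚ`, multiplied by a power of the leading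
coefficient of the minimal polynomial of `β`, is a polynomial with integer coefficients of size `K^(r+k)` and a
bounded degree whose value at `x` is at most `K^(r+k) β^(-n)` (`Pool.Agent.U829.AB.Norm`, `Base`). The values of
two polynomials of this kind (or those of the continued fraction, `Pool.Agent.U829.CF`) at `u` and at `v` cannot both
be very small by the joint transcendence measure of the starting library (`Pool.Agent.R356.joint`,
`Pool.Agent.R473.JC.four_t`). So the periods of calm of the two codes do not overlap, and the number of the pieces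
follows by induction.
-/

namespace Pool.Agent.Results.MP_a2f59b_nt.AlgebraicBases

open Pool.Agent.U829.AB
open Pool.Agent.U829.CF (Joint size_S)

/-- the four numbers, with `t` in the place of `π` -/
noncomputable def num (t : ℝ) : Fin 4 → ℝ :=
  ![t + Real.exp 1, t - Real.exp 1, t * Real.exp 1, t / Real.exp 1]

/-- All digit codes of `u` are apart from all digit codes of `v` and from the continued fraction of `v`, and if
`u` is algebraic then the digit codes of `v` are irregular. -/
def Irregular (F : Finset ℝ) (B T : ℕ) (u v A : ℝ) : Prop :=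
  (∀ a h a' h', DigitCode F B T u a h → (DigitCode F B T v a' h' ∨ QuotCode v a' h') →
    Apart A a h a' h') ∧
  (IsAlgebraic ℤ u → ∀ a h, DigitCode F B T v a h → Alone A a h)

/-- an upper bound for the place `n` in terms of the number of the errors before `n`, for all digit codes of `x` and
all automata with `S` states whose announcements are at most `M` -/
def Hard (F : Finset ℝ) (B T : ℕ) (x A : ℝ) (S M n : ℕ) : Prop :=
  ∀ a h, DigitCode F B T x a h → ∀ (δ : Fin S → ℤ → Fin S) (g : Fin S → ℤ) (s : Fin S), (∀ t, g t ≤ M) →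
    (n : ℝ) ≤ S * Real.log (M + 3) * A ^ (2 * (wrong δ g s a 1 n).ncard + 1)

theorem joint_of {u v : ℝ} (h : Pool.Agent.R356.JointR u v) : ∀ D, Joint u v D := fun D => h D

theorem Irregular.mono {F : Finset ℝ} (hF : ∀ β ∈ F, 1 < β ∧ IsAlgebraic ℤ β) {B T : ℕ} {u v A A' : ℝ}
    (h : Irregular F B T u v A) (hA : 1 < A) (hAA : A ≤ A') : Irregular F B T u v A' := by
  obtain ⟨D, κ, hpol⟩ := pol_bases u F hF B T
  obtain ⟨D', κ', hpol'⟩ := pol_bases v F hF B T
  exact ⟨fun a hh a' hh' hc hc' => (h.1 a hh a' hh' hc hc').mono (by linarith) hAA (hpol a hh hc).1,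
    fun hu a hh hc => (h.2 hu a hh hc).mono (by linarith) hAA (hpol' a hh hc).1⟩

theorem pair {F : Finset ℝ} (hF : ∀ β ∈ F, 1 < β ∧ IsAlgebraic ℤ β) (B T : ℕ) {u v : ℝ}
    (h : Pool.Agent.R356.JointR u v) : ∃ A : ℝ, 1 < A ∧ Irregular F B T u v A := by
  obtain ⟨D, κ, hpol⟩ := pol_bases u F hF B T
  obtain ⟨D', κ', hpol'⟩ := pol_bases v F hF B T
  obtain ⟨κ₂, hq⟩ := pol_quot v
  obtain ⟨c, hs⟩ := slow_base u F hF B T
  obtain ⟨c', hs'⟩ := slow_base v F hF B T
  obtain ⟨A₁, hA₁, h1⟩ := apart (joint_of h) hpol hpol' hs hs'
  obtain ⟨A₂, hA₂, h2⟩ := apart (joint_of h) hpol hq hs (slow_quot v)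
  have hthree : ∃ A₃ : ℝ, 1 < A₃ ∧ (IsAlgebraic ℤ u → ∀ a hh, DigitCode F B T v a hh → Alone A₃ a hh) := by
    by_cases hu : IsAlgebraic ℤ u
    · obtain ⟨A₃, hA₃, h3⟩ := alone (joint_of h) hu hpol' hs'
      exact ⟨A₃, hA₃, fun _ => h3⟩
    · exact ⟨2, by norm_num, fun h => absurd h hu⟩
  obtain ⟨A₃, hA₃, h3⟩ := hthree
  obtain ⟨A, hA⟩ : ∃ A : ℝ, A = max A₁ (max A₂ A₃) := ⟨_, rfl⟩
  have e1 : A₁ ≤ A := by rw [hA]; exact le_max_left _ _
  have e2 : A₂ ≤ A := by rw [hA]; exact (le_max_left _ _).trans (le_max_right _ _)
  have e3 : A₃ ≤ A := by rw [hA]; exact (le_max_right _ _).trans (le_max_right _ _)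
  refine ⟨A, by linarith, ?_, ?_⟩
  · rintro a hh a' hh' hc (hc' | hc')
    · exact (h1 a hh a' hh' hc hc').mono (by linarith) e1 (hpol a hh hc).1
    · exact (h2 a hh a' hh' hc hc').mono (by linarith) e2 (hpol a hh hc).1
  · intro hu a hh hc
    exact (h3 hu a hh hc).mono (by linarith) e3 (hpol' a hh hc).1

/-- all but at most one of the numbers are hard -/
theorem three {F : Finset ℝ} {B T : ℕ} {x : Fin 4 → ℝ} {A : ℝ} (hA : 1 < A)
    (h : ∀ i j, i ≠ j → Irregular F B T (x i) (x j) A)
    (S M n : ℕ) : ∃ i₀ : Fin 4, ∀ i, i ≠ i₀ → Hard F B T (x i) A S M n := by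
  by_contra hcon
  push Not at hcon
  obtain ⟨i, -, hi⟩ := hcon 0
  obtain ⟨j, hji, hj⟩ := hcon i
  unfold Hard at hi hj
  push Not at hi hj
  obtain ⟨a, hh, hcode, δ, g, s, hg, h1⟩ := hi
  obtain ⟨a', hh', hcode', δ', g', s', hg', h2⟩ := hj
  have h3 := (((h i j (Ne.symm hji)).1 a hh a' hh' hcode (Or.inl hcode')).2 S M δ δ' g g' s s' hg hg').2 n
  have h4 := (size_S s M).1
  obtain ⟨E, hE⟩ : ∃ E, E = (wrong δ g s a 1 n).ncard := ⟨_, rfl⟩
  obtain ⟨E', hE'⟩ : ∃ E', E' = (wrong δ' g' s' a' 1 n).ncard := ⟨_, rfl⟩
  rw [← hE] at h1 h3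
  rw [← hE'] at h2 h3
  have h5 : A ^ (E + E' + 1) ≤ max (A ^ (2 * E + 1)) (A ^ (2 * E' + 1)) := by
    rcases le_total E E' with h6 | h6
    · exact (pow_le_pow_right₀ hA.le (by omega)).trans (le_max_right _ _)
    · exact (pow_le_pow_right₀ hA.le (by omega)).trans (le_max_left _ _)
  have h6 : S * Real.log ((M : ℝ) + 3) * A ^ (E + E' + 1) < n := by
    rcases le_max_iff.1 h5 with h7 | h7
    · refine lt_of_le_of_lt ?_ h1
      gcongr
    · refine lt_of_le_of_lt ?_ h2
      gcongr
  linarith

/-- **Theorem.** Let `F` be a finite set of real algebraic numbers `β > 1` and `B`, `T` natural numbers. The digits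
are those of all representations `x = β^T ∑ a_i β^(-i)`, `β ∈ F`, `|a_i| ≤ B` (`DigitCode`).
(1) Let `t` be a real number different from `0`, `e` and `-e`, for instance `t = π`. There is a constant `A` such
that any two of the numbers `t + e`, `t - e`, `t e`, `t / e` are `Irregular`: digits of one of them and digits or
partial quotients of the other one cannot both be cut into few periodic pieces and cannot both be predicted by
automata with few errors, and if one of the numbers is algebraic then this is true for the digits of the other one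
alone. For all `S`, `M` and `n` all but at most one of the four numbers are `Hard`.
(2) The same is true for all pairs of real numbers `u`, `v` such that `e` or `π` or the logarithm of a positive
rational number different from `1` is algebraic over the ring `ℤ[u, v]`.
(3) Digits exist: if `β ∈ F`, `β < B + 1` and `|x| < β^T` then `x` has such a sequence of digits in base `β`. -/
theorem result (F : Finset ℝ) (hF : ∀ β ∈ F, 1 < β ∧ IsAlgebraic ℤ β) (B T : ℕ) :
    (∀ t : ℝ, t ≠ 0 → t ≠ Real.exp 1 → t ≠ - Real.exp 1 → ∃ A : ℝ, 1 < A ∧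
      (∀ i j : Fin 4, i ≠ j → Irregular F B T (num t i) (num t j) A) ∧
      ∀ S M n : ℕ, ∃ i₀ : Fin 4, ∀ i, i ≠ i₀ → Hard F B T (num t i) A S M n) ∧
    (Real.pi ≠ 0 ∧ Real.pi ≠ Real.exp 1 ∧ Real.pi ≠ - Real.exp 1) ∧
    (∀ x : ℝ, (x = Real.exp 1 ∨ x = Real.pi ∨ ∃ q : ℚ, 0 < q ∧ q ≠ 1 ∧ x = Real.log q) →
      ∀ u v : ℝ, IsAlgebraic (Algebra.adjoin ℤ ({u, v} : Set ℝ)) x →
        ∃ A : ℝ, 1 < A ∧ Irregular F B T u v A) ∧
    ∀ β ∈ F, β < B + 1 → ∀ x : ℝ, |x| < β ^ T →
      ∃ (a : ℕ → ℤ) (h : ℕ → ℝ), DigitCode {β} B T x a h ∧ DigitCode F B T x a h := by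
  refine ⟨fun t h0 h1 h2 => ?_, ⟨Real.pi_ne_zero, ?_, ?_⟩, fun x hx u v h => ?_, ?_⟩
  · have hpair : ∀ p : Fin 4 × Fin 4, ∃ A : ℝ, 1 < A ∧ (p.1 ≠ p.2 →
        Irregular F B T (num t p.1) (num t p.2) A) := by
      intro p
      by_cases hp : p.1 = p.2
      · exact ⟨2, by norm_num, fun h => absurd hp h⟩
      · obtain ⟨A, hA, h⟩ := pair hF B T (Pool.Agent.R473.JC.four_t t h0 h1 h2 p.1 p.2 hp)
        exact ⟨A, hA, fun _ => h⟩
    choose A hA hI using hpair
    obtain ⟨M, hM⟩ : ∃ M : ℝ, ∀ p, A p ≤ M := by
      obtain ⟨M, hM⟩ := (Set.finite_range A).bddAbove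
      exact ⟨M, fun p => hM ⟨p, rfl⟩⟩
    have hM1 : 1 < M := lt_of_lt_of_le (hA (0, 0)) (hM (0, 0))
    have hall : ∀ i j : Fin 4, i ≠ j → Irregular F B T (num t i) (num t j) M := fun i j hij =>
      (hI (i, j) hij).mono hF (hA (i, j)) (hM (i, j))
    exact ⟨M, hM1, hall, fun S B n => three hM1 hall S B n⟩
  · have g1 := Real.pi_gt_three
    have g2 := Real.exp_one_lt_d9
    intro h
    linarith
  · have g1 := Real.pi_pos
    have g2 := Real.exp_pos 1
    intro h
    linarith
  · exact pair hF B T (Pool.Agent.R473.JC.jointR_of_alg x (Pool.Agent.R473.JC.measT_three x hx) u v h)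
  · intro β hβ hB x hx
    obtain ⟨a, h, hc⟩ := exists_code {β} B T β (Finset.mem_singleton_self β) (hF β hβ).1 hB x hx
    refine ⟨a, h, hc, ?_⟩
    obtain ⟨γ, hγ, h1⟩ := hc
    rw [Finset.mem_singleton] at hγ
    subst hγ
    exact ⟨_, hβ, h1⟩

end Pool.Agent.Results.MP_a2f59b_nt.AlgebraicBases
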