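import Pool.Agent.N743.Alg

/-!
# `π + e` and `π e`: the scales of the algebraic approximations

A number `u` is near at the scale `X` (with parameters `d` and `θ`) if some nonzero integer
polynomial of degree at most `d` with coefficients at most `X^θ` has at `u` a value at most `1 / X`.

Let `x` be `e`, `π` or the logarithm of a positive rational number `≠ 1` and let `t ≠ 0` be any real
number. We consider finite families which consist of numbers `α t + r x + s` (with real algebraic
`α ≠ 0`, `r` and `s`) and of numbers `c t x^k` (with real algebraic `c ≠ 0` and nonzero integers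
`k`); for instance `π + e` and `π e`, or `π + e`, `π e`, `π e ^ 2`, `π + 2 e`, .... It is assumed
that the quotients `r / α` are different for different numbers of the first sort, and the exponents
`k` for different numbers of the second sort, and, if `k = -1` occurs, that none of the numbers
`α t + r x` is `0`.

For every finite family of this kind, every degree `d` and every `m > 1` the following scale
dichotomy is proved, for all small `θ > 0`.

* At every large scale at most one of the numbers is near.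
* If one of the numbers is algebraic of degree at most `d`, it is near at all large scales and the
  others are near at no large scale.
* Otherwise every large scale `X` at which one of the numbers is near is followed by a scale `Z ≥ X`
  such that only this number is near between `X` and `Z` and none of the numbers is near between
  `Z` and `Z^m`; and there are arbitrarily large `Z` such that none of the numbers is near between
  `Z` and `Z^m`.

The proof combines theorems of the starting library: the joint measure for pairs `u, v` such that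
`x` is algebraic over `ℤ[u, v]` (`Pool.Agent.R473.JC.jointR_of_alg`, which uses the transcendence
measures of `e`, of `π` and of logarithms) and the engine of the scale dichotomy for algebraic
approximations (`Pool.Agent.N743.dichotomy_alg`).
-/

set_option autoImplicit false

namespace Pool.Agent.Results.MP_a49cf6_nt.AlgebraicScales

open Finset Polynomial
open Pool.Agent.N743 (Dichotomy)
open Pool.Agent.R356 (JointR)

/-- `u` is algebraic of degree at most `d` -/
def AlgDeg (d : ℕ) (u : ℝ) : Prop := ∃ P : ℤ[X], P ≠ 0 ∧ P.natDegree ≤ d ∧ aeval u P = 0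

/-- some nonzero integer polynomial of degree at most `d` with coefficients at most `X ^ θ` in
absolute value has at `u` a value at most `1 / X` in absolute value -/
def AlgNear (d : ℕ) (θ X u : ℝ) : Prop :=
  ∃ P : ℤ[X], P ≠ 0 ∧ P.natDegree ≤ d ∧ (∀ k, |((P.coeff k : ℤ) : ℝ)| ≤ X ^ θ) ∧
    |aeval u P| ≤ X⁻¹

/-- For every `d` and every `m > 1` there is `θ₀ > 0` such that for all positive `θ ≤ θ₀` the scale
dichotomy holds for the numbers `x i` (good: algebraic of degree at most `d`; near at the scale `X`: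
see `AlgNear`). -/
def Scales {ι : Type} (x : ι → ℝ) : Prop :=
  ∀ (d : ℕ) (m : ℝ), 1 < m → ∃ θ₀ : ℝ, 0 < θ₀ ∧ ∀ θ : ℝ, 0 < θ → θ ≤ θ₀ →
    Dichotomy (fun i => AlgDeg d (x i)) (fun X i => AlgNear d θ X (x i)) m

/-- `x` is `e`, `π` or the logarithm of a positive rational number different from `1` -/
def Base (x : ℝ) : Prop :=
  x = Real.exp 1 ∨ x = Real.pi ∨ ∃ q : ℚ, 0 < q ∧ q ≠ 1 ∧ x = Real.log q

lemma root1 {K : Type} [CommRing K] [Algebra K ℝ] (x : ℝ) (A B D : K) (m : ℕ) (hm : 1 ≤ m)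
    (hB : m = 1 → B ≠ 0) (hD : D ≠ 0)
    (h : algebraMap K ℝ D * x ^ m + algebraMap K ℝ A * x - algebraMap K ℝ B = 0) :
    IsAlgebraic K x := by
  refine ⟨C D * X ^ m + C A * X - C B, ?_, ?_⟩
  · intro h0
    by_cases hm2 : m = 1
    · have h2 := congrArg (fun p => p.coeff 0) h0
      simp only [hm2, pow_one, coeff_sub, coeff_add, mul_coeff_zero, coeff_C_zero, coeff_X_zero,
        mul_zero, zero_add, zero_sub, coeff_zero, neg_eq_zero] at h2
      exact hB hm2 h2
    · have h2 := congrArg (fun p => p.coeff m) h0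
      simp only [coeff_sub, coeff_add, coeff_C_mul, coeff_X_pow, if_true, mul_one, coeff_X,
        coeff_C, coeff_zero] at h2
      rw [if_neg (by omega), if_neg (by omega), mul_zero, add_zero, sub_zero] at h2
      exact hD h2
  · simp only [map_add, map_sub, map_mul, map_pow, aeval_C, aeval_X]
    exact h

lemma root2 {K : Type} [CommRing K] [Algebra K ℝ] (x : ℝ) (A B D : K) (m : ℕ) (hm : 1 ≤ m)
    (hD : D ≠ 0)
    (h : algebraMap K ℝ A * x ^ (m + 1) - algebraMap K ℝ B * x ^ m + algebraMap K ℝ D = 0) :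
    IsAlgebraic K x := by
  refine ⟨C A * X ^ (m + 1) - C B * X ^ m + C D, ?_, ?_⟩
  · intro h0
    have h2 := congrArg (fun p => p.coeff 0) h0
    simp only [coeff_sub, coeff_add, coeff_C_mul, coeff_X_pow, coeff_C, coeff_zero, if_true] at h2
    rw [if_neg (by omega), if_neg (by omega), mul_zero, mul_zero, sub_zero, zero_add] at h2
    exact hD h2
  · simp only [map_add, map_sub, map_mul, map_pow, aeval_C, aeval_X]
    exact h

/-- transitivity -/
lemma alg_trans (u v x : ℝ)
    (h : IsAlgebraic (Subalgebra.algebraicClosure (Algebra.adjoin ℤ ({u, v} : Set ℝ)) ℝ) x) :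
    IsAlgebraic (Algebra.adjoin ℤ ({u, v} : Set ℝ)) x :=
  h.restrictScalars (Algebra.adjoin ℤ ({u, v} : Set ℝ))

lemma alg_rat (u v y : ℝ) (hy : IsAlgebraic ℚ y) :
    IsAlgebraic (Algebra.adjoin ℤ ({u, v} : Set ℝ)) y := by
  have h1 : IsAlgebraic ℤ y := (IsFractionRing.isAlgebraic_iff ℤ ℚ ℝ).2 hy
  exact h1.extendScalars (RingHom.injective_int _)

lemma alg_u (u v : ℝ) : IsAlgebraic (Algebra.adjoin ℤ ({u, v} : Set ℝ)) u :=
  isAlgebraic_algebraMap (⟨_, Pool.Agent.R473.JC.mem_u u v⟩ : Algebra.adjoin ℤ ({u, v} : Set ℝ))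

lemma alg_v (u v : ℝ) : IsAlgebraic (Algebra.adjoin ℤ ({u, v} : Set ℝ)) v :=
  isAlgebraic_algebraMap (⟨_, Pool.Agent.R473.JC.mem_v u v⟩ : Algebra.adjoin ℤ ({u, v} : Set ℝ))

/-- two linear forms -/
lemma alg_forms (x t a b c a' b' c' : ℝ) (ha : IsAlgebraic ℚ a) (hb : IsAlgebraic ℚ b)
    (hc : IsAlgebraic ℚ c) (ha' : IsAlgebraic ℚ a') (hb' : IsAlgebraic ℚ b')
    (hc' : IsAlgebraic ℚ c') (h : a * b' ≠ a' * b) :
    IsAlgebraic (Algebra.adjoin ℤ ({a * t + b * x + c, a' * t + b' * x + c'} : Set ℝ)) x := by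
  have tr := alg_rat (a * t + b * x + c) (a' * t + b' * x + c')
  have hd : a * b' - a' * b ≠ 0 := sub_ne_zero.2 h
  have e : x = (a * ((a' * t + b' * x + c') - c') - a' * ((a * t + b * x + c) - c)) *
      (a * b' - a' * b)⁻¹ := by
    rw [eq_mul_inv_iff_mul_eq₀ hd]
    ring
  have key : IsAlgebraic (Algebra.adjoin ℤ
      ({a * t + b * x + c, a' * t + b' * x + c'} : Set ℝ))
      ((a * ((a' * t + b' * x + c') - c') - a' * ((a * t + b * x + c) - c)) *
      (a * b' - a' * b)⁻¹) :=
    (((tr a ha).mul ((alg_v _ _).sub (tr c' hc'))).sub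
      ((tr a' ha').mul ((alg_u _ _).sub (tr c hc)))).mul
      (((tr a ha).mul (tr b' hb')).sub ((tr a' ha').mul (tr b hb))).inv
  rwa [← e] at key

/-- two multiples of powers -/
lemma alg_pows (x t c c' : ℝ) (hx : x ≠ 0) (ht : t ≠ 0) (hc0 : c ≠ 0) (hc0' : c' ≠ 0)
    (hc : IsAlgebraic ℚ c) (hc' : IsAlgebraic ℚ c') (k k' : ℤ) (hk : k < k') :
    IsAlgebraic (Algebra.adjoin ℤ ({c * t * x ^ k, c' * t * x ^ k'} : Set ℝ)) x := by
  have tr := alg_rat (c * t * x ^ k) (c' * t * x ^ k')
  have e : x ^ (k' - k).toNat = (c' * t * x ^ k') * (c * t * x ^ k)⁻¹ * (c * c'⁻¹) := by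
    have h1 : x ^ (k' - k).toNat = x ^ (k' - k) := by
      rw [← zpow_natCast, Int.toNat_of_nonneg (by omega)]
    rw [h1, zpow_sub₀ hx]
    have hxk : x ^ k ≠ 0 := zpow_ne_zero _ hx
    field_simp
  have h2 : IsAlgebraic (Algebra.adjoin ℤ ({c * t * x ^ k, c' * t * x ^ k'} : Set ℝ))
      (x ^ (k' - k).toNat) := by
    rw [e]
    exact ((alg_v _ _).mul (alg_u _ _).inv).mul ((tr c hc).mul (tr c' hc').inv)
  exact h2.of_pow (by omega)

/-- a linear form and a multiple of a power -/
lemma alg_mix (x t a r s c : ℝ) (hx : x ≠ 0) (ht : t ≠ 0) (ha0 : a ≠ 0) (hc0 : c ≠ 0)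
    (ha : IsAlgebraic ℚ a) (hr : IsAlgebraic ℚ r) (hs : IsAlgebraic ℚ s) (hc : IsAlgebraic ℚ c)
    (k : ℤ) (hk : k ≠ 0) (h : k = -1 → a * t + r * x ≠ 0) :
    IsAlgebraic (Algebra.adjoin ℤ ({a * t + r * x + s, c * t * x ^ k} : Set ℝ)) x := by
  obtain ⟨u, hu⟩ : ∃ u, u = a * t + r * x + s := ⟨_, rfl⟩
  obtain ⟨v, hv⟩ : ∃ v, v = c * t * x ^ k := ⟨_, rfl⟩
  have hv0 : v ≠ 0 := by
    rw [hv]
    exact mul_ne_zero (mul_ne_zero hc0 ht) (zpow_ne_zero _ hx)
  rw [← hu, ← hv]
  have tr := alg_rat u v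
  -- elements of the algebraic closure
  obtain ⟨A, hA⟩ : ∃ A : Subalgebra.algebraicClosure (Algebra.adjoin ℤ ({u, v} : Set ℝ)) ℝ,
      (A : ℝ) = c * r := ⟨⟨c * r, (tr c hc).mul (tr r hr)⟩, rfl⟩
  obtain ⟨B, hB⟩ : ∃ B : Subalgebra.algebraicClosure (Algebra.adjoin ℤ ({u, v} : Set ℝ)) ℝ,
      (B : ℝ) = c * (u - s) := ⟨⟨c * (u - s), (tr c hc).mul ((alg_u u v).sub (tr s hs))⟩, rfl⟩
  obtain ⟨D, hD⟩ : ∃ D : Subalgebra.algebraicClosure (Algebra.adjoin ℤ ({u, v} : Set ℝ)) ℝ,
      (D : ℝ) = a * v := ⟨⟨a * v, (tr a ha).mul (alg_v u v)⟩, rfl⟩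
  have hA' : algebraMap _ ℝ A = c * r := hA
  have hB' : algebraMap _ ℝ B = c * (u - s) := hB
  have hD' : algebraMap _ ℝ D = a * v := hD
  have hD0 : D ≠ 0 := by
    intro h0
    rw [h0] at hD
    exact (mul_ne_zero ha0 hv0) hD.symm
  rcases lt_or_gt_of_ne hk with hneg | hpos
  · -- `k = - m`: `a v x ^ m + c r x - c (u - s) = 0`
    obtain ⟨m, hm⟩ : ∃ m : ℕ, k = -(m : ℤ) := ⟨(-k).toNat, by omega⟩
    have hm1 : 1 ≤ m := by omega
    have hvx : v * x ^ m = c * t := by
      rw [hv, hm, zpow_neg, zpow_natCast]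
      field_simp
    refine alg_trans u v x (root1 x A B D m hm1 ?_ hD0 ?_)
    · intro hm2 h2
      rw [h2] at hB
      have h3 : c * (u - s) = 0 := hB.symm
      rcases mul_eq_zero.1 h3 with h4 | h4
      · exact hc0 h4
      · refine h (by omega) ?_
        rw [hu] at h4
        linarith
    · rw [hA', hB', hD']
      have : a * v * x ^ m = a * (c * t) := by rw [mul_assoc, hvx]
      rw [this, hu]
      ring
  · -- `k > 0`: `c r x ^ (k + 1) - c (u - s) x ^ k + a v = 0`
    obtain ⟨m, hm⟩ : ∃ m : ℕ, k = (m : ℤ) := ⟨k.toNat, by omega⟩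
    have hm1 : 1 ≤ m := by omega
    refine alg_trans u v x (root2 x A B D m hm1 hD0 ?_)
    rw [hA', hB', hD', hu, hv, hm, zpow_natCast]
    ring

/-- **The scales of the algebraic approximations.**

(1) Let `x` be `e`, `π` or the logarithm of a positive rational number `≠ 1` and let `t ≠ 0` be
real. The scale dichotomy holds for the family of all the numbers `a_i t + r_i x + s_i` (`i < M`)
and `c_j t x ^ k_j` (`j < N`), if `a_i, r_i, s_i, c_j` are algebraic, `a_i ≠ 0`, `c_j ≠ 0`,
`a_i r_i' ≠ a_i' r_i` for `i ≠ i'`, the `k_j` are distinct nonzero integers, and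
`a_i t + r_i x ≠ 0` for all `i` in case that one of the `k_j` is `-1`.

(2) It holds for the two numbers `π + e` and `π e`. -/
theorem result :
    (∀ x : ℝ, Base x → ∀ t : ℝ, t ≠ 0 → ∀ (M N : ℕ) (a r s : Fin M → ℝ) (c : Fin N → ℝ)
      (k : Fin N → ℤ), (∀ i, IsAlgebraic ℚ (a i)) → (∀ i, IsAlgebraic ℚ (r i)) →
      (∀ i, IsAlgebraic ℚ (s i)) → (∀ j, IsAlgebraic ℚ (c j)) → (∀ i, a i ≠ 0) →
      (∀ j, c j ≠ 0) → (∀ i i', i ≠ i' → a i * r i' ≠ a i' * r i) → Function.Injective k →
      (∀ j, k j ≠ 0) → (∀ i j, k j = -1 → a i * t + r i * x ≠ 0) →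
      Scales (Sum.elim (fun i => a i * t + r i * x + s i) (fun j => c j * t * x ^ k j))) ∧
    Scales ![Real.pi + Real.exp 1, Real.pi * Real.exp 1] := by
  refine ⟨?_, ?_⟩
  · intro x hx t ht M N a r s c k ha hr hs hc ha0 hc0 har hk hk0 hneg
    have hm := Pool.Agent.R473.JC.measT_three x hx
    have hx0 : x ≠ 0 := by
      intro h0
      apply Pool.Agent.TH456.TM.transcendental_of_measT hm
      rw [h0]
      exact ⟨X, X_ne_zero, by simp⟩
    have J := fun u v h => Pool.Agent.R473.JC.jointR_of_alg x hm u v h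
    refine fun d m hd => Pool.Agent.N743.dichotomy_alg _ ?_ d m hd
    rintro (i | j) (i' | j') hij
    · exact J _ _ (alg_forms x t _ _ _ _ _ _ (ha i) (hr i) (hs i) (ha i') (hr i') (hs i')
        (har i i' (fun h => hij (by rw [h]))))
    · exact J _ _ (alg_mix x t _ _ _ _ hx0 ht (ha0 i) (hc0 j') (ha i) (hr i) (hs i) (hc j') (k j')
        (hk0 j') (hneg i j'))
    · exact (J _ _ (alg_mix x t _ _ _ _ hx0 ht (ha0 i') (hc0 j) (ha i') (hr i') (hs i') (hc j)
        (k j) (hk0 j) (hneg i' j))).symm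
    · have hne : k j ≠ k j' := fun h => hij (by rw [hk h])
      rcases lt_or_gt_of_ne hne with h | h
      · exact J _ _ (alg_pows x t _ _ hx0 ht (hc0 j) (hc0 j') (hc j) (hc j') _ _ h)
      · exact (J _ _ (alg_pows x t _ _ hx0 ht (hc0 j') (hc0 j) (hc j') (hc j) _ _ h)).symm
  · refine fun d m hd => Pool.Agent.N743.dichotomy_alg _ ?_ d m hd
    have h01 : JointR (Real.pi + Real.exp 1) (Real.pi * Real.exp 1) :=
      Pool.Agent.R473.JC.jointR_of_alg Real.pi Pool.Agent.TH456.TM.measT_pi _ _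
        (Pool.Agent.R473.JC.alg_add_mul Real.pi (Real.exp 1))
    intro i j hij
    fin_cases i <;> fin_cases j
    · exact absurd rfl hij
    · exact h01
    · exact h01.symm
    · exact absurd rfl hij

end Pool.Agent.Results.MP_a49cf6_nt.AlgebraicScales
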