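import Mathlib
import Pool.Agent.U455.JB
import Pool.Agent.U455.JM
import Pool.Agent.Results.MP_a49cf6_nt.DigitRecurrences

/-!
# Finite automata and piecewise relations for the digits of `π + e` and of `π e`

One of the numbers `π + e`, `π e` is irrational, as `e` is a root of `X ^ 2 - (π + e) X + π e`; the digits
of a rational number are predicted by a finite automaton with finitely many errors.  We prove that two
automata (or, more generally, two devices with many recurrences or algebraic relations) cannot predict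
the digits of both numbers with few errors, where the automata may use the digits which they have read,
and where every stretch between two errors may satisfy a relation of its own.

* (1), (2), (5): two different bases and two different lengths are allowed, and relations of any degree;
  this holds for all pairs of real numbers `u`, `v` such that `e`, `π` or the logarithm of a rational
  number is algebraic over the ring generated by `u` and `v`.
* (3): the same base, with explicit constants, uniformly in bounded real numbers in the place of `π`.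
* (4): a statement for every large scale.

The proof: multiplied by `b^u` a number turns a relation for a block of its digits, from the
`(u+1)`-st to the `v`-th, into an integer polynomial of bounded degree which is small at the number.
Two such polynomials for the two numbers contradict the joint measure of the two numbers
(`Pool.Agent.R473.JC`, from the measure of transcendence of `e`, `π` or the logarithm).  If the blocks of
one number are `(u_i, v_i]` and those of the other one `(u'_j, v'_j]`, then by induction on `i + j` the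
smaller one of the starting points `u_i`, `u'_j` (in a logarithmic scale) grows at most exponentially in
`i + j` (`Pool.Agent.U455.JB.blocks2`).
-/

set_option autoImplicit false

namespace Pool.Agent.Results.MP_a49cf6_nt.DigitBlocks

open Finset Polynomial

/-- the `i`-th digit of `x` after the point in base `b` -/
noncomputable def digit (b : ℕ) (x : ℝ) (i : ℕ) : ℤ := ⌊x * (b : ℝ) ^ i⌋ % (b : ℤ)

/-- the polynomial `d_(u+1) X + ⋯ + d_v X^(v-u)`, where `d_i` is the `i`-th digit of `x` -/
noncomputable def blockPoly (b : ℕ) (x : ℝ) (u v : ℕ) : ℚ[X] :=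
  ∑ l ∈ Icc 1 (v - u), C (digit b x (u + l) : ℚ) * X ^ l

/-- there is a nonzero polynomial `P(X, Y)` over `ℚ` of degree `≤ r` in `Y` and `≤ k` in `X` such
that `P(X, D(X))` is divisible by `X^(v-u+1)`, where `D(X) = d_(u+1) X + ⋯ + d_v X^(v-u)` -/
def AlgRelation (b : ℕ) (x : ℝ) (r u v k : ℕ) : Prop :=
  ∃ P : ℚ[X][X], P ≠ 0 ∧ P.natDegree ≤ r ∧ (∀ j, (P.coeff j).natDegree ≤ k) ∧
    X ^ (v - u + 1) ∣ P.eval (blockPoly b x u v)

/-- The first `N` digits of `x` in base `b` are covered by `s` blocks, from the `(u_i + 1)`-st to the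
`v_i`-th digit, `i < s`, where `u_0 = 0`, `u_s = N` and `u_(i+1) ≤ v_i + 1` (one digit may be omitted
between two blocks), and every block satisfies an algebraic relation of degree at most `r` with
coefficients of degree at most `k` (each block one of its own). -/
def Blocks (b : ℕ) (x : ℝ) (r k s N : ℕ) : Prop :=
  ∃ u v : ℕ → ℕ, u 0 = 0 ∧ u s = N ∧
    ∀ i < s, u i ≤ v i ∧ u (i + 1) ≤ v i + 1 ∧ AlgRelation b x r (u i) (v i) k

/-- the state of the automaton with transitions `δ` and initial state `q₀` after it has read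
`d 1, …, d n` -/
def run {Q : ℕ} (δ : Fin Q → ℤ → Fin Q) (q₀ : Fin Q) (d : ℕ → ℤ) : ℕ → Fin Q
  | 0 => q₀
  | n + 1 => δ (run δ q₀ d n) (d (n + 1))

/-- the number of errors of the automaton on `d 1, …, d N`: the number of `n < N` such that the
prediction `out` of the state after `d 1, …, d n` is not `d (n + 1)` -/
def errors {Q : ℕ} (δ : Fin Q → ℤ → Fin Q) (q₀ : Fin Q) (out : Fin Q → ℤ) (d : ℕ → ℤ) (N : ℕ) : ℕ :=
  ((range N).filter fun n => out (run δ q₀ d n) ≠ d (n + 1)).card

/-- Every stretch `u+1, …, v` of the first `N` places which contains no place `i + 1` with `i ∈ E` is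
such that the digits of `x` at these places satisfy a linear recurrence of order `m` over `ℚ` (which
may depend on the stretch). So the first `N` digits are cut at the places in `E` into pieces of linear
complexity at most `m`. -/
def Cut (b : ℕ) (x : ℝ) (N m : ℕ) (E : Finset ℕ) : Prop :=
  ∀ u v, u ≤ v → v ≤ N → (∀ i ∈ E, i < u ∨ v ≤ i) → ∃ c : ℕ → ℚ, ∀ i, u ≤ i → i + m < v →
    (digit b x (i + m + 1) : ℚ) = ∑ l ∈ range m, c l * (digit b x (i + l + 1) : ℚ)

/-- The first `N` digits of `x` in base `b` are not cut at `c log N` or fewer places into pieces which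
satisfy linear recurrences of order at most `N ^ θ`. -/
def Rough (θ c : ℝ) (b N : ℕ) (x : ℝ) : Prop :=
  ∀ (m : ℕ) (E : Finset ℕ), (m : ℝ) ≤ (N : ℝ) ^ θ → (E.card : ℝ) ≤ c * Real.log N → ¬ Cut b x N m E

theorem brel_of_alg {b : ℕ} {x : ℝ} {r u v k : ℕ} (h : AlgRelation b x r u v k) :
    Pool.Agent.U455.JB.BRel b x r u v k := by
  obtain ⟨P, hP0, hPr, hPk, hX⟩ := h
  refine ⟨fun j => P.coeff j, ?_, fun j => hPk j, ?_⟩
  · intro h0
    apply hP0
    ext1 j
    by_cases hj : j < r + 1
    · have := congrFun h0 ⟨j, hj⟩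
      simpa using this
    · rw [coeff_eq_zero_of_natDegree_lt (by omega), coeff_zero]
  · rw [eval_eq_sum_range' (show P.natDegree < r + 1 by omega), Finset.sum_range] at hX
    exact hX

theorem run_eq {Q : ℕ} (δ : Fin Q → ℤ → Fin Q) (q₀ : Fin Q) (d : ℕ → ℤ) (n : ℕ) :
    run δ q₀ d n = Pool.Agent.R473.FP.run δ q₀ d n := by
  induction n with
  | zero => rfl
  | succ n ih =>
    change δ (run δ q₀ d n) (d (n + 1)) = δ (Pool.Agent.R473.FP.run δ q₀ d n) (d (n + 1))
    rw [ih]

theorem errors_eq {Q : ℕ} (δ : Fin Q → ℤ → Fin Q) (q₀ : Fin Q) (out : Fin Q → ℤ) (d : ℕ → ℤ)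
    (N : ℕ) : errors δ q₀ out d N = Pool.Agent.R473.FP.errors δ q₀ out d N := by
  unfold errors Pool.Agent.R473.FP.errors
  simp only [run_eq]

theorem blocks_joint (x y : ℝ) (hxy : Pool.Agent.R356.JointR x y) (r : ℕ) : ∃ A : ℝ, 1 ≤ A ∧
    ∀ β β' : ℕ, 2 ≤ β → 2 ≤ β' → ∀ k k' s s' N N' : ℕ, Blocks β x r k s N →
      Blocks β' y r k' s' N' →
      min (N * Real.log β) (N' * Real.log β') ≤
        A ^ (s + s') * ((k + 1) * Real.log β + (k' + 1) * Real.log β') := by
  obtain ⟨A, hA, h⟩ := Pool.Agent.U455.JB.blocks2 x y hxy r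
  refine ⟨A, hA, fun β β' hβ hβ' k k' s s' N N' hN hN' => ?_⟩
  obtain ⟨u, v, hu0, hus, hb⟩ := hN
  obtain ⟨u', v', hu0', hus', hb'⟩ := hN'
  have h1 := h β β' hβ hβ' k k' u v u' v' hu0 hu0' s s'
    (fun i hi => ⟨(hb i hi).1, (hb i hi).2.1, brel_of_alg (hb i hi).2.2⟩)
    (fun i hi => ⟨(hb' i hi).1, (hb' i hi).2.1, brel_of_alg (hb' i hi).2.2⟩)
  rw [hus, hus'] at h1
  exact h1

theorem fs_joint (x y : ℝ) (hxy : Pool.Agent.R356.JointR x y) : ∃ A : ℝ, 1 ≤ A ∧
    ∀ β β' : ℕ, 2 ≤ β → 2 ≤ β' → ∀ (Q Q' : ℕ) (δ : Fin Q → ℤ → Fin Q) (q₀ : Fin Q)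
      (out : Fin Q → ℤ) (δ' : Fin Q' → ℤ → Fin Q') (q₀' : Fin Q') (out' : Fin Q' → ℤ) (N N' : ℕ),
      min (N * Real.log β) (N' * Real.log β') ≤
        A ^ (errors δ q₀ out (digit β x) N + errors δ' q₀' out' (digit β' y) N' + 2) *
          ((Q + 1) * Real.log β + (Q' + 1) * Real.log β') := by
  obtain ⟨A, hA, h⟩ := Pool.Agent.U455.JB.predictors2 x y hxy
  refine ⟨A, hA, fun β β' hβ hβ' Q Q' δ q₀ out δ' q₀' out' N N' => ?_⟩
  rw [errors_eq, errors_eq]
  exact h β β' hβ hβ' Q Q' δ q₀ out δ' q₀' out' N N'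

/-- **(1)** Let `x` be `e`, `π` or the logarithm of a positive rational number different from `1`, and
let `u`, `v` be real numbers such that `x` is algebraic over the ring generated by `u` and `v`. For
every `r` there is `A` such that for all bases `β`, `β'`: if the first `N` digits of `u` in base `β` are
covered by `s` blocks with algebraic relations of degree `≤ r` with coefficients of degree `≤ k`, and the
first `N'` digits of `v` in base `β'` by `s'` such blocks with `k'` in place of `k`, then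
`min (N log β, N' log β') ≤ A^(s+s') ((k+1) log β + (k'+1) log β')`.

**(2)** Under the same conditions there is `A` such that for all bases and all automata with `Q` and
`Q'` states which predict the digits of `u` in base `β` and of `v` in base `β'` and make `E` and `E'`
errors on the first `N` and `N'` digits:
`min (N log β, N' log β') ≤ A^(E+E'+2) ((Q+1) log β + (Q'+1) log β')`.

**(3)** For all `T` and `η > 0` there is `C` such that for all real `t`, `|t| ≤ T`, and all bases `β`: if
the first `N` digits of `t e` are cut at the places in `E` into pieces with linear recurrences of order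
`m`, and those of `t + e` at the places in `F` into pieces with linear recurrences of order `n`, then
`N ≤ ((3+η) + ⋯ + (3+η)^(|E|+|F|+1)) (m + n + C √((m+n+1) log (m+n+2)))`; and the same holds for two
automata with `m` and `n` states which make `|E|` and `|F|` errors.

**(4)** If `θ + 2 c log 3 < 1` then, at every large scale `N` and in every base, the first `N` digits of
`π + e` or those of `π e` are not cut at `c log N` or fewer places into pieces with linear recurrences
of order at most `N ^ θ`.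

**(5)** The numbers `u = x + t`, `v = x t` satisfy the condition in (1) and (2) for every real `t`. -/
theorem result :
    (∀ x : ℝ, (x = Real.exp 1 ∨ x = Real.pi ∨ ∃ q : ℚ, 0 < q ∧ q ≠ 1 ∧ x = Real.log q) →
      ∀ u v : ℝ, IsAlgebraic (Algebra.adjoin ℤ ({u, v} : Set ℝ)) x → ∀ r : ℕ, ∃ A : ℝ, 1 ≤ A ∧
      ∀ β β' : ℕ, 2 ≤ β → 2 ≤ β' → ∀ k k' s s' N N' : ℕ,
        Blocks β u r k s N → Blocks β' v r k' s' N' →
        min (N * Real.log β) (N' * Real.log β') ≤
          A ^ (s + s') * ((k + 1) * Real.log β + (k' + 1) * Real.log β')) ∧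
    (∀ x : ℝ, (x = Real.exp 1 ∨ x = Real.pi ∨ ∃ q : ℚ, 0 < q ∧ q ≠ 1 ∧ x = Real.log q) →
      ∀ u v : ℝ, IsAlgebraic (Algebra.adjoin ℤ ({u, v} : Set ℝ)) x → ∃ A : ℝ, 1 ≤ A ∧
      ∀ β β' : ℕ, 2 ≤ β → 2 ≤ β' → ∀ (Q Q' : ℕ) (δ : Fin Q → ℤ → Fin Q) (q₀ : Fin Q)
        (out : Fin Q → ℤ) (δ' : Fin Q' → ℤ → Fin Q') (q₀' : Fin Q') (out' : Fin Q' → ℤ)
        (N N' : ℕ),
        min (N * Real.log β) (N' * Real.log β') ≤
          A ^ (errors δ q₀ out (digit β u) N + errors δ' q₀' out' (digit β' v) N' + 2) *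
            ((Q + 1) * Real.log β + (Q' + 1) * Real.log β')) ∧
    (∀ T η : ℝ, 0 < η → ∃ C : ℝ, ∀ t : ℝ, |t| ≤ T → ∀ β : ℕ, 2 ≤ β → ∀ N m n : ℕ,
        (∀ E F : Finset ℕ, Cut β (t * Real.exp 1) N m E → Cut β (t + Real.exp 1) N n F →
          (N : ℝ) ≤ (∑ i ∈ range (E.card + F.card + 1), (3 + η) ^ (i + 1)) *
            ((m : ℝ) + n + C * Real.sqrt (((m : ℝ) + n + 1) * Real.log ((m : ℝ) + n + 2)))) ∧
        ∀ (δ : Fin m → ℤ → Fin m) (q₀ : Fin m) (out : Fin m → ℤ) (δ' : Fin n → ℤ → Fin n)
          (q₀' : Fin n) (out' : Fin n → ℤ),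
          (N : ℝ) ≤ (∑ i ∈ range (errors δ q₀ out (digit β (t * Real.exp 1)) N +
              errors δ' q₀' out' (digit β (t + Real.exp 1)) N + 1), (3 + η) ^ (i + 1)) *
            ((m : ℝ) + n + C * Real.sqrt (((m : ℝ) + n + 1) * Real.log ((m : ℝ) + n + 2)))) ∧
    (∀ θ c : ℝ, 0 ≤ θ → 0 ≤ c → θ + 2 * c * Real.log 3 < 1 → ∃ N₀ : ℕ, ∀ β : ℕ, 2 ≤ β →
      ∀ N : ℕ, N₀ ≤ N →
        Rough θ c β N (Real.pi * Real.exp 1) ∨ Rough θ c β N (Real.pi + Real.exp 1)) ∧
    (∀ x t : ℝ, IsAlgebraic (Algebra.adjoin ℤ ({x + t, x * t} : Set ℝ)) x) := by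
  refine ⟨fun x hx u v h r => blocks_joint _ _
      (Pool.Agent.R473.JC.jointR_of_alg x (Pool.Agent.R473.JC.measT_three x hx) u v h) r,
    fun x hx u v h => fs_joint _ _
      (Pool.Agent.R473.JC.jointR_of_alg x (Pool.Agent.R473.JC.measT_three x hx) u v h), ?_, ?_,
    Pool.Agent.R473.JC.alg_add_mul⟩
  · intro T η hη
    obtain ⟨c0, hc0, hM⟩ :=
      Pool.Agent.Results.MP_a49cf6_nt.DigitRecurrences.pair_meas T η hη
    obtain ⟨C, hC, hcut⟩ := Pool.Agent.U455.JM.cut2_unif (3 + η) c0 (by linarith) hc0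
    refine ⟨C, fun t ht β hβ N m n => ⟨fun E F hE hF => ?_, fun δ q₀ out δ' q₀' out' => ?_⟩⟩
    · have h1 := hcut _ _ (hM t ht) β hβ N m n E F hE hF
      unfold Pool.Agent.W47.JL.err at h1
      push_cast at h1
      exact h1
    · have h1 := hcut _ _ (hM t ht) β hβ N m n _ _
        (Pool.Agent.U455.JM.cut_of_fs β _ δ q₀ out N) (Pool.Agent.U455.JM.cut_of_fs β _ δ' q₀' out' N)
      unfold Pool.Agent.W47.JL.err at h1
      push_cast at h1
      rw [errors_eq, errors_eq]
      exact h1
  · intro θ c hθ hc hlt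
    obtain ⟨η, hη0, hη⟩ : ∃ η : ℝ, 0 < η ∧ c * (2 * Real.log (3 + η)) + θ < 1 := by
      have hcont : Filter.Tendsto (fun η : ℝ => c * (2 * Real.log (3 + η)) + θ) (nhdsWithin 0 (Set.Ioi 0))
          (nhds (c * (2 * Real.log (3 + 0)) + θ)) := by
        refine tendsto_nhdsWithin_of_tendsto_nhds ?_
        refine ContinuousAt.tendsto (f := fun η : ℝ => c * (2 * Real.log (3 + η)) + θ) ?_
        refine ContinuousAt.add (ContinuousAt.mul continuousAt_const (ContinuousAt.mul
          continuousAt_const (ContinuousAt.log (by fun_prop) (by norm_num)))) continuousAt_const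
      have hlt' : c * (2 * Real.log (3 + 0)) + θ < 1 := by rw [add_zero]; linarith
      have h1 := (hcont.eventually_lt_const hlt').and self_mem_nhdsWithin
      obtain ⟨η, h2, h3⟩ := h1.exists
      exact ⟨η, h3, h2⟩
    obtain ⟨c0, hc0, hM⟩ :=
      Pool.Agent.Results.MP_a49cf6_nt.DigitRecurrences.pair_meas |Real.pi| η hη0
    obtain ⟨N₀, h0⟩ := Pool.Agent.N553.PC.cut_large 2 _ (3 + η) c0 0 (by linarith) hc0 le_rfl
      (hM Real.pi le_rfl) θ c hθ hc (by push_cast; exact hη)
    refine ⟨N₀, fun β hβ N hN => ?_⟩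
    obtain ⟨j, hj⟩ := h0 β hβ N hN
    fin_cases j
    · exact Or.inl hj
    · exact Or.inr hj

end Pool.Agent.Results.MP_a49cf6_nt.DigitBlocks
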