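import Pool.Agent.U455.JX
import Pool.Agent.Results.MP_a89d6d_nt.ExplicitMeasure

/-!
# The digits of the linear forms in `1, π²` and `ζ(3)`: finite automata and piecewise recurrences

A relation `a + b π² + d ζ(3) = 0` with rational coefficients would be an algebraic relation between `π` and
`ζ(3)`; there is none (starting library, with an explicit measure). Here the digits of ALL numbers
`x = (a + b π² + d ζ(3)) / D`, `d ≠ 0`, in all bases are shown to be far from periodic, uniformly in the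
coefficients. If `x` were rational its digits would form one periodic block.

A sequence of digits is cut at a set `E` of places into pieces of linear complexity at most `m` if on every
stretch without a place in `E` the digits satisfy a linear recurrence of order `m` over `ℚ`, each stretch one of its
own. A predictor with `Q` states is an automaton which reads the digits one after the other and predicts each
next digit from its state.

(1) For all bases, all coefficients `a`, `|b|, |d|, D ≤ H`, `d ≠ 0`, a predictor with `Q` states which makes `E`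
errors on the first `N` digits of `x` satisfies `N ≤ (230 + 230² + ⋯ + 230^(E+1)) (Q + C + 690 log H)`; and if the
first `N` digits are cut at the places in `E` into pieces of linear complexity at most `m` then
`N ≤ (230 + ⋯ + 230^(|E|+1)) (m + C √((m+1) log (m+2)) + 690 log H)`. One constant `C` for all.

(2) If `θ + c log 230 < 1` then for all large `N`, all bases and ALL coefficients with
`|b|, |d|, D ≤ exp (N^θ)`, `d ≠ 0`, the first `N` digits of `x` are not cut at `c log N` or fewer places into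
pieces of linear complexity at most `N^θ`, and every predictor with at most `N^θ` states makes more than
`c log N` errors.

(3) The inequalities of (1) hold, with a constant depending on the number, for all irrational quotients
`(a₁ + b₁ π² + c₁ ζ(3)) / (a₂ + b₂ π² + c₂ ζ(3))` in which `ζ(3)` occurs, for instance `ζ(3) / π²`.
-/

set_option autoImplicit false

namespace Pool.Agent.Results.MP_a89d6d_nt.DigitsOfForms

open Finset
open Pool.Agent.Results.MP_a89d6d_nt.ExplicitMeasure (base dist_low)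

/-- `ζ(3)` -/
noncomputable def z3 : ℝ := ∑' n : ℕ, 1 / ((n : ℝ) + 1) ^ 3

/-- the `i`-th digit of `x` after the point in base `b` -/
noncomputable def digit (b : ℕ) (x : ℝ) (i : ℕ) : ℤ := ⌊x * (b : ℝ) ^ i⌋ % (b : ℤ)

/-- the state of the automaton with transitions `δ` and initial state `q₀` after it has read
`d 1, …, d n` -/
def run {Q : ℕ} (δ : Fin Q → ℤ → Fin Q) (q₀ : Fin Q) (d : ℕ → ℤ) : ℕ → Fin Q
  | 0 => q₀
  | n + 1 => δ (run δ q₀ d n) (d (n + 1))

/-- the number of errors of the automaton on `d 1, …, d N`: the number of `n < N` such that the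
prediction `out` of the state after `d 1, …, d n` is not `d (n + 1)` -/
def errors {Q : ℕ} (δ : Fin Q → ℤ → Fin Q) (q₀ : Fin Q) (out : Fin Q → ℤ) (d : ℕ → ℤ) (N : ℕ) : ℕ :=
  ((range N).filter fun n => out (run δ q₀ d n) ≠ d (n + 1)).card

/-- Every stretch `u+1, …, v` of the first `N` places which contains no place `i + 1` with `i ∈ E` is
such that the digits of `x` at these places satisfy a linear recurrence of order `m` over `ℚ` (which
may depend on the stretch). So the first `N` digits are cut at the places in `E` into pieces of linear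
complexity at most `m`. -/
def Cut (b : ℕ) (x : ℝ) (N m : ℕ) (E : Finset ℕ) : Prop :=
  ∀ u v, u ≤ v → v ≤ N → (∀ i ∈ E, i < u ∨ v ≤ i) → ∃ c : ℕ → ℚ, ∀ i, u ≤ i → i + m < v →
    (digit b x (i + m + 1) : ℚ) = ∑ l ∈ range m, c l * (digit b x (i + l + 1) : ℚ)

/-- The inequality for predictors, `μ = 230`, `K` = the constant. -/
def PredictorBound (K x : ℝ) : Prop :=
  ∀ b : ℕ, 2 ≤ b → ∀ (Q : ℕ) (δ : Fin Q → ℤ → Fin Q) (q₀ : Fin Q) (out : Fin Q → ℤ) (N : ℕ),
    (N : ℝ) ≤ (∑ i ∈ range (errors δ q₀ out (digit b x) N + 1), (230 : ℝ) ^ (i + 1)) * (Q + K)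

/-- The inequality for pieces, `μ = 230`, `C` and `K` the constants. -/
def PiecesBound (C K x : ℝ) : Prop :=
  ∀ b : ℕ, 2 ≤ b → ∀ (N m : ℕ) (E : Finset ℕ), Cut b x N m E →
    (N : ℝ) ≤ (∑ i ∈ range (E.card + 1), (230 : ℝ) ^ (i + 1)) *
      (m + C * Real.sqrt (((m : ℝ) + 1) * Real.log ((m : ℝ) + 2)) + K)

/-- The first `N` digits of `x` in base `b` are not cut at `c log N` or fewer places into pieces which
satisfy linear recurrences of order at most `N ^ θ`, and every automaton with at most `N ^ θ` states makes more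
than `c log N` errors on them. -/
def Rough (θ c : ℝ) (b N : ℕ) (x : ℝ) : Prop :=
  (∀ (m : ℕ) (E : Finset ℕ), (m : ℝ) ≤ (N : ℝ) ^ θ → (E.card : ℝ) ≤ c * Real.log N → ¬ Cut b x N m E) ∧
  ∀ (Q : ℕ) (δ : Fin Q → ℤ → Fin Q) (q₀ : Fin Q) (out : Fin Q → ℤ), (Q : ℝ) ≤ (N : ℝ) ^ θ →
    c * Real.log N < errors δ q₀ out (digit b x) N

theorem run_eq {Q : ℕ} (δ : Fin Q → ℤ → Fin Q) (q₀ : Fin Q) (d : ℕ → ℤ) (n : ℕ) :
    run δ q₀ d n = Pool.Agent.R473.FP.run δ q₀ d n := by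
  induction n with
  | zero => rfl
  | succ n ih =>
    change δ (run δ q₀ d n) (d (n + 1)) = δ (Pool.Agent.R473.FP.run δ q₀ d n) (d (n + 1))
    rw [ih]

theorem errors_eq {Q : ℕ} (δ : Fin Q → ℤ → Fin Q) (q₀ : Fin Q) (out : Fin Q → ℤ) (d : ℕ → ℤ)
    (N : ℕ) : errors δ q₀ out d N = Pool.Agent.R473.FP.errors δ q₀ out d N := by
  unfold errors Pool.Agent.R473.FP.errors
  simp only [run_eq]

theorem cut_fs (b : ℕ) (x : ℝ) {Q : ℕ} (δ : Fin Q → ℤ → Fin Q) (q₀ : Fin Q) (out : Fin Q → ℤ)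
    (N : ℕ) : ∃ E : Finset ℕ, E.card = errors δ q₀ out (digit b x) N ∧ Cut b x N Q E := by
  refine ⟨_, ?_, Pool.Agent.U455.JM.cut_of_fs b x δ q₀ out N⟩
  rw [errors_eq]
  rfl

/-- from a measure with the constant `c0` -/
theorem bounds (x c0 : ℝ) (hc0 : 0 < c0)
    (hM : ∀ q : ℕ, 1 ≤ q → ∀ p : ℤ, c0 ≤ (q : ℝ) ^ 229 * |q * x - p|) :
    PredictorBound (3 * |Real.log c0| + 1) x ∧ ∀ b : ℕ, 2 ≤ b → ∀ (N m : ℕ) (E : Finset ℕ),
      Cut b x N m E → (N : ℝ) ≤ (∑ i ∈ range (E.card + 1), (230 : ℝ) ^ (i + 1)) *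
        ((m : ℝ) + 15 * Pool.Agent.W47.JL.err m + 3 * |Real.log c0| + 3) := by
  have hM' : ∀ q : ℕ, 1 ≤ q → ∀ p : ℤ, c0 ≤ (q : ℝ) ^ ((230 : ℝ) - 1) * |q * x - p| := by
    intro q hq p
    have e : (q : ℝ) ^ ((230 : ℝ) - 1) = (q : ℝ) ^ 229 := by
      rw [show (230 : ℝ) - 1 = ((229 : ℕ) : ℝ) by norm_num, Real.rpow_natCast]
    rw [e]
    exact hM q hq p
  refine ⟨fun b hb Q δ q₀ out N => ?_, fun b hb N m E hE => ?_⟩
  · have h := Pool.Agent.U455.JX.fs_exp x 230 c0 (by norm_num) hc0 hM' b hb Q δ q₀ out N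
    rw [errors_eq, ← add_assoc]
    exact h
  · exact Pool.Agent.U455.JX.cut1_exp 230 c0 (by norm_num) hc0 x hM' b hb N m E hE

/-- the measure of the linear forms -/
theorem form_meas : ∃ c : ℝ, 0 < c ∧ c ≤ 1 ∧ ∀ H : ℝ, 1 ≤ H → ∀ a b d D : ℤ, d ≠ 0 → 1 ≤ D →
    |(b : ℝ)| ≤ H → |(d : ℝ)| ≤ H → (D : ℝ) ≤ H → ∀ q : ℕ, 1 ≤ q → ∀ p : ℤ,
      c / H ^ 230 ≤ (q : ℝ) ^ 229 * |q * ((a + b * Real.pi ^ 2 + d * z3) / D) - p| := by
  obtain ⟨c, hc, h⟩ := base
  refine ⟨min 1 c, lt_min one_pos hc, min_le_left _ _, fun H hH a b d D hd hD hb hdH hDH q hq p => ?_⟩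
  have hH0 : 0 < H := by linarith
  have hqR : (1 : ℝ) ≤ q := by exact_mod_cast hq
  have hq0 : (0 : ℝ) < q := by linarith
  have hDR : (1 : ℝ) ≤ D := by exact_mod_cast hD
  have hD0 : (0 : ℝ) < D := by linarith
  have h1 := h (q * a - p * D) (q * b) (q * d) (mul_ne_zero (by exact_mod_cast (by omega : q ≠ 0)) hd)
    (q * H) (by
      push_cast
      rw [abs_mul, abs_of_pos hq0]
      exact mul_le_mul_of_nonneg_left hb hq0.le) (by
      push_cast
      rw [abs_mul, abs_of_pos hq0]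
      exact mul_le_mul_of_nonneg_left hdH hq0.le)
  have e1 : ((q * a - p * D : ℤ) : ℝ) + ((q * b : ℤ) : ℝ) * Real.pi ^ 2 + ((q * d : ℤ) : ℝ) *
      Pool.Agent.Results.MP_a89d6d_nt.ExplicitMeasure.z3 =
      D * (q * ((a + b * Real.pi ^ 2 + d * z3) / D) - p) := by
    have e2 : Pool.Agent.Results.MP_a89d6d_nt.ExplicitMeasure.z3 = z3 := rfl
    rw [e2]
    push_cast
    field_simp
    ring
  rw [e1, abs_mul, abs_of_pos hD0] at h1
  have hdq : |((q * d : ℤ) : ℝ)| ≤ q * H := by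
    push_cast
    rw [abs_mul, abs_of_pos hq0]
    exact mul_le_mul_of_nonneg_left hdH hq0.le
  have hdq0 : 0 < |((q * d : ℤ) : ℝ)| := by
    rw [abs_pos]
    exact_mod_cast mul_ne_zero (by exact_mod_cast (by omega : q ≠ 0)) hd
  have h2 : c / ((q * H) ^ 141 * (q * H) ^ 88) ≤
      D * |q * ((a + b * Real.pi ^ 2 + d * z3) / D) - p| := by
    refine le_trans ?_ h1
    apply div_le_div_of_nonneg_left hc.le (by positivity)
    gcongr
  have h3 : c / ((q * H) ^ 141 * (q * H) ^ 88) = c / ((q : ℝ) ^ 229 * H ^ 229) := by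
    rw [← pow_add, mul_pow]
  rw [h3, div_le_iff₀ (by positivity)] at h2
  obtain ⟨w, hw⟩ : ∃ w : ℝ, w = |q * ((a + b * Real.pi ^ 2 + d * z3) / D) - p| := ⟨_, rfl⟩
  rw [← hw] at h2 ⊢
  have hw0 : 0 ≤ w := by rw [hw]; exact abs_nonneg _
  rw [div_le_iff₀ (by positivity)]
  calc min 1 c ≤ c := min_le_right _ _
    _ ≤ D * w * ((q : ℝ) ^ 229 * H ^ 229) := h2
    _ ≤ H * w * ((q : ℝ) ^ 229 * H ^ 229) := by gcongr
    _ = (q : ℝ) ^ 229 * w * H ^ 230 := by ring

theorem log_c0 (c H : ℝ) (hc : 0 < c) (hc1 : c ≤ 1) (hH : 1 ≤ H) :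
    |Real.log (c / H ^ 230)| = |Real.log c| + 230 * Real.log H := by
  have hH0 : 0 < H := by linarith
  have h1 : Real.log (c / H ^ 230) = Real.log c - 230 * Real.log H := by
    rw [Real.log_div hc.ne' (by positivity), Real.log_pow]
    norm_num
  have h2 : Real.log c ≤ 0 := Real.log_nonpos hc.le hc1
  have h3 : 0 ≤ Real.log H := Real.log_nonneg hH
  rw [h1, abs_of_nonpos (by linarith), abs_of_nonpos h2]
  ring

/-- **The digits of the linear forms in `1, π²` and `ζ(3)`**; see the header. -/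
theorem result :
    (∃ C : ℝ, 0 < C ∧ ∀ H : ℝ, 1 ≤ H → ∀ a b d D : ℤ, d ≠ 0 → 1 ≤ D →
      |(b : ℝ)| ≤ H → |(d : ℝ)| ≤ H → (D : ℝ) ≤ H →
      PredictorBound (C + 690 * Real.log H) ((a + b * Real.pi ^ 2 + d * z3) / D) ∧
      PiecesBound C (690 * Real.log H) ((a + b * Real.pi ^ 2 + d * z3) / D)) ∧
    (∀ θ c : ℝ, 0 ≤ θ → 0 ≤ c → θ + c * Real.log 230 < 1 → ∃ N₀ : ℕ, ∀ N : ℕ, N₀ ≤ N →
      ∀ a b d D : ℤ, d ≠ 0 → 1 ≤ D → |(b : ℝ)| ≤ Real.exp ((N : ℝ) ^ θ) →
        |(d : ℝ)| ≤ Real.exp ((N : ℝ) ^ θ) → (D : ℝ) ≤ Real.exp ((N : ℝ) ^ θ) → ∀ β : ℕ, 2 ≤ β →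
        Rough θ c β N ((a + b * Real.pi ^ 2 + d * z3) / D)) ∧
    (∀ a₁ b₁ c₁ a₂ b₂ c₂ : ℤ, (c₁ ≠ 0 ∨ c₂ ≠ 0) →
      Irrational (((a₁ : ℝ) + b₁ * Real.pi ^ 2 + c₁ * z3) / (a₂ + b₂ * Real.pi ^ 2 + c₂ * z3)) →
      ∃ C : ℝ, 0 < C ∧ PredictorBound C
          (((a₁ : ℝ) + b₁ * Real.pi ^ 2 + c₁ * z3) / (a₂ + b₂ * Real.pi ^ 2 + c₂ * z3)) ∧
        PiecesBound C 0
          (((a₁ : ℝ) + b₁ * Real.pi ^ 2 + c₁ * z3) / (a₂ + b₂ * Real.pi ^ 2 + c₂ * z3))) := by
  have hpb : ∀ (x K L : ℝ), 0 ≤ K → (∀ b : ℕ, 2 ≤ b → ∀ (N m : ℕ) (E : Finset ℕ), Cut b x N m E →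
      (N : ℝ) ≤ (∑ i ∈ range (E.card + 1), (230 : ℝ) ^ (i + 1)) *
        ((m : ℝ) + 15 * Pool.Agent.W47.JL.err m + (K + L))) → PiecesBound (15 + 2 * K) L x := by
    intro x K L hK h b hb N m E hE
    refine (h b hb N m E hE).trans (mul_le_mul_of_nonneg_left ?_
      (Finset.sum_nonneg fun i _ => by positivity))
    have h1 := Pool.Agent.W47.JL.err_ge m
    have h2 : K ≤ 2 * K * Pool.Agent.W47.JL.err m := by nlinarith
    have e : Real.sqrt (((m : ℝ) + 1) * Real.log ((m : ℝ) + 2)) = Pool.Agent.W47.JL.err m := rfl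
    rw [e]
    linarith
  have part1 : ∃ C : ℝ, 0 < C ∧ ∀ H : ℝ, 1 ≤ H → ∀ a b d D : ℤ, d ≠ 0 → 1 ≤ D →
      |(b : ℝ)| ≤ H → |(d : ℝ)| ≤ H → (D : ℝ) ≤ H →
      PredictorBound (C + 690 * Real.log H) ((a + b * Real.pi ^ 2 + d * z3) / D) ∧
      PiecesBound C (690 * Real.log H) ((a + b * Real.pi ^ 2 + d * z3) / D) := by
    obtain ⟨c, hc, hc1, hM⟩ := form_meas
    obtain ⟨K, hK⟩ : ∃ K : ℝ, K = 3 * |Real.log c| + 3 := ⟨_, rfl⟩
    have hK0 : 0 ≤ K := by rw [hK]; positivity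
    refine ⟨15 + 2 * K, by positivity, fun H hH a b d D hd hD hb hdH hDH => ?_⟩
    have hH0 : 0 < H := by linarith
    obtain ⟨h1, h2⟩ := bounds ((a + b * Real.pi ^ 2 + d * z3) / D) (c / H ^ 230) (by positivity)
      (hM H hH a b d D hd hD hb hdH hDH)
    rw [log_c0 c H hc hc1 hH] at h1 h2
    refine ⟨fun β hβ Q δ q₀ out N => ?_, hpb _ K _ hK0 fun β hβ N m E hE => ?_⟩
    · refine (h1 β hβ Q δ q₀ out N).trans (mul_le_mul_of_nonneg_left ?_
        (Finset.sum_nonneg fun i _ => by positivity))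
      linarith
    · refine (h2 β hβ N m E hE).trans (mul_le_mul_of_nonneg_left ?_
        (Finset.sum_nonneg fun i _ => by positivity))
      linarith
  refine ⟨part1, ?_, ?_⟩
  · intro θ c hθ hc hlt
    obtain ⟨C, hC, H1⟩ := part1
    obtain ⟨N₀, hN₀, H2⟩ := Pool.Agent.U455.JX.large 230 θ c (1 + 2 * C + 690) (by norm_num)
      hc (by positivity) (by linarith)
    refine ⟨N₀, fun N hN a b d D hd hD hb hdH hDH β hβ => ?_⟩
    have hN1 : 1 ≤ N := by omega
    have hNR : (1 : ℝ) ≤ N := by exact_mod_cast hN1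
    have hNθ : (1 : ℝ) ≤ (N : ℝ) ^ θ := Real.one_le_rpow hNR hθ
    have hH : 1 ≤ Real.exp ((N : ℝ) ^ θ) := Real.one_le_exp (by linarith)
    obtain ⟨-, h1⟩ := H1 _ hH a b d D hd hD hb hdH hDH
    have hcut : ∀ (m : ℕ) (E : Finset ℕ), (m : ℝ) ≤ (N : ℝ) ^ θ → (E.card : ℝ) ≤ c * Real.log N →
        ¬ Cut β ((a + b * Real.pi ^ 2 + d * z3) / D) N m E := by
      intro m E hm hE hcut
      refine H2 N hN E.card hE ((h1 β hβ N m E hcut).trans ?_)
      refine mul_le_mul_of_nonneg_left ?_ (Finset.sum_nonneg fun i _ => by positivity)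
      have h2 := Pool.Agent.N553.PC.err_le m
      have e : Real.sqrt (((m : ℝ) + 1) * Real.log ((m : ℝ) + 2)) = Pool.Agent.W47.JL.err m := rfl
      rw [Real.log_exp, e]
      have h3 : C * Pool.Agent.W47.JL.err m ≤ C * (2 * (N : ℝ) ^ θ) :=
        mul_le_mul_of_nonneg_left (by linarith) hC.le
      nlinarith
    refine ⟨hcut, fun Q δ q₀ out hQ => ?_⟩
    by_contra hcon
    push Not at hcon
    obtain ⟨E, hE, hcut'⟩ := cut_fs β ((a + b * Real.pi ^ 2 + d * z3) / D) δ q₀ out N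
    exact hcut Q E hQ (by rw [hE]; exact hcon) hcut'
  · intro a₁ b₁ c₁ a₂ b₂ c₂ hc hirr
    obtain ⟨C, hC, h⟩ := dist_low a₁ b₁ c₁ a₂ b₂ c₂ hc hirr
    obtain ⟨x, hx⟩ : ∃ x : ℝ, x = ((a₁ : ℝ) + b₁ * Real.pi ^ 2 + c₁ * z3) /
      (a₂ + b₂ * Real.pi ^ 2 + c₂ * z3) := ⟨_, rfl⟩
    have h' : ∀ (n : ℕ) (m : ℤ), 1 ≤ n → C / (n : ℝ) ^ 230 ≤ |x - m / n| := by
      rw [hx]
      exact h
    rw [← hx]
    obtain ⟨h1, h2⟩ := bounds x C hC (fun q hq p => by
      have h3 := h' q p hq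
      have hqR : (1 : ℝ) ≤ q := by exact_mod_cast hq
      have hq0 : (0 : ℝ) < q := by linarith
      rw [div_le_iff₀ (by positivity)] at h3
      have e : |x - p / q| * (q : ℝ) ^ 230 = (q : ℝ) ^ 229 * |q * x - p| := by
        have e1 : q * x - p = q * (x - p / q) := by field_simp
        rw [e1, abs_mul, abs_of_pos hq0]
        ring
      rw [e] at h3
      exact h3)
    obtain ⟨K, hK⟩ : ∃ K : ℝ, K = 3 * |Real.log C| + 3 := ⟨_, rfl⟩
    have hK0 : 0 ≤ K := by rw [hK]; positivity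
    refine ⟨15 + 2 * K, by positivity, fun β hβ Q δ q₀ out N => ?_, hpb _ K _ hK0
      fun β hβ N m E hE => ?_⟩
    · refine (h1 β hβ Q δ q₀ out N).trans (mul_le_mul_of_nonneg_left ?_
        (Finset.sum_nonneg fun i _ => by positivity))
      linarith
    · refine (h2 β hβ N m E hE).trans (mul_le_mul_of_nonneg_left ?_
        (Finset.sum_nonneg fun i _ => by positivity))
      linarith

end Pool.Agent.Results.MP_a89d6d_nt.DigitsOfForms
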