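import Pool.Agent.U21.TL.NZA

/-!
# A Neumann-Zagier law for the complexified volume conjecture along the odd integers

The definitions are in `Pool.Agent.TH563.UV.Arb` (weighted planar trees with crossing circles, the
coloured Jones polynomial of the arborescent link of a tree from the R-matrix of `U_q(sl_2)`, angle
structures of its complement and their volume), `Pool.Agent.N561.EK.ArbE` (`Twisted`, `AllTwisted`),
`Pool.Agent.TH563.CV.Dil` (the dilogarithm), `Pool.Agent.TH563.CV.Flat` (flattenings, the extended
Rogers dilogarithm, and Neumann's sum for the complex volume), `Pool.Agent.TH563.CV.CS` (`HasCS`),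
`Pool.Agent.U21.TL.Law` (`Fills`), `Pool.Agent.U21.TL.SecT` (`cusp`), `Pool.Agent.U21.TL.SecA`
(`childCusp`, `rootCusp`, `weightSum`) and `Pool.Agent.U21.TL.NZA` (`Marks`, `fillSum`, `lossAt`,
`lossBelow`, `loss`, `squares`, `NearBelow`, `Near`).
-/

set_option autoImplicit false

namespace Pool.Agent.Results.MP_b30479_gt.NeumannZagierOdd

open Finset Filter Topology Pool.Agent.TH563.UV.Arb Pool.Agent.TH563.CV
open Pool.Agent.N561.ArbK (AllTwisted)
open Pool.Agent.U21.TL

/-- The filter of the odd integers tending to infinity. -/
def oddTop : Filter ℕ := atTop ⊓ 𝓟 {n | Odd n}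

/-- `V + i C` is the complex volume of the complement of the link of `t`: `V` is the maximal volume of
the angle structures, and the numbers `C'` with `HasCS t V C'` (that is, `i (V + i C')` is, modulo
`π²`, the sum of the extended Rogers dilogarithms over the ideal tetrahedra of the complement, with
the shapes of an angle structure of volume `V` and with a flattening) are the numbers `C + k π²`. -/
def ComplexVolume (t : Tree) (V C : ℝ) : Prop :=
  IsGreatest {W : ℝ | ∃ y : AngleTree, y.tree = t ∧ IsAngle y ∧ vol y = W} V ∧
    ∀ C' : ℝ, HasCS t V C' ↔ ∃ k : ℤ, C' = C + k * Real.pi ^ 2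

/-- The complexified volume conjecture along the odd integers for the link of `t`, with the volume
`V`: for all framings `e` and signs `f`, with `a_n = kashaev e f t n`, `a_n ≠ 0` for all large odd
`n`, and `a_{n+2} / a_n` tends to `exp ((V + i C) / π)` along odd `n` for a representative `C` of the
Chern-Simons invariant. -/
def AlongOdd (t : Tree) (V : ℝ) : Prop :=
  ∀ e f : ℤ, (∀ᶠ n : ℕ in oddTop, kashaev e f t n ≠ 0) ∧
    ∃ C : ℝ, HasCS t V C ∧
      Tendsto (fun n : ℕ => kashaev e f t (n + 2) / kashaev e f t n) oddTop
        (𝓝 (Complex.exp ((V + Complex.I * C) / Real.pi)))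

/-- **A Neumann-Zagier law for the limits of the Kashaev invariants along the odd integers.**  Let `s`
be a weighted planar tree with at least one edge in which every vertex has a crossing circle, or a
weight of absolute value at least `16`, or at least `32` neighbours.  There are complex numbers `τ_x`
at the vertices `x` of `s` (the tree `m`) with `|τ_x - n_x| ≤ 6 ∑_y 1 / (n_y² + a_y²)`, the sum over
the neighbours `y` of `x` without crossing circle, where `n` is the number of neighbours and `a` the
weight, such that the following holds.  Let `t` be any tree of this class obtained from `s` by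
filling crossing circles (at the filled vertices `x` the tree `t` has any weight `a'_x ≠ 0`; at
vertices with a crossing circle in both trees the weights may differ).  Then for both `s` and `t` the
invariants along the odd integers satisfy the complexified volume conjecture, with complex volumes
`V + i C` and `V' + i C'`, and for suitable representatives
`V' + i C' = V + i C - i π² (σ' - σ) / 2 - 2 π² ∑_x 1 / (τ_x - i a'_x)`
up to an error of at most `500 ∑_x n_x / (n_x² + a'_x²)²` (the sums are over the filled vertices, `σ`
and `σ'` are the sums of the weights of `s` and `t`). -/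
theorem result : ∀ s : Tree, AllTwisted s → 1 ≤ s.children →
    ∃ (V C : ℝ) (m : Marks), ComplexVolume s V C ∧ AlongOdd s V ∧ Near m s ∧
      ∀ t : Tree, Fills s t → AllTwisted t → ∃ V' C' : ℝ, ComplexVolume t V' C' ∧ AlongOdd t V' ∧
        ‖((V' : ℂ) + Complex.I * C') - (V + Complex.I * C -
          Complex.I * (Real.pi : ℂ) ^ 2 * (weightSum t - weightSum s : ℤ) / 2 -
          2 * (Real.pi : ℂ) ^ 2 * fillSum m s t)‖ ≤ 500 * loss s t := by
  intro s hs hc
  have hodd : oddTop ≤ atTop := inf_le_left
  have hpi : (Real.pi : ℂ) ≠ 0 := by exact_mod_cast Real.pi_ne_zero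
  have key : ∀ (t : Tree) (V : ℝ), (∀ e f : ℤ, ∃ (C' : ℝ) (y : ℕ → ℂ), HasCS t V C' ∧ y 0 ≠ 0 ∧
      Pool.Agent.W719.AX.EXY (kashaev e f t) ((V + Complex.I * C') / (2 * Real.pi)) y) →
      AlongOdd t V := by
    intro t V h e f
    obtain ⟨C, y, hC, hy, h⟩ := h e f
    obtain ⟨r1, _, r3, r4, _⟩ := Pool.Agent.W460.AX.rat _ _ y hy h
    refine ⟨hodd r1, C, hC, ?_⟩
    have e1 : ((V : ℂ) + Complex.I * C) / Real.pi =
        2 * (((V : ℂ) + Complex.I * C) / (2 * Real.pi)) := by
      field_simp
    rw [e1]
    exact r3.mono_left hodd
  obtain ⟨V, C, m, h1, h2, h3, h4, h5⟩ := neumann_zagier s hs hc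
  refine ⟨V, C, m, ⟨h1, h2⟩, key s V h3, h4, fun t hf ht => ?_⟩
  obtain ⟨V', C', g1, g2, g3, g4⟩ := h5 t hf ht
  exact ⟨V', C', ⟨g1, g2⟩, key t V' g3, g4⟩

end Pool.Agent.Results.MP_b30479_gt.NeumannZagierOdd
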