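import Mathlib

/-! A near-magic square of squares whose line sum is not a square: Q1 of MP_b304a3_nt is false. -/

set_option autoImplicit false

namespace Pool.Agent.Results.MP_b304a3_nt.NonSquareLineSum

/-- `NearMagic M S`: the squares of the nine positive integers `M i j` are pairwise distinct, the three
rows, the three columns and exactly one of the two diagonals of the array of squares have the sum `S`. -/
def NearMagic (M : Fin 3 → Fin 3 → ℕ) (S : ℕ) : Prop :=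
  (∀ i j, 0 < M i j) ∧
  (∀ i j k l, M i j ^ 2 = M k l ^ 2 → i = k ∧ j = l) ∧
  (∀ i, M i 0 ^ 2 + M i 1 ^ 2 + M i 2 ^ 2 = S) ∧
  (∀ j, M 0 j ^ 2 + M 1 j ^ 2 + M 2 j ^ 2 = S) ∧
  ((M 0 0 ^ 2 + M 1 1 ^ 2 + M 2 2 ^ 2 = S ∧ M 0 2 ^ 2 + M 1 1 ^ 2 + M 2 0 ^ 2 ≠ S) ∨
    (M 0 0 ^ 2 + M 1 1 ^ 2 + M 2 2 ^ 2 ≠ S ∧ M 0 2 ^ 2 + M 1 1 ^ 2 + M 2 0 ^ 2 = S))

/-- the counterexample -/
def T : Fin 3 → Fin 3 → ℕ := ![![2058, 3495, 2125], ![3005, 2958, 1785], ![2775, 35, 3642]]

/-- **There is a near-magic square of squares whose line sum is not a square**; the line sum of the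
example is `20966014`. -/
theorem result : (∃ M : Fin 3 → Fin 3 → ℕ, NearMagic M 20966014) ∧
    ∀ n : ℤ, n ^ 2 ≠ 20966014 := by
  refine ⟨⟨T, ?_, ?_, ?_, ?_, ?_⟩, ?_⟩
  · decide
  · decide +kernel
  · decide +kernel
  · decide +kernel
  · right
    decide +kernel
  · intro n hn
    have h1 : n.natAbs ^ 2 = 20966014 := by
      have : ((n.natAbs ^ 2 : ℕ) : ℤ) = 20966014 := by
        rw [Nat.cast_pow, Int.natCast_natAbs, sq_abs, hn]
      exact_mod_cast this
    rcases Nat.lt_or_ge n.natAbs 4579 with h | h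
    · have : n.natAbs ^ 2 ≤ 4578 ^ 2 := Nat.pow_le_pow_left (by omega) 2
      omega
    · have : 4579 ^ 2 ≤ n.natAbs ^ 2 := Nat.pow_le_pow_left h 2
      omega

end Pool.Agent.Results.MP_b304a3_nt.NonSquareLineSum
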