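import Mathlib
import Pool.Agent.TH899.UG.TD6
import Pool.Agent.U455.BS

/-!
# Boundedly many differences of primes at every scale sum to every multiple of twelve

For every `s > 0` there are `h` and `C` such that for every `q ≥ 1`, every `η > 0` and ALL large `x`: for every `a`
coprime to `q`, every `t` divisible by `6` with `C ≤ t` and `C q² t ≤ x` is a sum of at most `h` numbers `k ≥ 1` such
that the window `[x, (1 + s) x]` contains at least `x ^ (1 - η)` pairs of primes `p, p + 2 q k` with `p ≡ a (mod q)`.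

Proof: `Pool.Agent.TH899.UG.TD.thirdq` (almost a third of the multiples of every number, for every scale) and
`Pool.Agent.U455.BS.main` (residues from the elements up to `C`, and a theorem of Schnirelmann for the multiples of the
least element).
-/

set_option autoImplicit false

namespace Pool.Agent.Results.MP_b51559_nt.BoundedSumsEveryScale

open Finset Filter

theorem result (s : ℝ) (hs : 0 < s) : ∃ h C : ℕ, ∀ q : ℕ, 1 ≤ q → ∀ η : ℝ, 0 < η →
    ∀ᶠ x : ℕ in atTop, ∀ a : ℕ, a.Coprime q → ∀ t : ℕ, 6 ∣ t → C ≤ t → C * (q ^ 2 * t) ≤ x →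
    ∃ l : List ℕ, l.length ≤ h ∧ l.sum = t ∧ ∀ k ∈ l, 1 ≤ k ∧ (x : ℝ) ^ (1 - η) ≤
      ({p : ℕ | p.Prime ∧ (p + 2 * q * k).Prime ∧ p ≡ a [MOD q] ∧ (x : ℝ) ≤ p ∧
        ((p + 2 * q * k : ℕ) : ℝ) ≤ (1 + s) * x}.ncard : ℝ) := by
  classical
  obtain ⟨C₀, hC₀⟩ := Pool.Agent.TH899.UG.TD.thirdq (1 / 24) s (by norm_num) hs
  obtain ⟨h, C', hmain⟩ := Pool.Agent.U455.BS.main (C₀ + 1) (C₀ + 1) (1 / 3 - 1 / 24) (by omega) (by omega)
    (by norm_num)
  refine ⟨h, C' + C₀ + 1, fun q hq η hη => ?_⟩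
  filter_upwards [hC₀ q hq η hη] with x hx a ha t h6 htC htx
  obtain ⟨l, hl1, hl2, hl3⟩ := hmain (fun k => (x : ℝ) ^ (1 - η) ≤
      (Pool.Agent.TH899.UG.TD.prq s x q a (2 * q * k) : ℝ)) t (by
      intro H h1 h2
      have h3 := hx a ha 1 H le_rfl (by omega) (by
        refine le_trans ?_ htx
        rw [mul_one]
        exact Nat.mul_le_mul (by omega) (Nat.mul_le_mul_left _ h2))
      simp only [mul_one] at h3
      convert h3 using 2) (by
      intro b H h1 h2 h3 h4
      have h5 := hx a ha b H h1 (by omega) (by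
        refine le_trans ?_ htx
        rw [mul_assoc]
        exact Nat.mul_le_mul (by omega) (Nat.mul_le_mul_left _ h4))
      simp only [mul_assoc] at h5 ⊢
      convert h5 using 2) t h6 (by omega) le_rfl
  exact ⟨l, hl1, hl3, fun k hk => ⟨(hl2 k hk).2, (hl2 k hk).1⟩⟩

end Pool.Agent.Results.MP_b51559_nt.BoundedSumsEveryScale
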