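import Pool.Agent.U926.SF.Vo

/-!
# Homologically trivial cycles on hypersurfaces `g_0 + ⋯ + g_r = 0` of odd dimension

Let `k` be an algebraically closed field of characteristic zero (for instance `ℂ`), and let
`g_0, …, g_r` be nonsingular forms of degree `d ≥ 2` in separate sets of variables, each in at most two
variables, or (if `d = 3`) in at most five variables. Let `X` be the hypersurface
`g_0(x^(0)) + g_1(x^(1)) + ⋯ + g_r(x^(r)) = 0`. There is no restriction on the number of the forms, so
the dimension of `X` is arbitrary.

**Theorem.** (1) If the dimension of `X` is odd, then the conjecture of Voevodsky holds for `X` in all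
codimensions: every homologically trivial cycle on `X` is smash-nilpotent.
(2) The same is true for every variety which is built from such hypersurfaces and from varieties for
which the conjecture is known (points, curves, surfaces, abelian threefolds, …): for example for the
coverings `w ^ m = F(x)` of odd-dimensional projective spaces, `m` a divisor of `d` and
`F = g_0 + ⋯ + g_r` (for `m = 2` these are hyperelliptic; Calabi-Yau for `d` twice the number of the
variables), for projective bundles over `X`, and for blow-ups of `X` in surfaces.

The case of one form (`r = 0`) is known: plane curves and cubic threefolds. The Fermat hypersurfaces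
are the case of forms in one variable; the hypersurfaces with binary forms are dominated by products
of curves (Katsura, Shioda, Schoen).

The setting: `𝒱` is a class of smooth projective varieties over `k` closed under products, `C` the Chow
groups with rational coefficients (`IsChowProj`), `H` a Weil cohomology (`IsWeilProj`; for the problem
Betti cohomology), in the form of their formal properties; `T.V F` is the hypersurface `F = 0` and
`T.h F` the class of a hyperplane section. The known theorems which are used:

* `hT`, the theorem of Katsura and Shioda: `f(x) + g(y) = 0` is dominated by the product of
  `f(x) + z ^ d = 0` and `g(y) + w ^ d = 0`, blown up in the product of `f(x) = 0` and `g(y) = 0`;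
* `hP`: degree of the hyperplane class and the Lefschetz theorem;
* `hK`: the motives of cubic surfaces and cubic threefolds are direct summands of sums of Tate twists of
  motives of curves;
* `hK'`: the cubic fourfolds `f(x_0, …, x_4) + z ^ 3 = 0` have motives of abelian type (Laterveer, van
  Geemen and Izadi);
* `hO`: the theorems of Kimura on finite-dimensional motives.

The proof: by induction on the number of forms (`(f + g) + z ^ d = f + (g + z ^ d)`) all hypersurfaces
`X` are built from products of curves, so their Chow motives are finite-dimensional. If the dimension
is odd, the motive of `X` without the powers of `h` has only cohomology of odd degree, and contains all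
homologically trivial cycles. Smash-nilpotence passes to varieties built from others, since it is the
intersection of the prime adequate equivalence relations.
-/

universe u v w

namespace Pool.Agent.Results.MP_bf8edd_ag.OddDimensionalSums

open Pool.Agent.H914 Pool.Agent.W492.BB Pool.Agent.TH133 Pool.Agent.U926.HC Pool.Agent.U926.SF

/-- **Voevodsky's conjecture** (homological form) for the hypersurfaces `g_0 + ⋯ + g_r = 0` of odd
dimension with equations in separate sets of variables, and for the varieties which are built from
them and from varieties for which the conjecture is known. -/
theorem result {k : Type u} [Field k] [IsAlgClosed k] [CharZero k] {𝒱 : VarClass k}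
    {C : TheoryData.{u, v, 0} 𝒱 ℚ} [IsChowProj C] {K : Type w} [Field K]
    {H : WeilTheoryData.{u, v, w} C K} [IsWeilProj H] (T : HypersurfaceData C)
    (hT : ∀ d : ℕ, 2 ≤ d → IsKatsuraShioda C (hyp T) d)
    (hP : ∀ d : ℕ, 2 ≤ d → IsProjectiveTheory H T d) (hK : CubicsHaveCurveMotives C (hyp T))
    (hK' : CyclicFourfoldsHaveCurveMotives C (hyp T)) (hO : OddKimuraTheorem H) :
    (∀ X : 𝒱.Obj, IsOddSum T X → VoevodskyHom H X) ∧
      ∀ X : 𝒱.Obj, IsBuiltFrom C (fun Y => IsOddSum T Y ∨ VoevodskyHom H Y) X →
        VoevodskyHom H X :=
  ⟨fun _ hX => (hX.voevodskyNum hT hP hK hK' hO).hom, fun _ hX =>
    .of_isBuiltFrom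
      (fun _ hY => hY.elim (fun h => (h.voevodskyNum hT hP hK hK' hO).hom) id) hX⟩

end Pool.Agent.Results.MP_bf8edd_ag.OddDimensionalSums
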