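import Mathlib
import Pool.Agent.U462.Sh.ZInst

set_option autoImplicit false

/-!
# The two shapes of prime triples and the Hardy–Littlewood law
-/

namespace Pool.Agent.Results.MP_c0d11e_nt.ShapesIndependent

open Finset Filter
open scoped Topology
open Pool.Agent.U462.Sh.Law

/-- **The two shapes of triples are independent of each other and of all other systems.** For each of the
four combinations there is a set of rough numbers `≥ 2` with the uniform Hardy–Littlewood law for all
systems which contain no forbidden shape: no shape is forbidden, `(0, 2, 6)` is forbidden and does not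
occur, `(0, 4, 6)` is forbidden and does not occur, both are forbidden and do not occur. -/
theorem result : ∀ A B : Prop, ∃ S : Set ℕ, (∀ m ∈ S, 2 ≤ m ∧ Rough m) ∧
    (A → ∀ t ∈ S, ¬ (t + 2 ∈ S ∧ t + 6 ∈ S)) ∧ (B → ∀ t ∈ S, ¬ (t + 4 ∈ S ∧ t + 6 ∈ S)) ∧
    Law S (fun L => (A → ¬ ∃ a b : ℤ, (a, b) ∈ L ∧ (a, b + 2) ∈ L ∧ (a, b + 6) ∈ L) ∧
      (B → ¬ ∃ a b : ℤ, (a, b) ∈ L ∧ (a, b + 4) ∈ L ∧ (a, b + 6) ∈ L)) := by
  classical
  intro A B
  obtain ⟨S, h1, h2, h3⟩ := Pool.Agent.U462.Sh.shifts
    ((if A then {{0, 2, 6}} else ∅) ∪ (if B then {{0, 4, 6}} else ∅)) (by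
    intro D hD
    rw [mem_union] at hD
    rcases hD with hD | hD
    · split_ifs at hD with h
      · rw [mem_singleton] at hD; subst hD; simp
      · exact absurd hD (notMem_empty _)
    · split_ifs at hD with h
      · rw [mem_singleton] at hD; subst hD; simp
      · exact absurd hD (notMem_empty _))
  refine ⟨S, h1, ?_, ?_, Pool.Agent.U462.Sh.law_mono ?_ h3⟩
  · rintro hA t ht ⟨h4, h5⟩
    apply h2 {0, 2, 6} (by simp [hA]) t
    simp only [mem_insert, mem_singleton]
    rintro d (rfl | rfl | rfl)
    exacts [ht, h4, h5]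
  · rintro hB t ht ⟨h4, h5⟩
    apply h2 {0, 4, 6} (by simp [hB]) t
    simp only [mem_insert, mem_singleton]
    rintro d (rfl | rfl | rfl)
    exacts [ht, h4, h5]
  · rintro L ⟨hLA, hLB⟩ D hD
    rw [mem_union] at hD
    rcases hD with hD | hD
    · split_ifs at hD with hA
      · rw [mem_singleton] at hD
        subst hD
        rintro ⟨a, b, h4⟩
        refine hLA hA ⟨a, b, ?_, ?_, ?_⟩
        · simpa using h4 0 (by simp)
        · simpa using h4 2 (by simp)
        · simpa using h4 6 (by simp)
      · exact absurd hD (notMem_empty _)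
    · split_ifs at hD with hB
      · rw [mem_singleton] at hD
        subst hD
        rintro ⟨a, b, h4⟩
        refine hLB hB ⟨a, b, ?_, ?_, ?_⟩
        · simpa using h4 0 (by simp)
        · simpa using h4 4 (by simp)
        · simpa using h4 6 (by simp)
      · exact absurd hD (notMem_empty _)

end Pool.Agent.Results.MP_c0d11e_nt.ShapesIndependent
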