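import Pool.Agent.U847.ChK
import Pool.Agent.Results.MP_77cbc6_nt.ExactChainsAnyLaw
import Pool.Agent.Results.MP_39b545_nt.ExactChainsAnyLaw

/-!
# Chains of primes of both kinds: for almost all multiples `N` of random integers with decaying characteristic functions the two
kinds of chains of every exact length are equally frequent

Chains of primes `x_0 = p`, `x_{j+1} = 2 x_j + σ + N_j`, `σ = 1` (first kind) and `σ = -1` (second kind), with the even numbers
`N_j = h M (c_j + κ_j v_j)`, where the `v_j` are independent random integers with digits in base `b` whose characteristic functions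
decay exponentially in the number of the digits at which the frequency is not near a rational number with a bounded denominator.

The laws for one kind are the hand-ins MP_77cbc6_nt.ExactChainsAnyLaw and MP_39b545_nt.ExactChainsAnyLaw. New here: the
numbers of the admissible primes of the two kinds are asymptotically equal (`Pool.Agent.U847.ChK`), by the theorem of Siegel and
Walfisz and the bijection `c ↦ -c` between the admissible classes.
-/

set_option autoImplicit false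

namespace Pool.Agent.Results.MP_c183ae_nt.BothKindsEquallyOften

open Finset

open Classical in
/-- the number of the positions `j < k` for which `M b^j θ` has distance at least `δ` from all the integers -/
noncomputable def farPos (b M k : ℕ) (δ θ : ℝ) : ℕ :=
  ((range k).filter (fun j : ℕ => ∀ n : ℤ, δ ≤ |(M : ℝ) * (b : ℝ) ^ j * θ - n|)).card

/-- a family of laws of random integers `0 ≤ v < b^k`: `C k p` says that the law `p` belongs to the family. The condition: the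
characteristic functions decay exponentially in the number of the far positions, `|E e(v θ)| ≤ (k+2)^T μ^farPos` for all `θ` -/
structure Decay (b M : ℕ) (C : ℕ → (ℕ → ℝ) → Prop) : Prop where
  nonneg : ∀ k p, C k p → ∀ v, 0 ≤ p v
  sum : ∀ k p, C k p → ∑ v ∈ range (b ^ k), p v = 1
  decay : ∀ δ : ℝ, 0 < δ → ∃ (μ : ℝ) (T : ℕ), 0 < μ ∧ μ < 1 ∧ ∀ k p, C k p → ∀ θ : ℝ,
    ‖∑ v ∈ range (b ^ k), (p v : ℂ) * Complex.exp (2 * Real.pi * Complex.I * (v * θ))‖ ≤ ((k : ℝ) + 2) ^ T * μ ^ farPos b M k δ θ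

/-- the product of `1 - 1/q` over the primes `q ≤ y` -/
noncomputable def V (y : ℕ) : ℝ := ∏ q ∈ (Icc 1 y).filter Nat.Prime, (1 - 1 / (q : ℝ))

/-- the multiple of the product of the primes `≤ y` given by the integers `h` and `c + κ v` -/
def Nv (y h : ℕ) (c κ : ℤ) (v : ℕ) : ℤ := ((primorial y * h : ℕ) : ℤ) * (c + κ * v)

/-- the sequence `x_0 = p`, `x_{j+1} = 2 x_j + σ + N_j` -/
def chain {r : ℕ} (σ : ℤ) (N : Fin r → ℤ) (p : ℤ) : ℕ → ℤ
  | 0 => p
  | j + 1 => 2 * chain σ N p j + σ + (if h : j < r then N ⟨j, h⟩ else 0)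

/-- the primes `p ≤ x` such that the terms `2 ^ j * (p + 1) - 1`, `1 ≤ j ≤ s`, of the Cunningham sequence of the first kind are
prime to `D` -/
def Adm (D s x : ℕ) : Finset ℕ := (Icc 1 x).filter (fun p : ℕ => p.Prime ∧ ∀ j ∈ Icc 1 s, (2 ^ j * (p + 1) - 1).Coprime D)

open Classical in
/-- the primes `p ≤ x` such that the terms `x_1, ..., x_s` of the sequence are primes and `x_{s+1}` is not a prime -/
noncomputable def Exact {r : ℕ} (σ : ℤ) (N : Fin r → ℤ) (s x : ℕ) : Finset ℕ :=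
  (Icc 1 x).filter (fun p : ℕ => (p.Prime ∧ ∀ j ∈ Icc 1 s, (chain σ N p j).toNat.Prime) ∧ ¬ (chain σ N p (s + 1)).toNat.Prime)


lemma chain_one {r : ℕ} (N : Fin r → ℤ) (p : ℤ) (j : ℕ) :
    chain 1 N p j = Pool.Agent.Results.MP_77cbc6_nt.ExactChainsAnyLaw.chain N p j := by
  induction j with
  | zero => rfl
  | succ j ih =>
    simp only [chain, Pool.Agent.Results.MP_77cbc6_nt.ExactChainsAnyLaw.chain]
    rw [ih]

lemma chain_neg {r : ℕ} (N : Fin r → ℤ) (p : ℤ) (j : ℕ) :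
    chain (-1) N p j = Pool.Agent.Results.MP_39b545_nt.ExactChainsAnyLaw.chain N p j := by
  induction j with
  | zero => rfl
  | succ j ih =>
    simp only [chain, Pool.Agent.Results.MP_39b545_nt.ExactChainsAnyLaw.chain]
    rw [ih, sub_eq_add_neg]

lemma exact_one {r : ℕ} (N : Fin r → ℤ) (s x : ℕ) :
    (Exact 1 N s x).card = (Pool.Agent.Results.MP_77cbc6_nt.ExactChainsAnyLaw.Exact N s x).card := by
  congr 1
  unfold Exact Pool.Agent.Results.MP_77cbc6_nt.ExactChainsAnyLaw.Exact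
  simp only [chain_one]

lemma exact_neg {r : ℕ} (N : Fin r → ℤ) (s x : ℕ) :
    (Exact (-1) N s x).card = (Pool.Agent.Results.MP_39b545_nt.ExactChainsAnyLaw.Exact N s x).card := by
  congr 1
  unfold Exact Pool.Agent.Results.MP_39b545_nt.ExactChainsAnyLaw.Exact
  simp only [chain_neg]

open Classical in
/-- Let `Cl j` be families of laws of random integers with digits in base `b`, `Decay b M₀ (Cl j)`, let `d` be large, and let
`v j < b ^ d` be independent random integers with laws in the families. Let `r`, `κ j ≠ 0` for `j < r`, `B`, `J`, `C`, `K₁`, `θ > 0` and `0 < ε ≤ 1` be fixed, let `y` be between `θ log d` and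
`K₁ log d`, `M` the product of the primes `≤ y`, `1 ≤ h ≤ d ^ J`, `|c j| ≤ B b ^ d`,
`N_j = M h (c_j + κ_j v_j)`, and let `x` be any integer with `b ^ d ≤ x d ^ C`, `x ≤ b ^ d d ^ C`. For `s ≤ r` let `A_s` be the
number of the primes `p ≤ x` such that the terms `2 ^ j * (p + 1) - 1`, `1 ≤ j ≤ s`, are prime to `M h`; it is at least
`x / d ^ (2 K₁ + J + 3)`. Then with a probability of at least `1 - ε`: if all the `N_j` are positive, then for ALL `s < r` and for
BOTH kinds `σ = 1` and `σ = -1` at once the number of the primes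
`p ≤ x` such that `x_1, ..., x_s` are primes and `x_{s+1}` is not a prime (chains of the exact length `s + 1`) is `A_s / (V y log b ^ d) ^ s` up to a
relative error of at most `ε`, where `x_0 = p`, `x_{j+1} = 2 x_j + σ + N_j`. -/
theorem result (r : ℕ) (b M₀ : ℕ) (hb : 2 ≤ b) (hM₀ : 1 ≤ M₀) (Cl : Fin r → ℕ → (ℕ → ℝ) → Prop) (hC : ∀ j, Decay b M₀ (Cl j))
    (κ : Fin r → ℤ) (hκ : ∀ j, κ j ≠ 0) (B J C K₁ : ℕ) (θ : ℝ) (hθ : 0 < θ) (ε : ℝ) (hε : 0 < ε) (hε1 : ε ≤ 1) :
    ∃ d₀ : ℕ, ∀ d : ℕ, d₀ ≤ d → ∀ μ : Fin r → ℕ → ℝ, (∀ j, Cl j d (μ j)) →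
    ∀ y : ℕ, θ * Real.log d ≤ y → y ≤ K₁ * Real.log d → ∀ h : ℕ, 1 ≤ h → h ≤ d ^ J →
    ∀ x : ℕ, b ^ d ≤ x * d ^ C → x ≤ b ^ d * d ^ C → ∀ c : Fin r → ℤ, (∀ j, |c j| ≤ B * (b : ℤ) ^ d) →
      (∀ s ≤ r, (x : ℝ) ≤ (Adm (primorial y * h) s x).card * (d : ℝ) ^ (2 * K₁ + J + 3)) ∧
      ∑ v ∈ Fintype.piFinset (fun _ : Fin r => range (b ^ d)), (if ((∀ j, 0 < Nv y h (c j) (κ j) (v j)) → ∀ s < r,
          ∀ σ : ℤ, σ = 1 ∨ σ = -1 →
          |((Exact σ (fun j => Nv y h (c j) (κ j) (v j)) s x).card : ℝ) - (Adm (primorial y * h) s x).card / (V y * (d * Real.log b)) ^ s| ≤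
            ε * ((Adm (primorial y * h) s x).card / (V y * (d * Real.log b)) ^ s))
        then 0 else ∏ j, μ j (v j)) ≤ ε := by
  obtain ⟨d1, h1⟩ := Pool.Agent.Results.MP_77cbc6_nt.ExactChainsAnyLaw.result r b M₀ hb hM₀ Cl
    (fun j => ⟨(hC j).nonneg, (hC j).sum, (hC j).decay⟩) κ hκ B J C K₁ θ hθ (ε / 2) (by linarith) (by linarith)
  obtain ⟨d2, h2⟩ := Pool.Agent.Results.MP_39b545_nt.ExactChainsAnyLaw.result r b M₀ hb hM₀ Cl
    (fun j => ⟨(hC j).nonneg, (hC j).sum, (hC j).decay⟩) κ hκ B J C K₁ θ hθ (ε / 4) (by linarith) (by linarith)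
  obtain ⟨d3, h3⟩ := Pool.Agent.U847.ChK.adm_near b C (2 * K₁ + J) (2 * K₁ + J + 3 + 1) hb
  obtain ⟨m, hm⟩ := exists_nat_ge (8 / ε)
  refine ⟨max (max d1 d2) (max d3 (m + 3)), fun d hd μ hμ y hy1 hy2 h hh1 hh2 x hx1 hx2 c hc => ?_⟩
  obtain ⟨a1, a2⟩ := h1 d (by omega) μ hμ y hy1 hy2 h hh1 hh2 x hx1 hx2 c hc
  obtain ⟨b1, b2⟩ := h2 d (by omega) μ hμ y hy1 hy2 h hh1 hh2 x hx1 hx2 c hc
  have hdm : (m : ℝ) ≤ d := by exact_mod_cast (by omega : m ≤ d)
  have hd3 : 3 ≤ d := by omega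
  have hdr : (3 : ℝ) ≤ d := by exact_mod_cast hd3
  refine ⟨a1, ?_⟩
  -- the comparison of the admissible primes
  have hcmp : ∀ s < r, |((Pool.Agent.Results.MP_39b545_nt.ExactChainsAnyLaw.Adm (primorial y * h) s x).card : ℝ) -
      (Adm (primorial y * h) s x).card| ≤ ε / 8 * (Adm (primorial y * h) s x).card := by
    intro s hs
    have g1 := h3 d (by omega) x hx1 hx2 (primorial y * h) (Nat.mul_pos (primorial_pos y) hh1)
      (Pool.Agent.N625.PT.mult_small K₁ J d y h hd3 hy2 hh2) 1 s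
    have g2 := a1 s hs.le
    rw [← Pool.Agent.Results.MP_77cbc6_nt.ExactChainsAnyLaw.adm_eq, ← Pool.Agent.Results.MP_39b545_nt.ExactChainsAnyLaw.adm_eq] at g1
    have g3 : (Adm (primorial y * h) s x) = Pool.Agent.Results.MP_77cbc6_nt.ExactChainsAnyLaw.Adm (primorial y * h) s x := rfl
    rw [← g3] at g1 g2
    obtain ⟨P, hP⟩ : ∃ P : ℝ, P = (Adm (primorial y * h) s x).card := ⟨_, rfl⟩
    obtain ⟨Q, hQ⟩ : ∃ Q : ℝ, Q = (Pool.Agent.Results.MP_39b545_nt.ExactChainsAnyLaw.Adm (primorial y * h) s x).card := ⟨_, rfl⟩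
    rw [← hP, ← hQ] at g1 ⊢
    rw [← hP] at g2
    have hP0 : 0 ≤ P := by rw [hP]; exact Nat.cast_nonneg _
    have hdp : (0 : ℝ) < (d : ℝ) ^ (2 * K₁ + J + 3) := by positivity
    have g4 : |P - Q| * d ≤ P := by
      refine le_of_mul_le_mul_right ?_ hdp
      calc |P - Q| * d * (d : ℝ) ^ (2 * K₁ + J + 3) = |P - Q| * (d : ℝ) ^ (2 * K₁ + J + 3 + 1) := by ring
        _ ≤ x := g1
        _ ≤ P * (d : ℝ) ^ (2 * K₁ + J + 3) := g2
    have g5 : 8 ≤ ε * d := by
      have := hm.trans hdm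
      rwa [div_le_iff₀ hε, mul_comm] at this
    rw [abs_sub_comm]
    nlinarith [abs_nonneg (P - Q)]
  have hQ0 : ∀ s : ℕ, 0 ≤ (V y * (d * Real.log b)) ^ s := by
    intro s
    have : 0 ≤ V y := by
      unfold V
      refine prod_nonneg fun q hq => ?_
      rw [mem_filter, mem_Icc] at hq
      have : (1 : ℝ) ≤ q := by exact_mod_cast hq.1.1
      have h4 : 1 / (q : ℝ) ≤ 1 := by rw [div_le_one (by linarith)]; exact this
      linarith
    have h5 : 0 ≤ Real.log b := Real.log_natCast_nonneg b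
    positivity
  have hfin : ∀ v : Fin r → ℕ, (if ((∀ j, 0 < Nv y h (c j) (κ j) (v j)) → ∀ s < r,
          ∀ σ : ℤ, σ = 1 ∨ σ = -1 →
          |((Exact σ (fun j => Nv y h (c j) (κ j) (v j)) s x).card : ℝ) - (Adm (primorial y * h) s x).card / (V y * (d * Real.log b)) ^ s| ≤
            ε * ((Adm (primorial y * h) s x).card / (V y * (d * Real.log b)) ^ s))
        then 0 else ∏ j, μ j (v j)) ≤
      (if ((∀ j, 0 < Pool.Agent.Results.MP_77cbc6_nt.ExactChainsAnyLaw.Nv y h (c j) (κ j) (v j)) → ∀ s < r,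
          |((Pool.Agent.Results.MP_77cbc6_nt.ExactChainsAnyLaw.Exact (fun j => Pool.Agent.Results.MP_77cbc6_nt.ExactChainsAnyLaw.Nv y h (c j) (κ j) (v j)) s x).card : ℝ) -
            (Pool.Agent.Results.MP_77cbc6_nt.ExactChainsAnyLaw.Adm (primorial y * h) s x).card / (Pool.Agent.Results.MP_77cbc6_nt.ExactChainsAnyLaw.V y * (d * Real.log b)) ^ s| ≤
            ε / 2 * ((Pool.Agent.Results.MP_77cbc6_nt.ExactChainsAnyLaw.Adm (primorial y * h) s x).card / (Pool.Agent.Results.MP_77cbc6_nt.ExactChainsAnyLaw.V y * (d * Real.log b)) ^ s))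
        then 0 else ∏ j, μ j (v j)) +
      (if ((∀ j, 0 < Pool.Agent.Results.MP_39b545_nt.ExactChainsAnyLaw.Nv y h (c j) (κ j) (v j)) → ∀ s < r,
          |((Pool.Agent.Results.MP_39b545_nt.ExactChainsAnyLaw.Exact (fun j => Pool.Agent.Results.MP_39b545_nt.ExactChainsAnyLaw.Nv y h (c j) (κ j) (v j)) s x).card : ℝ) -
            (Pool.Agent.Results.MP_39b545_nt.ExactChainsAnyLaw.Adm (primorial y * h) s x).card / (Pool.Agent.Results.MP_39b545_nt.ExactChainsAnyLaw.V y * (d * Real.log b)) ^ s| ≤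
            ε / 4 * ((Pool.Agent.Results.MP_39b545_nt.ExactChainsAnyLaw.Adm (primorial y * h) s x).card / (Pool.Agent.Results.MP_39b545_nt.ExactChainsAnyLaw.V y * (d * Real.log b)) ^ s))
        then 0 else ∏ j, μ j (v j)) := by
    intro v
    have hw0 : 0 ≤ ∏ j, μ j (v j) := prod_nonneg fun j _ => (hC j).nonneg _ _ (hμ j) _
    split_ifs with q0 q1 q2 q3 q4 q5 q6
    all_goals first
      | linarith
      | skip
    exfalso
    apply q0
    intro hpos s hs σ hσ
    have g1 := hcmp s hs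
    obtain ⟨P, hP⟩ : ∃ P : ℝ, P = (Adm (primorial y * h) s x).card := ⟨_, rfl⟩
    obtain ⟨Q, hQ⟩ : ∃ Q : ℝ, Q = (Pool.Agent.Results.MP_39b545_nt.ExactChainsAnyLaw.Adm (primorial y * h) s x).card := ⟨_, rfl⟩
    have hP0 : 0 ≤ P := by rw [hP]; exact Nat.cast_nonneg _
    obtain ⟨W, hW⟩ : ∃ W : ℝ, W = (V y * (d * Real.log b)) ^ s := ⟨_, rfl⟩
    have hW0 : 0 ≤ W := by rw [hW]; exact hQ0 s
    rw [← hP, ← hQ] at g1
    rw [← hP, ← hW]
    rcases hσ with rfl | rfl
    · have g2 : |((Exact 1 (fun j => Nv y h (c j) (κ j) (v j)) s x).card : ℝ) - P / W| ≤ ε / 2 * (P / W) := by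
        rw [exact_one, hP, hW]
        exact (by assumption : (∀ j, 0 < Pool.Agent.Results.MP_77cbc6_nt.ExactChainsAnyLaw.Nv y h (c j) (κ j) (v j)) → ∀ s < r,
          |((Pool.Agent.Results.MP_77cbc6_nt.ExactChainsAnyLaw.Exact (fun j => Pool.Agent.Results.MP_77cbc6_nt.ExactChainsAnyLaw.Nv y h (c j) (κ j) (v j)) s x).card : ℝ) -
            (Pool.Agent.Results.MP_77cbc6_nt.ExactChainsAnyLaw.Adm (primorial y * h) s x).card / (Pool.Agent.Results.MP_77cbc6_nt.ExactChainsAnyLaw.V y * (d * Real.log b)) ^ s| ≤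
            ε / 2 * ((Pool.Agent.Results.MP_77cbc6_nt.ExactChainsAnyLaw.Adm (primorial y * h) s x).card / (Pool.Agent.Results.MP_77cbc6_nt.ExactChainsAnyLaw.V y * (d * Real.log b)) ^ s)) hpos s hs
      have g3 : 0 ≤ P / W := div_nonneg hP0 hW0
      nlinarith
    · have g2 : |((Exact (-1) (fun j => Nv y h (c j) (κ j) (v j)) s x).card : ℝ) - Q / W| ≤ ε / 4 * (Q / W) := by
        rw [exact_neg, hQ, hW]
        exact (by assumption : (∀ j, 0 < Pool.Agent.Results.MP_39b545_nt.ExactChainsAnyLaw.Nv y h (c j) (κ j) (v j)) → ∀ s < r,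
          |((Pool.Agent.Results.MP_39b545_nt.ExactChainsAnyLaw.Exact (fun j => Pool.Agent.Results.MP_39b545_nt.ExactChainsAnyLaw.Nv y h (c j) (κ j) (v j)) s x).card : ℝ) -
            (Pool.Agent.Results.MP_39b545_nt.ExactChainsAnyLaw.Adm (primorial y * h) s x).card / (Pool.Agent.Results.MP_39b545_nt.ExactChainsAnyLaw.V y * (d * Real.log b)) ^ s| ≤
            ε / 4 * ((Pool.Agent.Results.MP_39b545_nt.ExactChainsAnyLaw.Adm (primorial y * h) s x).card / (Pool.Agent.Results.MP_39b545_nt.ExactChainsAnyLaw.V y * (d * Real.log b)) ^ s)) hpos s hs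
      have g3 : 0 ≤ P / W := div_nonneg hP0 hW0
      have g4 : |Q / W - P / W| ≤ ε / 8 * (P / W) := by
        rw [← sub_div, abs_div, abs_of_nonneg hW0, ← mul_div_assoc]
        exact div_le_div_of_nonneg_right g1 hW0
      rw [abs_le] at g2 g4 ⊢
      constructor <;> nlinarith [g2.1, g2.2, g4.1, g4.2]
  calc _ ≤ _ := sum_le_sum fun v _ => hfin v
    _ = _ := sum_add_distrib
    _ ≤ ε / 2 + ε / 4 := add_le_add a2 b2
    _ ≤ ε := by linarith

end Pool.Agent.Results.MP_c183ae_nt.BothKindsEquallyOften
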