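import Pool.Agent.U898.CM.Apx
import Pool.Agent.N550.TS.All2

/-!
# Approximation of collapsing maps by smooth homeomorphisms

Let `M`, `N` be smooth `n`-manifolds without boundary, `n ≥ 1`. A *collapsing map* `f : M → N` with
exceptional values in `B` is a proper continuous surjection, not necessarily injective, such that

* `B ⊆ N` is compact with one-dimensional Hausdorff measure zero;
* off `f⁻¹(B)` the map `f` is injective and of class `C^∞` (its derivative may have any rank);
* the fibres over the points of `B` have neighbourhoods which embed smoothly in `ℝ^n`.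

**Part 1** (a smooth version of the approximation theorem for cell-like maps, in all dimensions).
Every neighbourhood of the graph of `f` contains the graph of a homeomorphism `g : M → N` of class
`C^∞`, which is equal to `f` off the preimage of a given neighbourhood of `B`. The preimages of open
cells under `f` are open cells, and the fibres of `f` are smoothly cellular.

**Part 2.** Let `N` be a closed 4-manifold with a handle decomposition such that the union of the
handles of index three and four is contained in an open cell. Every closed simply connected smooth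
4-manifold has this property: the union of these handles is a neighbourhood of a graph, which is
null-homotopic, so isotopic into a ball. Let `M` be a closed smooth 4-manifold. Then the following
conditions are equivalent:

* there is a collapsing map `M → N`;
* there is a homeomorphism `M → N` of class `C^∞`;
* there is a homeomorphism `M → N` which is a local diffeomorphism at all points but one (so `M`
  minus a point and `N` minus a point are diffeomorphic).

So a smooth structure `M` with a collapsing map onto `N` (for example, a smooth map whose fibres are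
points and, over a Cantor set of length zero, smooth arcs) can only differ from `N` at one point.

Proof of Part 1. `B` is covered by finitely many disjoint small open cells. The preimage of an open
cell is an open cell by the recognition theorem for `ℝ^n` (`Pool/Agent/U898/CM/Gen.lean`; level sets
of coordinate functions and Mazur's argument). In these cells `f` is a proper map `ℝ^n → ℝ^n` which
is injective and smooth near infinity, of any rank. By inversion, by the recognition theorem again
(applied to the preimage of a small ball) and by the smooth extension of germs of cells it is equal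
near infinity to a homeomorphism which is smooth off one point, and this point is removed by
flattening. The equivalence of the last two conditions in Part 2 is the theorem of the starting file
`SmoothHomeoSimplyConnected`.
-/

set_option autoImplicit false

open Set Filter Topology Metric Function
open scoped Manifold ContDiff

noncomputable section

namespace Pool.Agent.Results.MP_cb9bff_gt.CollapsingApproximation

/-- the Euclidean space of dimension `n` -/
abbrev R (n : ℕ) : Type := EuclideanSpace ℝ (Fin n)

section defs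

variable (n : ℕ) {M N : Type} [TopologicalSpace M] [ChartedSpace (R n) M] [TopologicalSpace N]
  [ChartedSpace (R n) N]

/-- `f` is of class `C^∞` at `x` (no condition is imposed on the derivative) -/
def SmoothAt (f : M → N) (x : M) : Prop := ContMDiffAt (𝓡 n) (𝓡 n) ∞ f x

/-- `f` is a local diffeomorphism (of class `C^∞`) at `x` -/
def LocDiff (f : M → N) (x : M) : Prop := IsLocalDiffeomorphAt (𝓡 n) (𝓡 n) ∞ f x

/-- a set with one-dimensional Hausdorff measure zero (in the preferred charts) -/
def LengthZero (B : Set N) : Prop :=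
  ∀ x₀ : N, MeasureTheory.Measure.hausdorffMeasure 1
    (chartAt (R n) x₀ '' ((chartAt (R n) x₀).source ∩ B) : Set (R n)) = 0

/-- `c` is a diffeomorphism of `ℝ^n` with an open subset of `N` -/
def IsOpenCell (c : R n → N) : Prop := Injective c ∧ ∀ z, LocDiff n c z

/-- the set `F` has an open neighbourhood `U` with a smooth embedding `i` in `ℝ^n` -/
def EmbedsNear (F : Set M) : Prop :=
  ∃ (U : Set M) (i : M → R n), IsOpen U ∧ F ⊆ U ∧ InjOn i U ∧ ∀ x ∈ U, LocDiff n i x

/-- the set `F` is smoothly cellular: all its neighbourhoods contain open cells which contain it -/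
def IsCellular (F : Set M) : Prop :=
  ∀ O : Set M, IsOpen O → F ⊆ O → ∃ c : R n → M, IsOpenCell n c ∧ F ⊆ range c ∧ range c ⊆ O

/-- `f` is a collapsing map with exceptional values in `B` -/
structure IsCollapsing (f : M → N) (B : Set N) : Prop where
  continuous : Continuous f
  surjective : Surjective f
  proper : ∀ K : Set N, IsCompact K → IsCompact (f ⁻¹' K)
  compact : IsCompact B
  thin : LengthZero n B
  injective_off : ∀ x y, f x ∉ B → f y = f x → y = x
  smooth_off : ∀ x, f x ∉ B → SmoothAt n f x
  fibres : ∀ y ∈ B, EmbedsNear n (f ⁻¹' {y})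

end defs

/-- Part 1: approximation of collapsing maps by homeomorphisms of class `C^∞`; preimages of open
cells; cellularity of the fibres. -/
def ApproximationTheorem : Prop :=
  ∀ (n : ℕ) (M N : Type) [TopologicalSpace M] [T2Space M] [ChartedSpace (R n) M]
    [IsManifold (𝓡 n) ∞ M] [TopologicalSpace N] [T2Space N] [ChartedSpace (R n) N]
    [IsManifold (𝓡 n) ∞ N] (f : M → N) (B : Set N), 1 ≤ n → IsCollapsing n f B →
    (∀ O : Set (M × N), IsOpen O → (∀ x, (x, f x) ∈ O) → ∀ W : Set N, IsOpen W → B ⊆ W →
      ∃ g : M ≃ₜ N, (∀ x, SmoothAt n g x) ∧ (∀ x, (x, g x) ∈ O) ∧ ∀ x, f x ∉ W → g x = f x) ∧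
    (∀ c : R n → N, IsOpenCell n c → ∃ c' : R n → M, IsOpenCell n c' ∧
      range c' = f ⁻¹' range c) ∧
    ∀ y, IsCellular n (f ⁻¹' {y})

/-! ### Handle decompositions of 4-manifolds -/

section handledefs

variable {N : Type} [TopologicalSpace N] [ChartedSpace (R 4) N]

/-- `κ` is a diffeomorphism of `N` -/
def IsDiffeo (κ : N → N) : Prop := Bijective κ ∧ ∀ x, LocDiff 4 κ x

/-- the square of the norm of the first `m` coordinates -/
def core (m : ℕ) (z : R 4) : ℝ := ∑ i : Fin 4, if (i : ℕ) < m then z i ^ 2 else 0

/-- the square of the norm of the last `4 - m` coordinates -/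
def cocore (m : ℕ) (z : R 4) : ℝ := ∑ i : Fin 4, if (i : ℕ) < m then 0 else z i ^ 2

/-- `h` is a handle of index `m` attached to `Y` (with an open collar of its attaching region inside
`Y`): an open embedding of `ℝ^m × ℝ^(4-m)` for which exactly the points with first component of norm
at least one are mapped to `Y`. -/
def IsHandle (m : ℕ) (Y : Set N) (h : R 4 → N) : Prop :=
  IsOpenCell 4 h ∧ ∀ z, h z ∈ Y ↔ 1 ≤ core m z

/-- the core disc of a handle of index `m` -/
def coreDisc (m : ℕ) (h : R 4 → N) : Set N := h '' {z | core m z ≤ 1 ∧ cocore m z = 0}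

end handledefs

/-- A handle decomposition of `N` with one 0-handle, with any number of 1-handles and 2-handles, and
with an open cell `c` which contains the handles of index at least three. -/
structure HighHandlesInCell (N : Type) [TopologicalSpace N] [ChartedSpace (R 4) N] where
  /-- the chart of the 0-handle, which is the image of the closed unit ball -/
  b : R 4 → N
  b_cell : IsOpenCell 4 b
  /-- the number of 1-handles -/
  a : ℕ
  /-- the 1-handles, attached to the 0-handle -/
  l : Fin a → R 4 → N
  l_handle : ∀ i, IsHandle 1 (b '' closedBall 0 1) (l i)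
  l_disjoint : ∀ i j, i ≠ j → Disjoint (range (l i)) (range (l j))
  /-- the union of the handles of index at most one (with rounded corners) -/
  K : Set N
  K_compact : IsCompact K
  /-- `K` can be compressed into every neighbourhood of the union of the 0-handle and of the core
  arcs of the 1-handles -/
  K_compress : ∀ O : Set N, IsOpen O → b '' closedBall 0 1 ∪ ⋃ i, coreDisc 1 (l i) ⊆ O →
    ∃ κ : N → N, IsDiffeo κ ∧ K ⊆ κ '' O
  /-- the number of 2-handles -/
  d : ℕ
  /-- the 2-handles, attached to `K` -/
  h : Fin d → R 4 → N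
  h_handle : ∀ i, IsHandle 2 K (h i)
  h_disjoint : ∀ i j, i ≠ j → Disjoint (range (h i)) (range (h j))
  /-- the open cell which contains the handles of index three and four -/
  c : R 4 → N
  c_cell : IsOpenCell 4 c
  /-- the complement of the open cell lies in the interior of the union of the handles of index at
  most two: it can be compressed into every neighbourhood of the union of `K` and of the core discs
  of the 2-handles -/
  c_compress : ∀ O : Set N, IsOpen O → K ∪ ⋃ i, coreDisc 2 (h i) ⊆ O →
    ∃ κ : N → N, IsDiffeo κ ∧ (range c)ᶜ ⊆ κ '' O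

/-! ### Proofs -/

section aux

open Pool.Agent.N550 Pool.Agent.N550.KH

theorem core_one (z : R 4) : core 1 z = ‖up 1 3 z‖ ^ 2 := by
  rw [EuclideanSpace.norm_sq_eq]
  simp [core]
  rfl

theorem core_two (z : R 4) : core 2 z = ‖up 2 2 z‖ ^ 2 := by
  rw [EuclideanSpace.norm_sq_eq, Fin.sum_univ_two]
  simp [core, Fin.sum_univ_four]
  rfl

theorem cocore_one (z : R 4) : cocore 1 z = ‖vp 1 3 z‖ ^ 2 := by
  rw [EuclideanSpace.norm_sq_eq, Fin.sum_univ_three]
  simp [cocore, Fin.sum_univ_four]
  rfl

theorem cocore_two (z : R 4) : cocore 2 z = ‖vp 2 2 z‖ ^ 2 := by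
  rw [EuclideanSpace.norm_sq_eq, Fin.sum_univ_two]
  simp [cocore, Fin.sum_univ_four]
  rfl

theorem one_le_sq {x : ℝ} (hx : 0 ≤ x) : 1 ≤ x ^ 2 ↔ 1 ≤ x := one_le_sq_iff₀ hx

theorem sq_le_one' {x : ℝ} (hx : 0 ≤ x) : x ^ 2 ≤ 1 ↔ x ≤ 1 := sq_le_one_iff₀ hx

variable {N : Type}

theorem disc_one (h : R 4 → N) :
    coreDisc 1 h = h '' {z : R 4 | vp 1 3 z = 0 ∧ ‖up 1 3 z‖ ≤ 1} := by
  have : {z : R 4 | core 1 z ≤ 1 ∧ cocore 1 z = 0} =
      {z : R 4 | vp 1 3 z = 0 ∧ ‖up 1 3 z‖ ≤ 1} := by
    ext z
    simp only [mem_ofPred_eq]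
    rw [core_one, cocore_one, sq_le_one' (norm_nonneg _), sq_eq_zero_iff, norm_eq_zero]
    exact and_comm
  rw [coreDisc, this]

theorem disc_two (h : R 4 → N) :
    coreDisc 2 h = h '' {z : R 4 | vp 2 2 z = 0 ∧ ‖up 2 2 z‖ ≤ 1} := by
  have : {z : R 4 | core 2 z ≤ 1 ∧ cocore 2 z = 0} =
      {z : R 4 | vp 2 2 z = 0 ∧ ‖up 2 2 z‖ ≤ 1} := by
    ext z
    simp only [mem_ofPred_eq]
    rw [core_two, cocore_two, sq_le_one' (norm_nonneg _), sq_eq_zero_iff, norm_eq_zero]
    exact and_comm
  rw [coreDisc, this]

theorem handles [TopologicalSpace N] [ChartedSpace (R 4) N] (D : HighHandlesInCell N) :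
    TS.Handles2 N D.a D.d D.b D.l D.K D.h D.c := by
  have hsp : D.b '' closedBall 0 1 ∪ (⋃ i, coreDisc 1 (D.l i)) =
      D.b '' closedBall 0 1 ∪ (⋃ i, D.l i '' {z : R 4 | vp 1 3 z = 0 ∧ ‖up 1 3 z‖ ≤ 1}) := by
    congr 1
    exact iUnion_congr fun i => disc_one _
  refine
    { b_inj := D.b_cell.1
      b_ld := D.b_cell.2
      l_inj := fun i => (D.l_handle i).1.1
      l_ld := fun i => (D.l_handle i).1.2
      l_att := fun i z => ?_
      l_dis := fun i j z w hij hcon => ?_
      K_cpt := D.K_compact
      K_cmp := fun O hO hsub => ?_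
      h_inj := fun i => (D.h_handle i).1.1
      h_ld := fun i => (D.h_handle i).1.2
      h_att := fun i z => ?_
      h_dis := fun i j z w hij hcon => ?_
      c_inj := D.c_cell.1
      c_ld := D.c_cell.2
      c_cmp := fun O hO hsub => ?_ }
  · rw [(D.l_handle i).2 z, core_one, one_le_sq (norm_nonneg _)]
  · exact disjoint_left.1 (D.l_disjoint i j hij) ⟨z, rfl⟩ ⟨w, hcon.symm⟩
  · refine D.K_compress O hO ?_
    rw [hsp]
    exact hsub
  · rw [(D.h_handle i).2 z, core_two, one_le_sq (norm_nonneg _)]
  · exact disjoint_left.1 (D.h_disjoint i j hij) ⟨z, rfl⟩ ⟨w, hcon.symm⟩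
  · refine D.c_compress O hO ?_
    have : (⋃ i, coreDisc 2 (D.h i)) =
        ⋃ i, D.h i '' {z : R 4 | vp 2 2 z = 0 ∧ ‖up 2 2 z‖ ≤ 1} :=
      iUnion_congr fun i => disc_two _
    rw [this]
    exact hsub

end aux

theorem approximation : ApproximationTheorem := by
  intro n M N _ _ _ _ _ _ _ _ f B hn hf
  obtain ⟨m, rfl⟩ : ∃ m, n = m + 1 := ⟨n - 1, by omega⟩
  have hC : Pool.Agent.U898.CM.Mods.Cls m f B :=
    ⟨hf.continuous, hf.surjective, hf.proper,
      fun x hx => ⟨hf.smooth_off x hx, fun y hy => hf.injective_off x y hx hy⟩, hf.fibres⟩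
  have hBn : Pool.Agent.N550.KH.NullH (m + 1) B :=
    Pool.Agent.N550.KH.Null.main (m + 1) N B hf.thin
  have hcell : ∀ c : R (m + 1) → N, IsOpenCell (m + 1) c → ∃ c' : R (m + 1) → M,
      IsOpenCell (m + 1) c' ∧ range c' = f ⁻¹' range c := by
    intro c hc
    obtain ⟨c', h1, h2, h3⟩ := hC.cell hf.compact.isClosed hBn c hc.1 hc.2
    exact ⟨c', ⟨h1, h2⟩, h3⟩
  refine ⟨fun O hO hfO W hW hBW => ?_, hcell, fun y O hO hyO => ?_⟩
  · exact Pool.Agent.U898.CM.Apx.approx hC hf.compact hf.thin O hO hfO W hW hBW
  · have hclm : IsClosedMap f :=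
      Pool.Agent.U898.CM.Apx.isClosedMap_of m hf.continuous hf.proper
    obtain ⟨c, hc1, hc2, hc3, hc4⟩ := Pool.Agent.U898.CM.Grid.exists_cell (n := m + 1) y
      (f '' Oᶜ)ᶜ (hclm _ hO.isClosed_compl).isOpen_compl (by
        rintro ⟨x, hx, hxy⟩
        exact hx (hyO hxy))
    obtain ⟨c', hc', hr⟩ := hcell c ⟨hc1, hc2⟩
    refine ⟨c', hc', ?_, ?_⟩
    · rw [hr]
      exact preimage_mono (singleton_subset_iff.2 ⟨0, hc3⟩)
    · rw [hr]
      intro x hx
      by_contra hcon
      exact hc4 hx ⟨x, hcon, rfl⟩

/-- **The theorem.** Part 1 and Part 2 of the text at the beginning of the file. -/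
theorem result :
    ApproximationTheorem ∧
    ∀ (M N : Type) [TopologicalSpace M] [CompactSpace M] [T2Space M] [ChartedSpace (R 4) M]
      [IsManifold (𝓡 4) ∞ M] [TopologicalSpace N] [CompactSpace N] [T2Space N]
      [ChartedSpace (R 4) N] [IsManifold (𝓡 4) ∞ N] (_ : HighHandlesInCell N),
      [∃ (f : M → N) (B : Set N), IsCollapsing 4 f B,
        ∃ g : M ≃ₜ N, ∀ x, SmoothAt 4 g x,
        ∃ (G : M ≃ₜ N) (x₀ : M), ∀ x, x ≠ x₀ → LocDiff 4 G x].TFAE := by
  refine ⟨approximation, ?_⟩
  intro M N _ _ _ _ _ _ _ _ _ _ D
  tfae_have 1 → 2 := by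
    rintro ⟨f, B, hf⟩
    obtain ⟨g, hg, -, -⟩ := (approximation 4 M N f B (by norm_num) hf).1 univ isOpen_univ
      (fun _ => mem_univ _) univ isOpen_univ (subset_univ _)
    exact ⟨g, hg⟩
  tfae_have 2 → 3 := by
    rintro ⟨g, hg⟩
    refine Pool.Agent.N550.TS.fin2 M N D.a D.d D.b D.l D.K D.h D.c (handles D) g fun y₀ => ?_
    have h1 : Pool.Agent.N550.KH.Bad 4 g = ∅ := by
      ext x
      simp only [Pool.Agent.N550.KH.Bad, mem_ofPred_eq, mem_empty_iff_false, iff_false, not_not]
      exact Eventually.of_forall fun y => hg y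
    rw [h1]
    simp
  tfae_have 3 → 2 := by
    rintro ⟨G, x₀, hG⟩
    exact Pool.Agent.N550.TS.flm 4 M N G x₀ hG
  tfae_have 2 → 1 := by
    rintro ⟨g, hg⟩
    refine ⟨g, ∅, ⟨g.continuous, g.surjective, fun K hK => ?_, isCompact_empty, fun x₀ => by simp,
      fun x y _ h => g.injective h, fun x _ => hg x, fun y hy => absurd hy (notMem_empty y)⟩⟩
    exact g.isClosedEmbedding.isCompact_preimage hK
  tfae_finish

end Pool.Agent.Results.MP_cb9bff_gt.CollapsingApproximation
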