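import Mathlib
import Pool.Agent.U483.KM.Main

/-!
# The p-adic monodromy-weight conjecture and the Grothendieck ring of varieties

Let `K` be a finite extension of `ℚ_p` with residue field of `q = p ^ f` elements, and `k` a field with embeddings
into `K` and into `ℂ` (for example `k = K`). For a separated scheme `X` of finite type over `k` the group
`H^i_c(X_K̄, ℚ_p)` is potentially semistable (Beilinson, Kisin) and has a weight filtration; `gr i w X` stands for the
space `D_pst(gr^W_w H^i_c(X_K̄, ℚ_p))` (the Hyodo-Kato cohomology `H^i_HK(X)` for a smooth projective `X` and `w = i`), with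
coefficients extended to an algebraically closed field `Ω`, with the linear operator `Φ = φ ^ f` and the monodromy
operator `N`, `N Φ = q Φ N`. The structures `Coh` (of the library), `Motives` and `IsMultiplicative` list the known
properties which are used: exact sequences (the functor `D_pst` is exact on potentially semistable
representations), Weil numbers (Mokrane, de Jong), the Künneth formula, transfer, and that the pieces are
realizations of objects of the semisimple category of pure motives for absolute Hodge cycles. `C` is the class of
the smooth projective schemes. `H.MW Y` says that all `gr i w Y` are mw pure of weight `w`.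

* For a smooth projective `X` the groups `H^i_HK(X)` are mw pure if and only if the class of `X` in `K_0(Var_k)` is in
  the subgroup generated by the classes of the schemes `Y` with `H.MW Y` (they may be singular and open). So the
  p-adic monodromy-weight conjecture for `X` depends only on the class of `X` in `K_0(Var_k)`.
* It follows from the theorem of Mokrane for surfaces (`D = 2`) that it holds for all smooth projective `X` whose class
  is in the subring generated by the classes of the schemes of dimension at most two, of the closed subschemes of
  affine spaces given by equations with few terms, of normal images of such schemes under finite morphisms, and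
  of all schemes `B` for which it is known (for instance complete intersections in toric varieties, Scholze).

The proof is the one of `MP_855f4c_ag.GrothendieckRing` for the `ℓ`-adic conjecture; only the realization of the motives
is different.
-/

set_option autoImplicit false

open CategoryTheory AlgebraicGeometry Pool.Agent.Y116.UV Pool.Agent.U583.MW Pool.Agent.U483.KM

namespace Pool.Agent.Results.MP_d037d4_ag.GrothendieckRing

universe u v w x

theorem result (k : Type) [Field k] [CharZero k] (Ω : Type u) [Field Ω] [CharZero Ω] [IsAlgClosed Ω]
    (q : ℕ) (hq : 1 < q) (H : Coh.{u, v} k Ω q) (𝓜 : Type w) [Category.{x} 𝓜] [Abelian 𝓜]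
    [Linear ℚ 𝓜] (M : Motives H 𝓜) (C : Sch k → Prop) (hC : IsProjClass H C) :
    -- mw purity in terms of the class in `K_0(Var_k)`
    (∀ X : Var k, C X.1 → ((∀ i : ℤ, (H.gr i i X.1).Pure q i) ↔
      cls X ∈ AddSubgroup.closure {c | ∃ Y : Var k, H.MW Y.1 ∧ c = cls Y})) ∧
    (∀ X X' : Var k, C X.1 → C X'.1 → cls X = cls X' →
      ((∀ i : ℤ, (H.gr i i X.1).Pure q i) ↔ ∀ i : ℤ, (H.gr i i X'.1).Pure q i)) ∧
    -- varieties built from varieties of dimension at most `D` (`D = 2`: Mokrane) and a class `B`
    (IsMultiplicative H → ∀ (B : Sch k → Prop), (∀ Y, FT True Y → B Y → H.MW Y) → ∀ D : ℕ,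
      H.MWPr C D → (∀ Y, Built k B D Y → H.MW Y) ∧
        ∀ X : Var k, C X.1 →
          cls X ∈ AddSubgroup.closure {c | ∃ Y : Var k, Built k B D Y.1 ∧ c = cls Y} →
          ∀ i : ℤ, (H.gr i i X.1).Pure q i) := by
  have hp : PerfectField k := inferInstance
  refine ⟨fun X hX => pure_iff_mem M hq hC hX, fun X X' hX hX' h => ?_,
    fun hH B hB D hD => ?_⟩
  · rw [pure_iff_mem M hq hC hX, pure_iff_mem M hq hC hX', h]
  · have hD' : H.MWDim D := (dim_iff H hq D).2 ((pr_iff H hq hC D).1 hD)
    have key : ∀ Y, Built k B D Y → H.MW Y := fun Y hY => (mw_built hq hH hB hD' hY).2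
    refine ⟨key, fun X hX h => ?_⟩
    refine (pure_iff_mem M hq hC hX).2 (AddSubgroup.closure_mono ?_ h)
    rintro c ⟨Y, hY, rfl⟩
    exact ⟨Y, key Y.1 hY, rfl⟩

end Pool.Agent.Results.MP_d037d4_ag.GrothendieckRing
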