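import Mathlib
import Pool.Agent.U766.OP.Gap2
import Pool.Agent.U766.OP.Exa
import Pool.Agent.Q278.KT.Fin

/-!
# MP_d610d0_nt (twin primes between consecutive cubes): the expected number of pairs of consecutive primes with a positive
proportion of all the differences up to `K log n`, and in narrow arithmetic progressions

Let `T g n` be the set of the primes `p` such that `p + g` is the next prime and `n³ < p < p + g < (n + 1)³`; the problem
asks for `|T 2 n| → ∞`.  The expected order of magnitude of `|T g n|` is `n² / (log n)²`.  We prove that for ALL large `n` at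
least `η log n` of the differences `g ≤ K log n` satisfy `|T g n| ≥ c n² / (log n)²`, and that, for these `g`, every subset
of `T g n` with at least the proportion `ρ` of its elements contains `k` terms of an arithmetic progression with difference
at most `(log n) ^ B`.

More generally, for every `l` and EVERY interval `(a, a + H] ⊆ [x, 2 x]` with `H ≥ x ^ (0.615 - δ)`, a positive proportion
of all the vectors `(g_1, …, g_l)` of positive integers `≤ K log x` occur as the vector of `l` consecutive gaps between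
primes of `(a, a + H]` with the expected frequency, at least `c H / (log x) ^ (l + 1)` times; again every dense subset of the
set of their positions contains narrow progressions of any length.

Method: the lower bound for the number of the primes in the interval comes from the counting theorem of the starting library
for separated short intervals with few primes (`Pool.Agent.Q278.KT.mainp_043`); the upper bound for a single vector is the
sieve (`Pool.Agent.Y840.PT.up`), the second moment of the singular series over the vectors is in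
`Pool.Agent.TH891.SG.CT_mom`, and the progressions come from Szemerédi's theorem relative to sifted sets in short intervals
(`Pool.Agent.Y840.PT.sh_gen`, `Pool.Agent.Y843.HS.fin`).
-/

set_option autoImplicit false

namespace Pool.Agent.Results.MP_d610d0_nt.PairsAndGapVectors

open Filter Finset

/-- the primes, numbered from `pr 0 = 2` -/
noncomputable def pr (n : ℕ) : ℕ := Nat.nth Nat.Prime n

open Classical in
/-- the primes `q` of `(a, a + H]` such that the next `l` gaps between primes are `g 0, …, g (l - 1)` and the last of these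
`l + 1` primes is at most `a + H` -/
noncomputable def Pos {l : ℕ} (g : Fin l → ℕ) (a H : ℕ) : Finset ℕ :=
  (Ioc a (a + H)).filter (fun q => ∃ n, pr n = q ∧ pr (n + l) ≤ a + H ∧
    ∀ i : Fin l, pr (n + i + 1) = pr (n + i) + g i)

/-- `U` contains `k` terms of an arithmetic progression with difference at least `1` and at most `D` -/
def HasAP (k : ℕ) (D : ℝ) (U : Finset ℕ) : Prop :=
  ∃ a d : ℕ, 1 ≤ d ∧ (d : ℝ) ≤ D ∧ ∀ j < k, a + j * d ∈ U

open Classical in
/-- the primes `p` such that `p + g` is the next prime and `n³ < p < p + g < (n + 1)³` -/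
noncomputable def T (g n : ℕ) : Finset ℕ :=
  (Ioo (n ^ 3) ((n + 1) ^ 3)).filter (fun p => p.Prime ∧ (p + g).Prime ∧ p + g < (n + 1) ^ 3 ∧
    ∀ r : ℕ, p < r → r < p + g → ¬ r.Prime)

lemma T_eq {g n H : ℕ} (hg : 1 ≤ g) (hH : n ^ 3 + H + 1 = (n + 1) ^ 3) :
    T g n = Pool.Agent.U766.OP.Pos (fun _ : Fin 1 => g) (n ^ 3) H := by
  classical
  ext q
  unfold T Pool.Agent.U766.OP.Pos
  rw [mem_filter, mem_filter, mem_Ioo, mem_Ioc]
  constructor
  · rintro ⟨⟨h1, h2⟩, h3, h4, h5, h6⟩
    have hm := Pool.Agent.U766.OP.pr_count h3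
    have h7 : Pool.Agent.U766.OP.pr (Nat.count Nat.Prime q + 1) ≤ q + g :=
      Pool.Agent.U766.OP.pr_succ_le h4 (by rw [hm]; omega)
    have h8 : q < Pool.Agent.U766.OP.pr (Nat.count Nat.Prime q + 1) := by
      have := Pool.Agent.U766.OP.pr_mono (Nat.lt_succ_self (Nat.count Nat.Prime q))
      rw [hm] at this
      exact this
    have h9 : Pool.Agent.U766.OP.pr (Nat.count Nat.Prime q + 1) = q + g := by
      by_contra hcon
      exact h6 _ h8 (by omega) (Pool.Agent.U766.OP.pr_prime _)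
    refine ⟨⟨h1, by omega⟩, Nat.count Nat.Prime q, hm, by rw [h9]; omega, fun i => ?_⟩
    have hi : (i : ℕ) = 0 := by omega
    have e0 : Pool.Agent.U766.OP.pr (Nat.count Nat.Prime q + (i : ℕ)) = q := by rw [hi, Nat.add_zero, hm]
    have e1 : Pool.Agent.U766.OP.pr (Nat.count Nat.Prime q + (i : ℕ) + 1) = q + g := by rw [hi, Nat.add_zero, h9]
    rw [e0, e1]
  · rintro ⟨⟨h1, h2⟩, m, rfl, h4, h5⟩
    have h6 := h5 0
    simp only [Fin.val_zero, Nat.add_zero] at h6
    rw [h6] at h4
    refine ⟨⟨h1, by omega⟩, Pool.Agent.U766.OP.pr_prime m, ?_, by omega, fun r h7 h8 hr => ?_⟩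
    · rw [← h6]
      exact Pool.Agent.U766.OP.pr_prime _
    · have := Pool.Agent.U766.OP.pr_succ_le hr h7
      omega

/-- **Theorem.** (1) For every `l` there are `K, c, η, δ > 0` such that for all `k` and `ρ > 0` there is `B` such that for all
large `x` and EVERY interval `(a, a + H]` in `[x, 2 x]` with `H ≥ x ^ (0.615 - δ)` at least `η (log x) ^ l` of the vectors
`g ∈ [1, K log x] ^ l` have at least `c H / (log x) ^ (l + 1)` positions in the interval, and every set of positions of `g`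
with at least the proportion `ρ` of all its positions contains `k` terms of a progression with difference `≤ (log x) ^ B`.
(2) There are `K, c, η > 0` such that for all `k` and `ρ > 0` there is `B` such that for all large `n` at least `η log n` of the
`g ≤ K log n` satisfy `|T g n| ≥ c n² / (log n)²`, and every subset of `T g n` with at least the proportion `ρ` of its
elements contains `k` terms of a progression with difference `≤ (log n) ^ B`. -/
theorem result :
    (∀ l : ℕ, ∃ K c η δ : ℝ, 0 < K ∧ 0 < c ∧ 0 < η ∧ 0 < δ ∧ ∀ (k : ℕ) (ρ : ℝ), 0 < ρ → ∃ B : ℕ, ∀ᶠ x : ℝ in atTop,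
      ∀ a H : ℕ, x ≤ a → (a : ℝ) + H ≤ 2 * x → x ^ (0.615 - δ) ≤ H →
        ∃ G : Finset (Fin l → ℕ), η * Real.log x ^ l ≤ (G.card : ℝ) ∧ ∀ g ∈ G,
          (∀ i, 1 ≤ g i ∧ (g i : ℝ) ≤ K * Real.log x) ∧
          c * H / Real.log x ^ (l + 1) ≤ ((Pos g a H).card : ℝ) ∧
          ∀ U ⊆ Pos g a H, ρ * ((Pos g a H).card : ℝ) ≤ (U.card : ℝ) → HasAP k (Real.log x ^ B) U) ∧
    (∃ K c η : ℝ, 0 < K ∧ 0 < c ∧ 0 < η ∧ ∀ (k : ℕ) (ρ : ℝ), 0 < ρ → ∃ B : ℕ, ∀ᶠ n : ℕ in atTop,
        ∃ G : Finset ℕ, η * Real.log n ≤ (G.card : ℝ) ∧ ∀ g ∈ G,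
          (1 ≤ g ∧ (g : ℝ) ≤ K * Real.log n) ∧
          c * (n : ℝ) ^ 2 / Real.log n ^ 2 ≤ ((T g n).card : ℝ) ∧
          ∀ U ⊆ T g n, ρ * ((T g n).card : ℝ) ≤ (U.card : ℝ) → HasAP k (Real.log n ^ B) U) := by
  classical
  obtain ⟨c1, δ, hc1, hδ, hδ1, hall⟩ := Pool.Agent.U766.OP.all_long Pool.Agent.Q278.KT.mainp_043
    (by norm_num) (by norm_num) (by norm_num) (by norm_num)
  have hmain : ∀ l : ℕ, ∃ K c η δ : ℝ, 0 < K ∧ 0 < c ∧ 0 < η ∧ 0 < δ ∧ ∀ (k : ℕ) (ρ : ℝ), 0 < ρ → ∃ B : ℕ,
      ∀ᶠ x : ℝ in atTop, ∀ a H : ℕ, x ≤ a → (a : ℝ) + H ≤ 2 * x → x ^ (0.615 - δ) ≤ H →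
        ∃ G : Finset (Fin l → ℕ), η * Real.log x ^ l ≤ (G.card : ℝ) ∧ ∀ g ∈ G,
          (∀ i, 1 ≤ g i ∧ (g i : ℝ) ≤ K * Real.log x) ∧
          c * H / Real.log x ^ (l + 1) ≤ ((Pool.Agent.U766.OP.Pos g a H).card : ℝ) ∧
          ∀ U ⊆ Pool.Agent.U766.OP.Pos g a H, ρ * ((Pool.Agent.U766.OP.Pos g a H).card : ℝ) ≤ (U.card : ℝ) →
            HasAP k (Real.log x ^ B) U := by
    intro l
    obtain ⟨K, c, M, η, hK, hc, hM, hη, hbox⟩ := Pool.Agent.U766.OP.box_many l c1 hc1
    refine ⟨K, c, η, δ, hK, hc, hη, hδ, fun k ρ hρ => ?_⟩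
    obtain ⟨B, hap⟩ := Pool.Agent.U766.OP.pos_ap l k c M ρ hc hM hρ
    refine ⟨B, ?_⟩
    filter_upwards [hall, hbox, hap, eventually_ge_atTop 1, Real.tendsto_log_atTop.eventually_ge_atTop 1]
      with x h1 h2 h3 hx1 hL1 a H ha haH hH
    have hHx : (H : ℝ) ≤ x := by linarith
    have hsq : Real.sqrt x ≤ H := by
      refine le_trans ?_ hH
      rw [Real.sqrt_eq_rpow]
      exact Real.rpow_le_rpow_of_exponent_le hx1 (by linarith)
    have hN : c1 * H / Real.log x ≤ ((Pool.Agent.U766.OP.primesIn a H).card : ℝ) := by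
      have h4 := h1 a H ha (by linarith) (by
        rw [show (1 : ℝ) - 0.43 + 0.045 - δ = 0.615 - δ by norm_num]
        exact hH)
      rwa [Pool.Agent.U766.OP.pic_nat] at h4
    refine ⟨_, h2 a H ha hHx hsq hN, fun g hg => ?_⟩
    rw [mem_filter, Pool.Agent.R527.LV.mem_box] at hg
    obtain ⟨g1, g2, g3⟩ := hg
    refine ⟨fun i => ⟨(g1 i).1, ?_⟩, g2, fun U hU hUc => ?_⟩
    · have h5 : (g i : ℝ) ≤ (⌊K * Real.log x⌋₊ : ℝ) := by exact_mod_cast (g1 i).2
      exact h5.trans (Nat.floor_le (by positivity))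
    · exact h3 a H ha hHx hsq g (fun i => (g1 i).1) g3 g2 U hU hUc
  refine ⟨hmain, ?_⟩
  obtain ⟨K, c, η, δ', hK, hc, hη, hδ', h1⟩ := hmain 1
  refine ⟨3 * K, c / 3, 3 * η, by positivity, by positivity, by positivity, fun k ρ hρ => ?_⟩
  obtain ⟨B, hB⟩ := h1 k ρ hρ
  refine ⟨2 * B, ?_⟩
  have tn : Tendsto (fun n : ℕ => (n : ℝ)) atTop atTop := tendsto_natCast_atTop_atTop
  have t3 : Tendsto (fun n : ℕ => (n : ℝ) ^ 3) atTop atTop := (tendsto_pow_atTop (by norm_num)).comp tn
  filter_upwards [t3.eventually hB, eventually_ge_atTop 4, (Real.tendsto_log_atTop.comp tn).eventually_ge_atTop 3]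
    with n hn hn4 hlog
  have hlog' : 3 ≤ Real.log (n : ℝ) := hlog
  have hn4' : (4 : ℝ) ≤ n := by exact_mod_cast hn4
  have hn0 : (0 : ℝ) < n := by linarith
  obtain ⟨H, hH⟩ : ∃ H : ℕ, H = 3 * n ^ 2 + 3 * n := ⟨_, rfl⟩
  have hHeq : n ^ 3 + H + 1 = (n + 1) ^ 3 := by rw [hH]; ring
  have hHr : (H : ℝ) = 3 * (n : ℝ) ^ 2 + 3 * n := by rw [hH]; push_cast; ring
  have hlog3 : Real.log ((n : ℝ) ^ 3) = 3 * Real.log n := by rw [Real.log_pow]; norm_num
  obtain ⟨G, hG1, hG2⟩ := hn (n ^ 3) H (by push_cast; exact le_rfl) (by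
      push_cast
      rw [hHr]
      nlinarith [sq_nonneg ((n : ℝ) - 4)]) (by
      rw [hHr]
      calc ((n : ℝ) ^ 3) ^ (0.615 - δ') ≤ ((n : ℝ) ^ 3) ^ (2 / 3 : ℝ) := by
            apply Real.rpow_le_rpow_of_exponent_le
            · exact one_le_pow₀ (by linarith)
            · linarith
        _ = (n : ℝ) ^ 2 := by
            rw [← Real.rpow_natCast (n : ℝ) 3, ← Real.rpow_mul hn0.le, ← Real.rpow_natCast (n : ℝ) 2]
            norm_num
        _ ≤ 3 * (n : ℝ) ^ 2 + 3 * n := by nlinarith)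
  rw [hlog3] at hG1 hG2
  refine ⟨G.image (fun g => g 0), ?_, ?_⟩
  · rw [card_image_of_injective]
    · rw [pow_one] at hG1
      linarith
    · intro g g' h
      funext i
      have hi : i = 0 := Subsingleton.elim _ _
      rw [hi]
      exact h
  · intro g hg
    rw [mem_image] at hg
    obtain ⟨g', hg', rfl⟩ := hg
    obtain ⟨e1, e2, e3⟩ := hG2 g' hg'
    have hconst : (fun _ : Fin 1 => g' 0) = g' := by
      funext i
      have hi : i = 0 := Subsingleton.elim _ _
      rw [hi]
    have hT : T (g' 0) n = Pool.Agent.U766.OP.Pos g' (n ^ 3) H := by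
      rw [T_eq (e1 0).1 hHeq, hconst]
    rw [hT]
    refine ⟨⟨(e1 0).1, ?_⟩, ?_, fun U hU hUc => ?_⟩
    · have := (e1 0).2
      linarith
    · refine le_trans ?_ e2
      rw [hHr, show (1 + 1 : ℕ) = 2 by norm_num, mul_pow, div_le_div_iff₀ (by positivity) (by positivity)]
      have h5 : 0 ≤ c * Real.log (n : ℝ) ^ 2 * (n : ℝ) := by positivity
      nlinarith
    · obtain ⟨b, d, hd1, hd2, hd3⟩ := e3 U hU hUc
      refine ⟨b, d, hd1, hd2.trans ?_, hd3⟩
      calc (3 * Real.log (n : ℝ)) ^ B ≤ (Real.log (n : ℝ) ^ 2) ^ B := by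
            apply pow_le_pow_left₀ (by positivity)
            nlinarith
        _ = Real.log (n : ℝ) ^ (2 * B) := by rw [← pow_mul]

end Pool.Agent.Results.MP_d610d0_nt.PairsAndGapVectors
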