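import Pool.Agent.U569.APL.Gen
import Pool.Agent.N666.TM.Diag
import Pool.Agent.Results.MP_d83ecd_ag.AnyLevelScaledImages

/-!
# MP_d83ecd_ag: Zilber-Pink for scaled images whose parameters are values of polynomials in several variables modulo `p`
# on arbitrary product sets

`Y(1)^n` is identified with `ℂ^n` by the elliptic modular function. For a vector `c` of nonnegative integers
let `X_c ⊆ Y(1)^n` be the image of the set of the `(P_1, …, P_n)` in a product of modular curves of any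
levels such that `c_i s_i (P_i) = f_i (y)` for a point `y` of a projective algebraic set `B`
(`scaledImage`; the `s_i` are functions integral over `K[j]`, the `f_i = A_i / B_i` quotients of forms, no
point of `B` is on `m + 1` of their divisors). The starting result `AnyLevelScaledImages` shows that `X_c`
has no atypical intersections with special subvarieties if at `L` large primes the exponents of the `c_i` are
independent.

**Theorem.** Let `c_i = ∏_l |z_l| ^ e_{l i}` with an integral vector `z` and exponents `e_{l i} > 0`, independent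
modulo squares. Given `ε > 0` and the data `B, f_i, s_i, K` and the finite set of the allowed constants:

(1) For every family of vectors `y` of `L` residues modulo any `q`, whose Fourier coefficients are at most
`1 / (Z (42 + 3 log q) ^ L)` with `Z₀ ≤ Z ≤ q`, and every `c₀ ∈ ℤ^L`, for all but the fraction `ε` of the members,
for `z = c₀ + y` and for ALL independent exponents at the same time, `X_c` has no atypical intersections.

(2) Let `δ > 0`, `p ≥ p₀` a prime, `F_1, …, F_L` polynomials in `k` variables over the field of `p` elements of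
degree at most `p ^ (δ / 4)`, such that every nontrivial linear combination of them has a monomial with at least two
variables. Let `A_1, …, A_k` be ARBITRARY sets of at least `p ^ (1 / 2 + δ)` residues and let `u_i` be ARBITRARY
functions of one variable. The same is true for all but the fraction `ε` of the points `a` of `A_1 × … × A_k`,
where `z_l = c₀_l +` the residue of `F_l (a) + u_1 (a_1)_l + … + u_k (a_k)_l`.

(3) Let `I_1, …, I_L` be different sets of at least two indices and let `A` be ANY set of at least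
`p ^ (1 / 2 + δ)` residues. The same is true for all but `ε |A| ^ k` of the `k`-tuples of elements of `A`, where `z_l`
is `c₀_l +` the residue of the product of the `a_j`, `j ∈ I_l`.
-/

set_option autoImplicit false

namespace Pool.Agent.Results.MP_d83ecd_ag.ArbitraryProductSets

open Finset
open Pool.Agent.Results.MP_d83ecd_ag.AnyLevelScaledImages (OnB NoAtypical scaledImage Spread)

/-- The exponents are positive and independent modulo squares. -/
def Indep {L n : ℕ} (e : Fin L → Fin n → ℕ) : Prop :=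
  (∀ l i, 0 < e l i) ∧ ∀ l l', l ≠ l' → ∀ i j, i ≠ j → ¬ IsSquare (e l i * e l j * (e l' i * e l' j))

/-- The numbers `c_i = ∏_l |z_l| ^ e_{l i}`. -/
def cvec {L n : ℕ} (e : Fin L → Fin n → ℕ) (z : Fin L → ℤ) (i : Fin n) : ℕ := ∏ l : Fin L, (z l).natAbs ^ e l i

/-- The Fourier coefficients of the family `y i`, `i ∈ s`, of vectors of `L` residues modulo `q` are at most
`1 / (Z (42 + 3 log q) ^ L)`, and `Z ≤ q`. -/
def SmallFourier {τ : Type} (L q : ℕ) [NeZero q] (s : Finset τ) (y : τ → Fin L → ZMod q) (Z : ℝ) : Prop :=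
  Z ≤ q ∧ ∀ h : Fin L → ZMod q, h ≠ 0 →
    ‖∑ i ∈ s, (ZMod.stdAddChar (∑ j, h j * y i j) : ℂ)‖ ≤ 1 / (Z * (42 + 3 * Real.log q) ^ L) * s.card

/-- `F` has a monomial which contains at least two different variables. -/
def Mixed {p k : ℕ} (F : MvPolynomial (Fin k) (ZMod p)) : Prop :=
  ∃ m ∈ F.support, ∃ i j : Fin k, i ≠ j ∧ m i ≠ 0 ∧ m j ≠ 0

/-- vectors with exact prime divisors above `D` lead to spread out scalings -/
lemma spread_cvec {L n D : ℕ} {z : Fin L → ℤ}
    (hz : ∀ l : Fin L, ∃ p : ℕ, p.Prime ∧ D < p ∧ Pool.Agent.N666.TM.Ex l p z)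
    {e : Fin L → Fin n → ℕ} (he : Indep e) : Spread L D (cvec e z) := by
  choose p hp1 hp2 hp3 using hz
  have hfac : ∀ (l : Fin L) (i : Fin n), (cvec e z i).factorization (p l) = e l i := by
    intro l i
    obtain ⟨h3, h4, h5⟩ := hp3 l
    refine Pool.Agent.N666.TM.fact_prod (fun l' => e l' i) l (hp1 l) ?_ ?_ ?_
    · exact Int.natCast_dvd.mp h3
    · intro hd
      apply h4
      have := Int.natCast_dvd.mpr hd
      push_cast at this
      exact this
    · intro i' hi' hd
      exact h5 i' hi' (Int.natCast_dvd.mpr hd)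
  refine ⟨p, fun l => ⟨hp1 l, hp2 l, fun i => ?_⟩, fun l l' hll i j hij => ?_⟩
  · rw [hfac]
    exact he.1 l i
  · rw [hfac, hfac, hfac, hfac]
    exact he.2 l l' hll i j hij

universe u v

/-- Zilber-Pink with no atypical intersections for almost all members of families of scaled images with parameters in
families of vectors of residues with small Fourier coefficients (1), in particular at the values of polynomials in
several variables on arbitrary product sets (2), and at the products of different sets of elements of arbitrary sets (3). -/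
theorem result {κ : Type u} (K : Subfield ℂ) [Countable K] (N n m : ℕ)
    (G : κ → MvPolynomial (Fin (N + 1)) K) (hG : ∀ k, ∃ e, (G k).IsHomogeneous e)
    (A B : Fin n → MvPolynomial (Fin (N + 1)) K) (d : Fin n → ℕ)
    (hA : ∀ i, (A i).IsHomogeneous (d i)) (hB : ∀ i, (B i).IsHomogeneous (d i))
    (hpos : ∀ I : Finset (Fin n), I.card = m + 1 → ∀ y, OnB G y →
      ∃ i ∈ I, MvPolynomial.aeval y (A i) * MvPolynomial.aeval y (B i) ≠ 0)
    (R : Fin n → Polynomial (Polynomial K)) (hR : ∀ i, (R i).Monic)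
    (T : ℕ) (hT : ∀ i u w, ((R i).coeff u).coeff w ≠ 0 → u ≤ T ∧ w ≤ T)
    (Γ : Finset ℂ) (hΓ : ∀ γ ∈ Γ, γ ∈ K) (L : ℕ) (hL : L = n * n * (T + 1) ^ 4 + 1) (ε : ℝ) (hε : 0 < ε) :
    (∃ Z₀ : ℕ, ∀ (τ : Type) (q : ℕ) [NeZero q] (s : Finset τ) (y : τ → Fin L → ZMod q) (Z : ℝ), Z₀ ≤ Z →
      SmallFourier L q s y Z → ∀ c₀ : Fin L → ℤ,
      ({i : τ | i ∈ s ∧ ¬ ∀ e : Fin L → Fin n → ℕ, Indep e → NoAtypical K Γ m
        (scaledImage G A B R (cvec e fun l => c₀ l + ((y i l).val : ℕ)))}.ncard : ℝ) ≤ ε * s.card) ∧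
    (∀ δ : ℝ, 0 < δ → δ ≤ 1 → ∃ p₀ : ℕ, ∀ p : ℕ, p.Prime → p₀ ≤ p →
      ∀ (k : ℕ) (F : Fin L → MvPolynomial (Fin k) (ZMod p)) (S : Fin k → Finset (ZMod p))
        (u : Fin k → ZMod p → Fin L → ZMod p),
      (∀ l, ((F l).totalDegree : ℝ) ≤ (p : ℝ) ^ (δ / 4)) →
      (∀ α : Fin L → ZMod p, α ≠ 0 → Mixed (∑ l, MvPolynomial.C (α l) * F l)) →
      (∀ i, (p : ℝ) ^ (1 / 2 + δ) ≤ (S i).card) → ∀ c₀ : Fin L → ℤ,
      ({a : Fin k → ZMod p | (∀ i, a i ∈ S i) ∧ ¬ ∀ e : Fin L → Fin n → ℕ, Indep e → NoAtypical K Γ m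
        (scaledImage G A B R
          (cvec e fun l => c₀ l + ((MvPolynomial.eval a (F l) + ∑ i, u i (a i) l).val : ℕ)))}.ncard : ℝ) ≤
        ε * ∏ i, ((S i).card : ℝ)) ∧
    (∀ (k : ℕ) (I : Fin L → Finset (Fin k)), Function.Injective I → (∀ l, 2 ≤ (I l).card) →
      ∀ δ : ℝ, 0 < δ → δ ≤ 1 → ∃ p₀ : ℕ, ∀ p : ℕ, p.Prime → p₀ ≤ p →
      ∀ S : Finset (ZMod p), (p : ℝ) ^ (1 / 2 + δ) ≤ S.card → ∀ c₀ : Fin L → ℤ,
      ({a : Fin k → ZMod p | (∀ i, a i ∈ S) ∧ ¬ ∀ e : Fin L → Fin n → ℕ, Indep e → NoAtypical K Γ m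
        (scaledImage G A B R (cvec e fun l => c₀ l + ((∏ j ∈ I l, a j).val : ℕ)))}.ncard : ℝ) ≤
        ε * (S.card : ℝ) ^ k) := by
  obtain ⟨D, hD, -, -⟩ := Pool.Agent.Results.MP_d83ecd_ag.AnyLevelScaledImages.result K N n m G hG A B
    d hA hB hpos R hR T hT Γ hΓ L hL
  have h0 : ∃ Z₀ : ℕ, ∀ (τ : Type) (q : ℕ) [NeZero q] (s : Finset τ) (y : τ → Fin L → ZMod q) (Z : ℝ), Z₀ ≤ Z →
      Pool.Agent.N384.VF.VFam q s y Z → ∀ c₀ : Fin L → ℤ,
      ({i : τ | i ∈ s ∧ ¬ ∀ e : Fin L → Fin n → ℕ, Indep e → NoAtypical K Γ m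
        (scaledImage G A B R (cvec e fun l => c₀ l + ((y i l).val : ℕ)))}.ncard : ℝ) ≤ ε * s.card := by
    obtain ⟨Z₀, h1⟩ := Pool.Agent.U569.APL.ex_fam L D ε hε
    refine ⟨Z₀, fun τ q _ s y Z hZ hv c₀ => ?_⟩
    refine le_trans ?_ (h1 τ q s y Z hZ hv c₀)
    rw [Nat.cast_le]
    refine Set.ncard_le_ncard ?_ ((Finset.finite_toSet s).subset fun a ha => ha.1)
    rintro a ⟨ha, hb⟩
    exact ⟨ha, fun hz => hb fun e he => hD _ (spread_cvec hz he)⟩
  refine ⟨?_, ?_, ?_⟩
  · obtain ⟨Z₀, h1⟩ := h0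
    exact ⟨Z₀, fun τ q _ s y Z hZ hv c₀ => h1 τ q s y Z hZ ⟨hv.1, by rw [Fintype.card_fin]; exact hv.2⟩ c₀⟩
  · exact fun δ hδ hδ1 => Pool.Agent.U569.APL.prod_of_fam L (fun _ z => ∀ e : Fin L → Fin n → ℕ, Indep e →
      NoAtypical K Γ m (scaledImage G A B R (cvec e z))) ε h0 δ hδ hδ1
  · exact fun k I hI hI2 δ hδ hδ1 => Pool.Agent.U569.APL.products_of_fam L (fun _ z => ∀ e : Fin L → Fin n → ℕ,
      Indep e → NoAtypical K Γ m (scaledImage G A B R (cvec e z))) ε h0 k I hI hI2 δ hδ hδ1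

end Pool.Agent.Results.MP_d83ecd_ag.ArbitraryProductSets
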