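import Pool.Agent.U691.KM.Bound

/-!
# The Kashuba–Mathieu character formula fails for `dim V = 3`

For `dim V = 3` the defining equations for `(a(V), b(V))` have exactly one solution, and its first
member is not the class `[Jord(V)]` of the free Jordan algebra: in degree `18` the prediction is
smaller than the dimension of the space of symmetric elements of the free associative algebra.
All definitions are in `Pool/Agent/U691/KM/Defs.lean`.
-/

set_option autoImplicit false

namespace Pool.Agent.Results.MP_dbd475_al.FailsInRankThree

open Pool.Agent.U691.KM

/-- For every field `F` with `2 ≠ 0` and `dim V = 3`: there is exactly one pair `(a(V), b(V))`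
which satisfies the defining equations, and `a(V) ≠ [Jord(V)]`. -/
theorem result (F : Type) [Field F] (h2 : (2 : F) ≠ 0) : ∃ a b : R 3, IsPair a b ∧
    (∀ a' b' : R 3, IsPair a' b' → a' = a ∧ b' = b) ∧ chJord F 3 ≠ a := by
  obtain ⟨a, b, h⟩ := exists_pair 3
  exact ⟨a, b, h, fun a' b' h' => pair_unique h' h, chJord_ne h2 h⟩

end Pool.Agent.Results.MP_dbd475_al.FailsInRankThree
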