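import Pool.Agent.R498.MP.Gold
import Pool.Agent.Helper32K9.Str.Prop

set_option autoImplicit false

/-!
# Strings of consecutive primes as first summands, with almost prime second summands, for every large even number

The question asks for a lower bound for the number of the representations of an even number as a sum of two primes. Here
the second summand is only an almost prime (a bounded number of prime factors, all larger than a power of the number),
but the first summands run through strings of `m` consecutive primes in bounded intervals: for every large even number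
`M`, and for all scales `N`, `M ^ (1 / A) ≤ N < M / 2`, a positive proportion of all patterns with `m` elements in any
given large finite set are realised, each at least `N / (log N) ^ B` times in `(N, 2 N]`, by consecutive primes in a
given residue class all of whose differences with `M` are such almost primes.
-/

namespace Pool.Agent.Results.MP_dd84fd_nt.ConsecutiveSummands

open Finset Filter

/-- `n` has at most `r` prime factors, counted with multiplicity, all of them at least `w`. -/
def AlmostPrime (r : ℕ) (w : ℝ) (n : ℕ) : Prop :=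
  n.primeFactorsList.length ≤ r ∧ ∀ q : ℕ, q.Prime → q ∣ n → w ≤ q

/-- The integers `n` with `N < n`, `n + max H ≤ 2 N` such that the primes in the interval `[n, n + max H]` are
exactly the numbers `n + h`, `h ∈ H`, all of them are `≡ c` modulo `q`, and for all of them `M - (n + h)` has at most
`r` prime factors, all of them at least `N ^ δ`. -/
def places (M N q c r : ℕ) (δ : ℝ) (H : Finset ℕ) : Set ℕ :=
  {n | N < n ∧ n + H.sup id ≤ 2 * N ∧ (∀ y ≤ H.sup id, (n + y).Prime ↔ y ∈ H) ∧
    ∀ h ∈ H, n + h ≡ c [MOD q] ∧ AlmostPrime r ((N : ℝ) ^ δ) (M - (n + h))}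

theorem places_finite (M N q c r : ℕ) (δ : ℝ) (H : Finset ℕ) : (places M N q c r δ H).Finite :=
  (Set.finite_Iic (2 * N)).subset fun n hn => by
    have h1 : n + H.sup id ≤ 2 * N := hn.2.1
    rw [Set.mem_Iic]
    omega

/-- **Strings of consecutive primes as first summands.** Let `q` be squarefree and `m ≥ 1`. There are `C`, `B` and
`δ > 0` such that for every `A` there is `r` such that for every finite set `T` of at least `C` nonnegative integers and
all large even numbers `M` the following holds for all `N` with `M ^ (1 / A) ≤ N < M / 2` and all `c` for which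
`c (M - c)` is coprime to `q` (for instance `q = 1`): for at least the proportion `1 / C` of the subsets `H` of `T` with
`m` elements there are at least `N / (log N) ^ B` integers `n`, `N < n`, `n + max H ≤ 2 N`, such that the primes in
`[n, n + max H]` are exactly the numbers `n + h`, `h ∈ H`, all of them are `≡ c` modulo `q` and all the second summands
`M - (n + h)` have at most `r` prime factors, all of them at least `N ^ δ`. -/
theorem result (q : ℕ) (hq : Squarefree q) (m : ℕ) (hm : 1 ≤ m) :
    ∃ (C B : ℕ) (δ : ℝ), 0 < C ∧ 0 < δ ∧ ∀ A : ℕ, ∃ r : ℕ, ∀ T : Finset ℕ, C ≤ T.card →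
      ∀ᶠ M : ℕ in atTop, Even M → ∀ N : ℕ, M ≤ N ^ A → 2 * N < M →
      ∀ c : ℕ, IsCoprime ((c : ℤ) * ((M : ℤ) - c)) (q : ℤ) →
      T.card.choose m ≤ C * {H : Finset ℕ | H ⊆ T ∧ H.card = m ∧
        (N : ℝ) / Real.log N ^ B ≤ (places M N q c r δ H).ncard}.ncard := by
  classical
  obtain ⟨K, B, δ, hδ, hmain⟩ := Pool.Agent.R498.MP.gold_stringsM q hq m
  obtain ⟨K', hK'⟩ : ∃ K', K' = max K m := ⟨_, rfl⟩
  have hKK' : K ≤ K' := by omega
  have hmK' : m ≤ K' := by omega
  refine ⟨max K' (K'.choose m), B, δ, by omega, hδ, fun A => ?_⟩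
  obtain ⟨r, hr⟩ := hmain A
  refine ⟨r, fun T hT => ?_⟩
  have h2 : ∀ᶠ M : ℕ in atTop, ∀ S ∈ T.powerset.filter (fun S => K ≤ S.card),
      ∀ N : ℕ, M ≤ N ^ A → Even M → 2 * N < M →
      ∀ c : ℕ, IsCoprime ((c : ℤ) * ((M : ℤ) - c)) (q : ℤ) →
      ∃ H ⊆ S, m ≤ H.card ∧ ∃ T : Finset ℕ, (N : ℝ) ≤ Real.log N ^ B * T.card ∧
        ∀ n ∈ T, N < n ∧ n + S.sup id ≤ 2 * N ∧ (∀ y ≤ S.sup id, (n + y).Prime ↔ y ∈ H) ∧
          ∀ h ∈ H, n + h ≡ c [MOD q] ∧ Pool.Agent.R498.MP.APN r ((N : ℝ) ^ δ) (M - (n + h)) := by
    rw [Filter.eventually_all_finset]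
    intro S hS
    exact hr S (Finset.mem_filter.1 hS).2
  filter_upwards [h2, eventually_gt_atTop (3 ^ A)] with M hM hM3
  intro heven N hNA hNM c hc
  have hN3 : 3 < N := by
    by_contra hcon
    push Not at hcon
    have := Nat.pow_le_pow_left hcon A
    omega
  have hlog : 0 < Real.log N := Real.log_pos (by exact_mod_cast (by omega : 1 < N))
  have key := Pool.Agent.Helper32K9.Str.proportion hm hmK' T ((le_max_left _ _).trans hT)
    (fun H => ∃ S ⊆ T, H ⊆ S ∧ ∃ T : Finset ℕ, (N : ℝ) ≤ Real.log N ^ B * T.card ∧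
        ∀ n ∈ T, N < n ∧ n + S.sup id ≤ 2 * N ∧ (∀ y ≤ S.sup id, (n + y).Prime ↔ y ∈ H) ∧
          ∀ h ∈ H, n + h ≡ c [MOD q] ∧ Pool.Agent.R498.MP.APN r ((N : ℝ) ^ δ) (M - (n + h)))
    (fun H => (N : ℝ) / Real.log N ^ B ≤ (places M N q c r δ H).ncard) ?_ ?_
  · exact key.trans (Nat.mul_le_mul_right _ (le_max_right _ _))
  · intro S hS hSK
    obtain ⟨H, h3, h4, h5⟩ := hM S (Finset.mem_filter.2 ⟨Finset.mem_powerset.2 hS, by omega⟩) N hNA heven
      hNM c hc
    exact ⟨H, h3, h4, S, hS, h3, h5⟩
  · rintro H H' ⟨S, hS, hHS, U, h4, h5⟩ hH' hcard hy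
    have h7 : H'.sup id ≤ S.sup id := Finset.sup_mono (hH'.trans hHS)
    have hsub : (U : Set ℕ) ⊆ places M N q c r δ H' := by
      intro n hn
      obtain ⟨g1, g2, g3, g4⟩ := h5 n (Finset.mem_coe.1 hn)
      refine ⟨g1, by omega, fun y hys => ⟨fun hp => ?_, fun hyH => (g3 y (by omega)).2 (hH' hyH)⟩,
        fun h hh => g4 h (hH' hh)⟩
      exact hy y ((g3 y (by omega)).1 hp) hys
    have h8 : U.card ≤ (places M N q c r δ H').ncard := by
      rw [← Set.ncard_coe_finset U]
      exact Set.ncard_le_ncard hsub (places_finite M N q c r δ H')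
    have h9 : (U.card : ℝ) ≤ (places M N q c r δ H').ncard := by exact_mod_cast h8
    rw [div_le_iff₀ (by positivity)]
    nlinarith [pow_pos hlog B]

end Pool.Agent.Results.MP_dd84fd_nt.ConsecutiveSummands
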