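import Pool.Agent.Results.MP_e573c6_ag.RandomOrbits
import Pool.Agent.U569.APL.Fam

/-!
# MP_e573c6_ag: Zilber-Pink for families of curves in `Y(1)^n` at algebraic parameters of all degrees whose equations
# are formed from arbitrary sets of residues

The families `F`, the members `X_t = member F lam t ⊂ Y(1)^n`, and the property `ZilberPink Γ X_t` (only
finitely many points of `X_t` are on special subvarieties of codimension at least two, and each proper
special subvariety contains only finitely many points of `X_t`) are those of the starting file
`FamiliesAlmostAllParameters`: one-parameter families of curves, not necessarily isotrivial, of any genus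
and any degree, which tend to the cusp `(∞, ..., ∞)` for `t → ∞` in general position (`GoodOrigin F`). For
example (`n = 2`) the families of the plane curves
`∑_{u ≤ a, v ≤ b} g_{uv} (1/t) t ^ (- u - v) x_1 ^ u x_2 ^ v = 0`, `g_{uv}` arbitrary polynomials with
`g_{00}, g_{a0}, g_{0b}, g_{ab} ≠ 0` at `0` and `∑ g_{uv} (0) y_1 ^ u y_2 ^ v` irreducible.

`Controlled F lam Γ m u` (starting file `RandomOrbits`): the members `X_t` satisfy `ZilberPink` for all algebraic
numbers `t` of any degree `d ≥ 1` which are roots of some polynomial `f` with integral coefficients, of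
degree `d`, whose leading coefficient is a multiple of `m`, and whose next coefficient divides a power
of `u`. The other coefficients of `f` are arbitrary. For example `f` can be the polynomial with the vector of coefficients
`c` if `m = c_0`, `u = c_1`.

Let a sequence (`j = 0, 1, 2, …`) of families of vectors in `ℤ ^ ι`, `|ι| = r`, be given. The vectors of the `j`-th family
are `c₀ + y`, `c₀` an arbitrary integral vector (depending on `j`, of any size) and `y` one of the following vectors
(represented by `0, …, q - 1`):

* `y` in any family of vectors modulo some `q` (depending on `j`), whose nontrivial Fourier coefficients are at most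
  `1 / (Z (42 + 3 log q) ^ r)`, where `Z → ∞`, `Z ≤ q`;
* `β(x, z) + u(x) + w(z)` modulo a prime `P → ∞`, where `β : k ^ a × k ^ b → k ^ r` is bilinear, the nontrivial
  combinations of its coordinates have rank at least `ρ`, `x` and `z` are in ARBITRARY sets `E` and `F` with
  `|E| |F| ≥ P ^ (a + b - ρ + δ)`, `u` and `w` are arbitrary functions (for `δ > 0` fixed);
* the same for `β(x, z) = x z`, `x` and `z` in ARBITRARY subsets of the field of `P ^ r` elements,
  `|E| |F| ≥ P ^ (r + δ)`;
* polynomials in `k` variables of degree at most `P ^ (δ / 4)`, all nontrivial combinations of which have a monomial with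
  at least two variables, plus arbitrary functions of the single variables, on products of `k` ARBITRARY sets of at
  least `P ^ (1 / 2 + δ)` residues;
* polynomials in one variable of degree at most `P ^ (δ / 4)`, no nontrivial combination of which is constant, on any
  subgroup of the multiplicative group modulo `P` with at least `P ^ (1 / 2 + δ)` elements.

**Theorem.** There are exceptions `E j`, `|E j| = o(size)`, such that for ALL families `F`, `lam`, all finite sets `Γ`
of algebraic numbers and all coordinates `a ≠ b`, for large `j` all the vectors `c` of the `j`-th family outside of `E j`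
satisfy `Controlled F lam Γ (c a) (c b)`.

New: the families of vectors. The local criterion is `exists_bound` of `RandomOrbits` (starting library `Y219`), the
exceptional sets are pronull by `N24.RW`; such sets contain few members of the families by the theorem of the starting
library `N384.VF` on vectors of residues; the estimates of the Fourier coefficients on arbitrary sets are in `U569/APL`.
-/

set_option autoImplicit false

namespace Pool.Agent.Results.MP_e573c6_ag.ArbitrarySets

open Filter
open Pool.Agent.Results.MP_e573c6_ag.FamiliesAlmostAllParameters (GoodOrigin)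
open Pool.Agent.Results.MP_e573c6_ag.RandomOrbits (Controlled exists_bound)
open Pool.Agent.U569.APL

/-- **Zilber-Pink for families of curves in `Y(1)^n` at algebraic parameters whose equations are formed from arbitrary
sets.** -/
theorem result (ι : Type) [Fintype ι] :
    (∀ (τ : ℕ → Type) (s : ∀ j, Finset (τ j)) (v : ∀ j, τ j → ι → ℤ), FlatFamilies s v →
      ∃ E : ∀ j, Finset (τ j), Small s E ∧
      ∀ (n : ℕ) (κ : Type) [Finite κ]
        (F : κ → MvPolynomial (Fin n × Bool) (Polynomial (algebraicClosure ℚ ℂ))), GoodOrigin F →
        ∀ lam : Fin n → Polynomial (algebraicClosure ℚ ℂ), (∀ l, 0 < (lam l).natDegree) →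
        ∀ Γ : Finset ℂ, (∀ γ ∈ Γ, IsAlgebraic ℚ γ) → ∀ a b : ι, a ≠ b →
          Outside s E v fun c => Controlled F lam (Γ : Set ℂ) (c a) (c b)) ∧
    Examples ι := by
  classical
  refine ⟨fun τ s v hs => ?_, examples _⟩
  obtain ⟨E, hE, h⟩ := flat_diag hs
    (fun D : ℕ => {c : ι → ℤ | ¬ ∀ l : ι, ∃ p : ℕ, p.Prime ∧ D < p ∧ (p : ℤ) ∣ c l ∧ ¬ ((p : ℤ) ^ 2 ∣ c l) ∧
      ∀ j, j ≠ l → ¬ (p : ℤ) ∣ c j}) (fun D => Pool.Agent.N24.RW.one ι D)
  refine ⟨E, hE, fun n κ _ F hF lam hlam Γ hΓ a b hab => ?_⟩
  obtain ⟨D, hD⟩ := exists_bound F hF lam hlam Γ hΓ
  filter_upwards [h D] with j hj i hi hi2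
  obtain ⟨p, hp, hDp, h1, -, h2⟩ := not_not.mp (hj i hi hi2) a
  exact hD _ _ ⟨p, hp, hDp, h1, h2 b (Ne.symm hab)⟩

end Pool.Agent.Results.MP_e573c6_ag.ArbitrarySets
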