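import Mathlib
import Pool.Agent.U462.Sh.ZGold

set_option autoImplicit false

/-!
# Pairs with fixed sum between consecutive squares: every pattern of the squares is possible
-/

namespace Pool.Agent.Results.MP_e94e4b_nt.AnyPatternOfSquares

open Finset Filter
open scoped Topology
open Pool.Agent.U462.Sh.Law

/-- the number of the `k` with `2 ≤ k ≤ 2 n` for which `n ^ 2 + k + 1` and `(n + 1) ^ 2 - k` belong to `S` -/
noncomputable def pairs (S : Set ℕ) (n : ℕ) : ℕ :=
  {k : ℕ | 2 ≤ k ∧ k ≤ 2 * n ∧ n ^ 2 + k + 1 ∈ S ∧ (n + 1) ^ 2 - k ∈ S}.ncard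

/-- `L` has at `m` the values `n ^ 2 + k + 1` and `(n + 1) ^ 2 - k` for some `n` in `N` and `2 ≤ k ≤ 2 n` -/
def Involved (N : Set ℕ) (L : Finset (ℤ × ℤ)) (m : ℕ) : Prop :=
  ∃ n ∈ N, ∃ k : ℕ, 2 ≤ k ∧ k ≤ 2 * n ∧ (∃ l ∈ L, value l m = n ^ 2 + k + 1) ∧ ∃ l ∈ L, value l m = (n + 1) ^ 2 - k

/-- **Every pattern of the squares is possible.** For every set `N` of natural numbers there is a set `S` of
rough numbers `≥ 2` such that for `n` in `N` there is no `k`, `2 ≤ k ≤ 2 n`, with `n ^ 2 + k + 1` and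
`(n + 1) ^ 2 - k` in `S`, while the number of these `k` tends to infinity for `n` outside `N`, and for which
the uniform Hardy–Littlewood law holds for all systems of linear forms and all intervals `[u, v)` for which
at most `√(v - u)` of the `m` in `[u, v)` are involved with a pair of `N`. -/
theorem result : ∀ N : Set ℕ, ∃ S : Set ℕ, (∀ m ∈ S, 2 ≤ m ∧ Rough m) ∧ (∀ n ∈ N, pairs S n = 0) ∧
    (∀ K : ℕ, ∃ n₀ : ℕ, ∀ n : ℕ, n₀ ≤ n → n ∉ N → K ≤ pairs S n) ∧
    LawOn S (fun L u v => (({m : ℕ | u ≤ m ∧ m < v ∧ Involved N L m}.ncard : ℕ) : ℝ) ≤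
      Real.sqrt ((v : ℝ) - u)) := by
  classical
  intro N
  obtain ⟨H, hH⟩ : ∃ H : Finset ℕ → Prop, H = fun e => ∃ n ∈ N, ∃ k : ℕ, 2 ≤ k ∧ k ≤ 2 * n ∧
    e = {n ^ 2 + k + 1, (n + 1) ^ 2 - k} := ⟨_, rfl⟩
  have hsq : ∀ n : ℕ, (n + 1) ^ 2 = n ^ 2 + 2 * n + 1 := fun n => by ring
  have h0 : ¬ H ∅ := by
    rw [hH]
    rintro ⟨n, _, k, _, _, he⟩
    have : n ^ 2 + k + 1 ∈ (∅ : Finset ℕ) := by rw [he]; simp
    exact notMem_empty _ this
  have hroot : ∀ n m : ℕ, n ^ 2 < m → m ≤ (n + 1) ^ 2 → Nat.sqrt (m - 1) = n := by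
    intro n m h1 h2
    symm
    rw [Nat.eq_sqrt]
    constructor
    · have : n * n = n ^ 2 := by ring
      omega
    · have : (n + 1) * (n + 1) = (n + 1) ^ 2 := by ring
      omega
  have hsp : Pool.Agent.U462.Sh.SparseFam H := by
    refine Pool.Agent.U462.Sh.sparse_of_few H 2
      (fun m => {m, 2 * (Nat.sqrt (m - 1)) ^ 2 + 2 * Nat.sqrt (m - 1) + 2 - m}) ?_ ?_
    · intro m
      exact card_le_two
    · intro e he n1 h1 m1 h2
      rw [hH] at he
      obtain ⟨n, _, k, hk1, hk2, rfl⟩ := he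
      have e0 := hsq n
      simp only [mem_insert, mem_singleton] at h1 h2 ⊢
      have hr : Nat.sqrt (n1 - 1) = n := by
        rcases h1 with rfl | rfl
        · exact hroot n _ (by omega) (by omega)
        · exact hroot n _ (by omega) (by omega)
      rw [hr]
      rcases h1 with rfl | rfl <;> rcases h2 with rfl | rfl
      · left; rfl
      · right; omega
      · right; omega
      · left; rfl
  obtain ⟨S, h1, h2, h3⟩ := Pool.Agent.U462.Sh.on_of H h0 hsp
  have hlaw : LawOn S (fun L u v => (({m : ℕ | u ≤ m ∧ m < v ∧ Involved N L m}.ncard : ℕ) : ℝ) ≤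
      Real.sqrt ((v : ℝ) - u)) := by
    apply h3
    intro k
    refine ⟨1, 0, ?_⟩
    intro X _ L _ _ _ u v _ _ _ hgood
    rw [one_mul]
    refine le_trans (le_of_eq ?_) hgood
    congr 2
    ext m
    simp only [Set.mem_setOf_eq]
    refine and_congr_right fun _ => and_congr_right fun _ => ?_
    unfold Involved
    rw [hH]
    constructor
    · rintro ⟨e, ⟨n, hn, k, hk1, hk2, rfl⟩, hall⟩
      exact ⟨n, hn, k, hk1, hk2, hall _ (by simp), hall _ (by simp)⟩
    · rintro ⟨n, hn, k, hk1, hk2, h4, h5⟩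
      refine ⟨_, ⟨n, hn, k, hk1, hk2, rfl⟩, ?_⟩
      intro m' hm'
      simp only [mem_insert, mem_singleton] at hm'
      rcases hm' with rfl | rfl
      exacts [h4, h5]
  have hfin : ∀ n, {k : ℕ | 2 ≤ k ∧ k ≤ 2 * n ∧ n ^ 2 + k + 1 ∈ S ∧ (n + 1) ^ 2 - k ∈ S}.Finite := fun n =>
    (Set.finite_Iic (2 * n)).subset (fun k hk => hk.2.1)
  refine ⟨S, h1, ?_, ?_, hlaw⟩
  · intro n hn
    unfold pairs
    rw [Set.ncard_eq_zero (hfin n)]
    ext k
    simp only [Set.mem_setOf_eq, Set.mem_empty_iff_false, iff_false]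
    rintro ⟨hk1, hk2, h4, h5⟩
    apply h2 {n ^ 2 + k + 1, (n + 1) ^ 2 - k}
    · rw [hH]
      exact ⟨n, hn, k, hk1, hk2, rfl⟩
    · intro m hm
      simp only [mem_insert, mem_singleton] at hm
      rcases hm with rfl | rfl
      exacts [h4, h5]
  · intro K
    obtain ⟨X0, hX0⟩ := Pool.Agent.U462.Sh.manyU hlaw 2 1 one_pos (1 / 2) (by norm_num) K
    refine ⟨X0 + 2, ?_⟩
    intro n hn hnN
    have e0 := hsq n
    have hbig : X0 ≤ (n + 1) ^ 2 := by
      calc X0 ≤ n + 1 := by omega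
        _ ≤ (n + 1) ^ 2 := Nat.le_self_pow (by norm_num) _
    have hval1 : ∀ m : ℕ, value (1, (n : ℤ) ^ 2 + 1) m = n ^ 2 + m + 1 := by
      intro m
      unfold value
      have : (1 : ℤ) * (m : ℤ) + ((n : ℤ) ^ 2 + 1) = ((n ^ 2 + m + 1 : ℕ) : ℤ) := by push_cast; ring
      rw [this, Int.toNat_natCast]
    have hval2 : ∀ m : ℕ, m ≤ (n + 1) ^ 2 → value (-1, ((n : ℤ) + 1) ^ 2) m = (n + 1) ^ 2 - m := by
      intro m hm
      unfold value
      have : (-1 : ℤ) * (m : ℤ) + ((n : ℤ) + 1) ^ 2 = (((n + 1) ^ 2 - m : ℕ) : ℤ) := by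
        rw [Nat.cast_sub hm]; push_cast; ring
      rw [this, Int.toNat_natCast]
    have hsum : (n : ℤ) ^ 2 + 1 + ((n : ℤ) + 1) ^ 2 = 2 * ((n : ℤ) ^ 2 + n + 1) := by ring
    have hn0 : (0 : ℤ) ≤ n := Int.natCast_nonneg n
    refine (hX0 ((n + 1) ^ 2) hbig {((1 : ℤ), (n : ℤ) ^ 2 + 1), (-1, ((n : ℤ) + 1) ^ 2)}
      (Pool.Agent.U462.Sh.gold_sys _ _ (by rw [hsum]; positivity)) (Pool.Agent.U462.Sh.gold_card _ _) ?_ ?_
      2 (2 * n + 1) (by omega) (by omega) ?_ ?_ ?_).trans ?_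
    · intro l hl
      simp only [mem_insert, mem_singleton] at hl
      push_cast
      rcases hl with rfl | rfl
      · refine ⟨?_, ?_⟩
        · simp only [abs_one]; nlinarith
        · simp only; rw [abs_of_nonneg (by positivity)]; nlinarith
      · refine ⟨?_, ?_⟩
        · simp only [abs_neg, abs_one]; nlinarith
        · simp only; rw [abs_of_nonneg (by positivity)]
    · intro t
      exact Pool.Agent.U462.Sh.ser_ge _ (Pool.Agent.U462.Sh.gold_sys _ _ (by rw [hsum]; positivity))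
        (Pool.Agent.U462.Sh.gold_card _ _) (Pool.Agent.U462.Sh.gold_two _ _ (by rw [hsum]; exact dvd_mul_right _ _)) t
    · rw [← Real.sqrt_eq_rpow]
      push_cast
      rw [Real.sqrt_sq (by positivity)]
      have hnR : (2 : ℝ) ≤ n := by exact_mod_cast (by omega : 2 ≤ n)
      linarith
    · intro m hm1 hm2 l hl
      simp only [mem_insert, mem_singleton] at hl
      have hm2' : (m : ℤ) ≤ 2 * n := by exact_mod_cast (by omega : m ≤ 2 * n)
      have hm0 : (0 : ℤ) ≤ m := Int.natCast_nonneg m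
      have hm1' : (2 : ℤ) ≤ m := by exact_mod_cast hm1
      have hn2 : (2 : ℤ) ≤ n := by exact_mod_cast (by omega : 2 ≤ n)
      rcases hl with rfl | rfl
      · simp only; nlinarith
      · simp only; nlinarith
    · refine le_trans (le_of_eq ?_) (Real.sqrt_nonneg _)
      rw [Nat.cast_eq_zero, Set.ncard_eq_zero ((Set.finite_Iio (2 * n + 1)).subset fun m hm => hm.2.1)]
      ext m
      simp only [Set.mem_setOf_eq, Set.mem_empty_iff_false, iff_false]
      rintro ⟨hm1, hm2, n', hn', k, hk1, hk2, ⟨l, hl, hlm⟩, _⟩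
      have e0' := hsq n'
      simp only [mem_insert, mem_singleton] at hl
      have hb : n ^ 2 < value l m ∧ value l m ≤ (n + 1) ^ 2 := by
        rcases hl with rfl | rfl
        · rw [hval1 m]; omega
        · rw [hval2 m (by omega)]; omega
      have h5 : n = n' := by
        rw [hlm] at hb
        have h6 := hroot n _ hb.1 hb.2
        have h7 := hroot n' (n' ^ 2 + k + 1) (by omega) (by omega)
        omega
      rw [h5] at hnN
      exact hnN hn'
    · unfold count pairs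
      apply Set.ncard_le_ncard _ (hfin n)
      rintro m ⟨hm1, hm2, hall⟩
      have h4 := hall _ (mem_insert_self _ _)
      have h5 := hall _ (mem_insert_of_mem (mem_singleton_self _))
      rw [hval1 m] at h4
      rw [hval2 m (by omega)] at h5
      exact ⟨hm1, by omega, h4, h5⟩

end Pool.Agent.Results.MP_e94e4b_nt.AnyPatternOfSquares
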