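import Mathlib
import Pool.Agent.U856.DE.D14
import Pool.Agent.U856.EH.M16

/-!
# Moebius-twisted Elliott-Halberstam with weights fixed in advance for families with a nearly minimal additive energy

(1) With weights of the moduli which are fixed in advance (this is what the conditional proof of the Goldbach conjecture
uses) the Moebius-twisted Elliott-Halberstam bound holds at all levels up to `N exp (-(log N) ^ c)` at all integers `s(m) + h`,
`h` in a given set of at most `(log N) ^ W` shifts, for almost all members `s(m)` of every family of integers with a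
nearly minimal additive energy of some order. (2) In particular for the values of all nonconstant integer polynomials.

Proof. The weighted sum is a convolution of `Λ` with a function whose exponential sum is uniformly small (Davenport's theorem with
divisor weights); its moment of order `2p` over the family is estimated by the additive energy.
-/

set_option autoImplicit false

namespace Pool.Agent.Results.MP_e9eb55_nt.EnergyFamilies
open Finset Polynomial

/-- the first weight, `μ(m)` -/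
noncomputable def g₁ (m : ℕ) : ℝ := ((ArithmeticFunction.moebius m : ℤ) : ℝ)

/-- the second weight, `μ(m) log m` -/
noncomputable def g₂ (m : ℕ) : ℝ := ((ArithmeticFunction.moebius m : ℤ) : ℝ) * Real.log m

/-- the sum of `Λ(n) g(N - n)` over `1 ≤ n < N` with `n ≡ N (mod q)` -/
noncomputable def twistedSum (g : ℕ → ℝ) (q N : ℕ) : ℝ :=
  ∑ n ∈ (Finset.Ico 1 N).filter (fun n => n ≡ N [MOD q]), ArithmeticFunction.vonMangoldt n * g (N - n)

/-- the discrepancies with the weights `lam q`, without absolute values -/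
noncomputable def wdisc (g lam : ℕ → ℝ) (Q N : ℕ) : ℝ :=
  ∑ q ∈ (Finset.Icc 1 Q).filter (fun q => q.Coprime N),
    lam q * (twistedSum g q N - 1 / (Nat.totient q : ℝ) * twistedSum g 1 N)

/-- the additive energy of order `p`: the number of solutions of
`s(v_1) + ... + s(v_p) = s(w_1) + ... + s(w_p)` in positive integers `v_i, w_i ≤ x` -/
def energy (p x : ℕ) (s : ℕ → ℤ) : ℕ :=
  (((Fintype.piFinset fun _ : Fin p => Finset.Icc 1 x) ×ˢ (Fintype.piFinset fun _ : Fin p => Finset.Icc 1 x)).filter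
    (fun q => ∑ i, s (q.1 i) = ∑ i, s (q.2 i))).card

open Classical in
/-- the number of the positive integers `m ≤ x` with the property `P` -/
noncomputable def num (x : ℕ) (P : ℕ → Prop) : ℕ := ((Finset.Icc 1 x).filter P).card

/-- For all but few `m ≤ x` the discrepancies with the weights `lam`, all moduli `q ≤ Q`, both weights `g` and all positive integers
`s(m) + h`, `h ∈ H`, are small: for all systems of at most `(log N) ^ W` shifts and all weights with
`|lam q| ≤ (log N) ^ T τ(q) ^ T`, where `Q ≤ N exp (-(log N) ^ c)`. -/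
def AlmostAll (c : ℝ) (B T U W N x : ℕ) (s : ℕ → ℤ) : Prop :=
  ∀ H : Finset ℤ, (H.card : ℝ) ≤ Real.log N ^ W → (∀ h ∈ H, |h| ≤ B * N) →
    ∀ lam : ℕ → ℝ, (∀ q, |lam q| ≤ Real.log N ^ T * (q.divisors.card : ℝ) ^ T) → ∀ Q : ℕ,
    (Q : ℝ) ≤ N * Real.exp (-(Real.log N) ^ c) →
    (num x (fun m => ∃ h ∈ H, 0 < s m + h ∧ ∃ g : ℕ → ℝ, (g = g₁ ∨ g = g₂) ∧
      (N : ℝ) / Real.log N ^ U < |wdisc g lam Q (s m + h).toNat|) : ℝ) ≤ x / Real.log N ^ U

/-- **Theorem.** Let `0 < c ≤ 1`.
(1) If the integers `s(1), ..., s(x)` are at most `B N` in absolute value and have an additive energy of order `p` of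
at most `(log N) ^ C x ^ (2 p) / N`, then the discrepancies with weights fixed in advance are small for all levels up to
`N exp (-(log N) ^ c)`, at all positive integers `s(m) + h`, `h ∈ H`, for all but few `m`.
(2) This is so for the values `c₀ + f(m)`, `m ≤ x`, of every nonconstant integer polynomial `f` of degree `d`, if
`N / (log N) ^ C ≤ x ^ d ≤ B N` and `|c₀| ≤ B N`. -/
theorem result :
    (∀ c : ℝ, 0 < c → c ≤ 1 → ∀ p B C T U W : ℕ, ∃ N0 : ℕ, ∀ N : ℕ, N0 ≤ N → ∀ (x : ℕ) (s : ℕ → ℤ),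
      (∀ m ∈ Finset.Icc 1 x, |s m| ≤ B * N) → (energy p x s : ℝ) * N ≤ Real.log N ^ C * (x : ℝ) ^ (2 * p) →
      AlmostAll c B T U W N x s) ∧
    (∀ f : ℤ[X], 1 ≤ f.natDegree → ∀ c : ℝ, 0 < c → c ≤ 1 → ∀ B C T U W : ℕ, ∃ N0 : ℕ, ∀ N : ℕ, N0 ≤ N → ∀ x : ℕ,
      x ^ f.natDegree ≤ B * N → (N : ℝ) ≤ Real.log N ^ C * (x : ℝ) ^ f.natDegree → ∀ c₀ : ℤ, |c₀| ≤ B * N →
      AlmostAll c B T U W N x (fun m => c₀ + f.eval (m : ℤ))) := by
  classical
  have h2 : ∀ c : ℝ, 0 < c → c ≤ 1 → ∀ p B B' C T U W : ℕ, B ≤ B' → ∃ N0 : ℕ, ∀ N : ℕ, N0 ≤ N → ∀ (x : ℕ) (s : ℕ → ℤ),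
      (∀ m ∈ Finset.Icc 1 x, |s m| ≤ B' * N) → (energy p x s : ℝ) * N ≤ Real.log N ^ C * (x : ℝ) ^ (2 * p) →
      AlmostAll c B T U W N x s := by
    intro c hc hc1 p B B' C T U W hBB
    obtain ⟨N0, h⟩ := Pool.Agent.U856.DE.fam_pre c hc hc1 p B' C T U W
    refine ⟨N0, fun N hN x s hs hE H hH hHB lam hlam Q hQ => ?_⟩
    have hcard : Fintype.card (Pool.Agent.U856.EH.Ix x) = x := Pool.Agent.U856.EH.card_sub x
    have h1 := h N hN (Pool.Agent.U856.EH.Ix x) (fun i => s i.1) (fun i => hs i.1 i.2) (by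
      rw [hcard]
      refine le_trans ?_ hE
      apply mul_le_mul_of_nonneg_right _ (Nat.cast_nonneg _)
      exact_mod_cast Pool.Agent.U856.EH.En_le p x s) H hH (fun τ hτ => (hHB τ hτ).trans (by
        apply mul_le_mul_of_nonneg_right _ (by positivity)
        exact_mod_cast hBB)) lam hlam Q hQ
    rw [hcard] at h1
    refine le_trans ?_ h1
    unfold num
    norm_cast
    apply card_le_card_of_surjOn (fun i => i.1)
    intro m hm
    rw [mem_coe, mem_filter] at hm
    refine ⟨⟨m, hm.1⟩, ?_, rfl⟩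
    rw [mem_coe, mem_filter]
    exact ⟨mem_univ _, hm.2⟩
  refine ⟨?_, ?_⟩
  · intro c hc hc1 p B C T U W
    exact h2 c hc hc1 p B B C T U W le_rfl
  · intro f hd c hc hc1 B C T U W
    obtain ⟨p, B', hBB, N1, hp⟩ := Pool.Agent.TH823.Fam.poly_family f hd B C
    obtain ⟨N0, h⟩ := h2 c hc hc1 p B B' (C + 1) T U W hBB
    refine ⟨max N0 N1, fun N hN x hx1 hx2 c₀ hc₀ => ?_⟩
    obtain ⟨e1, e2⟩ := hp N ((le_max_right _ _).trans hN) x hx1 hx2 c₀ hc₀
    exact h N ((le_max_left _ _).trans hN) x _ e1 e2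

end Pool.Agent.Results.MP_e9eb55_nt.EnergyFamilies
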