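import Pool.Agent.U722.FF.Lb6

/-!
# `L²`-homology above half the cocompact action dimension: virtual linear groups of rank two

Let `G` be a group acting geometrically on a contractible `m`-manifold, possibly with boundary; it may
have torsion. The question is whether `L²H_i(G) = 0` for `i > m / 2`. We show that `L²H_i(G) = 0` for all
`i ≥ 2` if `G` has a subgroup of finite index which is isomorphic to a subgroup of
`GL_2(ℤ[x_1, ..., x_n])` for some `n`. So the answer is yes for all these groups (for `m ≤ 1` the group `G`
is virtually cyclic). No finiteness property of `G` is used.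

Outline. A finitely generated torsion-free subgroup of `GL_2(ℤ[x_1, ..., x_n])` acts on a tree with
finitely many orbits, the stabilizers of the edges are finitely generated abelian, those of the vertices
are finitely generated abelian or free (`Pool.Agent.U722.FF.Str`). With coefficients in the Ore
localization `U` of the group von Neumann algebra the homology of a nontrivial torsion-free abelian group
vanishes in all degrees, and the one of a free group in the degrees `≥ 2`; so the homology of `G` with
coefficients in `U` vanishes in the degrees `≥ 2`. Directed unions and transfer give the general case.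
-/

set_option autoImplicit false

namespace Pool.Agent.Results.MP_ea75ba_gt.PolynomialMatrixGroups

open Pool.Agent.N496.CV

/-- `G` has a subgroup of finite index which is isomorphic to a subgroup of
`GL_2(ℤ[x_1, ..., x_n])` for some `n` -/
def VirtuallyLin (G : Type) [Group G] : Prop :=
  ∃ (N : Subgroup G) (n : ℕ) (ρ : N →* GL (Fin 2) (MvPolynomial (Fin n) ℤ)),
    N.index ≠ 0 ∧ Function.Injective ρ

/-- Let `G` be a group which has a subgroup of finite index isomorphic to a subgroup of
`GL_2(ℤ[x_1, ..., x_n])`. Then the `L²`-Betti numbers of `G`, and of all groups containing a finite index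
subgroup isomorphic to a subgroup of `G`, vanish in all degrees `k ≥ 2`; in particular in all degrees
`k > m / 2` for `m ≥ 2`. -/
theorem result : ∀ (G : Type) [Group G], VirtuallyLin G →
    (∀ k : ℕ, 2 ≤ k → HasL2Betti G k 0) ∧
    (∀ m k : ℕ, 2 ≤ m → m < 2 * k → HasL2Betti G k 0) ∧
    ∀ (Γ : Type) [Group Γ] (M : Subgroup Γ) (f : M →* G), M.index ≠ 0 → Function.Injective f →
      ∀ k : ℕ, 2 ≤ k → HasL2Betti Γ k 0 := by
  rintro G _ ⟨N, n, ρ, hN, hρ⟩
  refine ⟨fun k hk => U722.FF.has0 (U722.FF.L2LIN n G N hN ρ hρ k hk),
    fun m k h1 h2 => U722.FF.has0 (U722.FF.L2LIN n G N hN ρ hρ k (by omega)), ?_⟩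
  intro Γ _ M f hM hf k hk
  obtain ⟨L, hL⟩ : ∃ L : Subgroup Γ, L = (N.comap f).map M.subtype := ⟨_, rfl⟩
  have hLM : L ≤ M := by
    rw [hL]
    rintro _ ⟨y, -, rfl⟩
    exact y.2
  have hLN : ∀ x : L, f (Subgroup.inclusion hLM x) ∈ N := by
    rintro ⟨x, hx⟩
    have hx' := hx
    rw [hL] at hx'
    obtain ⟨y, hy, hyx⟩ := hx'
    have h1 : Subgroup.inclusion hLM ⟨x, hx⟩ = y := Subtype.ext hyx.symm
    rw [h1]
    exact hy
  have hidx : L.index ≠ 0 := by
    rw [hL, Subgroup.index_map_subtype, Subgroup.index_comap]
    refine mul_ne_zero (fun h => hN ?_) hM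
    exact Subgroup.index_eq_zero_of_relIndex_eq_zero h
  let j : L →* N := (f.comp (Subgroup.inclusion hLM)).codRestrict N hLN
  have hj : Function.Injective j := by
    intro a b hab
    exact Subgroup.inclusion_injective hLM (hf (congrArg Subtype.val hab))
  exact U722.FF.has0 (U722.FF.L2LIN n Γ L hidx (ρ.comp j) (hρ.comp hj) k hk)

end Pool.Agent.Results.MP_ea75ba_gt.PolynomialMatrixGroups
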