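import Mathlib
import Pool.Agent.U496.UP.AutInst

/-!
# The parity of `p(n)` against linear machines with automatic inputs (MP_ebc808_nt)

A linear machine of dimension `S` over `F_2` has states `x(n)` in a vector space `V` of dimension at most `S`; its rule is
`x(n + 1) = T x(n) + ∑_z u_z(n) v_z`, and its guess of the parity of `p(n)` is `o(x(n)) + ∑_z w_z u_z(n)`, where
`u_1, …, u_l` (the inputs, `l` arbitrary) are sequences which are computed by finite automata with at most `Q` states that
read the digits of `n` in bases of a finite set `𝓖`. For instance: solutions of inhomogeneous linear recurrences of order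
`S` whose right sides are sums of automatic sequences. At a failure the state may be changed at will. If there are `E`
failures up to `N`, then `N ≤ (S + 1) C ^ (E + 1)`, with `C` depending on `𝓖` and `Q` only. In particular a machine
without failures up to `N` has a dimension of at least `N / C - 1`, and for `S = N ^ (1 - δ)` there are at least
`c log N` failures. The same for automata with `S` states which read an arbitrary sequence, in any alphabet.

Proof. Let `d` be the dimension and `c_i` the coefficients of the characteristic polynomial of `T`. If there is no failure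
in `[n, n + d]`, then by Cayley and Hamilton `∑_i c_i p(n + i)` is a sum of values `u_z(n + j)`, `j ≤ d`, the terms of which
do not depend on `n` and `x`. The starting library (`N493`) proves that a nonzero linear pattern of length `K` plus any
number of automatic functions with shifts less than `K` takes both values in every interval `[A, C (A + K)]`. So there is
a failure in every interval `[A, C' (A + S + 1)]`.
-/

set_option autoImplicit false

namespace Pool.Agent.Results.MP_ebc808_nt.AutomaticInputs

open Finset
open Pool.Agent.U496.UP (Automatic failuresIn state costIn)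

/-- the parity of the number of partitions of `n` -/
def parity (n : ℕ) : ZMod 2 := (Fintype.card (Nat.Partition n) : ZMod 2)

/-- **Linear machines with automatic inputs.** Let `𝓖` be a finite set of bases `g ≥ 2` and `Q` a number. There is a
constant `C` such that for all `N`, `S`:
(1) for every vector space `V` over `F_2` of dimension at most `S`, all linear `T : V → V`, `o : V → F_2`, all `l`,
`u_1, …, u_l : ℕ → F_2` (each computed by an automaton with at most `Q` states which reads the digits of its argument in a
base of `𝓖`), `v_z ∈ V`, `w_z ∈ F_2` and all sequences `x` in `V`: `N ≤ (S + 1) C ^ (E + 1)`, where `E` is the number of the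
`n ≤ N` with `x (n + 1) ≠ T (x n) + ∑_z u_z(n) v_z` or `o (x n) + ∑_z u_z(n) w_z ≠ p(n)` modulo 2;
(2) the same for `E` = the number of the `n ≤ N` at which an automaton with at most `S` states, reading
`a 0, a 1, …`, does not predict `a n`, plus the number of the `n ≤ N` with `φ (a n) + ∑_z u_z(n) ≠ p(n)` modulo 2. -/
theorem result (𝓖 : Finset ℕ) (h𝓖 : ∀ g ∈ 𝓖, 2 ≤ g) (Q : ℕ) : ∃ C : ℕ, ∀ N S : ℕ,
    (∀ (V : Type) [AddCommGroup V] [Module (ZMod 2) V] [FiniteDimensional (ZMod 2) V],
      Module.finrank (ZMod 2) V ≤ S → ∀ (T : V →ₗ[ZMod 2] V) (o : V →ₗ[ZMod 2] ZMod 2) (l : ℕ)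
        (u : Fin l → ℕ → ZMod 2) (v : Fin l → V) (w : Fin l → ZMod 2) (x : ℕ → V),
        (∀ z, ∃ g ∈ 𝓖, Automatic g Q (u z)) →
          N ≤ (S + 1) * C ^ (failuresIn parity T o u v w x N + 1)) ∧
    (∀ (P A : Type) [Fintype P], Fintype.card P ≤ S → ∀ (next : P → A → P) (guess : P → A) (q₀ : P) (a : ℕ → A)
      (φ : A → ZMod 2) (l : ℕ) (u : Fin l → ℕ → ZMod 2), (∀ z, ∃ g ∈ 𝓖, Automatic g Q (u z)) →
        N ≤ (S + 1) * C ^ (costIn parity next guess q₀ a φ (fun n => ∑ z, u z n) N + 1)) := by
  have hpar : (fun n => (Pool.Agent.H413R3.Part.mp 1 n : ZMod 2)) = parity := by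
    funext n
    rw [Pool.Agent.H413R3.Part.mp_one]
    rfl
  have hdeep := Pool.Agent.U496.UP.deepA_mp 1 odd_one 𝓖 h𝓖 Q
  rw [hpar] at hdeep
  obtain ⟨C₁, h1⟩ := Pool.Agent.U496.UP.failuresIn_log hdeep
  obtain ⟨C₂, h2⟩ := Pool.Agent.U496.UP.costIn_log hdeep
  refine ⟨C₁ + C₂, fun N S => ⟨?_, ?_⟩⟩
  · intro V _ _ _ hV T o l u v w x hu
    exact (h1 N S V hV T o l u v w x hu).trans (Nat.mul_le_mul_left _ (Nat.pow_le_pow_left (by omega) _))
  · intro P A _ hP next guess q₀ a φ l u hu
    exact (h2 N S P A hP next guess q₀ a φ l u hu).trans (Nat.mul_le_mul_left _ (Nat.pow_le_pow_left (by omega) _))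

end Pool.Agent.Results.MP_ebc808_nt.AutomaticInputs
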