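import Pool.Agent.U496.PS.OneP
import Pool.Agent.N493.PE5

/-!
# The parity of `p(n)` is far from every sum of an automatic and a pushdown predictable sequence (MP_ebc808_nt)

We compare the parity of the partition function with the sums modulo 2 of two simple sequences:
* `Φ(v_1(n), …, v_R(n))`, where the `v_z(n)` can be computed in one pass over the binary digits of `n` with a bounded
  number of memory states (for instance a 2-automatic sequence such as the one of Thue and Morse);
* `φ(a(n))`, where `a` is a sequence which a deterministic pushdown machine (finitely many states, an unbounded stack, silent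
  moves) predicts, reading the preceding values, with `E` errors up to `N`.

The number of the `n ≤ N` with `p(n) ≠ Φ(v(n)) + φ(a(n))` modulo 2, plus `E`, plus the height of the initial stack, is at
least `√N (log log N) ^ K / log N`, for every `K` and all `N ≥ N₀`, where `N₀` does not depend on the `v_z`, `Φ`, `a`, `φ`
and the initial situation. The same holds for every nonzero joint linear pattern of the dilates
`p(4 ^ α (2 ^ b n + r) + i)` in place of `p(n)`.

Proof. A machine which makes `E` errors reads, up to `N`, a sequence which has bounded periods on all but `O(E + |s₀| + 1)`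
of the windows of a given length (`Pool.Agent.U496.PS.local_per`); so there is `ρ` such that `a(n + ρ) ≠ a(n)` for at most
`O(E + |s₀| + 1)` of the `n < N`. Let `w` be the sum of the joint pattern and `Φ(v(n))`. Then `w(n) + w(n + ρ)` is a joint
pattern plus a function of one-pass functions (the shift of a one-pass function is one, with more states:
`OnePass.shift`), and it takes the value 1 at least `√N (log log N) ^ (K + 1) / log N` times by the starting file
`JointDilatePatterns` (library `N493/PE5`).
-/

set_option autoImplicit false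

namespace Pool.Agent.Results.MP_ebc808_nt.AutomaticPlusPushdown

open Pool.Agent.U364.PD (Machine errors)
open PowerSeries Finset

/-- `u(n)` can be computed in one pass over the binary digits of `n` with `Q` memory states: either for
every `k` the value `u(2 ^ k n + r)` (`n ≥ 1`, `r < 2 ^ k`) depends only on `n` and on one of `Q` states
which is determined by `r` (the digits are read from the lowest one), or for every `k` it depends only
on `r` and on one of `Q` states which is determined by `n` (from the highest one) -/
def OnePass (Q : ℕ) (u : ℕ → ZMod 2) : Prop :=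
  (∀ k : ℕ, ∃ (s : ℕ → Fin Q) (h : Fin Q → ℕ → ZMod 2), ∀ n r : ℕ, 1 ≤ n → r < 2 ^ k →
    u (2 ^ k * n + r) = h (s r) n) ∨
  (∀ k : ℕ, ∃ (s : ℕ → Fin Q) (h : Fin Q → ℕ → ZMod 2), ∀ n r : ℕ, 1 ≤ n → r < 2 ^ k →
    u (2 ^ k * n + r) = h (s n) r)

theorem oftenJ : Pool.Agent.U496.PS.OftenJ (fun n => (Fintype.card (Nat.Partition n) : ZMod 2)) := by
  intro b A L R Q K
  obtain ⟨X, hX⟩ := Pool.Agent.N493.PE.mainJ 1 b A L R Q K (by norm_num)
  refine ⟨X, fun x hx c hc v hv Φ => ?_⟩
  have h := hX c hc v hv Φ 0 1 x hx
  have e : (((Finset.range (x + 1)).filter fun n => n % 2 ^ b = 0 % 2 ^ b ∧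
      Pool.Agent.N493.PE.wF c (fun n => coeff n (Pool.Agent.N493.PD.Ft 1)) n +
        Φ (fun z => v z n) = 1)) =
      (Finset.range (x + 1)).filter fun n => n % 2 ^ b = 0 ∧
        ∑ a : Fin (A + 1), ∑ i : Fin (L + 1),
          c a i * (Fintype.card (Nat.Partition (4 ^ (a : ℕ) * n + i)) : ZMod 2) +
          Φ (fun z => v z n) = 1 := by
    ext n
    unfold Pool.Agent.N493.PE.wF
    simp only [Finset.mem_filter, pow_one, coeff_mk, Nat.zero_mod]
  rw [e] at h
  exact h

/-- **Automatic plus pushdown predictable.** Let `M` be a deterministic pushdown machine with finitely many states and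
stack symbols. For all `b, A, L, R, Q, r, B, K` there is `N₀` such that for all `N ≥ N₀`, all nonzero `c`, all functions
`v_1, …, v_R` which can be computed in one pass with `Q` states and all `Φ`, all sequences `a` with values in
`{0, …, B - 1}`, all `φ`, all initial states `q₀` and initial stacks `s₀`: the number of the `1 ≤ n ≤ N` with
`φ(a(n)) ≠ ∑_α ∑_i c_(α,i) p(4 ^ α (2 ^ b n + r) + i) + Φ(v(2 ^ b n + r))` modulo 2, plus the number of the errors of `M` on
`a(1), …, a(N)`, plus the height of `s₀` is at least `√N (log log N) ^ K / log N`. -/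
theorem result (b A L R Q r : ℕ) {S Γ : Type} [Finite S] [Finite Γ] (M : Machine S Γ) (B K : ℕ) :
    ∃ N₀ : ℕ, ∀ N : ℕ, N₀ ≤ N → ∀ c : Fin (A + 1) → Fin (L + 1) → ZMod 2, c ≠ 0 →
      ∀ v : Fin R → ℕ → ZMod 2, (∀ z, OnePass Q (v z)) → ∀ Φ : (Fin R → ZMod 2) → ZMod 2,
      ∀ (a : ℕ → ℤ) (φ : ℤ → ZMod 2), (∀ n, 0 ≤ a n ∧ a n < B) → ∀ (q₀ : S) (s₀ : List Γ),
        √(N : ℝ) * Real.log (Real.log N) ^ K / Real.log N ≤
          (((range N).filter fun n => φ (a (n + 1)) ≠
            ∑ α : Fin (A + 1), ∑ i : Fin (L + 1),
              c α i * (Fintype.card (Nat.Partition (4 ^ (α : ℕ) * (2 ^ b * (n + 1) + r) + i)) : ZMod 2) +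
            Φ (fun z => v z (2 ^ b * (n + 1) + r))).card : ℝ) +
          errors M a q₀ s₀ N + s₀.length :=
  Pool.Agent.U496.PS.pushdown_joint _ oftenJ b A L R Q r M B K

end Pool.Agent.Results.MP_ebc808_nt.AutomaticPlusPushdown
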