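import Pool.Agent.U286.DP.Main

set_option autoImplicit false

/-!
# Parity of `p(n)` against polynomials in the binary digits of `n` (MP_ebc808_nt)

Let `W(n) = ∑_{a ≤ A} ∑_{i ≤ L} c_{a,i} p(4 ^ a n + i)` modulo 2 with `c ≠ 0`; for instance
`W(n) = p(n)` modulo 2.

(1) *Low rank.* Fix `A, L, b, k, K`. For all `x ≥ X`, all `c ≠ 0`, all residue classes `ρ` modulo `2 ^ b`
and all `u : ℕ → F_2` which on this class are a sum of `2 ^ k - 1` products of a function of the `b + k`
lowest binary digits of `n` and a function of the other digits, we have `W(n) ≠ u(n)` for at least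
`√x (log log x) ^ K / log x` of the `n ≤ x` in the class. On the class there are only `2 ^ k` values of
the `b + k` lowest digits, so that every function is a sum of `2 ^ k` such products: the `2 ^ k - 1` is
best possible.

(2) *Polynomials.* Fix `A, L, b, D, R, Q, K`. For all `x ≥ X`, all `c ≠ 0`, every polynomial `u(n)` of
degree at most `D` in the binary digits of `n` over `F_2` (with any number of monomials), the
coefficients of which may be Boolean functions of the outputs of `R` computations which read the binary
digits of `n` in one pass, from the lowest or from the highest, with `Q` memory states, for all `ρ` and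
both `κ`, the equation `W(n) + u(n) = κ` has at least `√x (log log x) ^ K / log x` solutions `n ≤ x`,
`n ≡ ρ` modulo `2 ^ b`. All of `u` may depend on `x`.

If the density in the question is `1 / 2`, then no simple rule should predict the parity of `p(n)` better
than chance. The starting file `JointDilatePatterns` considers the rules with `D = 0`; there, the number
of states at a cut through the digits is bounded, and the pigeonhole principle gives two residues
`r, r'` modulo `2 ^ k` with the same state. Polynomials of degree 2 such as `∑ d_j(n) d_{2 j + 1}(n)`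
(`d_j(n)` the digits) cannot be computed with bounded memory. Here only the rank over `F_2` of the
matrix `(u(2 ^ k n + r))_{r, n}` is used: it is at most `(k + 1) ^ D` times a constant for polynomials of
degree `D`, hence smaller than `2 ^ k - 1` for large `k`, and there is a nonempty set `Y` of residues with
`∑_{r ∈ Y} u(2 ^ k n + r) = 0` for all `n ≥ 1`. The sum of `W(2 ^ k n + r)` over `r ∈ Y` is a nonzero joint
pattern at `2 ^ k n` again, because it belongs to the product of the polynomials
`∑_{r ∈ Y} X ^ {4 ^ a r}` and `∑ c_{a,i} X ^ i`; so it is `1` often (library of the starting file).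
-/

namespace Pool.Agent.Results.MP_ebc808_nt.DigitPolynomials

open PowerSeries Pool.Agent.U286.DP

theorem result (A L b K : ℕ) :
    (∀ k : ℕ, ∃ X : ℕ, ∀ x : ℕ, X ≤ x → ∀ c : Fin (A + 1) → Fin (L + 1) → ZMod 2, c ≠ 0 →
      ∀ (ρ : ℕ) (u : ℕ → ZMod 2), RankLE b k (2 ^ k - 1) ρ u →
        √x * Real.log (Real.log x) ^ K / Real.log x ≤
          (((Finset.range (x + 1)).filter fun n => n % 2 ^ b = ρ % 2 ^ b ∧
            ∑ a : Fin (A + 1), ∑ i : Fin (L + 1),
              c a i * (Fintype.card (Nat.Partition (4 ^ (a : ℕ) * n + i)) : ZMod 2) ≠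
              u n).card : ℝ)) ∧
    (∀ D R Q : ℕ, ∃ X : ℕ, ∀ x : ℕ, X ≤ x → ∀ c : Fin (A + 1) → Fin (L + 1) → ZMod 2, c ≠ 0 →
      ∀ u : ℕ → ZMod 2, DigitPoly D R Q u → ∀ (ρ : ℕ) (κ : ZMod 2),
        √x * Real.log (Real.log x) ^ K / Real.log x ≤
          (((Finset.range (x + 1)).filter fun n => n % 2 ^ b = ρ % 2 ^ b ∧
            ∑ a : Fin (A + 1), ∑ i : Fin (L + 1),
              c a i * (Fintype.card (Nat.Partition (4 ^ (a : ℕ) * n + i)) : ZMod 2) +
              u n = κ).card : ℝ)) ∧
    (∀ (k ρ : ℕ) (u : ℕ → ZMod 2), RankLE b k (2 ^ k) ρ u) := by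
  have key : ∀ (c : Fin (A + 1) → Fin (L + 1) → ZMod 2) (n : ℕ),
      Pool.Agent.N493.PE.wF c (fun n => coeff n (Pool.Agent.N493.PD.Ft 1)) n =
        ∑ a : Fin (A + 1), ∑ i : Fin (L + 1),
          c a i * (Fintype.card (Nat.Partition (4 ^ (a : ℕ) * n + i)) : ZMod 2) := by
    intro c n
    unfold Pool.Agent.N493.PE.wF
    simp only [pow_one, coeff_mk]
  have hne : ∀ w u : ZMod 2, w + u = 1 ↔ w ≠ u := by decide
  refine ⟨?_, ?_, fun k ρ u => rankLE_all b k ρ u⟩
  · intro k
    obtain ⟨X, hX⟩ := main_rankLE 1 b A L K k (2 ^ k - 1) (by norm_num)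
      (Nat.sub_lt (by positivity) one_pos)
    refine ⟨X, fun x hx c hc ρ u hu => ?_⟩
    have h := hX x hx c hc ρ u hu
    simp only [key, hne] at h
    exact h
  · intro D R Q
    obtain ⟨X, hX⟩ := main_poly 1 b A L K D R Q (by norm_num)
    refine ⟨X, fun x hx c hc u hu ρ κ => ?_⟩
    have h := hX x hx c hc u hu ρ κ
    simp only [key] at h
    exact h

end Pool.Agent.Results.MP_ebc808_nt.DigitPolynomials
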