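import Pool.Agent.U831.JE.MonFam

/-!
# At every scale all monomials in `ζ(n)` and `π` off one line have equidistributed multiples

Let `n ≥ 2`. The question is whether `t(n) = ζ(2n) / ζ(n) ^ 2`, a rational multiple of
`ζ(n) ^ (-2) π ^ (2n)`, is irrational for odd `n`. Fix a degree `D` and a finite set of numbers
`c ζ(n) ^ j π ^ k` (`c ≠ 0` rational, `j`, `k` integers). We show that there is `c₀ > 0` such that
for all large `N` there is a line through the origin such that all the numbers of the set with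
`(j, k)` off this line are *good at the scale `N`*: for ALL nonconstant integer polynomials `f` of
degree at most `D` with coefficients at most `N ^ c₀` the multiples of `f(x)` are equidistributed
with discrepancy `N ^ (-c₀)`. In particular at every scale `t(n)` is good, or all the others which
are not proportional to it (`k + n j ≠ 0`) are good.

Proof. Counting in blocks of two lengths, a number `x` which is not good at the scale `N` has a
polynomial `P` of degree at most `D` with coefficients at most `N ^ (4 c₀)` with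
`|P(x)| ≤ 20 N ^ (c₀ - 1)`. If the determinant `k j' - k' j` is nonzero, a product of powers of two
such monomials is a rational multiple of a power of `π`, and the transcendence measure of `π` gives
a joint measure of the two monomials (starting library, `Pool.Agent.R356.jointR_of_rel`).
-/

set_option autoImplicit false

namespace Pool.Agent.Results.MP_f1a024_nt.AllButOneMonomial

open Polynomial

/-- The number of `m < N` with the fractional part of `m α + γ` in `[u, v)`. -/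
noncomputable def count (α γ u v : ℝ) (N : ℕ) : ℕ :=
  ((Finset.range N).filter fun m : ℕ =>
    u ≤ Int.fract (m * α + γ) ∧ Int.fract (m * α + γ) < v).card

/-- The sequence `m α + γ` (`m < N`) modulo one has discrepancy at most `Δ`, for every shift `γ`. -/
def DiscrepancyLe (α : ℝ) (N : ℕ) (Δ : ℝ) : Prop :=
  ∀ γ u v : ℝ, 0 ≤ u → u ≤ v → v ≤ 1 → |(count α γ u v N : ℝ) - (v - u) * N| ≤ Δ * N

/-- `x` is good at the scale `N`: the multiples of all the numbers `f(x)`, where `f` is a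
nonconstant integer polynomial of degree at most `D` with coefficients at most `N ^ c`, are
equidistributed with discrepancy at most `N ^ (-c)`. -/
def Good (D : ℕ) (c : ℝ) (N : ℕ) (x : ℝ) : Prop :=
  ∀ f : ℤ[X], 1 ≤ f.natDegree → f.natDegree ≤ D → (∀ k, |(f.coeff k : ℝ)| ≤ (N : ℝ) ^ c) →
    DiscrepancyLe (aeval x f) N ((N : ℝ) ^ (-c))

/-- `ζ(s)` for integers `s ≥ 2` (the term `k = 0` is `1 / 0 = 0`). -/
noncomputable def zeta (s : ℕ) : ℝ := ∑' k : ℕ, 1 / (k : ℝ) ^ s

/-- `t(n) = ζ(2n) / ζ(n) ^ 2`. -/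
noncomputable def t (n : ℕ) : ℝ := zeta (2 * n) / zeta n ^ 2

lemma zeta_pos (n : ℕ) (hn : 2 ≤ n) : 0 < zeta n := by
  have hs : Summable fun k : ℕ => 1 / (k : ℝ) ^ n :=
    Real.summable_one_div_nat_pow.mpr (by omega)
  have h1 := hs.le_tsum 1 (fun k _ => by positivity)
  have h2 : (0 : ℝ) < 1 / ((1 : ℕ) : ℝ) ^ n := by simp
  exact h2.trans_le h1

/-- Euler: `t(n)` is a nonzero rational multiple of `ζ(n) ^ (-2) π ^ (2n)`. -/
lemma t_eq (n : ℕ) (hn : 2 ≤ n) :
    ∃ c : ℚ, c ≠ 0 ∧ t n = c * zeta n ^ (-2 : ℤ) * Real.pi ^ ((2 * n : ℕ) : ℤ) := by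
  have h1 := (hasSum_zeta_nat (k := n) (by omega)).tsum_eq
  refine ⟨(-1) ^ (n + 1) * 2 ^ (2 * n - 1) * _root_.bernoulli (2 * n) / (2 * n).factorial, ?_, ?_⟩
  · intro h0
    have h2 : zeta (2 * n) = 0 := by
      unfold zeta
      rw [h1]
      have h3 : (((-1) ^ (n + 1) * 2 ^ (2 * n - 1) * _root_.bernoulli (2 * n) / (2 * n).factorial : ℚ) :
          ℝ) = 0 := by rw [h0]; simp
      push_cast at h3
      calc _ = ((-1 : ℝ) ^ (n + 1) * 2 ^ (2 * n - 1) * (_root_.bernoulli (2 * n) : ℝ) /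
            ((2 * n).factorial : ℝ)) * Real.pi ^ (2 * n) := by ring
        _ = 0 := by rw [h3, zero_mul]
    exact (zeta_pos (2 * n) (by omega)).ne' h2
  · have hz := (zeta_pos n hn).ne'
    have h2 : zeta (2 * n) = (-1 : ℝ) ^ (n + 1) * (2 : ℝ) ^ (2 * n - 1) * Real.pi ^ (2 * n) *
        _root_.bernoulli (2 * n) / (2 * n).factorial := h1
    unfold t
    rw [h2, zpow_natCast, zpow_neg]
    norm_cast
    push_cast
    field_simp

theorem result (n : ℕ) (hn : 2 ≤ n) (D : ℕ) :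
    -- all monomials `c ζ(n)^j π^k` off one line are good
    (∀ F : Finset (ℚ × ℤ × ℤ), (∀ f ∈ F, f.1 ≠ 0) →
      ∃ c : ℝ, 0 < c ∧ ∃ N₀ : ℕ, ∀ N : ℕ, N₀ ≤ N → ∃ a : ℤ × ℤ, a ≠ 0 ∧ ∀ f ∈ F,
        f.2.2 * a.1 ≠ a.2 * f.2.1 → Good D c N (f.1 * zeta n ^ f.2.1 * Real.pi ^ f.2.2)) ∧
    -- `t(n)` is good, or all the monomials which are not proportional to it
    (∀ F : Finset (ℚ × ℤ × ℤ), (∀ f ∈ F, f.1 ≠ 0 ∧ f.2.2 + n * f.2.1 ≠ 0) →
      ∃ c : ℝ, 0 < c ∧ ∃ N₀ : ℕ, ∀ N : ℕ, N₀ ≤ N →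
        Good D c N (t n) ∨ ∀ f ∈ F, Good D c N (f.1 * zeta n ^ f.2.1 * Real.pi ^ f.2.2)) := by
  classical
  have key : ∀ F : Finset (ℚ × ℤ × ℤ), (∀ f ∈ F, f.1 ≠ 0) →
      ∃ c : ℝ, 0 < c ∧ ∃ N₀ : ℕ, ∀ N : ℕ, N₀ ≤ N → ∃ a : ℤ × ℤ, a ≠ 0 ∧ ∀ f ∈ F,
        f.2.2 * a.1 ≠ a.2 * f.2.1 → Good D c N (f.1 * zeta n ^ f.2.1 * Real.pi ^ f.2.2) := by
    intro F hF
    obtain ⟨c, hc, N₀, h⟩ := Pool.Agent.U831.JE.line_good Real.pi (zeta n) Real.pi_pos.ne'
      (zeta_pos n hn).ne' Pool.Agent.TH456.TM.measT_pi F hF D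
    refine ⟨c, hc, N₀, fun N hN => ?_⟩
    obtain ⟨a, ha, h2⟩ := h N hN
    exact ⟨a, ha, fun f hf hne => h2 f hf (sub_ne_zero.mpr hne)⟩
  refine ⟨key, fun F hF => ?_⟩
  obtain ⟨c0, hc0, ht⟩ := t_eq n hn
  obtain ⟨c, hc, N₀, h⟩ := key (insert (c0, -2, ((2 * n : ℕ) : ℤ)) F) (by
    intro f hf
    rcases Finset.mem_insert.mp hf with rfl | hf
    · exact hc0
    · exact (hF f hf).1)
  refine ⟨c, hc, N₀, fun N hN => ?_⟩
  obtain ⟨a, ha, h2⟩ := h N hN
  by_cases hline : ((2 * n : ℕ) : ℤ) * a.1 = a.2 * (-2)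
  · right
    have h3 : a.2 = -(n * a.1) := by push_cast at hline; linarith
    have h4 : a.1 ≠ 0 := by
      intro h4
      apply ha
      rw [h4, mul_zero, neg_zero] at h3
      exact Prod.ext h4 h3
    intro f hf
    refine h2 f (Finset.mem_insert_of_mem hf) ?_
    rw [h3]
    intro h5
    apply (hF f hf).2
    have h6 : (f.2.2 + n * f.2.1) * a.1 = 0 := by linear_combination h5
    rcases mul_eq_zero.mp h6 with h7 | h7
    · exact h7
    · exact absurd h7 h4
  · left
    have h7 := h2 (c0, -2, ((2 * n : ℕ) : ℤ)) (Finset.mem_insert_self _ _) hline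
    rw [← ht] at h7
    exact h7

end Pool.Agent.Results.MP_f1a024_nt.AllButOneMonomial
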