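import Pool.Agent.U17.SF.Strong

/-!
For every equation `a 1 x 1 + ⋯ + a ℓ x ℓ = b y` with `ℓ ≥ 2` and positive integer coefficients,
L-Free Subset is strongly NP-complete: it is in NP, and it stays NP-hard for sets of integers whose
absolute values are bounded by a polynomial in the number of elements.
-/

namespace Pool.Agent.Results.MP_f29e3e_lc.StronglyNPComplete

open Pool.Agent.U17.SF

theorem result (ℓ : ℕ) (hℓ : 2 ≤ ℓ) (a : Fin ℓ → ℕ) (b : ℕ) (ha : ∀ i, 0 < a i) (hb : 0 < b) :
    StronglyNPComplete (coeff a b) := by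
  obtain ⟨m, rfl⟩ : ∃ m, ℓ = m + 2 := ⟨ℓ - 2, by omega⟩
  exact strong ha hb

end Pool.Agent.Results.MP_f29e3e_lc.StronglyNPComplete
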