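import Mathlib
import Pool.Agent.N687.W.G5

/-!
# Convex domination in every window for the circle problem

Let `P(R) = #{p ∈ ℤ² : |p| ≤ R} - πR²`, and let `ν` be the limit law of `P(R)/√R` (Heath-Brown, Bleher).
For every convex function `Φ` the mean of `Φ(P(R)/√R)` over **every** window `[R₀, R₀ + H]`, `R₀ ≥ 1`, of
length `H ≥ H₀`, however small compared with `R₀`, is at least `∫ Φ dν - ε` (at least any given constant, if
`Φ` is not `ν`-integrable).  The bound is sharp: for `Φ` of at most quadratic growth there are, for every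
length `H` and arbitrarily far out, windows of length `H` with mean at most `∫ Φ dν + ε`.  In short: no
window, wherever it is, is more regular than the average one.

With `Φ(x) = |x|^p`, `p ≥ 1`: all moments of order `p ≥ 1` over all long windows are at least those of the
limit law; with `Φ(x) = max (x - K) 0`: every long window contains a substantial excess of `P(R)/√R` over
`K`, for every `K`, and the same below `-K`.

Upper bounds for the means over such short windows are not available (they would be of the strength of the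
conjecture `P(R) = O(R^{1/2 + ε})`).
-/

set_option autoImplicit false

open MeasureTheory Filter Topology

namespace Pool.Agent.Results.MP_fb29e9_nt.ConvexDomination

open Pool.Agent.N687.W Pool.Agent.N687.W.Gn
open Pool.Agent.H383.Gauss (En F)
open Pool.Agent.H383.Circ (ag ag_zero wg wg_Wt rA_card)
open Pool.Agent.R461.GC (En_meas En_bdd)
open Pool.Agent.H452R2.Win (ag_Bdw En_SandW)

/-- the data of the circle problem -/
theorem datC : Dat En ag (3 * Real.pi / 4) wg 2 (-2) :=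
  ⟨ag_Bdw, ag_zero, wg_Wt, En_SandW, En_meas, En_bdd⟩

/-- **Convex domination in every window.** -/
theorem result (P : ℝ → ℝ)
    (hP : ∀ R : ℝ, P R = (Nat.card {p : ℤ × ℤ // (p.1 : ℝ) ^ 2 + (p.2 : ℝ) ^ 2 ≤ R ^ 2} : ℝ) -
      Real.pi * R ^ 2)
    (r : ℕ → ℕ) (hr : ∀ m : ℕ, r m = Nat.card {p : ℤ × ℤ // p.1 ^ 2 + p.2 ^ 2 = (m : ℤ)}) :
    ∃ (ν : ProbabilityMeasure ℝ) (G : ℂ → ℂ),
      -- the limit law
      (Differentiable ℂ G ∧ (∀ x : ℝ, 0 ≤ (G x).re ∧ (G x).im = 0) ∧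
        (ν : Measure ℝ) = volume.withDensity (fun x : ℝ => ENNReal.ofReal (G x).re) ∧
        (∀ u v : ℝ, u < v → 0 < (ν : Measure ℝ) (Set.Ioo u v)) ∧
        Integrable (fun x : ℝ => x ^ 2) (ν : Measure ℝ) ∧
        ∫ x, x ∂(ν : Measure ℝ) = 0 ∧
        HasSum (fun m : ℕ => (r m : ℝ) ^ 2 / (2 * Real.pi ^ 2) * (m : ℝ) ^ (-(3 / 2) : ℝ))
          (∫ x, x ^ 2 ∂(ν : Measure ℝ)) ∧
        ∀ f : ℝ → ℝ, Continuous f → (∃ C : ℝ, ∀ x, |f x| ≤ C * (1 + x ^ 2)) →
          Tendsto (fun T : ℝ => (∫ y in T..(2 * T), f (P y / √y)) / T) atTop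
            (𝓝 (∫ x, f x ∂(ν : Measure ℝ)))) ∧
      -- domination in every window
      (∀ Φ : ℝ → ℝ, ConvexOn ℝ Set.univ Φ → ∀ A : ℝ,
        (Integrable Φ (ν : Measure ℝ) → A < ∫ x, Φ x ∂(ν : Measure ℝ)) →
        ∃ H₀ : ℝ, ∀ R H : ℝ, 1 ≤ R → H₀ ≤ H → A * H ≤ ∫ y in R..(R + H), Φ (P y / √y)) ∧
      -- sharpness
      (∀ Φ : ℝ → ℝ, ConvexOn ℝ Set.univ Φ → (∃ C : ℝ, ∀ x, |Φ x| ≤ C * (1 + x ^ 2)) →
        ∀ ε H R₀ : ℝ, 0 < ε → 0 < H → ∃ R : ℝ, 1 ≤ R ∧ R₀ ≤ R ∧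
          ∫ y in R..(R + H), Φ (P y / √y) ≤ (∫ x, Φ x ∂(ν : Measure ℝ) + ε) * H) := by
  have hPE : ∀ R : ℝ, P R / √R = En R := by
    intro R
    rw [hP]
    rfl
  simp only [hPE]
  obtain ⟨ν, G, h1, h2, h3, h4, h5, h6, h7, hlaw⟩ := En_law
  refine ⟨ν, G, ⟨h1, h2, h3, h4, h5, h6, ?_, ?_⟩, ?_, ?_⟩
  · convert h7 using 1
    funext m
    rcases Nat.eq_zero_or_pos m with rfl | hm
    · rw [if_neg (by norm_num), Nat.cast_zero, Real.zero_rpow (by norm_num), mul_zero]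
    · have hm0 : (0 : ℝ) < m := by exact_mod_cast hm
      rw [if_pos (by omega)]
      unfold ag
      rw [rA_card, ← hr, mul_pow, ← Real.rpow_natCast (√(m : ℝ) ^ (-(3 / 2) : ℝ)),
        ← Real.rpow_mul (Real.sqrt_nonneg _), Real.sqrt_eq_rpow, ← Real.rpow_mul hm0.le]
      norm_num
      have := Real.pi_ne_zero
      field_simp
  · intro f hf hC
    rw [Metric.tendsto_atTop]
    intro ε hε
    obtain ⟨T₀, hT₀⟩ := hlaw f hf hC (ε / 2) (by positivity)
    refine ⟨T₀, fun T hT => ?_⟩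
    rw [Real.dist_eq, two_mul]
    exact (hT₀ T hT).trans_lt (by linarith)
  · intro Φ hΦ A hA
    obtain ⟨H₀, -, h⟩ := datC.dom h5 hlaw hΦ hA
    exact ⟨H₀, h⟩
  · intro Φ hΦ hC ε H R₀ hε hH
    obtain ⟨R, k1, k2, k3⟩ := datC.sharp (R₀ := R₀) hlaw (conv_cont hΦ) hC hε hH
    exact ⟨R, k2, k1, k3⟩

end Pool.Agent.Results.MP_fb29e9_nt.ConvexDomination
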