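import Pool.Statements.S07740
import Pool.Agent.U411.Queens.Evens

set_option autoImplicit false
open Pool Pool.MP_27266b_co

namespace Pool.Agent.S07740

/-- The negation of the preceding statement: There is a board size n other than 3 and 11 for which the minimum number of queens dominating the n×n board equals (n−1)/2. -/
theorem result :
    ¬ (∃ n : ℕ, n ≠ 3 ∧ n ≠ 11 ∧
      2 * sInf {k : ℕ | ∃ D : Finset (Fin n × Fin n), D.card = k ∧
        ∀ p : Fin n × Fin n, ∃ q ∈ D,
          p.1 = q.1 ∨ p.2 = q.2 ∨
          (p.1.val : ℤ) - (p.2.val : ℤ) = (q.1.val : ℤ) - (q.2.val : ℤ) ∨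
          p.1.val + p.2.val = q.1.val + q.2.val} + 1 = n) := by
  classical
  rintro ⟨n, h3, h11, hn⟩
  have hmem := Nat.sInf_mem (s := {k : ℕ | ∃ D : Finset (Fin n × Fin n), D.card = k ∧
        ∀ p : Fin n × Fin n, ∃ q ∈ D,
          p.1 = q.1 ∨ p.2 = q.2 ∨
          (p.1.val : ℤ) - (p.2.val : ℤ) = (q.1.val : ℤ) - (q.2.val : ℤ) ∨
          p.1.val + p.2.val = q.1.val + q.2.val})
    ⟨(Finset.univ : Finset (Fin n × Fin n)).card, Finset.univ, rfl,
      fun p => ⟨p, Finset.mem_univ _, Or.inl rfl⟩⟩
  obtain ⟨D, hDc, hD⟩ := hmem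
  rw [← hDc] at hn
  have hg : n = 2 * D.card + 1 := hn.symm
  have hdom : Pool.Agent.U411.Queens.Dom D.card
      (D.image (fun q : Fin n × Fin n => ((q.1.val : ℤ), (q.2.val : ℤ)))) := by
    refine ⟨?_, ?_, ?_⟩
    · apply Finset.card_image_of_injective
      intro a b hab
      simp only [Prod.mk.injEq, Nat.cast_inj] at hab
      exact Prod.ext (Fin.ext hab.1) (Fin.ext hab.2)
    · intro q hq
      obtain ⟨p, -, rfl⟩ := Finset.mem_image.1 hq
      have h1 := p.1.isLt
      have h2 := p.2.isLt
      simp only
      omega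
    · intro x y hx0 hx1 hy0 hy1
      obtain ⟨q, hq, h⟩ := hD (⟨x.toNat, by omega⟩, ⟨y.toNat, by omega⟩)
      refine ⟨((q.1.val : ℤ), (q.2.val : ℤ)), Finset.mem_image.2 ⟨q, hq, rfl⟩, ?_⟩
      simp only at h ⊢
      rcases h with h | h | h | h
      · left
        have := congrArg Fin.val h
        simp only at this
        omega
      · right; left
        have := congrArg Fin.val h
        simp only at this
        omega
      · right; right; left
        omega
      · right; right; right
        omega
  rcases hdom.final with h | h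
  · apply h3
    omega
  · apply h11
    omega

end Pool.Agent.S07740
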