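import Pool.Statements.S09102
import Pool.Agent.U444.Nest.Core

/-!
The Cayley graph of `ℤ` with generators `1` and `8` has no nested sequence of edge-optimal sets: the
optimal sets with 21 elements are the intervals, the optimal sets with 16 elements have boundary 16
(a `4 × 4` square), and no subset of an interval of length 21 has this property.
-/

set_option autoImplicit false
open Pool Pool.MP_602b76_co

namespace Pool.Agent.S09102

open Finset Pool.Agent.U444.Nest

/-- the generators -/
def U : Finset (Fin 1 → ℤ) := {fun _ => 1, fun _ => 8}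

/-- the boundary in the frozen statement -/
def bd (S : Finset (Fin 1 → ℤ)) : ℕ :=
  ((S ×ˢ (U ∪ U.image (fun u => -u))).filter (fun p => p.1 + p.2 ∉ S)).card

lemma W_eq : U ∪ U.image (fun u => -u) =
    ({fun _ => 1, fun _ => -1, fun _ => 8, fun _ => -8} : Finset (Fin 1 → ℤ)) := by
  decide

lemma part (S : Finset (Fin 1 → ℤ)) (k : ℤ) :
    (S.filter (fun p => p + (fun _ => k) ∉ S)).card =
      ((S.image (fun v => v 0)).filter (fun x => x + k ∉ S.image (fun v => v 0))).card := by
  have hinj : Function.Injective (fun v : Fin 1 → ℤ => v 0) := by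
    intro v w h
    funext i
    have : i = 0 := Subsingleton.elim _ _
    subst this
    exact h
  have hmem : ∀ v : Fin 1 → ℤ, v 0 ∈ S.image (fun v => v 0) ↔ v ∈ S := by
    intro v
    constructor
    · intro h
      obtain ⟨w, hw, h2⟩ := mem_image.1 h
      rwa [← hinj h2]
    · intro h
      exact mem_image_of_mem _ h
  rw [← card_image_of_injective _ hinj]
  congr 1
  ext x
  constructor
  · intro hx
    obtain ⟨v, hv, rfl⟩ := mem_image.1 hx
    rw [mem_filter] at hv ⊢
    refine ⟨mem_image_of_mem _ hv.1, fun h => hv.2 ?_⟩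
    rw [← hmem]
    exact h
  · intro hx
    rw [mem_filter] at hx
    obtain ⟨v, hv, rfl⟩ := mem_image.1 hx.1
    refine mem_image_of_mem _ ?_
    rw [mem_filter]
    refine ⟨hv, fun h => hx.2 ?_⟩
    rw [← hmem] at h
    exact h

lemma bd_eq (S : Finset (Fin 1 → ℤ)) :
    bd S = 2 * ((A (S.image (fun v => v 0)) 1).card + (A (S.image (fun v => v 0)) 8).card) := by
  have h1 : bd S = ∑ w ∈ (U ∪ U.image (fun u => -u)), (S.filter (fun p => p + w ∉ S)).card := by
    unfold bd
    simp only [card_filter]
    rw [sum_product_right]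
  rw [h1, W_eq, sum_insert, sum_insert, sum_insert, sum_singleton, part S 1, part S (-1),
    part S 8, part S (-8), ends_eq _ 1, ends_eq _ 8]
  · have e : ∀ k : ℤ, (filter (fun x => x + -k ∉ S.image (fun v => v 0))
        (S.image (fun v => v 0))).card = (A (S.image (fun v => v 0)) k).card := by
      intro k
      rfl
    rw [e 1, e 8]
    ring
  · decide
  · decide
  · decide

lemma closure_U : AddSubgroup.closure (U : Set (Fin 1 → ℤ)) = ⊤ := by
  rw [eq_top_iff]
  intro v _
  have h1 : (fun _ => 1 : Fin 1 → ℤ) ∈ AddSubgroup.closure (U : Set (Fin 1 → ℤ)) :=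
    AddSubgroup.subset_closure (by simp [U])
  have h2 : v = v 0 • (fun _ => 1 : Fin 1 → ℤ) := by
    funext i
    have : i = 0 := Subsingleton.elim _ _
    subst this
    simp
  rw [h2]
  exact AddSubgroup.zsmul_mem _ h1 _

/-- an interval -/
def I21 : Finset (Fin 1 → ℤ) := (range 21).image (fun (i : ℕ) _ => (i : ℤ))

/-- a square -/
def Q16 : Finset (Fin 1 → ℤ) := (range 16).image (fun (i : ℕ) _ => ((i % 4 + 8 * (i / 4) : ℕ) : ℤ))

/-- The negation of the preceding statement: For every d ≥ 1 and finite generating set U of ℤ^d not containing 0, some enumeration of ℤ^d has every initial segment of size n with edge boundary in the Cayley graph at most that of any n-element set. -/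
theorem result :
    ¬ (∀ d : ℕ, 1 ≤ d → ∀ U : Finset (Fin d → ℤ), (0 : Fin d → ℤ) ∉ U →
      AddSubgroup.closure (U : Set (Fin d → ℤ)) = ⊤ →
      ∃ e : ℕ ≃ (Fin d → ℤ), ∀ n : ℕ, 1 ≤ n → ∀ S : Finset (Fin d → ℤ), S.card = n →
        ((((Finset.range n).image ⇑e) ×ˢ (U ∪ U.image (fun u => -u))).filter
            (fun p => p.1 + p.2 ∉ (Finset.range n).image ⇑e)).card ≤
        ((S ×ˢ (U ∪ U.image (fun u => -u))).filter (fun p => p.1 + p.2 ∉ S)).card) := by
  intro h
  obtain ⟨e, he⟩ := h 1 le_rfl U (by decide) closure_U
  have h21 : bd ((range 21).image ⇑e) ≤ bd I21 := he 21 (by norm_num) I21 (by decide +kernel)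
  have h16 : bd ((range 16).image ⇑e) ≤ bd Q16 := he 16 (by norm_num) Q16 (by decide +kernel)
  have b21 : bd I21 = 18 := by decide +kernel
  have b16 : bd Q16 = 16 := by decide +kernel
  rw [b21, bd_eq] at h21
  rw [b16, bd_eq] at h16
  have hinj : Function.Injective (fun v : Fin 1 → ℤ => v 0) := by
    intro v w h
    funext i
    have : i = 0 := Subsingleton.elim _ _
    subst this
    exact h
  have c21 : (((range 21).image ⇑e).image (fun v : Fin 1 → ℤ => v 0)).card = 21 := by
    rw [card_image_of_injective _ hinj, card_image_of_injective _ e.injective, card_range]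
  have c16 : (((range 16).image ⇑e).image (fun v : Fin 1 → ℤ => v 0)).card = 16 := by
    rw [card_image_of_injective _ hinj, card_image_of_injective _ e.injective, card_range]
  obtain ⟨s, hs⟩ := big _ c21 (by omega)
  refine small _ c16 s (fun x hx => hs x ?_) (by omega)
  have hsub : (range 16).image ⇑e ⊆ (range 21).image ⇑e :=
    image_subset_image (fun i hi => by rw [mem_range] at hi ⊢; omega)
  exact image_subset_image hsub hx

end Pool.Agent.S09102
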